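import Pool.Agent.Lib.MP_745d3a_ag.HTwo

/-!
Three weights on the supporting hyperplane, lowest piece of rank one.
-/

open MvPolynomial

set_option linter.unusedSectionVars false
set_option linter.unusedSimpArgs false

namespace Pool.Agent.Lib.MP_745d3a_ag

section

variable {σ K M G : Type*} [DecidableEq σ] [Fintype σ] [Field K] [AddCommGroup M]
  [Module (MvPolynomial σ K) M]
  [AddCommGroup G] [DecidableEq G] {ω : σ → G} {𝓜 : G → AddSubgroup M}
  [DirectSum.Decomposition 𝓜] [SetLike.GradedSMul (weightedHomogeneousSubmodule K ω) 𝓜]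
  {η δ : G →+ ℤ}

lemma eta_nonneg_of_hom (hη : ∀ κ, 0 ≤ η (ω κ)) {a : MvPolynomial σ K} {g : G}
    (ha : IsWeightedHomogeneous ω a g) (ha0 : a ≠ 0) : 0 ≤ η g := by
  obtain ⟨e, he⟩ := exists_coeff_ne ha0
  rw [← ha he, map_weight]
  exact Finset.sum_nonneg (fun κ _ => mul_nonneg (by positivity) (hη κ))

lemma ne_zero_of_notMem {p : Ideal (MvPolynomial σ K)} {D : MvPolynomial σ K} (h : D ∉ p) :
    D ≠ 0 := fun h0 => h (h0 ▸ p.zero_mem)

variable [Module.IsReflexive (MvPolynomial σ K) M]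

/-- Local bases containing `s`, with homogeneous denominators. -/
lemma exists_HB_s [Module.Finite (MvPolynomial σ K) M] (hη : ∀ κ, 0 ≤ η (ω κ))
    (hδ : ∀ κ, δ (ω κ) = 1)
    (hfree : PuncturedFree (K := K) (σ := σ) M)
    (hrank : Module.finrank (MvPolynomial σ K) M = 2) {g0 : G} {s : M}
    (hs : s ∈ 𝓜 g0) (hs0 : s ≠ 0) (hmin1 : ∀ g, ∀ m ∈ 𝓜 g, m ≠ 0 → η g0 ≤ η g)
    (hmin2 : ∀ g, ∀ m ∈ 𝓜 g, m ≠ 0 → η g = η g0 → δ g0 ≤ δ g)
    (hdep : ∀ g, ∀ m ∈ 𝓜 g, η g = η g0 → ∃ c c' : MvPolynomial σ K, c ≠ 0 ∧ c • m = c' • s)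
    {u : σ} (hu : η (ω u) = 0)
    (p : Ideal (MvPolynomial σ K)) [p.IsPrime] (hup : (X u : MvPolynomial σ K) ∉ p) :
    ∃ gt : G, ∃ t ∈ 𝓜 gt,
      (∀ a b : MvPolynomial σ K, a • s + b • t = 0 → a = 0 ∧ b = 0) ∧
      ∀ g, ∀ x ∈ 𝓜 g, ∃ (d : G) (D a b : MvPolynomial σ K), D ∉ p ∧
        IsWeightedHomogeneous ω D d ∧ D • x = a • s + b • t := by
  obtain ⟨g1, g2, m1, hm1, m2, hm2, hind, hspan⟩ := exists_HB (𝓜 := 𝓜) hη hfree hrank hu p hup
  obtain ⟨d, D, a, b, hD, hDhom, hd, hab⟩ := hspan g0 s hs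
  have hD0 := ne_zero_of_notMem hD
  have hmem := smul_mem' ω 𝓜 hDhom hs
  rw [hab] at hmem
  obtain ⟨ha, hb⟩ := hom_of_pair ω 𝓜 hm1 hm2 hind hmem
  have hm10 : m1 ≠ 0 := by
    intro h
    have := (hind 1 0 (by rw [h]; simp)).1
    exact one_ne_zero this
  have hm20 : m2 ≠ 0 := by
    intro h
    have := (hind 0 1 (by rw [h]; simp)).2
    exact one_ne_zero this
  by_cases ha0 : a = 0
  · have hb0 : b ≠ 0 := by
      intro h
      rw [ha0, h, zero_smul, zero_smul, add_zero] at hab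
      rcases torsionfree_of_reflexive _ _ hab with h1 | h1
      exacts [hD0 h1, hs0 h1]
    have h1 := eta_nonneg_of_hom hη hb hb0
    have h2 := hmin1 g2 m2 hm2 hm20
    rw [map_sub, map_add, hd] at h1
    obtain ⟨c, c', hc, hcm⟩ := hdep g2 m2 hm2 (by linarith)
    obtain ⟨c2, hc2⟩ := saturated hη hδ hs hs0 hmin1 hmin2 hm2 hc hcm
    have hc20 : c2 ≠ 0 := by
      intro h; rw [h, zero_smul] at hc2; exact hm20 hc2
    refine ⟨g1, m1, hm1, ?_, ?_⟩
    · intro x y hxy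
      have h3 : (c2 * y) • m1 + x • m2 = 0 := by
        rw [hc2, smul_smul, mul_comm x, mul_smul, mul_smul, ← smul_add, add_comm, hxy, smul_zero]
      obtain ⟨h4, h5⟩ := hind _ _ h3
      exact ⟨h5, (mul_eq_zero.mp h4).resolve_left hc20⟩
    · intro g x hx
      obtain ⟨d', D', a', b', hD', hDhom', _, hab'⟩ := hspan g x hx
      refine ⟨d', D', b' * c2, a', hD', hDhom', ?_⟩
      rw [hab', hc2, smul_smul, add_comm]
  · have h1 := eta_nonneg_of_hom hη ha ha0
    have h2 := hmin1 g1 m1 hm1 hm10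
    rw [map_sub, map_add, hd] at h1
    obtain ⟨c, c', hc, hcm⟩ := hdep g1 m1 hm1 (by linarith)
    obtain ⟨c1, hc1⟩ := saturated hη hδ hs hs0 hmin1 hmin2 hm1 hc hcm
    have hc10 : c1 ≠ 0 := by
      intro h; rw [h, zero_smul] at hc1; exact hm10 hc1
    refine ⟨g2, m2, hm2, ?_, ?_⟩
    · intro x y hxy
      have h3 : x • m1 + (c1 * y) • m2 = 0 := by
        rw [hc1, smul_smul, mul_comm x, mul_smul, mul_smul, ← smul_add, hxy, smul_zero]
      obtain ⟨h4, h5⟩ := hind _ _ h3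
      exact ⟨h4, (mul_eq_zero.mp h5).resolve_left hc10⟩
    · intro g x hx
      obtain ⟨d', D', a', b', hD', hDhom', _, hab'⟩ := hspan g x hx
      refine ⟨d', D', a' * c1, b', hD', hDhom', ?_⟩
      rw [hab', hc1, smul_smul]

/-- The denominators for arbitrary elements. -/
lemma span_all {s t : M} {p : Ideal (MvPolynomial σ K)} [hp : p.IsPrime]
    (h : ∀ g, ∀ x ∈ 𝓜 g, ∃ (d : G) (D a b : MvPolynomial σ K), D ∉ p ∧
        IsWeightedHomogeneous ω D d ∧ D • x = a • s + b • t) (x : M) :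
    ∃ (d : G) (D a b : MvPolynomial σ K), D ∉ p ∧
        IsWeightedHomogeneous ω D d ∧ D • x = a • s + b • t := by
  refine hom_induction 𝓜 (P := fun x => ∃ (d : G) (D a b : MvPolynomial σ K), D ∉ p ∧
        IsWeightedHomogeneous ω D d ∧ D • x = a • s + b • t) ?_ h ?_ x
  · refine ⟨0, 1, 0, 0, ?_, isWeightedHomogeneous_one K ω, by simp⟩
    intro h1
    exact hp.ne_top ((Ideal.eq_top_iff_one _).mpr h1)
  · rintro m n ⟨d, D, a, b, h1, h2, h3⟩ ⟨d', D', a', b', h1', h2', h3'⟩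
    refine ⟨d + d', D * D', D' * a + D * a', D' * b + D * b', ?_, h2.mul h2', ?_⟩
    · intro h
      rcases hp.mem_or_mem h with h | h
      exacts [h1 h, h1' h]
    · have e1 : (D * D') • m = D' • (a • s + b • t) := by rw [mul_comm, mul_smul, h3]
      have e2 : (D * D') • n = D • (a' • s + b' • t) := by rw [mul_smul, h3']
      rw [smul_add, e1, e2]
      simp only [smul_add, add_smul, mul_smul]
      abel

/-- **Three weights, lowest piece of rank one.** -/
theorem case_one [Module.Finite (MvPolynomial σ K) M] (hη : ∀ κ, 0 ≤ η (ω κ))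
    (hδ : ∀ κ, δ (ω κ) = 1)
    (hfree : PuncturedFree (K := K) (σ := σ) M)
    (hrank : Module.finrank (MvPolynomial σ K) M = 2) {g0 : G} {s : M}
    (hs : s ∈ 𝓜 g0) (hs0 : s ≠ 0) (hmin1 : ∀ g, ∀ m ∈ 𝓜 g, m ≠ 0 → η g0 ≤ η g)
    (hmin2 : ∀ g, ∀ m ∈ 𝓜 g, m ≠ 0 → η g = η g0 → δ g0 ≤ δ g)
    (hdep : ∀ g, ∀ m ∈ 𝓜 g, η g = η g0 → ∃ c c' : MvPolynomial σ K, c ≠ 0 ∧ c • m = c' • s)
    {u v w : σ} (huv : u ≠ v) (huw : u ≠ w) (hvw : v ≠ w)
    (hu : η (ω u) = 0) (hv : η (ω v) = 0) (hw : η (ω w) = 0) :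
    Module.Free (MvPolynomial σ K) M := by
  classical
  obtain ⟨gt, t, ht, hind, hspan⟩ := exists_HB_s hη hδ hfree hrank hs hs0 hmin1 hmin2 hdep hu
    (vp K u) (X_notMem_vp u)
  obtain ⟨π, hπs, hπt, hprim⟩ := exists_primitive hind
  have hs_tf : ∀ a : MvPolynomial σ K, a • s = 0 → a = 0 := fun a ha =>
    (torsionfree_of_reflexive _ _ ha).resolve_right hs0
  -- the kernel of `π`
  have hker : ∀ m, π m = 0 → ∃ a : MvPolynomial σ K, m = a • s := by
    intro m hm
    obtain ⟨d, D, a, b, hD, hDhom, hab⟩ := span_all (ω := ω) (𝓜 := 𝓜) hspan m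
    have hD0 := ne_zero_of_notMem hD
    have hb : b = 0 := by
      have := congrArg π hab
      rw [map_smul, map_add, map_smul, map_smul, hm, hπs, smul_zero, smul_zero, zero_add,
        smul_eq_mul] at this
      exact (mul_eq_zero.mp this.symm).resolve_right hπt
    rw [hb, zero_smul, add_zero] at hab
    have hcomp : ∀ g, ∃ a : MvPolynomial σ K, comp 𝓜 g m = a • s := by
      intro g
      have h1 := congrArg (comp 𝓜 (d + g)) hab
      rw [comp_smul ω 𝓜 hs, comp_smul_hom ω 𝓜 hDhom, show d + g - d = g by abel] at h1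
      exact saturated hη hδ hs hs0 hmin1 hmin2 (comp_mem 𝓜 g m) hD0 h1
    choose A hA using hcomp
    obtain ⟨T, hT, _⟩ := eq_sum_comp 𝓜 m
    refine ⟨∑ g ∈ T, A g, ?_⟩
    rw [Finset.sum_smul]
    conv_lhs => rw [hT]
    exact Finset.sum_congr rfl (fun g _ => hA g)
  -- powers of the variables in the image of `π`
  have hrad : ∀ u', η (ω u') = 0 → ∃ n, ∃ μ, π μ = (X u' : MvPolynomial σ K) ^ n := by
    intro u' hu'
    by_contra hcon
    push Not at hcon
    have hnot : (X u' : MvPolynomial σ K) ∉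
        Ideal.radical (LinearMap.range π : Ideal (MvPolynomial σ K)) := by
      rintro ⟨n, hn⟩
      obtain ⟨μ, hμ⟩ := hn
      exact hcon n μ hμ
    rw [Ideal.radical_eq_sInf, Submodule.mem_sInf] at hnot
    push Not at hnot
    obtain ⟨P, ⟨hP1, hP2⟩, hP3⟩ := hnot
    obtain ⟨gt', t', ht', hind', hspan'⟩ := exists_HB_s hη hδ hfree hrank hs hs0 hmin1 hmin2 hdep
      hu' P hP3
    have hπt' : π t' ≠ 0 := by
      intro h
      obtain ⟨a, ha⟩ := hker t' h
      have := (hind' (-a) 1 (by rw [ha, neg_smul, one_smul]; abel)).2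
      exact one_ne_zero this
    have hπt'P : π t' ∈ P := hP1 ⟨t', rfl⟩
    obtain ⟨ϖ, hϖP, hϖ, hϖd⟩ : ∃ ϖ ∈ P, Prime ϖ ∧ ϖ ∣ π t' := by
      have h1 : (UniqueFactorizationMonoid.factors (π t')).prod ∈ P := by
        obtain ⟨c, hc⟩ := UniqueFactorizationMonoid.factors_prod hπt'
        rw [← hc] at hπt'P
        rcases hP2.mem_or_mem hπt'P with h | h
        · exact h
        · exact absurd (Ideal.eq_top_of_isUnit_mem _ h c.isUnit) hP2.ne_top
      obtain ⟨ϖ, h2, h3⟩ := (hP2.multiset_prod_mem_iff_exists_mem _).mp h1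
      exact ⟨ϖ, h3, UniqueFactorizationMonoid.prime_of_factor ϖ h2,
        UniqueFactorizationMonoid.dvd_of_mem_factors h2⟩
    obtain ⟨m, hm⟩ := hprim ϖ hϖ
    obtain ⟨d, D, a, b, hD, hDhom, hab⟩ := span_all (ω := ω) (𝓜 := 𝓜) hspan' m
    have h1 := congrArg π hab
    rw [map_smul, map_add, map_smul, map_smul, hπs, smul_zero, zero_add, smul_eq_mul,
      smul_eq_mul] at h1
    have h2 : ϖ ∣ D * π m := by rw [h1]; exact hϖd.mul_left b
    rcases hϖ.dvd_or_dvd h2 with h3 | h3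
    · obtain ⟨z, hz⟩ := h3
      exact hD (by rw [hz]; exact Ideal.mul_mem_right z P hϖP)
    · exact hm h3
  obtain ⟨nu, μu, hμu⟩ := hrad u hu
  obtain ⟨nv, μv, hμv⟩ := hrad v hv
  obtain ⟨nw, μw, hμw⟩ := hrad w hw
  set N := nu + nv + nw with hN
  -- common exponent
  set a := (X u : MvPolynomial σ K) ^ (N - nu) • μu with ha
  set b := (X v : MvPolynomial σ K) ^ (N - nv) • μv with hb
  set c := (X w : MvPolynomial σ K) ^ (N - nw) • μw with hc
  have hπa : π a = X u ^ N := by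
    rw [ha, map_smul, hμu, smul_eq_mul, ← pow_add]; congr 1; omega
  have hπb : π b = X v ^ N := by
    rw [hb, map_smul, hμv, smul_eq_mul, ← pow_add]; congr 1; omega
  have hπc : π c = X w ^ N := by
    rw [hc, map_smul, hμw, smul_eq_mul, ← pow_add]; congr 1; omega
  clear_value a b c
  obtain ⟨Δ, hΔ⟩ := hker ((X v : MvPolynomial σ K) ^ N • a - (X u : MvPolynomial σ K) ^ N • b)
    (by rw [map_sub, map_smul, map_smul, hπa, hπb, smul_eq_mul, smul_eq_mul]; ring)
  obtain ⟨Δ', hΔ'⟩ := hker ((X w : MvPolynomial σ K) ^ N • b - (X v : MvPolynomial σ K) ^ N • c)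
    (by rw [map_sub, map_smul, map_smul, hπb, hπc, smul_eq_mul, smul_eq_mul]; ring)
  obtain ⟨Δ'', hΔ''⟩ := hker ((X u : MvPolynomial σ K) ^ N • c - (X w : MvPolynomial σ K) ^ N • a)
    (by rw [map_sub, map_smul, map_smul, hπa, hπc, smul_eq_mul, smul_eq_mul]; ring)
  have hkos : X w ^ N * Δ + X u ^ N * Δ' + X v ^ N * Δ'' = 0 := by
    apply hs_tf
    rw [add_smul, add_smul, mul_smul, mul_smul, mul_smul, ← hΔ, ← hΔ', ← hΔ'']
    simp only [smul_sub]
    rw [smul_comm ((X w : MvPolynomial σ K) ^ N) ((X v : MvPolynomial σ K) ^ N) a,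
      smul_comm ((X w : MvPolynomial σ K) ^ N) ((X u : MvPolynomial σ K) ^ N) b,
      smul_comm ((X u : MvPolynomial σ K) ^ N) ((X v : MvPolynomial σ K) ^ N) c]
    abel
  have hmem : Δ ∈ J u v N := by
    rw [mem_J_iff]
    intro e he
    have h1 : X w ^ N * Δ ∈ J u v N := by
      rw [mem_J_exists]
      exact ⟨-Δ', -Δ'', by linear_combination hkos⟩
    have h2 : coeff (Finsupp.single w N + e) (X w ^ N * Δ) ≠ 0 := by
      rw [X_pow_eq_monomial, coeff_monomial_mul, one_mul]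
      exact mem_support_iff.mp he
    have h3 := mem_J_iff.mp h1 _ (mem_support_iff.mpr h2)
    simpa [Finsupp.single_apply, huw.symm, hvw.symm] using h3
  obtain ⟨A, B, hAB⟩ := mem_J_exists.mp hmem
  have P : Pres u v N s (a - B • s) (b + A • s) π 0 := by
    refine ⟨huv, hs_tf, hπs, hker, ?_, ?_, ?_⟩
    · rw [map_sub, map_smul, hπs, smul_zero, sub_zero, hπa]
    · rw [map_add, map_smul, hπs, smul_zero, add_zero, hπb]
    · have e1 : (X v : MvPolynomial σ K) ^ N • (a - B • s) -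
          (X u : MvPolynomial σ K) ^ N • (b + A • s) =
          ((X v : MvPolynomial σ K) ^ N • a - (X u : MvPolynomial σ K) ^ N • b) -
            (X u ^ N * A + X v ^ N * B) • s := by
        simp only [smul_sub, smul_add, add_smul, smul_smul]
        abel
      rw [e1, hΔ, ← hAB, sub_self, zero_smul]
  exact P.free_zero rfl

end

end Pool.Agent.Lib.MP_745d3a_ag
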