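import Pool.Agent.Lib.MP_745d3a_ag.CaseOne

/-!
Three weights on the supporting hyperplane, lowest piece of rank two.
-/

open MvPolynomial

set_option linter.unusedSectionVars false
set_option linter.unusedSimpArgs false

namespace Pool.Agent.Lib.MP_745d3a_ag

section bracket

variable {σ K G : Type*} [DecidableEq σ] [Fintype σ] [Field K] [AddCommGroup G] [DecidableEq G]
  {ω : σ → G} {η δ : G →+ ℤ}

/-- Exponents supported off the variables of weight zero. -/
def Off (ω : σ → G) (η : G →+ ℤ) (μ : σ →₀ ℕ) : Prop := ∀ κ, η (ω κ) = 0 → μ κ = 0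

/-- The coefficient of the off-monomial `μ`. -/
noncomputable def br (ω : σ → G) (η : G →+ ℤ) (μ : σ →₀ ℕ) (p : MvPolynomial σ K) :
    MvPolynomial σ K := lam ω η (p.divMonomial μ)

lemma coeff_br (hη : ∀ κ, 0 ≤ η (ω κ)) (μ : σ →₀ ℕ) (p : MvPolynomial σ K) (ε : σ →₀ ℕ) :
    coeff ε (br ω η μ p) = if η (Finsupp.weight ω ε) = 0 then coeff (μ + ε) p else 0 := by
  rw [br, coeff_lam hη, coeff_divMonomial]

lemma br_add (μ : σ →₀ ℕ) (p q : MvPolynomial σ K) :
    br ω η μ (p + q) = br ω η μ p + br ω η μ q := by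
  rw [br, add_divMonomial, map_add]; rfl

lemma br_zero (μ : σ →₀ ℕ) : br ω η μ (0 : MvPolynomial σ K) = 0 := by
  rw [br, zero_divMonomial, map_zero]

lemma br_sum {ι : Type*} (μ : σ →₀ ℕ) (s : Finset ι) (f : ι → MvPolynomial σ K) :
    br ω η μ (∑ x ∈ s, f x) = ∑ x ∈ s, br ω η μ (f x) := by
  classical
  induction s using Finset.induction_on with
  | empty => simp [br_zero]
  | insert x s hx ih => rw [Finset.sum_insert hx, Finset.sum_insert hx, br_add, ih]

lemma lam_lam (hη : ∀ κ, 0 ≤ η (ω κ)) (p : MvPolynomial σ K) :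
    lam ω η (lam ω η p) = lam ω η p := by
  ext e
  rw [coeff_lam hη, coeff_lam hη]
  split_ifs <;> rfl

lemma lam_br (hη : ∀ κ, 0 ≤ η (ω κ)) (μ : σ →₀ ℕ) (p : MvPolynomial σ K) :
    lam ω η (br ω η μ p) = br ω η μ p := lam_lam hη _

lemma lam_of_hom (hη : ∀ κ, 0 ≤ η (ω κ)) {p : MvPolynomial σ K} {g : G}
    (hp : IsWeightedHomogeneous ω p g) (hg : η g = 0) : lam ω η p = p := by
  ext e
  rw [coeff_lam hη]
  by_cases he : coeff e p = 0
  · rw [he, ite_self]
  · rw [if_pos (by rw [hp he, hg])]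

lemma br_mono (hη : ∀ κ, 0 ≤ η (ω κ)) {z : MvPolynomial σ K} (hz : lam ω η z = z)
    {μ ν : σ →₀ ℕ} (hμ : Off ω η μ) (hν : Off ω η ν) :
    br ω η μ (monomial ν 1 * z) = if μ = ν then z else 0 := by
  classical
  have hz' : ∀ e, coeff e z ≠ 0 → η (Finsupp.weight ω e) = 0 := by
    intro e he
    rw [← hz, coeff_lam hη] at he
    by_contra h
    rw [if_neg h] at he
    exact he rfl
  ext ε
  rw [coeff_br hη, coeff_monomial_mul']
  by_cases hε : η (Finsupp.weight ω ε) = 0
  · rw [if_pos hε]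
    by_cases hμν : μ = ν
    · rw [hμν, if_pos le_self_add, if_pos rfl, one_mul, add_tsub_cancel_left]
    · rw [if_neg hμν, coeff_zero]
      by_cases hle : ν ≤ μ + ε
      · rw [if_pos hle, one_mul]
        by_contra hne
        apply hμν
        have h1 := hz' _ hne
        rw [eta_weight_eq_zero_iff hη] at h1 hε
        ext κ
        by_cases hκ : η (ω κ) = 0
        · rw [hμ κ hκ, hν κ hκ]
        · have h2 := h1 κ hκ
          have h3 := hle κ
          rw [Finsupp.tsub_apply, Finsupp.add_apply, hε κ hκ] at h2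
          rw [Finsupp.add_apply, hε κ hκ] at h3
          omega
      · rw [if_neg hle]
  · rw [if_neg hε]
    by_cases hμν : μ = ν
    · rw [if_pos hμν]
      by_contra hne
      exact hε (hz' ε (Ne.symm hne))
    · rw [if_neg hμν, coeff_zero]

lemma br_decomp (hη : ∀ κ, 0 ≤ η (ω κ)) (p : MvPolynomial σ K) :
    ∃ T : Finset (σ →₀ ℕ), (∀ ν ∈ T, Off ω η ν) ∧
      (∀ ν, Off ω η ν → ν ∉ T → br ω η ν p = 0) ∧
      ∀ T' : Finset (σ →₀ ℕ), T ⊆ T' → (∀ ν ∈ T', Off ω η ν) →
        p = ∑ ν ∈ T', monomial ν 1 * br ω η ν p := by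
  classical
  -- the off part of an exponent
  set off : (σ →₀ ℕ) → (σ →₀ ℕ) := fun e => e.filter (fun κ => η (ω κ) ≠ 0) with hoff
  have hoffOff : ∀ e, Off ω η (off e) := by
    intro e κ hκ
    rw [hoff]
    simp [Finsupp.filter_apply, hκ]
  have hoffle : ∀ e, off e ≤ e := by
    intro e κ
    rw [hoff]
    simp only [Finsupp.filter_apply]
    split_ifs <;> simp
  have hsub : ∀ e, η (Finsupp.weight ω (e - off e)) = 0 := by
    intro e
    rw [eta_weight_eq_zero_iff hη]
    intro κ hκ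
    rw [Finsupp.tsub_apply, hoff]
    simp [Finsupp.filter_apply, hκ]
  have huniq : ∀ e ν, Off ω η ν → ν ≤ e → η (Finsupp.weight ω (e - ν)) = 0 → ν = off e := by
    intro e ν hν hle h
    rw [eta_weight_eq_zero_iff hη] at h
    ext κ
    by_cases hκ : η (ω κ) = 0
    · rw [hν κ hκ, hoffOff e κ hκ]
    · have h2 := h κ hκ
      have h3 := hle κ
      rw [Finsupp.tsub_apply] at h2
      rw [hoff]
      simp only [Finsupp.filter_apply, if_pos hκ]
      omega
  refine ⟨p.support.image off, ?_, ?_, ?_⟩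
  · intro ν hν
    rw [Finset.mem_image] at hν
    obtain ⟨e, _, rfl⟩ := hν
    exact hoffOff e
  · intro ν hν hνT
    ext ε
    rw [coeff_br hη, coeff_zero]
    by_cases hε : η (Finsupp.weight ω ε) = 0
    · rw [if_pos hε]
      by_contra hne
      apply hνT
      rw [Finset.mem_image]
      refine ⟨ν + ε, mem_support_iff.mpr hne, ?_⟩
      exact (huniq (ν + ε) ν hν le_self_add (by rw [add_tsub_cancel_left]; exact hε)).symm
    · rw [if_neg hε]
  · intro T' hT' hT'Off
    ext e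
    rw [coeff_sum]
    have h1 : ∀ ν ∈ T', coeff e (monomial ν 1 * br ω η ν p) =
        if ν = off e then coeff e p else 0 := by
      intro ν hν
      rw [coeff_monomial_mul']
      by_cases hle : ν ≤ e
      · rw [if_pos hle, one_mul, coeff_br hη, add_tsub_cancel_of_le hle]
        by_cases h : η (Finsupp.weight ω (e - ν)) = 0
        · rw [if_pos h, if_pos (huniq e ν (hT'Off ν hν) hle h)]
        · rw [if_neg h, if_neg]
          rintro rfl
          exact h (hsub e)
      · rw [if_neg hle, if_neg]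
        rintro rfl
        exact hle (hoffle e)
    rw [Finset.sum_congr rfl h1, Finset.sum_ite_eq']
    by_cases h : off e ∈ T'
    · rw [if_pos h]
    · rw [if_neg h]
      by_contra hne
      exact h (hT' (Finset.mem_image.mpr ⟨e, mem_support_iff.mpr hne, rfl⟩))

lemma br_mul (hη : ∀ κ, 0 ≤ η (ω κ)) {D : MvPolynomial σ K} (hD : lam ω η D = D)
    {μ : σ →₀ ℕ} (hμ : Off ω η μ) (p : MvPolynomial σ K) :
    br ω η μ (D * p) = D * br ω η μ p := by
  classical
  obtain ⟨T, hT1, hT2, hT3⟩ := br_decomp hη p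
  have h1 : D * p = ∑ ν ∈ T, monomial ν 1 * (D * br ω η ν p) := by
    conv_lhs => rw [hT3 T (Finset.Subset.refl _) hT1, Finset.mul_sum]
    refine Finset.sum_congr rfl ?_
    intro ν _
    ring
  rw [h1, br_sum]
  have h2 : ∀ ν ∈ T, br ω η μ (monomial ν 1 * (D * br ω η ν p)) =
      if μ = ν then D * br ω η ν p else 0 := by
    intro ν hν
    refine br_mono hη ?_ hμ (hT1 ν hν)
    rw [map_mul, hD, lam_br hη]
  rw [Finset.sum_congr rfl h2, Finset.sum_ite_eq]
  by_cases h : μ ∈ T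
  · rw [if_pos h]
  · rw [if_neg h, hT2 μ hμ h, mul_zero]

lemma br_X_mul (hη : ∀ κ, 0 ≤ η (ω κ)) {κ : σ} (hκ : η (ω κ) ≠ 0) {μ : σ →₀ ℕ}
    (hμ : Off ω η μ) (p : MvPolynomial σ K) :
    br ω η μ (X κ * p) = if 1 ≤ μ κ then br ω η (μ - Finsupp.single κ 1) p else 0 := by
  classical
  ext ε
  rw [coeff_br hη, coeff_X_mul']
  by_cases hε : η (Finsupp.weight ω ε) = 0
  · rw [if_pos hε]
    have hεκ : ε κ = 0 := (eta_weight_eq_zero_iff hη ε).mp hε κ hκ
    by_cases h : 1 ≤ μ κ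
    · rw [if_pos h, if_pos, coeff_br hη, if_pos hε]
      · congr 1
        ext κ'
        simp only [Finsupp.tsub_apply, Finsupp.add_apply, Finsupp.single_apply]
        by_cases hκ' : κ = κ'
        · subst hκ'; simp; omega
        · simp [hκ']
      · rw [Finsupp.mem_support_iff, Finsupp.add_apply]; omega
    · rw [if_neg h, if_neg, coeff_zero]
      rw [Finsupp.mem_support_iff, Finsupp.add_apply, hεκ]
      omega
  · rw [if_neg hε]
    by_cases h : 1 ≤ μ κ
    · rw [if_pos h, coeff_br hη, if_neg hε]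
    · rw [if_neg h, coeff_zero]

end bracket

section

variable {σ K M G : Type*} [DecidableEq σ] [Fintype σ] [Field K] [AddCommGroup M]
  [Module (MvPolynomial σ K) M]
  [AddCommGroup G] [DecidableEq G] {ω : σ → G} {𝓜 : G → AddSubgroup M}
  [DirectSum.Decomposition 𝓜] [SetLike.GradedSMul (weightedHomogeneousSubmodule K ω) 𝓜]
  {η δ : G →+ ℤ}

/-- The element `x` has all its off-coefficients in `M`, in the coordinates `m1, m2`. -/
def HasCoeffs (ω : σ → G) (η : G →+ ℤ) (m1 m2 x : M) : Prop :=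
  ∃ D a b : MvPolynomial σ K, D ≠ 0 ∧ lam ω η D = D ∧ D • x = a • m1 + b • m2 ∧
    ∀ μ, Off ω η μ → ∃ y : M, D • y = br ω η μ a • m1 + br ω η μ b • m2

variable [Module.IsReflexive (MvPolynomial σ K) M]

lemma HasCoeffs.univ (hη : ∀ κ, 0 ≤ η (ω κ)) {m1 m2 x : M}
    (hind : ∀ a b : MvPolynomial σ K, a • m1 + b • m2 = 0 → a = 0 ∧ b = 0)
    (H : HasCoeffs (K := K) ω η m1 m2 x) {D a b : MvPolynomial σ K}
    (hDl : lam ω η D = D) (hx : D • x = a • m1 + b • m2) {μ : σ →₀ ℕ} (hμ : Off ω η μ) :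
    ∃ y : M, D • y = br ω η μ a • m1 + br ω η μ b • m2 := by
  obtain ⟨D0, a0, b0, hD0, hD0l, hx0, H0⟩ := H
  obtain ⟨y, hy⟩ := H0 μ hμ
  have h1 : (D0 * a - D * a0) • m1 + (D0 * b - D * b0) • m2 = 0 := by
    have e1 : (D0 * D) • x = D0 • (a • m1 + b • m2) := by rw [mul_smul, hx]
    have e2 : (D0 * D) • x = D • (a0 • m1 + b0 • m2) := by rw [mul_comm, mul_smul, hx0]
    have e3 := e1.symm.trans e2
    rw [← sub_eq_zero] at e3
    rw [← e3]
    simp only [smul_add, sub_smul, mul_smul]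
    abel
  obtain ⟨h2, h3⟩ := hind _ _ h1
  have h2' : D0 * br ω η μ a = D * br ω η μ a0 := by
    rw [← br_mul hη hD0l hμ, ← br_mul hη hDl hμ, sub_eq_zero.mp h2]
  have h3' : D0 * br ω η μ b = D * br ω η μ b0 := by
    rw [← br_mul hη hD0l hμ, ← br_mul hη hDl hμ, sub_eq_zero.mp h3]
  refine ⟨y, ?_⟩
  have h4 : D0 • (D • y - (br ω η μ a • m1 + br ω η μ b • m2)) = 0 := by
    rw [smul_sub, smul_comm, hy, smul_add, smul_add, smul_smul, smul_smul, smul_smul, smul_smul,
      h2', h3', sub_self]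
  exact sub_eq_zero.mp ((torsionfree_of_reflexive _ _ h4).resolve_left hD0)

lemma HasCoeffs.add {m1 m2 x x' : M} (hη : ∀ κ, 0 ≤ η (ω κ)) 
    (H : HasCoeffs (K := K) ω η m1 m2 x) (H' : HasCoeffs (K := K) ω η m1 m2 x') :
    HasCoeffs (K := K) ω η m1 m2 (x + x') := by
  obtain ⟨D, a, b, h1, h2, h3, h4⟩ := H
  obtain ⟨D', a', b', h1', h2', h3', h4'⟩ := H'
  refine ⟨D * D', D' * a + D * a', D' * b + D * b', mul_ne_zero h1 h1', by rw [map_mul, h2, h2'],
    ?_, ?_⟩
  · have e1 : (D * D') • x = D' • (a • m1 + b • m2) := by rw [mul_comm, mul_smul, h3]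
    have e2 : (D * D') • x' = D • (a' • m1 + b' • m2) := by rw [mul_smul, h3']
    rw [smul_add, e1, e2]
    simp only [smul_add, add_smul, mul_smul]
    abel
  · intro μ hμ
    obtain ⟨y, hy⟩ := h4 μ hμ
    obtain ⟨y', hy'⟩ := h4' μ hμ
    refine ⟨y + y', ?_⟩
    have e1 : (D * D') • y = D' • (br ω η μ a • m1 + br ω η μ b • m2) := by
      rw [mul_comm, mul_smul, hy]
    have e2 : (D * D') • y' = D • (br ω η μ a' • m1 + br ω η μ b' • m2) := by
      rw [mul_smul, hy']
    rw [smul_add, e1, e2, br_add, br_add, br_mul hη h2' hμ, br_mul hη h2 hμ, br_mul hη h2' hμ,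
      br_mul hη h2 hμ]
    simp only [smul_add, add_smul, mul_smul]
    abel

lemma HasCoeffs.smul {m1 m2 x : M} (hη : ∀ κ, 0 ≤ η (ω κ))
    (H : HasCoeffs (K := K) ω η m1 m2 x) (p : MvPolynomial σ K) :
    HasCoeffs (K := K) ω η m1 m2 (p • x) := by
  induction p using MvPolynomial.induction_on with
  | C r =>
    obtain ⟨D, a, b, h1, h2, h3, h4⟩ := H
    have hC : lam ω η (C r : MvPolynomial σ K) = C r := by
      rw [lam, algHom_C]; rfl
    refine ⟨D, C r * a, C r * b, h1, h2, ?_, ?_⟩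
    · rw [smul_comm, h3, smul_add, mul_smul, mul_smul]
    · intro μ hμ
      obtain ⟨y, hy⟩ := h4 μ hμ
      refine ⟨(C r : MvPolynomial σ K) • y, ?_⟩
      rw [smul_comm, hy, br_mul hη hC hμ, br_mul hη hC hμ, smul_add, mul_smul, mul_smul]
  | add p q hp hq => rw [add_smul]; exact hp.add hη hq
  | mul_X p κ hp =>
    rw [mul_comm, mul_smul]
    obtain ⟨D, a, b, h1, h2, h3, h4⟩ := hp
    refine ⟨D, X κ * a, X κ * b, h1, h2, ?_, ?_⟩
    · rw [smul_comm, h3, smul_add, mul_smul, mul_smul]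
    · intro μ hμ
      by_cases hκ : η (ω κ) = 0
      · have hX : lam ω η (X κ : MvPolynomial σ K) = X κ := by
          rw [lam, aeval_X, if_pos hκ]
        obtain ⟨y, hy⟩ := h4 μ hμ
        refine ⟨(X κ : MvPolynomial σ K) • y, ?_⟩
        rw [smul_comm, hy, br_mul hη hX hμ, br_mul hη hX hμ, smul_add, mul_smul, mul_smul]
      · rw [br_X_mul hη hκ hμ, br_X_mul hη hκ hμ]
        by_cases h : 1 ≤ μ κ
        · rw [if_pos h, if_pos h]
          apply h4
          intro κ' hκ'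
          rw [Finsupp.tsub_apply, hμ κ' hκ', Nat.zero_sub]
        · rw [if_neg h, if_neg h]
          exact ⟨0, by simp⟩

end

end Pool.Agent.Lib.MP_745d3a_ag
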