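import Pool.Agent.Lib.MP_745d3a_ag.CaseTwo

/-!
Three weights on the supporting hyperplane, lowest piece of rank two: the theorem.
-/

open MvPolynomial

set_option linter.unusedSectionVars false
set_option linter.unusedSimpArgs false

namespace Pool.Agent.Lib.MP_745d3a_ag

section

variable {σ K M G : Type*} [DecidableEq σ] [Fintype σ] [Field K] [AddCommGroup M]
  [Module (MvPolynomial σ K) M]
  [AddCommGroup G] [DecidableEq G] {ω : σ → G} {𝓜 : G → AddSubgroup M}
  [DirectSum.Decomposition 𝓜] [SetLike.GradedSMul (weightedHomogeneousSubmodule K ω) 𝓜]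
  {η δ : G →+ ℤ}

/-- The prime generated by the variables of weight zero. -/
noncomputable def qid (K : Type*) [Field K] (ω : σ → G) (η : G →+ ℤ) :
    Ideal (MvPolynomial σ K) :=
  RingHom.ker (aeval (fun κ => if η (ω κ) = 0 then (0 : MvPolynomial σ K) else X κ) :
    MvPolynomial σ K →ₐ[K] MvPolynomial σ K)

instance : (qid K ω η).IsPrime := RingHom.ker_isPrime _

lemma X_notMem_qid {κ : σ} (h : η (ω κ) ≠ 0) : (X κ : MvPolynomial σ K) ∉ qid K ω η := by
  intro h'
  rw [qid, RingHom.mem_ker, aeval_X, if_neg h] at h'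
  exact X_ne_zero κ h'

lemma exists_of_notMem_qid {D : MvPolynomial σ K} (h : D ∉ qid K ω η) :
    ∃ e, coeff e D ≠ 0 ∧ Off ω η e := by
  rw [qid, RingHom.mem_ker, D.as_sum, map_sum] at h
  obtain ⟨e, he, h2⟩ := Finset.exists_ne_zero_of_sum_ne_zero h
  refine ⟨e, mem_support_iff.mp he, ?_⟩
  intro κ hκ
  by_contra h3
  apply h2
  rw [aeval_monomial, Finsupp.prod_fintype _ _ (by intro κ; simp),
    Finset.prod_eq_zero (Finset.mem_univ κ) (by rw [if_pos hκ, zero_pow h3]), mul_zero]

variable [Module.IsReflexive (MvPolynomial σ K) M]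

lemma smul_eq_of_eq {R A : Type*} [SMul R A] {a b : R} (h : a = b) (x : A) : a • x = b • x := by
  rw [h]

set_option maxHeartbeats 4000000 in
/-- **Three weights, lowest piece of rank two.** (Two weights of value zero and one nonzero
suffice.) -/
theorem case_two [Module.Finite (MvPolynomial σ K) M] (hη : ∀ κ, 0 ≤ η (ω κ))
    (hδ : ∀ κ, δ (ω κ) = 1)
    (hfree : PuncturedFree (K := K) (σ := σ) M)
    (hrank : Module.finrank (MvPolynomial σ K) M = 2) {g0 : G} {s : M}
    (hs : s ∈ 𝓜 g0) (hs0 : s ≠ 0) (hmin1 : ∀ g, ∀ m ∈ 𝓜 g, m ≠ 0 → η g0 ≤ η g)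
    {g1 : G} {n : M} (hn : n ∈ 𝓜 g1) (hg1 : η g1 = η g0)
    (hsn : ∀ a b : MvPolynomial σ K, a • s + b • n = 0 → a = 0 ∧ b = 0)
    {u v : σ} (huv : u ≠ v) (hu : η (ω u) = 0) (hv : η (ω v) = 0)
    {w : σ} (hw : η (ω w) ≠ 0) :
    Module.Free (MvPolynomial σ K) M := by
  classical
  -- local bases in the lowest piece
  have HB : ∀ u', η (ω u') = 0 → ∀ (p : Ideal (MvPolynomial σ K)) [p.IsPrime],
      (X u' : MvPolynomial σ K) ∉ p → ∃ f1 f2 : G, ∃ m1 ∈ 𝓜 f1, ∃ m2 ∈ 𝓜 f2,
      η f1 = η g0 ∧ η f2 = η g0 ∧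
      (∀ a b : MvPolynomial σ K, a • m1 + b • m2 = 0 → a = 0 ∧ b = 0) ∧
      ∀ g, ∀ x ∈ 𝓜 g, ∃ (d : G) (D a b : MvPolynomial σ K), D ∉ p ∧
        IsWeightedHomogeneous ω D d ∧ η d = 0 ∧ D • x = a • m1 + b • m2 := by
    intro u' hu' p _ hup
    obtain ⟨f1, f2, m1, hm1, m2, hm2, hind, hspan⟩ := exists_HB (𝓜 := 𝓜) hη hfree hrank hu' p hup
    have hm10 : m1 ≠ 0 := by
      intro h
      have := (hind 1 0 (by rw [h]; simp)).1
      exact one_ne_zero this
    have hm20 : m2 ≠ 0 := by
      intro h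
      have := (hind 0 1 (by rw [h]; simp)).2
      exact one_ne_zero this
    obtain ⟨d, D, a, b, hD, hDhom, hd, hab⟩ := hspan g0 s hs
    obtain ⟨d', D', a', b', hD', hDhom', hd', hab'⟩ := hspan g1 n hn
    have hD0 := ne_zero_of_notMem hD
    have hD0' := ne_zero_of_notMem hD'
    have hmem := smul_mem' ω 𝓜 hDhom hs
    rw [hab] at hmem
    obtain ⟨ha, hb⟩ := hom_of_pair ω 𝓜 hm1 hm2 hind hmem
    have hmem' := smul_mem' ω 𝓜 hDhom' hn
    rw [hab'] at hmem'
    obtain ⟨ha', hb'⟩ := hom_of_pair ω 𝓜 hm1 hm2 hind hmem'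
    have h1 := hmin1 f1 m1 hm1 hm10
    have h2 := hmin1 f2 m2 hm2 hm20
    have hf1 : η f1 = η g0 := by
      by_contra hne
      have ha0 : a = 0 := by
        by_contra h
        have := eta_nonneg_of_hom hη ha h
        rw [map_sub, map_add, hd] at this
        exact hne (by linarith)
      have ha0' : a' = 0 := by
        by_contra h
        have := eta_nonneg_of_hom hη ha' h
        rw [map_sub, map_add, hd', hg1] at this
        exact hne (by linarith)
      rw [ha0, zero_smul, zero_add] at hab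
      rw [ha0', zero_smul, zero_add] at hab'
      have h3 : (b' * D) • s + (-(b * D')) • n = 0 := by
        rw [neg_smul, mul_smul, mul_smul, hab, hab', smul_comm b' b]; abel
      obtain ⟨h4, _⟩ := hsn _ _ h3
      have h5 : b' = 0 := (mul_eq_zero.mp h4).resolve_right hD0
      rw [h5, zero_smul] at hab'
      rcases torsionfree_of_reflexive _ _ hab' with h6 | h6
      · exact hD0' h6
      · have := (hsn 0 1 (by rw [h6]; simp)).2
        exact one_ne_zero this
    have hf2 : η f2 = η g0 := by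
      by_contra hne
      have hb0 : b = 0 := by
        by_contra h
        have := eta_nonneg_of_hom hη hb h
        rw [map_sub, map_add, hd] at this
        exact hne (by linarith)
      have hb0' : b' = 0 := by
        by_contra h
        have := eta_nonneg_of_hom hη hb' h
        rw [map_sub, map_add, hd', hg1] at this
        exact hne (by linarith)
      rw [hb0, zero_smul, add_zero] at hab
      rw [hb0', zero_smul, add_zero] at hab'
      have h3 : (a' * D) • s + (-(a * D')) • n = 0 := by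
        rw [neg_smul, mul_smul, mul_smul, hab, hab', smul_comm a' a]; abel
      obtain ⟨h4, _⟩ := hsn _ _ h3
      have h5 : a' = 0 := (mul_eq_zero.mp h4).resolve_right hD0
      rw [h5, zero_smul] at hab'
      rcases torsionfree_of_reflexive _ _ hab' with h6 | h6
      · exact hD0' h6
      · have := (hsn 0 1 (by rw [h6]; simp)).2
        exact one_ne_zero this
    exact ⟨f1, f2, m1, hm1, m2, hm2, hf1, hf2, hind, hspan⟩
  -- fix one of them
  obtain ⟨f1, f2, m1, hm1, m2, hm2, hf1, hf2, hind, hspan⟩ := HB u hu (vp K u) (X_notMem_vp u)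
  -- the submodule generated by the lowest piece
  set N : Submodule (MvPolynomial σ K) M :=
    Submodule.span (MvPolynomial σ K) {x | ∃ g, x ∈ 𝓜 g ∧ η g = η g0} with hN
  -- coefficients of elements of the lowest piece
  have hcoef : ∀ g, ∀ x ∈ 𝓜 g, η g = η g0 → ∃ D a b : MvPolynomial σ K, D ≠ 0 ∧
      lam ω η D = D ∧ lam ω η a = a ∧ lam ω η b = b ∧ D • x = a • m1 + b • m2 := by
    intro g x hx hg
    obtain ⟨d, D, a, b, hD, hDhom, hd, hab⟩ := hspan g x hx
    have hmem := smul_mem' ω 𝓜 hDhom hx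
    rw [hab] at hmem
    obtain ⟨ha, hb⟩ := hom_of_pair ω 𝓜 hm1 hm2 hind hmem
    refine ⟨D, a, b, ne_zero_of_notMem hD, lam_of_hom hη hDhom hd, lam_of_hom hη ha ?_,
      lam_of_hom hη hb ?_, hab⟩
    · rw [map_sub, map_add, hd, hg, hf1]; ring
    · rw [map_sub, map_add, hd, hg, hf2]; ring
  have hOff0 : Off ω η (0 : σ →₀ ℕ) := fun κ _ => rfl
  have hNco : ∀ x ∈ N, HasCoeffs (K := K) ω η m1 m2 x := by
    intro x hx
    induction hx using Submodule.span_induction with
    | mem x hx =>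
      obtain ⟨g, hxg, hg⟩ := hx
      obtain ⟨D, a, b, hD, hDl, hal, hbl, hab⟩ := hcoef g x hxg hg
      refine ⟨D, a, b, hD, hDl, hab, ?_⟩
      intro μ hμ
      have e1 := br_mono hη hal hμ hOff0
      have e2 := br_mono hη hbl hμ hOff0
      rw [show (monomial (0 : σ →₀ ℕ) (1 : K)) = 1 from rfl, one_mul] at e1 e2
      rw [e1, e2]
      by_cases h : μ = 0
      · rw [if_pos h, if_pos h]; exact ⟨x, hab⟩
      · rw [if_neg h, if_neg h]; exact ⟨0, by simp⟩
    | zero =>
      refine ⟨1, 0, 0, one_ne_zero, map_one _, by simp, ?_⟩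
      intro μ hμ
      exact ⟨0, by rw [br_zero]; simp⟩
    | add x y _ _ hx hy => exact hx.add hη hy
    | smul a x _ hx => exact hx.smul hη a
  -- powers of the variables multiply homogeneous elements into `N`
  have hpow : ∀ u', η (ω u') = 0 → ∀ g, ∀ x ∈ 𝓜 g, ∃ k : ℕ,
      (X u' : MvPolynomial σ K) ^ k • x ∈ N := by
    intro u' hu' g x hx
    by_contra hcon
    push Not at hcon
    set I : Ideal (MvPolynomial σ K) := N.comap (LinearMap.toSpanSingleton _ M x) with hI
    have hImem : ∀ a, a ∈ I ↔ a • x ∈ N := fun a => by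
      rw [hI, Submodule.mem_comap, LinearMap.toSpanSingleton_apply]
    have hnot : (X u' : MvPolynomial σ K) ∉ Ideal.radical I := by
      rintro ⟨k, hk⟩
      exact hcon k ((hImem _).mp hk)
    rw [Ideal.radical_eq_sInf, Submodule.mem_sInf] at hnot
    push Not at hnot
    obtain ⟨P, ⟨hP1, hP2⟩, hP3⟩ := hnot
    obtain ⟨f1', f2', m1', hm1', m2', hm2', hf1', hf2', _, hspan'⟩ := HB u' hu' P hP3
    obtain ⟨d, D, a, b, hD, _, _, hab⟩ := hspan' g x hx
    apply hD
    apply hP1
    rw [hImem, hab]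
    exact N.add_mem (N.smul_mem _ (Submodule.subset_span ⟨f1', hm1', hf1'⟩))
      (N.smul_mem _ (Submodule.subset_span ⟨f2', hm2', hf2'⟩))
  -- all homogeneous elements have coefficients
  have hall : ∀ g, ∀ x ∈ 𝓜 g, ∀ D a b : MvPolynomial σ K, D ≠ 0 → lam ω η D = D →
      D • x = a • m1 + b • m2 → ∀ μ, Off ω η μ →
      ∃ y : M, D • y = br ω η μ a • m1 + br ω η μ b • m2 := by
    intro g x hx D a b hD hDl hab μ hμ
    obtain ⟨k, hk⟩ := hpow u hu g x hx
    obtain ⟨k', hk'⟩ := hpow v hv g x hx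
    have hXu : lam ω η ((X u : MvPolynomial σ K) ^ k) = X u ^ k := by
      rw [map_pow, lam, aeval_X, if_pos hu]
    have hXv : lam ω η ((X v : MvPolynomial σ K) ^ k') = X v ^ k' := by
      rw [map_pow, lam, aeval_X, if_pos hv]
    obtain ⟨y, hy⟩ := (hNco _ hk).univ hη hind hDl
      (a := X u ^ k * a) (b := X u ^ k * b) (by
        rw [smul_comm, hab, smul_add, mul_smul, mul_smul]) hμ
    obtain ⟨y', hy'⟩ := (hNco _ hk').univ hη hind hDl
      (a := X v ^ k' * a) (b := X v ^ k' * b) (by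
        rw [smul_comm, hab, smul_add, mul_smul, mul_smul]) hμ
    rw [br_mul hη hXu hμ, br_mul hη hXu hμ] at hy
    rw [br_mul hη hXv hμ, br_mul hη hXv hμ] at hy'
    have h1 : (X v : MvPolynomial σ K) ^ k' • y = (X u : MvPolynomial σ K) ^ k • y' := by
      have h2 : D • ((X v : MvPolynomial σ K) ^ k' • y - (X u : MvPolynomial σ K) ^ k • y') = 0 := by
        rw [smul_sub, smul_comm D, smul_comm D, hy, hy']
        simp only [smul_add, mul_smul]
        rw [smul_comm ((X v : MvPolynomial σ K) ^ k') ((X u : MvPolynomial σ K) ^ k),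
          smul_comm ((X v : MvPolynomial σ K) ^ k') ((X u : MvPolynomial σ K) ^ k), sub_self]
      exact sub_eq_zero.mp ((torsionfree_of_reflexive _ _ h2).resolve_left hD)
    obtain ⟨z, hz, _⟩ := hartogs (X_pow_ne_zero' u k)
      (fun h hh => dvd_of_X_pow_dvd_mul huv k k' h hh) h1
    refine ⟨z, ?_⟩
    have h3 : (X u : MvPolynomial σ K) ^ k •
        (D • z - (br ω η μ a • m1 + br ω η μ b • m2)) = 0 := by
      rw [smul_sub, smul_comm _ D z, ← hz, hy]
      simp only [smul_add, mul_smul]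
      rw [sub_self]
    exact sub_eq_zero.mp ((torsionfree_of_reflexive _ _ h3).resolve_left (X_pow_ne_zero' u k))
  -- expansion of homogeneous elements
  have hexp : ∀ g, ∀ x ∈ 𝓜 g, ∃ (T : Finset (σ →₀ ℕ)) (y : (σ →₀ ℕ) → M),
      (∀ μ ∈ T, ∀ g', comp 𝓜 g' (y μ) ≠ 0 → η g' = η g0) ∧
      x = ∑ μ ∈ T, (monomial μ (1 : K)) • y μ := by
    intro g x hx
    obtain ⟨d, D, a, b, hD, hDhom, hd, hab⟩ := hspan g x hx
    have hD0 := ne_zero_of_notMem hD
    have hDl := lam_of_hom hη hDhom hd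
    obtain ⟨Ta, hTa1, _, hTa3⟩ := br_decomp hη a
    obtain ⟨Tb, hTb1, _, hTb3⟩ := br_decomp hη b
    have hyex : ∀ μ, ∃ y : M, Off ω η μ → D • y = br ω η μ a • m1 + br ω η μ b • m2 := by
      intro μ
      by_cases hμ : Off ω η μ
      · obtain ⟨y, hy⟩ := hall g x hx D a b hD0 hDl hab μ hμ
        exact ⟨y, fun _ => hy⟩
      · exact ⟨0, fun h => absurd h hμ⟩
    choose y hy using hyex
    have hTOff : ∀ ν ∈ Ta ∪ Tb, Off ω η ν := by
      intro ν hν
      rcases Finset.mem_union.mp hν with h | h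
      exacts [hTa1 ν h, hTb1 ν h]
    refine ⟨Ta ∪ Tb, y, ?_, ?_⟩
    · intro μ hμ g' hg'
      by_contra hne
      apply hg'
      have h1 := congrArg (comp 𝓜 (d + g')) (hy μ (hTOff μ hμ))
      rw [comp_smul_hom ω 𝓜 hDhom, comp_add, comp_smul ω 𝓜 hm1, comp_smul ω 𝓜 hm2,
        show d + g' - d = g' by abel] at h1
      have hz : ∀ (f : G) (c : MvPolynomial σ K), η f = η g0 →
          weightedHomogeneousComponent ω (d + g' - f) (br ω η μ c) = 0 := by
        intro f c hf
        ext e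
        rw [coeff_weightedHomogeneousComponent, coeff_zero]
        by_cases he : Finsupp.weight ω e = d + g' - f
        · rw [if_pos he, coeff_br hη, if_neg]
          rw [he, map_sub, map_add, hd, hf]
          intro h
          exact hne (by linarith)
        · rw [if_neg he]
      rw [hz f1 a hf1, hz f2 b hf2, zero_smul, zero_smul, add_zero] at h1
      exact (torsionfree_of_reflexive _ _ h1).resolve_left hD0
    · have h1 : D • (x - ∑ μ ∈ Ta ∪ Tb, (monomial μ (1 : K)) • y μ) = 0 := by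
        have h2 : D • ∑ μ ∈ Ta ∪ Tb, (monomial μ (1 : K)) • y μ =
            (∑ μ ∈ Ta ∪ Tb, monomial μ (1 : K) * br ω η μ a) • m1 +
              (∑ μ ∈ Ta ∪ Tb, monomial μ (1 : K) * br ω η μ b) • m2 := by
          rw [Finset.smul_sum, Finset.sum_smul, Finset.sum_smul, ← Finset.sum_add_distrib]
          refine Finset.sum_congr rfl ?_
          intro μ hμ
          rw [smul_comm, hy μ (hTOff μ hμ), smul_add, mul_smul, mul_smul]
        rw [smul_sub, h2, ← hTa3 _ Finset.subset_union_left hTOff,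
          ← hTb3 _ Finset.subset_union_right hTOff, hab, sub_self]
      exact sub_eq_zero.mp ((torsionfree_of_reflexive _ _ h1).resolve_left hD0)
  -- local basis at the prime of the opposite linear space
  have hLBdiv : ∀ {p : Ideal (MvPolynomial σ K)} {c : MvPolynomial σ K} {y z : M},
      LB p (c • y) z → LB p y z := by
    intro p c y z H
    refine ⟨?_, ?_⟩
    · intro a b hab
      have h1 : a • c • y + (c * b) • z = 0 := by
        rw [smul_comm, mul_smul, ← smul_add, hab, smul_zero]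
      obtain ⟨h2, h3⟩ := H.ind _ _ h1
      refine ⟨h2, (mul_eq_zero.mp h3).resolve_left ?_⟩
      intro hc
      have := (H.ind 1 0 (by rw [hc]; simp)).1
      exact one_ne_zero this
    · intro x
      obtain ⟨D, a, b, hD, hab⟩ := H.span x
      exact ⟨D, a * c, b, hD, by rw [hab, smul_smul]⟩
  have hlow : ∀ {z : M} {g : G} {x : M}, x ∈ 𝓜 g → LB (qid K ω η) x z →
      ∃ f : G, ∃ y ∈ 𝓜 f, η f = η g0 ∧ LB (qid K ω η) y z := by
    intro z g x hx H
    obtain ⟨T, y, hT, hxy⟩ := hexp g x hx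
    obtain ⟨μ, hμ, H1⟩ := H.exchange T (fun μ => (monomial μ (1 : K)) • y μ) hxy
    have H2 := hLBdiv H1
    obtain ⟨T', hT', _⟩ := eq_sum_comp 𝓜 (y μ)
    obtain ⟨f, _, H3⟩ := H2.exchange T' (fun g => comp 𝓜 g (y μ)) hT'
    have hne : comp 𝓜 f (y μ) ≠ 0 := by
      intro h
      have := (H3.ind 1 0 (by rw [h]; simp)).1
      exact one_ne_zero this
    exact ⟨f, comp 𝓜 f (y μ), comp_mem 𝓜 f _, hT μ hμ f hne, H3⟩
  obtain ⟨x1, x2, hx⟩ := exists_LB (qid K ω η) (hfree (qid K ω η) ⟨w, X_notMem_qid hw⟩) hrank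
  obtain ⟨e1, e2, y1, hy1, y2, hy2, hy⟩ := hx.homogeneous 𝓜
  obtain ⟨h1, n1, hn1, hh1, H1⟩ := hlow hy1 hy
  obtain ⟨h2, n2, hn2, hh2, H2⟩ := hlow hy2 H1.swap
  have H := H2.swap
  -- elements of the lowest piece
  obtain ⟨D1, A1, B1, hD1, hD1l, hA1l, hB1l, hAB1⟩ := hcoef h1 n1 hn1 hh1
  obtain ⟨D2, A2, B2, hD2, hD2l, hA2l, hB2l, hAB2⟩ := hcoef h2 n2 hn2 hh2
  have hlowspan : ∀ g, ∀ x ∈ 𝓜 g, η g = η g0 → ∃ a b : MvPolynomial σ K,
      x = a • n1 + b • n2 := by
    intro g x hxg hg
    obtain ⟨D0, A0, B0, hD0, hD0l, hA0l, hB0l, hAB0⟩ := hcoef g x hxg hg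
    obtain ⟨D, a, b, hD, hab⟩ := H.span x
    -- common denominator `D0 D1 D2`
    have k1 : (D * (D1 * D2 * A0) - (a * (D0 * D2 * A1) + b * (D0 * D1 * A2))) • m1 +
        (D * (D1 * D2 * B0) - (a * (D0 * D2 * B1) + b * (D0 * D1 * B2))) • m2 = 0 := by
      have j0 : (D * (D1 * D2)) • (D0 • x) = (D * (D1 * D2)) • (A0 • m1 + B0 • m2) := by rw [hAB0]
      have j1 : (a * (D0 * D2)) • (D1 • n1) = (a * (D0 * D2)) • (A1 • m1 + B1 • m2) := by
        rw [hAB1]
      have j2 : (b * (D0 * D1)) • (D2 • n2) = (b * (D0 * D1)) • (A2 • m1 + B2 • m2) := by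
        rw [hAB2]
      have j3 : (D * (D1 * D2)) • (D0 • x) =
          (a * (D0 * D2)) • (D1 • n1) + (b * (D0 * D1)) • (D2 • n2) := by
        have : (D * (D1 * D2)) • (D0 • x) = (D0 * D1 * D2) • (D • x) := by
          rw [smul_smul, smul_smul]; exact smul_eq_of_eq (by ring) _
        rw [this, hab, smul_add, smul_smul, smul_smul, smul_smul, smul_smul]
        congr 2 <;> ring
      rw [j0, j1, j2, ← sub_eq_zero] at j3
      rw [← j3]
      simp only [smul_add, sub_smul, add_smul, smul_smul]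
      have r1 : D * (D1 * D2 * A0) = D * (D1 * D2) * A0 := by ring
      have r2 : D * (D1 * D2 * B0) = D * (D1 * D2) * B0 := by ring
      have r3 : a * (D0 * D2 * A1) = a * (D0 * D2) * A1 := by ring
      have r4 : a * (D0 * D2 * B1) = a * (D0 * D2) * B1 := by ring
      have r5 : b * (D0 * D1 * A2) = b * (D0 * D1) * A2 := by ring
      have r6 : b * (D0 * D1 * B2) = b * (D0 * D1) * B2 := by ring
      rw [r1, r2, r3, r4, r5, r6]
      abel
    obtain ⟨k2, k3⟩ := hind _ _ k1
    rw [sub_eq_zero] at k2 k3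
    obtain ⟨e, he, heOff⟩ := exists_of_notMem_qid hD
    have l1 : br ω η e D * (D1 * D2 * A0) =
        br ω η e a * (D0 * D2 * A1) + br ω η e b * (D0 * D1 * A2) := by
      have q0 : lam ω η (D1 * D2 * A0) = D1 * D2 * A0 := by rw [map_mul, map_mul, hD1l, hD2l, hA0l]
      have q1 : lam ω η (D0 * D2 * A1) = D0 * D2 * A1 := by rw [map_mul, map_mul, hD0l, hD2l, hA1l]
      have q2 : lam ω η (D0 * D1 * A2) = D0 * D1 * A2 := by rw [map_mul, map_mul, hD0l, hD1l, hA2l]
      have := congrArg (br ω η e) k2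
      rw [br_add, mul_comm D, mul_comm a, mul_comm b, br_mul hη q0 heOff, br_mul hη q1 heOff,
        br_mul hη q2 heOff] at this
      linear_combination this
    have l2 : br ω η e D * (D1 * D2 * B0) =
        br ω η e a * (D0 * D2 * B1) + br ω η e b * (D0 * D1 * B2) := by
      have q0 : lam ω η (D1 * D2 * B0) = D1 * D2 * B0 := by rw [map_mul, map_mul, hD1l, hD2l, hB0l]
      have q1 : lam ω η (D0 * D2 * B1) = D0 * D2 * B1 := by rw [map_mul, map_mul, hD0l, hD2l, hB1l]
      have q2 : lam ω η (D0 * D1 * B2) = D0 * D1 * B2 := by rw [map_mul, map_mul, hD0l, hD1l, hB2l]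
      have := congrArg (br ω η e) k3
      rw [br_add, mul_comm D, mul_comm a, mul_comm b, br_mul hη q0 heOff, br_mul hη q1 heOff,
        br_mul hη q2 heOff] at this
      linear_combination this
    have l3 : br ω η e D • x = br ω η e a • n1 + br ω η e b • n2 := by
      have h3 : (D0 * D1 * D2) • (br ω η e D • x - (br ω η e a • n1 + br ω η e b • n2)) = 0 := by
        have j0 : (D0 * D1 * D2) • (br ω η e D • x) =
            (br ω η e D * (D1 * D2)) • (A0 • m1 + B0 • m2) := by
          rw [← hAB0, smul_smul, smul_smul]; exact smul_eq_of_eq (by ring) _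
        have j1 : (D0 * D1 * D2) • (br ω η e a • n1) =
            (br ω η e a * (D0 * D2)) • (A1 • m1 + B1 • m2) := by
          rw [← hAB1, smul_smul, smul_smul]; exact smul_eq_of_eq (by ring) _
        have j2 : (D0 * D1 * D2) • (br ω η e b • n2) =
            (br ω η e b * (D0 * D1)) • (A2 • m1 + B2 • m2) := by
          rw [← hAB2, smul_smul, smul_smul]; exact smul_eq_of_eq (by ring) _
        rw [smul_sub, smul_add, j0, j1, j2]
        simp only [smul_add, smul_smul]
        have r1 : br ω η e D * (D1 * D2) * A0 = br ω η e a * (D0 * D2) * A1 +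
          br ω η e b * (D0 * D1) * A2 := by linear_combination l1
        have r2 : br ω η e D * (D1 * D2) * B0 = br ω η e a * (D0 * D2) * B1 +
          br ω η e b * (D0 * D1) * B2 := by linear_combination l2
        rw [r1, r2, add_smul, add_smul]
        abel
      exact sub_eq_zero.mp ((torsionfree_of_reflexive _ _ h3).resolve_left
        (mul_ne_zero (mul_ne_zero hD0 hD1) hD2))
    have l4 := congrArg (comp 𝓜 g) l3
    rw [comp_smul ω 𝓜 hxg, comp_add, comp_smul ω 𝓜 hn1, comp_smul ω 𝓜 hn2, sub_self] at l4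
    have l5 : weightedHomogeneousComponent ω 0 (br ω η e D) = C (coeff e D) := by
      ext ε
      rw [coeff_weightedHomogeneousComponent, coeff_C]
      by_cases hε : ε = 0
      · subst hε
        rw [map_zero, if_pos rfl, if_pos rfl, coeff_br hη, map_zero, map_zero, if_pos rfl, add_zero]
      · rw [if_neg (Ne.symm hε), if_neg]
        intro h
        apply hε
        have h3 := delta_weight hδ ε
        rw [h, map_zero] at h3
        have h4 : (ε.sum fun _ n => n) = 0 := by exact_mod_cast h3.symm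
        rw [Finsupp.sum_fintype _ _ (by intro κ; rfl)] at h4
        ext κ
        exact Finset.sum_eq_zero_iff.mp h4 κ (Finset.mem_univ κ)
    rw [l5] at l4
    refine ⟨C (coeff e D)⁻¹ * weightedHomogeneousComponent ω (g - h1) (br ω η e a),
      C (coeff e D)⁻¹ * weightedHomogeneousComponent ω (g - h2) (br ω η e b), ?_⟩
    rw [mul_smul, mul_smul, ← smul_add, ← l4, ← mul_smul, ← C_mul, inv_mul_cancel₀ he, C_1,
      one_smul]
  -- everything
  refine free_of_pair (m1 := n1) (m2 := n2) H.ind ?_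
  have hspan2 : ∀ x : M, x ∈ Submodule.span (MvPolynomial σ K) ({n1, n2} : Set M) := by
    intro x
    refine hom_induction 𝓜 (P := fun x => x ∈ Submodule.span (MvPolynomial σ K)
      ({n1, n2} : Set M)) (Submodule.zero_mem _) ?_ (fun m n hm hn => Submodule.add_mem _ hm hn) x
    intro g x hxg
    obtain ⟨T, y, hT, hxy⟩ := hexp g x hxg
    rw [hxy]
    refine Submodule.sum_mem _ (fun μ hμ => Submodule.smul_mem _ _ ?_)
    obtain ⟨T', hT', _⟩ := eq_sum_comp 𝓜 (y μ)
    rw [hT']
    refine Submodule.sum_mem _ (fun f _ => ?_)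
    by_cases hne : comp 𝓜 f (y μ) = 0
    · rw [hne]; exact Submodule.zero_mem _
    · obtain ⟨a, b, hab⟩ := hlowspan f _ (comp_mem 𝓜 f (y μ)) (hT μ hμ f hne)
      rw [hab]
      exact Submodule.add_mem _ (Submodule.smul_mem _ _ (Submodule.subset_span (by simp)))
        (Submodule.smul_mem _ _ (Submodule.subset_span (by simp)))
  intro m
  obtain ⟨a, b, hab⟩ := Submodule.mem_span_pair.mp (hspan2 m)
  exact ⟨a, b, hab.symm⟩

end

end Pool.Agent.Lib.MP_745d3a_ag
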