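import Mathlib

/-!
Elementary facts about multivariate polynomials: the ideal `(x_i ^ N, x_j ^ N)`, reduced
polynomials, homogeneous components, and evaluation of all variables except `x_i`, `x_j`.
-/

open MvPolynomial

namespace Pool.Agent.Lib.MP_745d3a_ag

set_option linter.unusedSectionVars false

variable {σ K : Type*} [DecidableEq σ] [Field K]

/-- The ideal `(x_i ^ N, x_j ^ N)`. -/
noncomputable def J (i j : σ) (N : ℕ) : Ideal (MvPolynomial σ K) := Ideal.span {X i ^ N, X j ^ N}

lemma mem_J_iff {i j : σ} {N : ℕ} {h : MvPolynomial σ K} :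
    h ∈ J i j N ↔ ∀ e ∈ h.support, N ≤ e i ∨ N ≤ e j := by
  have hJ : (J i j N : Ideal (MvPolynomial σ K)) =
      Ideal.span ((fun s => monomial s (1 : K)) '' {Finsupp.single i N, Finsupp.single j N}) := by
    rw [J, Set.image_pair, X_pow_eq_monomial, X_pow_eq_monomial]
  rw [hJ, mem_ideal_span_monomial_image]
  simp [Finsupp.single_le_iff]

lemma mem_J_coeff {i j : σ} {N : ℕ} {h : MvPolynomial σ K} :
    h ∈ J i j N ↔ ∀ e, e i < N → e j < N → coeff e h = 0 := by
  rw [mem_J_iff]
  constructor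
  · intro H e h1 h2
    by_contra h3
    rcases H e (mem_support_iff.mpr h3) with h4 | h4 <;> omega
  · intro H e he
    by_contra h3
    push Not at h3
    exact (mem_support_iff.mp he) (H e h3.1 h3.2)

lemma mem_J_exists {i j : σ} {N : ℕ} {h : MvPolynomial σ K} :
    h ∈ J i j N ↔ ∃ a b, h = X i ^ N * a + X j ^ N * b := by
  rw [J, Ideal.mem_span_pair]
  constructor
  · rintro ⟨a, b, hab⟩
    exact ⟨a, b, by rw [← hab]; ring⟩
  · rintro ⟨a, b, hab⟩
    exact ⟨a, b, by rw [hab]; ring⟩

/-- The part of a polynomial supported on the exponents satisfying `P`. -/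
noncomputable def part (P : (σ →₀ ℕ) → Prop) [DecidablePred P] (p : MvPolynomial σ K) :
    MvPolynomial σ K :=
  ∑ e ∈ p.support.filter P, monomial e (coeff e p)

omit [DecidableEq σ] in
lemma coeff_part (P : (σ →₀ ℕ) → Prop) [DecidablePred P] (p : MvPolynomial σ K) (e : σ →₀ ℕ) :
    coeff e (part P p) = if P e then coeff e p else 0 := by
  classical
  rw [part, coeff_sum]
  simp only [coeff_monomial]
  rw [Finset.sum_ite_eq']
  by_cases h : P e
  · by_cases h2 : coeff e p = 0
    · simp [h, h2]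
    · simp [h, h2]
  · simp [h]

/-- A polynomial all of whose exponents at `i` and `j` are smaller than `N`. -/
def Red (i j : σ) (N : ℕ) (p : MvPolynomial σ K) : Prop :=
  ∀ e, coeff e p ≠ 0 → e i < N ∧ e j < N

lemma Red.eq_zero {i j : σ} {N : ℕ} {p : MvPolynomial σ K} (hp : Red i j N p)
    (h : p ∈ J i j N) : p = 0 := by
  ext e
  by_contra h1
  rw [coeff_zero] at h1
  have := hp e h1
  exact h1 (mem_J_coeff.mp h e this.1 this.2)

/-- Every polynomial is congruent to its reduced part. -/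
lemma exists_red (i j : σ) (N : ℕ) (p : MvPolynomial σ K) :
    ∃ r a b, Red i j N r ∧ (∀ e, coeff e r ≠ 0 → coeff e p ≠ 0) ∧
      p = r + (X i ^ N * a + X j ^ N * b) := by
  classical
  set r := part (fun e => e i < N ∧ e j < N) p with hr
  have h1 : p - r ∈ J i j N := by
    rw [mem_J_coeff]
    intro e h1 h2
    rw [coeff_sub, hr, coeff_part, if_pos ⟨h1, h2⟩, sub_self]
  obtain ⟨a, b, hab⟩ := mem_J_exists.mp h1
  refine ⟨r, a, b, ?_, ?_, ?_⟩
  · intro e he
    rw [hr, coeff_part] at he
    by_contra h3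
    rw [if_neg h3] at he
    exact he rfl
  · intro e he
    rw [hr, coeff_part] at he
    by_contra h3
    rw [h3] at he
    simp at he
  · rw [← hab]; ring

/-- `x_i ^ a` and `x_j ^ b` have no common factor. -/
lemma dvd_of_X_pow_dvd_mul {i j : σ} (hij : i ≠ j) (a b : ℕ) (h : MvPolynomial σ K)
    (H : X i ^ a ∣ X j ^ b * h) : X i ^ a ∣ h := by
  refine Prime.pow_dvd_of_dvd_mul_left X_prime a ?_ H
  intro h1
  have h2 := (X_prime : Prime (X i : MvPolynomial σ K)).dvd_of_dvd_pow h1
  rw [X_dvd_X] at h2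
  exact hij h2

/-- The ideal `(x_i ^ N, x_j ^ N)` is primary to `(x_i, x_j)`. -/
lemma primary {i j : σ} {N : ℕ} {F Δ : MvPolynomial σ K}
    (hF : ∃ u, coeff u F ≠ 0 ∧ u i = 0 ∧ u j = 0) (hΔ : Red i j N Δ)
    (h : F * Δ ∈ J i j N) : Δ = 0 := by
  classical
  by_contra hne
  -- lowest degree in `x_i, x_j`
  obtain ⟨v0, hv0, hmin⟩ : ∃ v ∈ Δ.support, ∀ v' ∈ Δ.support, v i + v j ≤ v' i + v' j :=
    Finset.exists_min_image Δ.support (fun v => v i + v j) (by
      rw [Finset.nonempty_iff_ne_empty, Ne, MvPolynomial.support_eq_empty]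
      exact hne)
  set F0 := part (fun e => e i = 0 ∧ e j = 0) F with hF0
  set Δ0 := part (fun e => e i + e j = v0 i + v0 j) Δ with hΔ0
  have hF0ne : F0 ≠ 0 := by
    obtain ⟨u, hu, hu1, hu2⟩ := hF
    intro h0
    have : coeff u F0 = 0 := by rw [h0, coeff_zero]
    rw [hF0, coeff_part, if_pos ⟨hu1, hu2⟩] at this
    exact hu this
  have hΔ0ne : Δ0 ≠ 0 := by
    intro h0
    have : coeff v0 Δ0 = 0 := by rw [h0, coeff_zero]
    rw [hΔ0, coeff_part, if_pos rfl] at this
    exact (mem_support_iff.mp hv0) this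
  have hprod : F0 * Δ0 ≠ 0 := mul_ne_zero hF0ne hΔ0ne
  obtain ⟨e, he⟩ : ∃ e, coeff e (F0 * Δ0) ≠ 0 := by
    by_contra hcon
    push Not at hcon
    exact hprod (by ext e; simpa using hcon e)
  -- the exponents of `e`
  have hex : ∃ x ∈ Finset.HasAntidiagonal.antidiagonal e, coeff x.1 F0 * coeff x.2 Δ0 ≠ 0 := by
    rw [coeff_mul] at he
    exact Finset.exists_ne_zero_of_sum_ne_zero he
  obtain ⟨x, hx, hx2⟩ := hex
  rw [Finset.HasAntidiagonal.mem_antidiagonal] at hx
  have hxF : coeff x.1 F0 ≠ 0 := left_ne_zero_of_mul hx2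
  have hxΔ : coeff x.2 Δ0 ≠ 0 := right_ne_zero_of_mul hx2
  have h1 : x.1 i = 0 ∧ x.1 j = 0 := by
    rw [hF0, coeff_part] at hxF
    by_contra h3
    rw [if_neg h3] at hxF
    exact hxF rfl
  have h2 : x.2 i + x.2 j = v0 i + v0 j ∧ coeff x.2 Δ ≠ 0 := by
    rw [hΔ0, coeff_part] at hxΔ
    by_cases h3 : x.2 i + x.2 j = v0 i + v0 j
    · rw [if_pos h3] at hxΔ
      exact ⟨h3, hxΔ⟩
    · rw [if_neg h3] at hxΔ
      exact absurd rfl hxΔ
  have h4 := hΔ _ h2.2
  have hei : e i = x.2 i := by rw [← hx]; simp [h1.1]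
  have hej : e j = x.2 j := by rw [← hx]; simp [h1.2]
  have h5 : coeff e (F * Δ) = 0 := mem_J_coeff.mp h e (by omega) (by omega)
  apply he
  rw [← h5, coeff_mul, coeff_mul]
  refine Finset.sum_congr rfl ?_
  intro y hy
  rw [Finset.HasAntidiagonal.mem_antidiagonal] at hy
  have hyi : y.1 i + y.2 i = e i := by rw [← hy]; rfl
  have hyj : y.1 j + y.2 j = e j := by rw [← hy]; rfl
  by_cases hyΔ : coeff y.2 Δ = 0
  · have h9 : coeff y.2 Δ0 = 0 := by rw [hΔ0, coeff_part, hyΔ, ite_self]
    rw [hyΔ, h9, mul_zero, mul_zero]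
  · have h6 := hmin y.2 (mem_support_iff.mpr hyΔ)
    have h7 : y.1 i = 0 ∧ y.1 j = 0 := by omega
    have h8 : y.2 i + y.2 j = v0 i + v0 j := by omega
    rw [hF0, hΔ0, coeff_part, coeff_part, if_pos h7, if_pos h8]

/-- Homogeneous component of a product with a homogeneous polynomial. -/
lemma wHC_mul_right {G : Type*} [AddCommGroup G] {ω : σ → G} {d : G} {F Δ : MvPolynomial σ K}
    (hΔ : IsWeightedHomogeneous ω Δ d) (g : G) :
    weightedHomogeneousComponent ω (g + d) (F * Δ) = weightedHomogeneousComponent ω g F * Δ := by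
  classical
  ext e
  rw [coeff_weightedHomogeneousComponent, coeff_mul, coeff_mul]
  by_cases h : Finsupp.weight ω e = g + d
  · rw [if_pos h]
    refine Finset.sum_congr rfl ?_
    intro x hx
    rw [Finset.HasAntidiagonal.mem_antidiagonal] at hx
    by_cases h1 : coeff x.2 Δ = 0
    · rw [h1, mul_zero, mul_zero]
    · have h2 := hΔ h1
      have h3 : Finsupp.weight ω x.1 = g := by
        rw [← hx, map_add, h2] at h
        exact add_right_cancel h
      rw [coeff_weightedHomogeneousComponent, if_pos h3]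
  · rw [if_neg h]
    symm
    refine Finset.sum_eq_zero ?_
    intro x hx
    rw [Finset.HasAntidiagonal.mem_antidiagonal] at hx
    by_cases h1 : coeff x.2 Δ = 0
    · rw [h1, mul_zero]
    · have h2 := hΔ h1
      rw [coeff_weightedHomogeneousComponent, if_neg, zero_mul]
      intro h3
      apply h
      rw [← hx, map_add, h2, h3]

lemma wHC_mem_J {G : Type*} [AddCommGroup G] {ω : σ → G} (g : G) {i j : σ} {N : ℕ}
    {h : MvPolynomial σ K} (H : h ∈ J i j N) : weightedHomogeneousComponent ω g h ∈ J i j N := by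
  classical
  rw [mem_J_coeff] at *
  intro e h1 h2
  rw [coeff_weightedHomogeneousComponent, H e h1 h2, ite_self]

/-- Evaluate all variables except `x_i` and `x_j` at the point `q`. -/
noncomputable def th (i j : σ) (q : σ → K) : MvPolynomial σ K →ₐ[K] MvPolynomial σ K :=
  aeval (fun κ => if κ = i ∨ κ = j then X κ else C (q κ))

/-- The scalar by which a monomial is multiplied under `th`. -/
def scal (i j : σ) (q : σ → K) (e : σ →₀ ℕ) : K :=
  e.prod (fun κ n => if κ = i ∨ κ = j then 1 else q κ ^ n)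

@[simp] lemma th_X_left (i j : σ) (q : σ → K) : th i j q (X i) = X i := by
  simp [th]

@[simp] lemma th_X_right (i j : σ) (q : σ → K) : th i j q (X j) = X j := by
  simp [th]

lemma th_th (i j : σ) (q : σ → K) (p : MvPolynomial σ K) : th i j q (th i j q p) = th i j q p := by
  have : (th i j q).comp (th i j q) = th i j q := by
    ext κ : 1
    by_cases h : κ = i ∨ κ = j
    · simp [th, h]
    · simp [th, h, algHom_C]
  exact DFunLike.congr_fun this p

variable [Fintype σ]

lemma th_monomial {i j : σ} (hij : i ≠ j) (q : σ → K) (e : σ →₀ ℕ) (c : K) :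
    th i j q (monomial e c) =
      monomial (Finsupp.single i (e i) + Finsupp.single j (e j)) (c * scal i j q e) := by
  rw [th, aeval_monomial, scal, Finsupp.prod_fintype _ _ (by intro κ; simp),
    Finsupp.prod_fintype _ _ (by intro κ; simp)]
  have h1 : ∀ κ : σ, (if κ = i ∨ κ = j then (X κ : MvPolynomial σ K) else C (q κ)) ^ e κ =
      (if κ = i ∨ κ = j then X κ ^ e κ else 1) * C (if κ = i ∨ κ = j then 1 else q κ ^ e κ) := by
    intro κ
    by_cases h : κ = i ∨ κ = j
    · simp [h]
    · simp [h]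
  rw [Finset.prod_congr rfl (fun κ _ => h1 κ), Finset.prod_mul_distrib, ← map_prod]
  have h2 : (∏ κ : σ, if κ = i ∨ κ = j then (X κ : MvPolynomial σ K) ^ e κ else 1) =
      X i ^ e i * X j ^ e j := by
    have h3 : ∀ κ : σ, (if κ = i ∨ κ = j then (X κ : MvPolynomial σ K) ^ e κ else 1) =
        (if κ = i then X κ ^ e κ else 1) * (if κ = j then X κ ^ e κ else 1) := by
      intro κ
      by_cases h : κ = i
      · have : ¬ (κ = j) := fun h' => hij (h.symm.trans h')
        simp [h, hij]
      · by_cases h' : κ = j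
        · simp [h', hij.symm]
        · simp [h, h']
    rw [Finset.prod_congr rfl (fun κ _ => h3 κ), Finset.prod_mul_distrib, Finset.prod_ite_eq',
      Finset.prod_ite_eq']
    simp
  rw [h2, X_pow_eq_monomial, X_pow_eq_monomial, monomial_mul, algebraMap_eq, mul_comm (monomial _ _),
    C_mul_monomial, C_mul_monomial]
  congr 1
  ring

/-- An exponent of `th F` comes from an exponent of `F`. -/
lemma exists_of_coeff_th {i j : σ} (hij : i ≠ j) {q : σ → K} {F : MvPolynomial σ K} {u : σ →₀ ℕ}
    (h : coeff u (th i j q F) ≠ 0) :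
    ∃ e, coeff e F ≠ 0 ∧ u = Finsupp.single i (e i) + Finsupp.single j (e j) ∧
      ∀ κ, κ ≠ i → κ ≠ j → q κ = 0 → e κ = 0 := by
  classical
  rw [F.as_sum, map_sum, coeff_sum] at h
  obtain ⟨e, he, h2⟩ := Finset.exists_ne_zero_of_sum_ne_zero h
  rw [th_monomial hij, coeff_monomial] at h2
  by_cases h3 : Finsupp.single i (e i) + Finsupp.single j (e j) = u
  · rw [if_pos h3] at h2
    refine ⟨e, mem_support_iff.mp he, h3.symm, ?_⟩
    intro κ h4 h5 h6
    by_contra h7
    apply h2
    have : scal i j q e = 0 := by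
      rw [scal, Finsupp.prod_fintype _ _ (by intro κ; simp)]
      refine Finset.prod_eq_zero (Finset.mem_univ κ) ?_
      rw [if_neg (by tauto), h6, zero_pow h7]
    rw [this, mul_zero]
  · rw [if_neg h3] at h2
    exact absurd rfl h2

/-- The point of the affine space with coordinates `q` except `0` at `i` and `j`. -/
def pt (i j : σ) (q : σ → K) : σ → K := fun κ => if κ = i ∨ κ = j then 0 else q κ

lemma coeff_zero_th (i j : σ) (q : σ → K) (F : MvPolynomial σ K) :
    coeff 0 (th i j q F) = eval (pt i j q) F := by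
  have : (constantCoeff : MvPolynomial σ K →+* K).comp (th i j q).toRingHom = eval (pt i j q) := by
    apply ringHom_ext
    · intro r
      simp [th]
    · intro κ
      by_cases h : κ = i ∨ κ = j
      · simp [th, pt, h]
      · simp [th, pt, h]
  have h2 := DFunLike.congr_fun this F
  simpa [constantCoeff_eq] using h2

omit [DecidableEq σ] in
lemma exists_of_eval_ne_zero {q : σ → K} {F : MvPolynomial σ K} (h : eval q F ≠ 0) :
    ∃ e, coeff e F ≠ 0 ∧ ∀ κ, q κ = 0 → e κ = 0 := by
  rw [eval_eq'] at h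
  obtain ⟨e, he, h2⟩ := Finset.exists_ne_zero_of_sum_ne_zero h
  refine ⟨e, mem_support_iff.mp he, ?_⟩
  intro κ hκ
  by_contra h3
  apply h2
  rw [Finset.prod_eq_zero (Finset.mem_univ κ) (by rw [hκ, zero_pow h3]), mul_zero]

end Pool.Agent.Lib.MP_745d3a_ag
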