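import Pool.Agent.Lib.MP_745d3a_ag.Toeplitz
import Pool.Agent.Lib.MP_745d3a_ag.Poly

/-!
The combinatorial core: a weighted homogeneous polynomial whose colon ideals have the
prescribed shape does not exist.
-/

open MvPolynomial

set_option linter.unusedSectionVars false
set_option linter.unusedSimpArgs false

namespace Pool.Agent.Lib.MP_745d3a_ag

variable {σ K : Type*} [DecidableEq σ] [Fintype σ] [Field K]

/-- Five distinct indices exhausting the index set. -/
structure Five (i j k l m : σ) : Prop where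
  ij : i ≠ j
  ik : i ≠ k
  il : i ≠ l
  im : i ≠ m
  jk : j ≠ k
  jl : j ≠ l
  jm : j ≠ m
  kl : k ≠ l
  km : k ≠ m
  lm : l ≠ m
  ex : ∀ κ, κ = i ∨ κ = j ∨ κ = k ∨ κ = l ∨ κ = m

namespace Five

omit [DecidableEq σ] [Fintype σ] in
lemma swap {i j k l m : σ} (F : Five i j k l m) : Five j i k l m :=
  ⟨F.ij.symm, F.jk, F.jl, F.jm, F.ik, F.il, F.im, F.kl, F.km, F.lm, fun κ => by
    have := F.ex κ; tauto⟩

omit [DecidableEq σ] [Fintype σ] in
lemma swapkl {i j k l m : σ} (F : Five i j k l m) : Five i j l k m :=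
  ⟨F.ij, F.il, F.ik, F.im, F.jl, F.jk, F.jm, F.kl.symm, F.lm, F.km, fun κ => by
    have := F.ex κ; tauto⟩

omit [DecidableEq σ] [Fintype σ] in
lemma swaplm {i j k l m : σ} (F : Five i j k l m) : Five i j k m l :=
  ⟨F.ij, F.ik, F.im, F.il, F.jk, F.jm, F.jl, F.km, F.kl, F.lm.symm, fun κ => by
    have := F.ex κ; tauto⟩

lemma sum {A : Type*} [AddCommMonoid A] {i j k l m : σ} (F : Five i j k l m) (f : σ → A) :
    ∑ κ, f κ = f i + f j + f k + f l + f m := by
  have h : (Finset.univ : Finset σ) = {i, j, k, l, m} := by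
    ext κ
    simpa using F.ex κ
  have := F.ij; have := F.ik; have := F.il; have := F.im; have := F.jk
  have := F.jl; have := F.jm; have := F.kl; have := F.km; have := F.lm
  rw [h, Finset.sum_insert (by simp [*]), Finset.sum_insert (by simp [*]),
    Finset.sum_insert (by simp [*]), Finset.sum_insert (by simp [*]), Finset.sum_singleton]
  simp only [add_assoc]

omit [DecidableEq σ] [Fintype σ] in
lemma ext {i j k l m : σ} (F : Five i j k l m) {e e' : σ →₀ ℕ} (hi : e i = e' i) (hj : e j = e' j)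
    (hk : e k = e' k) (hl : e l = e' l) (hm : e m = e' m) : e = e' := by
  ext κ
  rcases F.ex κ with h | h | h | h | h <;> rw [h] <;> assumption

end Five

omit [DecidableEq σ] [Fintype σ] in
lemma coeff_mul_unique {f g : MvPolynomial σ K} {a b : σ →₀ ℕ}
    (h : ∀ u v, u + v = a + b → coeff u f ≠ 0 → coeff v g ≠ 0 → u = a ∧ v = b) :
    coeff (a + b) (f * g) = coeff a f * coeff b g := by
  classical
  rw [coeff_mul]
  refine Finset.sum_eq_single_of_mem (a, b) (Finset.HasAntidiagonal.mem_antidiagonal.mpr rfl) ?_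
  intro x hx hne
  rw [Finset.HasAntidiagonal.mem_antidiagonal] at hx
  by_contra h0
  have := h x.1 x.2 hx (left_ne_zero_of_mul h0) (right_ne_zero_of_mul h0)
  exact hne (Prod.ext this.1 this.2)

/-- The vertex exponent. -/
noncomputable def vx (i j κ : σ) (a b r : ℕ) : σ →₀ ℕ :=
  Finsupp.single i a + Finsupp.single j b + Finsupp.single κ r

/-- Data on the exponents of `Δ`. -/
structure DDat (i j k l m : σ) (N : ℕ) (p q R : σ → ℕ) (Δ : MvPolynomial σ K) : Prop where
  five : Five i j k l m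
  pos : ∀ κ, κ = k ∨ κ = l ∨ κ = m → 1 ≤ p κ ∧ p κ ≤ N ∧ 1 ≤ q κ ∧ q κ ≤ N ∧ 1 ≤ R κ
  vert : ∀ κ, κ = k ∨ κ = l ∨ κ = m → coeff (vx i j κ (N - p κ) (N - q κ) (R κ)) Δ ≠ 0
  tot : ∀ e, coeff e Δ ≠ 0 → (e k : ℚ) / R k + e l / R l + e m / R m = 1
  ei : ∀ e, coeff e Δ ≠ 0 → (e i : ℚ) = N - (e k / R k * p k + e l / R l * p l + e m / R m * p m)
  ej : ∀ e, coeff e Δ ≠ 0 → (e j : ℚ) = N - (e k / R k * q k + e l / R l * q l + e m / R m * q m)

/-- Data on the exponents of an element `f` of the colon ideal. -/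
structure FDat (i j k l m : σ) (N : ℕ) (p q R : σ → ℕ) (Δ f : MvPolynomial σ K) : Prop where
  colon : f * Δ ∈ J i j N
  base : ∃ n, coeff (vx i j k (p k) 0 n) f ≠ 0
  tot : ∃ c : ℚ, ∀ e, coeff e f ≠ 0 → (e k : ℚ) / R k + e l / R l + e m / R m = c
  ei : ∀ e, coeff e f ≠ 0 → (e i : ℚ) =
    p k + (e l / R l * ((p k : ℚ) - p l) + e m / R m * ((p k : ℚ) - p m))
  ej : ∀ e, coeff e f ≠ 0 → (e j : ℚ) =
    e l / R l * ((q k : ℚ) - q l) + e m / R m * ((q k : ℚ) - q m)

omit [DecidableEq σ] [Fintype σ] in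
lemma vx_comm (i j κ : σ) (a b r : ℕ) : vx i j κ a b r = vx j i κ b a r := by
  rw [vx, vx, add_comm (Finsupp.single i a)]

omit [DecidableEq σ] [Fintype σ] in
lemma J_comm (i j : σ) (N : ℕ) : (J i j N : Ideal (MvPolynomial σ K)) = J j i N := by
  rw [J, J, Set.pair_comm]

namespace DDat

variable {i j k l m : σ} {N : ℕ} {p q R : σ → ℕ} {Δ : MvPolynomial σ K}

lemma swap (D : DDat i j k l m N p q R Δ) : DDat j i k l m N q p R Δ where
  five := D.five.swap
  pos κ h := by have := D.pos κ h; tauto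
  vert κ h := by rw [vx_comm]; exact D.vert κ h
  tot := D.tot
  ei := D.ej
  ej := D.ei

lemma swapkl (D : DDat i j k l m N p q R Δ) : DDat i j l k m N p q R Δ where
  five := D.five.swapkl
  pos κ h := D.pos κ (by tauto)
  vert κ h := D.vert κ (by tauto)
  tot e he := by rw [← D.tot e he]; ring
  ei e he := by rw [D.ei e he]; ring
  ej e he := by rw [D.ej e he]; ring

lemma swaplm (D : DDat i j k l m N p q R Δ) : DDat i j k m l N p q R Δ where
  five := D.five.swaplm
  pos κ h := D.pos κ (by tauto)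
  vert κ h := D.vert κ (by tauto)
  tot e he := by rw [← D.tot e he]; ring
  ei e he := by rw [D.ei e he]; ring
  ej e he := by rw [D.ej e he]; ring

end DDat

lemma FDat.swaplm {i j k l m : σ} {N : ℕ} {p q R : σ → ℕ} {Δ f : MvPolynomial σ K}
    (D : FDat i j k l m N p q R Δ f) : FDat i j k m l N p q R Δ f where
  colon := D.colon
  base := D.base
  tot := by
    obtain ⟨c, hc⟩ := D.tot
    exact ⟨c, fun e he => by rw [← hc e he]; ring⟩
  ei e he := by rw [D.ei e he]; ring
  ej e he := by rw [D.ej e he]; ring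

section values

variable {i j k l m : σ}

omit [DecidableEq σ] [Fintype σ] in
lemma vx_i (F : Five i j k l m) {κ : σ} (h : κ = k ∨ κ = l ∨ κ = m) (a b r : ℕ) :
    vx i j κ a b r i = a := by
  classical
  have h1 : κ ≠ i := by rcases h with h | h | h <;> rw [h]; exacts [F.ik.symm, F.il.symm, F.im.symm]
  simp [vx, Finsupp.single_apply, F.ij.symm, h1]

omit [DecidableEq σ] [Fintype σ] in
lemma vx_j (F : Five i j k l m) {κ : σ} (h : κ = k ∨ κ = l ∨ κ = m) (a b r : ℕ) :
    vx i j κ a b r j = b := by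
  rw [vx_comm]
  exact vx_i F.swap h b a r

omit [DecidableEq σ] [Fintype σ] in
lemma vx_self (F : Five i j k l m) {κ : σ} (h : κ = k ∨ κ = l ∨ κ = m) (a b r : ℕ) :
    vx i j κ a b r κ = r := by
  classical
  have h1 : i ≠ κ := by rcases h with h | h | h <;> rw [h]; exacts [F.ik, F.il, F.im]
  have h2 : j ≠ κ := by rcases h with h | h | h <;> rw [h]; exacts [F.jk, F.jl, F.jm]
  simp [vx, Finsupp.single_apply, h1, h2]

omit [DecidableEq σ] [Fintype σ] in
lemma vx_other {i j κ κ' : σ} (h1 : κ' ≠ i) (h2 : κ' ≠ j) (h : κ' ≠ κ) (a b r : ℕ) :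
    vx i j κ a b r κ' = 0 := by
  classical
  simp [vx, Finsupp.single_apply, h1.symm, h2.symm, h.symm]

end values

section edge

variable {i j k l m : σ} {N : ℕ} {p q R : σ → ℕ} {Δ f g : MvPolynomial σ K}

/-- The product of extreme terms along the edge `k l`. -/
lemma edge_extreme (D : DDat i j k l m N p q R Δ) (F : FDat i j k l m N p q R Δ f) :
    ∃ e, coeff e f ≠ 0 ∧ e m = 0 ∧ (p l ≤ e i ∨ q l ≤ e j) := by
  classical
  obtain ⟨n, hn⟩ := F.base
  have hk : k = k ∨ k = l ∨ k = m := by tauto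
  have hl : l = k ∨ l = l ∨ l = m := by tauto
  have hm : m = k ∨ m = l ∨ m = m := by tauto
  have F5 := D.five
  obtain ⟨_, _, _, _, hRk⟩ := D.pos k hk
  obtain ⟨hp1, hpN, hq1, hqN, hRl⟩ := D.pos l hl
  have hRk' : (0 : ℚ) < R k := by exact_mod_cast hRk
  have hRl' : (0 : ℚ) < R l := by exact_mod_cast hRl
  -- the exponent with maximal `e l`
  obtain ⟨e, he, hmax⟩ : ∃ e ∈ f.support.filter (fun e : σ →₀ ℕ => e m = 0),
      ∀ e' ∈ f.support.filter (fun e : σ →₀ ℕ => e m = 0), e' l ≤ e l := by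
    refine Finset.exists_max_image _ (fun e : σ →₀ ℕ => e l) ⟨vx i j k (p k) 0 n, ?_⟩
    rw [Finset.mem_filter]
    exact ⟨mem_support_iff.mpr hn, vx_other F5.im.symm F5.jm.symm F5.km.symm _ _ _⟩
  rw [Finset.mem_filter, mem_support_iff] at he
  refine ⟨e, he.1, he.2, ?_⟩
  set v := vx i j l (N - p l) (N - q l) (R l) with hv
  have hvΔ : coeff v Δ ≠ 0 := D.vert l hl
  have hvi : v i = N - p l := vx_i F5 hl _ _ _
  have hvj : v j = N - q l := vx_j F5 hl _ _ _
  have hvl : v l = R l := vx_self F5 hl _ _ _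
  have hvk : v k = 0 := vx_other F5.ik.symm F5.jk.symm F5.kl _ _ _
  have hvm : v m = 0 := vx_other F5.im.symm F5.jm.symm F5.lm.symm _ _ _
  have key : coeff (e + v) (f * Δ) = coeff e f * coeff v Δ := by
    apply coeff_mul_unique
    intro u w huw hu hw
    have h1 : u m + w m = 0 := by
      have : (u + w) m = (e + v) m := by rw [huw]
      simpa [he.2, hvm] using this
    have hum : u m = 0 := by omega
    have hwm : w m = 0 := by omega
    have h2 : u l ≤ e l := hmax u (by
      rw [Finset.mem_filter]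
      exact ⟨mem_support_iff.mpr hu, hum⟩)
    have hwtot := D.tot w hw
    rw [hwm] at hwtot
    have hwk0 : (0 : ℚ) ≤ (w k : ℚ) / R k := by positivity
    have h3 : w l ≤ R l := by
      have : (w l : ℚ) / R l ≤ 1 := by
        simp at hwtot
        linarith
      rw [div_le_one hRl'] at this
      exact_mod_cast this
    have h4 : u l + w l = e l + R l := by
      have : (u + w) l = (e + v) l := by rw [huw]
      simpa [hvl] using this
    have hul : u l = e l := by omega
    have hwl : w l = R l := by omega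
    -- `w = v`
    have hwk : w k = 0 := by
      rw [hwl] at hwtot
      have : (R l : ℚ) / R l = 1 := div_self hRl'.ne'
      rw [this] at hwtot
      simp at hwtot
      rcases hwtot with h | h
      · exact h
      · exact absurd h (by omega)
    have hwv : w = v := by
      have h5 := D.ei w hw
      have h6 := D.ei v hvΔ
      have h7 := D.ej w hw
      have h8 := D.ej v hvΔ
      rw [hwk, hwl, hwm] at h5 h7
      rw [hvk, hvl, hvm] at h6 h8
      apply F5.ext
      · exact_mod_cast h5.trans h6.symm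
      · exact_mod_cast h7.trans h8.symm
      · rw [hwk, hvk]
      · rw [hwl, hvl]
      · rw [hwm, hvm]
    have hue : u = e := by
      rw [hwv] at huw
      exact add_right_cancel huw
    exact ⟨hue, hwv⟩
  have hne : coeff (e + v) (f * Δ) ≠ 0 := by
    rw [key]; exact mul_ne_zero he.1 hvΔ
  rcases mem_J_iff.mp F.colon (e + v) (mem_support_iff.mpr hne) with h | h
  · left
    rw [Finsupp.add_apply, hvi] at h
    omega
  · right
    rw [Finsupp.add_apply, hvj] at h
    omega

/-- If `p k < p l` then `q l < q k` and `p l * q l ≤ p k * q k`. -/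
lemma edge_ineq (D : DDat i j k l m N p q R Δ) (F : FDat i j k l m N p q R Δ f) (hp : p k < p l) :
    q l < q k ∧ p l * q l ≤ p k * q k ∧
      (p l * q l = p k * q k → ∃ e, coeff e f ≠ 0 ∧ e m = 0 ∧ e i = 0 ∧ e j = q l) := by
  obtain ⟨e, he, hem, hor⟩ := edge_extreme D F
  obtain ⟨hp1, hpN, hq1, hqN, hRl⟩ := D.pos l (by tauto)
  have hRl' : (0 : ℚ) < R l := by exact_mod_cast hRl
  have h1 := F.ei e he
  have h2 := F.ej e he
  rw [hem] at h1 h2
  set t : ℚ := (e l : ℚ) / R l with ht
  have ht0 : 0 ≤ t := by positivity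
  simp only [Nat.cast_zero, zero_div, zero_mul, add_zero] at h1 h2
  have hpq : (p k : ℚ) < p l := by exact_mod_cast hp
  have hq1' : (1 : ℚ) ≤ q l := by exact_mod_cast hq1
  have h3 : ¬ (p l ≤ e i) := by
    intro h
    have h' : (p l : ℚ) ≤ e i := by exact_mod_cast h
    nlinarith
  have h4 : (q l : ℚ) ≤ e j := by
    have := hor.resolve_left h3
    exact_mod_cast this
  have h5 : (q l : ℚ) < q k := by
    by_contra h
    push Not at h
    nlinarith
  have hei : (0 : ℚ) ≤ e i := by positivity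
  have h6 : (p l : ℚ) * q l ≤ p k * q k := by nlinarith
  refine ⟨by exact_mod_cast h5, by exact_mod_cast h6, ?_⟩
  intro heq
  have heq' : (p l : ℚ) * q l = p k * q k := by exact_mod_cast heq
  refine ⟨e, he, hem, ?_, ?_⟩
  · have : (e i : ℚ) ≤ 0 := by nlinarith
    have : (e i : ℚ) = 0 := le_antisymm this hei
    exact_mod_cast this
  · have : (e j : ℚ) ≤ q l := by nlinarith
    have : (e j : ℚ) = q l := le_antisymm this h4
    exact_mod_cast this

end edge

end Pool.Agent.Lib.MP_745d3a_ag
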