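import Pool.Agent.Lib.MP_745d3a_ag.Slices

/-!
The combinatorial core, part two: from homogeneity and base change of the colon ideal to the
statement that `Δ` is a monomial in `x_i, x_j`.
-/

open MvPolynomial

set_option linter.unusedSectionVars false
set_option linter.unusedSimpArgs false

namespace Pool.Agent.Lib.MP_745d3a_ag

variable {σ K G : Type*} [DecidableEq σ] [Fintype σ] [Field K] [AddCommGroup G]

/-- Additive functionals adapted to the two directions `ω i`, `ω j`. -/
structure Frame (ω : σ → G) (i j : σ) (η X Y δ : G →+ ℤ) (d : ℤ) : Prop where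
  eta_i : η (ω i) = 0
  eta_j : η (ω j) = 0
  eta_pos : ∀ κ, κ ≠ i → κ ≠ j → 0 < η (ω κ)
  d_ne : d ≠ 0
  X_i : X (ω i) = d
  X_j : X (ω j) = 0
  Y_i : Y (ω i) = 0
  Y_j : Y (ω j) = d
  delta : ∀ κ, δ (ω κ) = 1

lemma Frame.swap {ω : σ → G} {i j : σ} {η X Y δ : G →+ ℤ} {d : ℤ} (F : Frame ω i j η X Y δ d) :
    Frame ω j i η Y X δ d :=
  ⟨F.eta_j, F.eta_i, fun κ h1 h2 => F.eta_pos κ h2 h1, F.d_ne, F.Y_j, F.Y_i, F.X_j, F.X_i, F.delta⟩

lemma map_weight (φ : G →+ ℤ) (ω : σ → G) (e : σ →₀ ℕ) :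
    φ (Finsupp.weight ω e) = ∑ κ, (e κ : ℤ) * φ (ω κ) := by
  rw [Finsupp.weight_apply, Finsupp.sum_fintype _ _ (by intro κ; simp), map_sum]
  refine Finset.sum_congr rfl ?_
  intro κ _
  rw [map_nsmul, nsmul_eq_mul]

lemma th_comm (i j : σ) (q : σ → K) : th i j q = th j i q := by
  unfold th
  congr 1
  funext κ
  simp only [or_comm]

lemma pt_comm (i j : σ) (q : σ → K) : pt i j q = pt j i q := by
  unfold pt
  funext κ
  simp only [or_comm]

/-- Base change of the colon ideal `(J : Δ)`. -/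
def BC (i j : σ) (N : ℕ) (Δ : MvPolynomial σ K) : Prop :=
  ∀ q : σ → K, (∃ κ, κ ≠ i ∧ κ ≠ j ∧ q κ ≠ 0) → ∀ h, th i j q h * th i j q Δ ∈ J i j N →
    ∃ F D, F * Δ ∈ J i j N ∧ th i j q F = th i j q D * th i j q h ∧ eval (pt i j q) D ≠ 0

lemma BC.swap {i j : σ} {N : ℕ} {Δ : MvPolynomial σ K} (H : BC i j N Δ) : BC j i N Δ := by
  intro q hq h hh
  obtain ⟨κ, h1, h2, h3⟩ := hq
  have := H q ⟨κ, h2, h1, h3⟩ h (by rw [th_comm i j, J_comm]; exact hh)
  rw [th_comm j i, pt_comm j i, J_comm]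
  exact this

lemma Red.swap {i j : σ} {N : ℕ} {Δ : MvPolynomial σ K} (H : Red i j N Δ) : Red j i N Δ :=
  fun e he => (H e he).symm

/-- Nonvanishing. -/
lemma nonvanish {i j : σ} {N : ℕ} {Δ : MvPolynomial σ K} (H : BC i j N Δ) (hred : Red i j N Δ)
    (hΔ : Δ ≠ 0) {q : σ → K} (hq : ∃ κ, κ ≠ i ∧ κ ≠ j ∧ q κ ≠ 0) : th i j q Δ ∉ J i j N := by
  intro hmem
  obtain ⟨F, D, h1, h2, h3⟩ := H q hq 1 (by rw [map_one, one_mul]; exact hmem)
  apply hΔ
  refine primary ?_ hred h1
  have h4 : eval (pt i j q) F ≠ 0 := by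
    rw [← coeff_zero_th, h2, map_one, mul_one, coeff_zero_th]
    exact h3
  obtain ⟨e, he, h5⟩ := exists_of_eval_ne_zero h4
  exact ⟨e, he, h5 i (by simp [pt]), h5 j (by simp [pt])⟩

section frame

variable {ω : σ → G} {i j : σ} {η X Y δ : G →+ ℤ} {d : ℤ} {N : ℕ} {Δ : MvPolynomial σ K} {D0 : G}

/-- Exponents of a given weight supported on `i, j, κ` are unique. -/
lemma Frame.uniq (F : Frame ω i j η X Y δ d) {k l m : σ} (F5 : Five i j k l m) {e e' : σ →₀ ℕ}
    (h : Finsupp.weight ω e = Finsupp.weight ω e') (hl : e l = 0) (hm : e m = 0)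
    (hl' : e' l = 0) (hm' : e' m = 0) : e = e' := by
  have h1 : η (Finsupp.weight ω e) = η (Finsupp.weight ω e') := by rw [h]
  have h2 : X (Finsupp.weight ω e) = X (Finsupp.weight ω e') := by rw [h]
  have h3 : Y (Finsupp.weight ω e) = Y (Finsupp.weight ω e') := by rw [h]
  rw [map_weight, map_weight, F5.sum, F5.sum, hl, hm, hl', hm', F.eta_i, F.eta_j] at h1
  rw [map_weight, map_weight, F5.sum, F5.sum, hl, hm, hl', hm', F.X_i, F.X_j] at h2
  rw [map_weight, map_weight, F5.sum, F5.sum, hl, hm, hl', hm', F.Y_i, F.Y_j] at h3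
  have hpos := F.eta_pos k F5.ik.symm F5.jk.symm
  have hk : (e k : ℤ) = e' k := by
    have : (e k : ℤ) * η (ω k) = e' k * η (ω k) := by simpa using h1
    exact mul_right_cancel₀ hpos.ne' this
  rw [hk] at h2 h3
  have hi : (e i : ℤ) = e' i := by
    have : (e i : ℤ) * d = e' i * d := by simpa using h2
    exact mul_right_cancel₀ F.d_ne this
  have hj : (e j : ℤ) = e' j := by
    have : (e j : ℤ) * d = e' j * d := by simpa using h3
    exact mul_right_cancel₀ F.d_ne this
  exact F5.ext (by exact_mod_cast hi) (by exact_mod_cast hj) (by exact_mod_cast hk)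
    (by rw [hl, hl']) (by rw [hm, hm'])

/-- The vertex monomials of `Δ`. -/
lemma exists_vertex {k l m : σ} (F5 : Five i j k l m)
    (hBC : BC i j N Δ) (hred : Red i j N Δ) (hΔ : Δ ≠ 0) :
    ∃ a b r, coeff (vx i j k a b r) Δ ≠ 0 ∧ a < N ∧ b < N := by
  have hq : ∃ κ, κ ≠ i ∧ κ ≠ j ∧ (Pi.single k 1 : σ → K) κ ≠ 0 :=
    ⟨k, F5.ik.symm, F5.jk.symm, by simp⟩
  have h1 := nonvanish hBC hred hΔ hq
  rw [mem_J_coeff] at h1
  push Not at h1
  obtain ⟨u, hu1, hu2, hu3⟩ := h1
  obtain ⟨e, he, h4, h5⟩ := exists_of_coeff_th F5.ij hu3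
  have hel : e l = 0 := h5 l F5.il.symm F5.jl.symm (by simp [Pi.single_apply, F5.kl.symm])
  have hem : e m = 0 := h5 m F5.im.symm F5.jm.symm (by simp [Pi.single_apply, F5.km.symm])
  have hev : e = vx i j k (e i) (e j) (e k) := by
    apply F5.ext
    · rw [vx_i F5 (by tauto)]
    · rw [vx_j F5 (by tauto)]
    · rw [vx_self F5 (by tauto)]
    · rw [vx_other F5.il.symm F5.jl.symm F5.kl.symm, hel]
    · rw [vx_other F5.im.symm F5.jm.symm F5.km.symm, hem]
  have hr := hred e he
  exact ⟨e i, e j, e k, by rw [← hev]; exact he, hr.1, hr.2⟩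

end frame

/-- The relation of three functionals at an exponent. -/
lemma frame_div {k l m : σ} {R : σ → ℕ} {d : ℤ} {x : σ → ℤ} {D P : ℤ} {a : σ → ℕ}
    (hR : ∀ κ, κ = k ∨ κ = l ∨ κ = m → 1 ≤ R κ)
    (hv : ∀ κ, κ = k ∨ κ = l ∨ κ = m → D = d * a κ + R κ * x κ) {e : σ → ℕ} {s : ℕ}
    (h : P = d * s + e k * x k + e l * x l + e m * x m) :
    (P : ℚ) = d * s + (e k / R k * (D - d * a k) + e l / R l * (D - d * a l)
      + e m / R m * (D - d * a m)) := by
  have key : ∀ κ, κ = k ∨ κ = l ∨ κ = m →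
      (e κ : ℚ) / R κ * (D - d * a κ) = e κ * x κ := by
    intro κ hκ
    have h1 : (D : ℚ) = d * a κ + R κ * x κ := by exact_mod_cast hv κ hκ
    have h2 : (R κ : ℚ) ≠ 0 := by
      have := hR κ hκ
      positivity
    rw [h1]
    field_simp
    ring
  rw [key k (by tauto), key l (by tauto), key m (by tauto)]
  have : (P : ℚ) = d * s + e k * x k + e l * x l + e m * x m := by exact_mod_cast h
  rw [this]; ring

section data

variable {ω : σ → G} {i j : σ} {η X Y δ : G →+ ℤ} {d : ℤ} {N : ℕ} {Δ : MvPolynomial σ K} {D0 : G}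
  {a b R : σ → ℕ}

/-- Vertex data. -/
structure Verts (i j : σ) (N : ℕ) (Δ : MvPolynomial σ K) (a b R : σ → ℕ) : Prop where
  ne : ∀ κ, κ ≠ i → κ ≠ j → coeff (vx i j κ (a κ) (b κ) (R κ)) Δ ≠ 0
  a_lt : ∀ κ, κ ≠ i → κ ≠ j → a κ < N
  b_lt : ∀ κ, κ ≠ i → κ ≠ j → b κ < N
  R_pos : ∀ κ, κ ≠ i → κ ≠ j → 1 ≤ R κ

lemma Verts.swap (V : Verts i j N Δ a b R) : Verts j i N Δ b a R :=
  ⟨fun κ h1 h2 => by rw [vx_comm]; exact V.ne κ h2 h1, fun κ h1 h2 => V.b_lt κ h2 h1,
    fun κ h1 h2 => V.a_lt κ h2 h1, fun κ h1 h2 => V.R_pos κ h2 h1⟩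

lemma sub_cases {k l m κ : σ} (F5 : Five i j k l m) (h : κ = k ∨ κ = l ∨ κ = m) :
    κ ≠ i ∧ κ ≠ j := by
  rcases h with h | h | h <;> rw [h]
  exacts [⟨F5.ik.symm, F5.jk.symm⟩, ⟨F5.il.symm, F5.jl.symm⟩, ⟨F5.im.symm, F5.jm.symm⟩]

lemma vx_sum {k l m κ : σ} (F5 : Five i j k l m) (h : κ = k ∨ κ = l ∨ κ = m) (A B r : ℕ)
    (x : σ → ℤ) :
    ∑ κ', (vx i j κ A B r κ' : ℤ) * x κ' = A * x i + B * x j + r * x κ := by
  have h1 := F5.ik.symm; have h2 := F5.jk.symm; have h3 := F5.il.symm; have h4 := F5.jl.symm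
  have h5 := F5.im.symm; have h6 := F5.jm.symm
  rw [F5.sum, vx_i F5 h, vx_j F5 h]
  rcases h with h | h | h
  · subst h
    rw [vx_self F5 (by tauto), vx_other h3 h4 F5.kl.symm, vx_other h5 h6 F5.km.symm]
    simp
  · subst h
    rw [vx_self F5 (by tauto), vx_other h1 h2 F5.kl, vx_other h5 h6 F5.lm.symm]
    simp
  · subst h
    rw [vx_self F5 (by tauto), vx_other h1 h2 F5.km, vx_other h3 h4 F5.lm]
    simp

variable (F : Frame ω i j η X Y δ d) (hhom : IsWeightedHomogeneous ω Δ D0)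
  (V : Verts i j N Δ a b R)

include F hhom V

lemma eta_rel {k l m κ : σ} (F5 : Five i j k l m) (h : κ = k ∨ κ = l ∨ κ = m) :
    η D0 = R κ * η (ω κ) := by
  obtain ⟨h1, h2⟩ := sub_cases F5 h
  have := hhom (V.ne κ h1 h2)
  rw [← this, map_weight, vx_sum F5 h, F.eta_i, F.eta_j]
  ring

lemma X_rel {k l m κ : σ} (F5 : Five i j k l m) (h : κ = k ∨ κ = l ∨ κ = m) :
    X D0 = d * a κ + R κ * X (ω κ) := by
  obtain ⟨h1, h2⟩ := sub_cases F5 h
  have := hhom (V.ne κ h1 h2)
  rw [← this, map_weight, vx_sum F5 h, F.X_i, F.X_j]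
  ring

lemma Y_rel {k l m κ : σ} (F5 : Five i j k l m) (h : κ = k ∨ κ = l ∨ κ = m) :
    Y D0 = d * b κ + R κ * Y (ω κ) := by
  obtain ⟨h1, h2⟩ := sub_cases F5 h
  have := hhom (V.ne κ h1 h2)
  rw [← this, map_weight, vx_sum F5 h, F.Y_i, F.Y_j]
  ring

/-- The three relations for an exponent `e` of weight `P`. -/
lemma three_rel {k l m : σ} (F5 : Five i j k l m) (e : σ →₀ ℕ) :
    (η (Finsupp.weight ω e) : ℚ) = η D0 * (e k / R k + e l / R l + e m / R m) ∧
    (X (Finsupp.weight ω e) : ℚ) = d * e i + (e k / R k * (X D0 - d * a k)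
      + e l / R l * (X D0 - d * a l) + e m / R m * (X D0 - d * a m)) ∧
    (Y (Finsupp.weight ω e) : ℚ) = d * e j + (e k / R k * (Y D0 - d * b k)
      + e l / R l * (Y D0 - d * b l) + e m / R m * (Y D0 - d * b m)) := by
  have hR : ∀ κ, κ = k ∨ κ = l ∨ κ = m → 1 ≤ R κ := fun κ h =>
    V.R_pos κ (sub_cases F5 h).1 (sub_cases F5 h).2
  refine ⟨?_, ?_, ?_⟩
  · have h1 := frame_div (R := R) (d := 0) (x := fun κ => η (ω κ)) (D := η D0)
      (P := η (Finsupp.weight ω e)) (a := a) hR (fun κ h => by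
        rw [eta_rel F hhom V F5 h]; ring) (e := e) (s := e i) (by
        rw [map_weight, F5.sum, F.eta_i, F.eta_j]; ring)
    rw [h1]
    push_cast
    ring
  · exact frame_div (R := R) (d := d) (x := fun κ => X (ω κ)) (D := X D0)
      (P := X (Finsupp.weight ω e)) (a := a) hR (fun κ h => X_rel F hhom V F5 h)
      (e := e) (s := e i) (by rw [map_weight, F5.sum, F.X_i, F.X_j]; ring)
  · exact frame_div (R := R) (d := d) (x := fun κ => Y (ω κ)) (D := Y D0)
      (P := Y (Finsupp.weight ω e)) (a := b) hR (fun κ h => Y_rel F hhom V F5 h)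
      (e := e) (s := e j) (by rw [map_weight, F5.sum, F.Y_i, F.Y_j]; ring)

lemma etaD0_pos {k l m : σ} (F5 : Five i j k l m) : (0 : ℚ) < η D0 := by
  rw [eta_rel F hhom V F5 (κ := k) (by tauto)]
  have h1 := F.eta_pos k F5.ik.symm F5.jk.symm
  have h2 := V.R_pos k F5.ik.symm F5.jk.symm
  have h3 : (0 : ℚ) < η (ω k) := by exact_mod_cast h1
  push_cast
  positivity

lemma mkDDat {k l m : σ} (F5 : Five i j k l m) :
    DDat i j k l m N (fun κ => N - a κ) (fun κ => N - b κ) R Δ := by
  have hη := etaD0_pos F hhom V F5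
  have hd : (d : ℚ) ≠ 0 := by exact_mod_cast F.d_ne
  have hak := V.a_lt k F5.ik.symm F5.jk.symm
  have hal := V.a_lt l F5.il.symm F5.jl.symm
  have ham := V.a_lt m F5.im.symm F5.jm.symm
  have hbk := V.b_lt k F5.ik.symm F5.jk.symm
  have hbl := V.b_lt l F5.il.symm F5.jl.symm
  have hbm := V.b_lt m F5.im.symm F5.jm.symm
  have htot : ∀ e, coeff e Δ ≠ 0 → (e k : ℚ) / R k + e l / R l + e m / R m = 1 := by
    intro e he
    have h1 := (three_rel F hhom V F5 e).1
    rw [hhom he] at h1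
    have h2 : (η D0 : ℚ) * ((e k : ℚ) / R k + e l / R l + e m / R m) = η D0 * 1 := by
      rw [← h1, mul_one]
    exact mul_left_cancel₀ hη.ne' h2
  refine ⟨F5, ?_, ?_, htot, ?_, ?_⟩
  · intro κ hκ
    obtain ⟨h1, h2⟩ := sub_cases F5 hκ
    have h3 := V.a_lt κ h1 h2
    have h4 := V.b_lt κ h1 h2
    have h5 := V.R_pos κ h1 h2
    omega
  · intro κ hκ
    obtain ⟨h1, h2⟩ := sub_cases F5 hκ
    have h3 := V.a_lt κ h1 h2
    have h4 := V.b_lt κ h1 h2
    have h5 : N - (N - a κ) = a κ := by omega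
    have h6 : N - (N - b κ) = b κ := by omega
    rw [h5, h6]
    exact V.ne κ h1 h2
  · intro e he
    have h1 := (three_rel F hhom V F5 e).2.1
    have h2 := htot e he
    rw [hhom he] at h1
    rw [Nat.cast_sub hak.le, Nat.cast_sub hal.le, Nat.cast_sub ham.le]
    apply mul_left_cancel₀ hd
    linear_combination (-1 : ℚ) * h1 - (X D0 - d * N) * h2
  · intro e he
    have h1 := (three_rel F hhom V F5 e).2.2
    have h2 := htot e he
    rw [hhom he] at h1
    rw [Nat.cast_sub hbk.le, Nat.cast_sub hbl.le, Nat.cast_sub hbm.le]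
    apply mul_left_cancel₀ hd
    linear_combination (-1 : ℚ) * h1 - (Y D0 - d * N) * h2

lemma mkFDat (hBC : BC i j N Δ) {k l m : σ} (F5 : Five i j k l m) :
    ∃ f, FDat i j k l m N (fun κ => N - a κ) (fun κ => N - b κ) R Δ f := by
  classical
  have hη := etaD0_pos F hhom V F5
  have hd : (d : ℚ) ≠ 0 := by exact_mod_cast F.d_ne
  have hak := V.a_lt k F5.ik.symm F5.jk.symm
  have hal := V.a_lt l F5.il.symm F5.jl.symm
  have ham := V.a_lt m F5.im.symm F5.jm.symm
  have hbk := V.b_lt k F5.ik.symm F5.jk.symm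
  have hbl := V.b_lt l F5.il.symm F5.jl.symm
  have hbm := V.b_lt m F5.im.symm F5.jm.symm
  set q : σ → K := Pi.single k 1 with hq
  have hq0 : ∃ κ, κ ≠ i ∧ κ ≠ j ∧ q κ ≠ 0 := ⟨k, F5.ik.symm, F5.jk.symm, by simp [hq]⟩
  have hql : q l = 0 := by simp [hq, Pi.single_apply, F5.kl.symm]
  have hqm : q m = 0 := by simp [hq, Pi.single_apply, F5.km.symm]
  set v := vx i j k (a k) (b k) (R k) with hv
  have hvΔ : coeff v Δ ≠ 0 := V.ne k F5.ik.symm F5.jk.symm
  have hvl : v l = 0 := vx_other F5.il.symm F5.jl.symm F5.kl.symm _ _ _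
  have hvm : v m = 0 := vx_other F5.im.symm F5.jm.symm F5.km.symm _ _ _
  -- `th q Δ` is a monomial
  have hmem : th i j q (MvPolynomial.X i ^ (N - a k)) * th i j q Δ ∈ J i j N := by
    rw [map_pow, th_X_left, mem_J_iff]
    intro e he
    left
    rw [mem_support_iff, X_pow_eq_monomial, coeff_monomial_mul'] at he
    by_cases hle : Finsupp.single i (N - a k) ≤ e
    · rw [if_pos hle] at he
      have he' : coeff (e - Finsupp.single i (N - a k)) (th i j q Δ) ≠ 0 :=
        right_ne_zero_of_mul he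
      obtain ⟨u, hu, h2, h3⟩ := exists_of_coeff_th F5.ij he'
      have huv : u = v := F.uniq F5 ((hhom hu).trans (hhom hvΔ).symm)
        (h3 l F5.il.symm F5.jl.symm hql) (h3 m F5.im.symm F5.jm.symm hqm) hvl hvm
      have h4 : (e - Finsupp.single i (N - a k)) i = a k := by
        rw [h2, huv]
        simp [Finsupp.single_apply, F5.ij.symm, hv, vx_i F5]
      rw [Finsupp.tsub_apply, Finsupp.single_eq_same] at h4
      have h5 : N - a k ≤ e i := by
        have := hle i
        simpa using this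
      omega
    · rw [if_neg hle] at he
      exact absurd rfl he
  obtain ⟨F', D', hF1, hF2, hF3⟩ := hBC q hq0 _ hmem
  -- an exponent of `F'`
  have hcoef : coeff (Finsupp.single i (N - a k)) (th i j q F') ≠ 0 := by
    rw [hF2, map_pow, th_X_left, X_pow_eq_monomial]
    have h1 := coeff_mul_monomial (0 : σ →₀ ℕ) (Finsupp.single i (N - a k)) (1 : K) (th i j q D')
    rw [zero_add] at h1
    rw [h1, mul_one, coeff_zero_th]
    exact hF3
  obtain ⟨u, hu, h2, h3⟩ := exists_of_coeff_th F5.ij hcoef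
  have hul : u l = 0 := h3 l F5.il.symm F5.jl.symm hql
  have hum : u m = 0 := h3 m F5.im.symm F5.jm.symm hqm
  have hui : u i = N - a k := by
    have := DFunLike.congr_fun h2 i
    simp [Finsupp.single_apply, F5.ij.symm] at this
    omega
  have huj : u j = 0 := by
    have := DFunLike.congr_fun h2 j
    simp [Finsupp.single_apply, F5.ij] at this
    omega
  have huv : u = vx i j k (N - a k) 0 (u k) := by
    apply F5.ext
    · rw [vx_i F5 (by tauto), hui]
    · rw [vx_j F5 (by tauto), huj]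
    · rw [vx_self F5 (by tauto)]
    · rw [vx_other F5.il.symm F5.jl.symm F5.kl.symm, hul]
    · rw [vx_other F5.im.symm F5.jm.symm F5.km.symm, hum]
  set g := Finsupp.weight ω u with hg
  refine ⟨weightedHomogeneousComponent ω g F', ?_, ?_, ?_, ?_, ?_⟩
  · rw [← wHC_mul_right hhom]
    exact wHC_mem_J _ hF1
  · refine ⟨u k, ?_⟩
    rw [← huv, coeff_weightedHomogeneousComponent, if_pos rfl]
    exact hu
  all_goals
    have hw : ∀ e, coeff e (weightedHomogeneousComponent ω g F') ≠ 0 →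
        Finsupp.weight ω e = g := fun e he =>
      weightedHomogeneousComponent_isWeightedHomogeneous g F' he
    obtain ⟨u1, u2, u3⟩ := three_rel F hhom V F5 u
    rw [hul, hum] at u1 u2 u3
    rw [hui] at u2
    rw [huj] at u3
    have htot : ∀ e, coeff e (weightedHomogeneousComponent ω g F') ≠ 0 →
        (e k : ℚ) / R k + e l / R l + e m / R m = u k / R k := by
      intro e he
      have h4 := (three_rel F hhom V F5 e).1
      rw [hw e he, hg, u1] at h4
      have := mul_left_cancel₀ hη.ne' h4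
      rw [← this]
      simp
  · exact ⟨_, htot⟩
  · intro e he
    have h4 := (three_rel F hhom V F5 e).2.1
    have h5 := htot e he
    rw [hw e he, hg, u2] at h4
    rw [Nat.cast_sub hak.le, Nat.cast_sub hal.le, Nat.cast_sub ham.le]
    rw [Nat.cast_sub hak.le] at h4
    apply mul_left_cancel₀ hd
    simp only [Nat.cast_zero, zero_div, zero_mul, add_zero] at h4
    linear_combination (-1 : ℚ) * h4 - (X D0 - d * a k) * h5
  · intro e he
    have h4 := (three_rel F hhom V F5 e).2.2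
    have h5 := htot e he
    rw [hw e he, hg, u3] at h4
    rw [Nat.cast_sub hbk.le, Nat.cast_sub hbl.le, Nat.cast_sub hbm.le]
    apply mul_left_cancel₀ hd
    simp only [Nat.cast_zero, zero_div, zero_mul, add_zero, mul_zero, zero_add] at h4
    linear_combination (-1 : ℚ) * h4 - (Y D0 - d * b k) * h5

end data


section coincidence

/-- The point `x_k = t`, `x_m = 0`, all other coordinates one. -/
def pc (k m : σ) (t : ℂ) : σ → ℂ := fun κ => if κ = k then t else if κ = m then 0 else 1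

/-- Two vertices cannot coincide. -/
lemma no_coincidence {i j k l m : σ} {N : ℕ} {p q R : σ → ℕ} {Δ : MvPolynomial σ ℂ}
    (D : DDat i j k l m N p q R Δ) (hBC : BC i j N Δ) (hred : Red i j N Δ)
    (hp : p k = p l) (hq : q k = q l) (hR : R k = R l) : False := by
  classical
  have F5 := D.five
  have hΔ : Δ ≠ 0 := by
    intro h
    have := D.vert k (by tauto)
    rw [h] at this
    simp at this
  obtain ⟨hpk1, hpkN, hqk1, hqkN, hRk⟩ := D.pos k (by tauto)
  have hRk' : (0 : ℚ) < R k := by exact_mod_cast hRk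
  -- exponents with `e m = 0`
  have hexp : ∀ e, coeff e Δ ≠ 0 → e m = 0 → e k + e l = R k ∧ e i = N - p k ∧ e j = N - q k := by
    intro e he hem
    have h1 := D.tot e he
    have h2 := D.ei e he
    have h3 := D.ej e he
    rw [hem, ← hR] at h1 h2 h3
    rw [← hp] at h2
    rw [← hq] at h3
    simp only [Nat.cast_zero, zero_div, zero_mul, add_zero] at h1 h2 h3
    rw [← add_mul, h1, one_mul] at h2 h3
    refine ⟨?_, ?_, ?_⟩
    · rw [← add_div, div_eq_one_iff_eq hRk'.ne'] at h1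
      exact_mod_cast h1
    · have : (e i : ℚ) + p k = N := by rw [h2]; ring
      have : e i + p k = N := by exact_mod_cast this
      omega
    · have : (e j : ℚ) + q k = N := by rw [h3]; ring
      have : e j + q k = N := by exact_mod_cast this
      omega
  -- the one-variable polynomial
  set P : Polynomial ℂ :=
    ∑ e ∈ Δ.support, if e m = 0 then Polynomial.monomial (e k) (coeff e Δ) else 0 with hP
  have hcoef : P.coeff (R k) ≠ 0 := by
    set v := vx i j k (N - p k) (N - q k) (R k) with hv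
    have hvΔ : coeff v Δ ≠ 0 := D.vert k (by tauto)
    have hvk : v k = R k := vx_self F5 (by tauto) _ _ _
    have hvm : v m = 0 := vx_other F5.im.symm F5.jm.symm F5.km.symm _ _ _
    rw [hP, Polynomial.finsetSum_coeff, Finset.sum_eq_single_of_mem v (mem_support_iff.mpr hvΔ)]
    · rw [if_pos hvm, Polynomial.coeff_monomial, if_pos hvk]
      exact hvΔ
    · intro e he hne
      by_cases hem : e m = 0
      · rw [if_pos hem, Polynomial.coeff_monomial, if_neg]
        intro hek
        obtain ⟨h1, h2, h3⟩ := hexp e (mem_support_iff.mp he) hem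
        apply hne
        apply F5.ext
        · rw [h2, hv, vx_i F5 (by tauto)]
        · rw [h3, hv, vx_j F5 (by tauto)]
        · rw [hek, hvk]
        · rw [hv, vx_other F5.il.symm F5.jl.symm F5.kl.symm]
          omega
        · rw [hem, hvm]
      · rw [if_neg hem, Polynomial.coeff_zero]
  have hdeg : P.degree ≠ 0 := by
    intro h0
    have h1 : R k ≤ P.natDegree := Polynomial.le_natDegree_of_ne_zero hcoef
    rw [Polynomial.natDegree_eq_zero_iff_degree_le_zero.mpr h0.le] at h1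
    omega
  obtain ⟨t, ht⟩ := IsAlgClosed.exists_root P hdeg
  have hev : eval (pc k m t) Δ = 0 := by
    rw [Polynomial.IsRoot.def, hP, Polynomial.eval_finsetSum] at ht
    rw [eval_eq', ← ht]
    refine Finset.sum_congr rfl ?_
    intro e _
    have h1 : ∏ κ, pc k m t κ ^ e κ = t ^ e k * (if e m = 0 then 1 else 0) := by
      have h2 : ∀ κ : σ, pc k m t κ ^ e κ =
          (if κ = k then t ^ e κ else 1) * (if κ = m then (0 : ℂ) ^ e κ else 1) := by
        intro κ
        by_cases h : κ = k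
        · have : κ ≠ m := fun h' => F5.km (h.symm.trans h')
          simp [pc, h, F5.km]
        · by_cases h' : κ = m
          · simp [pc, h', F5.km.symm]
          · simp [pc, h, h']
      rw [Finset.prod_congr rfl (fun κ _ => h2 κ), Finset.prod_mul_distrib, Finset.prod_ite_eq',
        Finset.prod_ite_eq', if_pos (Finset.mem_univ _), if_pos (Finset.mem_univ _)]
      by_cases hem : e m = 0
      · simp [hem]
      · simp [hem]
    rw [h1]
    by_cases hem : e m = 0
    · simp [hem, Polynomial.eval_monomial]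
    · simp [hem]
  -- the evaluated polynomial vanishes
  have hq0 : ∃ κ, κ ≠ i ∧ κ ≠ j ∧ pc k m t κ ≠ 0 :=
    ⟨l, F5.il.symm, F5.jl.symm, by simp [pc, F5.kl.symm, F5.lm]⟩
  apply nonvanish hBC hred hΔ hq0
  have hth : ∀ u, coeff u (th i j (pc k m t) Δ) ≠ 0 →
      u = Finsupp.single i (N - p k) + Finsupp.single j (N - q k) := by
    intro u hu
    obtain ⟨e, he, h2, h3⟩ := exists_of_coeff_th F5.ij hu
    have hem : e m = 0 := h3 m F5.im.symm F5.jm.symm (by simp [pc, F5.km.symm])
    obtain ⟨_, h4, h5⟩ := hexp e he hem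
    rw [h2, h4, h5]
  have hmono : th i j (pc k m t) Δ =
      monomial (Finsupp.single i (N - p k) + Finsupp.single j (N - q k))
        (coeff (Finsupp.single i (N - p k) + Finsupp.single j (N - q k))
          (th i j (pc k m t) Δ)) := by
    ext u
    rw [coeff_monomial]
    by_cases hu : Finsupp.single i (N - p k) + Finsupp.single j (N - q k) = u
    · rw [if_pos hu, hu]
    · rw [if_neg hu]
      by_contra h
      exact hu (hth u h).symm
  have heval : eval (fun _ => (1 : ℂ)) (th i j (pc k m t) Δ) = eval (pc k m t) Δ := by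
    have : (eval (fun _ : σ => (1 : ℂ))).comp (th i j (pc k m t)).toRingHom = eval (pc k m t) := by
      apply ringHom_ext
      · intro r
        simp [th]
      · intro κ
        by_cases h : κ = i ∨ κ = j
        · rcases h with h | h
          · simp [th, pc, h, F5.ik, F5.im]
          · simp [th, pc, h, F5.jk, F5.jm]
        · simp [th, h]
    exact DFunLike.congr_fun this Δ
  rw [hev, hmono, eval_monomial] at heval
  have hc : coeff (Finsupp.single i (N - p k) + Finsupp.single j (N - q k))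
          (th i j (pc k m t) Δ) = 0 := by simpa using heval
  rw [hmono, hc, map_zero]
  exact Ideal.zero_mem _

end coincidence

section main

variable {ω : σ → G} {i j : σ} {η X Y δ : G →+ ℤ} {d : ℤ} {N : ℕ} {Δ : MvPolynomial σ ℂ} {D0 : G}

/-- Sorted case. -/
lemma sorted {p q R : σ → ℕ}
    (H : ∀ k l m, Five i j k l m → DDat i j k l m N p q R Δ ∧
      (∃ f, FDat i j k l m N p q R Δ f) ∧ (∃ g, FDat j i k l m N q p R Δ g))
    {k l m : σ} (F5 : Five i j k l m) (h1 : p k < p l) (h2 : p l < p m) : False := by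
  have edge : ∀ k l m, Five i j k l m → p k < p l → q l < q k ∧ p l * q l = p k * q k := by
    intro k l m F5 h
    obtain ⟨D, ⟨f, hf⟩, _⟩ := H k l m F5
    obtain ⟨D', _, ⟨g, hg⟩⟩ := H l k m F5.swapkl
    obtain ⟨a1, a2, _⟩ := edge_ineq D hf h
    obtain ⟨b1, b2, _⟩ := edge_ineq D'.swap hg a1
    exact ⟨a1, le_antisymm a2 (by rw [mul_comm (p k), mul_comm (p l)]; exact b2)⟩
  obtain ⟨D, ⟨f, hf⟩, _⟩ := H k l m F5
  obtain ⟨a1, a2⟩ := edge k l m F5 h1
  obtain ⟨b1, b2⟩ := edge l m k F5.swapkl.swaplm h2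
  have hkm : p m * q m = p k * q k := b2.trans a2
  obtain ⟨c1, c2, c3⟩ := edge_ineq D.swaplm hf.swaplm (h1.trans h2)
  exact final D hf h1 hkm a1 b1 (c3 hkm)

/-- **The combinatorial core.** -/
theorem core (F : Frame ω i j η X Y δ d) {k l m : σ} (F5 : Five i j k l m)
    (hhom : IsWeightedHomogeneous ω Δ D0) (hred : Red i j N Δ) (hBC : BC i j N Δ) :
    ∀ e, coeff e Δ ≠ 0 → e k = 0 ∧ e l = 0 ∧ e m = 0 := by
  classical
  by_cases hΔ : Δ = 0
  · intro e he; rw [hΔ] at he; simp at he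
  -- choose the vertices
  have hvx : ∀ κ, ∃ abr : ℕ × ℕ × ℕ, κ ≠ i → κ ≠ j →
      coeff (vx i j κ abr.1 abr.2.1 abr.2.2) Δ ≠ 0 ∧ abr.1 < N ∧ abr.2.1 < N := by
    intro κ
    by_cases h : κ ≠ i ∧ κ ≠ j
    · have h5 : ∃ k' l' m', Five i j k' l' m' ∧ κ = k' := by
        rcases F5.ex κ with h' | h' | h' | h' | h'
        · exact absurd h' h.1
        · exact absurd h' h.2
        · exact ⟨k, l, m, F5, h'⟩
        · exact ⟨l, k, m, F5.swapkl, h'⟩
        · exact ⟨m, k, l, F5.swaplm.swapkl, h'⟩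
      obtain ⟨k', l', m', h6, h7⟩ := h5
      obtain ⟨a, b, r, h8⟩ := exists_vertex h6 hBC hred hΔ
      exact ⟨(a, b, r), fun _ _ => by rw [h7]; exact h8⟩
    · exact ⟨(0, 0, 0), fun h1 h2 => absurd ⟨h1, h2⟩ h⟩
  choose abr habr using hvx
  by_cases hR : ∃ κ, κ ≠ i ∧ κ ≠ j ∧ (abr κ).2.2 = 0
  · -- some vertex is a monomial in `x_i, x_j`
    obtain ⟨κ, hκi, hκj, hκ⟩ := hR
    have h0 := (habr κ hκi hκj).1
    rw [hκ] at h0
    have hηD : η D0 = 0 := by
      rw [← hhom h0, map_weight]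
      refine Finset.sum_eq_zero ?_
      intro κ' _
      by_cases h1 : κ' = i
      · rw [h1, F.eta_i, mul_zero]
      · by_cases h2 : κ' = j
        · rw [h2, F.eta_j, mul_zero]
        · have : vx i j κ (abr κ).1 (abr κ).2.1 0 κ' = 0 := by
            simp [vx, Finsupp.single_apply, Ne.symm h1, Ne.symm h2]
          rw [this]; simp
    intro e he
    have h1 : η (Finsupp.weight ω e) = 0 := by rw [hhom he, hηD]
    rw [map_weight, F5.sum, F.eta_i, F.eta_j] at h1
    have hk := F.eta_pos k F5.ik.symm F5.jk.symm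
    have hl := F.eta_pos l F5.il.symm F5.jl.symm
    have hm := F.eta_pos m F5.im.symm F5.jm.symm
    have hk0 : (0 : ℤ) ≤ e k * η (ω k) := by positivity
    have hl0 : (0 : ℤ) ≤ e l * η (ω l) := by positivity
    have hm0 : (0 : ℤ) ≤ e m * η (ω m) := by positivity
    have hk1 : (e k : ℤ) * η (ω k) = 0 := by linarith
    have hl1 : (e l : ℤ) * η (ω l) = 0 := by linarith
    have hm1 : (e m : ℤ) * η (ω m) = 0 := by linarith
    refine ⟨?_, ?_, ?_⟩
    · exact_mod_cast (mul_eq_zero.mp hk1).resolve_right hk.ne'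
    · exact_mod_cast (mul_eq_zero.mp hl1).resolve_right hl.ne'
    · exact_mod_cast (mul_eq_zero.mp hm1).resolve_right hm.ne'
  · push Not at hR
    exfalso
    set a : σ → ℕ := fun κ => (abr κ).1 with ha
    set b : σ → ℕ := fun κ => (abr κ).2.1 with hb
    set R : σ → ℕ := fun κ => (abr κ).2.2 with hRdef
    have V : Verts i j N Δ a b R :=
      ⟨fun κ h1 h2 => (habr κ h1 h2).1, fun κ h1 h2 => (habr κ h1 h2).2.1,
        fun κ h1 h2 => (habr κ h1 h2).2.2,
        fun κ h1 h2 => Nat.one_le_iff_ne_zero.mpr (hR κ h1 h2)⟩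
    have H : ∀ k l m, Five i j k l m →
        DDat i j k l m N (fun κ => N - a κ) (fun κ => N - b κ) R Δ ∧
        (∃ f, FDat i j k l m N (fun κ => N - a κ) (fun κ => N - b κ) R Δ f) ∧
        (∃ g, FDat j i k l m N (fun κ => N - b κ) (fun κ => N - a κ) R Δ g) := by
      intro k l m F5
      exact ⟨mkDDat F hhom V F5, mkFDat F hhom V hBC F5,
        mkFDat F.swap hhom V.swap hBC.swap F5.swap⟩
    -- distinctness
    have hdist : ∀ k l m, Five i j k l m → N - a k ≠ N - a l := by
      intro k l m F5 heq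
      obtain ⟨D, _, ⟨g, hg⟩⟩ := H k l m F5
      obtain ⟨D', _, ⟨g', hg'⟩⟩ := H l k m F5.swapkl
      have hqq : ¬ (N - b k < N - b l) := by
        intro h
        have := (edge_ineq D.swap hg h).1
        omega
      have hqq' : ¬ (N - b l < N - b k) := by
        intro h
        have := (edge_ineq D'.swap hg' h).1
        omega
      have hq : N - b k = N - b l := by omega
      -- the exponents `R` agree
      have hak := V.a_lt k F5.ik.symm F5.jk.symm
      have hal := V.a_lt l F5.il.symm F5.jl.symm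
      have hbk := V.b_lt k F5.ik.symm F5.jk.symm
      have hbl := V.b_lt l F5.il.symm F5.jl.symm
      have hRR : R k = R l := by
        have h1 := hhom (V.ne k F5.ik.symm F5.jk.symm)
        have h2 := hhom (V.ne l F5.il.symm F5.jl.symm)
        have h3 : δ (Finsupp.weight ω (vx i j k (a k) (b k) (R k))) =
            δ (Finsupp.weight ω (vx i j l (a l) (b l) (R l))) := by rw [h1, h2]
        rw [map_weight, map_weight, vx_sum F5 (by tauto), vx_sum F5 (by tauto)] at h3
        simp only [F.delta] at h3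
        omega
      exact no_coincidence D hBC hred heq hq hRR
    have hkl := hdist k l m F5
    have hkm := hdist k m l F5.swaplm
    have hlm := hdist l m k F5.swapkl.swaplm
    rcases lt_or_gt_of_ne hkl with h1 | h1 <;> rcases lt_or_gt_of_ne hkm with h2 | h2 <;>
      rcases lt_or_gt_of_ne hlm with h3 | h3
    · exact sorted H F5 h1 h3
    · exact sorted H F5.swaplm h2 h3
    · omega
    · exact sorted H F5.swaplm.swapkl h2 h1
    · exact sorted H F5.swapkl h1 h2
    · omega
    · exact sorted H F5.swapkl.swaplm h3 h2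
    · exact sorted H F5.swaplm.swapkl.swaplm h3 h1

end main

end Pool.Agent.Lib.MP_745d3a_ag
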