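import Pool.Agent.Lib.MP_745d3a_ag.CaseTwoMain

/-!
Edges of the convex hull of the weights, homogeneous bases, and the main theorem.
-/

open MvPolynomial

set_option linter.unusedSectionVars false
set_option linter.unusedSimpArgs false

namespace Pool.Agent.Lib.MP_745d3a_ag

section angle

/-- Transitivity of the angular order on a half plane. -/
lemma angle_trans {xa ya xb yb xc yc : ℤ} (ha : 0 < xa ∨ (xa = 0 ∧ 0 < ya))
    (hb : 0 < xb ∨ (xb = 0 ∧ 0 < yb)) (hc : 0 < xc ∨ (xc = 0 ∧ 0 < yc))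
    (hab : 0 ≤ xa * yb - ya * xb) (hbc : 0 ≤ xb * yc - yb * xc) : 0 ≤ xa * yc - ya * xc := by
  have hxa : 0 ≤ xa := by rcases ha with h | h <;> omega
  have hxc : 0 ≤ xc := by rcases hc with h | h <;> omega
  rcases hb with h | ⟨h, hy⟩
  · have h1 : (xa * yc - ya * xc) * xb = (xb * yc - yb * xc) * xa + (xa * yb - ya * xb) * xc := by
      ring
    have h2 : 0 ≤ (xa * yc - ya * xc) * xb := by
      rw [h1]
      exact add_nonneg (mul_nonneg hbc hxa) (mul_nonneg hab hxc)
    exact nonneg_of_mul_nonneg_left h2 h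
  · rw [h] at hbc
    have h1 : yb * xc ≤ 0 := by linarith
    have h2 : xc = 0 := by
      rcases hxc.lt_or_eq with h3 | h3
      · have := mul_pos hy h3
        linarith
      · exact h3.symm
    have h3 : 0 < yc := by rcases hc with h4 | h4 <;> omega
    rw [h2, mul_zero, sub_zero]
    exact mul_nonneg hxa h3.le

lemma exists_min_angle {ι : Type*} (x y : ι → ℤ) (T : Finset ι) (hT : T.Nonempty)
    (hH : ∀ κ ∈ T, 0 < x κ ∨ (x κ = 0 ∧ 0 < y κ)) :
    ∃ j ∈ T, ∀ κ ∈ T, 0 ≤ x j * y κ - y j * x κ := by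
  classical
  induction hT using Finset.Nonempty.cons_induction with
  | singleton a => exact ⟨a, Finset.mem_singleton_self a, fun κ hκ => by
      rw [Finset.mem_singleton.mp hκ]; linarith [mul_comm (x a) (y a)]⟩
  | cons a s ha hs ih =>
    obtain ⟨j, hj, hj'⟩ := ih (fun κ hκ => hH κ (Finset.mem_cons_of_mem hκ))
    by_cases h : 0 ≤ x a * y j - y a * x j
    · refine ⟨a, Finset.mem_cons_self a s, ?_⟩
      intro κ hκ
      rcases Finset.mem_cons.mp hκ with h1 | h1
      · rw [h1]; linarith [mul_comm (x a) (y a)]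
      · exact angle_trans (hH a (Finset.mem_cons_self a s)) (hH j (Finset.mem_cons_of_mem hj))
          (hH κ hκ) h (hj' κ h1)
    · refine ⟨j, Finset.mem_cons_of_mem hj, ?_⟩
      intro κ hκ
      rcases Finset.mem_cons.mp hκ with h1 | h1
      · rw [h1]
        push Not at h
        linarith [mul_comm (x a) (y j), mul_comm (y a) (x j)]
      · exact hj' κ h1

/-- An edge of the convex hull of a non-collinear family. -/
lemma exists_edge {σ : Type*} [Fintype σ] [Nonempty σ] (w : σ → ℤ × ℤ)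
    (hw : ∀ a b : ℤ, (∀ i j, a * ((w i).1 - (w j).1) + b * ((w i).2 - (w j).2) = 0) →
      a = 0 ∧ b = 0) :
    ∃ i j, w i ≠ w j ∧
      (∀ κ, 0 ≤ ((w j).1 - (w i).1) * ((w κ).2 - (w i).2) -
        ((w j).2 - (w i).2) * ((w κ).1 - (w i).1)) ∧
      ∃ κ, ((w j).1 - (w i).1) * ((w κ).2 - (w i).2) -
        ((w j).2 - (w i).2) * ((w κ).1 - (w i).1) ≠ 0 := by
  classical
  obtain ⟨i, _, hi⟩ := Finset.exists_min_image (Finset.univ : Finset σ)
    (fun κ => toLex (w κ)) Finset.univ_nonempty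
  have hi' : ∀ κ, (w i).1 < (w κ).1 ∨ ((w i).1 = (w κ).1 ∧ (w i).2 ≤ (w κ).2) := by
    intro κ
    have := hi κ (Finset.mem_univ κ)
    rwa [Prod.Lex.toLex_le_toLex] at this
  set T : Finset σ := Finset.univ.filter (fun κ => w κ ≠ w i) with hT
  have hTne : T.Nonempty := by
    rw [Finset.nonempty_iff_ne_empty]
    intro h
    have hall : ∀ κ, w κ = w i := by
      intro κ
      by_contra hne
      have : κ ∈ T := by rw [hT, Finset.mem_filter]; exact ⟨Finset.mem_univ κ, hne⟩
      rw [h] at this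
      simp at this
    have := (hw 1 0 (fun i' j' => by rw [hall i', hall j']; ring)).1
    exact one_ne_zero this
  obtain ⟨j, hj, hmin⟩ := exists_min_angle (fun κ => (w κ).1 - (w i).1)
    (fun κ => (w κ).2 - (w i).2) T hTne (by
      intro κ hκ
      rw [hT, Finset.mem_filter] at hκ
      rcases hi' κ with h | ⟨h1, h2⟩
      · left; linarith
      · right
        refine ⟨by linarith, ?_⟩
        rcases h2.lt_or_eq with h3 | h3
        · linarith
        · exact absurd (Prod.ext h1.symm h3.symm) hκ.2)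
  rw [hT, Finset.mem_filter] at hj
  refine ⟨i, j, hj.2.symm, ?_, ?_⟩
  · intro κ
    by_cases hκ : w κ = w i
    · rw [hκ]; simp
    · exact hmin κ (by rw [hT, Finset.mem_filter]; exact ⟨Finset.mem_univ κ, hκ⟩)
  · by_contra hcon
    push Not at hcon
    obtain ⟨h1, h2⟩ := hw (-((w j).2 - (w i).2)) ((w j).1 - (w i).1) (by
      intro a b
      have ha := hcon a
      have hb := hcon b
      linarith)
    apply hj.2
    ext <;> omega

end angle

section

variable {σ K M G : Type*} [DecidableEq σ] [Fintype σ] [Field K] [AddCommGroup M]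
  [Module (MvPolynomial σ K) M]
  [AddCommGroup G] [DecidableEq G] {ω : σ → G} {𝓜 : G → AddSubgroup M}
  [DirectSum.Decomposition 𝓜] [SetLike.GradedSMul (weightedHomogeneousSubmodule K ω) 𝓜]
  {η δ : G →+ ℤ}

include 𝓜 in
/-- **Three weights on a supporting hyperplane.** -/
theorem free_of_three [Module.IsReflexive (MvPolynomial σ K) M]
    [Module.Finite (MvPolynomial σ K) M] (hη : ∀ κ, 0 ≤ η (ω κ))
    (hδ : ∀ κ, δ (ω κ) = 1)
    (hfree : PuncturedFree (K := K) (σ := σ) M)
    (hrank : Module.finrank (MvPolynomial σ K) M = 2)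
    {u v w z : σ} (huv : u ≠ v) (huw : u ≠ w) (hvw : v ≠ w)
    (hu : η (ω u) = 0) (hv : η (ω v) = 0) (hw : η (ω w) = 0) (hz : η (ω z) ≠ 0) :
    Module.Free (MvPolynomial σ K) M := by
  classical
  obtain ⟨g1, g2, m1, hm1, m2, hm2, hind, _⟩ := exists_HB (𝓜 := 𝓜) hη hfree hrank hu
    (vp K u) (X_notMem_vp u)
  have hm10 : m1 ≠ 0 := by
    intro h
    have := (hind 1 0 (by rw [h]; simp)).1
    exact one_ne_zero this
  obtain ⟨g0, s, hs, hs0, hmin1, hmin2⟩ := exists_min' (K := K) (𝓜 := 𝓜) hη hδ ⟨g1, m1, hm1, hm10⟩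
  by_cases hdep : ∀ g, ∀ m ∈ 𝓜 g, η g = η g0 →
      ∃ c c' : MvPolynomial σ K, c ≠ 0 ∧ c • m = c' • s
  · exact case_one hη hδ hfree hrank hs hs0 hmin1 hmin2 hdep huv huw hvw hu hv hw
  · push Not at hdep
    obtain ⟨g, n, hn, hg, hdep⟩ := hdep
    refine case_two hη hδ hfree hrank hs hs0 hmin1 hn hg ?_ huv hu hv hz
    intro a b hab
    have hb : b = 0 := by
      by_contra hb
      exact hdep b (-a) hb (by rw [neg_smul, eq_neg_iff_add_eq_zero, add_comm]; exact hab)
    rw [hb, zero_smul, add_zero] at hab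
    exact ⟨(torsionfree_of_reflexive _ _ hab).resolve_right hs0, hb⟩

/-- A free graded module of rank two has a homogeneous basis. -/
theorem exists_hom_basis [Module.Finite (MvPolynomial σ K) M] (hδ : ∀ κ, δ (ω κ) = 1)
    (hfree : Module.Free (MvPolynomial σ K) M)
    (hrank : Module.finrank (MvPolynomial σ K) M = 2) :
    ∃ (b : Module.Basis (Fin 2) (MvPolynomial σ K) M) (d : Fin 2 → G), ∀ k, b k ∈ 𝓜 (d k) := by
  classical
  let b : Module.Basis (Fin 2) (MvPolynomial σ K) M := Module.finBasisOfFinrankEq _ _ hrank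
  have hprime : (RingHom.ker (constantCoeff : MvPolynomial σ K →+* K)).IsPrime :=
    RingHom.ker_isPrime _
  have H0 : LB (RingHom.ker (constantCoeff : MvPolynomial σ K →+* K)) (b 0) (b 1) := by
    refine ⟨?_, ?_⟩
    · intro c1 c2 h
      have h2 := Fintype.linearIndependent_iff.mp b.linearIndependent ![c1, c2]
        (by rw [Fin.sum_univ_two]; simpa using h)
      exact ⟨by simpa using h2 0, by simpa using h2 1⟩
    · intro m
      refine ⟨1, b.repr m 0, b.repr m 1, ?_, ?_⟩
      · rw [RingHom.mem_ker, map_one]; exact one_ne_zero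
      · have := b.sum_repr m
        rw [Fin.sum_univ_two] at this
        rw [one_smul, this]
  obtain ⟨g1, g2, n1, hn1, n2, hn2, H⟩ := H0.homogeneous 𝓜
  have hspan2 : ∀ x : M, x ∈ Submodule.span (MvPolynomial σ K) ({n1, n2} : Set M) := by
    intro x
    refine hom_induction 𝓜 (P := fun x => x ∈ Submodule.span (MvPolynomial σ K)
      ({n1, n2} : Set M)) (Submodule.zero_mem _) ?_ (fun m n hm hn => Submodule.add_mem _ hm hn) x
    intro g x hxg
    obtain ⟨D, a, c, hD, hab⟩ := H.span x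
    rw [RingHom.mem_ker, constantCoeff_eq] at hD
    have h1 := congrArg (comp 𝓜 g) hab
    rw [comp_smul ω 𝓜 hxg, comp_add, comp_smul ω 𝓜 hn1, comp_smul ω 𝓜 hn2, sub_self] at h1
    have h2 : weightedHomogeneousComponent ω 0 D = C (coeff 0 D) := by
      ext ε
      rw [coeff_weightedHomogeneousComponent, coeff_C]
      by_cases hε : ε = 0
      · subst hε
        rw [map_zero, if_pos rfl, if_pos rfl]
      · rw [if_neg (Ne.symm hε), if_neg]
        intro h
        apply hε
        have h3 := delta_weight hδ ε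
        rw [h, map_zero] at h3
        have h4 : (ε.sum fun _ n => n) = 0 := by exact_mod_cast h3.symm
        rw [Finsupp.sum_fintype _ _ (by intro κ; rfl)] at h4
        ext κ
        exact Finset.sum_eq_zero_iff.mp h4 κ (Finset.mem_univ κ)
    rw [h2] at h1
    rw [Submodule.mem_span_pair]
    refine ⟨C (coeff 0 D)⁻¹ * weightedHomogeneousComponent ω (g - g1) a,
      C (coeff 0 D)⁻¹ * weightedHomogeneousComponent ω (g - g2) c, ?_⟩
    rw [mul_smul, mul_smul, ← smul_add, ← h1, ← mul_smul, ← C_mul, inv_mul_cancel₀ hD, C_1,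
      one_smul]
  have hli : LinearIndependent (MvPolynomial σ K) ![n1, n2] := by
    rw [LinearIndependent.pair_iff]
    exact H.ind
  have hsp : ⊤ ≤ Submodule.span (MvPolynomial σ K) (Set.range ![n1, n2]) := by
    intro m _
    rw [Matrix.range_cons, Matrix.range_cons, Matrix.range_empty, Set.union_empty,
      ← Set.insert_eq]
    exact hspan2 m
  refine ⟨Module.Basis.mk hli hsp, ![g1, g2], ?_⟩
  intro k
  rw [Module.Basis.mk_apply]
  fin_cases k
  · exact hn1
  · exact hn2

end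

/-- Five indices completing two given ones. -/
lemma exists_five {i j : Fin 5} (hij : i ≠ j) : ∃ k l m, Five i j k l m := by
  have hcard : (Finset.univ \ {i, j} : Finset (Fin 5)).card = 3 := by
    rw [Finset.card_sdiff_of_subset (Finset.subset_univ _), Finset.card_pair hij]; rfl
  obtain ⟨k, l, m, hkl, hkm, hlm, h⟩ := Finset.card_eq_three.mp hcard
  have hmem : ∀ κ, κ ∈ ({k, l, m} : Finset (Fin 5)) ↔ κ ≠ i ∧ κ ≠ j := by
    intro κ
    rw [← h]
    simp
  have hk := (hmem k).mp (by simp)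
  have hl := (hmem l).mp (by simp)
  have hm := (hmem m).mp (by simp)
  refine ⟨k, l, m, hij, hk.1.symm, hl.1.symm, hm.1.symm, hk.2.symm, hl.2.symm, hm.2.symm,
    hkl, hkm, hlm, ?_⟩
  intro κ
  by_cases h1 : κ = i
  · exact Or.inl h1
  · by_cases h2 : κ = j
    · exact Or.inr (Or.inl h2)
    · have := (hmem κ).mpr ⟨h1, h2⟩
      simp at this
      tauto

/-- **Main theorem**, in terms of freeness. -/
theorem main_free (w : Fin 5 → ℤ × ℤ)
    (hw : ∀ a b : ℤ, (∀ i j, a * ((w i).1 - (w j).1) + b * ((w i).2 - (w j).2) = 0) →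
      a = 0 ∧ b = 0)
    {M : Type*} [AddCommGroup M] [Module (MvPolynomial (Fin 5) ℂ) M]
    [Module.Finite (MvPolynomial (Fin 5) ℂ) M] [Module.IsReflexive (MvPolynomial (Fin 5) ℂ) M]
    (hrank : Module.finrank (MvPolynomial (Fin 5) ℂ) M = 2)
    (hfree : PuncturedFree (K := ℂ) (σ := Fin 5) M)
    (𝓜 : ℤ × ℤ × ℤ → AddSubgroup M) [DirectSum.Decomposition 𝓜]
    [SetLike.GradedSMul (weightedHomogeneousSubmodule ℂ (fun i => ((1 : ℤ), w i))) 𝓜] :
    Module.Free (MvPolynomial (Fin 5) ℂ) M := by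
  classical
  obtain ⟨i, j, hij, hpos, z, hz⟩ := exists_edge w hw
  set ω : Fin 5 → ℤ × ℤ × ℤ := fun i => ((1 : ℤ), w i) with hω
  let η : ℤ × ℤ × ℤ →+ ℤ := AddMonoidHom.mk' (fun v =>
    ((w j).1 - (w i).1) * (v.2.2 - v.1 * (w i).2) -
      ((w j).2 - (w i).2) * (v.2.1 - v.1 * (w i).1)) (by
        intro a b
        simp only [Prod.fst_add, Prod.snd_add]
        ring)
  let δ : ℤ × ℤ × ℤ →+ ℤ := AddMonoidHom.fst ℤ (ℤ × ℤ)
  have hηω : ∀ κ, η (ω κ) = ((w j).1 - (w i).1) * ((w κ).2 - (w i).2) -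
        ((w j).2 - (w i).2) * ((w κ).1 - (w i).1) := by
    intro κ
    show ((w j).1 - (w i).1) * ((w κ).2 - 1 * (w i).2) -
      ((w j).2 - (w i).2) * ((w κ).1 - 1 * (w i).1) = _
    ring
  have hη : ∀ κ, 0 ≤ η (ω κ) := fun κ => by rw [hηω]; exact hpos κ
  have hδ : ∀ κ, δ (ω κ) = 1 := fun κ => rfl
  have hηi : η (ω i) = 0 := by rw [hηω]; ring
  have hηj : η (ω j) = 0 := by rw [hηω]; ring
  have hηz : η (ω z) ≠ 0 := by rw [hηω]; exact hz
  have hne : i ≠ j := fun h => hij (by rw [h])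
  by_cases h3 : ∃ κ, κ ≠ i ∧ κ ≠ j ∧ η (ω κ) = 0
  · obtain ⟨κ, h1, h2, h3⟩ := h3
    exact free_of_three (ω := ω) (𝓜 := 𝓜) (η := η) (δ := δ) hη hδ hfree hrank hne h1.symm h2.symm
      hηi hηj h3 hηz
  · push Not at h3
    obtain ⟨k, l, m, F5⟩ := exists_five hne
    by_cases h1 : (w i).1 = (w j).1
    · -- use the second coordinate
      have h2 : (w j).2 - (w i).2 ≠ 0 := by
        intro h
        apply hij
        ext
        · exact h1
        · omega
      let ξ : ℤ × ℤ × ℤ →+ ℤ := AddMonoidHom.mk' (fun v => v.1 * (w j).2 - v.2.2) (by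
        intro a b; simp only [Prod.fst_add, Prod.snd_add]; ring)
      let υ : ℤ × ℤ × ℤ →+ ℤ := AddMonoidHom.mk' (fun v => v.2.2 - v.1 * (w i).2) (by
        intro a b; simp only [Prod.fst_add, Prod.snd_add]; ring)
      have F : Frame ω i j η ξ υ δ ((w j).2 - (w i).2) := by
        refine ⟨hηi, hηj, fun κ h5 h6 => lt_of_le_of_ne (hη κ) (Ne.symm (h3 κ h5 h6)), h2,
          ?_, ?_, ?_, ?_, hδ⟩
        · show 1 * (w j).2 - (w i).2 = _; ring
        · show 1 * (w j).2 - (w j).2 = _; ring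
        · show (w i).2 - 1 * (w i).2 = _; ring
        · show (w j).2 - 1 * (w i).2 = _; ring
      exact free_of_frame (𝓜 := 𝓜) F F5 hfree hrank
    · have h2 : (w j).1 - (w i).1 ≠ 0 := by
        intro h
        apply h1
        omega
      let ξ : ℤ × ℤ × ℤ →+ ℤ := AddMonoidHom.mk' (fun v => v.1 * (w j).1 - v.2.1) (by
        intro a b; simp only [Prod.fst_add, Prod.snd_add]; ring)
      let υ : ℤ × ℤ × ℤ →+ ℤ := AddMonoidHom.mk' (fun v => v.2.1 - v.1 * (w i).1) (by
        intro a b; simp only [Prod.fst_add, Prod.snd_add]; ring)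
      have F : Frame ω i j η ξ υ δ ((w j).1 - (w i).1) := by
        refine ⟨hηi, hηj, fun κ h5 h6 => lt_of_le_of_ne (hη κ) (Ne.symm (h3 κ h5 h6)), h2,
          ?_, ?_, ?_, ?_, hδ⟩
        · show 1 * (w j).1 - (w i).1 = _; ring
        · show 1 * (w j).1 - (w j).1 = _; ring
        · show (w i).1 - 1 * (w i).1 = _; ring
        · show (w j).1 - 1 * (w i).1 = _; ring
      exact free_of_frame (𝓜 := 𝓜) F F5 hfree hrank

end Pool.Agent.Lib.MP_745d3a_ag
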