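import Mathlib

/-!
Graded modules over a polynomial ring with a weight grading by an abelian group.
-/

open MvPolynomial

set_option linter.unusedSectionVars false
set_option linter.unusedSimpArgs false

namespace Pool.Agent.Lib.MP_745d3a_ag

variable {σ K G M : Type*} [Field K] [AddCommGroup G] [DecidableEq G] [AddCommGroup M]
  [Module (MvPolynomial σ K) M]

section comp

variable (𝓜 : G → AddSubgroup M) [DirectSum.Decomposition 𝓜]

/-- The homogeneous component of degree `h`. -/
def comp (h : G) (m : M) : M := (DirectSum.decompose 𝓜 m h : M)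

lemma comp_mem (h : G) (m : M) : comp 𝓜 h m ∈ 𝓜 h := SetLike.coe_mem _

lemma comp_same {g : G} {m : M} (hm : m ∈ 𝓜 g) : comp 𝓜 g m = m :=
  DirectSum.decompose_of_mem_same 𝓜 hm

lemma comp_ne {g h : G} {m : M} (hm : m ∈ 𝓜 g) (hne : g ≠ h) : comp 𝓜 h m = 0 :=
  DirectSum.decompose_of_mem_ne 𝓜 hm hne

lemma comp_zero (h : G) : comp 𝓜 h (0 : M) = 0 := by simp [comp]

lemma comp_add (h : G) (m n : M) : comp 𝓜 h (m + n) = comp 𝓜 h m + comp 𝓜 h n := by
  simp [comp]

lemma comp_sub (h : G) (m n : M) : comp 𝓜 h (m - n) = comp 𝓜 h m - comp 𝓜 h n := by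
  simp [comp]

lemma eq_sum_comp (m : M) : ∃ s : Finset G, m = ∑ g ∈ s, comp 𝓜 g m ∧
    ∀ g, g ∉ s → comp 𝓜 g m = 0 := by
  classical
  refine ⟨(DirectSum.decompose 𝓜 m).support, (DirectSum.sum_support_decompose 𝓜 m).symm, ?_⟩
  intro g hg
  rw [DFinsupp.notMem_support_iff] at hg
  simp [comp, hg]

/-- Induction on homogeneous elements. -/
lemma hom_induction {P : M → Prop} (h0 : P 0) (hh : ∀ g, ∀ m ∈ 𝓜 g, P m)
    (hadd : ∀ m n, P m → P n → P (m + n)) (m : M) : P m := by
  induction m using DirectSum.Decomposition.inductionOn 𝓜 with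
  | zero => exact h0
  | homogeneous m => exact hh _ _ m.2
  | add m n hm hn => exact hadd m n hm hn

lemma mem_of_comp_eq_zero {h : G} {m : M} (H : ∀ g, g ≠ h → comp 𝓜 g m = 0) : m ∈ 𝓜 h := by
  classical
  obtain ⟨s, hs, hs'⟩ := eq_sum_comp 𝓜 m
  have : m = comp 𝓜 h m := by
    conv_lhs => rw [hs]
    by_cases hh : h ∈ s
    · exact Finset.sum_eq_single_of_mem h hh (fun g _ hne => H g hne)
    · rw [hs' h hh]
      exact Finset.sum_eq_zero (fun g hg => H g (fun h' => hh (h' ▸ hg)))
  rw [this]
  exact comp_mem 𝓜 h m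

end comp

section smul

variable (ω : σ → G) (𝓜 : G → AddSubgroup M) [DirectSum.Decomposition 𝓜]
  [SetLike.GradedSMul (weightedHomogeneousSubmodule K ω) 𝓜]

omit [DecidableEq G] [DirectSum.Decomposition 𝓜] in
lemma smul_mem' {a : MvPolynomial σ K} {d g : G} {m : M} (ha : IsWeightedHomogeneous ω a d)
    (hm : m ∈ 𝓜 g) : a • m ∈ 𝓜 (d + g) :=
  SetLike.GradedSMul.smul_mem (A := weightedHomogeneousSubmodule K ω)
    ((mem_weightedHomogeneousSubmodule K ω d a).mpr ha) hm

/-- Components of a multiple of a homogeneous element. -/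
lemma comp_smul {g : G} {m : M} (hm : m ∈ 𝓜 g) (a : MvPolynomial σ K) (h : G) :
    comp 𝓜 h (a • m) = weightedHomogeneousComponent ω (h - g) a • m := by
  classical
  induction a using MvPolynomial.induction_on' with
  | monomial e c =>
    have h1 : IsWeightedHomogeneous ω (monomial e c) (Finsupp.weight ω e) :=
      isWeightedHomogeneous_monomial ω e c rfl
    have h2 := smul_mem' ω 𝓜 h1 hm
    by_cases hh : Finsupp.weight ω e = h - g
    · rw [weightedHomogeneousComponent_of_mem (m := h - g) (n := h - g)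
        (by rw [← hh]; exact (mem_weightedHomogeneousSubmodule K ω _ _).mpr h1), if_pos rfl]
      have h3 : Finsupp.weight ω e + g = h := by rw [hh]; abel
      rw [h3] at h2
      exact comp_same 𝓜 h2
    · have h3 : weightedHomogeneousComponent ω (h - g) (monomial e c) = 0 := by
        ext u
        rw [coeff_weightedHomogeneousComponent, coeff_monomial, coeff_zero]
        by_cases hu : e = u
        · rw [if_pos hu, ← hu, if_neg hh]
        · rw [if_neg hu, ite_self]
      rw [h3, zero_smul]
      refine comp_ne 𝓜 h2 ?_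
      intro h4
      apply hh
      rw [← h4]; abel
  | add a b ha hb => rw [add_smul, comp_add, ha, hb, map_add, add_smul]

/-- Components of a homogeneous multiple. -/
lemma comp_smul_hom {a : MvPolynomial σ K} {d : G} (ha : IsWeightedHomogeneous ω a d) (m : M)
    (h : G) : comp 𝓜 h (a • m) = a • comp 𝓜 (h - d) m := by
  refine hom_induction 𝓜 (P := fun m => comp 𝓜 h (a • m) = a • comp 𝓜 (h - d) m) ?_ ?_ ?_ m
  · rw [smul_zero, comp_zero, comp_zero, smul_zero]
  · intro g m hm
    have h1 := smul_mem' ω 𝓜 ha hm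
    by_cases hg : g = h - d
    · rw [hg] at h1 hm
      have h2 : d + (h - d) = h := by abel
      rw [h2] at h1
      rw [comp_same 𝓜 h1, comp_same 𝓜 hm]
    · rw [comp_ne 𝓜 hm hg, smul_zero]
      refine comp_ne 𝓜 h1 ?_
      intro h2
      apply hg
      rw [← h2]; abel
  · intro m n hm hn
    rw [smul_add, comp_add, hm, hn, comp_add, smul_add]

variable (htf : ∀ (a : MvPolynomial σ K) (m : M), a • m = 0 → a = 0 ∨ m = 0)

include htf

lemma mem_of_smul_mem {a : MvPolynomial σ K} {d : G} (ha : IsWeightedHomogeneous ω a d)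
    (ha0 : a ≠ 0) {m : M} {h : G} (hm : a • m ∈ 𝓜 h) : m ∈ 𝓜 (h - d) := by
  have h1 : a • (m - comp 𝓜 (h - d) m) = 0 := by
    rw [smul_sub, ← comp_smul_hom ω 𝓜 ha, comp_same 𝓜 hm, sub_self]
  have h2 := (htf _ _ h1).resolve_left ha0
  rw [sub_eq_zero.mp h2]
  exact comp_mem 𝓜 _ _

lemma hom_of_smul_mem {a : MvPolynomial σ K} {g h : G} {m : M} (hm : m ∈ 𝓜 g) (hm0 : m ≠ 0)
    (ham : a • m ∈ 𝓜 h) : IsWeightedHomogeneous ω a (h - g) := by
  have h1 : (a - weightedHomogeneousComponent ω (h - g) a) • m = 0 := by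
    rw [sub_smul, ← comp_smul ω 𝓜 hm, comp_same 𝓜 ham, sub_self]
  have h2 := (htf _ _ h1).resolve_right hm0
  rw [sub_eq_zero.mp h2]
  exact weightedHomogeneousComponent_isWeightedHomogeneous _ _

omit htf in
/-- Coefficients of a homogeneous combination of two independent homogeneous elements. -/
lemma hom_of_pair {a b : MvPolynomial σ K} {g1 g2 h : G} {m1 m2 : M} (h1 : m1 ∈ 𝓜 g1)
    (h2 : m2 ∈ 𝓜 g2)
    (hind : ∀ a b : MvPolynomial σ K, a • m1 + b • m2 = 0 → a = 0 ∧ b = 0)
    (h3 : a • m1 + b • m2 ∈ 𝓜 h) :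
    IsWeightedHomogeneous ω a (h - g1) ∧ IsWeightedHomogeneous ω b (h - g2) := by
  have h4 : (a - weightedHomogeneousComponent ω (h - g1) a) • m1 +
      (b - weightedHomogeneousComponent ω (h - g2) b) • m2 = 0 := by
    have h5 := comp_same 𝓜 h3
    rw [comp_add, comp_smul ω 𝓜 h1, comp_smul ω 𝓜 h2] at h5
    rw [sub_smul, sub_smul]
    have : a • m1 - weightedHomogeneousComponent ω (h - g1) a • m1 +
        (b • m2 - weightedHomogeneousComponent ω (h - g2) b • m2) =
        (a • m1 + b • m2) - (weightedHomogeneousComponent ω (h - g1) a • m1 +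
          weightedHomogeneousComponent ω (h - g2) b • m2) := by abel
    rw [this, h5, sub_self]
  obtain ⟨h5, h6⟩ := hind _ _ h4
  rw [sub_eq_zero.mp h5, sub_eq_zero.mp h6]
  exact ⟨weightedHomogeneousComponent_isWeightedHomogeneous _ _,
    weightedHomogeneousComponent_isWeightedHomogeneous _ _⟩

omit htf in
/-- Degrees of homogeneous elements of a finite module are bounded below with respect to a
functional that is nonnegative on the weights of the variables. -/
lemma bounded_below [Fintype σ] [Module.Finite (MvPolynomial σ K) M] (φ : G →+ ℤ)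
    (hφ : ∀ κ, 0 ≤ φ (ω κ)) :
    ∃ B : ℤ, ∀ g, ∀ m ∈ 𝓜 g, m ≠ 0 → B ≤ φ g := by
  classical
  obtain ⟨s, hs⟩ := (Module.Finite.fg_top : (⊤ : Submodule (MvPolynomial σ K) M).FG)
  choose T hT1 hT2 using eq_sum_comp 𝓜 (M := M)
  obtain ⟨B, hB⟩ : ∃ B : ℤ, ∀ g ∈ s.biUnion T, B ≤ φ g := by
    obtain ⟨B', hB'⟩ := Finset.exists_le ((s.biUnion T).image (fun g => -φ g))
    refine ⟨-B', fun g hg => ?_⟩
    have := hB' (-φ g) (Finset.mem_image.mpr ⟨g, hg, rfl⟩)
    linarith
  have key : ∀ m : M, ∀ h, comp 𝓜 h m ≠ 0 → B ≤ φ h := by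
    intro m
    have hm : m ∈ Submodule.span (MvPolynomial σ K) (s : Set M) := by rw [hs]; trivial
    induction hm using Submodule.span_induction with
    | mem x hx =>
      intro h hh
      apply hB
      rw [Finset.mem_biUnion]
      refine ⟨x, hx, ?_⟩
      by_contra h1
      exact hh (hT2 x h h1)
    | zero => intro h hh; exact absurd (comp_zero 𝓜 h) hh
    | add x y _ _ hx hy =>
      intro h hh
      rw [comp_add] at hh
      by_cases h1 : comp 𝓜 h x = 0
      · rw [h1, zero_add] at hh
        exact hy h hh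
      · exact hx h h1
    | smul a x _ hx =>
      intro h hh
      have h1 : comp 𝓜 h (a • x) = ∑ g ∈ T x,
          weightedHomogeneousComponent ω (h - g) a • comp 𝓜 g x := by
        have h2 : a • x = ∑ g ∈ T x, a • comp 𝓜 g x := by
          conv_lhs => rw [hT1 x, Finset.smul_sum]
        have h3 : ∀ u : Finset G, comp 𝓜 h (∑ g ∈ u, a • comp 𝓜 g x) =
            ∑ g ∈ u, weightedHomogeneousComponent ω (h - g) a • comp 𝓜 g x := by
          intro u
          induction u using Finset.induction_on with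
          | empty => simp [comp_zero]
          | insert g u hg ih =>
            rw [Finset.sum_insert hg, Finset.sum_insert hg, comp_add, ih,
              comp_smul ω 𝓜 (comp_mem 𝓜 g x)]
        rw [h2, h3]
      rw [h1] at hh
      obtain ⟨g, _, hg⟩ := Finset.exists_ne_zero_of_sum_ne_zero hh
      have hg1 : weightedHomogeneousComponent ω (h - g) a ≠ 0 := by
        intro h0; rw [h0, zero_smul] at hg; exact hg rfl
      have hg2 : comp 𝓜 g x ≠ 0 := by
        intro h0; rw [h0, smul_zero] at hg; exact hg rfl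
      have h4 := hx g hg2
      have h5 : 0 ≤ φ (h - g) := by
        obtain ⟨e, he⟩ : ∃ e, coeff e (weightedHomogeneousComponent ω (h - g) a) ≠ 0 := by
          by_contra hcon
          push Not at hcon
          exact hg1 (by ext e; simpa using hcon e)
        have h6 := weightedHomogeneousComponent_isWeightedHomogeneous (h - g) a he
        rw [← h6, Finsupp.weight_apply, Finsupp.sum_fintype _ _ (by intro κ; simp), map_sum]
        refine Finset.sum_nonneg ?_
        intro κ _
        rw [map_nsmul, nsmul_eq_mul]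
        exact mul_nonneg (by positivity) (hφ κ)
      rw [map_sub] at h5
      linarith
  refine ⟨B, ?_⟩
  intro g m hm hm0
  apply key m g
  rw [comp_same 𝓜 hm]
  exact hm0

end smul

end Pool.Agent.Lib.MP_745d3a_ag
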