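import Pool.Agent.Lib.MP_745d3a_ag.MainTwo

/-!
The case of a supporting functional vanishing on at least three weights: preliminaries and
the case of a lowest piece of rank one.
-/

open MvPolynomial

set_option linter.unusedSectionVars false
set_option linter.unusedSimpArgs false

namespace Pool.Agent.Lib.MP_745d3a_ag

section poly

variable {σ K G : Type*} [DecidableEq σ] [Fintype σ] [Field K] [AddCommGroup G] [DecidableEq G]
  {ω : σ → G} {η δ : G →+ ℤ}

/-- Kill the variables of nonzero `η`-weight. -/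
noncomputable def lam (ω : σ → G) (η : G →+ ℤ) : MvPolynomial σ K →ₐ[K] MvPolynomial σ K :=
  aeval (fun κ => if η (ω κ) = 0 then X κ else 0)

lemma eta_weight_eq_zero_iff (hη : ∀ κ, 0 ≤ η (ω κ)) (e : σ →₀ ℕ) :
    η (Finsupp.weight ω e) = 0 ↔ ∀ κ, η (ω κ) ≠ 0 → e κ = 0 := by
  rw [map_weight]
  have h2 : ∀ κ ∈ (Finset.univ : Finset σ), 0 ≤ (e κ : ℤ) * η (ω κ) :=
    fun κ _ => mul_nonneg (by positivity) (hη κ)
  rw [Finset.sum_eq_zero_iff_of_nonneg h2]
  constructor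
  · intro h κ hκ
    have := (mul_eq_zero.mp (h κ (Finset.mem_univ κ))).resolve_right hκ
    exact_mod_cast this
  · intro h κ _
    by_cases hκ : η (ω κ) = 0
    · rw [hκ, mul_zero]
    · rw [h κ hκ]; simp

lemma lam_monomial (hη : ∀ κ, 0 ≤ η (ω κ)) (e : σ →₀ ℕ) (c : K) :
    lam ω η (monomial e c) = if η (Finsupp.weight ω e) = 0 then monomial e c else 0 := by
  rw [lam, aeval_monomial, Finsupp.prod_fintype _ _ (by intro κ; simp)]
  by_cases h : η (Finsupp.weight ω e) = 0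
  · rw [if_pos h]
    rw [eta_weight_eq_zero_iff hη] at h
    have h1 : ∀ κ : σ, (if η (ω κ) = 0 then (X κ : MvPolynomial σ K) else 0) ^ e κ = X κ ^ e κ := by
      intro κ
      by_cases hκ : η (ω κ) = 0
      · rw [if_pos hκ]
      · rw [h κ hκ, pow_zero, pow_zero]
    rw [Finset.prod_congr rfl (fun κ _ => h1 κ), monomial_eq, algebraMap_eq,
      Finsupp.prod_fintype _ _ (by intro κ; simp)]
  · rw [if_neg h]
    rw [eta_weight_eq_zero_iff hη] at h
    push Not at h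
    obtain ⟨κ, hκ, hκ'⟩ := h
    rw [Finset.prod_eq_zero (Finset.mem_univ κ) (by rw [if_neg hκ, zero_pow hκ']), mul_zero]

lemma coeff_lam (hη : ∀ κ, 0 ≤ η (ω κ)) (p : MvPolynomial σ K) (e : σ →₀ ℕ) :
    coeff e (lam ω η p) = if η (Finsupp.weight ω e) = 0 then coeff e p else 0 := by
  induction p using MvPolynomial.induction_on' with
  | monomial u c =>
    rw [lam_monomial hη, coeff_monomial]
    by_cases hu : u = e
    · subst hu
      by_cases h : η (Finsupp.weight ω u) = 0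
      · rw [if_pos h, if_pos rfl, if_pos h, coeff_monomial, if_pos rfl]
      · rw [if_neg h, if_neg h, coeff_zero]
    · rw [if_neg hu, ite_self]
      by_cases h : η (Finsupp.weight ω u) = 0
      · rw [if_pos h, coeff_monomial, if_neg hu]
      · rw [if_neg h, coeff_zero]
  | add p q hp hq =>
    rw [map_add, coeff_add, coeff_add, hp, hq]
    by_cases h : η (Finsupp.weight ω e) = 0
    · simp [h]
    · simp [h]

lemma exists_wHC_notMem (hη : ∀ κ, 0 ≤ η (ω κ)) {p : Ideal (MvPolynomial σ K)}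
    {D : MvPolynomial σ K} (hD : lam ω η D ∉ p) :
    ∃ g, η g = 0 ∧ weightedHomogeneousComponent ω g D ∉ p := by
  classical
  by_contra hcon
  push Not at hcon
  apply hD
  have h1 : lam ω η D = ∑ g ∈ (D.support.image (Finsupp.weight ω)).filter (fun g => η g = 0),
      weightedHomogeneousComponent ω g D := by
    ext e
    rw [coeff_lam hη, coeff_sum]
    simp only [coeff_weightedHomogeneousComponent]
    rw [Finset.sum_ite_eq]
    by_cases h : η (Finsupp.weight ω e) = 0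
    · rw [if_pos h]
      by_cases he : coeff e D = 0
      · rw [he, ite_self]
      · rw [if_pos]
        rw [Finset.mem_filter, Finset.mem_image]
        exact ⟨⟨e, mem_support_iff.mpr he, rfl⟩, h⟩
    · rw [if_neg h, if_neg]
      rw [Finset.mem_filter]
      tauto
  rw [h1]
  refine Ideal.sum_mem _ ?_
  intro g hg
  rw [Finset.mem_filter] at hg
  exact hcon g hg.2

lemma delta_weight (hδ : ∀ κ, δ (ω κ) = 1) (e : σ →₀ ℕ) :
    δ (Finsupp.weight ω e) = ((e.sum fun _ n => n : ℕ) : ℤ) := by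
  rw [map_weight, Finsupp.sum_fintype _ _ (by intro κ; rfl)]
  push_cast
  exact Finset.sum_congr rfl (fun κ _ => by rw [hδ, mul_one])

/-- The total degree of a homogeneous polynomial. -/
lemma totalDegree_hom (hδ : ∀ κ, δ (ω κ) = 1) {p : MvPolynomial σ K} {g : G}
    (hp : IsWeightedHomogeneous ω p g) (hp0 : p ≠ 0) : (p.totalDegree : ℤ) = δ g := by
  obtain ⟨e, he⟩ := exists_coeff_ne hp0
  have h1 : ∀ u ∈ p.support, (u.sum fun _ n => n) = (e.sum fun _ n => n) := by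
    intro u hu
    have h2 := delta_weight hδ u
    have h3 := delta_weight hδ e
    rw [hp (mem_support_iff.mp hu)] at h2
    rw [hp he] at h3
    rw [h2] at h3
    exact_mod_cast h3
  have h2 : p.totalDegree = e.sum fun _ n => n := by
    apply le_antisymm
    · exact Finset.sup_le (fun u hu => (h1 u hu).le)
    · exact le_totalDegree (mem_support_iff.mpr he)
  rw [h2, ← delta_weight hδ, hp he]

lemma isUnit_of_totalDegree {p : MvPolynomial σ K} (hp : p ≠ 0) (h : p.totalDegree = 0) :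
    IsUnit p := by
  rw [isUnit_iff_eq_C_of_isReduced]
  have h1 := totalDegree_eq_zero_iff_eq_C.mp h
  refine ⟨coeff 0 p, ?_, h1⟩
  rw [isUnit_iff_ne_zero]
  intro h2
  rw [h2, C_0] at h1
  exact hp h1

end poly

section

variable {σ K M G : Type*} [DecidableEq σ] [Fintype σ] [Field K] [AddCommGroup M]
  [Module (MvPolynomial σ K) M]
  [AddCommGroup G] [DecidableEq G] {ω : σ → G} {𝓜 : G → AddSubgroup M}
  [DirectSum.Decomposition 𝓜] [SetLike.GradedSMul (weightedHomogeneousSubmodule K ω) 𝓜]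
  {η δ : G →+ ℤ}

/-- Homogeneous local bases with denominators of `η`-degree zero. -/
lemma exists_HB [Module.Finite (MvPolynomial σ K) M] (hη : ∀ κ, 0 ≤ η (ω κ))
    (hfree : PuncturedFree (K := K) (σ := σ) M)
    (hrank : Module.finrank (MvPolynomial σ K) M = 2) {u : σ} (hu : η (ω u) = 0)
    (p : Ideal (MvPolynomial σ K)) [p.IsPrime] (hup : (X u : MvPolynomial σ K) ∉ p) :
    ∃ g1 g2 : G, ∃ m1 ∈ 𝓜 g1, ∃ m2 ∈ 𝓜 g2,
      (∀ a b : MvPolynomial σ K, a • m1 + b • m2 = 0 → a = 0 ∧ b = 0) ∧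
      ∀ g, ∀ x ∈ 𝓜 g, ∃ (d : G) (D a b : MvPolynomial σ K), D ∉ p ∧
        IsWeightedHomogeneous ω D d ∧ η d = 0 ∧ D • x = a • m1 + b • m2 := by
  have hprime : (p.comap (lam (K := K) ω η)).IsPrime := Ideal.comap_isPrime _ _
  have hu' : (X u : MvPolynomial σ K) ∉ p.comap (lam (K := K) ω η) := by
    rw [Ideal.mem_comap]
    simpa [lam, hu] using hup
  obtain ⟨n1, n2, h1⟩ := exists_LB _ (hfree (p.comap (lam (K := K) ω η)) ⟨u, hu'⟩) hrank
  obtain ⟨g1, g2, m1, hm1, m2, hm2, h2⟩ := h1.homogeneous 𝓜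
  refine ⟨g1, g2, m1, hm1, m2, hm2, h2.ind, ?_⟩
  intro g x hx
  obtain ⟨D, a, b, hD, hab⟩ := h2.span x
  rw [Ideal.mem_comap] at hD
  obtain ⟨g', hg', hD'⟩ := exists_wHC_notMem hη hD
  have h4 := congrArg (comp 𝓜 (g' + g)) hab
  rw [comp_add, comp_smul ω 𝓜 hx, comp_smul ω 𝓜 hm1, comp_smul ω 𝓜 hm2,
    show g' + g - g = g' by abel] at h4
  exact ⟨g', weightedHomogeneousComponent ω g' D, _, _, hD',
    weightedHomogeneousComponent_isWeightedHomogeneous _ _, hg', h4⟩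

/-- Existence of a minimal homogeneous element. -/
lemma exists_min' [Module.Finite (MvPolynomial σ K) M] (hη : ∀ κ, 0 ≤ η (ω κ))
    (hδ : ∀ κ, δ (ω κ) = 1) (hne : ∃ g, ∃ m ∈ 𝓜 g, m ≠ 0) :
    ∃ g0, ∃ s ∈ 𝓜 g0, s ≠ 0 ∧ (∀ g, ∀ m ∈ 𝓜 g, m ≠ 0 → η g0 ≤ η g) ∧
      (∀ g, ∀ m ∈ 𝓜 g, m ≠ 0 → η g = η g0 → δ g0 ≤ δ g) := by
  obtain ⟨B1, hB1⟩ := bounded_below (K := K) ω 𝓜 η hη
  obtain ⟨B2, hB2⟩ := bounded_below (K := K) ω 𝓜 δ (fun κ => by rw [hδ κ]; norm_num)
  obtain ⟨z, ⟨g1, hg1, m1, hm1, hm1'⟩, hz⟩ := Int.exists_least_of_bdd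
    (P := fun z => ∃ g, η g = z ∧ ∃ m ∈ 𝓜 g, m ≠ 0)
    ⟨B1, fun z ⟨g, hg, m, hm, hm0⟩ => hg ▸ hB1 g m hm hm0⟩
    (by obtain ⟨g, m, hm, hm0⟩ := hne; exact ⟨η g, g, rfl, m, hm, hm0⟩)
  obtain ⟨y, ⟨g0, hg0, hg0', s, hs, hs0⟩, hy⟩ := Int.exists_least_of_bdd
    (P := fun y => ∃ g, η g = z ∧ δ g = y ∧ ∃ m ∈ 𝓜 g, m ≠ 0)
    ⟨B2, fun y ⟨g, _, hg, m, hm, hm0⟩ => hg ▸ hB2 g m hm hm0⟩
    ⟨δ g1, g1, hg1, rfl, m1, hm1, hm1'⟩
  refine ⟨g0, s, hs, hs0, ?_, ?_⟩
  · intro g m hm hm0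
    rw [hg0]
    exact hz _ ⟨g, rfl, m, hm, hm0⟩
  · intro g m hm hm0 hg
    rw [hg0']
    exact hy _ ⟨g, hg.trans hg0, rfl, m, hm, hm0⟩

variable [Module.IsReflexive (MvPolynomial σ K) M]

/-- Homogeneous elements dependent on the minimal element `s` are multiples of `s`. -/
lemma saturated (hη : ∀ κ, 0 ≤ η (ω κ)) (hδ : ∀ κ, δ (ω κ) = 1) {g0 : G} {s : M}
    (hs : s ∈ 𝓜 g0) (hs0 : s ≠ 0) (hmin1 : ∀ g, ∀ m ∈ 𝓜 g, m ≠ 0 → η g0 ≤ η g)
    (hmin2 : ∀ g, ∀ m ∈ 𝓜 g, m ≠ 0 → η g = η g0 → δ g0 ≤ δ g)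
    {g : G} {m : M} (hm : m ∈ 𝓜 g) {c c' : MvPolynomial σ K} (hc : c ≠ 0)
    (hcm : c • m = c' • s) : ∃ a : MvPolynomial σ K, m = a • s := by
  classical
  by_cases hm0 : m = 0
  · exact ⟨0, by rw [hm0, zero_smul]⟩
  -- minimal degree of a homogeneous denominator
  have comps : ∀ (c c' : MvPolynomial σ K) (g' : G), c • m = c' • s →
      weightedHomogeneousComponent ω g' c • m =
        weightedHomogeneousComponent ω (g' + g - g0) c' • s := by
    intro c c' g' h
    have h4 := congrArg (comp 𝓜 (g' + g)) h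
    rwa [comp_smul ω 𝓜 hm, comp_smul ω 𝓜 hs, show g' + g - g = g' by abel] at h4
  have hex : ∃ n : ℕ, ∃ (c c' : MvPolynomial σ K) (g' : G), c ≠ 0 ∧
      IsWeightedHomogeneous ω c g' ∧ δ g' = n ∧ c • m = c' • s := by
    obtain ⟨e, he⟩ := exists_coeff_ne hc
    refine ⟨(e.sum fun _ n => n), _, _, Finsupp.weight ω e, ?_,
      weightedHomogeneousComponent_isWeightedHomogeneous _ _, delta_weight hδ e, comps c c' _ hcm⟩
    intro h0
    have : coeff e (weightedHomogeneousComponent ω (Finsupp.weight ω e) c) = 0 := by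
      rw [h0, coeff_zero]
    rw [coeff_weightedHomogeneousComponent, if_pos rfl] at this
    exact he this
  set n := Nat.find hex with hn
  obtain ⟨c, c', gc, hc0, hchom, hcdeg, hcm⟩ := Nat.find_spec hex
  have hrel : IsRelPrime c c' := by
    intro d hd1 hd2
    obtain ⟨c1, hc1⟩ := hd1
    obtain ⟨c1', hc1'⟩ := hd2
    have hd0 : d ≠ 0 := by
      intro h; rw [h, zero_mul] at hc1; exact hc0 hc1
    have hc10 : c1 ≠ 0 := by
      intro h; rw [h, mul_zero] at hc1; exact hc0 hc1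
    by_contra hnu
    have hd1 : d.totalDegree ≠ 0 := fun h => hnu (isUnit_of_totalDegree hd0 h)
    have h1 : c1 • m = c1' • s := by
      have h2 : d • (c1 • m - c1' • s) = 0 := by
        rw [smul_sub, smul_smul, smul_smul, ← hc1, ← hc1', hcm, sub_self]
      exact sub_eq_zero.mp ((torsionfree_of_reflexive _ _ h2).resolve_left hd0)
    obtain ⟨e, he⟩ := exists_coeff_ne hc10
    have h2 : c.totalDegree = d.totalDegree + c1.totalDegree := by
      rw [hc1, totalDegree_mul_of_isDomain hd0 hc10]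
    have h3 : (c.totalDegree : ℤ) = n := by rw [totalDegree_hom hδ hchom hc0, hcdeg]
    have h4 : (e.sum fun _ n => n) ≤ c1.totalDegree := le_totalDegree (mem_support_iff.mpr he)
    have h5 : (e.sum fun _ n => n) < n := by
      have : c.totalDegree = n := by exact_mod_cast h3
      omega
    apply Nat.find_min hex h5
    refine ⟨_, _, Finsupp.weight ω e, ?_,
      weightedHomogeneousComponent_isWeightedHomogeneous _ _, delta_weight hδ e, comps c1 c1' _ h1⟩
    intro h0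
    have : coeff e (weightedHomogeneousComponent ω (Finsupp.weight ω e) c1) = 0 := by
      rw [h0, coeff_zero]
    rw [coeff_weightedHomogeneousComponent, if_pos rfl] at this
    exact he this
  obtain ⟨m0, hm01, hm02⟩ := hartogs hc0 (fun h hh => hrel.dvd_of_dvd_mul_left hh) hcm.symm
  -- `s = c • m0`, `m = c' • m0`
  have hm0ne : m0 ≠ 0 := by
    intro h; rw [h, smul_zero] at hm01; exact hs0 hm01
  have hm0mem : m0 ∈ 𝓜 (g0 - gc) :=
    mem_of_smul_mem ω 𝓜 torsionfree_of_reflexive hchom hc0 (by rw [← hm01]; exact hs)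
  have hηc : 0 ≤ η gc := by
    obtain ⟨e, he⟩ := exists_coeff_ne hc0
    rw [← hchom he, map_weight]
    exact Finset.sum_nonneg (fun κ _ => mul_nonneg (by positivity) (hη κ))
  have h1 := hmin1 _ m0 hm0mem hm0ne
  rw [map_sub] at h1
  have h2 := hmin2 _ m0 hm0mem hm0ne (by rw [map_sub]; linarith)
  rw [map_sub, hcdeg] at h2
  have h3 : n = 0 := by
    have : (n : ℤ) ≤ 0 := by linarith
    omega
  have h4 : (c.totalDegree : ℤ) = 0 := by
    rw [totalDegree_hom hδ hchom hc0, hcdeg, ← hn, h3]; rfl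
  have h5 : IsUnit c := isUnit_of_totalDegree hc0 (by exact_mod_cast h4)
  obtain ⟨c'', hc''⟩ := h5.exists_left_inv
  refine ⟨c' * c'', ?_⟩
  rw [hm01, smul_smul, mul_assoc, hc'', mul_one]
  exact hm02

/-- A primitive functional vanishing on `s`. -/
lemma exists_primitive {s t : M}
    (hind : ∀ a b : MvPolynomial σ K, a • s + b • t = 0 → a = 0 ∧ b = 0) :
    ∃ π : M →ₗ[MvPolynomial σ K] MvPolynomial σ K, π s = 0 ∧ π t ≠ 0 ∧
      ∀ ϖ : MvPolynomial σ K, Prime ϖ → ∃ m, ¬ ϖ ∣ π m := by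
  classical
  have hs0 : s ≠ 0 := by
    intro h
    have := (hind 1 0 (by rw [h]; simp)).1
    exact one_ne_zero this
  have sep : ∀ m : M, m ≠ 0 → ∃ φ : Module.Dual (MvPolynomial σ K) M, φ m ≠ 0 := by
    intro m hm
    by_contra hcon
    push Not at hcon
    apply hm
    apply (Module.bijective_dual_eval (MvPolynomial σ K) M).1
    rw [map_zero]
    refine LinearMap.ext fun φ => ?_
    rw [Module.Dual.eval_apply, hcon φ]; rfl
  obtain ⟨φ1, hφ1⟩ := sep s hs0
  have hne : φ1 s • t - φ1 t • s ≠ 0 := by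
    intro h
    have h1 : (-φ1 t) • s + φ1 s • t = 0 := by rw [neg_smul, ← h]; abel
    exact hφ1 (hind _ _ h1).2
  obtain ⟨φ2, hφ2⟩ := sep _ hne
  have hex : ∃ n : ℕ, ∃ φ : M →ₗ[MvPolynomial σ K] MvPolynomial σ K, φ s = 0 ∧ φ t ≠ 0 ∧
      (φ t).totalDegree = n := by
    refine ⟨_, φ1 s • φ2 - φ2 s • φ1, ?_, ?_, rfl⟩
    · simp only [LinearMap.sub_apply, LinearMap.smul_apply, smul_eq_mul]; ring
    · intro h
      apply hφ2
      simp only [LinearMap.sub_apply, LinearMap.smul_apply, smul_eq_mul] at h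
      rw [map_sub, map_smul, map_smul, smul_eq_mul, smul_eq_mul, ← h]
      ring
  obtain ⟨φ, h1, h2, h3⟩ := Nat.find_spec hex
  refine ⟨φ, h1, h2, ?_⟩
  intro ϖ hϖ
  by_contra hcon
  push Not at hcon
  choose ψ hψ using hcon
  have hϖ0 := hϖ.ne_zero
  let Ψ : M →ₗ[MvPolynomial σ K] MvPolynomial σ K :=
    { toFun := ψ
      map_add' := by
        intro x y
        apply mul_left_cancel₀ hϖ0
        rw [mul_add, ← hψ, ← hψ, ← hψ, map_add]
      map_smul' := by
        intro r x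
        apply mul_left_cancel₀ hϖ0
        rw [← hψ, RingHom.id_apply, map_smul, hψ x, smul_eq_mul, smul_eq_mul]
        ring }
  have hΨs : Ψ s = 0 := by
    have h4 : ϖ * ψ s = 0 := by rw [← hψ, h1]
    exact (mul_eq_zero.mp h4).resolve_left hϖ0
  have hΨt : Ψ t ≠ 0 := by
    intro h
    apply h2
    rw [hψ t]
    have : ψ t = 0 := h
    rw [this, mul_zero]
  have hdeg : (Ψ t).totalDegree < Nat.find hex := by
    rw [← h3, hψ t, totalDegree_mul_of_isDomain hϖ0 (show ψ t ≠ 0 from hΨt)]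
    have : ϖ.totalDegree ≠ 0 := fun h => hϖ.not_isUnit (isUnit_of_totalDegree hϖ0 h)
    have h5 : (ψ t).totalDegree = (Ψ t).totalDegree := rfl
    omega
  exact Nat.find_min hex hdeg ⟨Ψ, hΨs, hΨt, rfl⟩

end

end Pool.Agent.Lib.MP_745d3a_ag
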