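import Pool.Agent.Lib.MP_745d3a_ag.HomDefs

/-!
Operators attached to a grading, and the case of two different classes on the hyperplane.
-/

set_option autoImplicit false

open MvPolynomial

namespace Pool.Agent.Lib.MP_745d3a_ag.Hom

open Pool.Agent.Lib.MP_745d3a_ag PF

section ops

variable {K M G : Type*} [Field K] [AddCommGroup G] [DecidableEq G] [AddCommGroup M]
  [Module (MvPolynomial (Fin 5) K) M] [Module K M] [IsScalarTower K (MvPolynomial (Fin 5) K) M]
  (ω : Fin 5 → G) (𝓐 : G → AddSubgroup M) [DirectSum.Decomposition 𝓐]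
  [SetLike.GradedSMul (weightedHomogeneousSubmodule K ω) 𝓐]

include ω in
omit [DecidableEq G] [DirectSum.Decomposition 𝓐] in
lemma smulK_mem_g (c : K) {g : G} {m : M} (hm : m ∈ 𝓐 g) : c • m ∈ 𝓐 g := by
  have h1 := smul_mem' ω 𝓐 (isWeightedHomogeneous_C ω c) hm
  rw [zero_add] at h1
  rwa [show c • m = (C c : MvPolynomial (Fin 5) K) • m by
    rw [← algebraMap_smul (MvPolynomial (Fin 5) K) c m]; rfl]

omit [DecidableEq G] [DirectSum.Decomposition 𝓐] [Module K M]
  [IsScalarTower K (MvPolynomial (Fin 5) K) M] in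
lemma X_smul_mem_g (i : Fin 5) {g : G} {m : M} (hm : m ∈ 𝓐 g) :
    (X i : MvPolynomial (Fin 5) K) • m ∈ 𝓐 (ω i + g) :=
  smul_mem' ω 𝓐 (isWeightedHomogeneous_X K ω i) hm

include ω in
/-- The operator which multiplies the piece `𝓐 g` by `φ g`. -/
lemma exists_op (φ : G → K) : ∃ T : M →ₗ[K] M, ∀ g, ∀ m ∈ 𝓐 g, T m = φ g • m := by
  classical
  let ε₀ : M →+ M := (DirectSum.toAddMonoid (fun g : G =>
    ((DistribSMul.toAddMonoidHom M (φ g)).comp (𝓐 g).subtype))).comp
      (DirectSum.decomposeAddEquiv 𝓐).toAddMonoidHom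
  have h1 : ∀ g, ∀ m ∈ 𝓐 g, ε₀ m = φ g • m := by
    intro d m hm
    show DirectSum.toAddMonoid _ (DirectSum.decompose 𝓐 m) = _
    rw [DirectSum.decompose_of_mem 𝓐 hm, DirectSum.toAddMonoid_of]
    rfl
  refine ⟨⟨ε₀.toAddHom, ?_⟩, h1⟩
  intro c m
  show ε₀ (c • m) = c • ε₀ m
  refine hom_induction 𝓐 (P := fun m => ε₀ (c • m) = c • ε₀ m) ?_ ?_ ?_ m
  · rw [smul_zero, map_zero, smul_zero]
  · intro d m hm
    rw [h1 d _ (smulK_mem_g ω 𝓐 c hm), h1 d m hm, smul_comm]
  · intro m n hm hn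
    rw [smul_add, map_add, hm, hn, map_add, smul_add]

variable {ω 𝓐}

lemma op_conn (φ : G → K) (hφ : ∀ i g, φ (ω i + g) = 1 + φ g) {ε : M →ₗ[K] M}
    (hε : ∀ g, ∀ m ∈ 𝓐 g, ε m = φ g • m)
    {E : Derivation K (MvPolynomial (Fin 5) K) (MvPolynomial (Fin 5) K)}
    (hE : ∀ i, E (X i) = X i) : IsConn E ε := by
  have hX : ∀ (i : Fin 5) (m : M), ε ((X i : MvPolynomial (Fin 5) K) • m) =
      (X i : MvPolynomial (Fin 5) K) • m + (X i : MvPolynomial (Fin 5) K) • ε m := by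
    intro i m
    refine hom_induction 𝓐 (P := fun m => ε ((X i : MvPolynomial (Fin 5) K) • m) =
      (X i : MvPolynomial (Fin 5) K) • m + (X i : MvPolynomial (Fin 5) K) • ε m) ?_ ?_ ?_ m
    · simp
    · intro d m hm
      rw [hε _ _ (X_smul_mem_g ω 𝓐 i hm), hε _ _ hm, hφ, add_smul, one_smul, smul_comm]
    · intro m n hm hn
      rw [smul_add, map_add, hm, hn, map_add, smul_add]
      abel
  intro a
  induction a using MvPolynomial.induction_on with
  | C c =>
    intro m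
    have h1 : (C c : MvPolynomial (Fin 5) K) = algebraMap K _ c := rfl
    rw [h1, algebraMap_smul, algebraMap_smul, map_smul, Derivation.map_algebraMap, zero_smul,
      zero_add]
  | add p q hp hq =>
    intro m
    rw [add_smul, map_add, hp, hq, map_add, add_smul, add_smul]
    abel
  | mul_X p i hp =>
    intro m
    rw [mul_smul, hp, hX, Derivation.leibniz, hE, add_smul, smul_add, mul_smul]
    simp only [smul_eq_mul, mul_smul]
    rw [smul_comm (X i) (E p) m]
    abel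

omit [IsScalarTower K (MvPolynomial (Fin 5) K) M]
  [SetLike.GradedSMul (weightedHomogeneousSubmodule K ω) 𝓐]
  [Module (MvPolynomial (Fin 5) K) M] in
lemma op_diag [CharZero K] (δ : G → ℤ) {ε : M →ₗ[K] M}
    (hε : ∀ g, ∀ m ∈ 𝓐 g, ε m = (δ g : K) • m) : Diag ε := by
  classical
  intro v
  obtain ⟨s, hs, _⟩ := eq_sum_comp 𝓐 v
  refine ⟨s.image δ, fun d => ∑ g ∈ s with δ g = d, Pool.Agent.Lib.MP_745d3a_ag.comp 𝓐 g v,
    fun d => ?_, ?_⟩
  · rw [map_sum, Finset.smul_sum]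
    refine Finset.sum_congr rfl fun g hg => ?_
    rw [hε g _ (Pool.Agent.Lib.MP_745d3a_ag.comp_mem 𝓐 g v), (Finset.mem_filter.mp hg).2]
  · conv_lhs => rw [hs]
    rw [Finset.sum_fiberwise_of_maps_to]
    intro g hg
    exact Finset.mem_image_of_mem _ hg

end ops

section classes

variable {K M : Type*} [Field K] {N : ℕ} [AddCommGroup M]
  [Module (MvPolynomial (Fin 5) K) M] [Module K M] [IsScalarTower K (MvPolynomial (Fin 5) K) M]
  {𝓐 : ℤ × ZMod N → AddSubgroup M} [DirectSum.Decomposition 𝓐]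
  [SetLike.GradedSMul (weightedHomogeneousSubmodule K (om N)) 𝓐]

variable (𝓐) in
/-- The projection to the elements of class `j`. -/
lemma exists_proj (j : ZMod N) : ∃ T : M →ₗ[K] M,
    (∀ g, ∀ m ∈ 𝓐 g, T m = if g.2 = j then m else 0) := by
  obtain ⟨T, hT⟩ := exists_op (om N) 𝓐 (fun g => if g.2 = j then (1 : K) else 0)
  refine ⟨T, fun g m hm => ?_⟩
  rw [hT g m hm]
  split_ifs <;> simp

end classes

section split

variable {K M : Type*} [Field K] [CharZero K] {N : ℕ} [AddCommGroup M]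
  [Module (MvPolynomial (Fin 5) K) M] [Module K M] [IsScalarTower K (MvPolynomial (Fin 5) K) M]
  {𝓐 : ℤ × ZMod N → AddSubgroup M} [DirectSum.Decomposition 𝓐]
  [SetLike.GradedSMul (weightedHomogeneousSubmodule K (om N)) 𝓐]

omit [CharZero K] in
/-- The components of functionals with values in the hyperplane. -/
lemma exists_theta (T : ZMod N → M →ₗ[K] M)
    (hT : ∀ j, ∀ g, ∀ m ∈ 𝓐 g, T j m = if g.2 = j then m else 0) (θ : M →ₗ[(MvPolynomial (Fin 5) K)] (MvPolynomial (Fin 5) K ⧸ Ideal.span {(X 0 : MvPolynomial (Fin 5) K)})) (j : ZMod N) :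
    ∃ θj : M →ₗ[(MvPolynomial (Fin 5) K)] (MvPolynomial (Fin 5) K ⧸ Ideal.span {(X 0 : MvPolynomial (Fin 5) K)}), ∀ m, θj m = θ (T j m) := by
  have h0 : algebraMap (MvPolynomial (Fin 5) K) (MvPolynomial (Fin 5) K ⧸ Ideal.span {(X 0 : MvPolynomial (Fin 5) K)}) (X 0) = 0 := by
    show Ideal.Quotient.mk _ _ = _
    rw [Ideal.Quotient.eq_zero_iff_mem]
    exact Ideal.subset_span rfl
  have hs : ∀ y : (MvPolynomial (Fin 5) K ⧸ Ideal.span {(X 0 : MvPolynomial (Fin 5) K)}), (X 0 : (MvPolynomial (Fin 5) K)) • y = 0 := fun y =>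
    (Algebra.smul_def (X 0 : (MvPolynomial (Fin 5) K)) y).trans (by rw [h0, zero_mul])
  have hX : ∀ (i : Fin 5) (m : M), θ (T j ((X i : (MvPolynomial (Fin 5) K)) • m)) = (X i : (MvPolynomial (Fin 5) K)) • θ (T j m) := by
    intro i m
    refine hom_induction 𝓐 (P := fun m => θ (T j ((X i : (MvPolynomial (Fin 5) K)) • m)) = (X i : (MvPolynomial (Fin 5) K)) • θ (T j m))
      ?_ ?_ ?_ m
    · simp
    · intro g m hm
      by_cases hi : i = 0
      · subst hi
        rw [hs, hT j _ _ (X_smul_mem_g (om N) 𝓐 0 hm)]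
        split_ifs
        · rw [map_smul, hs]
        · rw [map_zero]
      · rw [hT j _ _ (X_smul_mem_g (om N) 𝓐 i hm), hT j _ _ hm]
        have h1 : (om N i + g).2 = g.2 := by
          show (if i = 0 then (1 : ZMod N) else 0) + g.2 = g.2
          rw [if_neg hi, zero_add]
        rw [h1]
        split_ifs
        · rw [map_smul]
        · rw [map_zero, smul_zero]
    · intro m n hm hn
      rw [smul_add, map_add, map_add, hm, hn, map_add, map_add, smul_add]
  refine ⟨{ toFun := fun m => θ (T j m)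
            map_add' := fun m n => by rw [map_add, map_add]
            map_smul' := ?_ }, fun m => rfl⟩
  intro a
  rw [RingHom.id_apply]
  induction a using MvPolynomial.induction_on with
  | C c =>
    intro m
    have h1 : (C c : (MvPolynomial (Fin 5) K)) = algebraMap K _ c := rfl
    rw [h1, algebraMap_smul, algebraMap_smul, map_smul, LinearMap.map_smul_of_tower]
  | add p q hp hq =>
    intro m
    rw [add_smul, map_add, map_add, hp, hq, add_smul]
  | mul_X p i hp =>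
    intro m
    rw [mul_smul, hp, hX, mul_smul]

/-- **Part B**: two different classes along the hyperplane. -/
theorem gen2_of_ne (hM : Bun (X : Fin 5 → (MvPolynomial (Fin 5) K)) M) {g1 g2 : ℤ × ZMod N} {m1 m2 : M}
    (h1 : m1 ∈ 𝓐 g1) (h2 : m2 ∈ 𝓐 g2) (hLB : LB (Ideal.span {(X 0 : (MvPolynomial (Fin 5) K))}) m1 m2)
    (hj : g1.2 ≠ g2.2) : Gen2 (MvPolynomial (Fin 5) K) M := by
  classical
  have hx : Coord K (X : Fin 5 → (MvPolynomial (Fin 5) K)) := ⟨by
    have : (aeval X : (MvPolynomial (Fin 5) K) →ₐ[K] (MvPolynomial (Fin 5) K)) = AlgHom.id K (MvPolynomial (Fin 5) K) := by ext i; simp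
    rw [this]; exact Function.bijective_id⟩
  have hr : RS (X : Fin 5 → (MvPolynomial (Fin 5) K)) 0 (Fin.succAbove 0)
      (fun i => Ideal.Quotient.mk (Ideal.span {(X 0 : (MvPolynomial (Fin 5) K))}) (X (Fin.succAbove 0 i))) :=
    RS.quot _ 0
  have hx' := hr.coord hx
  have hdom := hx'.isDomain
  have hB' := Bun.dual hx hM hr
  choose T hT using fun j => exists_proj (K := K) 𝓐 j
  choose Θ hΘ using fun (θ : M →ₗ[(MvPolynomial (Fin 5) K)] (MvPolynomial (Fin 5) K ⧸ Ideal.span {(X 0 : MvPolynomial (Fin 5) K)})) (j : ZMod N) => exists_theta T hT θ j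
  -- vanishing criterion
  have hvan : ∀ θ : M →ₗ[(MvPolynomial (Fin 5) K)] (MvPolynomial (Fin 5) K ⧸ Ideal.span {(X 0 : MvPolynomial (Fin 5) K)}), θ m1 = 0 → θ m2 = 0 → θ = 0 := by
    intro θ h3 h4
    ext m
    obtain ⟨D, a, b, hD, hab⟩ := hLB.span m
    have h5 : algebraMap (MvPolynomial (Fin 5) K) (MvPolynomial (Fin 5) K ⧸ Ideal.span {(X 0 : MvPolynomial (Fin 5) K)}) D * θ m = 0 := by
      rw [← Algebra.smul_def, ← map_smul, hab, map_add, map_smul, map_smul, h3, h4, smul_zero,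
        smul_zero, add_zero]
    rcases mul_eq_zero.mp h5 with h6 | h6
    · exact absurd (Ideal.Quotient.eq_zero_iff_mem.mp h6) hD
    · exact h6
  -- the submodules of functionals of one class
  let F : M → Submodule (MvPolynomial (Fin 5) K ⧸ Ideal.span {(X 0 : MvPolynomial (Fin 5) K)}) (M →ₗ[(MvPolynomial (Fin 5) K)] (MvPolynomial (Fin 5) K ⧸ Ideal.span {(X 0 : MvPolynomial (Fin 5) K)})) := fun m₀ =>
    { carrier := {θ | θ m₀ = 0}
      add_mem' := fun {a b} ha hb => by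
        show (a + b) m₀ = 0
        rw [LinearMap.add_apply, show a m₀ = 0 from ha, show b m₀ = 0 from hb, add_zero]
      zero_mem' := rfl
      smul_mem' := fun c a ha => by
        show (c • a) m₀ = 0
        rw [LinearMap.smul_apply, show a m₀ = 0 from ha, smul_zero] }
  have hF : ∀ m₀ θ, θ ∈ F m₀ ↔ θ m₀ = 0 := fun _ _ => Iff.rfl
  have hcyc : ∀ m₀ m₀' : M, (∀ θ : M →ₗ[(MvPolynomial (Fin 5) K)] (MvPolynomial (Fin 5) K ⧸ Ideal.span {(X 0 : MvPolynomial (Fin 5) K)}), θ m₀ = 0 → θ m₀' = 0 → θ = 0) →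
      ∃ e ∈ F m₀, ∀ θ ∈ F m₀, ∃ c : (MvPolynomial (Fin 5) K ⧸ Ideal.span {(X 0 : MvPolynomial (Fin 5) K)}), θ = c • e := by
    intro m₀ m₀' hv
    refine d2_cyclic hx' hB' (F m₀) ?_ ?_
    · intro a θ ha hθ
      rw [hF] at hθ ⊢
      rw [LinearMap.smul_apply, smul_eq_mul] at hθ
      exact (mul_eq_zero.mp hθ).resolve_left ha
    · intro θ hθ θ' hθ'
      rw [hF] at hθ hθ'
      by_cases h3 : θ' m₀' = 0
      · refine ⟨0, 1, Or.inr one_ne_zero, ?_⟩
        rw [hv θ' hθ' h3, smul_zero]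
        exact zero_smul (MvPolynomial (Fin 5) K ⧸ Ideal.span {(X 0 : MvPolynomial (Fin 5) K)}) θ
      · refine ⟨θ' m₀', θ m₀', Or.inl h3, ?_⟩
        rw [← sub_eq_zero]
        refine hv _ ?_ ?_
        · simp only [LinearMap.sub_apply, LinearMap.smul_apply, hθ, hθ', smul_zero, sub_zero]
        · simp only [LinearMap.sub_apply, LinearMap.smul_apply, smul_eq_mul]
          ring
  obtain ⟨e1, _, he1⟩ := hcyc m2 m1 (fun θ a b => hvan θ b a)
  obtain ⟨e2, _, he2⟩ := hcyc m1 m2 hvan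
  have hgen : Gen2 (MvPolynomial (Fin 5) K ⧸ Ideal.span {(X 0 : MvPolynomial (Fin 5) K)}) (M →ₗ[(MvPolynomial (Fin 5) K)] (MvPolynomial (Fin 5) K ⧸ Ideal.span {(X 0 : MvPolynomial (Fin 5) K)})) := by
    refine ⟨e1, e2, fun θ => ?_⟩
    obtain ⟨c1, hc1⟩ := he1 (Θ θ g1.2) (by
      rw [hF, hΘ, hT _ _ _ h2, if_neg (Ne.symm hj), map_zero])
    obtain ⟨c2, hc2⟩ := he2 (Θ θ g2.2) (by
      rw [hF, hΘ, hT _ _ _ h1, if_neg hj, map_zero])
    refine ⟨c1, c2, ?_⟩
    rw [← hc1, ← hc2, ← sub_eq_zero]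
    refine hvan _ ?_ ?_
    · rw [LinearMap.sub_apply, LinearMap.add_apply, hΘ, hΘ, hT _ _ _ h1, hT _ _ _ h1, if_pos rfl,
        if_neg hj, map_zero, add_zero, sub_self]
    · rw [LinearMap.sub_apply, LinearMap.add_apply, hΘ, hΘ, hT _ _ _ h2, hT _ _ _ h2, if_pos rfl,
        if_neg (Ne.symm hj), map_zero, zero_add, sub_self]
  obtain ⟨ε, hε⟩ := exists_op (K := K) (om N) 𝓐 (fun g : ℤ × ZMod N => (g.1 : K))
  let E : Derivation K (MvPolynomial (Fin 5) K) (MvPolynomial (Fin 5) K) := mkDerivation K X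
  have hE : ∀ i, E (X i) = X i := fun i => mkDerivation_X K _ i
  refine horrocks hx hM hr (E := E) (ε := ε) hE
    (op_conn (ω := om N) (𝓐 := 𝓐) (fun g : ℤ × ZMod N => (g.1 : K)) (fun i g => ?_) hε hE)
    (op_diag (fun g : ℤ × ZMod N => g.1) hε)
    (i₁ := 0) (i₂ := 1) (i₃ := 2) (by decide) (by decide) (by decide) hgen
  show (((1 : ℤ) + g.1 : ℤ) : K) = 1 + (g.1 : K)
  push_cast; ring

end split

end Pool.Agent.Lib.MP_745d3a_ag.Hom
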