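import Pool.Agent.Lib.MP_745d3a_ag.HomB

/-!
One class along the hyperplane: divisibility, and a local basis at the centre of the homology.
-/

set_option autoImplicit false

open MvPolynomial

namespace Pool.Agent.Lib.MP_745d3a_ag.Hom

open Pool.Agent.Lib.MP_745d3a_ag PF

lemma om_weight (N : ℕ) (e : Fin 5 →₀ ℕ) :
    Finsupp.weight (om N) e = (((e.sum fun _ n => n : ℕ) : ℤ), (e 0 : ZMod N)) := by
  rw [Finsupp.weight_apply, Finsupp.sum_fintype _ _ (by intro i; simp),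
    Finsupp.sum_fintype _ _ (by intro i; simp), Fin.sum_univ_five, Fin.sum_univ_five]
  ext
  · simp [om]
  · simp [om]

lemma dvd_X_iff {K : Type*} [Field K] (a : MvPolynomial (Fin 5) K) :
    a ∈ Ideal.span {(X 0 : MvPolynomial (Fin 5) K)} ↔ ∀ e ∈ a.support, e 0 ≠ 0 := by
  have := mem_ideal_span_X_image (R := K) (x := a) (s := {(0 : Fin 5)})
  rw [Set.image_singleton] at this
  rw [this]
  simp

lemma mem_p0_iff {K : Type*} [Field K] (a : MvPolynomial (Fin 5) K) :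
    a ∈ Ideal.span ((X : Fin 5 → MvPolynomial (Fin 5) K) '' {i | i ≠ 0}) ↔
      ∀ n : ℕ, coeff (Finsupp.single 0 n) a = 0 := by
  rw [mem_ideal_span_X_image]
  constructor
  · intro h n
    by_contra hn
    obtain ⟨i, hi, hi'⟩ := h _ (mem_support_iff.mpr hn)
    apply hi'
    rw [Finsupp.single_apply, if_neg (Ne.symm hi)]
  · intro h e he
    by_contra hcon
    push Not at hcon
    have h1 : e = Finsupp.single 0 (e 0) := by
      ext i
      rw [Finsupp.single_apply]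
      split_ifs with hi
      · rw [hi]
      · exact hcon i (Ne.symm hi)
    rw [mem_support_iff, h1] at he
    exact he (h _)

section lb

variable {R M : Type*} [CommRing R] [IsDomain R] [AddCommGroup M] [Module R M] {p : Ideal R}
  {m1 m2 : M}

lemma LB.smul_left [p.IsPrime] (H : LB p m1 m2) {f : R} (hf : f ∉ p) : LB p (f • m1) m2 where
  ind a b h := by
    rw [← mul_smul] at h
    obtain ⟨h1, h2⟩ := H.ind _ _ h
    refine ⟨(mul_eq_zero.mp h1).resolve_right ?_, h2⟩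
    rintro rfl
    exact hf p.zero_mem
  span m := by
    obtain ⟨D, a, b, h1, h2⟩ := H.span m
    refine ⟨f * D, a, f * b, ?_, ?_⟩
    · intro h
      rcases (inferInstance : p.IsPrime).mem_or_mem h with h | h
      exacts [hf h, h1 h]
    · rw [mul_smul, h2, smul_add, smul_comm f a, ← mul_smul f b]

lemma LB.of_smul_left {f : R} (H : LB p (f • m1) m2) : LB p m1 m2 where
  ind a b h := by
    have hf : f ≠ 0 := by
      rintro rfl
      have := (H.ind 1 0 (by simp)).1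
      exact one_ne_zero this
    have h1 : a • f • m1 + (f * b) • m2 = 0 := by
      rw [smul_comm, mul_smul, ← smul_add, h, smul_zero]
    obtain ⟨h2, h3⟩ := H.ind _ _ h1
    exact ⟨h2, (mul_eq_zero.mp h3).resolve_left hf⟩
  span m := by
    obtain ⟨D, a, b, h1, h2⟩ := H.span m
    exact ⟨D, a * f, b, h1, by rw [h2, mul_smul]⟩

end lb

section main

variable {K M : Type*} [Field K] {N : ℕ} [AddCommGroup M]
  [Module (MvPolynomial (Fin 5) K) M]
  {𝓐 : ℤ × ZMod N → AddSubgroup M} [DirectSum.Decomposition 𝓐]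
  [SetLike.GradedSMul (weightedHomogeneousSubmodule K (om N)) 𝓐]

/-- A homogeneous polynomial of nonzero class is divisible by `x_0`. -/
lemma dvd_of_class {a : (MvPolynomial (Fin 5) K)} {g : ℤ × ZMod N} (ha : IsWeightedHomogeneous (om N) a g)
    (hg : g.2 ≠ 0) : ∃ b : (MvPolynomial (Fin 5) K), a = X 0 * b := by
  have h1 : a ∈ Ideal.span {(X 0 : (MvPolynomial (Fin 5) K))} := by
    rw [dvd_X_iff]
    intro e he h0
    have h2 := ha (mem_support_iff.mp he)
    rw [om_weight, h0] at h2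
    apply hg
    rw [← h2]
    simp
  rw [Ideal.mem_span_singleton'] at h1
  obtain ⟨b, hb⟩ := h1
  exact ⟨b, by rw [← hb, mul_comm]⟩

/-- **Part C**: elements of another class are divisible by `x_0`. -/
theorem div_of_ne [Module.IsReflexive (MvPolynomial (Fin 5) K) M] {g1 g2 : ℤ × ZMod N} {m1 m2 : M}
    (h1 : m1 ∈ 𝓐 g1) (h2 : m2 ∈ 𝓐 g2) (hLB : LB (Ideal.span {(X 0 : (MvPolynomial (Fin 5) K))}) m1 m2)
    (h12 : g2.2 = g1.2) {k : ℤ} {j : ZMod N} (hj : j ≠ g1.2) {m : M} (hm : m ∈ 𝓐 (k, j)) :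
    ∃ n ∈ 𝓐 (k - 1, j - 1), m = (X 0 : (MvPolynomial (Fin 5) K)) • n := by
  obtain ⟨D, a, b, hD, hab⟩ := hLB.span m
  rw [dvd_X_iff] at hD
  push Not at hD
  obtain ⟨e, he, he0⟩ := hD
  set g' := Finsupp.weight (om N) e with hg'
  have hg'2 : g'.2 = 0 := by
    rw [hg', om_weight, he0]; simp
  have h3 := congrArg (comp 𝓐 (g' + (k, j))) hab
  rw [comp_add, comp_smul (om N) 𝓐 hm, comp_smul (om N) 𝓐 h1, comp_smul (om N) 𝓐 h2,
    show g' + (k, j) - (k, j) = g' by abel] at h3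
  obtain ⟨a', ha'⟩ := dvd_of_class (weightedHomogeneousComponent_isWeightedHomogeneous
    (w := om N) (g' + (k, j) - g1) a) (by
      show g'.2 + j - g1.2 ≠ 0
      rw [hg'2, zero_add]
      exact sub_ne_zero.mpr hj)
  obtain ⟨b', hb'⟩ := dvd_of_class (weightedHomogeneousComponent_isWeightedHomogeneous
    (w := om N) (g' + (k, j) - g2) b) (by
      show g'.2 + j - g2.2 ≠ 0
      rw [hg'2, zero_add, h12]
      exact sub_ne_zero.mpr hj)
  rw [ha', hb', mul_smul, mul_smul, ← smul_add] at h3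
  have hX : Prime (X 0 : (MvPolynomial (Fin 5) K)) := X_prime
  obtain ⟨n, hn, _⟩ := hartogs (M := M) (a := (X 0 : (MvPolynomial (Fin 5) K)))
    (b := weightedHomogeneousComponent (om N) g' D) hX.ne_zero (by
      intro h hh
      rcases hX.dvd_or_dvd hh with h4 | h4
      · exfalso
        rw [← Ideal.mem_span_singleton, dvd_X_iff] at h4
        refine h4 e ?_ he0
        rw [mem_support_iff, coeff_weightedHomogeneousComponent, if_pos hg'.symm]
        exact mem_support_iff.mp he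
      · exact h4) h3
  refine ⟨n, ?_, hn⟩
  have h5 := mem_of_smul_mem (om N) 𝓐 torsionfree_of_reflexive (isWeightedHomogeneous_X K (om N) 0)
    hX.ne_zero (h := (k, j)) (m := n) (by rw [← hn]; exact hm)
  have h6 : ((k, j) : ℤ × ZMod N) - om N 0 = (k - 1, j - 1) := by
    simp [om]
  rwa [h6] at h5

/-- Elements of class `c + t` are divisible by `x_0 ^ t`. -/
lemma div_pow {c : ZMod N}
    (hC : ∀ k j, j ≠ c → ∀ m ∈ 𝓐 (k, j), ∃ n ∈ 𝓐 (k - 1, j - 1), m = (X 0 : (MvPolynomial (Fin 5) K)) • n)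
    (t : ℕ) (ht : t < N) : ∀ k, ∀ m ∈ 𝓐 (k, c + t), ∃ n ∈ 𝓐 (k - t, c), m = (X 0 : (MvPolynomial (Fin 5) K)) ^ t • n := by
  induction t with
  | zero =>
    intro k m hm
    refine ⟨m, ?_, by simp⟩
    simpa using hm
  | succ t ih =>
    intro k m hm
    obtain ⟨n, hn, hmn⟩ := hC k _ (by
      intro h
      have h1 : ((t + 1 : ℕ) : ZMod N) = 0 := by
        simpa using h
      rw [ZMod.natCast_eq_zero_iff] at h1
      exact absurd (Nat.le_of_dvd (Nat.succ_pos t) h1) (by omega)) m hm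
    obtain ⟨n', hn', hnn'⟩ := ih (by omega) (k - 1) n (by
      have : c + ((t + 1 : ℕ) : ZMod N) - 1 = c + (t : ZMod N) := by push_cast; ring
      rwa [this] at hn)
    refine ⟨n', ?_, ?_⟩
    · have : k - 1 - (t : ℤ) = k - ((t + 1 : ℕ) : ℤ) := by push_cast; ring
      rwa [this] at hn'
    · rw [hmn, hnn', pow_succ', mul_smul]

lemma div_any [NeZero N] {c : ZMod N}
    (hC : ∀ k j, j ≠ c → ∀ m ∈ 𝓐 (k, j), ∃ n ∈ 𝓐 (k - 1, j - 1), m = (X 0 : (MvPolynomial (Fin 5) K)) • n)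
    (k : ℤ) (j : ZMod N) (m : M) (hm : m ∈ 𝓐 (k, j)) :
    ∃ t : ℕ, t < N ∧ j = c + t ∧ ∃ n ∈ 𝓐 (k - t, c), m = (X 0 : (MvPolynomial (Fin 5) K)) ^ t • n := by
  have h1 : j = c + ((j - c).val : ℕ) := by
    rw [ZMod.natCast_zmod_val]; ring
  refine ⟨(j - c).val, ZMod.val_lt _, h1, div_pow hC _ (ZMod.val_lt _) k m ?_⟩
  rwa [← h1]

/-- Replacing the first vector of a local basis by one of small degree. -/
lemma improve [NeZero N] {c : ZMod N}
    (hC : ∀ k j, j ≠ c → ∀ m ∈ 𝓐 (k, j), ∃ n ∈ 𝓐 (k - 1, j - 1), m = (X 0 : (MvPolynomial (Fin 5) K)) • n)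
    {p : Ideal (MvPolynomial (Fin 5) K)} [p.IsPrime] {d : ℤ} {m1 m2 : M} (H : LB p m1 m2)
    (hd : ∃ f : (MvPolynomial (Fin 5) K), f ∉ p ∧ f • m1 ∈ Submodule.span (MvPolynomial (Fin 5) K) {x | ∃ k ≤ d, ∃ j, x ∈ 𝓐 (k, j)}) :
    ∃ k ≤ d, ∃ n ∈ 𝓐 (k, c), LB p n m2 := by
  obtain ⟨f, hf, hm⟩ := hd
  rw [Submodule.mem_span_set'] at hm
  obtain ⟨n, a, x, hx⟩ := hm
  obtain ⟨i, _, hi⟩ := (LB.smul_left H hf).exchange Finset.univ (fun i => a i • (x i : M)) hx.symm
  obtain ⟨k, hk, j, hj⟩ := (x i).2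
  obtain ⟨t, _, _, y, hy, hxy⟩ := div_any hC k j _ hj
  have h1 := LB.of_smul_left hi
  rw [hxy] at h1
  exact ⟨k - t, by linarith [(Nat.cast_nonneg t : (0 : ℤ) ≤ t)], y, hy, LB.of_smul_left h1⟩

/-- **Part D**: a good basis at the centre. -/
theorem exists_local0 [NeZero N] [Module.Finite (MvPolynomial (Fin 5) K) M] {c : ZMod N}
    (hC : ∀ k j, j ≠ c → ∀ m ∈ 𝓐 (k, j), ∃ n ∈ 𝓐 (k - 1, j - 1), m = (X 0 : (MvPolynomial (Fin 5) K)) • n)
    {m1 m2 : M} (H : LB (Ideal.span ((X : Fin 5 → (MvPolynomial (Fin 5) K)) '' {i | i ≠ 0})) m1 m2)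
    (hprime : (Ideal.span ((X : Fin 5 → (MvPolynomial (Fin 5) K)) '' {i | i ≠ 0})).IsPrime) (d : ℤ)
    (hd : ∀ m : M, ∃ f : (MvPolynomial (Fin 5) K), f ∉ Ideal.span ((X : Fin 5 → (MvPolynomial (Fin 5) K)) '' {i | i ≠ 0}) ∧
      f • m ∈ Submodule.span (MvPolynomial (Fin 5) K) {x | ∃ k ≤ d, ∃ j, x ∈ 𝓐 (k, j)}) :
    ∃ d1 ≤ d, ∃ d2 ≤ d, ∃ n1 ∈ 𝓐 (d1, c), ∃ n2 ∈ 𝓐 (d2, c),
      (∀ a b : (MvPolynomial (Fin 5) K), a • n1 + b • n2 = 0 → a = 0 ∧ b = 0) ∧
      ∃ (n : ℕ) (D : (MvPolynomial (Fin 5) K)), IsWeightedHomogeneous (om N) D ((n : ℤ), (n : ZMod N)) ∧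
        coeff (Finsupp.single 0 n) D ≠ 0 ∧ ∀ m : M, ∃ a b : (MvPolynomial (Fin 5) K), D • m = a • n1 + b • n2 := by
  classical
  obtain ⟨d1, hd1, n1, hn1, H1⟩ := improve hC H (hd m1)
  obtain ⟨d2, hd2, n2, hn2, H2⟩ := improve hC H1.swap (hd m2)
  replace H2 := H2.swap
  refine ⟨d1, hd1, d2, hd2, n1, hn1, n2, hn2, H2.ind, ?_⟩
  -- a common denominator
  obtain ⟨G, hG⟩ := Module.Finite.fg_top (R := (MvPolynomial (Fin 5) K)) (M := M)
  choose q a b hq hqm using H2.span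
  set s : (MvPolynomial (Fin 5) K) := ∏ g ∈ G, q g with hs
  have hs0 : s ∉ Ideal.span ((X : Fin 5 → (MvPolynomial (Fin 5) K)) '' {i | i ≠ 0}) := by
    intro hmem
    obtain ⟨g, _, hg⟩ := (hprime.prod_mem_iff (s := G) (x := q)).mp hmem
    exact hq g hg
  have hsm : ∀ m : M, ∃ a b : (MvPolynomial (Fin 5) K), s • m = a • n1 + b • n2 := by
    intro m
    have hm : m ∈ Submodule.span (MvPolynomial (Fin 5) K) (G : Set M) := by rw [hG]; trivial
    have h1 : Submodule.span (MvPolynomial (Fin 5) K) (G : Set M) ≤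
        (Submodule.span (MvPolynomial (Fin 5) K) {n1, n2}).comap (s • (LinearMap.id : M →ₗ[(MvPolynomial (Fin 5) K)] M)) := by
      rw [Submodule.span_le]
      intro g hg
      show s • g ∈ Submodule.span (MvPolynomial (Fin 5) K) {n1, n2}
      rw [hs, ← Finset.prod_erase_mul G q hg, mul_smul, hqm]
      exact Submodule.smul_mem _ _ (Submodule.mem_span_pair.mpr ⟨_, _, rfl⟩)
    obtain ⟨a, c, hac⟩ := Submodule.mem_span_pair.mp (h1 hm)
    exact ⟨a, c, hac.symm⟩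
  rw [mem_p0_iff] at hs0
  push Not at hs0
  obtain ⟨n, hn⟩ := hs0
  have hw : Finsupp.weight (om N) (Finsupp.single (0 : Fin 5) n) = ((n : ℤ), (n : ZMod N)) := by
    rw [om_weight]
    simp
  refine ⟨n, weightedHomogeneousComponent (om N) ((n : ℤ), (n : ZMod N)) s,
    weightedHomogeneousComponent_isWeightedHomogeneous _ _, ?_, ?_⟩
  · rw [coeff_weightedHomogeneousComponent, if_pos hw]
    exact hn
  · intro m
    refine hom_induction 𝓐 (P := fun m => ∃ a b : (MvPolynomial (Fin 5) K),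
      weightedHomogeneousComponent (om N) ((n : ℤ), (n : ZMod N)) s • m = a • n1 + b • n2)
      ⟨0, 0, by simp⟩ ?_ ?_ m
    · intro g m hm
      obtain ⟨a, b, hab⟩ := hsm m
      have h3 := congrArg (comp 𝓐 (((n : ℤ), (n : ZMod N)) + g)) hab
      rw [comp_add, comp_smul (om N) 𝓐 hm, comp_smul (om N) 𝓐 hn1, comp_smul (om N) 𝓐 hn2,
        add_sub_cancel_right] at h3
      exact ⟨_, _, h3⟩
    · rintro x y ⟨a, b, h1⟩ ⟨a', b', h2⟩
      refine ⟨a + a', b + b', ?_⟩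
      rw [smul_add, h1, h2, add_smul, add_smul]
      abel

end main

end Pool.Agent.Lib.MP_745d3a_ag.Hom
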