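import Pool.Agent.Lib.MP_745d3a_ag.HomC

/-!
The quotient of `M` by the span of a local basis at the centre, as a module over the polynomial
ring in the last four variables.
-/

set_option autoImplicit false

open MvPolynomial

namespace Pool.Agent.Lib.MP_745d3a_ag.Hom

open Pool.Agent.Lib.MP_745d3a_ag PF

section poly

variable {K : Type*} [Field K]

/-- The inclusion of the polynomial ring in the last four variables. -/
noncomputable def io (K : Type*) [Field K] : MvPolynomial (Fin 4) K →ₐ[K] MvPolynomial (Fin 5) K :=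
  rename Fin.succ

lemma fse_io (p : (MvPolynomial (Fin 4) K)) : finSuccEquiv K 4 (io K p) = Polynomial.C p := by
  induction p using MvPolynomial.induction_on with
  | C c =>
    rw [io, rename_C]
    have := (finSuccEquiv K 4).commutes c
    rw [← algebraMap_eq, this]
    rfl
  | add p q hp hq => rw [map_add, map_add, hp, hq, Polynomial.C_add]
  | mul_X p i hp =>
    rw [map_mul, map_mul, hp, Polynomial.C_mul, io, rename_X, finSuccEquiv_X_succ]

lemma io_inj {p : (MvPolynomial (Fin 4) K)} (h : io K p = 0) : p = 0 := by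
  have h1 := fse_io p
  rw [h, map_zero] at h1
  exact Polynomial.C_eq_zero.mp h1.symm

/-- Every polynomial is a sum of `io p_i * x_0 ^ i`. -/
lemma exists_rep (s : (MvPolynomial (Fin 5) K)) : s = ∑ i ∈ (finSuccEquiv K 4 s).support,
    io K ((finSuccEquiv K 4 s).coeff i) * X 0 ^ i := by
  apply (finSuccEquiv K 4).injective
  rw [map_sum]
  simp only [map_mul, map_pow, fse_io, finSuccEquiv_X_zero]
  exact (finSuccEquiv K 4 s).as_sum_support_C_mul_X_pow

lemma exists_monic {N : ℕ} {D : (MvPolynomial (Fin 5) K)} {n : ℕ}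
    (hD : IsWeightedHomogeneous (om N) D ((n : ℤ), (n : ZMod N)))
    (hc : coeff (Finsupp.single 0 n) D ≠ 0) :
    ∃ (u : K) (P : Polynomial (MvPolynomial (Fin 4) K)), u ≠ 0 ∧ P.Monic ∧ P.natDegree = n ∧
      finSuccEquiv K 4 D = Polynomial.C (C u) * P := by
  have h1 : ∀ (m : Fin 4 →₀ ℕ) (i : ℕ), coeff (m.cons i) D ≠ 0 →
      i + (m.sum fun _ k => k) = n := by
    intro m i hm
    have h2 := hD hm
    rw [om_weight] at h2
    have h3 := congrArg Prod.fst h2
    simp only at h3
    have h4 : ((m.cons i).sum fun _ k => k) = i + (m.sum fun _ k => k) := Finsupp.sum_cons _ _ _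
    rw [h4] at h3
    exact_mod_cast h3
  have h2 : (finSuccEquiv K 4 D).coeff n = C (coeff (Finsupp.single 0 n) D) := by
    ext m
    rw [finSuccEquiv_coeff_coeff, coeff_C]
    split_ifs with hm
    · subst hm
      congr 1
      ext i
      refine Fin.cases ?_ (fun j => ?_) i
      · simp
      · rw [Finsupp.cons_succ, Finsupp.single_apply, if_neg (Fin.succ_ne_zero j).symm]
        rfl
    · by_contra h3
      have h4 := h1 m n h3
      have h5 : (m.sum fun _ k => k) = 0 := by omega
      rw [Finsupp.sum_fintype _ _ (by intro i; rfl), Finset.sum_eq_zero_iff] at h5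
      exact hm (by ext i; exact (h5 i (Finset.mem_univ i)).symm)
  have h3 : ∀ i, n < i → (finSuccEquiv K 4 D).coeff i = 0 := by
    intro i hi
    ext m
    rw [finSuccEquiv_coeff_coeff, coeff_zero]
    by_contra h4
    have := h1 m i h4
    omega
  set u := coeff (Finsupp.single 0 n) D
  have h4 : (Polynomial.C (C u⁻¹) * finSuccEquiv K 4 D).coeff n = 1 := by
    rw [Polynomial.coeff_C_mul, h2, ← C_mul, inv_mul_cancel₀ hc, C_1]
  have h5 : (Polynomial.C (C u⁻¹) * finSuccEquiv K 4 D).natDegree ≤ n := by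
    rw [Polynomial.natDegree_le_iff_coeff_eq_zero]
    intro i hi
    rw [Polynomial.coeff_C_mul, h3 i hi, mul_zero]
  refine ⟨u, Polynomial.C (C u⁻¹) * finSuccEquiv K 4 D, hc,
    Polynomial.monic_of_natDegree_le_of_coeff_eq_one n h5 h4, ?_, ?_⟩
  · refine le_antisymm h5 (Polynomial.le_natDegree_of_ne_zero ?_)
    rw [h4]
    exact one_ne_zero
  · rw [← mul_assoc, ← Polynomial.C_mul, ← C_mul, mul_inv_cancel₀ hc, C_1, Polynomial.C_1, one_mul]

/-- `D` is a nonzerodivisor modulo an ideal extended from the last four variables. -/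
lemma reg {D : (MvPolynomial (Fin 5) K)} {u : K} {P : Polynomial (MvPolynomial (Fin 4) K)} (hu : u ≠ 0) (hP : P.Monic)
    (hD : finSuccEquiv K 4 D = Polynomial.C (C u) * P) {a b : (MvPolynomial (Fin 4) K)} {h α β : (MvPolynomial (Fin 5) K)}
    (H : D * h = io K a * α + io K b * β) : ∃ α' β' : (MvPolynomial (Fin 5) K), h = io K a * α' + io K b * β' := by
  set I : Ideal (MvPolynomial (Fin 4) K) := Ideal.span {a, b} with hI
  have hmem : ∀ Q : Polynomial (MvPolynomial (Fin 4) K), Q.map (Ideal.Quotient.mk I) = 0 ↔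
      Q ∈ Ideal.map Polynomial.C I := by
    intro Q
    rw [Ideal.mem_map_C_iff, Polynomial.ext_iff]
    refine forall_congr' fun i => ?_
    rw [Polynomial.coeff_map, Polynomial.coeff_zero, Ideal.Quotient.eq_zero_iff_mem]
  have h1 : (finSuccEquiv K 4 (D * h)).map (Ideal.Quotient.mk I) = 0 := by
    rw [hmem, H, map_add, map_mul, map_mul, fse_io, fse_io]
    refine Ideal.add_mem _ (Ideal.mul_mem_right _ _ (Ideal.mem_map_of_mem _ ?_))
      (Ideal.mul_mem_right _ _ (Ideal.mem_map_of_mem _ ?_))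
    · exact Ideal.subset_span (by simp)
    · exact Ideal.subset_span (by simp)
  rw [map_mul, hD, Polynomial.map_mul, Polynomial.map_mul, mul_assoc] at h1
  have h2 : (P.map (Ideal.Quotient.mk I)) * ((finSuccEquiv K 4 h).map (Ideal.Quotient.mk I)) = 0 := by
    have h3 := congrArg (fun Q => (Polynomial.C (C u⁻¹)).map (Ideal.Quotient.mk I) * Q) h1
    simp only [mul_zero] at h3
    rw [← mul_assoc, ← Polynomial.map_mul, ← Polynomial.C_mul, ← C_mul, inv_mul_cancel₀ hu, C_1,
      Polynomial.C_1, Polynomial.map_one, one_mul] at h3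
    exact h3
  have h3 := ((hP.map (Ideal.Quotient.mk I)).mul_right_eq_zero_iff).mp h2
  rw [hmem, hI, Ideal.map_span, Set.image_pair, Ideal.mem_span_pair] at h3
  obtain ⟨α', β', h4⟩ := h3
  refine ⟨(finSuccEquiv K 4).symm α', (finSuccEquiv K 4).symm β', ?_⟩
  apply (finSuccEquiv K 4).injective
  rw [map_add, map_mul, map_mul, fse_io, fse_io, AlgEquiv.apply_symm_apply,
    AlgEquiv.apply_symm_apply, ← h4]
  ring

lemma relPrime_io {a b : (MvPolynomial (Fin 4) K)} (h : IsRelPrime a b) : IsRelPrime (io K a) (io K b) := by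
  intro d hda hdb
  by_cases ha : a = 0
  · subst ha
    rw [isRelPrime_zero_left] at h
    exact isUnit_of_dvd_unit hdb (h.map (io K))
  · have h1 : finSuccEquiv K 4 d ∣ Polynomial.C a := by
      rw [← fse_io]; exact map_dvd _ hda
    have h2 : finSuccEquiv K 4 d ∣ Polynomial.C b := by
      rw [← fse_io]; exact map_dvd _ hdb
    have h3 : (finSuccEquiv K 4 d).natDegree = 0 := by
      have h4 := Polynomial.natDegree_le_of_dvd h1 (Polynomial.C_ne_zero.mpr ha)
      rw [Polynomial.natDegree_C] at h4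
      omega
    rw [Polynomial.natDegree_eq_zero] at h3
    obtain ⟨e, he⟩ := h3
    rw [← he] at h1 h2
    have h4 : e ∣ a := by
      obtain ⟨q, hq⟩ := h1
      have := congrArg (fun Q => Polynomial.coeff Q 0) hq
      simp only [Polynomial.coeff_C_zero, Polynomial.coeff_C_mul] at this
      exact ⟨_, this⟩
    have h5 : e ∣ b := by
      obtain ⟨q, hq⟩ := h2
      have := congrArg (fun Q => Polynomial.coeff Q 0) hq
      simp only [Polynomial.coeff_C_zero, Polynomial.coeff_C_mul] at this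
      exact ⟨_, this⟩
    have h6 := h h4 h5
    have h7 : IsUnit (finSuccEquiv K 4 d) := by
      rw [← he]; exact Polynomial.isUnit_C.mpr h6
    have h8 := h7.map (finSuccEquiv K 4).symm
    rwa [AlgEquiv.symm_apply_apply] at h8

end poly

section loc

variable {K M : Type*} [Field K] {N : ℕ} [AddCommGroup M] [Module (MvPolynomial (Fin 5) K) M]

/-- A basis at the centre with a denominator which is monic in `x_0`. -/
structure Loc (N : ℕ) (n1 n2 : M) (n : ℕ) (D : MvPolynomial (Fin 5) K) : Prop where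
  ind : ∀ a b : (MvPolynomial (Fin 5) K), a • n1 + b • n2 = 0 → a = 0 ∧ b = 0
  hom : IsWeightedHomogeneous (om N) D ((n : ℤ), (n : ZMod N))
  coe : coeff (Finsupp.single 0 n) D ≠ 0
  den : ∀ m : M, ∃ a b : (MvPolynomial (Fin 5) K), D • m = a • n1 + b • n2

lemma Loc.torsion {n1 n2 : M} {n : ℕ} {D : (MvPolynomial (Fin 5) K)} (L : Loc N n1 n2 n D) (tf : ∀ (a : (MvPolynomial (Fin 5) K)) (m : M), a • m = 0 → a = 0 ∨ m = 0)
    {r : (MvPolynomial (Fin 4) K)} (hr : r ≠ 0) {m : M} {α β : (MvPolynomial (Fin 5) K)} (h : io K r • m = α • n1 + β • n2) :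
    ∃ α' β' : (MvPolynomial (Fin 5) K), m = α' • n1 + β' • n2 := by
  obtain ⟨u, P, hu, hP, _, hD⟩ := exists_monic L.hom L.coe
  obtain ⟨γ, δ, hm⟩ := L.den m
  have h1 : (D * α - io K r * γ) • n1 + (D * β - io K r * δ) • n2 = 0 := by
    have h2 : D • (io K r • m) = io K r • (D • m) := smul_comm _ _ _
    rw [h, hm, smul_add, smul_add, ← mul_smul, ← mul_smul, ← mul_smul, ← mul_smul] at h2
    rw [sub_smul, sub_smul, sub_add_sub_comm, h2, sub_self]
  obtain ⟨h2, h3⟩ := L.ind _ _ h1
  obtain ⟨α', _, hα⟩ := reg hu hP hD (a := r) (b := 0) (h := α) (α := γ) (β := 0) (by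
    rw [sub_eq_zero.mp h2]; simp)
  obtain ⟨β', _, hβ⟩ := reg hu hP hD (a := r) (b := 0) (h := β) (α := δ) (β := 0) (by
    rw [sub_eq_zero.mp h3]; simp)
  refine ⟨α', β', ?_⟩
  have h4 : io K r • (m - (α' • n1 + β' • n2)) = 0 := by
    rw [smul_sub, h, smul_add, ← mul_smul, ← mul_smul, hα, hβ]
    simp
  rcases tf _ _ h4 with h5 | h5
  · exact absurd (io_inj h5) hr
  · exact sub_eq_zero.mp h5

lemma Loc.hartogs {n1 n2 : M} {n : ℕ} {D : (MvPolynomial (Fin 5) K)} (L : Loc N n1 n2 n D)
    (ht : ∀ a b : (MvPolynomial (Fin 5) K), IsRelPrime a b → ∀ m n : M, a • m = b • n → ∃ k, m = b • k)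
    {a b : (MvPolynomial (Fin 4) K)} (hab : IsRelPrime a b) {m m' : M} {α β : (MvPolynomial (Fin 5) K)}
    (h : io K a • m - io K b • m' = α • n1 + β • n2) :
    ∃ (k : M) (α' β' : (MvPolynomial (Fin 5) K)), m - io K b • k = α' • n1 + β' • n2 := by
  obtain ⟨u, P, hu, hP, _, hD⟩ := exists_monic L.hom L.coe
  obtain ⟨γ, δ, hm⟩ := L.den m
  obtain ⟨γ', δ', hm'⟩ := L.den m'
  have h1 : (D * α - (io K a * γ - io K b * γ')) • n1 +
      (D * β - (io K a * δ - io K b * δ')) • n2 = 0 := by
    have h2 : D • (io K a • m - io K b • m') = io K a • (D • m) - io K b • (D • m') := by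
      rw [smul_sub, smul_comm D, smul_comm D]
    rw [h, hm, hm'] at h2
    simp only [smul_add, ← mul_smul] at h2
    rw [sub_smul, sub_smul, sub_smul, sub_smul, sub_add_sub_comm, h2]
    abel
  obtain ⟨h2, h3⟩ := L.ind _ _ h1
  obtain ⟨α₁, α₂, hα⟩ := reg hu hP hD (a := a) (b := b) (h := α) (α := γ) (β := -γ') (by
    rw [sub_eq_zero.mp h2]; ring)
  obtain ⟨β₁, β₂, hβ⟩ := reg hu hP hD (a := a) (b := b) (h := β) (α := δ) (β := -δ') (by
    rw [sub_eq_zero.mp h3]; ring)
  obtain ⟨k, hk⟩ := ht (io K a) (io K b) (relPrime_io hab) (m - (α₁ • n1 + β₁ • n2))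
    (m' + (α₂ • n1 + β₂ • n2)) (by
      have h4 : io K a • m = io K b • m' + (α • n1 + β • n2) := by rw [← h]; abel
      rw [smul_sub, h4, hα, hβ]
      simp only [smul_add, add_smul, mul_smul]
      abel)
  refine ⟨k, α₁, β₁, ?_⟩
  rw [← hk]
  abel

end loc

end Pool.Agent.Lib.MP_745d3a_ag.Hom
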