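import Pool.Agent.Lib.MP_745d3a_ag.PFFin

/-!
Rank two bundles on projective four-space which are invariant under a homology of order `N`:
definitions.
-/

set_option autoImplicit false

open MvPolynomial

namespace Pool.Agent.Lib.MP_745d3a_ag.Hom

/-- The weights: total degree, and class modulo `N` of the exponent of `x_0`. -/
def om (N : ℕ) : Fin 5 → ℤ × ZMod N := fun i => (1, if i = 0 then 1 else 0)

section hs

variable {K V : Type*} [Field K] [AddCommGroup V] [Module K V]

/-- Stable families of subspaces. -/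
def Stab {n : ℕ} (X : Fin n → V →ₗ[K] V) (C : ℤ → Submodule K V) : Prop :=
  ∀ i k, ∀ v ∈ C k, X i v ∈ C (k + 1)

/-- The ascending chain condition for stable families between `B` and `A`. -/
def Acc {n : ℕ} (X : Fin n → V →ₗ[K] V) (B A : ℤ → Submodule K V) : Prop :=
  ∀ C : ℕ → ℤ → Submodule K V, (∀ m k, C m k ≤ C (m + 1) k) →
    (∀ m, (∀ k, B k ≤ C m k) ∧ (∀ k, C m k ≤ A k) ∧ Stab X (C m)) →
    ∃ m, ∀ m', m ≤ m' → ∀ k, C m' k = C m k

/-- The dimension of the quotient. -/
noncomputable def qd (B A : ℤ → Submodule K V) (k : ℤ) : ℤ :=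
  (Module.finrank K (A k) : ℤ) - (Module.finrank K (B k) : ℤ)

end hs

/-- The backward difference. -/
def nab (f : ℤ → ℤ) : ℤ → ℤ := fun k => f k - f (k - 1)

end Pool.Agent.Lib.MP_745d3a_ag.Hom
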