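import Pool.Agent.Lib.MP_745d3a_ag.HomHS

/-!
Difference calculus for Hilbert functions.
-/

set_option autoImplicit false

open Finset

namespace Pool.Agent.Lib.MP_745d3a_ag.Hom

section diff

lemma growth_aux (ψ : ℤ → ℤ) (k₀ : ℤ) (h : ∀ k, k₀ ≤ k → nab ψ k ≤ -1) :
    ∃ k₁, ∀ k, k₁ ≤ k → ψ k ≤ -1 := by
  have key : ∀ n : ℕ, ψ (k₀ + n) ≤ ψ k₀ - n := by
    intro n
    induction n with
    | zero => simp
    | succ n ih =>
      have h1 := h (k₀ + (n + 1 : ℕ)) (by push_cast; omega)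
      simp only [nab] at h1
      rw [show k₀ + ((n + 1 : ℕ) : ℤ) - 1 = k₀ + n by push_cast; ring] at h1
      push_cast at h1 ⊢
      linarith
  refine ⟨k₀ + |ψ k₀| + 1, fun k hk => ?_⟩
  have h0 := abs_nonneg (ψ k₀)
  have h1 := key (k - k₀).toNat
  have h2 : ((k - k₀).toNat : ℤ) = k - k₀ := Int.toNat_of_nonneg (by linarith)
  rw [h2, add_sub_cancel] at h1
  have h3 := le_abs_self (ψ k₀)
  linarith

/-- A function which is nonnegative cannot have a negative third difference. -/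
lemma growth (φ : ℤ → ℤ) (s k₀ k₁ : ℤ) (h0 : ∀ k, k₀ ≤ k → 0 ≤ φ k)
    (h1 : ∀ k, k₁ ≤ k → nab^[3] φ k = s) : 0 ≤ s := by
  by_contra hs
  obtain ⟨a, ha⟩ := growth_aux (nab^[2] φ) k₁ (fun k hk => by
    have := h1 k hk
    rw [Function.iterate_succ_apply'] at this
    rw [this]; omega)
  obtain ⟨b, hb⟩ := growth_aux (nab^[1] φ) a (fun k hk => by
    have := ha k hk
    rwa [Function.iterate_succ_apply'] at this)
  obtain ⟨c, hc⟩ := growth_aux φ b (fun k hk => hb k hk)
  have h2 := hc (max c k₀) (le_max_left _ _)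
  have h3 := h0 (max c k₀) (le_max_right _ _)
  omega

/-- Sums of shifted sequences. -/
lemma sum_shift (q φ : ℤ → ℤ) (A : ℤ) (hq : ∀ k, k < A → q k = 0) (N m : ℕ) :
    ∑ n ∈ range (m + N), φ (A + n) * q (A + n - N) =
      ∑ n ∈ range m, φ (A + n + N) * q (A + n) := by
  induction m with
  | zero =>
    rw [zero_add, sum_range_zero]
    refine sum_eq_zero fun n hn => ?_
    rw [hq _ (by have := mem_range.mp hn; omega), mul_zero]
  | succ m ih =>
    rw [show m + 1 + N = (m + N) + 1 by ring, sum_range_succ, ih, sum_range_succ]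
    congr 2
    · congr 1; push_cast; ring
    · congr 1; push_cast; ring

lemma sum_delta (φ : ℤ → ℤ) (A d : ℤ) (m : ℕ) (h1 : A ≤ d) (h2 : d < A + m) :
    ∑ n ∈ range m, φ (A + n) * (if A + (n : ℤ) = d then 1 else 0) = φ d := by
  have h3 : A + ((d - A).toNat : ℤ) = d := by
    rw [Int.toNat_of_nonneg (by linarith)]; ring
  rw [sum_eq_single (d - A).toNat]
  · rw [h3, if_pos rfl, mul_one]
  · intro n _ hn
    rw [if_neg, mul_zero]
    intro h
    apply hn
    have : (n : ℤ) = d - A := by linarith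
    omega
  · intro h
    exfalso
    apply h
    rw [mem_range]
    omega

/-- Moments of the fifth difference. -/
lemma moments (h : ℤ → ℤ) (A : ℤ) (hA : ∀ k, k < A → h k = 0) (m : ℕ) :
    (∑ n ∈ range m, nab^[5] h (A + n) =
      nab^[4] h (A + m - 1)) ∧
    (∑ n ∈ range m, (A + n) * nab^[5] h (A + n) =
      (A + m - 1) * nab^[4] h (A + m - 1) - nab^[3] h (A + m - 2)) ∧
    (∑ n ∈ range m, (A + n) ^ 2 * nab^[5] h (A + n) =
      (A + m - 1) ^ 2 * nab^[4] h (A + m - 1) - (2 * (A + m) - 3) * nab^[3] h (A + m - 2) +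
        2 * nab^[2] h (A + m - 3)) := by
  induction m with
  | zero =>
    have e : ∀ i : ℤ, 0 < i → h (A - i) = 0 := fun i hi => hA _ (by linarith)
    simp only [range_zero, sum_empty, Nat.cast_zero, add_zero, Function.iterate_succ,
      Function.iterate_zero, Function.comp, nab, id]
    have h1 := hA (A - 1) (by linarith)
    have h2 := hA (A - 1 - 1) (by linarith)
    have h3 := hA (A - 1 - 1 - 1) (by linarith)
    have h4 := hA (A - 1 - 1 - 1 - 1) (by linarith)
    have h5 := hA (A - 1 - 1 - 1 - 1 - 1) (by linarith)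
    have h6 := hA (A - 2) (by linarith)
    have h7 := hA (A - 2 - 1) (by linarith)
    have h8 := hA (A - 2 - 1 - 1) (by linarith)
    have h9 := hA (A - 2 - 1 - 1 - 1) (by linarith)
    have h10 := hA (A - 3) (by linarith)
    have h11 := hA (A - 3 - 1) (by linarith)
    have h12 := hA (A - 3 - 1 - 1) (by linarith)
    rw [h1, h2, h3, h4, h5, h6, h7, h8, h9, h10, h11, h12]
    refine ⟨by ring, by ring, by ring⟩
  | succ m ih =>
    obtain ⟨i0, i1, i2⟩ := ih
    have e4 : nab^[5] h (A + m) = nab^[4] h (A + m) - nab^[4] h (A + m - 1) := by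
      rw [Function.iterate_succ_apply']; rfl
    have e3 : nab^[4] h (A + m - 1) = nab^[3] h (A + m - 1) - nab^[3] h (A + m - 2) := by
      rw [Function.iterate_succ_apply']
      show _ - _ = _
      rw [show A + (m : ℤ) - 1 - 1 = A + m - 2 by ring]
    have e2 : nab^[3] h (A + m - 2) = nab^[2] h (A + m - 2) - nab^[2] h (A + m - 3) := by
      rw [Function.iterate_succ_apply']
      show _ - _ = _
      rw [show A + (m : ℤ) - 2 - 1 = A + m - 3 by ring]
    rw [sum_range_succ, sum_range_succ, sum_range_succ, i0, i1, i2]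
    push_cast
    rw [show A + ((m : ℤ) + 1) - 1 = A + m by ring, show A + ((m : ℤ) + 1) - 2 = A + m - 1 by ring,
      show A + ((m : ℤ) + 1) - 3 = A + m - 2 by ring, e4]
    refine ⟨by ring, ?_, ?_⟩
    · rw [e3]; ring
    · rw [e3, e2]; ring

/-- Higher moments of the fifth difference. -/
lemma moments34 (h : ℤ → ℤ) (A : ℤ) (hA : ∀ k, k < A → h k = 0) (m : ℕ) :
    (∑ n ∈ range m, (A + n) ^ 3 * nab^[5] h (A + n) =
      (A + m - 1) ^ 3 * nab^[4] h (A + m - 1) -
        ((A + m - 1) ^ 3 - (A + m - 2) ^ 3) * nab^[3] h (A + m - 2) +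
        6 * (A + m - 2) * nab^[2] h (A + m - 3) - 6 * nab^[1] h (A + m - 4)) ∧
    (∑ n ∈ range m, (A + n) ^ 4 * nab^[5] h (A + n) =
      (A + m - 1) ^ 4 * nab^[4] h (A + m - 1) -
        ((A + m - 1) ^ 4 - (A + m - 2) ^ 4) * nab^[3] h (A + m - 2) +
        (12 * (A + m - 2) ^ 2 + 2) * nab^[2] h (A + m - 3) -
        (24 * (A + m - 2) - 12) * nab^[1] h (A + m - 4) + 24 * h (A + m - 5)) := by
  induction m with
  | zero =>
    simp only [range_zero, sum_empty, Nat.cast_zero, add_zero, Function.iterate_succ,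
      Function.iterate_zero, Function.comp, nab, id]
    have h1 := hA (A - 1) (by linarith)
    have h2 := hA (A - 1 - 1) (by linarith)
    have h3 := hA (A - 1 - 1 - 1) (by linarith)
    have h4 := hA (A - 1 - 1 - 1 - 1) (by linarith)
    have h5 := hA (A - 1 - 1 - 1 - 1 - 1) (by linarith)
    have h6 := hA (A - 2) (by linarith)
    have h7 := hA (A - 2 - 1) (by linarith)
    have h8 := hA (A - 2 - 1 - 1) (by linarith)
    have h9 := hA (A - 2 - 1 - 1 - 1) (by linarith)
    have h10 := hA (A - 3) (by linarith)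
    have h11 := hA (A - 3 - 1) (by linarith)
    have h12 := hA (A - 3 - 1 - 1) (by linarith)
    have h13 := hA (A - 4) (by linarith)
    have h14 := hA (A - 4 - 1) (by linarith)
    have h15 := hA (A - 5) (by linarith)
    rw [h1, h2, h3, h4, h5, h6, h7, h8, h9, h10, h11, h12, h13, h14, h15]
    refine ⟨by ring, by ring⟩
  | succ m ih =>
    obtain ⟨i3, i4⟩ := ih
    have e4 : nab^[5] h (A + m) = nab^[4] h (A + m) - nab^[4] h (A + m - 1) := by
      rw [Function.iterate_succ_apply']; rfl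
    have e3 : nab^[4] h (A + m - 1) = nab^[3] h (A + m - 1) - nab^[3] h (A + m - 2) := by
      rw [Function.iterate_succ_apply']
      show _ - _ = _
      rw [show A + (m : ℤ) - 1 - 1 = A + m - 2 by ring]
    have e2 : nab^[3] h (A + m - 2) = nab^[2] h (A + m - 2) - nab^[2] h (A + m - 3) := by
      rw [Function.iterate_succ_apply']
      show _ - _ = _
      rw [show A + (m : ℤ) - 2 - 1 = A + m - 3 by ring]
    have e1 : nab^[2] h (A + m - 3) = nab^[1] h (A + m - 3) - nab^[1] h (A + m - 4) := by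
      rw [Function.iterate_succ_apply']
      show _ - _ = _
      rw [show A + (m : ℤ) - 3 - 1 = A + m - 4 by ring]
    have e0 : nab^[1] h (A + m - 4) = h (A + m - 4) - h (A + m - 5) := by
      show _ - _ = _
      rw [show A + (m : ℤ) - 4 - 1 = A + m - 5 by ring]
    rw [sum_range_succ, sum_range_succ, i3, i4]
    push_cast
    rw [show A + ((m : ℤ) + 1) - 1 = A + m by ring, show A + ((m : ℤ) + 1) - 2 = A + m - 1 by ring,
      show A + ((m : ℤ) + 1) - 3 = A + m - 2 by ring, show A + ((m : ℤ) + 1) - 4 = A + m - 3 by ring,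
      show A + ((m : ℤ) + 1) - 5 = A + m - 4 by ring, e4]
    refine ⟨?_, ?_⟩
    · rw [e3, e2, e1]; ring
    · rw [e3, e2, e1, e0]; ring

/-- The Hilbert polynomial, times `24`, of a bundle of rank two with Chern numbers `c1`, `c2`. -/
def rr (c1 c2 k : ℤ) : ℤ :=
  2 * k ^ 4 + (4 * c1 + 20) * k ^ 3 + (6 * (c1 ^ 2 - 2 * c2) + 30 * c1 + 70) * k ^ 2 +
  (4 * (c1 ^ 3 - 3 * c1 * c2) + 30 * (c1 ^ 2 - 2 * c2) + 70 * c1 + 100) * k +
  ((c1 ^ 4 - 4 * c1 ^ 2 * c2 + 2 * c2 ^ 2) + 10 * (c1 ^ 3 - 3 * c1 * c2) +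
    35 * (c1 ^ 2 - 2 * c2) + 50 * c1 + 48)

/-- The moments for a function with the Hilbert polynomial of a bundle of rank two. -/
lemma hilb_moments (h : ℤ → ℤ) (A B c1 c2 : ℤ) (hA : ∀ k, k < A → h k = 0)
    (hB : ∀ k, B ≤ k → 24 * h k = rr c1 c2 k) (m : ℕ) (hm : B + 5 ≤ A + m) :
    (∑ n ∈ range m, (A + n) * nab^[5] h (A + n) = -c1) ∧
    (∑ n ∈ range m, (A + n) ^ 2 * nab^[5] h (A + n) = c1 ^ 2 - 2 * c2) ∧
    (∑ n ∈ range m, (A + n) ^ 3 * nab^[5] h (A + n) = -(c1 ^ 3 - 3 * c1 * c2)) ∧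
    (∑ n ∈ range m, (A + n) ^ 4 * nab^[5] h (A + n) =
      c1 ^ 4 - 4 * c1 ^ 2 * c2 + 2 * c2 ^ 2) := by
  obtain ⟨-, i1, i2⟩ := moments h A hA m
  obtain ⟨i3, i4⟩ := moments34 h A hA m
  rw [i1, i2, i3, i4]
  set L : ℤ := A + m with hL
  have h1 := hB (L - 1) (by linarith)
  have h2 := hB (L - 2) (by linarith)
  have h3 := hB (L - 3) (by linarith)
  have h4 := hB (L - 4) (by linarith)
  have h5 := hB (L - 5) (by linarith)
  simp only [rr] at h1 h2 h3 h4 h5
  have e4 : nab^[4] h (L - 1) = h (L - 1) - 4 * h (L - 2) + 6 * h (L - 3) - 4 * h (L - 4) +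
      h (L - 5) := by
    simp only [Function.iterate_succ, Function.iterate_zero, Function.comp, nab, id]
    rw [show L - 1 - 1 - 1 - 1 - 1 = L - 5 by ring, show L - 1 - 1 - 1 - 1 = L - 4 by ring,
      show L - 1 - 1 - 1 = L - 3 by ring, show L - 1 - 1 = L - 2 by ring]
    ring
  have e3 : nab^[3] h (L - 2) = h (L - 2) - 3 * h (L - 3) + 3 * h (L - 4) - h (L - 5) := by
    simp only [Function.iterate_succ, Function.iterate_zero, Function.comp, nab, id]
    rw [show L - 2 - 1 - 1 - 1 = L - 5 by ring, show L - 2 - 1 - 1 = L - 4 by ring,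
      show L - 2 - 1 = L - 3 by ring]
    ring
  have e2 : nab^[2] h (L - 3) = h (L - 3) - 2 * h (L - 4) + h (L - 5) := by
    simp only [Function.iterate_succ, Function.iterate_zero, Function.comp, nab, id]
    rw [show L - 3 - 1 - 1 = L - 5 by ring, show L - 3 - 1 = L - 4 by ring]
    ring
  have e1 : nab^[1] h (L - 4) = h (L - 4) - h (L - 5) := by
    simp only [Function.iterate_succ, Function.iterate_zero, Function.comp, nab, id]
    rw [show L - 4 - 1 = L - 5 by ring]
  rw [e4, e3, e2, e1]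
  refine ⟨?_, ?_, ?_, ?_⟩
  · refine mul_left_cancel₀ (show (24 : ℤ) ≠ 0 by norm_num) ?_
    linear_combination (L - 1) * (h1 - 4 * h2 + 6 * h3 - 4 * h4 + h5) -
      (h2 - 3 * h3 + 3 * h4 - h5)
  · refine mul_left_cancel₀ (show (24 : ℤ) ≠ 0 by norm_num) ?_
    linear_combination (L - 1) ^ 2 * (h1 - 4 * h2 + 6 * h3 - 4 * h4 + h5) -
      (2 * L - 3) * (h2 - 3 * h3 + 3 * h4 - h5) + 2 * (h3 - 2 * h4 + h5)
  · refine mul_left_cancel₀ (show (24 : ℤ) ≠ 0 by norm_num) ?_
    linear_combination (L - 1) ^ 3 * (h1 - 4 * h2 + 6 * h3 - 4 * h4 + h5) -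
      ((L - 1) ^ 3 - (L - 2) ^ 3) * (h2 - 3 * h3 + 3 * h4 - h5) +
      6 * (L - 2) * (h3 - 2 * h4 + h5) - 6 * (h4 - h5)
  · refine mul_left_cancel₀ (show (24 : ℤ) ≠ 0 by norm_num) ?_
    linear_combination (L - 1) ^ 4 * (h1 - 4 * h2 + 6 * h3 - 4 * h4 + h5) -
      ((L - 1) ^ 4 - (L - 2) ^ 4) * (h2 - 3 * h3 + 3 * h4 - h5) +
      (12 * (L - 2) ^ 2 + 2) * (h3 - 2 * h4 + h5) - (24 * (L - 2) - 12) * (h4 - h5) + 24 * h5

/-- The numerical data attached to a bundle invariant under a homology of order `N`. -/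
structure Num (N : ℕ) (c1 c2 d1 d2 r : ℤ) (q : ℤ →₀ ℤ) : Prop where
  q0 : (q.sum fun _ x => x) = r
  e1 : -c1 = d1 + d2 - N * r
  e2 : c1 ^ 2 - 2 * c2 = d1 ^ 2 + d2 ^ 2 - 2 * N * (q.sum fun k x => k * x) - N ^ 2 * r
  e3 : -(c1 ^ 3 - 3 * c1 * c2) = d1 ^ 3 + d2 ^ 3 - 3 * N * (q.sum fun k x => k ^ 2 * x) -
    3 * N ^ 2 * (q.sum fun k x => k * x) - N ^ 3 * r
  e4 : c1 ^ 4 - 4 * c1 ^ 2 * c2 + 2 * c2 ^ 2 = d1 ^ 4 + d2 ^ 4 -
    4 * N * (q.sum fun k x => k ^ 3 * x) - 6 * N ^ 2 * (q.sum fun k x => k ^ 2 * x) -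
    4 * N ^ 3 * (q.sum fun k x => k * x) - N ^ 4 * r

/-- The numerical consequences of the structure of the Hilbert function. -/
theorem arith (h g : ℤ → ℤ) (N : ℕ) (A B c1 c2 d1 d2 r : ℤ) (hA : ∀ k, k < A → h k = 0)
    (hB : ∀ k, B ≤ k → 24 * h k = rr c1 c2 k)
    (gA : ∀ k, k < A → g k = 0) (gB : ∀ k, B ≤ k → nab^[4] g k = 0)
    (gr : ∀ k, B ≤ k → nab^[3] g k = r) (hd1 : A ≤ d1) (hd2 : A ≤ d2)
    (hp : ∀ k, nab^[5] h k = (if k = d1 then 1 else 0) + (if k = d2 then 1 else 0) +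
      nab^[4] g k - nab^[4] g (k - N)) :
    ∃ q : ℤ →₀ ℤ, (∀ k, q k = nab^[4] g k) ∧ Num N c1 c2 d1 d2 r q := by
  set q : ℤ → ℤ := nab^[4] g with hq
  -- a large number
  obtain ⟨m, hm⟩ : ∃ m : ℕ, B + 5 ≤ A + m ∧ d1 < A + m ∧ d2 < A + m := by
    refine ⟨(B + 5 - A).toNat + (d1 - A).toNat + (d2 - A).toNat + 1, ?_, ?_, ?_⟩ <;> omega
  obtain ⟨hm1, hm2, hm3⟩ := hm
  have qA : ∀ k, k < A → q k = 0 := by
    intro k hk
    rw [hq]
    simp only [Function.iterate_succ, Function.iterate_zero, Function.comp, nab, id]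
    rw [gA _ hk, gA (k - 1) (by linarith), gA (k - 1 - 1) (by linarith),
      gA (k - 1 - 1 - 1) (by linarith), gA (k - 1 - 1 - 1 - 1) (by linarith)]
    ring
  have key : ∀ φ : ℤ → ℤ, ∑ n ∈ range (m + N), φ (A + n) * nab^[5] h (A + n) =
      φ d1 + φ d2 + ∑ n ∈ range m, (φ (A + n) - φ (A + n + N)) * q (A + n) := by
    intro φ
    have h1 : ∑ n ∈ range (m + N), φ (A + n) * q (A + n) = ∑ n ∈ range m, φ (A + n) * q (A + n) := by
      rw [sum_range_add]
      have h2 : ∑ x ∈ range N, φ (A + ((m + x : ℕ) : ℤ)) * q (A + ((m + x : ℕ) : ℤ)) = 0 := by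
        refine sum_eq_zero fun x _ => ?_
        have h3 := gB (A + ((m + x : ℕ) : ℤ)) (by push_cast; linarith)
        rw [h3, mul_zero]
      rw [h2, add_zero]
    have h2 := sum_shift q φ A qA N m
    have h3 := sum_delta φ A d1 (m + N) hd1 (by push_cast; linarith)
    have h4 := sum_delta φ A d2 (m + N) hd2 (by push_cast; linarith)
    have h5 : ∑ n ∈ range (m + N), φ (A + n) * nab^[5] h (A + n) =
        ∑ n ∈ range (m + N), φ (A + n) * (if A + (n : ℤ) = d1 then 1 else 0) +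
        ∑ n ∈ range (m + N), φ (A + n) * (if A + (n : ℤ) = d2 then 1 else 0) +
        ∑ n ∈ range (m + N), φ (A + n) * q (A + n) -
        ∑ n ∈ range (m + N), φ (A + n) * q (A + n - N) := by
      rw [← sum_add_distrib, ← sum_add_distrib, ← sum_sub_distrib]
      refine sum_congr rfl fun n _ => ?_
      rw [hp]; ring
    rw [h5, h3, h4, h1, h2]
    simp only [sub_mul, sum_sub_distrib]
    ring
  obtain ⟨i1, i2, i3, i4⟩ := hilb_moments h A B c1 c2 hA hB (m + N) (by push_cast; linarith)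
  -- the finitely supported function
  let Q : ℤ →₀ ℤ := Finsupp.onFinset ((range m).image fun n : ℕ => A + (n : ℤ)) q (by
    intro k hk
    rw [mem_image]
    refine ⟨(k - A).toNat, ?_, ?_⟩
    · rw [mem_range]
      have h1 : A ≤ k := by
        by_contra h; exact hk (qA k (by omega))
      have h2 : k < B := by
        by_contra h; exact hk (gB k (by omega))
      omega
    · have h1 : A ≤ k := by
        by_contra h; exact hk (qA k (by omega))
      rw [Int.toNat_of_nonneg (by linarith)]; ring)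
  have hQ : ∀ φ : ℤ → ℤ, (Q.sum fun k x => φ k * x) = ∑ n ∈ range m, φ (A + n) * q (A + n) := by
    intro φ
    rw [Finsupp.onFinset_sum _ (by intro k; rw [mul_zero]), sum_image]
    intro a _ b _ hab
    simpa using hab
  have hQ0 := hQ (fun _ => 1)
  have hQ1 := hQ (fun k => k)
  have hQ2 := hQ (fun k => k ^ 2)
  have hQ3 := hQ (fun k => k ^ 3)
  simp only [one_mul] at hQ0
  -- the sum of `q`
  have hr : ∑ n ∈ range m, q (A + n) = r := by
    have h1 : ∀ j : ℕ, ∑ n ∈ range j, q (A + n) = nab^[3] g (A + j - 1) := by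
      intro j
      induction j with
      | zero =>
        simp only [range_zero, sum_empty, Nat.cast_zero, add_zero, Function.iterate_succ,
          Function.iterate_zero, Function.comp, nab, id]
        rw [gA (A - 1) (by linarith), gA (A - 1 - 1) (by linarith),
          gA (A - 1 - 1 - 1) (by linarith), gA (A - 1 - 1 - 1 - 1) (by linarith)]
        ring
      | succ j ih =>
        rw [sum_range_succ, ih, hq, Function.iterate_succ_apply' nab 3]
        push_cast
        rw [show A + ((j : ℤ) + 1) - 1 = A + j by ring]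
        show _ + (_ - _) = _
        ring
    rw [h1]
    exact gr _ (by linarith)
  have k1 := key (fun k => k)
  have k2 := key (fun k => k ^ 2)
  have k3 := key (fun k => k ^ 3)
  have k4 := key (fun k => k ^ 4)
  rw [i1] at k1
  rw [i2] at k2
  rw [i3] at k3
  rw [i4] at k4
  refine ⟨Q, fun k => rfl, by rw [hQ0, hr], ?_, ?_, ?_, ?_⟩
  · rw [k1, ← hr, mul_sum, sub_eq_add_neg, ← sum_neg_distrib]
    congr 1
    refine sum_congr rfl fun n _ => ?_
    ring
  · rw [k2, ← hr, hQ1, mul_sum, mul_sum, sub_sub, sub_eq_add_neg, ← sum_add_distrib,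
      ← sum_neg_distrib]
    congr 1
    refine sum_congr rfl fun n _ => ?_
    ring
  · rw [k3, ← hr, hQ1, hQ2, mul_sum, mul_sum, mul_sum, sub_sub, sub_sub, sub_eq_add_neg,
      ← sum_add_distrib, ← sum_add_distrib, ← sum_neg_distrib]
    congr 1
    refine sum_congr rfl fun n _ => ?_
    ring
  · rw [k4, ← hr, hQ1, hQ2, hQ3, mul_sum, mul_sum, mul_sum, mul_sum, sub_sub, sub_sub, sub_sub,
      sub_eq_add_neg, ← sum_add_distrib, ← sum_add_distrib, ← sum_add_distrib,
      ← sum_neg_distrib]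
    congr 1
    refine sum_congr rfl fun n _ => ?_
    ring

end diff

end Pool.Agent.Lib.MP_745d3a_ag.Hom
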