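import Pool.Agent.Lib.MP_745d3a_ag.HomD

/-!
Finiteness of the quotient, the chain condition, and the case of a quotient of rank at most one.
-/

set_option autoImplicit false

open MvPolynomial

namespace Pool.Agent.Lib.MP_745d3a_ag.Hom

open Pool.Agent.Lib.MP_745d3a_ag PF

section expansion

variable {K : Type*} [Field K]

lemma monic_expansion {R : Type*} [CommRing R] {P : Polynomial R} (hP : P.Monic) :
    P = ∑ i ∈ Finset.range P.natDegree, Polynomial.C (P.coeff i) * Polynomial.X ^ i +
        Polynomial.X ^ P.natDegree := by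
  conv_lhs => rw [P.as_sum_range_C_mul_X_pow, Finset.sum_range_succ, hP.coeff_natDegree,
    Polynomial.C_1, one_mul]

lemma exists_expansion {N : ℕ} {D : MvPolynomial (Fin 5) K} {n : ℕ}
    (hD : IsWeightedHomogeneous (om N) D ((n : ℤ), (n : ZMod N)))
    (hc : coeff (Finsupp.single 0 n) D ≠ 0) :
    ∃ (u : K) (q : ℕ → MvPolynomial (Fin 4) K), u ≠ 0 ∧
      D = ∑ i ∈ Finset.range n, io K (q i) * X 0 ^ i + io K (C u) * X 0 ^ n := by
  obtain ⟨u, P, hu, hP, hPn, hD'⟩ := exists_monic hD hc
  refine ⟨u, fun i => C u * P.coeff i, hu, ?_⟩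
  apply (finSuccEquiv K 4).injective
  have h2 := monic_expansion hP
  rw [hPn] at h2
  rw [hD', map_add, map_sum]
  have h3 : ∀ i, finSuccEquiv K 4 (io K (C u * P.coeff i) * X 0 ^ i) =
      Polynomial.C (C u) * (Polynomial.C (P.coeff i) * Polynomial.X ^ i) := by
    intro i
    rw [map_mul, map_pow, fse_io, finSuccEquiv_X_zero, Polynomial.C_mul, mul_assoc]
  rw [Finset.sum_congr rfl fun i _ => h3 i, map_mul, map_pow, fse_io, finSuccEquiv_X_zero,
    ← Finset.mul_sum, ← mul_add, ← h2]

end expansion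

section fin

variable {K M : Type*} [Field K] {N : ℕ} [AddCommGroup M] [Module (MvPolynomial (Fin 5) K) M]
  [Module (MvPolynomial (Fin 4) K) M]

/-- The quotient is a finite module over the polynomial ring in the last four variables. -/
theorem finite_quot (hR : ∀ (r : (MvPolynomial (Fin 4) K)) (m : M), r • m = io K r • m) [Module.Finite (MvPolynomial (Fin 5) K) M]
    {n1 n2 : M} {n : ℕ} {D : (MvPolynomial (Fin 5) K)} (L : Loc N n1 n2 n D) (F : Submodule (MvPolynomial (Fin 4) K) M)
    (hF : ∀ m, m ∈ F ↔ ∃ a b : (MvPolynomial (Fin 5) K), m = a • n1 + b • n2) : Module.Finite (MvPolynomial (Fin 4) K) (M ⧸ F) := by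
  classical
  obtain ⟨u, q, hu, hDs⟩ := exists_expansion L.hom L.coe
  obtain ⟨G, hG⟩ := Module.Finite.fg_top (R := (MvPolynomial (Fin 5) K)) (M := M)
  have hFS : ∀ (s : (MvPolynomial (Fin 5) K)) (m : M), m ∈ F → s • m ∈ F := by
    intro s m hm
    rw [hF] at hm ⊢
    obtain ⟨a, b, rfl⟩ := hm
    exact ⟨s * a, s * b, by rw [smul_add, mul_smul, mul_smul]⟩
  set T : Finset M := (Finset.range n ×ˢ G).image (fun x => (X 0 : (MvPolynomial (Fin 5) K)) ^ x.1 • x.2) with hT
  set W : Submodule (MvPolynomial (Fin 4) K) M := Submodule.span (MvPolynomial (Fin 4) K) (T : Set M) ⊔ F with hW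
  have hpow : ∀ g ∈ G, ∀ i : ℕ, (X 0 : (MvPolynomial (Fin 5) K)) ^ i • g ∈ W := by
    intro g hg i
    induction i using Nat.strong_induction_on with
    | _ i ih =>
      by_cases hi : i < n
      · refine Submodule.mem_sup_left (Submodule.subset_span ?_)
        rw [hT, Finset.mem_coe, Finset.mem_image]
        exact ⟨(i, g), Finset.mem_product.mpr ⟨Finset.mem_range.mpr hi, hg⟩, rfl⟩
      · push Not at hi
        have h1 : (C u : (MvPolynomial (Fin 4) K)) • ((X 0 : (MvPolynomial (Fin 5) K)) ^ i • g) ∈ W := by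
          have h2 : (C u : (MvPolynomial (Fin 4) K)) • ((X 0 : (MvPolynomial (Fin 5) K)) ^ i • g) = (X 0 : (MvPolynomial (Fin 5) K)) ^ (i - n) • (D • g) -
              ∑ j ∈ Finset.range n, q j • ((X 0 : (MvPolynomial (Fin 5) K)) ^ (i - n + j) • g) := by
            rw [hR]
            simp only [hR]
            rw [eq_sub_iff_add_eq, ← mul_smul, ← mul_smul]
            have h3 : ∑ j ∈ Finset.range n, io K (q j) • (X 0 : (MvPolynomial (Fin 5) K)) ^ (i - n + j) • g =
                (∑ j ∈ Finset.range n, io K (q j) * (X 0 : (MvPolynomial (Fin 5) K)) ^ (i - n + j)) • g := by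
              rw [Finset.sum_smul]
              refine Finset.sum_congr rfl fun j _ => ?_
              rw [mul_smul]
            rw [h3, ← add_smul]
            congr 1
            conv_rhs => rw [hDs]
            rw [mul_add, Finset.mul_sum, add_comm]
            congr 1
            · refine Finset.sum_congr rfl fun j _ => ?_
              rw [pow_add]; ring
            · have h5 : (X 0 : (MvPolynomial (Fin 5) K)) ^ i = X 0 ^ (i - n) * X 0 ^ n := by
                rw [← pow_add]; congr 1; omega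
              rw [h5]
              ring
          rw [h2]
          refine W.sub_mem (Submodule.mem_sup_right (hFS _ _ ?_)) (W.sum_mem fun j hj => ?_)
          · rw [hF]; exact L.den g
          · refine W.smul_mem _ (ih _ ?_)
            have := Finset.mem_range.mp hj
            omega
        have h2 := W.smul_mem (C u⁻¹ : (MvPolynomial (Fin 4) K)) h1
        rw [← mul_smul, ← C_mul, inv_mul_cancel₀ hu, C_1, one_smul] at h2
        exact h2
  have hall : ∀ g ∈ G, ∀ s : (MvPolynomial (Fin 5) K), s • g ∈ W := by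
    intro g hg s
    rw [exists_rep s, Finset.sum_smul]
    refine W.sum_mem fun i _ => ?_
    rw [mul_smul, ← hR]
    exact W.smul_mem _ (hpow g hg i)
  have htop : ∀ m : M, m ∈ W := by
    intro m
    have hm : m ∈ Submodule.span (MvPolynomial (Fin 5) K) (G : Set M) := by rw [hG]; trivial
    rw [Submodule.mem_span_finset'] at hm
    obtain ⟨f, hf⟩ := hm
    rw [← hf]
    refine W.sum_mem fun g _ => hall g g.2 _
  refine ⟨⟨T.image F.mkQ, ?_⟩⟩
  rw [eq_top_iff]
  intro y _
  obtain ⟨m, rfl⟩ := F.mkQ_surjective y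
  obtain ⟨t, ht, f, hf, rfl⟩ := Submodule.mem_sup.mp (htop m)
  rw [map_add, show F.mkQ f = 0 by simpa using hf, add_zero, Finset.coe_image,
    ← Submodule.map_span]
  exact Submodule.mem_map_of_mem ht

end fin

section acc

variable {K M : Type*} [Field K] {N : ℕ} [AddCommGroup M] [Module (MvPolynomial (Fin 5) K) M]
  [Module K M] [IsScalarTower K (MvPolynomial (Fin 5) K) M] [Module (MvPolynomial (Fin 4) K) M]
  {𝓐 : ℤ × ZMod N → AddSubgroup M} [DirectSum.Decomposition 𝓐]
  [SetLike.GradedSMul (weightedHomogeneousSubmodule K (om N)) 𝓐]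

/-- Multiplication by a variable. -/
noncomputable def mulX (K M : Type*) [Field K] [AddCommGroup M] [Module (MvPolynomial (Fin 5) K) M]
    [Module K M] [IsScalarTower K (MvPolynomial (Fin 5) K) M] (i : Fin 5) : M →ₗ[K] M where
  toFun m := (X i : MvPolynomial (Fin 5) K) • m
  map_add' _ _ := smul_add _ _ _
  map_smul' _ _ := smul_comm _ _ _

lemma om_succ (i : Fin 4) : om N i.succ = ((1 : ℤ), (0 : ZMod N)) := by
  simp [om, Fin.succ_ne_zero]

/-- **ACC.** -/
theorem acc_main (hR : ∀ (r : (MvPolynomial (Fin 4) K)) (m : M), r • m = io K r • m) [Module.Finite (MvPolynomial (Fin 5) K) M]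
    {n1 n2 : M} {n : ℕ} {D : (MvPolynomial (Fin 5) K)} (L : Loc N n1 n2 n D) {c : ZMod N} {g1 g2 : ℤ × ZMod N}
    (h1 : n1 ∈ 𝓐 g1) (h2 : n2 ∈ 𝓐 g2) (B A : ℤ → Submodule K M)
    (hA : ∀ k m, m ∈ A k ↔ m ∈ 𝓐 (k, c))
    (hB : ∀ k m, m ∈ B k ↔ m ∈ 𝓐 (k, c) ∧ ∃ a b : (MvPolynomial (Fin 5) K), m = a • n1 + b • n2) :
    Acc (fun i : Fin 4 => mulX K M i.succ) B A := by
  classical
  let F : Submodule (MvPolynomial (Fin 4) K) M :=
    { carrier := {m | ∃ a b : (MvPolynomial (Fin 5) K), m = a • n1 + b • n2}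
      add_mem' := by
        rintro x y ⟨a, b, rfl⟩ ⟨a', b', rfl⟩
        exact ⟨a + a', b + b', by rw [add_smul, add_smul]; abel⟩
      zero_mem' := ⟨0, 0, by simp⟩
      smul_mem' := by
        rintro r x ⟨a, b, rfl⟩
        exact ⟨io K r * a, io K r * b, by rw [hR, smul_add, mul_smul, mul_smul]⟩ }
  have hF : ∀ m, m ∈ F ↔ ∃ a b : (MvPolynomial (Fin 5) K), m = a • n1 + b • n2 := fun m => Iff.rfl
  have hfin : Module.Finite (MvPolynomial (Fin 4) K) (M ⧸ F) := finite_quot hR L F hF
  have hnoeth : IsNoetherian (MvPolynomial (Fin 4) K) (M ⧸ F) := isNoetherian_of_isNoetherianRing_of_finite (MvPolynomial (Fin 4) K) _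
  intro Cf hmono hC
  -- the submodules `U m`
  have hcl : ∀ m, ∀ r : (MvPolynomial (Fin 4) K), ∀ v : M, (∀ k, comp 𝓐 (k, c) v ∈ Cf m k) →
      ∀ k, comp 𝓐 (k, c) (io K r • v) ∈ Cf m k := by
    intro m r
    induction r using MvPolynomial.induction_on with
    | C a =>
      intro v hv k
      have e1 : io K (C a) = C a := by rw [io, rename_C]
      rw [e1, comp_smul_hom (om N) 𝓐 (isWeightedHomogeneous_C (om N) a), sub_zero]
      have e2 : (C a : (MvPolynomial (Fin 5) K)) • comp 𝓐 (k, c) v = a • comp 𝓐 (k, c) v := by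
        rw [← algebraMap_smul (MvPolynomial (Fin 5) K) a]; rfl
      rw [e2]
      exact (Cf m k).smul_mem _ (hv k)
    | add p q hp hq =>
      intro v hv k
      rw [map_add, add_smul, comp_add]
      exact (Cf m k).add_mem (hp v hv k) (hq v hv k)
    | mul_X p i hp =>
      intro v hv k
      have e1 : io K (p * X i) = io K p * X i.succ := by rw [map_mul, io, rename_X]
      rw [e1, mul_smul]
      refine hp _ ?_ k
      intro k
      rw [comp_smul_hom (om N) 𝓐 (isWeightedHomogeneous_X K (om N) i.succ), om_succ]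
      have e2 : ((k, c) : ℤ × ZMod N) - (1, 0) = (k - 1, c) := by simp
      rw [e2]
      have := (hC m).2.2 i (k - 1) _ (hv (k - 1))
      rwa [sub_add_cancel] at this
  let U : ℕ → Submodule (MvPolynomial (Fin 4) K) M := fun m =>
    { carrier := {v | ∀ k, comp 𝓐 (k, c) v ∈ Cf m k}
      add_mem' := fun {x y} hx hy k => by
        rw [comp_add]; exact (Cf m k).add_mem (hx k) (hy k)
      zero_mem' := fun k => by rw [comp_zero]; exact (Cf m k).zero_mem
      smul_mem' := fun r v hv => by
        show ∀ k, comp 𝓐 (k, c) (r • v) ∈ Cf m k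
        rw [hR]
        exact hcl m r v hv }
  have hU : ∀ m v, v ∈ U m ↔ ∀ k, comp 𝓐 (k, c) v ∈ Cf m k := fun _ _ => Iff.rfl
  have hFU : ∀ m, F ≤ U m := by
    intro m v hv k
    obtain ⟨a, b, rfl⟩ := hv
    refine (hC m).1 k ?_
    rw [hB]
    refine ⟨comp_mem 𝓐 _ _, ?_⟩
    rw [comp_add, comp_smul (om N) 𝓐 h1, comp_smul (om N) 𝓐 h2]
    exact ⟨_, _, rfl⟩
  have hCU : ∀ m k w, w ∈ Cf m k → w ∈ U m := by
    intro m k w hw k'
    have hwA : w ∈ 𝓐 (k, c) := (hA k w).mp ((hC m).2.1 k hw)
    by_cases hk : k = k'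
    · subst hk
      rw [comp_same 𝓐 hwA]
      exact hw
    · rw [comp_ne 𝓐 hwA (by
        intro h
        exact hk (congrArg Prod.fst h))]
      exact (Cf m k').zero_mem
  obtain ⟨m, hm⟩ := monotone_stabilizes_iff_noetherian.mpr hnoeth
    ⟨fun m => (U m).map F.mkQ, monotone_nat_of_le_succ fun m =>
      Submodule.map_mono fun v hv k => hmono m k (hv k)⟩
  have hmono' : ∀ m m', m ≤ m' → ∀ k, Cf m k ≤ Cf m' k := by
    intro m m' h k
    induction m', h using Nat.le_induction with
    | base => exact le_rfl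
    | succ m' _ ih => exact ih.trans (hmono m' k)
  refine ⟨m, fun m' hm' k => le_antisymm ?_ (hmono' m m' hm' k)⟩
  intro w hw
  have h3 : F.mkQ w ∈ (U m').map F.mkQ := Submodule.mem_map_of_mem (hCU m' k w hw)
  have h4 : (U m).map F.mkQ = (U m').map F.mkQ := hm m' hm'
  rw [← h4] at h3
  obtain ⟨w', hw', hww'⟩ := Submodule.mem_map.mp h3
  have h5 : w - w' ∈ F := by
    rw [← Submodule.ker_mkQ F, LinearMap.mem_ker, map_sub, hww', sub_self]
  have h6 : w ∈ U m := by
    have := (U m).add_mem (hFU m h5) hw'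
    rwa [sub_add_cancel] at this
  have h7 := h6 k
  rwa [comp_same 𝓐 ((hA k w).mp ((hC m').2.1 k hw))] at h7

end acc

end Pool.Agent.Lib.MP_745d3a_ag.Hom
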