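import Pool.Agent.Lib.MP_745d3a_ag.HomE

/-!
The case of a quotient of rank at most one.
-/

set_option autoImplicit false

open MvPolynomial

namespace Pool.Agent.Lib.MP_745d3a_ag.Hom

open Pool.Agent.Lib.MP_745d3a_ag PF

section cyc

variable {K M : Type*} [Field K] [CharZero K] {N : ℕ} [NeZero N] [AddCommGroup M]
  [Module (MvPolynomial (Fin 5) K) M]
  [Module K M] [IsScalarTower K (MvPolynomial (Fin 5) K) M] [Module (MvPolynomial (Fin 4) K) M]
  {𝓐 : ℤ × ZMod N → AddSubgroup M} [DirectSum.Decomposition 𝓐]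
  [SetLike.GradedSMul (weightedHomogeneousSubmodule K (om N)) 𝓐]

omit [CharZero K] [NeZero N] [Module (MvPolynomial (Fin 4) K) M] in
/-- The class projection commutes with the last four variables. -/
lemma proj_io {c : ZMod N} (T : M →ₗ[K] M)
    (hT : ∀ g, ∀ m ∈ 𝓐 g, T m = if g.2 = c then m else 0) (r : (MvPolynomial (Fin 4) K)) (m : M) :
    T (io K r • m) = io K r • T m := by
  induction r using MvPolynomial.induction_on generalizing m with
  | C a =>
    have e1 : io K (C a) = algebraMap K (MvPolynomial (Fin 5) K) a := by rw [io, rename_C]; rfl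
    rw [e1, algebraMap_smul, algebraMap_smul, map_smul]
  | add p q hp hq => rw [map_add, add_smul, map_add, hp, hq, add_smul]
  | mul_X p i hp =>
    have e1 : io K (p * X i) = io K p * X i.succ := by rw [map_mul, io, rename_X]
    have e2 : T ((X i.succ : (MvPolynomial (Fin 5) K)) • m) = (X i.succ : (MvPolynomial (Fin 5) K)) • T m := by
      refine hom_induction 𝓐 (P := fun m => T ((X i.succ : (MvPolynomial (Fin 5) K)) • m) = (X i.succ : (MvPolynomial (Fin 5) K)) • T m)
        ?_ ?_ ?_ m
      · simp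
      · intro g m hm
        rw [hT _ _ (X_smul_mem_g (om N) 𝓐 i.succ hm), hT _ _ hm]
        have h1 : (om N i.succ + g).2 = g.2 := by rw [om_succ]; simp
        rw [h1]
        split_ifs
        · rfl
        · rw [smul_zero]
      · intro m n hm hn
        rw [smul_add, map_add, hm, hn, map_add, smul_add]
    rw [e1, mul_smul, hp, e2, mul_smul]

omit [CharZero K] [NeZero N] [Module (MvPolynomial (Fin 4) K) M]
  [IsScalarTower K (MvPolynomial (Fin 5) K) M] [DirectSum.Decomposition 𝓐] in
/-- The class projection of a multiple of a homogeneous element is a multiple. -/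
lemma proj_smul {c : ZMod N} (T : M →ₗ[K] M)
    (hT : ∀ g, ∀ m ∈ 𝓐 g, T m = if g.2 = c then m else 0) {g : ℤ × ZMod N} {n1 : M}
    (h1 : n1 ∈ 𝓐 g) (s : (MvPolynomial (Fin 5) K)) : ∃ s' : (MvPolynomial (Fin 5) K), T (s • n1) = s' • n1 := by
  induction s using MvPolynomial.induction_on' with
  | monomial e a =>
    have h2 := smul_mem' (om N) 𝓐 (isWeightedHomogeneous_monomial (om N) e a rfl) h1
    rw [hT _ _ h2]
    split_ifs
    · exact ⟨_, rfl⟩
    · exact ⟨0, by simp⟩
  | add p q hp hq =>
    obtain ⟨a, ha⟩ := hp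
    obtain ⟨b, hb⟩ := hq
    exact ⟨a + b, by rw [add_smul, map_add, ha, hb, add_smul]⟩

/-- If any two homogeneous elements of class `c` are dependent modulo the local basis, then `M`
is generated by two elements. -/
theorem gen2_of_dep (hR : ∀ (r : (MvPolynomial (Fin 4) K)) (m : M), r • m = io K r • m)
    (hM : Bun (X : Fin 5 → (MvPolynomial (Fin 5) K)) M) {c : ZMod N}
    (hC : ∀ k j, j ≠ c → ∀ m ∈ 𝓐 (k, j), ∃ n ∈ 𝓐 (k - 1, j - 1), m = (X 0 : (MvPolynomial (Fin 5) K)) • n)
    {n1 n2 : M} {n : ℕ} {D : (MvPolynomial (Fin 5) K)} (L : Loc N n1 n2 n D) {d1 d2 : ℤ}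
    (h1 : n1 ∈ 𝓐 (d1, c)) (h2 : n2 ∈ 𝓐 (d2, c))
    (hdep : ∀ a b, ∀ u ∈ 𝓐 (a, c), ∀ v ∈ 𝓐 (b, c), ∃ r s : (MvPolynomial (Fin 4) K), (r ≠ 0 ∨ s ≠ 0) ∧
      ∃ α β : (MvPolynomial (Fin 5) K), io K r • u + io K s • v = α • n1 + β • n2) : Gen2 (MvPolynomial (Fin 5) K) M := by
  classical
  have hx : Coord K (X : Fin 5 → (MvPolynomial (Fin 5) K)) := ⟨by
    have : (aeval X : (MvPolynomial (Fin 5) K) →ₐ[K] (MvPolynomial (Fin 5) K)) = AlgHom.id K (MvPolynomial (Fin 5) K) := by ext i; simp
    rw [this]; exact Function.bijective_id⟩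
  obtain ⟨T, hT⟩ := exists_proj (K := K) 𝓐 c
  have := hM.fin
  have tf := hM.tf
  let F : Submodule (MvPolynomial (Fin 4) K) M :=
    { carrier := {m | ∃ a b : (MvPolynomial (Fin 5) K), m = a • n1 + b • n2}
      add_mem' := by
        rintro x y ⟨a, b, rfl⟩ ⟨a', b', rfl⟩
        exact ⟨a + a', b + b', by rw [add_smul, add_smul]; abel⟩
      zero_mem' := ⟨0, 0, by simp⟩
      smul_mem' := by
        rintro r x ⟨a, b, rfl⟩
        exact ⟨io K r * a, io K r * b, by rw [hR, smul_add, mul_smul, mul_smul]⟩ }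
  have hF : ∀ m, m ∈ F ↔ ∃ a b : (MvPolynomial (Fin 5) K), m = a • n1 + b • n2 := fun m => Iff.rfl
  have hfin : Module.Finite (MvPolynomial (Fin 4) K) (M ⧸ F) := finite_quot hR L F hF
  have hnoeth : IsNoetherian (MvPolynomial (Fin 4) K) (M ⧸ F) := isNoetherian_of_isNoetherianRing_of_finite (MvPolynomial (Fin 4) K) _
  let Mc : Submodule (MvPolynomial (Fin 4) K) M :=
    { carrier := {m | T m = m}
      add_mem' := fun {x y} hx hy => by
        show T (x + y) = x + y
        rw [map_add, show T x = x from hx, show T y = y from hy]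
      zero_mem' := map_zero T
      smul_mem' := fun r x hx => by
        show T (r • x) = r • x
        rw [hR, proj_io T hT, show T x = x from hx] }
  have hMc : ∀ m, m ∈ Mc ↔ T m = m := fun _ => Iff.rfl
  have hTF : ∀ m ∈ F, T m ∈ F := by
    rintro m ⟨a, b, rfl⟩
    obtain ⟨a', ha⟩ := proj_smul T hT h1 a
    obtain ⟨b', hb⟩ := proj_smul T hT h2 b
    exact ⟨a', b', by rw [map_add, ha, hb]⟩
  have hTT : ∀ m, T (T m) = T m := by
    intro m
    refine hom_induction 𝓐 (P := fun m => T (T m) = T m) ?_ ?_ ?_ m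
    · simp
    · intro g m hm
      rw [hT _ _ hm]
      split_ifs with h
      · rw [hT _ _ hm, if_pos h]
      · rw [map_zero]
    · intro m n hm hn
      rw [map_add, map_add, hm, hn]
  have htor : ∀ (r : (MvPolynomial (Fin 4) K)) (m : M), r ≠ 0 → io K r • m ∈ F → m ∈ F := by
    rintro r m hr ⟨a, b, hab⟩
    exact L.torsion tf hr hab
  -- the module
  set Fc : Submodule (MvPolynomial (Fin 4) K) Mc := F.comap Mc.subtype with hFc
  have hmk : ∀ x : Mc, (Submodule.Quotient.mk x : Mc ⧸ Fc) = 0 ↔ (x : M) ∈ F := by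
    intro x
    rw [Submodule.Quotient.mk_eq_zero]
    rfl
  have hVfin : Module.Finite (MvPolynomial (Fin 4) K) (Mc ⧸ Fc) := by
    let f : (Mc ⧸ Fc) →ₗ[(MvPolynomial (Fin 4) K)] (M ⧸ F) := Submodule.mapQ Fc F Mc.subtype le_rfl
    have hf : Function.Injective f := by
      rw [← LinearMap.ker_eq_bot, LinearMap.ker_eq_bot']
      intro y hy
      obtain ⟨x, rfl⟩ := Submodule.Quotient.mk_surjective _ y
      rw [hmk]
      have : (Submodule.Quotient.mk (x : M) : M ⧸ F) = 0 := hy
      rwa [Submodule.Quotient.mk_eq_zero] at this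
    have : IsNoetherian (MvPolynomial (Fin 4) K) (Mc ⧸ Fc) := isNoetherian_of_injective f hf
    infer_instance
  -- every element is dependent on a fixed one
  have hdep' : ∀ x y : Mc ⧸ Fc, ∃ a b : (MvPolynomial (Fin 4) K), (a ≠ 0 ∨ b ≠ 0) ∧ a • x = b • y := by
    by_cases hall : ∀ a, ∀ u ∈ 𝓐 (a, c), u ∈ F
    · intro x y
      obtain ⟨x, rfl⟩ := Submodule.Quotient.mk_surjective _ x
      refine ⟨1, 0, Or.inl one_ne_zero, ?_⟩
      have h3 : (x : M) ∈ F := by
        have h4 : T (x : M) = x := x.2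
        rw [← h4]
        refine hom_induction 𝓐 (P := fun m => T m ∈ F) ?_ ?_ ?_ (x : M)
        · rw [map_zero]; exact F.zero_mem
        · intro g m hm
          rw [hT _ _ hm]
          split_ifs with hg
          · exact hall g.1 m (by rw [← hg]; exact hm)
          · exact F.zero_mem
        · intro m n hm hn
          rw [map_add]; exact F.add_mem hm hn
      rw [(hmk x).mpr h3, smul_zero, zero_smul]
    · push Not at hall
      obtain ⟨a₀, u₀, hu₀, hu₀F⟩ := hall
      have key : ∀ m : M, ∃ b s : (MvPolynomial (Fin 4) K), b ≠ 0 ∧ io K b • T m - io K s • u₀ ∈ F := by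
        intro m
        refine hom_induction 𝓐
          (P := fun m => ∃ b s : (MvPolynomial (Fin 4) K), b ≠ 0 ∧ io K b • T m - io K s • u₀ ∈ F) ?_ ?_ ?_ m
        · refine ⟨1, 0, one_ne_zero, ?_⟩
          rw [map_zero, smul_zero, map_zero, zero_smul, sub_zero]
          exact F.zero_mem
        · intro g m hm
          rw [hT _ _ hm]
          split_ifs with hg
          · obtain ⟨r, s, hrs, h3⟩ := hdep a₀ g.1 u₀ hu₀ m (by rw [← hg]; exact hm)
            have hs : s ≠ 0 := by
              rintro rfl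
              rw [map_zero, zero_smul, add_zero] at h3
              exact hu₀F (htor r u₀ (hrs.resolve_right (fun h => h rfl)) h3)
            refine ⟨s, -r, hs, ?_⟩
            rw [map_neg, neg_smul, sub_neg_eq_add, add_comm]
            exact h3
          · refine ⟨1, 0, one_ne_zero, ?_⟩
            rw [smul_zero, map_zero, zero_smul, sub_zero]
            exact F.zero_mem
        · rintro m n ⟨b, s, hb, h3⟩ ⟨b', s', hb', h4⟩
          refine ⟨b * b', b' * s + b * s', mul_ne_zero hb hb', ?_⟩
          have h5 : io K (b * b') • T (m + n) - io K (b' * s + b * s') • u₀ =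
              io K b' • (io K b • T m - io K s • u₀) +
                io K b • (io K b' • T n - io K s' • u₀) := by
            simp only [map_add, map_mul, smul_add, smul_sub, add_smul, ← mul_smul]
            rw [mul_comm (io K b') (io K b)]
            abel
          rw [h5]
          exact F.add_mem (by rw [← hR]; exact F.smul_mem _ h3)
            (by rw [← hR]; exact F.smul_mem _ h4)
      intro x y
      obtain ⟨x, rfl⟩ := Submodule.Quotient.mk_surjective _ x
      obtain ⟨y, rfl⟩ := Submodule.Quotient.mk_surjective _ y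
      obtain ⟨b, s, hb, h3⟩ := key x
      obtain ⟨b', s', hb', h4⟩ := key y
      rw [show T (x : M) = x from x.2] at h3
      rw [show T (y : M) = y from y.2] at h4
      by_cases hs : s = 0
      · subst hs
        rw [map_zero, zero_smul, sub_zero] at h3
        refine ⟨1, 0, Or.inl one_ne_zero, ?_⟩
        rw [(hmk x).mpr (htor b x hb h3), smul_zero, zero_smul]
      · refine ⟨s' * b, s * b', Or.inr (mul_ne_zero hs hb'), ?_⟩
        rw [← Submodule.Quotient.mk_smul, ← Submodule.Quotient.mk_smul, ← sub_eq_zero,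
          ← Submodule.Quotient.mk_sub, hmk]
        show (s' * b) • (x : M) - (s * b') • (y : M) ∈ F
        have h5 : (s' * b) • (x : M) - (s * b') • (y : M) =
            s' • (io K b • (x : M) - io K s • u₀) - s • (io K b' • (y : M) - io K s' • u₀) := by
          simp only [hR, map_mul, smul_sub, mul_smul]
          rw [smul_comm (io K s') (io K s) u₀]
          abel
        rw [h5]
        exact F.sub_mem (F.smul_mem _ h3) (F.smul_mem _ h4)
  obtain ⟨e, he⟩ := cyclic (V := Mc ⧸ Fc)
    (fun a y hay => by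
      obtain ⟨x, rfl⟩ := Submodule.Quotient.mk_surjective _ y
      by_cases ha : a = 0
      · exact Or.inl ha
      · right
        rw [← Submodule.Quotient.mk_smul, hmk] at hay
        rw [hmk]
        refine htor a x ha ?_
        rw [← hR]
        exact hay)
    (fun a b hab y z hyz => by
      obtain ⟨x, rfl⟩ := Submodule.Quotient.mk_surjective _ y
      obtain ⟨w, rfl⟩ := Submodule.Quotient.mk_surjective _ z
      rw [← Submodule.Quotient.mk_smul, ← Submodule.Quotient.mk_smul, ← sub_eq_zero,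
        ← Submodule.Quotient.mk_sub, hmk] at hyz
      have h3 : io K a • (x : M) - io K b • (w : M) ∈ F := by
        rw [← hR, ← hR]; exact hyz
      obtain ⟨α, β, h4⟩ := h3
      obtain ⟨k, α', β', hk⟩ := L.hartogs hM.ht hab h4
      refine ⟨Submodule.Quotient.mk ⟨T k, hTT k⟩, ?_⟩
      rw [← Submodule.Quotient.mk_smul, ← sub_eq_zero, ← Submodule.Quotient.mk_sub, hmk]
      show (x : M) - b • T k ∈ F
      have h5 : (x : M) - b • T k = T ((x : M) - io K b • k) := by
        rw [map_sub, proj_io T hT, show T (x : M) = x from x.2, hR]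
      rw [h5]
      exact hTF _ ⟨α', β', hk⟩)
    hdep'
  obtain ⟨e, rfl⟩ := Submodule.Quotient.mk_surjective _ e
  -- three generators
  have hgen : Submodule.span (MvPolynomial (Fin 5) K) (Set.range ![n1, n2, (e : M)]) = ⊤ := by
    rw [eq_top_iff]
    intro m _
    set W := Submodule.span (MvPolynomial (Fin 5) K) (Set.range ![n1, n2, (e : M)]) with hW
    have w1 : n1 ∈ W := Submodule.subset_span ⟨0, rfl⟩
    have w2 : n2 ∈ W := Submodule.subset_span ⟨1, rfl⟩
    have w3 : (e : M) ∈ W := Submodule.subset_span ⟨2, rfl⟩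
    refine hom_induction 𝓐 (P := fun m => m ∈ W) W.zero_mem ?_ (fun _ _ h h' => W.add_mem h h') m
    rintro ⟨k, j⟩ m hm
    obtain ⟨t, _, _, y, hy, rfl⟩ := div_any hC k j m hm
    refine W.smul_mem _ ?_
    have hyc : T y = y := by rw [hT _ _ hy, if_pos rfl]
    obtain ⟨r, hr⟩ := he (Submodule.Quotient.mk ⟨y, hyc⟩)
    rw [← Submodule.Quotient.mk_smul, ← sub_eq_zero, ← Submodule.Quotient.mk_sub, hmk] at hr
    obtain ⟨α, β, hαβ⟩ : y - r • (e : M) ∈ F := hr
    have h3 : y = io K r • (e : M) + (α • n1 + β • n2) := by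
      rw [← hαβ, hR]; abel
    rw [h3]
    exact W.add_mem (W.smul_mem _ w3) (W.add_mem (W.smul_mem _ w1) (W.smul_mem _ w2))
  obtain ⟨ε, hε⟩ := exists_op (K := K) (om N) 𝓐 (fun g : ℤ × ZMod N => (g.1 : K))
  let E : Derivation K (MvPolynomial (Fin 5) K) (MvPolynomial (Fin 5) K) := mkDerivation K X
  have hE : ∀ i, E (X i) = X i := fun i => mkDerivation_X K _ i
  refine Bun.three hx (by simp) hM (E := E) (ε := ε) hE
    (op_conn (ω := om N) (𝓐 := 𝓐) (fun g : ℤ × ZMod N => (g.1 : K)) (fun i g => ?_) hε hE)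
    (op_diag (fun g : ℤ × ZMod N => g.1) hε) _ hgen
  show (((1 : ℤ) + g.1 : ℤ) : K) = 1 + (g.1 : K)
  push_cast; ring

end cyc

end Pool.Agent.Lib.MP_745d3a_ag.Hom
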