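import Pool.Agent.Lib.MP_745d3a_ag.HomF
import Pool.Agent.Lib.MP_745d3a_ag.HomDiff

/-!
Counting monomials.
-/

set_option autoImplicit false

open MvPolynomial

namespace Pool.Agent.Lib.MP_745d3a_ag.Hom

section count

/-- Exponents of degree `k` whose first entry satisfies `P`. -/
def Ex (n : ℕ) (P : ℕ → Prop) (k : ℤ) : Set (Fin (n + 1) → ℕ) :=
  {e | ((∑ i, e i : ℕ) : ℤ) = k ∧ P (e 0)}

lemma Ex_finite (n : ℕ) (P : ℕ → Prop) (k : ℤ) : (Ex n P k).Finite := by
  refine (Set.finite_Iic (fun _ : Fin (n + 1) => k.toNat)).subset ?_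
  rintro e ⟨he, _⟩ i
  have h1 : e i ≤ ∑ i, e i := Finset.single_le_sum (f := e) (fun _ _ => Nat.zero_le _)
    (Finset.mem_univ i)
  show e i ≤ k.toNat
  omega

/-- The number of exponents. -/
noncomputable def cnt (n : ℕ) (P : ℕ → Prop) (k : ℤ) : ℤ := ((Ex n P k).ncard : ℤ)

lemma nab_cnt (n : ℕ) (P : ℕ → Prop) : nab (cnt (n + 1) P) = cnt n P := by
  funext k
  have h1 : Ex (n + 1) P k = (fun e : Fin (n + 1) → ℕ => (Fin.snoc e 0 : Fin (n + 2) → ℕ)) '' Ex n P k ∪
      (fun e : Fin (n + 2) → ℕ => e + Pi.single (Fin.last (n + 1)) 1) '' Ex (n + 1) P (k - 1) := by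
    ext e
    constructor
    · rintro ⟨he, hP⟩
      by_cases h0 : e (Fin.last (n + 1)) = 0
      · left
        refine ⟨fun i => e i.castSucc, ⟨?_, ?_⟩, ?_⟩
        · rw [Fin.sum_univ_castSucc, h0, add_zero] at he
          exact he
        · exact hP
        · funext i
          refine Fin.lastCases ?_ (fun j => ?_) i
          · simp [h0]
          · simp
      · right
        refine ⟨e - Pi.single (Fin.last (n + 1)) 1, ⟨?_, ?_⟩, ?_⟩
        · rw [Fin.sum_univ_castSucc] at he ⊢
          have h2 : ∀ i : Fin (n + 1), (e - Pi.single (Fin.last (n + 1)) 1 : Fin (n + 2) → ℕ)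
              i.castSucc = e i.castSucc := by
            intro i
            rw [Pi.sub_apply, Pi.single_eq_of_ne (Fin.castSucc_lt_last i).ne, Nat.sub_zero]
          simp only [h2]
          rw [Pi.sub_apply, Pi.single_eq_same]
          push_cast at he ⊢
          rw [Nat.cast_sub (by omega)]
          push_cast
          linarith
        · rw [Pi.sub_apply, Pi.single_eq_of_ne (Fin.last_pos).ne, Nat.sub_zero]
          exact hP
        · funext i
          refine Fin.lastCases ?_ (fun j => ?_) i
          · simp only [Pi.add_apply, Pi.sub_apply, Pi.single_eq_same]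
            omega
          · simp only [Pi.add_apply, Pi.sub_apply,
              Pi.single_eq_of_ne (Fin.castSucc_lt_last j).ne, Nat.sub_zero, add_zero]
    · rintro (⟨e, ⟨he, hP⟩, rfl⟩ | ⟨e, ⟨he, hP⟩, rfl⟩)
      · refine ⟨?_, ?_⟩
        · rw [Fin.sum_univ_castSucc]
          simp only [Fin.snoc_castSucc, Fin.snoc_last, add_zero]
          exact he
        · have : (Fin.snoc e 0 : Fin (n + 2) → ℕ) 0 = e 0 := by
            simp
          simpa [this] using hP
      · refine ⟨?_, ?_⟩
        · simp only [Pi.add_apply]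
          rw [Finset.sum_add_distrib, Finset.sum_pi_single' (Fin.last (n + 1)) 1,
            if_pos (Finset.mem_univ _)]
          push_cast at he ⊢
          linarith
        · simp only [Pi.add_apply]
          rw [Pi.single_eq_of_ne (Fin.last_pos).ne, add_zero]
          exact hP
  have h2 : Disjoint ((fun e : Fin (n + 1) → ℕ => (Fin.snoc e 0 : Fin (n + 2) → ℕ)) '' Ex n P k)
      ((fun e : Fin (n + 2) → ℕ => e + Pi.single (Fin.last (n + 1)) 1) '' Ex (n + 1) P (k - 1)) := by
    rw [Set.disjoint_left]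
    rintro _ ⟨e, _, rfl⟩ ⟨e', _, h3⟩
    have h4 := congrFun h3 (Fin.last (n + 1))
    simp at h4
  have h3 : (Ex (n + 1) P k).ncard = (Ex n P k).ncard + (Ex (n + 1) P (k - 1)).ncard := by
    rw [h1, Set.ncard_union_eq h2 ((Ex_finite n P k).image _) ((Ex_finite _ P _).image _),
      Set.ncard_image_of_injective, Set.ncard_image_of_injective]
    · intro e e' h
      exact add_right_cancel h
    · intro e e' h
      funext i
      have h4 := congrFun h i.castSucc
      simpa using h4
  show ((Ex (n + 1) P k).ncard : ℤ) - ((Ex (n + 1) P (k - 1)).ncard : ℤ) = ((Ex n P k).ncard : ℤ)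
  rw [h3]
  push_cast
  ring

lemma nab_iter_cnt (m n : ℕ) (P : ℕ → Prop) : nab^[m] (cnt (n + m) P) = cnt n P := by
  induction m generalizing n with
  | zero => rfl
  | succ m ih =>
    rw [Function.iterate_succ_apply, show n + (m + 1) = (n + m) + 1 by ring, nab_cnt, ih]

open Classical in
lemma cnt_zero (P : ℕ → Prop) (k : ℤ) : cnt 0 P k = if 0 ≤ k ∧ P k.toNat then 1 else 0 := by
  unfold cnt
  split_ifs with h
  · have h1 : Ex 0 P k = {fun _ => k.toNat} := by
      ext e
      constructor
      · rintro ⟨he, _⟩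
        rw [Set.mem_singleton_iff]
        funext i
        have hi : i = 0 := Fin.ext (by have := i.2; show (i : ℕ) = 0; omega)
        subst hi
        simp at he
        omega
      · intro he
        rw [Set.mem_singleton_iff] at he
        subst he
        refine ⟨?_, h.2⟩
        simp
        exact h.1
    rw [h1, Set.ncard_singleton]; rfl
  · have h1 : Ex 0 P k = ∅ := by
      rw [Set.eq_empty_iff_forall_notMem]
      rintro e ⟨he, hP⟩
      apply h
      simp at he
      refine ⟨by omega, ?_⟩
      have : k.toNat = e 0 := by omega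
      rw [this]
      exact hP
    rw [h1, Set.ncard_empty]; rfl

/-- The key identity for the monomials of class zero. -/
lemma cnt_key (N : ℕ) (hN : 0 < N) (k : ℤ) :
    nab^[4] (cnt 4 (fun e => N ∣ e)) k - nab^[4] (cnt 4 (fun e => N ∣ e)) (k - N) =
      if k = 0 then 1 else 0 := by
  classical
  rw [nab_iter_cnt 4 0, cnt_zero, cnt_zero]
  by_cases h0 : k = 0
  · subst h0
    have h1 : ¬ (0 ≤ (0 : ℤ) - N ∧ N ∣ ((0 : ℤ) - N).toNat) := by
      rintro ⟨h, _⟩; omega
    rw [if_neg h1]
    simp
  · rw [if_neg h0]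
    by_cases h1 : 0 ≤ k ∧ N ∣ k.toNat
    · rw [if_pos h1]
      obtain ⟨h2, q, hq⟩ := h1
      have hq0 : q ≠ 0 := by
        rintro rfl
        omega
      have h3 : k = N * q := by
        have : ((k.toNat : ℕ) : ℤ) = ((N * q : ℕ) : ℤ) := by rw [hq]
        rw [Int.toNat_of_nonneg h2] at this
        push_cast at this
        exact this
      have h4 : k - N = N * ((q - 1 : ℕ) : ℤ) := by
        rw [Nat.cast_sub (by omega), h3]; push_cast; ring
      rw [if_pos, sub_self]
      refine ⟨by rw [h4]; positivity, ⟨q - 1, ?_⟩⟩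
      rw [h4]
      exact_mod_cast Int.toNat_natCast (N * (q - 1))
    · rw [if_neg h1, if_neg, sub_self]
      rintro ⟨h2, q, hq⟩
      apply h1
      refine ⟨by omega, q + 1, ?_⟩
      rw [mul_add, ← hq]
      omega

lemma cnt_three (k : ℤ) (hk : 0 ≤ k) : nab^[3] (cnt 3 (fun _ => True)) k = 1 := by
  classical
  rw [nab_iter_cnt 3 0, cnt_zero, if_pos ⟨hk, trivial⟩]

end count

section finr

variable {K : Type*} [Field K]

lemma finrank_supp {σ : Type*} (s : Set (σ →₀ ℕ)) :
    Module.finrank K (restrictSupport K s) = s.ncard := by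
  rw [Module.finrank_eq_nat_card_basis (basisRestrictSupport K s)]
  rfl

lemma finrank_piece {n : ℕ} {G : Type*} [AddCommMonoid G] (w : Fin (n + 1) → G) (g : G) (P : ℕ → Prop)
    (k : ℤ) (h : ∀ e : Fin (n + 1) →₀ ℕ, Finsupp.weight w e = g ↔ (⇑e) ∈ Ex n P k) :
    (Module.finrank K (weightedHomogeneousSubmodule K w g) : ℤ) = cnt n P k ∧
      Module.Finite K (weightedHomogeneousSubmodule K w g) := by
  have h1 : weightedHomogeneousSubmodule K w g =
      restrictSupport K {d | Finsupp.weight w d = g} :=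
    weightedHomogeneousSubmodule_eq_finsupp_supported K w g
  have h2 : (fun e : Fin (n + 1) →₀ ℕ => (⇑e : Fin (n + 1) → ℕ)) '' {d | Finsupp.weight w d = g} =
      Ex n P k := by
    ext e
    constructor
    · rintro ⟨d, hd, rfl⟩
      exact (h d).mp hd
    · intro he
      refine ⟨Finsupp.equivFunOnFinite.symm e, (h _).mpr ?_, ?_⟩
      · simpa using he
      · simp
  have h3 : ({d | Finsupp.weight w d = g} : Set (Fin (n + 1) →₀ ℕ)).ncard = (Ex n P k).ncard := by
    rw [← h2, Set.ncard_image_of_injective _ DFunLike.coe_injective]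
  have hfin : ({d | Finsupp.weight w d = g} : Set (Fin (n + 1) →₀ ℕ)).Finite := by
    refine Set.Finite.of_finite_image (f := fun e : Fin (n + 1) →₀ ℕ => (⇑e : Fin (n + 1) → ℕ)) ?_
      DFunLike.coe_injective.injOn
    rw [h2]
    exact Ex_finite n P k
  constructor
  · rw [h1, finrank_supp, h3]; rfl
  · rw [h1]
    have := hfin.to_subtype
    exact Module.Finite.of_basis (basisRestrictSupport K _)

/-- Pieces of `S`. -/
lemma finrank_S (N : ℕ) (k : ℤ) (j : ZMod N) :
    Module.Finite K (weightedHomogeneousSubmodule K (om N) (k, j)) := by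
  refine (finrank_piece (om N) (k, j) (fun e => (e : ZMod N) = j) k fun e => ?_).2
  rw [om_weight, Finsupp.sum_fintype _ _ (by intro i; rfl)]
  show _ ↔ _ ∧ _
  rw [Prod.mk.injEq]

lemma finrank_S0 (N : ℕ) (k : ℤ) :
    (Module.finrank K (weightedHomogeneousSubmodule K (om N) (k, 0)) : ℤ) =
      cnt 4 (fun e => N ∣ e) k := by
  refine (finrank_piece (om N) (k, 0) (fun e => N ∣ e) k fun e => ?_).1
  rw [om_weight, Finsupp.sum_fintype _ _ (by intro i; rfl)]
  show _ ↔ _ ∧ _
  rw [Prod.mk.injEq, ZMod.natCast_eq_zero_iff]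

/-- The grading of the polynomial ring in the last four variables. -/
lemma finrank_R (k : ℤ) :
    (Module.finrank K (weightedHomogeneousSubmodule K (fun _ : Fin 4 => (1 : ℤ)) k) : ℤ) =
      cnt 3 (fun _ => True) k ∧
      Module.Finite K (weightedHomogeneousSubmodule K (fun _ : Fin 4 => (1 : ℤ)) k) := by
  refine finrank_piece (fun _ : Fin 4 => (1 : ℤ)) k (fun _ => True) k fun e => ?_
  rw [Finsupp.weight_apply, Finsupp.sum_fintype _ _ (by intro i; simp)]
  show _ ↔ _ ∧ _
  simp

end finr

end Pool.Agent.Lib.MP_745d3a_ag.Hom
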