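import Pool.Agent.Lib.MP_745d3a_ag.HomG

/-!
Dimensions of the graded pieces.
-/

set_option autoImplicit false

open MvPolynomial

namespace Pool.Agent.Lib.MP_745d3a_ag.Hom

open Pool.Agent.Lib.MP_745d3a_ag PF

section dims

variable {K M : Type*} [Field K] {N : ℕ} [AddCommGroup M]
  [Module (MvPolynomial (Fin 5) K) M]
  [Module K M] [IsScalarTower K (MvPolynomial (Fin 5) K) M]
  {𝓐 : ℤ × ZMod N → AddSubgroup M} [DirectSum.Decomposition 𝓐]
  [SetLike.GradedSMul (weightedHomogeneousSubmodule K (om N)) 𝓐]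

/-- `a ↦ a • y`. -/
noncomputable def mulBy (K : Type*) {M : Type*} [Field K] [AddCommGroup M]
    [Module (MvPolynomial (Fin 5) K) M] [Module K M] [IsScalarTower K (MvPolynomial (Fin 5) K) M]
    (y : M) : MvPolynomial (Fin 5) K →ₗ[K] M :=
  ((LinearMap.id : MvPolynomial (Fin 5) K →ₗ[MvPolynomial (Fin 5) K] MvPolynomial (Fin 5) K).smulRight
    y).restrictScalars K

omit [DirectSum.Decomposition 𝓐] [SetLike.GradedSMul (weightedHomogeneousSubmodule K (om N)) 𝓐] in
lemma mulBy_apply (y : M) (a : (MvPolynomial (Fin 5) K)) : mulBy K y a = a • y := rfl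

lemma comp_sum' {ι : Type*} (s : Finset ι) (f : ι → M) (g : ℤ × ZMod N) :
    comp 𝓐 g (∑ i ∈ s, f i) = ∑ i ∈ s, comp 𝓐 g (f i) := by
  classical
  induction s using Finset.induction_on with
  | empty => simp [comp_zero]
  | insert i s hi ih => rw [Finset.sum_insert hi, Finset.sum_insert hi, comp_add, ih]

variable (𝓐) in
lemma fin_piece [Module.Finite (MvPolynomial (Fin 5) K) M] (g : ℤ × ZMod N) (A : Submodule K M)
    (hA : ∀ m, m ∈ A ↔ m ∈ 𝓐 g) : FiniteDimensional K A := by
  classical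
  obtain ⟨G, hG⟩ := Module.Finite.fg_top (R := (MvPolynomial (Fin 5) K)) (M := M)
  choose T hT _ using eq_sum_comp 𝓐
  let W : Submodule K M := G.sup fun x => (T x).sup fun γ =>
    (weightedHomogeneousSubmodule K (om N) (g - γ)).map (mulBy K (comp 𝓐 γ x))
  have hW : FiniteDimensional K W := by
    have h1 : ∀ x γ, FiniteDimensional K ((weightedHomogeneousSubmodule K (om N) (g - γ)).map
        (mulBy K (comp 𝓐 γ x)) : Submodule K M) := by
      intro x γ
      have := finrank_S (K := K) N (g - γ).1 (g - γ).2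
      have h2 : ((g - γ).1, (g - γ).2) = g - γ := rfl
      rw [h2] at this
      infer_instance
    have h2 : ∀ x, FiniteDimensional K ((T x).sup fun γ =>
        (weightedHomogeneousSubmodule K (om N) (g - γ)).map (mulBy K (comp 𝓐 γ x)) :
          Submodule K M) := fun x => by
      have := h1 x
      exact Submodule.finiteDimensional_finset_sup _ _
    exact Submodule.finiteDimensional_finset_sup _ _
  have hle : A ≤ W := by
    intro m hm
    have h1 : comp 𝓐 g m = m := comp_same 𝓐 ((hA m).mp hm)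
    rw [← h1]
    have hm : m ∈ Submodule.span (MvPolynomial (Fin 5) K) (G : Set M) := by rw [hG]; trivial
    rw [Submodule.mem_span_finset'] at hm
    obtain ⟨f, hf⟩ := hm
    rw [← hf, comp_sum']
    refine W.sum_mem fun x _ => ?_
    have h2 : f x • (x : M) = ∑ γ ∈ T x, f x • comp 𝓐 γ x := by
      conv_lhs => rw [hT x, Finset.smul_sum]
    rw [h2, comp_sum']
    refine W.sum_mem fun γ hγ => ?_
    rw [comp_smul (om N) 𝓐 (comp_mem 𝓐 γ _)]
    have h3 : ((weightedHomogeneousSubmodule K (om N) (g - γ)).map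
        (mulBy K (comp 𝓐 γ (x : M))) : Submodule K M) ≤ W :=
      (Finset.le_sup (f := fun γ => (weightedHomogeneousSubmodule K (om N) (g - γ)).map
        (mulBy K (comp 𝓐 γ (x : M)))) hγ).trans (Finset.le_sup (f := fun x => (T x).sup fun γ =>
        (weightedHomogeneousSubmodule K (om N) (g - γ)).map (mulBy K (comp 𝓐 γ x))) x.2)
    refine h3 (Submodule.mem_map.mpr ⟨weightedHomogeneousComponent (om N) (g - γ) (f x), ?_, rfl⟩)
    exact weightedHomogeneousComponent_isWeightedHomogeneous _ _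
  exact Submodule.finiteDimensional_of_le hle

/-- Multiplication by a power of `x_0`. -/
lemma finrank_shift {c : ZMod N}
    (tf : ∀ (a : (MvPolynomial (Fin 5) K)) (m : M), a • m = 0 → a = 0 ∨ m = 0)
    (hC : ∀ k j, j ≠ c → ∀ m ∈ 𝓐 (k, j), ∃ n ∈ 𝓐 (k - 1, j - 1), m = (X 0 : (MvPolynomial (Fin 5) K)) • n)
    (t : ℕ) (ht : t < N) (k : ℤ) (A A' : Submodule K M) (hA : ∀ m, m ∈ A ↔ m ∈ 𝓐 (k, c + t))
    (hA' : ∀ m, m ∈ A' ↔ m ∈ 𝓐 (k - t, c)) : Module.finrank K A = Module.finrank K A' := by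
  let f : M →ₗ[K] M :=
    { toFun := fun m => (X 0 : (MvPolynomial (Fin 5) K)) ^ t • m
      map_add' := fun _ _ => smul_add _ _ _
      map_smul' := fun _ _ => smul_comm _ _ _ }
  have hf : Function.Injective f := by
    rw [← LinearMap.ker_eq_bot, LinearMap.ker_eq_bot']
    intro m hm
    rcases tf _ _ hm with h | h
    · exact absurd h (pow_ne_zero _ (X_prime (R := K) (i := (0 : Fin 5))).ne_zero)
    · exact h
  have h1 : A = A'.map f := by
    ext m
    rw [hA, Submodule.mem_map]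
    constructor
    · intro hm
      obtain ⟨n, hn, rfl⟩ := div_pow hC t ht k m hm
      exact ⟨n, (hA' n).mpr hn, rfl⟩
    · rintro ⟨n, hn, rfl⟩
      have h2 := smul_mem' (om N) 𝓐 ((isWeightedHomogeneous_X K (om N) 0).pow t) ((hA' n).mp hn)
      have h3 : t • om N 0 + ((k - t, c) : ℤ × ZMod N) = (k, c + t) := by
        have : om N 0 = ((1 : ℤ), (1 : ZMod N)) := by simp [om]
        rw [this]
        ext
        · simp
        · simp; ring
      rw [h3] at h2
      exact h2
  rw [h1]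
  exact (Submodule.equivMapOfInjective f hf A').finrank_eq.symm

lemma sum_zmod [NeZero N] (c : ZMod N) (φ : ZMod N → ℤ) :
    ∑ j, φ j = ∑ t ∈ Finset.range N, φ (c + t) := by
  rw [← Equiv.sum_comp (Equiv.addLeft c) φ]
  obtain ⟨n, rfl⟩ : ∃ n, N = n + 1 := ⟨N - 1, by have := NeZero.pos N; omega⟩
  have h1 := Fin.sum_univ_eq_sum_range (fun t : ℕ => φ (c + (t : ZMod (n + 1)))) (n + 1)
  rw [← h1]
  refine Finset.sum_congr rfl fun j _ => ?_
  show φ (c + j) = φ (c + ((ZMod.val j : ℕ) : ZMod (n + 1)))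
  rw [ZMod.natCast_zmod_val]

/-- The free part. -/
lemma finrank_free {n1 n2 : M} (ind : ∀ a b : (MvPolynomial (Fin 5) K), a • n1 + b • n2 = 0 → a = 0 ∧ b = 0)
    {c : ZMod N} {d1 d2 : ℤ} (h1 : n1 ∈ 𝓐 (d1, c)) (h2 : n2 ∈ 𝓐 (d2, c)) (k : ℤ)
    (B : Submodule K M)
    (hB : ∀ m, m ∈ B ↔ m ∈ 𝓐 (k, c) ∧ ∃ a b : (MvPolynomial (Fin 5) K), m = a • n1 + b • n2) :
    (Module.finrank K B : ℤ) =
      cnt 4 (fun e => N ∣ e) (k - d1) + cnt 4 (fun e => N ∣ e) (k - d2) := by
  let P : ℤ → Submodule K (MvPolynomial (Fin 5) K) := fun k => weightedHomogeneousSubmodule K (om N) (k, 0)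
  let f : (P (k - d1)) × (P (k - d2)) →ₗ[K] M :=
    LinearMap.coprod ((mulBy K n1).comp (P (k - d1)).subtype)
      ((mulBy K n2).comp (P (k - d2)).subtype)
  have hf : ∀ x, f x = (x.1 : (MvPolynomial (Fin 5) K)) • n1 + (x.2 : (MvPolynomial (Fin 5) K)) • n2 := fun x => by
    rw [LinearMap.coprod_apply]; rfl
  have hinj : Function.Injective f := by
    rw [← LinearMap.ker_eq_bot, LinearMap.ker_eq_bot']
    intro x hx
    rw [hf] at hx
    obtain ⟨h3, h4⟩ := ind _ _ hx
    exact Prod.ext (Subtype.ext h3) (Subtype.ext h4)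
  have hr : LinearMap.range f = B := by
    ext m
    rw [hB, LinearMap.mem_range]
    constructor
    · rintro ⟨x, rfl⟩
      rw [hf]
      refine ⟨(𝓐 (k, c)).add_mem ?_ ?_, _, _, rfl⟩
      · have := smul_mem' (om N) 𝓐 (mem_weightedHomogeneousSubmodule _ _ _ _ |>.mp x.1.2) h1
        have h3 : ((k - d1, 0) : ℤ × ZMod N) + (d1, c) = (k, c) := by simp
        rwa [h3] at this
      · have := smul_mem' (om N) 𝓐 (mem_weightedHomogeneousSubmodule _ _ _ _ |>.mp x.2.2) h2
        have h3 : ((k - d2, 0) : ℤ × ZMod N) + (d2, c) = (k, c) := by simp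
        rwa [h3] at this
    · rintro ⟨hm, a, b, rfl⟩
      obtain ⟨h3, h4⟩ := hom_of_pair (om N) 𝓐 h1 h2 ind hm
      have e1 : ((k, c) : ℤ × ZMod N) - (d1, c) = (k - d1, 0) := by simp
      have e2 : ((k, c) : ℤ × ZMod N) - (d2, c) = (k - d2, 0) := by simp
      rw [e1] at h3
      rw [e2] at h4
      exact ⟨(⟨a, (mem_weightedHomogeneousSubmodule _ _ _ _).mpr h3⟩,
        ⟨b, (mem_weightedHomogeneousSubmodule _ _ _ _).mpr h4⟩), hf _⟩
  have hP : ∀ k, Module.Finite K (P k) := fun k => finrank_S N k 0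
  have hP' : ∀ k, (Module.finrank K (P k) : ℤ) = cnt 4 (fun e => N ∣ e) k :=
    fun k => finrank_S0 N k
  rw [← hr, LinearMap.finrank_range_of_inj hinj, Module.finrank_prod]
  push_cast
  rw [hP', hP']

omit [Module (MvPolynomial (Fin 5) K) M] [Module K M]
  [IsScalarTower K (MvPolynomial (Fin 5) K) M] [DirectSum.Decomposition 𝓐]
  [SetLike.GradedSMul (weightedHomogeneousSubmodule K (om N)) 𝓐] in
lemma io_hom {p : (MvPolynomial (Fin 4) K)} {k : ℤ} (hp : IsWeightedHomogeneous (fun _ : Fin 4 => (1 : ℤ)) p k) :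
    IsWeightedHomogeneous (om N) (io K p) ((k, 0) : ℤ × ZMod N) := by
  intro e he
  obtain ⟨u, rfl, hu⟩ := coeff_rename_ne_zero _ _ _ he
  have h1 := hp hu
  rw [om_weight]
  have h2 : (Finsupp.mapDomain Fin.succ u) 0 = 0 := by
    rw [Finsupp.mapDomain_of_notMem_range]
    rintro ⟨i, hi⟩
    exact Fin.succ_ne_zero i hi
  rw [h2, Finsupp.sum_mapDomain_index (by simp) (by simp)]
  rw [Finsupp.weight_apply] at h1
  ext
  · simp only
    rw [← h1, Finsupp.sum, Finsupp.sum]
    push_cast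
    refine Finset.sum_congr rfl fun i _ => by simp
  · simp

omit [DirectSum.Decomposition 𝓐] in
/-- The lower bound for the dimension of the quotient. -/
lemma finrank_lower {c : ZMod N} {a b : ℤ} {u v : M} (hu : u ∈ 𝓐 (a, c)) (hv : v ∈ 𝓐 (b, c))
    (F : M → Prop)
    (hind : ∀ r s : (MvPolynomial (Fin 4) K), F (io K r • u + io K s • v) → r = 0 ∧ s = 0) (h0 : F 0) (k : ℤ)
    (A B : Submodule K M) [FiniteDimensional K A] (hA : ∀ m, m ∈ A ↔ m ∈ 𝓐 (k, c))
    (hBA : B ≤ A) (hB : ∀ m ∈ B, F m) :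
    cnt 3 (fun _ => True) (k - a) + cnt 3 (fun _ => True) (k - b) ≤
      (Module.finrank K A : ℤ) - Module.finrank K B := by
  let P : ℤ → Submodule K (MvPolynomial (Fin 4) K) := fun k =>
    weightedHomogeneousSubmodule K (fun _ : Fin 4 => (1 : ℤ)) k
  let g : M → (MvPolynomial (Fin 4) K) →ₗ[K] M := fun y => (mulBy K y).comp (io K).toLinearMap
  let f : (P (k - a)) × (P (k - b)) →ₗ[K] M :=
    LinearMap.coprod ((g u).comp (P (k - a)).subtype) ((g v).comp (P (k - b)).subtype)
  have hf : ∀ x, f x = io K (x.1 : (MvPolynomial (Fin 4) K)) • u + io K (x.2 : (MvPolynomial (Fin 4) K)) • v := fun x => by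
    rw [LinearMap.coprod_apply]; rfl
  have hinj : Function.Injective f := by
    rw [← LinearMap.ker_eq_bot, LinearMap.ker_eq_bot']
    intro x hx
    rw [hf] at hx
    obtain ⟨h3, h4⟩ := hind _ _ (by rw [hx]; exact h0)
    exact Prod.ext (Subtype.ext h3) (Subtype.ext h4)
  have hle : LinearMap.range f ≤ A := by
    rintro _ ⟨x, rfl⟩
    rw [hf, hA]
    refine (𝓐 (k, c)).add_mem ?_ ?_
    · have := smul_mem' (om N) 𝓐 (io_hom (N := N) (mem_weightedHomogeneousSubmodule _ _ _ _ |>.mp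
        x.1.2)) hu
      have h3 : ((k - a, 0) : ℤ × ZMod N) + (a, c) = (k, c) := by simp
      rwa [h3] at this
    · have := smul_mem' (om N) 𝓐 (io_hom (N := N) (mem_weightedHomogeneousSubmodule _ _ _ _ |>.mp
        x.2.2)) hv
      have h3 : ((k - b, 0) : ℤ × ZMod N) + (b, c) = (k, c) := by simp
      rwa [h3] at this
  have hdisj : LinearMap.range f ⊓ B = ⊥ := by
    rw [eq_bot_iff]
    rintro _ ⟨⟨x, rfl⟩, hx⟩
    have h3 := hB _ hx
    rw [hf] at h3
    obtain ⟨h4, h5⟩ := hind _ _ h3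
    rw [Submodule.mem_bot, hf, h4, h5]
    simp
  have hBfin : FiniteDimensional K B := Submodule.finiteDimensional_of_le hBA
  have hRfin : FiniteDimensional K (LinearMap.range f) := Submodule.finiteDimensional_of_le hle
  have h1 := Submodule.finrank_sup_add_finrank_inf_eq (LinearMap.range f) B
  rw [hdisj, finrank_bot, add_zero, LinearMap.finrank_range_of_inj hinj] at h1
  have h2 := Submodule.finrank_mono (sup_le hle hBA)
  have hP : ∀ k, Module.Finite K (P k) := fun k => (finrank_R k).2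
  have hP' : ∀ k, (Module.finrank K (P k) : ℤ) = cnt 3 (fun _ => True) k :=
    fun k => (finrank_R k).1
  rw [h1, Module.finrank_prod] at h2
  rw [← hP', ← hP']
  have h3 : ((Module.finrank K (P (k - a)) + Module.finrank K (P (k - b)) + Module.finrank K B : ℕ) :
      ℤ) ≤ (Module.finrank K A : ℕ) := by exact_mod_cast h2
  push_cast at h3
  linarith

end dims

end Pool.Agent.Lib.MP_745d3a_ag.Hom
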