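import Pool.Agent.Lib.MP_745d3a_ag.HomDefs

/-!
A Hilbert–Serre lemma for families of subspaces.
-/

set_option autoImplicit false

open Module

namespace Pool.Agent.Lib.MP_745d3a_ag.Hom

section hs

variable {K V W : Type*} [Field K] [AddCommGroup V] [Module K V] [AddCommGroup W] [Module K W]

lemma finrank_map_add (U : Submodule K V) [FiniteDimensional K U] (f : V →ₗ[K] W) :
    finrank K (U.map f) + finrank K (U ⊓ LinearMap.ker f : Submodule K V) = finrank K U := by
  have h1 := LinearMap.finrank_range_add_finrank_ker (f.domRestrict U)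
  have h2 : LinearMap.range (f.domRestrict U) = U.map f := by
    ext w
    simp
  have h3 : (LinearMap.ker (f.domRestrict U)).map U.subtype = U ⊓ LinearMap.ker f := by
    ext v
    simp only [Submodule.mem_map, LinearMap.mem_ker, Submodule.mem_inf, Submodule.subtype_apply]
    constructor
    · rintro ⟨y, hy, rfl⟩
      exact ⟨y.2, hy⟩
    · rintro ⟨hv, hf⟩
      exact ⟨⟨v, hv⟩, hf, rfl⟩
  rw [h2] at h1
  rw [← h3, Submodule.finrank_map_subtype_eq]
  exact h1

/-- The dimension formula for the operator `f` between `A / B` and `_ / B₁`. -/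
lemma dim_key (A B₁ : Submodule K V) [FiniteDimensional K A] [FiniteDimensional K B₁]
    (f : V →ₗ[K] V) :
    finrank K (B₁ ⊔ A.map f : Submodule K V) + finrank K (A ⊓ B₁.comap f : Submodule K V) =
      finrank K A + finrank K B₁ := by
  have h1 := finrank_map_add A (B₁.mkQ ∘ₗ f)
  have h2 := finrank_map_add (B₁ ⊔ A.map f) B₁.mkQ
  have h3 : LinearMap.ker (B₁.mkQ ∘ₗ f) = B₁.comap f := by
    rw [LinearMap.ker_comp, Submodule.ker_mkQ]
  have h4 : (B₁ ⊔ A.map f).map B₁.mkQ = A.map (B₁.mkQ ∘ₗ f) := by
    rw [Submodule.map_sup, Submodule.map_comp]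
    have : B₁.map B₁.mkQ = ⊥ := by simp
    rw [this, bot_sup_eq]
  have h5 : (B₁ ⊔ A.map f) ⊓ LinearMap.ker B₁.mkQ = B₁ := by
    rw [Submodule.ker_mkQ]
    exact inf_eq_right.mpr le_sup_left
  rw [h3] at h1
  rw [h4, h5] at h2
  omega

lemma nab_iter_succ (n : ℕ) (f : ℤ → ℤ) (k : ℤ) :
    nab^[n + 1] f k = nab^[n] (nab f) k := by
  rw [Function.iterate_succ_apply]

lemma nab_iter_sub (n : ℕ) (f g : ℤ → ℤ) :
    nab^[n] (fun k => f k - g k) = fun k => nab^[n] f k - nab^[n] g k := by
  induction n generalizing f g with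
  | zero => rfl
  | succ n ih =>
    have h : nab (fun k => f k - g k) = fun k => nab f k - nab g k := by
      funext k; simp only [nab]; ring
    rw [Function.iterate_succ_apply, h, ih, Function.iterate_succ_apply,
      Function.iterate_succ_apply]

lemma nab_iter_shift (n : ℕ) (f : ℤ → ℤ) (a : ℤ) :
    nab^[n] (fun k => f (k - a)) = fun k => nab^[n] f (k - a) := by
  induction n generalizing f with
  | zero => rfl
  | succ n ih =>
    have h : nab (fun k => f (k - a)) = fun k => nab f (k - a) := by
      funext k; simp only [nab]; congr 2; ring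
    rw [Function.iterate_succ_apply, h, ih, Function.iterate_succ_apply]

lemma Acc.mono {n n' : ℕ} {X : Fin n → V →ₗ[K] V} {X' : Fin n' → V →ₗ[K] V}
    {B A B' A' : ℤ → Submodule K V} (h : Acc X B A) (hB : ∀ k, B k ≤ B' k) (hA : ∀ k, A' k ≤ A k)
    (hs : ∀ C : ℤ → Submodule K V, (∀ k, B' k ≤ C k) → (∀ k, C k ≤ A' k) → Stab X' C → Stab X C) :
    Acc X' B' A' := by
  intro C hC h1
  exact h C hC fun m => ⟨fun k => (hB k).trans ((h1 m).1 k), fun k => ((h1 m).2.1 k).trans (hA k),
    hs _ (h1 m).1 (h1 m).2.1 (h1 m).2.2⟩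

/-- **Hilbert–Serre.** -/
theorem hs (n : ℕ) (X : Fin n → V →ₗ[K] V) (hc : ∀ i j v, X i (X j v) = X j (X i v))
    (B A : ℤ → Submodule K V) (hfin : ∀ k, FiniteDimensional K (A k)) (hBA : ∀ k, B k ≤ A k)
    (hB : Stab X B) (hA : Stab X A) (hacc : Acc X B A) :
    ∃ b, ∀ k, b ≤ k → nab^[n] (qd B A) k = 0 := by
  induction n generalizing B A with
  | zero =>
    -- the families `C m k = A k` if `k ≤ m`, `B k` otherwise
    obtain ⟨m, hm⟩ := hacc (fun m k => if k ≤ m then A k else B k) (by
      intro m k
      by_cases h : k ≤ (m : ℤ)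
      · have h' : k ≤ ((m + 1 : ℕ) : ℤ) := by push_cast; omega
        simp only [if_pos h, if_pos h']; exact le_rfl
      · simp only [if_neg h]
        split_ifs
        · exact hBA k
        · exact le_rfl) (by
      intro m
      refine ⟨fun k => ?_, fun k => ?_, fun i => i.elim0⟩
      · split_ifs
        · exact hBA k
        · exact le_rfl
      · split_ifs
        · exact le_rfl
        · exact hBA k)
    refine ⟨m + 1, fun k hk => ?_⟩
    have h1 := hm (m + (k - m).toNat) (Nat.le_add_right _ _) k
    have h2 : k ≤ ((m + (k - m).toNat : ℕ) : ℤ) := by push_cast; omega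
    have h3 : ¬ k ≤ (m : ℤ) := by omega
    simp only [if_pos h2, if_neg h3] at h1
    have h4 := congrArg (fun U : Submodule K V => (finrank K U : ℤ)) h1
    show (finrank K (A k) : ℤ) - (finrank K (B k) : ℤ) = 0
    rw [h4, sub_self]
  | succ n ih =>
    have hfB : ∀ k, FiniteDimensional K (B k) := fun k =>
      Submodule.finiteDimensional_of_le (hBA k)
    -- the kernel pair
    obtain ⟨b1, hb1⟩ := ih (fun i => X i.succ) (fun i j v => hc _ _ v) B
      (fun k => A k ⊓ (B (k + 1)).comap (X 0))
      (fun k => Submodule.finiteDimensional_of_le inf_le_left)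
      (fun k => le_inf (hBA k) (fun v hv => hB 0 k v hv))
      (fun i k v hv => hB _ k v hv)
      (fun i k v hv => ⟨hA _ k v hv.1, by
        show X 0 (X i.succ v) ∈ B (k + 1 + 1)
        rw [hc]
        exact hB _ _ _ hv.2⟩)
      (hacc.mono (fun k => le_rfl) (fun k => inf_le_left) (by
        intro C h1 h2 h3 i
        refine Fin.cases ?_ (fun i => h3 i) i
        intro k v hv
        exact h1 _ (h2 k hv).2))
    -- the cokernel pair
    obtain ⟨b2, hb2⟩ := ih (fun i => X i.succ) (fun i j v => hc _ _ v)
      (fun k => B k ⊔ (A (k - 1)).map (X 0)) A hfin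
      (fun k => sup_le (hBA k) (by
        rw [Submodule.map_le_iff_le_comap]
        intro v hv
        have := hA 0 (k - 1) v hv
        rwa [sub_add_cancel] at this))
      (by
        intro i k v hv
        obtain ⟨y, hy, z, hz, rfl⟩ := Submodule.mem_sup.mp hv
        obtain ⟨w, hw, rfl⟩ := Submodule.mem_map.mp hz
        rw [map_add]
        refine Submodule.add_mem_sup (hB _ k y hy) ?_
        show X i.succ (X 0 w) ∈ _
        rw [hc]
        refine Submodule.mem_map_of_mem ?_
        have := hA i.succ (k - 1) w hw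
        rwa [show k - 1 + 1 = k + 1 - 1 by ring] at this)
      (fun i k v hv => hA _ k v hv)
      (hacc.mono (fun k => le_sup_left) (fun k => le_rfl) (by
        intro C h1 h2 h3 i
        refine Fin.cases ?_ (fun i => h3 i) i
        intro k v hv
        refine h1 _ (Submodule.mem_sup_right ?_)
        rw [add_sub_cancel_right]
        exact Submodule.mem_map_of_mem (h2 k hv)))
    refine ⟨max b2 (b1 + 1), fun k hk => ?_⟩
    have h2 : nab (qd B A) = fun k =>
        qd (fun k => B k ⊔ (A (k - 1)).map (X 0)) A k -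
          qd B (fun k => A k ⊓ (B (k + 1)).comap (X 0)) (k - 1) := by
      funext k
      have h3 := dim_key (A (k - 1)) (B k) (X 0)
      have h5 := congrArg (fun U : Submodule K V => (finrank K U : ℤ))
        (show A (k - 1) ⊓ (B (k - 1 + 1)).comap (X 0) = A (k - 1) ⊓ (B k).comap (X 0) by
          rw [sub_add_cancel])
      simp only [nab, qd]
      have h4 : ((finrank K (B k ⊔ (A (k - 1)).map (X 0) : Submodule K V) : ℕ) : ℤ) +
          (finrank K (A (k - 1) ⊓ (B k).comap (X 0) : Submodule K V) : ℕ) =
          (finrank K (A (k - 1)) : ℕ) + (finrank K (B k) : ℕ) := by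
        exact_mod_cast h3
      linarith
    rw [nab_iter_succ, h2, nab_iter_sub, nab_iter_shift n
      (qd B (fun k => A k ⊓ (B (k + 1)).comap (X 0))) 1]
    dsimp only
    rw [hb2 k (le_trans (le_max_left _ _) hk), hb1 (k - 1) (by
      have := le_trans (le_max_right _ _) hk
      omega), sub_self]

end hs

end Pool.Agent.Lib.MP_745d3a_ag.Hom
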