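import Pool.Agent.Lib.MP_745d3a_ag.HomDiff

/-!
Numerical consequences.
-/

set_option autoImplicit false

namespace Pool.Agent.Lib.MP_745d3a_ag.Hom

section num

lemma sum_dvd (q : ℤ →₀ ℤ) (φ : ℤ → ℤ) (m : ℤ) (h : ∀ k, m ∣ φ k) : m ∣ q.sum fun k x => φ k * x :=
  Finset.dvd_sum fun k _ => Dvd.dvd.mul_right (h k) _

lemma sum_sub' (q : ℤ →₀ ℤ) (φ ψ : ℤ → ℤ) :
    (q.sum fun k x => φ k * x) - (q.sum fun k x => ψ k * x) = q.sum fun k x => (φ k - ψ k) * x := by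
  rw [Finsupp.sum, Finsupp.sum, Finsupp.sum, ← Finset.sum_sub_distrib]
  refine Finset.sum_congr rfl fun k _ => ?_
  ring

variable {N : ℕ} {c1 c2 d1 d2 r : ℤ} {q : ℤ →₀ ℤ}

lemma Num.bound (h : Num N c1 c2 d1 d2 r q) {d : ℤ} (hd1 : d1 ≤ d) (hd2 : d2 ≤ d) (hr : 2 ≤ r) :
    2 * (N : ℤ) ≤ c1 + 2 * d := by
  have h1 := h.e1
  have hN : (0 : ℤ) ≤ N := Int.natCast_nonneg N
  have h7 : 2 * (N : ℤ) ≤ N * r := by nlinarith
  linarith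

lemma Num.square (h : Num N c1 c2 d1 d2 r q) : ∃ x : ℤ, (N : ℤ) ∣ c1 ^ 2 - 4 * c2 - x ^ 2 ∧
    (2 ∣ (N : ℤ) → 2 * (N : ℤ) ∣ c1 ^ 2 - 4 * c2 - x ^ 2) := by
  set Q1 := q.sum fun k x => k * x
  have key : c1 ^ 2 - 4 * c2 - (d1 - d2) ^ 2 =
      N * (-4 * Q1 - 2 * N * r - (N * r ^ 2 - 2 * r * (d1 + d2))) := by
    linear_combination 2 * h.e2 + (c1 + (N * r - d1 - d2)) * h.e1
  refine ⟨d1 - d2, ⟨_, key⟩, ?_⟩
  rintro ⟨n, hn⟩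
  refine ⟨-2 * Q1 - 2 * n * r - (n * r ^ 2 - r * (d1 + d2)), ?_⟩
  rw [key, hn]
  ring

lemma Num.three (h : Num N c1 c2 d1 d2 r q) (hN : 3 ∣ (N : ℤ)) (hΔ : 3 ∣ c1 ^ 2 - 4 * c2) :
    9 ∣ c1 ^ 2 - 4 * c2 := by
  have e1 := h.e1
  have e2 := h.e2
  have e3 := h.e3
  have e4 := h.e4
  set Q1 := q.sum fun k x => k * x with hQ1
  set Q2 := q.sum fun k x => k ^ 2 * x with hQ2
  set Q3 := q.sum fun k x => k ^ 3 * x with hQ3
  have hQ31 : (3 : ℤ) ∣ Q3 - Q1 := by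
    rw [hQ3, hQ1, sum_sub' q (fun k => k ^ 3) (fun k => k)]
    refine sum_dvd q _ 3 fun k => ?_
    have h1 : k % 3 = 0 ∨ k % 3 = 1 ∨ k % 3 = 2 := by omega
    rcases h1 with h1 | h1 | h1 <;>
    · apply Int.dvd_of_emod_eq_zero
      simp [pow_succ, Int.sub_emod, Int.mul_emod, h1]
  obtain ⟨n, hn⟩ := hN
  obtain ⟨δ, hδ⟩ := hΔ
  set D1 := 2 * d1 + c1 with hD1
  set D2 := 2 * d2 + c1 with hD2
  set R1 := 2 * Q1 + c1 * r with hR1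
  set R2 := 4 * Q2 + 4 * c1 * Q1 + c1 ^ 2 * r with hR2
  set R3 := 8 * Q3 + 12 * c1 * Q2 + 6 * c1 ^ 2 * Q1 + c1 ^ 3 * r with hR3
  have f1 : D1 + D2 = 2 * N * r := by rw [hD1, hD2]; linear_combination 2 * (-e1)
  have f2 : 2 * (c1 ^ 2 - 4 * c2) = D1 ^ 2 + D2 ^ 2 - 4 * N * R1 - 4 * N ^ 2 * r := by
    rw [hD1, hD2, hR1]; linear_combination 4 * e2 + 4 * c1 * e1
  have f4 : 2 * (c1 ^ 2 - 4 * c2) ^ 2 = D1 ^ 4 + D2 ^ 4 - 8 * N * R3 - 24 * N ^ 2 * R2 -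
      32 * N ^ 3 * R1 - 16 * N ^ 4 * r := by
    rw [hD1, hD2, hR1, hR2, hR3]
    linear_combination 16 * e4 + 32 * c1 * e3 + 24 * c1 ^ 2 * e2 + 8 * c1 ^ 3 * e1
  have hR31 : (3 : ℤ) ∣ R3 - R1 := by
    obtain ⟨u, hu⟩ := hQ31
    obtain ⟨v, hv⟩ : (3 : ℤ) ∣ c1 ^ 3 - c1 := by
      have h1 : c1 % 3 = 0 ∨ c1 % 3 = 1 ∨ c1 % 3 = 2 := by omega
      rcases h1 with h1 | h1 | h1 <;>
      · apply Int.dvd_of_emod_eq_zero
        simp [pow_succ, Int.sub_emod, Int.mul_emod, h1]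
    refine ⟨2 * Q3 + 4 * c1 * Q2 + 2 * c1 ^ 2 * Q1 + 2 * u + v * r, ?_⟩
    rw [hR3, hR1]
    linear_combination 2 * hu + r * hv
  rw [hn] at f1 f2 f4
  rw [hδ] at f2 f4 ⊢
  have p3 : Prime (3 : ℤ) := Int.prime_three
  have g1 : (3 : ℤ) ∣ D1 := by
    have h1 : (3 : ℤ) ∣ 2 * D1 ^ 2 := by
      have h2 : D2 = 6 * n * r - D1 := by linarith
      refine ⟨2 * δ + 4 * n * R1 + 12 * n ^ 2 * r - 12 * n ^ 2 * r ^ 2 + 4 * n * r * D1, ?_⟩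
      rw [h2] at f2
      linear_combination -f2
    have h2 := (p3.dvd_mul).mp h1
    rcases h2 with h2 | h2
    · exact absurd h2 (by norm_num)
    · exact p3.dvd_of_dvd_pow h2
  have g2 : (3 : ℤ) ∣ D2 := by
    have h2 : D2 = 3 * (2 * n * r) - D1 := by linarith
    rw [h2]
    exact dvd_sub (dvd_mul_right _ _) g1
  obtain ⟨x, hx⟩ := g1
  obtain ⟨y, hy⟩ := g2
  obtain ⟨u, hu⟩ := hR31
  rw [hx, hy] at f2 f4
  have g3 : (3 : ℤ) ∣ 8 * (n * R3) := by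
    refine ⟨9 * x ^ 4 + 9 * y ^ 4 - 24 * n ^ 2 * R2 - 96 * n ^ 3 * R1 - 144 * n ^ 4 * r -
      2 * δ ^ 2, ?_⟩
    refine mul_left_cancel₀ (show (3 : ℤ) ≠ 0 by norm_num) ?_
    linear_combination f4
  have g4 : (3 : ℤ) ∣ n * R1 := by
    have h2 := ((p3.dvd_mul).mp g3).resolve_left (by norm_num)
    have h3 : n * R1 = n * R3 - 3 * (n * u) := by linear_combination -n * hu
    rw [h3]
    exact dvd_sub h2 (dvd_mul_right _ _)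
  obtain ⟨w, hw⟩ := g4
  have g5 : (3 : ℤ) ∣ 2 * δ := by
    refine ⟨x ^ 2 + y ^ 2 - 4 * w - 4 * n ^ 2 * r, ?_⟩
    refine mul_left_cancel₀ (show (3 : ℤ) ≠ 0 by norm_num) ?_
    linear_combination f2 - 12 * hw
  obtain ⟨z, hz⟩ := ((p3.dvd_mul).mp g5).resolve_left (by norm_num)
  exact ⟨z, by rw [hz]; ring⟩

lemma Num.four (h : Num N c1 c2 d1 d2 r q) (hN0 : 0 < N) (hN : 4 ∣ (N : ℤ)) :
    ¬ (32 : ℤ) ∣ c1 ^ 2 - 4 * c2 - 20 := by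
  have e1 := h.e1
  have e2 := h.e2
  have e3 := h.e3
  set Q1 := q.sum fun k x => k * x with hQ1
  set Q2 := q.sum fun k x => k ^ 2 * x with hQ2
  rintro ⟨s, hs⟩
  have hQ21 : (2 : ℤ) ∣ Q2 - Q1 := by
    rw [hQ2, hQ1, sum_sub' q (fun k => k ^ 2) (fun k => k)]
    refine sum_dvd q _ 2 fun k => ?_
    rcases Int.even_or_odd' k with ⟨t, rfl | rfl⟩
    · exact ⟨2 * t ^ 2 - t, by ring⟩
    · exact ⟨2 * t ^ 2 + t, by ring⟩
  -- `c1` is even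
  obtain ⟨a, ha⟩ : ∃ a, c1 = 2 * a := by
    rcases Int.even_or_odd' c1 with ⟨t, ht | ht⟩
    · exact ⟨t, ht⟩
    · exfalso
      rw [ht] at hs
      have : (2 * t + 1) ^ 2 = 2 * (2 * t ^ 2 + 2 * t) + 1 := by ring
      rw [this] at hs
      omega
  obtain ⟨n, hn⟩ := hN
  have hn0 : n ≠ 0 := by
    rintro rfl
    omega
  set D1 := d1 + a with hD1
  set D2 := d2 + a with hD2
  set S1 := Q1 + a * r with hS1
  set S2 := Q2 + 2 * a * Q1 + a ^ 2 * r with hS2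
  obtain ⟨v, hv⟩ : (2 : ℤ) ∣ S2 - S1 := by
    obtain ⟨u, hu⟩ := hQ21
    obtain ⟨w, hw⟩ : (2 : ℤ) ∣ a ^ 2 - a := by
      rcases Int.even_or_odd' a with ⟨t, rfl | rfl⟩
      · exact ⟨2 * t ^ 2 - t, by ring⟩
      · exact ⟨2 * t ^ 2 + t, by ring⟩
    exact ⟨u + a * Q1 + w * r, by rw [hS2, hS1]; linear_combination hu + r * hw⟩
  subst ha
  rw [hn] at e1 e2 e3
  have f1 : D2 = 4 * n * r - D1 := by rw [hD1, hD2]; linear_combination -e1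
  have f2 : 10 + 16 * s = D1 ^ 2 + D2 ^ 2 - 8 * n * S1 - 16 * n ^ 2 * r := by
    rw [hD1, hD2, hS1]
    refine mul_left_cancel₀ (show (2 : ℤ) ≠ 0 by norm_num) ?_
    linear_combination 2 * (e2 + 2 * a * e1) - hs
  have f3 : 0 = D1 ^ 3 + D2 ^ 3 - 12 * n * S2 - 48 * n ^ 2 * S1 - 64 * n ^ 3 * r := by
    rw [hD1, hD2, hS1, hS2]
    linear_combination e3 + 3 * a * e2 + 3 * a ^ 2 * e1
  rw [f1] at f2 f3
  have f4 : r * (3 * D1 ^ 2 - 12 * n * r * D1 + 16 * n ^ 2 * r ^ 2) = 3 * S2 + 12 * n * S1 +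
      16 * n ^ 2 * r := by
    refine mul_left_cancel₀ (show 4 * n ≠ 0 by positivity) ?_
    linear_combination -f3
  have f5 : D1 ^ 2 - 4 * n * r * D1 + 8 * n ^ 2 * r ^ 2 = 5 + 8 * s + 4 * n * S1 + 8 * n ^ 2 * r := by
    refine mul_left_cancel₀ (show (2 : ℤ) ≠ 0 by norm_num) ?_
    linear_combination -f2
  -- `D1` is odd
  obtain ⟨x, hx⟩ : ∃ x, D1 = 2 * x + 1 := by
    rcases Int.even_or_odd' D1 with ⟨t, ht | ht⟩
    · exfalso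
      rw [ht] at f5
      have h1 : 2 * (2 * t ^ 2 - 4 * n * r * t + 4 * n ^ 2 * r ^ 2 - 4 * s - 2 * n * S1 -
        4 * n ^ 2 * r) = 5 := by linear_combination f5
      omega
    · exact ⟨t, ht⟩
  rw [hx] at f4 f5
  obtain ⟨T, hT⟩ : ∃ T, x ^ 2 + x = 2 * T := by
    rcases Int.even_or_odd' x with ⟨t, rfl | rfl⟩
    · exact ⟨2 * t ^ 2 + t, by ring⟩
    · exact ⟨2 * t ^ 2 + 3 * t + 1, by ring⟩
  have f6 : x ^ 2 + x - n * r * (2 * x + 1) + 2 * n ^ 2 * r ^ 2 = 1 + 2 * s + n * S1 +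
      2 * n ^ 2 * r := by
    refine mul_left_cancel₀ (show (4 : ℤ) ≠ 0 by norm_num) ?_
    linear_combination f5
  -- parities
  have f7 : S1 = r + 2 * (r * (6 * x ^ 2 + 6 * x + 1 - 6 * n * r * (2 * x + 1) + 8 * n ^ 2 * r ^ 2) -
      S2 - 6 * n * S1 - 8 * n ^ 2 * r - v) := by
    linear_combination -f4 - hv
  set V := r * (6 * x ^ 2 + 6 * x + 1 - 6 * n * r * (2 * x + 1) + 8 * n ^ 2 * r ^ 2) -
      S2 - 6 * n * S1 - 8 * n ^ 2 * r - v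
  have f8 : 2 * (T - n * r * x - n * r + n ^ 2 * r ^ 2 - s - n * V - n ^ 2 * r) = 1 := by
    have h1 : n * S1 = n * r + 2 * (n * V) := by rw [f7]; ring
    linear_combination f6 - hT + h1
  omega

end num

end Pool.Agent.Lib.MP_745d3a_ag.Hom
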