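import Pool.Agent.Lib.MP_745d3a_ag.HomH
import Pool.Agent.Lib.MP_745d3a_ag.HomNum

/-!
Rank two bundles invariant under a homology: assembly.
-/

set_option autoImplicit false

open MvPolynomial

namespace Pool.Agent.Lib.MP_745d3a_ag.Hom

open Pool.Agent.Lib.MP_745d3a_ag PF

section main

variable {K M : Type*} [Field K] [CharZero K] {N : ℕ} [NeZero N] [AddCommGroup M]
  [Module (MvPolynomial (Fin 5) K) M]
  [Module K M] [IsScalarTower K (MvPolynomial (Fin 5) K) M]

/-- The numerical part. -/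
theorem numerical [Module.Finite (MvPolynomial (Fin 5) K) M] [Module.IsReflexive (MvPolynomial (Fin 5) K) M]
    (𝓐 : ℤ × ZMod N → AddSubgroup M) [DirectSum.Decomposition 𝓐]
    [SetLike.GradedSMul (weightedHomogeneousSubmodule K (om N)) 𝓐]
    (hM : Bun (X : Fin 5 → (MvPolynomial (Fin 5) K)) M) (A : ℤ × ZMod N → Submodule K M)
    (hA : ∀ g m, m ∈ A g ↔ m ∈ 𝓐 g) {c : ZMod N}
    (hC : ∀ k j, j ≠ c → ∀ m ∈ 𝓐 (k, j), ∃ n ∈ 𝓐 (k - 1, j - 1), m = (X 0 : (MvPolynomial (Fin 5) K)) • n)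
    {n1 n2 : M} {n : ℕ} {D : (MvPolynomial (Fin 5) K)} (L : Loc N n1 n2 n D) {d1 d2 : ℤ}
    (h1 : n1 ∈ 𝓐 (d1, c)) (h2 : n2 ∈ 𝓐 (d2, c)) (hgen : ¬ Gen2 (MvPolynomial (Fin 5) K) M) (c1 c2 k₀ : ℤ)
    (hχ : ∀ k, k₀ ≤ k → 24 * ∑ j : ZMod N, (Module.finrank K (A (k, j)) : ℤ) = rr c1 c2 k) :
    ∃ (r : ℤ) (q : ℤ →₀ ℤ), 2 ≤ r ∧ Num N c1 c2 d1 d2 r q ∧
      ∀ k, nab^[5] (fun k => ∑ j : ZMod N, (Module.finrank K (A (k, j)) : ℤ)) k =
        (if k = d1 then 1 else 0) + (if k = d2 then 1 else 0) + q k - q (k - N) := by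
  classical
  let _j : Module (MvPolynomial (Fin 4) K) M := Module.compHom M (io K).toRingHom
  have hR : ∀ (r : (MvPolynomial (Fin 4) K)) (m : M), r • m = io K r • m := fun _ _ => rfl
  -- the families
  let AA : ℤ → Submodule K M := fun k => A (k, c)
  let BB : ℤ → Submodule K M := fun k =>
    { carrier := {m | m ∈ 𝓐 (k, c) ∧ ∃ a b : (MvPolynomial (Fin 5) K), m = a • n1 + b • n2}
      add_mem' := by
        rintro x y ⟨hx, a, b, rfl⟩ ⟨hy, a', b', rfl⟩
        exact ⟨(𝓐 (k, c)).add_mem hx hy, a + a', b + b', by rw [add_smul, add_smul]; abel⟩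
      zero_mem' := ⟨(𝓐 (k, c)).zero_mem, 0, 0, by simp⟩
      smul_mem' := by
        rintro a x ⟨hx, α, β, rfl⟩
        exact ⟨smulK_mem_g (K := K) (om N) 𝓐 a hx, a • α, a • β, by
          rw [smul_add, smul_assoc, smul_assoc]⟩ }
  have hBB : ∀ k m, m ∈ BB k ↔ m ∈ 𝓐 (k, c) ∧ ∃ a b : (MvPolynomial (Fin 5) K), m = a • n1 + b • n2 :=
    fun _ _ => Iff.rfl
  have hAA : ∀ k m, m ∈ AA k ↔ m ∈ 𝓐 (k, c) := fun k m => hA _ _
  have hBA : ∀ k, BB k ≤ AA k := fun k m hm => (hAA k m).mpr hm.1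
  have hfin : ∀ k, FiniteDimensional K (AA k) := fun k => fin_piece (K := K) 𝓐 (k, c) _ (hAA k)
  have hstabX : ∀ (i : Fin 4) (k : ℤ) (m : M), m ∈ 𝓐 (k, c) →
      (X i.succ : (MvPolynomial (Fin 5) K)) • m ∈ 𝓐 (k + 1, c) := by
    intro i k m hm
    have h3 := X_smul_mem_g (K := K) (om N) 𝓐 i.succ hm
    rw [om_succ] at h3
    have h4 : ((1, 0) : ℤ × ZMod N) + (k, c) = (k + 1, c) := by
      ext
      · simp; ring
      · simp
    rwa [h4] at h3
  have hstabA : Stab (fun i : Fin 4 => mulX K M i.succ) AA := by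
    intro i k v hv
    rw [hAA] at hv ⊢
    exact hstabX i k v hv
  have hstabB : Stab (fun i : Fin 4 => mulX K M i.succ) BB := by
    rintro i k v ⟨hv, a, b, rfl⟩
    refine ⟨hstabX i k _ hv, X i.succ * a, X i.succ * b, ?_⟩
    show (X i.succ : (MvPolynomial (Fin 5) K)) • (a • n1 + b • n2) = _
    rw [smul_add, mul_smul, mul_smul]
  have hacc := acc_main (K := K) hR L (c := c) h1 h2 BB AA hAA hBB
  obtain ⟨b₀, hb₀⟩ := hs 4 (fun i : Fin 4 => mulX K M i.succ)
    (fun i j v => smul_comm _ _ _) BB AA hfin hBA hstabB hstabA hacc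
  -- lower bound of the degrees
  obtain ⟨B, hB⟩ := bounded_below (K := K) (om N) 𝓐 (AddMonoidHom.fst ℤ (ZMod N)) (by
    intro i; show (0 : ℤ) ≤ 1; norm_num)
  have hzero : ∀ k j, k < B → A (k, j) = ⊥ := by
    intro k j hk
    rw [eq_bot_iff]
    intro m hm
    rw [hA] at hm
    rw [Submodule.mem_bot]
    by_contra hm0
    have := hB _ m hm hm0
    have : B ≤ k := this
    omega
  have hne1 : n1 ≠ 0 := by
    rintro rfl
    exact one_ne_zero (L.ind 1 0 (by simp)).1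
  have hne2 : n2 ≠ 0 := by
    rintro rfl
    exact one_ne_zero (L.ind 0 1 (by simp)).2
  have hBd1 : B ≤ d1 := hB _ n1 h1 hne1
  have hBd2 : B ≤ d2 := hB _ n2 h2 hne2
  set g : ℤ → ℤ := qd BB AA with hg
  set h : ℤ → ℤ := fun k => ∑ j : ZMod N, (Module.finrank K (A (k, j)) : ℤ) with hh
  set H : ℤ → ℤ := fun k => (Module.finrank K (AA k) : ℤ) with hH
  set f : ℤ → ℤ := cnt 4 (fun e => N ∣ e) with hf
  have hhB : ∀ k, k < B → h k = 0 := by
    intro k hk
    refine Finset.sum_eq_zero fun j _ => ?_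
    rw [hzero k j hk, finrank_bot]; rfl
  have hgB : ∀ k, k < B → g k = 0 := by
    intro k hk
    have e1 : AA k = ⊥ := hzero k c hk
    have e2 : BB k = ⊥ := by
      rw [eq_bot_iff, ← e1]; exact hBA k
    show (Module.finrank K (AA k) : ℤ) - (Module.finrank K (BB k) : ℤ) = 0
    rw [e1, e2, sub_self]
  have hNpos : 0 < N := NeZero.pos N
  -- `h` in terms of `H`
  have hsum : ∀ k, h k = ∑ t ∈ Finset.range N, H (k - t) := by
    intro k
    show ∑ j : ZMod N, (Module.finrank K (A (k, j)) : ℤ) = _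
    rw [sum_zmod c (fun j => (Module.finrank K (A (k, j)) : ℤ))]
    refine Finset.sum_congr rfl fun t ht => ?_
    rw [finrank_shift hM.tf hC t (Finset.mem_range.mp ht) k (A (k, c + t)) (A (k - t, c))
      (hA _) (hA _)]
  have hnab : nab h = fun k => H k - H (k - N) := by
    funext k
    show h k - h (k - 1) = _
    rw [hsum, hsum, ← Finset.sum_sub_distrib]
    have e1 := Finset.sum_range_sub' (fun t : ℕ => H (k - t)) N
    simp only [Nat.cast_zero, sub_zero] at e1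
    rw [← e1]
    refine Finset.sum_congr rfl fun t _ => ?_
    congr 2
    push_cast; ring
  have hHg : H = fun k => g k - (-(f (k - d1) + f (k - d2))) := by
    funext k
    have e1 := finrank_free L.ind h1 h2 k (BB k) (hBB k)
    show (Module.finrank K (AA k) : ℤ) =
      (Module.finrank K (AA k) : ℤ) - (Module.finrank K (BB k) : ℤ) - _
    rw [e1]
    ring
  have hp : ∀ k, nab^[5] h k = (if k = d1 then 1 else 0) + (if k = d2 then 1 else 0) +
      nab^[4] g k - nab^[4] g (k - N) := by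
    intro k
    have hneg : ∀ (m : ℕ) (u v : ℤ → ℤ), nab^[m] (fun k => -(u k + v k)) =
        fun k => -(nab^[m] u k + nab^[m] v k) := by
      intro m
      induction m with
      | zero => intro u v; rfl
      | succ m ih =>
        intro u v
        rw [Function.iterate_succ_apply, Function.iterate_succ_apply, Function.iterate_succ_apply,
          ← ih]
        congr 1
        funext k
        simp only [nab]
        ring
    have e1 : nab^[4] H = fun k => nab^[4] g k + (nab^[4] f (k - d1) + nab^[4] f (k - d2)) := by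
      rw [hHg, nab_iter_sub 4 g (fun k => -(f (k - d1) + f (k - d2))), hneg 4
        (fun k => f (k - d1)) (fun k => f (k - d2)), nab_iter_shift, nab_iter_shift]
      funext k
      ring
    rw [Function.iterate_succ_apply, hnab, nab_iter_sub 4 H (fun k => H (k - N)),
      nab_iter_shift 4 H N]
    show nab^[4] H k - nab^[4] H (k - N) = _
    rw [e1]
    have e2 := cnt_key N hNpos (k - d1)
    have e3 := cnt_key N hNpos (k - d2)
    simp only [sub_eq_zero] at e2 e3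
    show nab^[4] g k + (nab^[4] f (k - d1) + nab^[4] f (k - d2)) -
      (nab^[4] g (k - N) + (nab^[4] f (k - N - d1) + nab^[4] f (k - N - d2))) = _
    rw [show k - (N : ℤ) - d1 = k - d1 - N by ring, show k - (N : ℤ) - d2 = k - d2 - N by ring,
      ← e2, ← e3]
    ring
  -- the rank
  have hconst : ∀ m : ℕ, nab^[3] g (b₀ + m) = nab^[3] g b₀ := by
    intro m
    induction m with
    | zero => simp
    | succ m ih =>
      have e1 := hb₀ (b₀ + ((m + 1 : ℕ) : ℤ)) (by push_cast; linarith [(Nat.cast_nonneg m : (0 : ℤ) ≤ m)])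
      rw [Function.iterate_succ_apply'] at e1
      have e2 : nab^[3] g (b₀ + ((m + 1 : ℕ) : ℤ)) - nab^[3] g (b₀ + ((m + 1 : ℕ) : ℤ) - 1) = 0 := e1
      rw [show b₀ + ((m + 1 : ℕ) : ℤ) - 1 = b₀ + m by push_cast; ring, ih] at e2
      linarith
  have hconst' : ∀ k, b₀ ≤ k → nab^[3] g k = nab^[3] g b₀ := by
    intro k hk
    have := hconst (k - b₀).toNat
    rwa [Int.toNat_of_nonneg (by linarith), add_sub_cancel] at this
  set r := nab^[3] g b₀ with hr
  obtain ⟨q, hq, hnum⟩ := arith h g N B (max k₀ b₀) c1 c2 d1 d2 r hhB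
    (fun k hk => hχ k ((le_max_left _ _).trans hk)) hgB
    (fun k hk => hb₀ k ((le_max_right _ _).trans hk))
    (fun k hk => hconst' k ((le_max_right _ _).trans hk)) hBd1 hBd2 hp
  refine ⟨r, q, ?_, hnum, fun k => by rw [hq, hq]; exact hp k⟩
  -- two independent elements
  have hdep : ¬ (∀ a b, ∀ u ∈ 𝓐 (a, c), ∀ v ∈ 𝓐 (b, c), ∃ r s : (MvPolynomial (Fin 4) K), (r ≠ 0 ∨ s ≠ 0) ∧
      ∃ α β : (MvPolynomial (Fin 5) K), io K r • u + io K s • v = α • n1 + β • n2) :=
    fun hd => hgen (gen2_of_dep hR hM hC L h1 h2 hd)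
  push Not at hdep
  obtain ⟨a, b, u, hu, v, hv, hind⟩ := hdep
  have hlow : ∀ k, cnt 3 (fun _ => True) (k - a) + cnt 3 (fun _ => True) (k - b) ≤ g k := by
    intro k
    refine finrank_lower hu hv (fun m => ∃ α β : (MvPolynomial (Fin 5) K), m = α • n1 + β • n2) ?_ ⟨0, 0, by simp⟩ k
      (AA k) (BB k) (hAA k) (hBA k) (fun m hm => hm.2)
    rintro r s ⟨α, β, h3⟩
    by_contra hrs
    have h4 : r ≠ 0 ∨ s ≠ 0 := by tauto
    exact hind r s h4 α β h3
  have hgrow := growth (fun k => g k - (cnt 3 (fun _ => True) (k - a) +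
    cnt 3 (fun _ => True) (k - b))) (r - 2) 0 (max b₀ (max a b)) (fun k _ => by
      have := hlow k
      linarith) (fun k hk => by
      have e0 : (fun k => g k - (cnt 3 (fun _ => True) (k - a) + cnt 3 (fun _ => True) (k - b))) =
          fun k => (fun k => g k - cnt 3 (fun _ => True) (k - a)) k -
            cnt 3 (fun _ => True) (k - b) := by
        funext k; ring
      rw [e0, nab_iter_sub 3 (fun k => g k - cnt 3 (fun _ => True) (k - a))
        (fun k => cnt 3 (fun _ => True) (k - b)), nab_iter_sub 3 g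
        (fun k => cnt 3 (fun _ => True) (k - a)), nab_iter_shift, nab_iter_shift]
      show nab^[3] g k - nab^[3] (cnt 3 (fun _ => True)) (k - a) -
        nab^[3] (cnt 3 (fun _ => True)) (k - b) = r - 2
      have hk1 := (le_max_left _ _).trans hk
      have hk2 := ((le_max_left a b).trans (le_max_right b₀ _)).trans hk
      have hk3 := ((le_max_right a b).trans (le_max_right b₀ _)).trans hk
      rw [hconst' k hk1, cnt_three _ (by linarith), cnt_three _ (by linarith)]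
      ring)
  linarith

/-- The decomposition into subgroups underlying a decomposition into subspaces. -/
@[instance_reducible]
noncomputable def decA {G : Type*} [DecidableEq G] (𝓜 : G → Submodule K M)
    [DirectSum.Decomposition 𝓜] :
    DirectSum.Decomposition (fun g => (𝓜 g).toAddSubgroup) where
  decompose' m := DirectSum.Decomposition.decompose' (ℳ := 𝓜) m
  left_inv m := DirectSum.Decomposition.left_inv (ℳ := 𝓜) m
  right_inv m := DirectSum.Decomposition.right_inv (ℳ := 𝓜) m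

omit [CharZero K] [Module K M] [IsScalarTower K (MvPolynomial (Fin 5) K) M] in
/-- A basis from two generators. -/
lemma free_of_gen2 (hM : Bun (X : Fin 5 → (MvPolynomial (Fin 5) K)) M) (h : Gen2 (MvPolynomial (Fin 5) K) M) : Module.Free (MvPolynomial (Fin 5) K) M := by
  have hx : Coord K (X : Fin 5 → (MvPolynomial (Fin 5) K)) := ⟨by
    have : (aeval X : (MvPolynomial (Fin 5) K) →ₐ[K] (MvPolynomial (Fin 5) K)) = AlgHom.id K (MvPolynomial (Fin 5) K) := by ext i; simp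
    rw [this]; exact Function.bijective_id⟩
  obtain ⟨m₁, m₂, hm⟩ := h
  have hind := hM.gen2_indep hx m₁ m₂ hm
  have hli : LinearIndependent (MvPolynomial (Fin 5) K) ![m₁, m₂] := by
    rw [LinearIndependent.pair_iff]
    exact hind
  have hsp : ⊤ ≤ Submodule.span (MvPolynomial (Fin 5) K) (Set.range ![m₁, m₂]) := by
    intro m _
    rw [Matrix.range_cons, Matrix.range_cons, Matrix.range_empty, Set.union_empty,
      ← Set.insert_eq]
    obtain ⟨a, e, he⟩ := hm m
    exact Submodule.mem_span_pair.mpr ⟨a, e, he.symm⟩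
  exact Module.Free.of_basis (Module.Basis.mk hli hsp)

/-- **Main theorem.** -/
theorem main [Module.Finite (MvPolynomial (Fin 5) K) M] [Module.IsReflexive (MvPolynomial (Fin 5) K) M] (hrank : Module.finrank (MvPolynomial (Fin 5) K) M = 2)
    (hfree : ∀ (p : Ideal (MvPolynomial (Fin 5) K)) [p.IsPrime], (∃ i, (X i : (MvPolynomial (Fin 5) K)) ∉ p) →
        Module.Free (Localization.AtPrime p) (LocalizedModule p.primeCompl M))
    (𝓜 : ℤ × ZMod N → Submodule K M) [DirectSum.Decomposition 𝓜]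
    [SetLike.GradedSMul (weightedHomogeneousSubmodule K (om N)) 𝓜]
    (c1 c2 d : ℤ)
    (hχ : ∃ k₀ : ℤ, ∀ k, k₀ ≤ k → 24 * ∑ j : ZMod N, (Module.finrank K (𝓜 (k, j)) : ℤ) =
      rr c1 c2 k)
    (hd : ∀ m : M, ∃ f : (MvPolynomial (Fin 5) K), f ∉ Ideal.span ((X : Fin 5 → (MvPolynomial (Fin 5) K)) '' {i | i ≠ 0}) ∧
      f • m ∈ Submodule.span (MvPolynomial (Fin 5) K) {x | ∃ k ≤ d, ∃ j, x ∈ 𝓜 (k, j)}) :
    (∃ (b : Module.Basis (Fin 2) (MvPolynomial (Fin 5) K) M) (e : Fin 2 → ℤ × ZMod N), ∀ k, b k ∈ 𝓜 (e k)) ∨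
    ((∃ c : ZMod N, ∀ k j, j ≠ c → ∀ m ∈ 𝓜 (k, j), ∃ n ∈ 𝓜 (k - 1, j - 1), m = (X 0 : (MvPolynomial (Fin 5) K)) • n) ∧
    ∃ (d1 d2 r : ℤ) (q : ℤ →₀ ℤ), d1 ≤ d ∧ d2 ≤ d ∧ 2 ≤ r ∧ Num N c1 c2 d1 d2 r q ∧
      ∀ k, nab^[5] (fun k => ∑ j : ZMod N, (Module.finrank K (𝓜 (k, j)) : ℤ)) k =
        (if k = d1 then 1 else 0) + (if k = d2 then 1 else 0) + q k - q (k - N)) := by
  classical
  let 𝓐 : ℤ × ZMod N → AddSubgroup M := fun g => (𝓜 g).toAddSubgroup
  let _i : DirectSum.Decomposition 𝓐 := decA 𝓜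
  have _g : SetLike.GradedSMul (weightedHomogeneousSubmodule K (om N)) 𝓐 :=
    ⟨fun _ _ _ _ ha hm => SetLike.GradedSMul.smul_mem (A := weightedHomogeneousSubmodule K (om N))
      (B := 𝓜) ha hm⟩
  have hA : ∀ g m, m ∈ 𝓜 g ↔ m ∈ 𝓐 g := fun _ _ => Iff.rfl
  have hx : Coord K (X : Fin 5 → (MvPolynomial (Fin 5) K)) := ⟨by
    have : (aeval X : (MvPolynomial (Fin 5) K) →ₐ[K] (MvPolynomial (Fin 5) K)) = AlgHom.id K (MvPolynomial (Fin 5) K) := by ext i; simp
    rw [this]; exact Function.bijective_id⟩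
  have hM : Bun (X : Fin 5 → (MvPolynomial (Fin 5) K)) M := by
    have h1 := bun_of_reflexive (M := M) hrank (fun p _ => hfree p) (fun i => Pi.single i (1 : K))
    have h2 : (fun i => linForm K (Pi.single i (1 : K))) = (X : Fin 5 → (MvPolynomial (Fin 5) K)) := by
      funext i
      rw [linForm_apply, Finset.sum_eq_single i]
      · simp
      · intro j _ hj
        rw [Pi.single_eq_of_ne hj, zero_smul]
      · intro h; exact absurd (Finset.mem_univ i) h
    rwa [h2] at h1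
  have hbasis : Gen2 (MvPolynomial (Fin 5) K) M → ∃ (b : Module.Basis (Fin 2) (MvPolynomial (Fin 5) K) M) (e : Fin 2 → ℤ × ZMod N),
      ∀ k, b k ∈ 𝓜 (e k) := fun h =>
    exists_hom_basis (ω := om N) (𝓜 := 𝓐) (δ := AddMonoidHom.fst ℤ (ZMod N)) (fun _ => rfl)
      (free_of_gen2 hM h) hrank
  by_cases hgen : Gen2 (MvPolynomial (Fin 5) K) M
  · exact Or.inl (hbasis hgen)
  right
  -- the hyperplane
  have hp : (Ideal.span {(X 0 : (MvPolynomial (Fin 5) K))}).IsPrime := by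
    rw [Ideal.span_singleton_prime X_prime.ne_zero]
    exact X_prime
  obtain ⟨m1, m2, H⟩ := exists_LB (M := M) (Ideal.span {(X 0 : (MvPolynomial (Fin 5) K))}) (hfree _ ⟨1, by
    rw [Ideal.mem_span_singleton, X_dvd_X]
    decide⟩) hrank
  obtain ⟨g1, g2, m1, hm1, m2, hm2, H⟩ := H.homogeneous 𝓐
  have hcl : g2.2 = g1.2 := by
    by_contra h
    exact hgen (gen2_of_ne (𝓐 := 𝓐) hM hm1 hm2 H (Ne.symm h))
  have hC : ∀ k j, j ≠ g1.2 → ∀ m ∈ 𝓐 (k, j), ∃ n ∈ 𝓐 (k - 1, j - 1), m = (X 0 : (MvPolynomial (Fin 5) K)) • n :=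
    fun k j hj m hm => div_of_ne hm1 hm2 H hcl hj hm
  refine ⟨⟨g1.2, hC⟩, ?_⟩
  -- the centre
  have hp0 : (Ideal.span ((X : Fin 5 → (MvPolynomial (Fin 5) K)) '' {i | i ≠ 0})).IsPrime := hx.isPrime_span _
  obtain ⟨m1', m2', H'⟩ := exists_LB (M := M) (Ideal.span ((X : Fin 5 → (MvPolynomial (Fin 5) K)) '' {i | i ≠ 0}))
    (hfree _ ⟨0, by
      rw [mem_p0_iff]
      push Not
      refine ⟨1, ?_⟩
      rw [coeff_X, if_pos rfl]
      exact one_ne_zero (α := K)⟩) hrank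
  obtain ⟨d1, hd1, d2, hd2, n1, hn1, n2, hn2, ind, n, D, hD1, hD2, hD3⟩ :=
    exists_local0 (𝓐 := 𝓐) hC H' hp0 d hd
  obtain ⟨k₀, hχ⟩ := hχ
  obtain ⟨r, q, hr, hnum, hq⟩ := numerical 𝓐 hM 𝓜 hA hC ⟨ind, hD1, hD2, hD3⟩ hn1 hn2 hgen
    c1 c2 k₀ hχ
  exact ⟨d1, d2, r, q, hd1, hd2, hr, hnum, hq⟩

end main

end Pool.Agent.Lib.MP_745d3a_ag.Hom
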