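import Pool.Agent.Lib.MP_745d3a_ag.Graded
import Pool.Agent.Lib.MP_745d3a_ag.Poly

/-!
Local bases of rank two modules, and extension of sections over codimension two for
reflexive modules.
-/

open MvPolynomial

set_option linter.unusedSectionVars false
set_option linter.unusedSimpArgs false

namespace Pool.Agent.Lib.MP_745d3a_ag

section general

variable {R M : Type*} [CommRing R] [IsDomain R] [AddCommGroup M] [Module R M]

/-- The pair `m1, m2` is a basis of `M` locally at `p`. -/
structure LB (p : Ideal R) (m1 m2 : M) : Prop where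
  ind : ∀ a b : R, a • m1 + b • m2 = 0 → a = 0 ∧ b = 0
  span : ∀ m : M, ∃ D a b : R, D ∉ p ∧ D • m = a • m1 + b • m2

lemma exists_LB [Module.Finite R M] (p : Ideal R) [p.IsPrime]
    (hfree : Module.Free (Localization.AtPrime p) (LocalizedModule p.primeCompl M))
    (hrank : Module.finrank R M = 2) : ∃ m1 m2 : M, LB p m1 m2 := by
  classical
  set Rp := Localization.AtPrime p
  set Mp := LocalizedModule p.primeCompl M
  set f := LocalizedModule.mkLinearMap p.primeCompl M
  have hp : p.primeCompl ≤ nonZeroDivisors R := Ideal.primeCompl_le_nonZeroDivisors p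
  have h1 : Module.finrank Rp Mp = 2 := by
    rw [IsLocalization.finrank_eq Rp p.primeCompl hp,
      IsLocalizedModule.finrank_eq p.primeCompl f hp, hrank]
  have : Module.Finite Rp Mp := Module.Finite.of_isLocalizedModule p.primeCompl f
  let b : Module.Basis (Fin 2) Rp Mp := Module.finBasisOfFinrankEq Rp Mp h1
  have hb : ∀ c1 c2 : Rp, c1 • b 0 + c2 • b 1 = 0 → c1 = 0 ∧ c2 = 0 := by
    intro c1 c2 h
    have h2 := Fintype.linearIndependent_iff.mp b.linearIndependent ![c1, c2]
      (by rw [Fin.sum_univ_two]; simpa using h)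
    exact ⟨by simpa using h2 0, by simpa using h2 1⟩
  obtain ⟨⟨x1, s1⟩, hx1⟩ := IsLocalizedModule.surj p.primeCompl f (b 0)
  obtain ⟨⟨x2, s2⟩, hx2⟩ := IsLocalizedModule.surj p.primeCompl f (b 1)
  have hinj : ∀ a : R, algebraMap R Rp a = 0 → a = 0 := by
    intro a ha
    exact (injective_iff_map_eq_zero _).mp (IsLocalization.injective Rp hp) a ha
  have hs0 : ∀ s : p.primeCompl, (s : R) ≠ 0 := by
    intro s h
    exact s.2 (by rw [h]; exact p.zero_mem)
  simp only [Submonoid.smul_def] at hx1 hx2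
  refine ⟨x1, x2, ?_, ?_⟩
  · intro a c hac
    have h2 : f (a • x1 + c • x2) = 0 := by rw [hac, map_zero]
    rw [map_add, map_smul, map_smul, ← hx1, ← hx2, smul_smul, smul_smul,
      ← algebraMap_smul Rp (a * (s1 : R)), ← algebraMap_smul Rp (c * (s2 : R))] at h2
    obtain ⟨h3, h4⟩ := hb _ _ h2
    exact ⟨(mul_eq_zero.mp (hinj _ h3)).resolve_right (hs0 s1),
      (mul_eq_zero.mp (hinj _ h4)).resolve_right (hs0 s2)⟩
  · intro m
    have h2 : f m = b.repr (f m) 0 • b 0 + b.repr (f m) 1 • b 1 := by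
      have := b.sum_repr (f m)
      rw [Fin.sum_univ_two] at this
      exact this.symm
    set c1 := b.repr (f m) 0
    set c2 := b.repr (f m) 1
    obtain ⟨⟨a1, t1⟩, ha1⟩ := IsLocalization.surj p.primeCompl c1
    obtain ⟨⟨a2, t2⟩, ha2⟩ := IsLocalization.surj p.primeCompl c2
    simp only at ha1 ha2
    have h3 : f (((t1 : R) * t2 * s1 * s2) • m) =
        f ((a1 * t2 * s2) • x1 + (a2 * t1 * s1) • x2) := by
      rw [map_add, map_smul, map_smul, map_smul, ← hx1, ← hx2, h2, smul_add,
        ← algebraMap_smul Rp ((t1 : R) * t2 * s1 * s2), smul_smul,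
        ← algebraMap_smul Rp ((t1 : R) * t2 * s1 * s2), smul_smul,
        ← algebraMap_smul Rp (a1 * (t2 : R) * s2), ← algebraMap_smul Rp (s1 : R), smul_smul,
        ← algebraMap_smul Rp (a2 * (t1 : R) * s1), ← algebraMap_smul Rp (s2 : R), smul_smul]
      congr 2
      · simp only [map_mul]
        rw [← ha1]; ring
      · simp only [map_mul]
        rw [← ha2]; ring
    obtain ⟨u, hu⟩ := (IsLocalizedModule.eq_iff_exists p.primeCompl f).mp h3
    simp only [Submonoid.smul_def] at hu
    refine ⟨(u : R) * (t1 * t2 * s1 * s2), (u : R) * (a1 * t2 * s2), (u : R) * (a2 * t1 * s1),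
      ?_, ?_⟩
    · have : (u : R) * (t1 * t2 * s1 * s2) ∈ p.primeCompl :=
        mul_mem u.2 (mul_mem (mul_mem (mul_mem t1.2 t2.2) s1.2) s2.2)
      exact this
    · rw [mul_smul, hu, smul_add, ← mul_smul, ← mul_smul]

lemma LB.swap {p : Ideal R} {m1 m2 : M} (H : LB p m1 m2) : LB p m2 m1 where
  ind a b h := by
    have := H.ind b a (by rw [add_comm]; exact h)
    exact ⟨this.2, this.1⟩
  span m := by
    obtain ⟨D, a, b, h1, h2⟩ := H.span m
    exact ⟨D, b, a, h1, by rw [h2, add_comm]⟩

/-- Exchange lemma. -/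
lemma LB.exchange {p : Ideal R} [p.IsPrime] {m1 m2 : M} (H : LB p m1 m2) {ι : Type*}
    (T : Finset ι) (x : ι → M) (hx : m1 = ∑ g ∈ T, x g) : ∃ g ∈ T, LB p (x g) m2 := by
  classical
  by_cases hcon : ∀ g ∈ T, ∃ D a b : R, D ∉ p ∧ a ∈ p ∧ D • x g = a • m1 + b • m2
  · exfalso
    have key : ∀ U : Finset ι, U ⊆ T →
        ∃ D a b : R, D ∉ p ∧ a ∈ p ∧ D • (∑ g ∈ U, x g) = a • m1 + b • m2 := by
      intro U
      induction U using Finset.induction_on with
      | empty =>
        intro _
        exact ⟨1, 0, 0, fun h => (inferInstance : p.IsPrime).ne_top ((Ideal.eq_top_iff_one _).mpr h),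
          p.zero_mem, by simp⟩
      | insert g U hg ih =>
        intro hU
        obtain ⟨D, a, b, h1, h2, h3⟩ := ih (fun z hz => hU (Finset.mem_insert_of_mem hz))
        obtain ⟨D', a', b', h1', h2', h3'⟩ := hcon g (hU (Finset.mem_insert_self g U))
        refine ⟨D * D', D' * a + D * a', D' * b + D * b', ?_, ?_, ?_⟩
        · intro h
          rcases (inferInstance : p.IsPrime).mem_or_mem h with h | h
          exacts [h1 h, h1' h]
        · exact p.add_mem (p.mul_mem_left _ h2) (p.mul_mem_left _ h2')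
        · have e1 : (D * D') • x g = D • (a' • m1 + b' • m2) := by rw [mul_smul, h3']
          have e2 : (D * D') • ∑ g ∈ U, x g = D' • (a • m1 + b • m2) := by
            rw [mul_comm, mul_smul, h3]
          rw [Finset.sum_insert hg, smul_add, e1, e2]
          simp only [smul_add, add_smul, mul_smul]
          abel
    obtain ⟨D, a, b, h1, h2, h3⟩ := key T (Finset.Subset.refl T)
    rw [← hx] at h3
    have h4 : (D - a) • m1 + (-b) • m2 = 0 := by
      rw [sub_smul, neg_smul, h3]; abel
    have h5 := (H.ind _ _ h4).1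
    rw [sub_eq_zero] at h5
    exact h1 (h5 ▸ h2)
  · push Not at hcon
    obtain ⟨g, hg, hcon⟩ := hcon
    refine ⟨g, hg, ?_⟩
    obtain ⟨D, a, b, h1, h2⟩ := H.span (x g)
    have ha : a ∉ p := fun h => hcon D a b h1 h h2
    have ha0 : a ≠ 0 := fun h => ha (h ▸ p.zero_mem)
    have hD0 : D ≠ 0 := fun h => h1 (h ▸ p.zero_mem)
    constructor
    · intro α β h
      have h3 : (α * a) • m1 + (α * b + β * D) • m2 = 0 := by
        have : (α * a) • m1 + (α * b + β * D) • m2 = D • (α • x g + β • m2) := by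
          rw [smul_add, smul_comm D α, h2]
          simp only [smul_add, add_smul, mul_smul]
          rw [smul_comm D β]
          abel
        rw [this, h, smul_zero]
      obtain ⟨h4, h5⟩ := H.ind _ _ h3
      have hα : α = 0 := (mul_eq_zero.mp h4).resolve_right ha0
      rw [hα, zero_mul, zero_add] at h5
      exact ⟨hα, (mul_eq_zero.mp h5).resolve_right hD0⟩
    · intro m
      obtain ⟨D', a', b', h1', h2'⟩ := H.span m
      refine ⟨a * D', a' * D, a * b' - a' * b, ?_, ?_⟩
      · intro h
        rcases (inferInstance : p.IsPrime).mem_or_mem h with h | h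
        exacts [ha h, h1' h]
      · rw [mul_smul, h2', mul_smul, h2]
        simp only [smul_add, sub_smul, mul_smul]
        rw [smul_comm a' a]
        abel

end general

section graded

variable {σ K G M : Type*} [Field K] [AddCommGroup G] [DecidableEq G] [AddCommGroup M]
  [Module (MvPolynomial σ K) M]
  (𝓜 : G → AddSubgroup M) [DirectSum.Decomposition 𝓜]

/-- A local basis may be chosen homogeneous. -/
lemma LB.homogeneous {p : Ideal (MvPolynomial σ K)} [p.IsPrime] {m1 m2 : M} (H : LB p m1 m2) :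
    ∃ g1 g2 : G, ∃ n1 ∈ 𝓜 g1, ∃ n2 ∈ 𝓜 g2, LB p n1 n2 := by
  obtain ⟨T1, hT1, _⟩ := eq_sum_comp 𝓜 m1
  obtain ⟨g1, _, h1⟩ := H.exchange T1 (fun g => comp 𝓜 g m1) hT1
  obtain ⟨T2, hT2, _⟩ := eq_sum_comp 𝓜 m2
  obtain ⟨g2, _, h2⟩ := h1.swap.exchange T2 (fun g => comp 𝓜 g m2) hT2
  exact ⟨g1, g2, _, comp_mem 𝓜 g1 m1, _, comp_mem 𝓜 g2 m2, h2.swap⟩

end graded

section reflexive

variable {σ K M : Type*} [Field K] [AddCommGroup M] [Module (MvPolynomial σ K) M]

lemma torsionfree_of_reflexive [Module.IsReflexive (MvPolynomial σ K) M]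
    (a : MvPolynomial σ K) (m : M) (h : a • m = 0) : a = 0 ∨ m = 0 := by
  by_cases ha : a = 0
  · exact Or.inl ha
  · right
    apply (Module.bijective_dual_eval (MvPolynomial σ K) M).1
    rw [map_zero]
    refine LinearMap.ext fun φ => ?_
    have : a * φ m = 0 := by rw [← smul_eq_mul, ← map_smul, h, map_zero]
    simpa using (mul_eq_zero.mp this).resolve_left ha

/-- Extension over codimension two. -/
lemma hartogs [Module.IsReflexive (MvPolynomial σ K) M] {a b : MvPolynomial σ K} (ha : a ≠ 0)
    (hab : ∀ h, a ∣ b * h → a ∣ h) {u v : M} (huv : b • u = a • v) :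
    ∃ m, u = a • m ∧ v = b • m := by
  have hdiv : ∀ φ : Module.Dual (MvPolynomial σ K) M, ∃ c, φ u = a * c := by
    intro φ
    have h1 : b * φ u = a * φ v := by
      rw [← smul_eq_mul, ← map_smul, huv, map_smul, smul_eq_mul]
    exact hab _ (h1 ▸ dvd_mul_right a (φ v))
  choose c hc using hdiv
  let Ψ : Module.Dual (MvPolynomial σ K) (Module.Dual (MvPolynomial σ K) M) :=
    { toFun := c
      map_add' := by
        intro φ ψ
        apply mul_left_cancel₀ ha
        rw [mul_add, ← hc, ← hc, ← hc, LinearMap.add_apply]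
      map_smul' := by
        intro r φ
        apply mul_left_cancel₀ ha
        rw [← hc, RingHom.id_apply, LinearMap.smul_apply, hc φ, smul_eq_mul, smul_eq_mul]
        ring }
  obtain ⟨m, hm⟩ := (Module.bijective_dual_eval (MvPolynomial σ K) M).2 Ψ
  have hu : u = a • m := by
    apply (Module.bijective_dual_eval (MvPolynomial σ K) M).1
    refine LinearMap.ext fun φ => ?_
    have h1 : φ m = c φ := DFunLike.congr_fun hm φ
    rw [map_smul, LinearMap.smul_apply, Module.Dual.eval_apply, Module.Dual.eval_apply, h1, hc φ,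
      smul_eq_mul]
  refine ⟨m, hu, ?_⟩
  have h2 : a • (v - b • m) = 0 := by
    rw [smul_sub, ← huv, hu, smul_comm, sub_self]
  have h3 := (torsionfree_of_reflexive _ _ h2).resolve_left ha
  exact sub_eq_zero.mp h3

end reflexive

end Pool.Agent.Lib.MP_745d3a_ag
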