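import Pool.Agent.Lib.MP_745d3a_ag.Structure

/-!
The case of a supporting line containing exactly two weights.
-/

open MvPolynomial

set_option linter.unusedSectionVars false
set_option linter.unusedSimpArgs false

namespace Pool.Agent.Lib.MP_745d3a_ag

/-- `M` is free at every prime other than the irrelevant ideal. -/
def PuncturedFree {σ K : Type*} [Field K] (M : Type*) [AddCommGroup M]
    [Module (MvPolynomial σ K) M] : Prop :=
  ∀ (p : Ideal (MvPolynomial σ K)) [p.IsPrime], (∃ κ, (X κ : MvPolynomial σ K) ∉ p) →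
    Module.Free (Localization.AtPrime p) (LocalizedModule p.primeCompl M)

section

variable {σ K M G : Type*} [DecidableEq σ] [Fintype σ] [Field K] [AddCommGroup M]
  [Module (MvPolynomial σ K) M] [Module.IsReflexive (MvPolynomial σ K) M]
  [Module.Finite (MvPolynomial σ K) M]
  [AddCommGroup G] [DecidableEq G] {ω : σ → G} {𝓜 : G → AddSubgroup M}
  [DirectSum.Decomposition 𝓜] [SetLike.GradedSMul (weightedHomogeneousSubmodule K ω) 𝓜]
  {i j k l m : σ} {η ξ υ δ : G →+ ℤ} {d : ℤ}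

lemma Frame.vertex (F : Frame ω i j η ξ υ δ d) (F5 : Five i j k l m) (e : σ →₀ ℕ) (n : ℕ)
    (h : Finsupp.weight ω e = n • ω i) : e = Finsupp.single i n := by
  have h0 : η (Finsupp.weight ω e) = 0 := by rw [h, map_nsmul, F.eta_i, smul_zero]
  rw [map_weight] at h0
  have h2 : ∀ κ ∈ (Finset.univ : Finset σ), 0 ≤ (e κ : ℤ) * η (ω κ) :=
    fun κ _ => mul_nonneg (by positivity) (F.eta_nonneg κ)
  have h3 := (Finset.sum_eq_zero_iff_of_nonneg h2).mp h0
  have h4 : ∀ κ, κ ≠ i → κ ≠ j → e κ = 0 := by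
    intro κ h5 h6
    have := (mul_eq_zero.mp (h3 κ (Finset.mem_univ κ))).resolve_right (F.eta_pos κ h5 h6).ne'
    exact_mod_cast this
  apply F.uniq F5
  · rw [h, Finsupp.weight_apply, Finsupp.sum_single_index (by simp)]
  · exact h4 l F5.il.symm F5.jl.symm
  · exact h4 m F5.im.symm F5.jm.symm
  · simp [Finsupp.single_apply, F5.il]
  · simp [Finsupp.single_apply, F5.im]

/-- Homogeneous bases after inverting `x_i`. -/
lemma exists_XB (F : Frame ω i j η ξ υ δ d) (F5 : Five i j k l m) (hfree : PuncturedFree (K := K) (σ := σ) M)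
    (hrank : Module.finrank (MvPolynomial σ K) M = 2) :
    ∃ g1 g2 : G, ∃ m1 ∈ 𝓜 g1, ∃ m2 ∈ 𝓜 g2, XB (K := K) i m1 m2 := by
  obtain ⟨n1, n2, h1⟩ := exists_LB (vp K i) (hfree (vp K i) ⟨i, X_notMem_vp i⟩) hrank
  obtain ⟨g1, g2, m1, hm1, m2, hm2, h2⟩ := h1.homogeneous 𝓜
  exact ⟨g1, g2, m1, hm1, m2, hm2, XB_of_LB (F.vertex F5) hm1 hm2 h2⟩

end

section

variable {σ M G : Type*} [DecidableEq σ] [Fintype σ] [AddCommGroup M]
  [Module (MvPolynomial σ ℂ) M] [Module.IsReflexive (MvPolynomial σ ℂ) M]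
  [Module.Finite (MvPolynomial σ ℂ) M]
  [AddCommGroup G] [DecidableEq G] {ω : σ → G} {𝓜 : G → AddSubgroup M}
  [DirectSum.Decomposition 𝓜] [SetLike.GradedSMul (weightedHomogeneousSubmodule ℂ ω) 𝓜]
  {i j k l m : σ} {η ξ υ δ : G →+ ℤ} {d : ℤ}

include 𝓜

/-- **The case of a supporting line with exactly two weights.** -/
theorem free_of_frame (F : Frame ω i j η ξ υ δ d) (F5 : Five i j k l m)
    (hfree : PuncturedFree (K := ℂ) (σ := σ) M)
    (hrank : Module.finrank (MvPolynomial σ ℂ) M = 2) : Module.Free (MvPolynomial σ ℂ) M := by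
  classical
  obtain ⟨g1, g2, m1, hm1, m2, hm2, Hi⟩ := exists_XB (𝓜 := 𝓜) F F5 hfree hrank
  obtain ⟨g1', g2', m1', hm1', m2', hm2', Hj⟩ := exists_XB (𝓜 := 𝓜) F.swap F5.swap hfree hrank
  obtain ⟨N, s, μi, μj, π, Δ, D0, P, hhom, hred⟩ :=
    exists_pres F F5.ij hm1 hm2 Hi hm1' hm2' Hj
  have hBC : BC i j N Δ := by
    apply P.bc
    rintro q ⟨κ, hκi, hκj, hκ⟩
    have : (RingHom.ker (eval (pt i j q)) : Ideal (MvPolynomial σ ℂ)).IsPrime :=
      RingHom.ker_isPrime _
    apply exists_LB _ (hfree _ ⟨κ, ?_⟩) hrank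
    rw [RingHom.mem_ker, eval_X, pt, if_neg (by tauto)]
    exact hκ
  have hcore := core F F5 hhom hred hBC
  by_cases hΔ : Δ = 0
  · exact P.free_zero hΔ
  · obtain ⟨e, he⟩ := exists_coeff_ne hΔ
    obtain ⟨hk, hl, hm⟩ := hcore e he
    have hη : η D0 ≤ 0 := by
      rw [← hhom he, map_weight, F5.sum, F.eta_i, F.eta_j, hk, hl, hm]
      simp
    obtain ⟨c, α, β, hc, hΔ', _⟩ := F.mono F5.ij hhom hΔ hη
    have hΔ2 : Δ = monomial (Finsupp.single i α + Finsupp.single j β) c := by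
      rw [hΔ', X_pow_eq_monomial, X_pow_eq_monomial, monomial_mul, C_mul_monomial]; simp
    have hco : coeff (Finsupp.single i α + Finsupp.single j β) Δ ≠ 0 := by
      rw [hΔ2, coeff_monomial, if_pos rfl]; exact hc
    have hr := hred _ hco
    simp only [Finsupp.add_apply, Finsupp.single_apply, F5.ij, F5.ij.symm, if_true, if_false,
      add_zero, zero_add] at hr
    exact P.free_monomial hr.1 hr.2 hc hΔ2

end

end Pool.Agent.Lib.MP_745d3a_ag
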