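import Mathlib

/-!
Definitions used in the statement: vector bundles of rank two on projective four-space over the
complex numbers as graded modules, isomorphisms in large degrees, the Horrocks-Mumford bundle and
its pull-backs.
-/

set_option autoImplicit false

noncomputable section

open MvPolynomial

namespace Pool.Agent.Lib.MP_745d3a_ag.NewBundle

/-- The polynomial ring `S = ℂ[x_0, …, x_4]`. -/
abbrev S : Type := MvPolynomial (Fin 5) ℂ

/-- The forms of degree `n`; there are none but `0` for `n < 0`. -/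
def forms (n : ℤ) : Submodule ℂ S := weightedHomogeneousSubmodule ℂ (fun _ => (1 : ℤ)) n

/-- An `S`-module `M` with subspaces `gr n`, for `n ∈ ℤ`. -/
structure GradedModule where
  M : Type
  [addCommGroup : AddCommGroup M]
  [module : Module ℂ M]
  [moduleS : Module S M]
  [tower : IsScalarTower ℂ S M]
  gr : ℤ → Submodule ℂ M

attribute [instance] GradedModule.addCommGroup GradedModule.module GradedModule.moduleS
  GradedModule.tower

/-- `E` is a finitely generated reflexive graded `S`-module of rank two whose localisation at each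
prime not containing all the variables is free. These are the modules `⊕ₙ H⁰(P^4, E(n))` of the
vector bundles `E` of rank two on `P^4`. -/
structure IsRankTwoBundle (E : GradedModule) : Prop where
  finite : Module.Finite S E.M
  reflexive : Module.IsReflexive S E.M
  rank : Module.finrank S E.M = 2
  locallyFree : ∀ (p : Ideal S) [p.IsPrime], (∃ i, X i ∉ p) →
    Module.Free (Localization.AtPrime p) (LocalizedModule p.primeCompl E.M)
  internal : DirectSum.IsInternal E.gr
  smul_mem : ∀ (a b : ℤ) (f : S) (m : E.M), f ∈ forms a → m ∈ E.gr b → f • m ∈ E.gr (b + a)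

/-- `E` is not a direct sum of two nonzero submodules. -/
def Indecomposable (E : GradedModule) : Prop :=
  ∀ N₁ N₂ : Submodule S E.M, IsCompl N₁ N₂ → N₁ = ⊥ ∨ N₂ = ⊥

/-- The submodule generated by the pieces of degree at least `t`. -/
def upper (E : GradedModule) (t : ℤ) : Submodule S E.M :=
  Submodule.span S {m | ∃ n, t ≤ n ∧ m ∈ E.gr n}

/-- `E` and `F(k)` are isomorphic in degrees at least `t`, for some `t`. By a theorem of Serre this
means that the sheaves on `P^4` associated with `E` and `F(k)` are isomorphic. -/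
def SheafIso (E F : GradedModule) (k : ℤ) : Prop :=
  ∃ (t : ℤ) (e : upper E t ≃ₗ[S] upper F (t + k)),
    ∀ n, t ≤ n → ∀ m : upper E t, (m : E.M) ∈ E.gr n ↔ (e m : F.M) ∈ F.gr (n + k)

/-- The Hilbert polynomial of `E` is that of a vector bundle of rank two on `P^4` with the Chern
classes `c1` and `c2`, as given by the Riemann-Roch theorem. -/
def HasChern (E : GradedModule) (c1 c2 : ℤ) : Prop :=
  ∃ n₀ : ℤ, ∀ n, n₀ ≤ n → 24 * (Module.finrank ℂ (E.gr n) : ℤ) =
    2 * n ^ 4 + (4 * c1 + 20) * n ^ 3 + (6 * (c1 ^ 2 - 2 * c2) + 30 * c1 + 70) * n ^ 2 +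
    (4 * (c1 ^ 3 - 3 * c1 * c2) + 30 * (c1 ^ 2 - 2 * c2) + 70 * c1 + 100) * n +
    ((c1 ^ 4 - 4 * c1 ^ 2 * c2 + 2 * c2 ^ 2) + 10 * (c1 ^ 3 - 3 * c1 * c2) +
      35 * (c1 ^ 2 - 2 * c2) + 50 * c1 + 48)

/-- `S(a) ⊕ S(b)`, the module of `O(a) ⊕ O(b)`. -/
def split (a b : ℤ) : GradedModule where
  M := S × S
  gr n := (forms (n + a)).prod (forms (n + b))

/-- The bivector `v ∧ w`, as a skew-symmetric matrix. -/
def wedge (v w : Fin 5 → S) : Matrix (Fin 5) (Fin 5) S := fun i j => v i * w j - v j * w i

/-- The basis vector `e_i`. -/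
def bv (i : Fin 5) : Fin 5 → S := Pi.single i 1

/-- For a bivector `ω`, the coefficient of `e_p ∧ e_q ∧ e_r` in `f ∧ ω`. -/
def wedge3 (f : Fin 5 → S) (ω : Matrix (Fin 5) (Fin 5) S) (p q r : Fin 5) : S :=
  f p * ω q r - f q * ω p r + f r * ω p q

/-- `(ω₁, ω₂)` is a pair of bivectors in the kernel of the second map of the Horrocks-Mumford monad
`O(2)^5 → (Λ²T)^2 → O(3)^5`, pulled back by `f` (up to a twist). Here `V` is the vector space with
the basis `e_0, …, e_4`, and `Λ²T(-2)` is the quotient of `Λ²V ⊗ O` by the multiples of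
`f = ∑ f_i e_i`; the second map sends `(ω₁, ω₂)` to the vector with the entries
`f ∧ (e_{i+2} ∧ e_{i+3} ∧ ω₂ - e_{i+1} ∧ e_{i+4} ∧ ω₁)`, `i` modulo `5`. -/
structure IsCycle (f : Fin 5 → S)
    (ω : Matrix (Fin 5) (Fin 5) S × Matrix (Fin 5) (Fin 5) S) : Prop where
  skew₁ : ω.1.transpose = -ω.1
  skew₂ : ω.2.transpose = -ω.2
  closed : ∀ i : Fin 5, wedge3 f ω.2 i (i + 1) (i + 4) = wedge3 f ω.1 i (i + 2) (i + 3)

lemma IsCycle.zero (f : Fin 5 → S) : IsCycle f 0 :=
  ⟨by simp, by simp, fun i => by simp [wedge3]⟩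

lemma IsCycle.add {f : Fin 5 → S} {u v : Matrix (Fin 5) (Fin 5) S × Matrix (Fin 5) (Fin 5) S}
    (hu : IsCycle f u) (hv : IsCycle f v) : IsCycle f (u + v) := by
  refine ⟨?_, ?_, fun i => ?_⟩
  · rw [Prod.fst_add, Matrix.transpose_add, hu.skew₁, hv.skew₁, neg_add]
  · rw [Prod.snd_add, Matrix.transpose_add, hu.skew₂, hv.skew₂, neg_add]
  · have h1 := hu.closed i
    have h2 := hv.closed i
    simp only [wedge3, Prod.fst_add, Prod.snd_add, Matrix.add_apply] at *
    linear_combination h1 + h2

lemma IsCycle.smul {f : Fin 5 → S} (c : S)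
    {u : Matrix (Fin 5) (Fin 5) S × Matrix (Fin 5) (Fin 5) S} (hu : IsCycle f u) :
    IsCycle f (c • u) := by
  refine ⟨?_, ?_, fun i => ?_⟩
  · rw [Prod.smul_fst, Matrix.transpose_smul, hu.skew₁, smul_neg]
  · rw [Prod.smul_snd, Matrix.transpose_smul, hu.skew₂, smul_neg]
  · have h1 := hu.closed i
    simp only [wedge3, Prod.smul_fst, Prod.smul_snd, Matrix.smul_apply, smul_eq_mul] at *
    linear_combination c * h1

/-- The graded module of the pairs of `5 × 5` matrices over `S`. -/
def pairs : GradedModule where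
  M := Matrix (Fin 5) (Fin 5) S × Matrix (Fin 5) (Fin 5) S
  gr n :=
    { carrier := {ω | ∀ i j, ω.1 i j ∈ forms n ∧ ω.2 i j ∈ forms n}
      add_mem' := fun h h' i j => ⟨add_mem (h i j).1 (h' i j).1, add_mem (h i j).2 (h' i j).2⟩
      zero_mem' := fun _ _ => ⟨zero_mem _, zero_mem _⟩
      smul_mem' := fun c _ h i j =>
        ⟨Submodule.smul_mem _ c (h i j).1, Submodule.smul_mem _ c (h i j).2⟩ }

/-- The kernel of the second map of the pulled back Horrocks-Mumford monad; see `IsCycle`. -/
def cycles (f : Fin 5 → S) : Submodule S pairs.M where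
  carrier := {ω | IsCycle f ω}
  add_mem' := IsCycle.add
  zero_mem' := IsCycle.zero f
  smul_mem' c _ h := IsCycle.smul c h

/-- The pairs `(f ∧ v + ∑ c_i e_{i+2} ∧ e_{i+3}, f ∧ w + ∑ c_i e_{i+1} ∧ e_{i+4})`: the image of the
first map of the pulled back Horrocks-Mumford monad. -/
def boundaries (f : Fin 5 → S) : Submodule S pairs.M :=
  Submodule.span S ({ω | ∃ v w, ω = (wedge f v, wedge f w)} ∪
    {ω | ∃ i, ω = (wedge (bv (i + 2)) (bv (i + 3)), wedge (bv (i + 1)) (bv (i + 4)))})

/-- A submodule `Z` of `N`, with the induced grading. -/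
def sub (N : GradedModule) (Z : Submodule S N.M) : GradedModule where
  M := Z
  gr n := (N.gr n).comap (Z.subtype.restrictScalars ℂ)

/-- The quotient of `N` by `B`, with the induced grading. -/
def quot (N : GradedModule) (B : Submodule S N.M) : GradedModule where
  M := N.M ⧸ B
  gr n := (N.gr n).map (B.mkQ.restrictScalars ℂ)

/-- The homology of the pull-back by `f = (f_0 : … : f_4)` of the Horrocks-Mumford monad, that is
the module of the pull-back by `f` of the Horrocks-Mumford bundle, up to a twist: for forms `f_i`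
of degree `d` without common zero it is `⊕ₙ H⁰(f^*(F_HM)(n - 2 d))`. In particular
`hm (x_0, …, x_4)` is the module of `F_HM(-2)`, with Chern numbers `1` and `4`. -/
def hm (f : Fin 5 → S) : GradedModule :=
  quot (sub pairs (cycles f)) ((boundaries f).comap (cycles f).subtype)

/-- `f_0, …, f_4` are forms of degree `d ≥ 1` without common zero other than the origin: they
define the finite self-map `(f_0 : … : f_4)` of `P^4`. -/
structure IsSelfMap (f : Fin 5 → S) (d : ℕ) : Prop where
  pos : 0 < d
  form : ∀ i, (f i).IsHomogeneous d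
  noZero : ∀ v : Fin 5 → ℂ, (∀ i, eval v (f i) = 0) → v = 0

/-- `E` is of Horrocks-Mumford type: for some finite self-map `f` of `P^4` and some integer `k`,
the sheaf of `E` is isomorphic to the twist by `k` of the pull-back by `f` of the
Horrocks-Mumford bundle (the twist in the definition of `hm` is contained in `k`). -/
def IsHorrocksMumfordType (E : GradedModule) : Prop :=
  ∃ (f : Fin 5 → S) (d : ℕ) (k : ℤ), IsSelfMap f d ∧ SheafIso E (hm f) k

end Pool.Agent.Lib.MP_745d3a_ag.NewBundle

end
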