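import Pool.Agent.Lib.MP_745d3a_ag.PFDefs

/-!
Polynomial rings, hyperplanes, cyclic modules.
-/

set_option autoImplicit false
set_option linter.unusedSectionVars false
set_option linter.style.haveILetI false

section

set_option autoImplicit false

open MvPolynomial

namespace Pool.Agent.Lib.MP_745d3a_ag.PF

section rowA1

variable {K S ι : Type*} [Field K] [CommRing S] [Algebra K S] {x : ι → S}

open Classical in
/-- The endomorphism which kills the coordinates with index in `s`. -/
noncomputable def a1Kill (hx : Coord K x) (s : Set ι) : S →ₐ[K] S :=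
  (aeval (fun i => if i ∈ s then (0 : S) else x i)).comp hx.equiv.symm.toAlgHom

lemma a1Kill_mem (hx : Coord K x) (s : Set ι) {i : ι} (hi : i ∈ s) :
    a1Kill hx s (x i) = 0 := by
  show aeval _ (hx.equiv.symm (x i)) = 0
  rw [hx.symm_x, aeval_X, if_pos hi]

lemma a1Kill_not_mem (hx : Coord K x) (s : Set ι) {i : ι} (hi : i ∉ s) :
    a1Kill hx s (x i) = x i := by
  show aeval _ (hx.equiv.symm (x i)) = x i
  rw [hx.symm_x, aeval_X, if_neg hi]

lemma a1Kill_sub (hx : Coord K x) (s : Set ι) (a : S) :
    a - a1Kill hx s a ∈ Ideal.span (x '' s) := by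
  refine hx.induction (P := fun a => a - a1Kill hx s a ∈ Ideal.span (x '' s)) ?_ ?_ ?_ a
  · intro c
    rw [AlgHom.commutes, sub_self]
    exact Ideal.zero_mem _
  · intro a b ha hb
    rw [map_add, add_sub_add_comm]
    exact Ideal.add_mem _ ha hb
  · intro a i ha
    rw [map_mul]
    by_cases hi : i ∈ s
    · rw [a1Kill_mem hx s hi, mul_zero, sub_zero]
      exact Ideal.mul_mem_left _ _ (Ideal.subset_span ⟨i, hi, rfl⟩)
    · rw [a1Kill_not_mem hx s hi, ← sub_mul]
      exact Ideal.mul_mem_right _ _ ha

lemma a1Kill_ker (hx : Coord K x) (s : Set ι) :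
    RingHom.ker (a1Kill hx s).toRingHom = Ideal.span (x '' s) := by
  apply le_antisymm
  · intro a ha
    have h1 : a1Kill hx s a = 0 := ha
    have h2 := a1Kill_sub hx s a
    rwa [h1, sub_zero] at h2
  · rw [Ideal.span_le]
    rintro _ ⟨i, hi, rfl⟩
    exact a1Kill_mem hx s hi

lemma a1_ne_zero (hx : Coord K x) (i : ι) : x i ≠ 0 := by
  intro h
  have h1 := hx.symm_x i
  rw [h, map_zero] at h1
  exact X_ne_zero i h1.symm

lemma Coord.isPrime_span (hx : Coord K x) (s : Set ι) : (Ideal.span (x '' s)).IsPrime := by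
  have := hx.isDomain
  rw [← a1Kill_ker hx s]
  exact RingHom.ker_isPrime _

lemma Coord.mem_span (hx : Coord K x) (s : Set ι) (i : ι) :
    x i ∈ Ideal.span (x '' s) ↔ i ∈ s := by
  constructor
  · intro h
    by_contra hi
    rw [← a1Kill_ker hx s] at h
    have h1 : a1Kill hx s (x i) = 0 := h
    rw [a1Kill_not_mem hx s hi] at h1
    exact a1_ne_zero hx i h1
  · intro h
    exact Ideal.subset_span ⟨i, h, rfl⟩

lemma Coord.prime_x (hx : Coord K x) (i : ι) : Prime (x i) := by
  rw [← Ideal.span_singleton_prime (a1_ne_zero hx i), ← Set.image_singleton]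
  exact hx.isPrime_span {i}

lemma Coord.relPrime_pow (hx : Coord K x) {i j : ι} (hij : i ≠ j) (k l : ℕ) :
    IsRelPrime (x i ^ k) (x j ^ l) := by
  have := hx.isDomain
  have := hx.ufm
  have h1 : IsRelPrime (x i) (x j) := by
    rw [(hx.prime_x i).irreducible.isRelPrime_iff_not_dvd, ← Ideal.mem_span_singleton,
      ← Set.image_singleton, hx.mem_span {i} j, Set.mem_singleton_iff]
    exact fun h => hij h.symm
  exact h1.pow

/-- Regularity of three powers of coordinates, in the polynomial ring. -/
lemma a1_koszul {i j k : ι} (hik : i ≠ k) (hjk : j ≠ k)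
    (p q r : ℕ) {g u v : MvPolynomial ι K}
    (h : (X k : MvPolynomial ι K) ^ r * g = X i ^ p * u + X j ^ q * v) :
    g ∈ Ideal.span ((fun s => monomial s (1 : K)) ''
      ({Finsupp.single i p, Finsupp.single j q} : Set (ι →₀ ℕ))) := by
  have h1 : (X k : MvPolynomial ι K) ^ r * g ∈ Ideal.span ((fun s => monomial s (1 : K)) ''
      ({Finsupp.single i p, Finsupp.single j q} : Set (ι →₀ ℕ))) := by
    rw [h, X_pow_eq_monomial, X_pow_eq_monomial]
    refine Ideal.add_mem _ (Ideal.mul_mem_right _ _ (Ideal.subset_span ?_))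
      (Ideal.mul_mem_right _ _ (Ideal.subset_span ?_))
    · exact ⟨_, Or.inl rfl, rfl⟩
    · exact ⟨_, Or.inr rfl, rfl⟩
  rw [mem_ideal_span_monomial_image] at h1 ⊢
  intro m hm
  have h2 : m + Finsupp.single k r ∈ ((X k : MvPolynomial ι K) ^ r * g).support := by
    rw [mem_support_iff, X_pow_eq_monomial, add_comm, coeff_monomial_mul, one_mul]
    exact mem_support_iff.mp hm
  obtain ⟨s, hs, hle⟩ := h1 _ h2
  refine ⟨s, hs, ?_⟩
  have key : ∀ (l : ι) (e : ℕ), l ≠ k → Finsupp.single l e ≤ m + Finsupp.single k r →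
      Finsupp.single l e ≤ m := by
    intro l e hl h3
    have h4 := h3 l
    rw [Finsupp.add_apply, Finsupp.single_eq_same, Finsupp.single_eq_of_ne hl, add_zero] at h4
    exact Finsupp.single_le_iff.mpr h4
  rcases hs with rfl | hs
  · exact key i p hik hle
  · rw [Set.mem_singleton_iff] at hs
    subst hs
    exact key j q hjk hle

/-- Regularity of three powers of coordinates. -/
lemma Coord.koszul (hx : Coord K x) {i j k : ι} (hij : i ≠ j) (hik : i ≠ k) (hjk : j ≠ k)
    (p q r : ℕ) {g u v : S} (h : x k ^ r * g = x i ^ p * u + x j ^ q * v) :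
    ∃ u' v', g = x i ^ p * u' + x j ^ q * v' := by
  have _ := hij
  have h1 : (X k : MvPolynomial ι K) ^ r * hx.equiv.symm g =
      X i ^ p * hx.equiv.symm u + X j ^ q * hx.equiv.symm v := by
    have h2 := congrArg hx.equiv.symm h
    simpa only [map_mul, map_add, map_pow, hx.symm_x] using h2
  have h3 := a1_koszul hik hjk p q r h1
  rw [Set.image_pair, Ideal.mem_span_pair] at h3
  obtain ⟨a, b, hab⟩ := h3
  refine ⟨hx.equiv a, hx.equiv b, ?_⟩
  have h4 := congrArg hx.equiv hab
  rw [AlgEquiv.apply_symm_apply, map_add, map_mul, map_mul, ← X_pow_eq_monomial,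
    ← X_pow_eq_monomial, map_pow, map_pow, hx.equiv_X, hx.equiv_X] at h4
  rw [← h4]
  ring

/-- An ideal which is only contained in primes containing `x i` contains a power of `x i`. -/
lemma pow_mem_of_prime {S : Type*} [CommRing S] (J : Ideal S) (a : S)
    (h : ∀ p : Ideal S, p.IsPrime → a ∉ p → ¬ J ≤ p) : ∃ k : ℕ, a ^ k ∈ J := by
  have h1 : a ∈ J.radical := by
    rw [Ideal.radical_eq_sInf, Submodule.mem_sInf]
    rintro p ⟨hJ, hp⟩
    by_contra ha
    exact h p hp ha hJ
  exact h1

end rowA1

end Pool.Agent.Lib.MP_745d3a_ag.PF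

end

section

set_option autoImplicit false

open MvPolynomial

namespace Pool.Agent.Lib.MP_745d3a_ag.PF

section rowA2

variable {K S ι : Type*} [Field K] [CommRing S] [Algebra K S] {x : ι → S}

/-- the primes generated by the first coordinates have large height -/
private lemma rowA2_height (hx : Coord K x) {n : ℕ} (e : ι ≃ Fin n) (k : ℕ) (hk : k ≤ n) :
    (k : ℕ∞) ≤ (Ideal.span (x '' {i | (e i : ℕ) < k})).height := by
  induction k with
  | zero => simp
  | succ k ih =>
    have h1 := ih (by omega)
    have := hx.isPrime_span {i | (e i : ℕ) < k}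
    have := hx.isPrime_span {i | (e i : ℕ) < k + 1}
    have hlt : Ideal.span (x '' {i | (e i : ℕ) < k}) < Ideal.span (x '' {i | (e i : ℕ) < k + 1}) := by
      refine lt_of_le_of_ne (Ideal.span_mono (Set.image_mono fun i hi => ?_)) fun he => ?_
      · simp only [Set.mem_ofPred_eq] at hi ⊢; omega
      · have h2 : x (e.symm ⟨k, by omega⟩) ∈ Ideal.span (x '' {i | (e i : ℕ) < k + 1}) := by
          rw [hx.mem_span]; simp
        rw [← he, hx.mem_span] at h2
        simp at h2
    have h3 := Ideal.height_add_one_le_of_lt_of_isPrime hlt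
    calc ((k + 1 : ℕ) : ℕ∞) = (k : ℕ∞) + 1 := by push_cast; rfl
      _ ≤ _ + 1 := by gcongr
      _ ≤ _ := h3

/-- Krull's height theorem. -/
lemma Coord.krull [Fintype ι] (hx : Coord K x) {r : ℕ} (hr : r < Fintype.card ι) (t : Fin r → S)
    (h : ∀ p : Ideal S, p.IsPrime → (∃ i, x i ∉ p) → ∃ k, t k ∉ p) :
    Ideal.span (Set.range t) = ⊤ := by
  classical
  have := hx.noeth
  by_contra hne
  obtain ⟨p, hp⟩ := Ideal.nonempty_minimalPrimes hne
  have hpp : p.IsPrime := hp.isPrime
  have hle : Ideal.span (Set.range t) ≤ p := hp.1.2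
  have hall : ∀ i, x i ∈ p := by
    intro i
    by_contra hi
    obtain ⟨k, hk⟩ := h p hpp ⟨i, hi⟩
    exact hk (hle (Ideal.subset_span ⟨k, rfl⟩))
  have h1 : p.height ≤ r := by
    have hs : ((Finset.univ.image t : Finset S) : Set S) = Set.range t := by simp
    rw [← hs] at hp
    refine (Ideal.height_le_card_of_mem_minimalPrimes_span_finset hp).trans ?_
    have : (Finset.univ.image t).card ≤ r := by
      refine Finset.card_image_le.trans ?_
      simp
    exact_mod_cast this
  have h2 := rowA2_height hx (Fintype.equivFin ι) (Fintype.card ι) le_rfl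
  have h3 : Ideal.span (x '' {i | ((Fintype.equivFin ι) i : ℕ) < Fintype.card ι}) ≤ p := by
    rw [Ideal.span_le]
    rintro _ ⟨i, -, rfl⟩
    exact hall i
  have h4 := Ideal.height_mono h3
  have h5 : ((Fintype.card ι : ℕ) : ℕ∞) ≤ (r : ℕ∞) := h2.trans (h4.trans h1)
  exact absurd (by exact_mod_cast h5 : Fintype.card ι ≤ r) (by omega)

private lemma rowA2_taylor {ι : Type*} [CharZero K] (i₀ : ι) (s : Set ι) (hs : i₀ ∉ s) (n : ℕ) :
    ∀ (f : MvPolynomial ι K) (m : ι →₀ ℕ), m i₀ = n → (∀ i ∈ s, m i = 0) → coeff m f ≠ 0 →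
      ∃ k, ((pderiv i₀)^[k]) f ∉ Ideal.span ((X : ι → MvPolynomial ι K) '' insert i₀ s) := by
  classical
  induction n with
  | zero =>
    intro f m h0 hm hf
    refine ⟨0, fun hmem => ?_⟩
    rw [Function.iterate_zero, id_eq, mem_ideal_span_X_image] at hmem
    obtain ⟨i, hi, hne⟩ := hmem m (mem_support_iff.2 hf)
    rcases hi with rfl | hi
    · exact hne h0
    · exact hne (hm i hi)
  | succ n ih =>
    intro f m h0 hm hf
    have hle : Finsupp.single i₀ 1 ≤ m := by
      rw [Finsupp.single_le_iff]; omega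
    set m' := m - Finsupp.single i₀ 1 with hm'
    have hadd : m' + Finsupp.single i₀ 1 = m := tsub_add_cancel_of_le hle
    have h1 : m' i₀ = n := by
      rw [hm', Finsupp.tsub_apply, Finsupp.single_eq_same, h0]; rfl
    have h2 : coeff m' (pderiv i₀ f) ≠ 0 := by
      rw [coeff_pderiv, hadd]
      exact mul_ne_zero hf (Nat.cast_add_one_ne_zero _)
    obtain ⟨k, hk⟩ := ih (pderiv i₀ f) m' h1 (fun i hi => by
      rw [hm', Finsupp.tsub_apply, hm i hi, Nat.zero_sub]) h2
    exact ⟨k + 1, by rwa [Function.iterate_succ_apply]⟩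

/-- Elements all of whose derivatives with respect to `x i₀` lie in `(x i : i ∈ s ∪ {i₀})`. -/
lemma Coord.taylor [CharZero K] (hx : Coord K x) (i₀ : ι) (s : Set ι) (hs : i₀ ∉ s)
    (Δ : Derivation K S S) (h0 : Δ (x i₀) = 1) (h1 : ∀ i, i ≠ i₀ → Δ (x i) = 0) (a : S)
    (h : ∀ n : ℕ, (Δ^[n]) a ∈ Ideal.span (x '' insert i₀ s)) : a ∈ Ideal.span (x '' s) := by
  classical
  obtain ⟨f, rfl⟩ := hx.equiv.surjective a
  have hΔ : ∀ f, Δ (hx.equiv f) = hx.equiv (pderiv i₀ f) := by
    intro f
    induction f using MvPolynomial.induction_on with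
    | C c =>
      rw [show hx.equiv (C c) = algebraMap K S c from hx.equiv.commutes c,
        Derivation.map_algebraMap, pderiv_C, map_zero]
    | add p q hp hq => rw [map_add, map_add, map_add, map_add, hp, hq]
    | mul_X p i hp =>
      rw [map_mul, Derivation.leibniz, Derivation.leibniz, hp, hx.equiv_X, map_add, smul_eq_mul,
        smul_eq_mul, smul_eq_mul, smul_eq_mul, map_mul, map_mul, hx.equiv_X]
      congr 2
      by_cases hi : i = i₀
      · rw [hi, h0, pderiv_X_self, map_one]
      · rw [h1 i hi, pderiv_X_of_ne hi, map_zero]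
  have hΔn : ∀ n f, (Δ^[n]) (hx.equiv f) = hx.equiv (((pderiv i₀)^[n]) f) := by
    intro n
    induction n with
    | zero => intro f; rfl
    | succ n ih => intro f; rw [Function.iterate_succ_apply, Function.iterate_succ_apply, hΔ, ih]
  have hspan : ∀ (t : Set ι) (g : MvPolynomial ι K), hx.equiv g ∈ Ideal.span (x '' t) ↔
      g ∈ Ideal.span ((X : ι → MvPolynomial ι K) '' t) := by
    intro t g
    have hmap : Ideal.span (x '' t) =
        Ideal.map (hx.equiv : MvPolynomial ι K →+* S)
          (Ideal.span ((X : ι → MvPolynomial ι K) '' t)) := by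
      rw [Ideal.map_span, ← Set.image_comp]
      congr 1
      ext y
      simp [hx.equiv_X]
    rw [hmap]
    constructor
    · intro hg
      rw [Ideal.mem_map_iff_of_surjective (hx.equiv : MvPolynomial ι K →+* S)
        hx.equiv.surjective] at hg
      obtain ⟨g', hg', he⟩ := hg
      rwa [← hx.equiv.injective he]
    · exact fun hg => Ideal.mem_map_of_mem _ hg
  rw [hspan, mem_ideal_span_X_image]
  intro m hm
  by_contra hcon
  push Not at hcon
  obtain ⟨k, hk⟩ := rowA2_taylor i₀ s hs (m i₀) f m rfl hcon (mem_support_iff.1 hm)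
  apply hk
  rw [← hspan, ← hΔn]
  exact h k

/-- A linear change of coordinates. -/
lemma coord_linear {n : ℕ} (P : Matrix (Fin n) (Fin n) K) (hP : IsUnit P.det) :
    Coord K (fun i => ∑ j, P i j • (X j : MvPolynomial (Fin n) K)) := by
  classical
  have hcomp : ∀ A B : Matrix (Fin n) (Fin n) K, A * B = 1 → ∀ f : MvPolynomial (Fin n) K,
      aeval (fun i => ∑ j, B i j • (X j : MvPolynomial (Fin n) K))
        (aeval (fun i => ∑ j, A i j • (X j : MvPolynomial (Fin n) K)) f) = f := by
    intro A B hAB f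
    have : (aeval (fun i => ∑ j, B i j • (X j : MvPolynomial (Fin n) K))).comp
        (aeval (fun i => ∑ j, A i j • (X j : MvPolynomial (Fin n) K))) =
        AlgHom.id K (MvPolynomial (Fin n) K) := by
      refine MvPolynomial.algHom_ext fun i => ?_
      simp only [AlgHom.comp_apply, aeval_X, map_sum, map_smul, AlgHom.id_apply]
      simp only [Finset.smul_sum, smul_smul]
      rw [Finset.sum_comm]
      have h1 : ∀ j, ∑ k, (A i k * B k j) • (X j : MvPolynomial (Fin n) K) =
          (if i = j then 1 else 0 : K) • X j := by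
        intro j
        rw [← Finset.sum_smul]
        congr 1
        have := congrFun (congrFun hAB i) j
        rw [Matrix.mul_apply, Matrix.one_apply] at this
        exact this
      rw [Finset.sum_congr rfl fun j _ => h1 j]
      simp
    exact congrArg (fun φ => φ f) this
  refine ⟨⟨?_, ?_⟩⟩
  · refine Function.LeftInverse.injective
      (g := aeval (fun i => ∑ j, P⁻¹ i j • (X j : MvPolynomial (Fin n) K))) fun f => ?_
    exact hcomp P P⁻¹ (Matrix.mul_nonsing_inv P hP) f
  · refine Function.RightInverse.surjective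
      (g := aeval (fun i => ∑ j, P⁻¹ i j • (X j : MvPolynomial (Fin n) K))) fun f => ?_
    exact hcomp P⁻¹ P (Matrix.nonsing_inv_mul P hP) f

end rowA2

end Pool.Agent.Lib.MP_745d3a_ag.PF

end

section

set_option autoImplicit false

open MvPolynomial

namespace Pool.Agent.Lib.MP_745d3a_ag.PF

section b1

variable {K S S' ι ι' : Type*} [Field K] [CommRing S] [Algebra K S] [CommRing S'] [Algebra K S']
  [Algebra S S'] [IsScalarTower K S S'] {x : ι → S} {j : ι} {f : ι' → ι} {x' : ι' → S'}

/-- `RS.coord` -/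
lemma RS.coord (hr : RS x j f x') (hx : Coord K x) : Coord K x' := by
  classical
  refine ⟨?_, ?_⟩
  · -- injectivity
    rw [injective_iff_map_eq_zero]
    intro q hq
    let σ : S →ₐ[K] MvPolynomial ι' K :=
      (aeval (fun i => if h : ∃ i', f i' = i then (X h.choose : MvPolynomial ι' K) else 0)).comp
        hx.equiv.symm.toAlgHom
    have hσf : ∀ i', σ (x (f i')) = X i' := by
      intro i'
      have h : ∃ i'', f i'' = f i' := ⟨i', rfl⟩
      show (aeval _) (hx.equiv.symm (x (f i'))) = _
      rw [hx.symm_x, aeval_X, dif_pos h]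
      congr 1
      exact hr.inj h.choose_spec
    have hσj : σ (x j) = 0 := by
      have h : ¬ ∃ i', f i' = j := by
        rintro ⟨i', h⟩
        exact hr.ne i' h
      show (aeval _) (hx.equiv.symm (x j)) = _
      rw [hx.symm_x, aeval_X, dif_neg h]
    have h1 : algebraMap S S' (aeval (fun i' => x (f i')) q) = 0 := by
      rw [← hq]
      have h2 : ((IsScalarTower.toAlgHom K S S').comp (aeval (fun i' => x (f i')))) =
          (aeval x' : MvPolynomial ι' K →ₐ[K] S') := by
        refine MvPolynomial.algHom_ext fun i' => ?_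
        rw [AlgHom.comp_apply, aeval_X, aeval_X, IsScalarTower.coe_toAlgHom', hr.map]
      rw [← h2]
      rfl
    obtain ⟨b, hb⟩ := hr.ker _ h1
    have h3 : σ (aeval (fun i' => x (f i')) q) = q := by
      have h4 : σ.comp (aeval (fun i' => x (f i'))) = AlgHom.id K (MvPolynomial ι' K) := by
        refine MvPolynomial.algHom_ext fun i' => ?_
        rw [AlgHom.comp_apply, aeval_X, hσf, AlgHom.id_apply]
      exact congrArg (fun φ : MvPolynomial ι' K →ₐ[K] MvPolynomial ι' K => φ q) h4
    rw [← h3, hb, map_mul, hσj, zero_mul]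
  · -- surjectivity
    intro a'
    obtain ⟨a, rfl⟩ := hr.surj a'
    refine hx.induction (P := fun a => ∃ q : MvPolynomial ι' K, aeval x' q = algebraMap S S' a)
      ?_ ?_ ?_ a
    · intro c
      exact ⟨C c, by rw [aeval_C, ← IsScalarTower.algebraMap_apply K S S']⟩
    · rintro a b ⟨q, hq⟩ ⟨r, hr'⟩
      exact ⟨q + r, by rw [map_add, hq, hr', map_add]⟩
    · rintro a i ⟨q, hq⟩
      by_cases hi : i = j
      · exact ⟨0, by rw [hi, map_mul, hr.xj, mul_zero, map_zero]⟩
      · obtain ⟨i', rfl⟩ := hr.range i hi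
        exact ⟨q * X i', by rw [map_mul, hq, aeval_X, map_mul, hr.map]⟩

/-- `RS.exists_der` -/
lemma RS.exists_der (hr : RS x j f x') (hx : Coord K x) (D : Derivation K S S)
    (hD : algebraMap S S' (D (x j)) = 0) :
    ∃ D' : Derivation K S' S', ∀ a, D' (algebraMap S S' a) = algebraMap S S' (D a) := by
  have hx' := hr.coord hx
  refine ⟨hx'.der (fun i' => algebraMap S S' (D (x (f i')))), fun a => ?_⟩
  refine hx.induction (P := fun a => hx'.der (fun i' => algebraMap S S' (D (x (f i'))))
    (algebraMap S S' a) = algebraMap S S' (D a)) ?_ ?_ ?_ a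
  · intro c
    rw [← IsScalarTower.algebraMap_apply K S S', Derivation.map_algebraMap,
      Derivation.map_algebraMap, map_zero]
  · intro a b ha hb
    rw [map_add, map_add, ha, hb, map_add, map_add]
  · intro a i ha
    by_cases hi : i = j
    · rw [hi, map_mul, hr.xj, mul_zero, map_zero, Derivation.leibniz, smul_eq_mul, smul_eq_mul,
        map_add, map_mul, map_mul, hD, hr.xj, mul_zero, zero_mul, add_zero]
    · obtain ⟨i', rfl⟩ := hr.range i hi
      rw [map_mul, hr.map, Derivation.leibniz, ha, hx'.der_x, Derivation.leibniz, smul_eq_mul,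
        smul_eq_mul, smul_eq_mul, smul_eq_mul, map_add, map_mul, map_mul, hr.map]

/-- `RS.comap` -/
lemma RS.comap (hr : RS x j f x') (p' : Ideal S') (hp' : p'.IsPrime) (h : ∃ i, x' i ∉ p') :
    (p'.comap (algebraMap S S')).IsPrime ∧ x j ∈ p'.comap (algebraMap S S') ∧
      ∃ i, x i ∉ p'.comap (algebraMap S S') := by
  refine ⟨hp'.comap _, ?_, ?_⟩
  · rw [Ideal.mem_comap, hr.xj]
    exact p'.zero_mem
  · obtain ⟨i', hi'⟩ := h
    refine ⟨f i', fun hmem => hi' ?_⟩
    rwa [Ideal.mem_comap, hr.map] at hmem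

/-- `RS.comap_span` -/
lemma RS.comap_span (hr : RS x j f x') (s : Set ι') (a : S) :
    algebraMap S S' a ∈ Ideal.span (x' '' s) ↔ a ∈ Ideal.span (x '' insert j (f '' s)) := by
  constructor
  · intro h
    have h1 : Ideal.span (x' '' s) = (Ideal.span (x '' (f '' s))).map (algebraMap S S') := by
      rw [Ideal.map_span]
      congr 1
      ext y
      constructor
      · rintro ⟨i', hi', rfl⟩
        exact ⟨x (f i'), ⟨f i', ⟨i', hi', rfl⟩, rfl⟩, hr.map i'⟩
      · rintro ⟨_, ⟨_, ⟨i', hi', rfl⟩, rfl⟩, rfl⟩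
        exact ⟨i', hi', (hr.map i').symm⟩
    rw [h1, Ideal.mem_map_iff_of_surjective _ hr.surj] at h
    obtain ⟨b, hb, hba⟩ := h
    obtain ⟨c, hc⟩ := hr.ker (a - b) (by rw [map_sub, hba, sub_self])
    have h2 : a = b + x j * c := by rw [← hc]; ring
    rw [h2]
    refine Ideal.add_mem _ ?_ ?_
    · refine Ideal.span_mono ?_ hb
      exact Set.image_mono (Set.subset_insert _ _)
    · exact Ideal.mul_mem_right _ _ (Ideal.subset_span ⟨j, Set.mem_insert _ _, rfl⟩)
  · intro h
    have h1 : Ideal.span (x '' insert j (f '' s)) ≤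
        (Ideal.span (x' '' s)).comap (algebraMap S S') := by
      rw [Ideal.span_le]
      rintro _ ⟨i, hi, rfl⟩
      rcases hi with rfl | ⟨i', hi', rfl⟩
      · show algebraMap S S' (x i) ∈ Ideal.span (x' '' s)
        rw [hr.xj]
        exact Ideal.zero_mem _
      · show algebraMap S S' (x (f i')) ∈ Ideal.span (x' '' s)
        rw [hr.map]
        exact Ideal.subset_span ⟨i', hi', rfl⟩
    exact h1 h

end b1

end Pool.Agent.Lib.MP_745d3a_ag.PF

end

section

set_option autoImplicit false

namespace Pool.Agent.Lib.MP_745d3a_ag.PF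

/-- If `l` (three elements) and `g` (two elements) generate the same module locally at `p`, then
the elements of `l` satisfy a relation with a coefficient outside `p`. -/
lemma det_trick {S V : Type*} [CommRing S] [AddCommGroup V] [Module S V] (p : Ideal S)
    (hp : p.IsPrime) (l : Fin 3 → V) (g : Fin 2 → V) (s s' : S) (hs : s ∉ p) (hs' : s' ∉ p)
    (h1 : ∀ k, s • l k ∈ Submodule.span S (Set.range g))
    (h2 : ∀ k, s' • g k ∈ Submodule.span S (Set.range l)) :
    ∃ ρ : Fin 3 → S, ∑ k, ρ k • l k = 0 ∧ ∃ k, ρ k ∉ p := by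
  classical
  have h1' : ∀ k, ∃ c : Fin 2 → S, ∑ a, c a • g a = s • l k := fun k =>
    (Submodule.mem_span_range_iff_exists_fun S).1 (h1 k)
  have h2' : ∀ a, ∃ c : Fin 3 → S, ∑ k, c k • l k = s' • g a := fun a =>
    (Submodule.mem_span_range_iff_exists_fun S).1 (h2 a)
  choose A hA using h1'
  choose B hB using h2'
  by_contra hcon
  push Not at hcon
  -- the matrices
  let A' : Matrix (Fin 3) (Fin 3) S := fun k a => if h : a.val < 2 then A k ⟨a.val, h⟩ else 0
  let B' : Matrix (Fin 3) (Fin 3) S := fun a k => if h : a.val < 2 then B ⟨a.val, h⟩ k else 0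
  have hAB : ∀ k k', (A' * B') k k' = ∑ a : Fin 2, A k a * B a k' := by
    intro k k'
    rw [Matrix.mul_apply, Fin.sum_univ_three, Fin.sum_univ_two]
    simp [A', B']
  have hrel : ∀ k, ∑ k', ((if k = k' then s * s' else 0) - (A' * B') k k') • l k' = 0 := by
    intro k
    simp only [sub_smul, Finset.sum_sub_distrib, ite_smul, zero_smul, Finset.sum_ite_eq,
      Finset.mem_univ, if_true]
    have h3 : (s * s') • l k = ∑ k', (A' * B') k k' • l k' := by
      calc (s * s') • l k = s' • (s • l k) := by rw [smul_smul, mul_comm]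
        _ = s' • ∑ a, A k a • g a := by rw [hA]
        _ = ∑ a, A k a • (s' • g a) := by
          rw [Finset.smul_sum]
          exact Finset.sum_congr rfl fun a _ => smul_comm _ _ _
        _ = ∑ a, A k a • ∑ k', B a k' • l k' := by
          exact Finset.sum_congr rfl fun a _ => by rw [hB]
        _ = ∑ k', (A' * B') k k' • l k' := by
          simp only [hAB, Finset.smul_sum, smul_smul, Finset.sum_smul]
          rw [Finset.sum_comm]
    rw [h3, sub_self]
  have hmem : ∀ k k', ((if k = k' then s * s' else 0) - (A' * B') k k') ∈ p := fun k k' =>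
    hcon _ (hrel k) k'
  -- determinants modulo `p`
  have hdetA : A'.det = 0 := by
    refine Matrix.det_eq_zero_of_column_eq_zero 2 fun i => ?_
    simp [A']
  let φ : S →+* S ⧸ p := Ideal.Quotient.mk p
  have hm : φ.mapMatrix ((s * s') • (1 : Matrix (Fin 3) (Fin 3) S)) = φ.mapMatrix (A' * B') := by
    ext k k'
    simp only [RingHom.mapMatrix_apply, Matrix.map_apply, Matrix.smul_apply, Matrix.one_apply,
      smul_eq_mul, mul_ite, mul_one, mul_zero]
    exact (Ideal.Quotient.mk_eq_mk_iff_sub_mem _ _).2 (hmem k k')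
  have hd := congrArg Matrix.det hm
  rw [← RingHom.map_det, ← RingHom.map_det, Matrix.det_mul, hdetA, zero_mul, map_zero,
    Matrix.det_smul, Matrix.det_one, mul_one] at hd
  have hin : (s * s') ^ Fintype.card (Fin 3) ∈ p := Ideal.Quotient.eq_zero_iff_mem.1 hd
  rcases hp.mem_or_mem (hp.mem_of_pow_mem _ hin) with h | h
  · exact hs h
  · exact hs' h

/-- Torsion free modules of rank one over a factorial ring with the property `ht` are cyclic. -/
lemma cyclic {S V : Type*} [CommRing S] [IsDomain S] [UniqueFactorizationMonoid S]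
    [IsNoetherianRing S] [AddCommGroup V] [Module S V] [Module.Finite S V]
    (tf : ∀ (a : S) (m : V), a • m = 0 → a = 0 ∨ m = 0)
    (ht : ∀ a b : S, IsRelPrime a b → ∀ m n : V, a • m = b • n → ∃ k, m = b • k)
    (dep : ∀ u v : V, ∃ a b : S, (a ≠ 0 ∨ b ≠ 0) ∧ a • u = b • v) :
    ∃ e : V, ∀ m, ∃ c : S, m = c • e := by
  classical
  have : IsNoetherian S V := isNoetherian_of_isNoetherianRing_of_finite S V
  obtain ⟨N, ⟨e, rfl⟩, hmax⟩ := set_has_maximal_iff_noetherian.2 ‹IsNoetherian S V›
    (Set.range fun v : V => Submodule.span S {v}) ⟨_, ⟨0, rfl⟩⟩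
  refine ⟨e, fun m => ?_⟩
  by_cases he : e = 0
  · -- then every element is zero
    have h1 := hmax (Submodule.span S {m}) ⟨m, rfl⟩
    have h2 : m = 0 := by
      by_contra hm
      apply h1
      simp only [he, Submodule.span_zero_singleton]
      exact bot_lt_iff_ne_bot.2 (by rwa [Ne, Submodule.span_singleton_eq_bot])
    exact ⟨0, by simp [h2]⟩
  · obtain ⟨a, b, hab, h⟩ := dep m e
    have ha : a ≠ 0 := by
      rintro rfl
      rw [zero_smul] at h
      rcases tf b e h.symm with h' | h'
      · rcases hab with h'' | h''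
        · exact h'' rfl
        · exact h'' h'
      · exact he h'
    obtain ⟨a', b', c, hrel, hca, hcb⟩ :=
      UniqueFactorizationMonoid.exists_reduced_factors a ha b
    have hc : c ≠ 0 := by
      rintro rfl
      rw [zero_mul] at hca
      exact ha hca.symm
    have h1 : a' • m = b' • e := by
      have : c • (a' • m - b' • e) = 0 := by
        rw [smul_sub, smul_smul, smul_smul, hca, hcb, h, sub_self]
      rcases tf c _ this with h' | h'
      · exact absurd h' hc
      · exact sub_eq_zero.1 h'
    obtain ⟨k, hk⟩ := ht b' a' hrel.symm e m h1.symm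
    -- maximality
    have h2 : k ∈ Submodule.span S {e} := by
      by_contra hk'
      apply hmax (Submodule.span S {k}) ⟨k, rfl⟩
      refine lt_of_le_of_ne ?_ ?_
      · simp only
        rw [Submodule.span_singleton_le_iff_mem, hk]
        exact Submodule.smul_mem _ _ (Submodule.mem_span_singleton_self k)
      · intro heq
        apply hk'
        simp only at heq
        rw [heq]
        exact Submodule.mem_span_singleton_self k
    obtain ⟨u, hu⟩ := Submodule.mem_span_singleton.1 h2
    have h3 : 1 = u * a' := by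
      have : (1 - u * a') • e = 0 := by
        rw [sub_smul, one_smul, mul_comm, mul_smul, hu, ← hk, sub_self]
      rcases tf _ _ this with h' | h'
      · exact sub_eq_zero.1 h'
      · exact absurd h' he
    refine ⟨u * b', ?_⟩
    rw [mul_smul, ← h1, ← mul_smul, ← h3, one_smul]

/-- Relations between three generators of a module of rank two are cyclic. -/
lemma relations {S M : Type*} [CommRing S] [IsDomain S] [UniqueFactorizationMonoid S]
    [IsNoetherianRing S] [AddCommGroup M] [Module S M]
    (tf : ∀ (a : S) (m : M), a • m = 0 → a = 0 ∨ m = 0) (l : Fin 3 → M)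
    (u₁ u₂ : M) (hu : ∀ a b : S, a • u₁ + b • u₂ = 0 → a = 0 ∧ b = 0)
    (h1 : u₁ ∈ Submodule.span S (Set.range l)) (h2 : u₂ ∈ Submodule.span S (Set.range l)) :
    ∃ r : Fin 3 → S, ∑ k, r k • l k = 0 ∧
      ∀ ρ : Fin 3 → S, ∑ k, ρ k • l k = 0 → ∃ c : S, ∀ k, ρ k = c * r k := by
  classical
  obtain ⟨α, hα⟩ := (Submodule.mem_span_range_iff_exists_fun S).1 h1
  obtain ⟨β, hβ⟩ := (Submodule.mem_span_range_iff_exists_fun S).1 h2
  let L : (Fin 3 → S) →ₗ[S] M := Fintype.linearCombination S l
  have hL : ∀ ρ : Fin 3 → S, L ρ = ∑ k, ρ k • l k := fun ρ => by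
    simp [L, Fintype.linearCombination_apply]
  let R := LinearMap.ker L
  have hcyc := cyclic (S := S) (V := R) ?_ ?_ ?_
  · obtain ⟨e, he⟩ := hcyc
    refine ⟨e.1, ?_, fun ρ hρ => ?_⟩
    · rw [← hL]; exact e.2
    · obtain ⟨c, hc⟩ := he ⟨ρ, by rw [LinearMap.mem_ker, hL]; exact hρ⟩
      refine ⟨c, fun k => ?_⟩
      have := congrArg (fun z : R => z.1 k) hc
      simpa using this
  · intro a m h
    by_cases ha : a = 0
    · exact Or.inl ha
    · right
      ext k
      have := congrArg (fun z : R => z.1 k) h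
      simp only [Submodule.coe_smul, Pi.smul_apply, smul_eq_mul, ZeroMemClass.coe_zero,
        Pi.zero_apply, mul_eq_zero] at this
      rcases this with h' | h'
      · exact absurd h' ha
      · simpa using h'
  · intro a b hab m n h
    by_cases hb : b = 0
    · subst hb
      obtain ⟨w, rfl⟩ := isRelPrime_zero_right.1 hab
      refine ⟨0, ?_⟩
      rw [zero_smul] at h
      have h5 : ((w⁻¹ : Sˣ) : S) • ((w : S) • m) = 0 := by rw [h, smul_zero]
      rw [smul_smul, ← Units.val_mul, inv_mul_cancel, Units.val_one, one_smul] at h5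
      rw [h5, zero_smul]
    · have hk : ∀ k, ∃ τ, m.1 k = b * τ := by
        intro k
        have h3 := congrArg (fun z : R => z.1 k) h
        simp only [Submodule.coe_smul, Pi.smul_apply, smul_eq_mul] at h3
        have : b ∣ a * m.1 k := ⟨n.1 k, h3⟩
        exact (hab.symm.dvd_of_dvd_mul_left this)
      choose τ hτ using hk
      have hτR : τ ∈ R := by
        rw [LinearMap.mem_ker]
        have h4 : b • L τ = 0 := by
          rw [← map_smul]
          have : b • τ = m.1 := by
            ext k; simp [hτ k]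
          rw [this]
          exact m.2
        rcases tf b _ h4 with h' | h'
        · exact absurd h' hb
        · exact h'
      refine ⟨⟨τ, hτR⟩, ?_⟩
      ext k
      simp [hτ k]
  · intro ρ σ
    let v : Fin 4 → (Fin 3 → S) := ![ρ.1, σ.1, α, β]
    have hnl : ¬ LinearIndependent S v := by
      intro hli
      have := hli.fintype_card_le_finrank
      simp at this
    obtain ⟨c, hc, i, hi⟩ := Fintype.not_linearIndependent_iff.1 hnl
    rw [Fin.sum_univ_four] at hc
    have hc' : c 0 • ρ.1 + c 1 • σ.1 + c 2 • α + c 3 • β = 0 := by simpa [v] using hc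
    have hLc := congrArg L hc'
    have hρ : L ρ.1 = 0 := ρ.2
    have hσ : L σ.1 = 0 := σ.2
    have hLα : L α = u₁ := by rw [hL, hα]
    have hLβ : L β = u₂ := by rw [hL, hβ]
    rw [map_add, map_add, map_add, map_smul, map_smul, map_smul, map_smul, hρ, hσ, hLα, hLβ,
      smul_zero, smul_zero, add_zero, zero_add, map_zero] at hLc
    obtain ⟨h2', h3'⟩ := hu _ _ hLc
    refine ⟨c 0, -c 1, ?_, ?_⟩
    · by_contra hcon
      push Not at hcon
      have h0 := hcon.1
      have h1' : c 1 = 0 := by simpa using hcon.2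
      apply hi
      fin_cases i <;> simp [h0, h1', h2', h3']
    · have : c 0 • ρ.1 = -(c 1 • σ.1) := by
        rw [h2', h3', zero_smul, zero_smul, add_zero, add_zero] at hc'
        exact eq_neg_of_add_eq_zero_left hc'
      ext k
      have := congrFun this k
      simpa using this

end Pool.Agent.Lib.MP_745d3a_ag.PF

end

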