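import Pool.Agent.Lib.MP_745d3a_ag.PFAlg

/-!
Rank two reflexive modules, duals, the eigenvalue dichotomy.
-/

set_option autoImplicit false
set_option linter.unusedSectionVars false
set_option linter.style.haveILetI false

section

set_option autoImplicit false

open MvPolynomial

namespace Pool.Agent.Lib.MP_745d3a_ag.PF

section rowC1

variable {K S S' ι ι' M : Type*} [Field K] [CommRing S] [Algebra K S] [CommRing S'] [Algebra K S']
  [Algebra S S'] [IsScalarTower K S S'] {x : ι → S} {j : ι} {f : ι' → ι} {x' : ι' → S'}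
  [AddCommGroup M] [Module S M]

/-- Local coordinates as global functionals. -/
lemma Bun.local (hx : Coord K x) (hM : Bun x M) (p : Ideal S) (hp : p.IsPrime)
    (hi : ∃ i, x i ∉ p) : ∃ s, s ∉ p ∧ ∃ (m₁ m₂ : M) (θ₁ θ₂ : M →ₗ[S] S),
      (∀ m, s • m = θ₁ m • m₁ + θ₂ m • m₂) ∧ θ₁ m₁ = s ∧ θ₁ m₂ = 0 ∧ θ₂ m₁ = 0 ∧ θ₂ m₂ = s ∧
      ∀ a b : S, a • m₁ + b • m₂ = 0 → a = 0 ∧ b = 0 := by
  obtain ⟨s, hs, m₁, m₂, hspan, hind⟩ := hM.lf p hp hi
  choose A B hAB using hspan
  have huniq : ∀ a b a' b' : S, a • m₁ + b • m₂ = a' • m₁ + b' • m₂ → a = a' ∧ b = b' := by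
    intro a b a' b' h
    have h1 := hind (a - a') (b - b') (by
      rw [sub_smul, sub_smul]
      rw [show a • m₁ - a' • m₁ + (b • m₂ - b' • m₂)
        = (a • m₁ + b • m₂) - (a' • m₁ + b' • m₂) by abel, h, sub_self])
    exact ⟨sub_eq_zero.mp h1.1, sub_eq_zero.mp h1.2⟩
  have hadd : ∀ m n, A (m + n) = A m + A n ∧ B (m + n) = B m + B n := by
    intro m n
    apply huniq
    rw [← hAB, smul_add, hAB m, hAB n, add_smul, add_smul]
    abel
  have hsmul : ∀ (c : S) (m : M), A (c • m) = c * A m ∧ B (c • m) = c * B m := by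
    intro c m
    apply huniq
    rw [← hAB, smul_comm s c m, hAB m, smul_add, smul_smul, smul_smul]
  refine ⟨s, hs, m₁, m₂,
    { toFun := A, map_add' := fun m n => (hadd m n).1, map_smul' := fun c m => (hsmul c m).1 },
    { toFun := B, map_add' := fun m n => (hadd m n).2, map_smul' := fun c m => (hsmul c m).2 },
    hAB, ?_, ?_, ?_, ?_, hind⟩
  · exact (huniq (A m₁) (B m₁) s 0 (by rw [← hAB, zero_smul, add_zero])).1
  · exact (huniq (A m₂) (B m₂) 0 s (by rw [← hAB, zero_smul, zero_add])).1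
  · exact (huniq (A m₁) (B m₁) s 0 (by rw [← hAB, zero_smul, add_zero])).2
  · exact (huniq (A m₂) (B m₂) 0 s (by rw [← hAB, zero_smul, zero_add])).2

/-- Local coordinates at the generic point. -/
private lemma C1_generic [Nonempty ι] (hx : Coord K x) (hM : Bun x M) :
    ∃ s : S, s ≠ 0 ∧ ∃ (m₁ m₂ : M) (θ₁ θ₂ : M →ₗ[S] S),
      (∀ m, s • m = θ₁ m • m₁ + θ₂ m • m₂) ∧ θ₁ m₁ = s ∧ θ₁ m₂ = 0 ∧ θ₂ m₁ = 0 ∧ θ₂ m₂ = s ∧
      ∀ a b : S, a • m₁ + b • m₂ = 0 → a = 0 ∧ b = 0 := by
  have := hx.isDomain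
  obtain ⟨i⟩ := ‹Nonempty ι›
  obtain ⟨s, hs, h⟩ := Bun.local hx hM (⊥ : Ideal S) Ideal.isPrime_bot
    ⟨i, by rw [Ideal.mem_bot]; exact (hx.prime_x i).ne_zero⟩
  exact ⟨s, by rwa [Ideal.mem_bot] at hs, h⟩

/-- Any three elements are dependent. -/
lemma Bun.dep3 [Nonempty ι] (hx : Coord K x) (hM : Bun x M) (u₁ u₂ v : M)
    (hu : ∀ a b : S, a • u₁ + b • u₂ = 0 → a = 0 ∧ b = 0) :
    ∃ c a b : S, c ≠ 0 ∧ c • v = a • u₁ + b • u₂ := by
  have := hx.isDomain
  obtain ⟨s, hs, m₁, m₂, θ₁, θ₂, hθ, -, -, -, -, -⟩ := C1_generic hx hM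
  have hzero : ∀ m : M, θ₁ m = 0 → θ₂ m = 0 → m = 0 := by
    intro m h1 h2
    have h3 := hθ m
    rw [h1, h2, zero_smul, zero_smul, add_zero] at h3
    exact (hM.tf s m h3).resolve_left hs
  refine ⟨θ₁ u₁ * θ₂ u₂ - θ₁ u₂ * θ₂ u₁, θ₁ v * θ₂ u₂ - θ₁ u₂ * θ₂ v,
    θ₁ u₁ * θ₂ v - θ₁ v * θ₂ u₁, ?_, ?_⟩
  · intro hc
    have e1 : θ₂ u₂ • u₁ + (-θ₂ u₁) • u₂ = 0 := by
      apply hzero
      · rw [map_add, map_smul, map_smul, smul_eq_mul, smul_eq_mul]
        linear_combination hc
      · rw [map_add, map_smul, map_smul, smul_eq_mul, smul_eq_mul]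
        ring
    have e2 : θ₁ u₂ • u₁ + (-θ₁ u₁) • u₂ = 0 := by
      apply hzero
      · rw [map_add, map_smul, map_smul, smul_eq_mul, smul_eq_mul]
        ring
      · rw [map_add, map_smul, map_smul, smul_eq_mul, smul_eq_mul]
        linear_combination -hc
    obtain ⟨-, h1⟩ := hu _ _ e1
    obtain ⟨-, h2⟩ := hu _ _ e2
    rw [neg_eq_zero] at h1 h2
    have h3 : u₁ = 0 := hzero u₁ h2 h1
    obtain ⟨h4, -⟩ := hu 1 0 (by rw [h3, smul_zero, zero_smul, add_zero])
    exact one_ne_zero h4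
  · rw [← sub_eq_zero]
    apply hzero
    · rw [map_sub, map_add, map_smul, map_smul, map_smul, smul_eq_mul, smul_eq_mul, smul_eq_mul]
      ring
    · rw [map_sub, map_add, map_smul, map_smul, map_smul, smul_eq_mul, smul_eq_mul, smul_eq_mul]
      ring

/-- Two generators are independent. -/
lemma Bun.gen2_indep [Nonempty ι] (hx : Coord K x) (hM : Bun x M) (u₁ u₂ : M)
    (hu : ∀ m, ∃ a b : S, m = a • u₁ + b • u₂) (a b : S) (h : a • u₁ + b • u₂ = 0) :
    a = 0 ∧ b = 0 := by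
  have := hx.isDomain
  obtain ⟨s, hs, m₁, m₂, θ₁, θ₂, hθ, h11, h12, h21, h22, -⟩ := C1_generic hx hM
  obtain ⟨a₁, b₁, hm1⟩ := hu m₁
  obtain ⟨a₂, b₂, hm2⟩ := hu m₂
  have k11 : a₁ * θ₁ u₁ + b₁ * θ₁ u₂ = s := by
    rw [← h11, hm1, map_add, map_smul, map_smul, smul_eq_mul, smul_eq_mul]
  have k12 : a₂ * θ₁ u₁ + b₂ * θ₁ u₂ = 0 := by
    rw [← h12, hm2, map_add, map_smul, map_smul, smul_eq_mul, smul_eq_mul]
  have k21 : a₁ * θ₂ u₁ + b₁ * θ₂ u₂ = 0 := by
    rw [← h21, hm1, map_add, map_smul, map_smul, smul_eq_mul, smul_eq_mul]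
  have k22 : a₂ * θ₂ u₁ + b₂ * θ₂ u₂ = s := by
    rw [← h22, hm2, map_add, map_smul, map_smul, smul_eq_mul, smul_eq_mul]
  have hdet : (a₁ * b₂ - a₂ * b₁) * (θ₁ u₁ * θ₂ u₂ - θ₁ u₂ * θ₂ u₁) = s * s := by
    linear_combination (a₂ * θ₂ u₁ + b₂ * θ₂ u₂) * k11 + s * k22 -
      (a₁ * θ₂ u₁ + b₁ * θ₂ u₂) * k12
  have hT : θ₁ u₁ * θ₂ u₂ - θ₁ u₂ * θ₂ u₁ ≠ 0 := by
    intro h0
    rw [h0, mul_zero] at hdet
    exact hs (mul_self_eq_zero.mp hdet.symm)
  have l1 : a * θ₁ u₁ + b * θ₁ u₂ = 0 := by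
    have := congrArg θ₁ h
    rwa [map_add, map_smul, map_smul, smul_eq_mul, smul_eq_mul, map_zero] at this
  have l2 : a * θ₂ u₁ + b * θ₂ u₂ = 0 := by
    have := congrArg θ₂ h
    rwa [map_add, map_smul, map_smul, smul_eq_mul, smul_eq_mul, map_zero] at this
  constructor
  · have : a * (θ₁ u₁ * θ₂ u₂ - θ₁ u₂ * θ₂ u₁) = 0 := by
      linear_combination θ₂ u₂ * l1 - θ₁ u₂ * l2
    exact (mul_eq_zero.mp this).resolve_right hT
  · have : b * (θ₁ u₁ * θ₂ u₂ - θ₁ u₂ * θ₂ u₁) = 0 := by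
      linear_combination θ₁ u₁ * l2 - θ₂ u₁ * l1
    exact (mul_eq_zero.mp this).resolve_right hT

lemma Bun.sat (hx : Coord K x) (hM : Bun x M) (hr : RS x j f x') (a : S)
    (ha : algebraMap S S' a ≠ 0) (m : M) (h : ∃ n, a • m = x j • n) : ∃ n, m = x j • n := by
  have := hx.isDomain
  obtain ⟨n, hn⟩ := h
  have hnd : ¬ x j ∣ a := by
    rintro ⟨c, rfl⟩
    apply ha
    rw [map_mul, hr.xj, zero_mul]
  have hrel : IsRelPrime a (x j) := by
    intro d hd1 hd2
    rcases (hx.prime_x j).irreducible.dvd_iff.mp hd2 with h1 | h1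
    · exact h1
    · exact absurd (h1.dvd.trans hd1) hnd
  exact hM.ht a (x j) hrel m n hn

/-- Elements killed by all functionals with values in `S'`. -/
lemma Bun.torsionless (hx : Coord K x) (hM : Bun x M) (hr : RS x j f x') [Nonempty ι'] (m : M)
    (h : ∀ θ : M →ₗ[S] S', θ m = 0) : ∃ n, m = x j • n := by
  have := hx.isDomain
  obtain ⟨i'⟩ := ‹Nonempty ι'›
  let J : Ideal S :=
    { carrier := {a | ∃ n, a • m = x j • n}
      add_mem' := by
        rintro a b ⟨n, hn⟩ ⟨n', hn'⟩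
        exact ⟨n + n', by rw [add_smul, smul_add, hn, hn']⟩
      zero_mem' := ⟨0, by rw [zero_smul, smul_zero]⟩
      smul_mem' := by
        rintro c a ⟨n, hn⟩
        exact ⟨c • n, by rw [smul_eq_mul, mul_smul, hn, smul_comm]⟩ }
  have hJ : ∀ p : Ideal S, p.IsPrime → x (f i') ∉ p → ¬ J ≤ p := by
    intro p hp hi hle
    obtain ⟨s, hs, m₁, m₂, θ₁, θ₂, hθ, -⟩ := Bun.local hx hM p hp ⟨_, hi⟩
    apply hs
    apply hle
    have key : ∀ θ : M →ₗ[S] S, ∃ b, θ m = x j * b := by
      intro θ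
      apply hr.ker
      have := h ((Algebra.linearMap S S').comp θ)
      simpa using this
    obtain ⟨b₁, hb₁⟩ := key θ₁
    obtain ⟨b₂, hb₂⟩ := key θ₂
    refine ⟨b₁ • m₁ + b₂ • m₂, ?_⟩
    rw [hθ m, hb₁, hb₂, smul_add, mul_smul, mul_smul]
  obtain ⟨k, n, hn⟩ := pow_mem_of_prime J (x (f i')) hJ
  have hrel := hx.relPrime_pow (hr.ne i') k 1
  rw [pow_one] at hrel
  exact hM.ht _ _ hrel m n hn

/-- Reflexivity. -/
lemma Bun.reflexive (hx : Coord K x) (hM : Bun x M) {i₁ i₂ : ι} (h12 : i₁ ≠ i₂)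
    (φ : (M →ₗ[S] S) →ₗ[S] S) : ∃ m, ∀ θ, φ θ = θ m := by
  have := hx.isDomain
  have : Nonempty ι := ⟨i₁⟩
  let J : Ideal S :=
    { carrier := {a | ∃ m, ∀ θ : M →ₗ[S] S, a * φ θ = θ m}
      add_mem' := by
        rintro a b ⟨n, hn⟩ ⟨n', hn'⟩
        exact ⟨n + n', fun θ => by rw [add_mul, map_add, hn, hn']⟩
      zero_mem' := ⟨0, fun θ => by rw [zero_mul, map_zero]⟩
      smul_mem' := by
        rintro c a ⟨n, hn⟩
        exact ⟨c • n, fun θ => by rw [smul_eq_mul, mul_assoc, hn, map_smul, smul_eq_mul]⟩ }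
  have hJ : ∀ i, ∀ p : Ideal S, p.IsPrime → x i ∉ p → ¬ J ≤ p := by
    intro i p hp hi hle
    obtain ⟨s, hs, m₁, m₂, θ₁, θ₂, hθ, -⟩ := Bun.local hx hM p hp ⟨_, hi⟩
    apply hs
    apply hle
    refine ⟨φ θ₁ • m₁ + φ θ₂ • m₂, fun θ => ?_⟩
    have h1 : s • θ = θ m₁ • θ₁ + θ m₂ • θ₂ := by
      ext m
      rw [LinearMap.smul_apply, LinearMap.add_apply, LinearMap.smul_apply, LinearMap.smul_apply,
        ← map_smul, hθ m, map_add, map_smul, map_smul]
      simp only [smul_eq_mul]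
      ring
    have h2 := congrArg φ h1
    rw [map_smul, map_add, map_smul, map_smul] at h2
    simp only [smul_eq_mul] at h2
    rw [h2, map_add, map_smul, map_smul]
    simp only [smul_eq_mul]
    ring
  obtain ⟨k, n, hn⟩ := pow_mem_of_prime J (x i₁) (hJ i₁)
  obtain ⟨l, n', hn'⟩ := pow_mem_of_prime J (x i₂) (hJ i₂)
  obtain ⟨s, hs, m₁, m₂, θ₁, θ₂, hθ, -⟩ := C1_generic hx hM
  have hsep : ∀ m : M, (∀ θ : M →ₗ[S] S, θ m = 0) → m = 0 := by
    intro m hm
    have h3 := hθ m
    rw [hm θ₁, hm θ₂, zero_smul, zero_smul, add_zero] at h3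
    exact (hM.tf s m h3).resolve_left hs
  have heq : x i₂ ^ l • n = x i₁ ^ k • n' := by
    rw [← sub_eq_zero]
    apply hsep
    intro θ
    rw [map_sub, map_smul, map_smul, ← hn θ, ← hn' θ]
    simp only [smul_eq_mul]
    ring
  obtain ⟨r, hr⟩ := hM.ht _ _ (hx.relPrime_pow h12.symm l k) n n' heq
  refine ⟨r, fun θ => ?_⟩
  have h4 := hn θ
  rw [hr, map_smul, smul_eq_mul] at h4
  exact mul_left_cancel₀ (pow_ne_zero k (hx.prime_x i₁).ne_zero) h4

end rowC1

end Pool.Agent.Lib.MP_745d3a_ag.PF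

end

section

set_option autoImplicit false

open MvPolynomial

namespace Pool.Agent.Lib.MP_745d3a_ag.PF

section c2

/-- The general form of the dual. -/
lemma Bun.dual_gen_aux {K S ι M : Type*} [Field K] [CommRing S] [Algebra K S] {x : ι → S}
    [AddCommGroup M] [Module S M] (hx : Coord K x) (hM : Bun x M) {T κ : Type*} [CommRing T]
    [Algebra S T] [IsDomain T] [UniqueFactorizationMonoid T] [IsNoetherianRing T] (y : κ → T)
    (hp : ∀ p : Ideal T, p.IsPrime → (∃ i, y i ∉ p) →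
      (p.comap (algebraMap S T)).IsPrime ∧ ∃ i, x i ∉ p.comap (algebraMap S T)) :
    Bun y (M →ₗ[S] T) := by
  classical
  have := hM.fin
  refine ⟨?_, ?_, ?_, ?_⟩
  · -- finiteness
    obtain ⟨G, hG⟩ := Module.Finite.fg_top (R := S) (M := M)
    let A : (M →ₗ[S] T) →ₗ[T] (G → T) :=
      { toFun := fun θ g => θ g
        map_add' := fun _ _ => rfl
        map_smul' := fun _ _ => rfl }
    refine Module.Finite.of_injective A ?_
    intro θ η h
    refine LinearMap.ext_on_range (v := ((↑) : G → M)) ?_ ?_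
    · rw [Subtype.range_coe_subtype]; exact hG
    · intro g
      exact congrFun h g
  · intro a θ h
    by_cases ha : a = 0
    · exact Or.inl ha
    · right
      ext m
      have h1 : a * θ m = 0 := congrArg (fun φ : M →ₗ[S] T => φ m) h
      exact (mul_eq_zero.mp h1).resolve_left ha
  · intro a b hab θ η h
    by_cases hb : b = 0
    · subst hb
      have ha : IsUnit a := isRelPrime_zero_right.mp hab
      refine ⟨0, ?_⟩
      rw [zero_smul] at h
      rw [zero_smul]
      obtain ⟨u, rfl⟩ := ha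
      have h2 : (↑u⁻¹ : T) • ((u : T) • θ) = 0 := by rw [h, smul_zero]
      rwa [smul_smul, Units.inv_mul, one_smul] at h2
    · have h1 : ∀ m, ∃ c, θ m = b * c := by
        intro m
        have h2 : a * θ m = b * η m := congrArg (fun φ : M →ₗ[S] T => φ m) h
        exact hab.symm.dvd_of_dvd_mul_left ⟨η m, h2⟩
      choose κ hκ using h1
      refine ⟨{ toFun := κ, map_add' := ?_, map_smul' := ?_ }, ?_⟩
      · intro m n
        apply mul_left_cancel₀ hb
        rw [← hκ, map_add, hκ, hκ, mul_add]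
      · intro c m
        apply mul_left_cancel₀ hb
        rw [← hκ, map_smul, hκ, RingHom.id_apply, mul_smul_comm]
      · ext m
        exact hκ m
  · intro p hpp hi
    obtain ⟨hq, hi'⟩ := hp p hpp hi
    obtain ⟨s, hs, m₁, m₂, θ₁, θ₂, h1, h2, h3, h4, h5, _⟩ := Bun.local hx hM _ hq hi'
    have hs' : algebraMap S T s ∉ p := hs
    have hs0 : algebraMap S T s ≠ 0 := fun h => hs' (h ▸ p.zero_mem)
    refine ⟨algebraMap S T s, hs', (Algebra.linearMap S T).comp θ₁, (Algebra.linearMap S T).comp θ₂,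
      ?_, ?_⟩
    · intro θ
      refine ⟨θ m₁, θ m₂, ?_⟩
      ext m
      have h6 : θ (s • m) = θ (θ₁ m • m₁ + θ₂ m • m₂) := by rw [h1]
      rw [map_smul, map_add, map_smul, map_smul, Algebra.smul_def, Algebra.smul_def,
        Algebra.smul_def] at h6
      show algebraMap S T s * θ m = θ m₁ * algebraMap S T (θ₁ m) + θ m₂ * algebraMap S T (θ₂ m)
      rw [h6]; ring
    · intro a b h
      have h6 : ∀ m, a * algebraMap S T (θ₁ m) + b * algebraMap S T (θ₂ m) = 0 := fun m =>
        congrArg (fun φ : M →ₗ[S] T => φ m) h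
      have h7 := h6 m₁
      have h8 := h6 m₂
      rw [h2, h4, map_zero, mul_zero, add_zero] at h7
      rw [h3, h5, map_zero, mul_zero, zero_add] at h8
      exact ⟨(mul_eq_zero.mp h7).resolve_right hs0, (mul_eq_zero.mp h8).resolve_right hs0⟩

variable {K S S' ι ι' M : Type*} [Field K] [CommRing S] [Algebra K S] [CommRing S'] [Algebra K S']
  [Algebra S S'] [IsScalarTower K S S'] {x : ι → S} {j : ι} {f : ι' → ι} {x' : ι' → S'}
  [AddCommGroup M] [Module S M]

/-- `Bun.dual` -/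
lemma Bun.dual (hx : Coord K x) (hM : Bun x M) (hr : RS x j f x') [Finite ι] :
    Bun x' (M →ₗ[S] S') := by
  have hx' := hr.coord hx
  have : Finite ι' := Finite.of_injective f hr.inj
  have := hx'.isDomain
  have := hx'.ufm
  have := hx'.noeth
  refine Bun.dual_gen_aux hx hM x' fun p hp hi => ?_
  obtain ⟨h1, _, h2⟩ := hr.comap p hp hi
  exact ⟨h1, h2⟩

/-- `Bun.dual'` -/
lemma Bun.dual' (hx : Coord K x) (hM : Bun x M) [Finite ι] : Bun x (M →ₗ[S] S) := by
  have := hx.isDomain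
  have := hx.ufm
  have := hx.noeth
  refine Bun.dual_gen_aux hx hM x fun p hp hi => ?_
  have h : p.comap (algebraMap S S) = p := by
    rw [Algebra.algebraMap_self, Ideal.comap_id]
  rw [h]
  exact ⟨hp, hi⟩

/-- `Bun.cofinite` -/
lemma Bun.cofinite (hx : Coord K x) (hM : Bun x M) {S₁ Sb : Type*} [CommRing S₁] [Algebra S S₁]
    [CommRing Sb] [Algebra S Sb] [Algebra S₁ Sb] [IsScalarTower S S₁ Sb]
    (hsurj : Function.Surjective (algebraMap S₁ Sb)) (i : ι) (θ : M →ₗ[S] Sb) :
    ∃ (k : ℕ) (η : M →ₗ[S] S₁), ∀ m, algebraMap S₁ Sb (η m) = algebraMap S Sb (x i ^ k) * θ m := by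
  let J : Ideal S :=
    { carrier := {a | ∃ η : M →ₗ[S] S₁, ∀ m, algebraMap S₁ Sb (η m) = algebraMap S Sb a * θ m}
      zero_mem' := ⟨0, fun m => by simp⟩
      add_mem' := by
        rintro a b ⟨η, h⟩ ⟨η', h'⟩
        exact ⟨η + η', fun m => by rw [LinearMap.add_apply, map_add, h, h', map_add, add_mul]⟩
      smul_mem' := by
        rintro c a ⟨η, h⟩
        refine ⟨c • η, fun m => ?_⟩
        rw [LinearMap.smul_apply, Algebra.smul_def, map_mul, h, smul_eq_mul, map_mul,
          ← IsScalarTower.algebraMap_apply S S₁ Sb]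
        ring }
  obtain ⟨k, hk⟩ := pow_mem_of_prime J (x i) (by
    intro p hp hi hJ
    obtain ⟨s, hs, m₁, m₂, θ₁, θ₂, h1, _⟩ := Bun.local hx hM p hp ⟨i, hi⟩
    apply hs
    apply hJ
    obtain ⟨b₁, hb₁⟩ := hsurj (θ m₁)
    obtain ⟨b₂, hb₂⟩ := hsurj (θ m₂)
    refine ⟨b₁ • (Algebra.linearMap S S₁).comp θ₁ + b₂ • (Algebra.linearMap S S₁).comp θ₂,
      fun m => ?_⟩
    show algebraMap S₁ Sb (b₁ * algebraMap S S₁ (θ₁ m) + b₂ * algebraMap S S₁ (θ₂ m)) = _
    have h6 : θ (s • m) = θ (θ₁ m • m₁ + θ₂ m • m₂) := by rw [h1]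
    rw [map_smul, map_add, map_smul, map_smul, Algebra.smul_def, Algebra.smul_def,
      Algebra.smul_def] at h6
    rw [map_add, map_mul, map_mul, hb₁, hb₂, ← IsScalarTower.algebraMap_apply S S₁ Sb,
      ← IsScalarTower.algebraMap_apply S S₁ Sb, h6]
    ring)
  obtain ⟨η, hη⟩ := hk
  exact ⟨k, η, hη⟩

/-- `Bun.three` -/
lemma Bun.three [CharZero K] [Fintype ι] (hx : Coord K x) (hc : 3 < Fintype.card ι)
    (hM : Bun x M) [Module K M] [IsScalarTower K S M] {E : Derivation K S S} (hE : IsEuler x E)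
    {ε : M →ₗ[K] M} (hε : IsConn E ε) (hd : Diag ε) (u : Fin 3 → M)
    (hu : Submodule.span S (Set.range u) = ⊤) : Gen2 S M := by
  classical
  have := hx.isDomain
  have := hx.ufm
  have := hx.noeth
  have := hM.fin
  -- two independent elements
  obtain ⟨i₀⟩ : Nonempty ι := by
    rw [← Fintype.card_pos_iff]; omega
  have hx0 : x i₀ ≠ 0 := (hx.prime_x i₀).ne_zero
  obtain ⟨s, -, u₁, u₂, -, hind⟩ := hM.lf ⊥ Ideal.isPrime_bot ⟨i₀, by
    rwa [Ideal.mem_bot]⟩
  obtain ⟨r, hr0, hr⟩ := relations hM.tf u u₁ u₂ hind (by rw [hu]; trivial) (by rw [hu]; trivial)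
  -- the coefficients of `r` generate the unit ideal
  have htop : Ideal.span (Set.range r) = ⊤ := by
    refine hx.krull hc r fun p hp hi => ?_
    obtain ⟨s, hs, m₁, m₂, h1, _⟩ := hM.lf p hp hi
    obtain ⟨ρ, hρ, k, hk⟩ := det_trick p hp u ![m₁, m₂] s 1 hs
      (fun h => hp.ne_top ((Ideal.eq_top_iff_one _).mpr h))
      (by
        intro k
        obtain ⟨a, b, hab⟩ := h1 (u k)
        rw [hab]
        refine Submodule.add_mem _ (Submodule.smul_mem _ _ (Submodule.subset_span ⟨0, rfl⟩))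
          (Submodule.smul_mem _ _ (Submodule.subset_span ⟨1, rfl⟩)))
      (by intro k; rw [hu]; trivial)
    obtain ⟨c, hc⟩ := hr ρ hρ
    refine ⟨k, fun h => hk ?_⟩
    rw [hc k]
    exact Ideal.mul_mem_left _ _ h
  -- some coefficient is a unit modulo the maximal ideal
  obtain ⟨k, hk⟩ : ∃ k, r k ∉ Ideal.span (Set.range x) := by
    by_contra hcon
    push Not at hcon
    have h1 : Ideal.span (Set.range r) ≤ Ideal.span (Set.range x) := by
      rw [Ideal.span_le]
      rintro _ ⟨k, rfl⟩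
      exact hcon k
    rw [htop] at h1
    exact one_notMem hx (h1 trivial)
  obtain ⟨c, hc'⟩ := sub_const_mem hx (r k)
  have hc0 : c ≠ 0 := by
    rintro rfl
    rw [map_zero, sub_zero] at hc'
    exact hk hc'
  -- `u k` is in the span of the others modulo the maximal ideal
  have huk : u k ∈ Submodule.span S (Set.range (u ∘ k.succAbove)) ⊔
      Ideal.span (Set.range x) • (⊤ : Submodule S M) := by
    have h1 : u k = algebraMap K S c⁻¹ • (-(∑ i, r (k.succAbove i) • u (k.succAbove i))) +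
        algebraMap K S c⁻¹ • (-((r k - algebraMap K S c) • u k)) := by
      have h2 : algebraMap K S c⁻¹ * algebraMap K S c = 1 := by
        rw [← map_mul, inv_mul_cancel₀ hc0, map_one]
      rw [Fin.sum_univ_succAbove _ k] at hr0
      rw [← smul_add, ← neg_add, eq_neg_of_add_eq_zero_right hr0, sub_smul]
      rw [show -(-(r k • u k) + (r k • u k - algebraMap K S c • u k)) =
        algebraMap K S c • u k by abel, smul_smul, h2, one_smul]
    rw [h1]
    refine Submodule.add_mem_sup (Submodule.smul_mem _ _ (Submodule.neg_mem _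
      (Submodule.sum_mem _ fun i _ => Submodule.smul_mem _ _ (Submodule.subset_span ⟨i, rfl⟩)))) ?_
    exact Submodule.smul_mem _ _ (Submodule.neg_mem _
      (Submodule.smul_mem_smul hc' Submodule.mem_top))
  obtain ⟨h, _, hh⟩ := exists_hom_gen hx hE hε hd 2 (u ∘ k.succAbove) (by
    intro v
    have hv : v ∈ Submodule.span S (Set.range u) := by rw [hu]; trivial
    revert v
    show Submodule.span S (Set.range u) ≤ _
    rw [Submodule.span_le]
    rintro _ ⟨l, rfl⟩
    by_cases hl : l = k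
    · rw [hl]; exact huk
    · obtain ⟨i, rfl⟩ := Fin.exists_succAbove_eq hl
      exact Submodule.mem_sup_left (Submodule.subset_span ⟨i, rfl⟩))
  refine ⟨h 0, h 1, fun m => ?_⟩
  have hm : m ∈ Submodule.span S (Set.range h) := by rw [hh]; trivial
  obtain ⟨a, ha⟩ := (Submodule.mem_span_range_iff_exists_fun S).mp hm
  rw [Fin.sum_univ_two] at ha
  exact ⟨a 0, a 1, ha.symm⟩

end c2

end Pool.Agent.Lib.MP_745d3a_ag.PF

end

section

set_option autoImplicit false

open MvPolynomial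

namespace Pool.Agent.Lib.MP_745d3a_ag.PF

section rowD1

section sums

variable {K V : Type*} [Field K] [AddCommGroup V] [Module K V]

/-- `v` is a sum of eigenvectors with integral eigenvalues. -/
private def D1P (T : V →ₗ[K] V) (v : V) : Prop :=
  ∃ (s : Finset ℤ) (f : ℤ → V), (∀ d, T (f d) = (d : K) • f d) ∧ v = ∑ d ∈ s, f d

private lemma D1P_eig {T : V →ₗ[K] V} {v : V} {d : ℤ} (h : T v = (d : K) • v) : D1P T v := by
  classical
  refine ⟨{d}, fun e => if e = d then v else 0, ?_, by simp⟩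
  intro e
  by_cases he : e = d
  · subst he; simp [h]
  · simp [he]

private lemma D1P_zero {T : V →ₗ[K] V} : D1P T 0 :=
  ⟨∅, fun _ => 0, by simp, by simp⟩

private lemma D1P_add {T : V →ₗ[K] V} {v w : V} (hv : D1P T v) (hw : D1P T w) :
    D1P T (v + w) := by
  classical
  obtain ⟨s, f, hf, rfl⟩ := hv
  obtain ⟨t, g, hg, rfl⟩ := hw
  refine ⟨s ∪ t, fun d => (if d ∈ s then f d else 0) + (if d ∈ t then g d else 0), ?_, ?_⟩
  · intro d
    rw [map_add, smul_add]
    congr 1
    · by_cases hd : d ∈ s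
      · simp only [hd, if_true]; exact hf d
      · simp only [hd, if_false, map_zero, smul_zero]
    · by_cases hd : d ∈ t
      · simp only [hd, if_true]; exact hg d
      · simp only [hd, if_false, map_zero, smul_zero]
  · rw [Finset.sum_add_distrib, Finset.sum_ite_mem, Finset.sum_ite_mem,
      Finset.inter_eq_right.mpr Finset.subset_union_left,
      Finset.inter_eq_right.mpr Finset.subset_union_right]

private lemma D1P_sum {T : V →ₗ[K] V} {α : Type*} (s : Finset α) (f : α → V)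
    (h : ∀ a ∈ s, D1P T (f a)) : D1P T (∑ a ∈ s, f a) :=
  Finset.sum_induction f (D1P T) (fun _ _ => D1P_add) D1P_zero h

end sums

variable {K S S' ι ι' M : Type*} [Field K] [CommRing S] [Algebra K S] [CommRing S'] [Algebra K S']
  [Algebra S S'] [IsScalarTower K S S'] {x : ι → S} {j : ι} {f : ι' → ι} {x' : ι' → S'}
  [AddCommGroup M] [Module K M] [Module S M] [IsScalarTower K S M] [CharZero K]

lemma dconn_diag (hx' : Coord K x') {E : Derivation K S S} {E' : Derivation K S' S'}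
    (hE' : IsEuler x' E')
    (hE : ∀ a, E' (algebraMap S S' a) = algebraMap S S' (E a)) {ε : M →ₗ[K] M}
    (hε : IsConn E ε) (hd : Diag ε) [Module.Finite S M] : Diag (dconn hE hε) := by
  classical
  obtain ⟨G, hG⟩ := Module.Finite.fg_top (R := S) (M := M)
  choose s hs hs' using fun m : M => exists_comp hd m
  let H : Finset M := G.biUnion (fun m => (s m).image (fun d => comp ε d m))
  have hHd : ∀ h : H, ∃ d : ℤ, ε (h : M) = (d : K) • (h : M) := by
    rintro ⟨h, hh⟩
    simp only [H, Finset.mem_biUnion, Finset.mem_image] at hh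
    obtain ⟨m, _, d, _, rfl⟩ := hh
    exact ⟨d, comp_eig hd d m⟩
  choose e he using hHd
  have hspan : Submodule.span S (H : Set M) = ⊤ := by
    rw [eq_top_iff, ← hG, Submodule.span_le]
    intro m hm
    rw [hs m]
    refine Submodule.sum_mem _ fun d hdm => Submodule.subset_span ?_
    simp only [H, Finset.coe_biUnion, Set.mem_iUnion, Finset.mem_coe]
    exact ⟨m, hm, Finset.mem_image.mpr ⟨d, hdm, rfl⟩⟩
  let A : (M →ₗ[S] S') →ₗ[K] (H → S') :=
    { toFun := fun θ h => θ h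
      map_add' := fun _ _ => rfl
      map_smul' := fun _ _ => rfl }
  let T' : (H → S') →ₗ[K] (H → S') :=
    { toFun := fun v h => E' (v h) - (e h : K) • v h
      map_add' := fun v w => by
        funext h
        simp only [Pi.add_apply, map_add, smul_add]
        abel
      map_smul' := fun c v => by
        funext h
        simp only [Pi.smul_apply, Derivation.map_smul, RingHom.id_apply, smul_sub]
        rw [smul_comm c (e h : K) (v h)] }
  refine Diag.of_injective (T' := T') ?_ A ?_ ?_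
  · intro v
    have hv : v = ∑ h : H, Pi.single h (v h) := by
      funext k
      rw [Finset.sum_apply, Finset.sum_pi_single]
      simp
    show D1P T' v
    rw [hv]
    refine D1P_sum _ _ fun h _ => ?_
    obtain ⟨t, ht, _⟩ := exists_comp (euler_diag hx' hE') (v h)
    have h1 : (Pi.single h (v h) : H → S') =
        ∑ d ∈ t, Pi.single h (comp (E' : S' →ₗ[K] S') d (v h)) := by
      conv_lhs => rw [ht]
      funext k
      rw [Finset.sum_apply]
      by_cases hk : k = h
      · subst hk; simp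
      · simp [Pi.single_eq_of_ne hk]
    rw [h1]
    refine D1P_sum _ _ fun d _ => ?_
    refine D1P_eig (d := d - e h) ?_
    funext k
    show E' ((Pi.single h (comp (E' : S' →ₗ[K] S') d (v h)) : H → S') k) -
      (e k : K) • (Pi.single h (comp (E' : S' →ₗ[K] S') d (v h)) : H → S') k = _
    by_cases hk : k = h
    · subst hk
      rw [Pi.smul_apply, Pi.single_eq_same]
      have h2 := comp_eig (euler_diag hx' hE') d (v k)
      have h3 : E' (comp (E' : S' →ₗ[K] S') d (v k)) =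
          (d : K) • comp (E' : S' →ₗ[K] S') d (v k) := h2
      rw [h3, Int.cast_sub, sub_smul]
    · rw [Pi.smul_apply, Pi.single_eq_of_ne hk]
      simp
  · intro θ θ' h
    refine LinearMap.ext_on hspan ?_
    intro m hm
    exact congrFun h ⟨m, hm⟩
  · intro θ
    funext h
    show E' (θ h) - (e h : K) • θ h = E' (θ h) - θ (ε h)
    rw [he h, ← algebraMap_smul S (e h : K) (h : M), map_smul, algebraMap_smul]

lemma Sys.dual [Finite ι] {E D : Derivation K S S} {ε δ : M →ₗ[K] M} (h : Sys x E D ε δ)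
    (hr : RS x j f x') {E' D' : Derivation K S' S'}
    (hE : ∀ a, E' (algebraMap S S' a) = algebraMap S S' (E a))
    (hD : ∀ a, D' (algebraMap S S' a) = algebraMap S S' (D a)) :
    Sys x' E' D' (dconn hE h.cE) (dconn hD h.cD) := by
  have hcx : Coord K x' := hr.coord h.cx
  have heu : IsEuler x' E' := by
    intro i'
    rw [← hr.map i', hE, h.eu]
  have := h.bun.fin
  exact
    { cx := hcx
      eu := heu
      ED := by
        intro a'
        obtain ⟨a, rfl⟩ := hr.surj a'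
        rw [hD, hE, hE, hD, h.ED]
      cE := dconn_isConn hE h.cE
      dg := dconn_diag hcx heu hE h.cE h.dg
      cD := dconn_isConn hD h.cD
      comm := by
        intro θ
        ext m
        simp only [dconn_apply, map_sub]
        have h1 : E' (D' (θ m)) = D' (E' (θ m)) := by
          obtain ⟨a, ha⟩ := hr.surj (θ m)
          rw [← ha, hD, hE, hE, hD, h.ED]
        rw [h1, h.comm]
        abel
      bun := h.bun.dual h.cx hr }

/-- Existence of eigenvectors. -/
lemma exists_eigenvector [IsAlgClosed K] [Finite ι] (hx : Coord K x) {E : Derivation K S S}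
    (hE : IsEuler x E) {ε : M →ₗ[K] M} (hε : IsConn E ε) (hd : Diag ε) [Module.Finite S M]
    (φ : M →ₗ[K] M) (hφ : ∀ m, ε (φ m) = φ (ε m)) (L : Submodule S M) (hL : L ≠ ⊥)
    (hLε : ∀ m ∈ L, ε m ∈ L) (hLφ : ∀ m ∈ L, φ m ∈ L) :
    ∃ (μ : K) (l : M), l ∈ L ∧ l ≠ 0 ∧ φ l = μ • l := by
  classical
  have := hx.noeth
  obtain ⟨l, hlL, hl0⟩ := (Submodule.ne_bot_iff L).mp hL
  have hLK : ∀ (c : K), ∀ w ∈ L, c • w ∈ L := by
    intro c w hw
    rw [← algebraMap_smul S c w]
    exact L.smul_mem _ hw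
  obtain ⟨d, hdl⟩ : ∃ d, comp ε d l ≠ 0 := by
    by_contra hcon
    push Not at hcon
    exact hl0 (eq_zero_of_comp hd hcon)
  have hcL : comp ε d l ∈ L := comp_mem hd L.toAddSubgroup hLε hLK hlL d
  -- the elements of degree `≥ d`
  let F : Submodule S M :=
    { carrier := {m | ∀ k < d, comp ε k m = 0}
      add_mem' := fun {a b} ha hb k hk => by rw [comp_add hd, ha k hk, hb k hk, add_zero]
      zero_mem' := fun k _ => comp_zero k
      smul_mem' := fun a m hm k hk => by
        obtain ⟨t, ht⟩ := comp_smul hε hd (euler_diag hx hE) a k m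
        rw [ht]
        refine Finset.sum_eq_zero fun i _ => ?_
        by_cases hi : i < 0
        · rw [(euler_comp hx hE a).1 i hi, zero_smul]
        · rw [hm (k - i) (by omega), smul_zero] }
  obtain ⟨G, hG⟩ := (isNoetherian_def.mp inferInstance F : F.FG)
  let W : Submodule K M := Submodule.span K (G.image (comp ε d) : Set M)
  have hFW : ∀ m ∈ F, comp ε d m ∈ W := by
    intro m hm
    have hGF : ∀ g ∈ G, g ∈ F := fun g hg => hG ▸ Submodule.subset_span hg
    rw [← hG] at hm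
    induction hm using Submodule.span_induction with
    | mem g hg =>
      refine Submodule.subset_span ?_
      rw [Finset.coe_image]
      exact ⟨g, hg, rfl⟩
    | zero => rw [comp_zero]; exact W.zero_mem
    | add a b _ _ ha hb => rw [comp_add hd]; exact W.add_mem ha hb
    | smul a g hg ihg =>
      rw [hG] at hg
      obtain ⟨t, ht⟩ := comp_smul hε hd (euler_diag hx hE) a d g
      rw [ht]
      refine W.sum_mem fun i _ => ?_
      rcases lt_trichotomy i 0 with hi | hi | hi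
      · rw [(euler_comp hx hE a).1 i hi, zero_smul]; exact W.zero_mem
      · subst hi
        obtain ⟨c, hc⟩ := (euler_comp hx hE a).2.1
        rw [hc, algebraMap_smul, sub_zero]
        exact W.smul_mem _ ihg
      · rw [hg (d - i) (by omega), smul_zero]; exact W.zero_mem
  let Ld : Submodule K M :=
    { carrier := {m | m ∈ L ∧ ε m = (d : K) • m}
      add_mem' := fun {a b} ha hb => ⟨L.add_mem ha.1 hb.1, by rw [map_add, ha.2, hb.2, smul_add]⟩
      zero_mem' := ⟨L.zero_mem, by rw [map_zero, smul_zero]⟩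
      smul_mem' := fun c m hm => ⟨hLK c m hm.1, by rw [map_smul, hm.2, smul_comm]⟩ }
  have hLdW : Ld ≤ W := by
    intro m hm
    have h1 : m ∈ F := by
      intro k hk
      exact comp_of_ne hm.2 (ne_of_lt hk)
    have h2 := hFW m h1
    rwa [comp_of_eig hm.2] at h2
  have : FiniteDimensional K W := FiniteDimensional.span_finset K _
  have : FiniteDimensional K Ld := Submodule.finiteDimensional_of_le hLdW
  have hφd : ∀ m ∈ Ld, φ m ∈ Ld := by
    intro m hm
    exact ⟨hLφ m hm.1, by rw [hφ, hm.2, map_smul]⟩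
  have : Nontrivial Ld := by
    refine ⟨⟨⟨comp ε d l, hcL, comp_eig hd d l⟩, 0, ?_⟩⟩
    intro h
    exact hdl (congrArg Subtype.val h)
  obtain ⟨μ, hμ⟩ := Module.End.exists_eigenvalue (φ.restrict hφd)
  obtain ⟨v, hv⟩ := hμ.exists_hasEigenvector
  refine ⟨μ, v, v.2.1, ?_, ?_⟩
  · intro h
    exact hv.2 (Subtype.ext h)
  · have := hv.apply_eq_smul
    exact congrArg Subtype.val this

end rowD1

end Pool.Agent.Lib.MP_745d3a_ag.PF

end

section

set_option autoImplicit false

open MvPolynomial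

namespace Pool.Agent.Lib.MP_745d3a_ag.PF

section rowD2

variable {K S S' ι ι' M : Type*} [Field K] [CommRing S] [Algebra K S] [CommRing S'] [Algebra K S']
  [Algebra S S'] [IsScalarTower K S S'] {x : ι → S} {j : ι} {f : ι' → ι} {x' : ι' → S'}
  [AddCommGroup M] [Module K M] [Module S M] [IsScalarTower K S M] [CharZero K]

omit [Module K M] [IsScalarTower K S M] [CharZero K] in
/-- Any three elements satisfy a nontrivial relation. -/
lemma d2_dep [Nonempty ι] (hx : Coord K x) (hM : Bun x M) (u v w : M) :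
    ∃ a b c : S, (a ≠ 0 ∨ b ≠ 0 ∨ c ≠ 0) ∧ a • u + b • v + c • w = 0 := by
  by_cases h : ∀ a b : S, a • u + b • v = 0 → a = 0 ∧ b = 0
  · obtain ⟨c, a, b, hc, hcw⟩ := hM.dep3 hx u v w h
    exact ⟨-a, -b, c, Or.inr (Or.inr hc), by rw [hcw]; simp only [neg_smul]; abel⟩
  · push Not at h
    obtain ⟨a, b, hab, h⟩ := h
    refine ⟨a, b, 0, ?_, by rw [hab, zero_smul, add_zero]⟩
    by_cases ha : a = 0
    · exact Or.inr (Or.inl (h ha))
    · exact Or.inl ha

omit [Module K M] [IsScalarTower K S M] [CharZero K] in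
/-- Saturated submodules of rank one are cyclic. -/
lemma d2_cyclic [Finite ι] (hx : Coord K x) (hM : Bun x M) (N : Submodule S M)
    (hsat : ∀ (a : S) (m : M), a ≠ 0 → a • m ∈ N → m ∈ N)
    (hdep : ∀ u ∈ N, ∀ v ∈ N, ∃ a b : S, (a ≠ 0 ∨ b ≠ 0) ∧ a • u = b • v) :
    ∃ e ∈ N, ∀ m ∈ N, ∃ c : S, m = c • e := by
  have := hx.isDomain
  have := hx.ufm
  have := hx.noeth
  have := hM.fin
  obtain ⟨e, he⟩ := cyclic (S := S) (V := N)
    (fun a m ham => by
      rcases hM.tf a m (by simpa using congrArg Subtype.val ham) with h1 | h1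
      · exact Or.inl h1
      · exact Or.inr (Subtype.ext h1))
    (fun a b hab m n hmn => by
      by_cases hb : b = 0
      · subst hb
        have h1 : IsUnit a := hab (dvd_refl a) (dvd_zero a)
        refine ⟨0, ?_⟩
        rw [zero_smul] at hmn
        rw [smul_zero]
        obtain ⟨a', ha'⟩ := h1.exists_left_inv
        rw [← one_smul S m, ← ha', mul_smul, hmn, smul_zero]
      · obtain ⟨k, hk⟩ := hM.ht a b hab m n (by simpa using congrArg Subtype.val hmn)
        refine ⟨⟨k, hsat b k hb ?_⟩, Subtype.ext hk⟩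
        rw [← hk]
        exact m.2)
    (fun u v => by
      obtain ⟨a, b, hab, h1⟩ := hdep u u.2 v v.2
      exact ⟨a, b, hab, Subtype.ext (by simpa using h1)⟩)
  refine ⟨e, e.2, fun m hm => ?_⟩
  obtain ⟨c, hc⟩ := he ⟨m, hm⟩
  exact ⟨c, by simpa using congrArg Subtype.val hc⟩

/-- The dichotomy for a linear endomorphism which commutes with the grading. -/
lemma d2_core [IsAlgClosed K] [Finite ι] [Nonempty ι] {E : Derivation K S S} {ε φ : M →ₗ[K] M}
    (h : Sys x E 0 ε φ) :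
    Gen2 S M ∨ ∃ μ : K, ∀ m, sh φ μ (sh φ μ m) = 0 := by
  have := h.cx.isDomain
  have := h.bun.fin
  have hlin : ∀ (a : S) (m : M), φ (a • m) = a • φ m := by
    intro a m
    rw [h.cD, Derivation.coe_zero, Pi.zero_apply, zero_smul, zero_add]
  have hsl : ∀ (μ : K) (a : S) (m : M), sh φ μ (a • m) = a • sh φ μ m := by
    intro μ a m
    rw [sh_apply, sh_apply, hlin, smul_sub, smul_comm μ a m]
  -- the module is not zero
  have hne : (⊤ : Submodule S M) ≠ ⊥ := by
    intro hcon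
    obtain ⟨i⟩ := (inferInstance : Nonempty ι)
    obtain ⟨s, _, m₁, m₂, _, h2⟩ := h.bun.lf ⊥ Ideal.isPrime_bot ⟨i, fun h1 =>
      (h.cx.prime_x i).ne_zero h1⟩
    have h3 : m₁ = 0 := by
      have : m₁ ∈ (⊤ : Submodule S M) := trivial
      rw [hcon] at this
      exact (Submodule.mem_bot S).mp this
    have h4 := h2 1 0 (by rw [h3, smul_zero, zero_smul, add_zero])
    exact one_ne_zero h4.1
  obtain ⟨μ₁, e, _, he0, he⟩ := exists_eigenvector h.cx h.eu h.cE h.dg φ h.comm ⊤ hne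
    (fun _ _ => trivial) (fun _ _ => trivial)
  -- the image of `φ - μ₁`
  let T : M →ₗ[S] M :=
    { toFun := fun m => sh φ μ₁ m
      map_add' := fun m n => map_add _ _ _
      map_smul' := fun a m => hsl μ₁ a m }
  have hT : ∀ m, T m = φ m - μ₁ • m := fun m => sh_apply _ _ _
  have hTe : T e = 0 := by rw [hT, he, sub_self]
  have hφT : ∀ m, φ (T m) = T (φ m) := by
    intro m
    rw [hT, hT, map_sub, map_smul]
  by_cases hL : LinearMap.range T = ⊥
  · right
    refine ⟨μ₁, fun m => ?_⟩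
    have h1 : T (T m) ∈ LinearMap.range T := ⟨_, rfl⟩
    rw [hL, Submodule.mem_bot] at h1
    exact h1
  obtain ⟨μ₂, l, hl, hl0, hφl⟩ := exists_eigenvector h.cx h.eu h.cE h.dg φ h.comm
    (LinearMap.range T) hL
    (by
      rintro _ ⟨m, rfl⟩
      refine ⟨ε m, ?_⟩
      rw [hT, hT, map_sub, map_smul, h.comm])
    (by
      rintro _ ⟨m, rfl⟩
      exact ⟨φ m, (hφT m).symm⟩)
  -- `φ = μ₂` on the image
  have hL2 : ∀ m, φ (T m) = μ₂ • T m := by
    intro m
    obtain ⟨v, rfl⟩ := hl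
    obtain ⟨a, b, c, habc, h1⟩ := d2_dep h.cx h.bun e m v
    have h2 : b • T m + c • T v = 0 := by
      have := congrArg T h1
      rw [map_add, map_add, map_smul, map_smul, map_smul, hTe, smul_zero, zero_add,
        map_zero] at this
      exact this
    have hb : b ≠ 0 := by
      rintro rfl
      rw [zero_smul, zero_add] at h2
      have hc : c = 0 := by
        rcases h.bun.tf _ _ h2 with h3 | h3
        · exact h3
        · exact absurd h3 hl0
      subst hc
      rw [zero_smul, zero_smul, add_zero, add_zero] at h1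
      have ha : a = 0 := by
        rcases h.bun.tf _ _ h1 with h3 | h3
        · exact h3
        · exact absurd h3 he0
      rcases habc with h4 | h4 | h4
      · exact h4 ha
      · exact h4 rfl
      · exact h4 rfl
    have h3 : b • (φ (T m) - μ₂ • T m) = 0 := by
      have h4 : b • T m = -(c • T v) := eq_neg_of_add_eq_zero_left h2
      have h5 : b • φ (T m) = -(c • (μ₂ • T v)) := by
        rw [← hlin, h4, map_neg, hlin, hφl]
      rw [smul_sub, h5, smul_comm b μ₂, h4, smul_comm c μ₂, smul_neg, sub_self]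
    rcases h.bun.tf _ _ h3 with h4 | h4
    · exact absurd h4 hb
    · exact sub_eq_zero.mp h4
  by_cases hμ : μ₁ = μ₂
  · right
    refine ⟨μ₁, fun m => ?_⟩
    show T (T m) = 0
    rw [hT (T m), hL2 m, hμ, sub_self]
  left
  have hμ' : μ₁ - μ₂ ≠ 0 := sub_ne_zero.mpr hμ
  let Ker : K → Submodule S M := fun μ =>
    { carrier := {m | φ m = μ • m}
      add_mem' := fun {m n} hm hn => by
        show φ (m + n) = μ • (m + n)
        rw [map_add, smul_add]
        exact congrArg₂ _ hm hn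
      zero_mem' := by
        show φ 0 = μ • 0
        rw [map_zero, smul_zero]
      smul_mem' := fun a m hm => by
        show φ (a • m) = μ • (a • m)
        rw [hlin, smul_comm μ a m]
        exact congrArg _ hm }
  have hKer : ∀ μ m, m ∈ Ker μ ↔ φ m = μ • m := fun μ m => Iff.rfl
  have hsat : ∀ μ (a : S) (m : M), a ≠ 0 → a • m ∈ Ker μ → m ∈ Ker μ := by
    intro μ a m ha hm
    rw [hKer] at hm ⊢
    have h1 : a • (φ m - μ • m) = 0 := by
      rw [smul_sub, ← hlin, hm, smul_comm a μ, sub_self]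
    rcases h.bun.tf _ _ h1 with h2 | h2
    · exact absurd h2 ha
    · exact sub_eq_zero.mp h2
  have hdep : ∀ μ μ' : K, μ ≠ μ' → ∀ w, w ≠ 0 → w ∈ Ker μ' → ∀ u ∈ Ker μ, ∀ v ∈ Ker μ,
      ∃ a b : S, (a ≠ 0 ∨ b ≠ 0) ∧ a • u = b • v := by
    intro μ μ' hne w hw0 hw u hu v hv
    rw [hKer] at hw hu hv
    obtain ⟨a, b, c, habc, h1⟩ := d2_dep h.cx h.bun u v w
    have h2 : μ • (a • u + b • v) + μ' • (c • w) = 0 := by
      have := congrArg φ h1
      rw [map_add, map_add, hlin, hlin, hlin, hu, hv, hw, map_zero] at this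
      rw [smul_add, smul_comm μ a, smul_comm μ b, smul_comm μ' c]
      exact this
    have h3 : (μ - μ') • (a • u + b • v) = 0 := by
      have h4 : c • w = -(a • u + b • v) := eq_neg_of_add_eq_zero_right h1
      rw [h4, smul_neg] at h2
      rw [sub_smul, sub_eq_add_neg]
      exact h2
    have h4 : a • u + b • v = 0 := by
      rcases smul_eq_zero.mp h3 with h5 | h5
      · exact absurd h5 (sub_ne_zero.mpr hne)
      · exact h5
    have h5 : c = 0 := by
      rw [h4, zero_add] at h1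
      rcases h.bun.tf _ _ h1 with h6 | h6
      · exact h6
      · exact absurd h6 hw0
    refine ⟨a, -b, ?_, by rw [neg_smul]; exact eq_neg_of_add_eq_zero_left h4⟩
    rcases habc with h6 | h6 | h6
    · exact Or.inl h6
    · exact Or.inr (neg_ne_zero.mpr h6)
    · exact absurd h5 h6
  obtain ⟨e₁, _, h1⟩ := d2_cyclic h.cx h.bun (Ker μ₁) (hsat μ₁)
    (hdep μ₁ μ₂ hμ l hl0 hφl)
  obtain ⟨e₂, _, h2⟩ := d2_cyclic h.cx h.bun (Ker μ₂) (hsat μ₂)
    (hdep μ₂ μ₁ (Ne.symm hμ) e he0 he)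
  refine ⟨e₁, e₂, fun m => ?_⟩
  have h3 : φ m - μ₂ • m ∈ Ker μ₁ := by
    rw [hKer]
    have h4 := hL2 m
    rw [hT, map_sub, map_smul, smul_sub] at h4
    rw [map_sub, map_smul, smul_sub, smul_comm μ₁ μ₂ m]
    rw [sub_eq_iff_eq_add] at h4
    rw [h4, smul_comm μ₂ μ₁ m]
    abel
  have h4 : φ m - μ₁ • m ∈ Ker μ₂ := by
    rw [hKer, ← hT]
    exact hL2 m
  have h5 : m = (μ₁ - μ₂)⁻¹ • (φ m - μ₂ • m) - (μ₁ - μ₂)⁻¹ • (φ m - μ₁ • m) := by
    rw [← smul_sub, sub_sub_sub_cancel_left, ← sub_smul, smul_smul, inv_mul_cancel₀ hμ', one_smul]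
  obtain ⟨c₁, hc₁⟩ := h1 _ h3
  obtain ⟨c₂, hc₂⟩ := h2 _ h4
  refine ⟨algebraMap K S (μ₁ - μ₂)⁻¹ * c₁, -(algebraMap K S (μ₁ - μ₂)⁻¹ * c₂), ?_⟩
  rw [neg_smul, mul_smul, mul_smul, algebraMap_smul, algebraMap_smul, ← hc₁, ← hc₂,
    ← sub_eq_add_neg]
  exact h5

/-- The eigenvalue dichotomy. -/
lemma Sys.dichotomy [IsAlgClosed K] [Finite ι] {E D : Derivation K S S} {ε δ : M →ₗ[K] M}
    (h : Sys x E D ε δ) (hr : RS x j f x') [Nonempty ι']
    (hD : ∀ a, algebraMap S S' (D a) = 0) :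
    Gen2 S' (M →ₗ[S] S') ∨ ∃ μ : K, ∀ m, ∃ n,
      sh δ μ (sh δ μ m) = x j • n := by
  have : Finite ι' := Finite.of_injective f hr.inj
  obtain ⟨E', hE'⟩ := hr.exists_der h.cx E (by rw [h.eu, hr.xj])
  have hD0 : ∀ a, (0 : Derivation K S' S') (algebraMap S S' a) = algebraMap S S' (D a) := by
    intro a
    rw [hD a, Derivation.coe_zero, Pi.zero_apply]
  have h' := h.dual hr hE' hD0
  rcases d2_core h' with h1 | ⟨μ, hμ⟩
  · exact Or.inl h1
  · right
    refine ⟨-μ, fun m => h.bun.torsionless h.cx hr _ fun θ => ?_⟩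
    have hkey : ∀ (θ : M →ₗ[S] S') (m : M),
        θ (sh δ (-μ) m) = -(sh (dconn hD0 h.cD) μ θ m) := by
      intro θ m
      rw [sh_apply, sh_apply, LinearMap.sub_apply, dconn_apply, Derivation.coe_zero,
        Pi.zero_apply, LinearMap.smul_apply, map_sub, neg_smul, map_neg,
        LinearMap.map_smul_of_tower]
      ring
    rw [hkey, hkey, hμ θ, LinearMap.zero_apply, neg_zero, neg_zero]

end rowD2

end Pool.Agent.Lib.MP_745d3a_ag.PF

end

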