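import Pool.Agent.Lib.MP_745d3a_ag.PFNil

/-!
The cases of the main theorem; normal forms.
-/

set_option autoImplicit false
set_option linter.unusedSectionVars false
set_option linter.style.haveILetI false

section

set_option autoImplicit false

open MvPolynomial

namespace Pool.Agent.Lib.MP_745d3a_ag.PF

section rowP1

variable {K S S' ι ι' M : Type*} [Field K] [CommRing S] [Algebra K S] [CommRing S'] [Algebra K S']
  [Algebra S S'] [IsScalarTower K S S'] {x : ι → S} {j : ι} {f : ι' → ι} {x' : ι' → S'}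
  [AddCommGroup M] [Module K M] [Module S M] [IsScalarTower K S M]

omit [Algebra K S'] [IsScalarTower K S S'] in
/-- A derivation which vanishes modulo `x j` on the coordinates vanishes modulo `x j`. -/
lemma p1_map_der (hx : Coord K x) (D : Derivation K S S)
    (hD : ∀ i, algebraMap S S' (D (x i)) = 0) (a : S) : algebraMap S S' (D a) = 0 := by
  refine hx.induction (P := fun a => algebraMap S S' (D a) = 0) ?_ ?_ ?_ a
  · intro c
    rw [Derivation.map_algebraMap, map_zero]
  · intro a b ha hb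
    rw [map_add, map_add, ha, hb, add_zero]
  · intro a i ha
    rw [Derivation.leibniz, map_add, smul_eq_mul, smul_eq_mul, map_mul, map_mul, ha, hD i,
      mul_zero, mul_zero, add_zero]

/-- Three distinct elements. -/
lemma p1_three {α : Type*} [Fintype α] (h : 3 ≤ Fintype.card α) :
    ∃ a b c : α, a ≠ b ∧ a ≠ c ∧ b ≠ c := by
  classical
  have h2 : 2 < (Finset.univ : Finset α).card := by
    rw [Finset.card_univ]; omega
  obtain ⟨a, b, c, _, _, _, hab, hac, hbc⟩ := Finset.two_lt_card_iff.mp h2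
  exact ⟨a, b, c, hab, hac, hbc⟩

variable [CharZero K] [IsAlgClosed K]

/-- `D = β w ∂_w` in four variables. -/
theorem caseOne4 [Fintype ι] [Fintype ι'] (h4 : Fintype.card ι' = 3)
    {E D : Derivation K S S}
    {ε δ : M →ₗ[K] M} (h : Sys x E D ε δ) (hr : RS x j f x') (β : K)
    (hβ : β ≠ 0) (hD0 : D (x j) = β • x j) (hD : ∀ i, i ≠ j → D (x i) = 0) : Gen2 S M := by
  obtain ⟨i₁, i₂, i₃, h12, h13, h23⟩ := p1_three (α := ι') (by omega)
  have : Nonempty ι' := ⟨i₁⟩
  have hDa : ∀ a, algebraMap S S' (D a) = 0 := by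
    refine p1_map_der h.cx D ?_
    intro i
    by_cases hi : i = j
    · rw [hi, hD0, Algebra.smul_def, map_mul, hr.xj, mul_zero]
    · rw [hD i hi, map_zero]
  rcases h.dichotomy hr hDa with hN | ⟨μ, hμ⟩
  · exact horrocks h.cx h.bun hr h.eu h.cE h.dg h12 h13 h23 hN
  · exact logcone (h.shift μ) j β hβ hD0 hD hμ

/-- `D = x_j ∂_{i₀}`: the case `δ_N = 0`. -/
theorem caseZero [Fintype ι] {E D : Derivation K S S}
    {ε δ : M →ₗ[K] M} (h : Sys x E D ε δ) (hr : RS x j f x') [Nonempty ι'] (i₀ : ι) (hij : i₀ ≠ j)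
    (hD0 : D (x i₀) = x j) (hD : ∀ i, i ≠ i₀ → D (x i) = 0)
    (hz : ∀ (θ : M →ₗ[S] S') (m : M), θ (δ m) = 0) : Gen2 S M := by
  classical
  have := h.cx.isDomain
  have := h.bun.fin
  have hxj : x j ≠ 0 := (h.cx.prime_x j).ne_zero
  have hinj : ∀ m n : M, x j • m = x j • n → m = n := by
    intro m n hmn
    have h1 : x j • (m - n) = 0 := by rw [smul_sub, hmn, sub_self]
    rcases h.bun.tf _ _ h1 with h2 | h2
    · exact absurd h2 hxj
    · exact sub_eq_zero.mp h2
  choose g hg using fun m : M => h.bun.torsionless h.cx hr (δ m) (fun θ => hz θ m)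
  have hxK : ∀ (c : K) (m : M), x j • (c • m) = c • (x j • m) := fun c m => smul_comm _ _ _
  let δ' : M →ₗ[K] M :=
    { toFun := g
      map_add' := fun m n => hinj _ _ (by rw [smul_add, ← hg, ← hg, ← hg, map_add])
      map_smul' := fun c m => hinj _ _ (by
        rw [RingHom.id_apply, ← hg, map_smul, hxK, ← hg]) }
  have hδ' : ∀ m, δ m = x j • δ' m := hg
  let Δ : Derivation K S S := h.cx.der (fun i => if i = i₀ then 1 else 0)
  have hΔ0 : Δ (x i₀) = 1 := by
    show h.cx.der _ (x i₀) = 1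
    rw [h.cx.der_x, if_pos rfl]
  have hΔi : ∀ i, i ≠ i₀ → Δ (x i) = 0 := by
    intro i hi
    show h.cx.der _ (x i) = 0
    rw [h.cx.der_x, if_neg hi]
  have hDΔ : D = x j • Δ := by
    refine h.cx.der_ext fun i => ?_
    rw [Derivation.smul_apply]
    by_cases hi : i = i₀
    · rw [hi, hD0, hΔ0, smul_eq_mul, mul_one]
    · rw [hD i hi, hΔi i hi, smul_zero]
  have hconn : IsConn Δ δ' := by
    intro a m
    apply hinj
    rw [← hδ', h.cD, hDΔ, Derivation.smul_apply, hδ' m, smul_add, smul_assoc,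
      smul_comm (x j) a (δ' m)]
  have hdeg : ∀ m, ε (δ' m) = δ' (ε m) - δ' m := by
    intro m
    apply hinj
    have h1 : ε (δ m) = x j • δ' m + x j • ε (δ' m) := by
      rw [hδ' m, h.cE, h.eu j]
    have h2 : ε (δ m) = x j • δ' (ε m) := by
      rw [h.comm, hδ']
    rw [smul_sub, ← h2, h1, add_sub_cancel_left]
  have hloc : ∃ s, s ∉ Ideal.span (x '' {i₀}ᶜ) ∧ ∃ m : Fin 2 → M,
      ∀ v, s • v ∈ Submodule.span S (Set.range m) := by
    obtain ⟨s, hs, m₁, m₂, h1, _⟩ := h.bun.lf (Ideal.span (x '' {i₀}ᶜ))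
      (h.cx.isPrime_span _) ⟨i₀, fun hcon => by
        have := (h.cx.mem_span {i₀}ᶜ i₀).mp hcon
        exact this rfl⟩
    refine ⟨s, hs, ![m₁, m₂], fun v => ?_⟩
    obtain ⟨a, b, hab⟩ := h1 v
    rw [hab]
    exact Submodule.add_mem _ (Submodule.smul_mem _ _ (Submodule.subset_span ⟨0, rfl⟩))
      (Submodule.smul_mem _ _ (Submodule.subset_span ⟨1, rfl⟩))
  obtain ⟨l, _, _, hl⟩ := cone h.cx h.eu h.cE h.dg i₀ hΔ0 hΔi hconn hdeg 2 hloc
  refine ⟨l 0, l 1, fun m => ?_⟩
  have hm : m ∈ Submodule.span S (Set.range l) := by rw [hl]; exact Submodule.mem_top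
  obtain ⟨c, hc⟩ := (Submodule.mem_span_range_iff_exists_fun S).mp hm
  exact ⟨c 0, c 1, by rw [← hc, Fin.sum_univ_two]⟩

/-- `D = x_j ∂_{i₀}` in five variables. -/
theorem caseTwo5 [Fintype ι] [Fintype ι'] (h4 : Fintype.card ι' = 4)
    {E D : Derivation K S S}
    {ε δ : M →ₗ[K] M} (h : Sys x E D ε δ) (hr : RS x j f x') (i₀ : ι) (hij : i₀ ≠ j)
    (hD0 : D (x i₀) = x j) (hD : ∀ i, i ≠ i₀ → D (x i) = 0) : Gen2 S M := by
  classical
  obtain ⟨i₁, i₂, i₃, h12, h13, h23⟩ := p1_three (α := ι') (by omega)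
  have : Nonempty ι' := ⟨i₁⟩
  have := h.cx.isDomain
  have hDa : ∀ a, algebraMap S S' (D a) = 0 := by
    refine p1_map_der h.cx D ?_
    intro i
    by_cases hi : i = i₀
    · rw [hi, hD0, hr.xj]
    · rw [hD i hi, map_zero]
  rcases h.dichotomy hr hDa with hN | ⟨μ, hμ⟩
  · exact horrocks h.cx h.bun hr h.eu h.cE h.dg h12 h13 h23 hN
  · have h₁ := h.shift μ
    by_cases hz : ∀ (θ : M →ₗ[S] S') (m : M), θ (sh δ μ m) = 0
    · exact caseZero h₁ hr i₀ hij hD0 hD hz
    · push Not at hz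
      obtain ⟨θ₀, m₀, h0⟩ := hz
      obtain ⟨e, he, he0, hgen, hprim⟩ := exists_e h₁ hr hDa hμ θ₀ m₀ h0
      obtain ⟨i₀', hi₀'⟩ := hr.range i₀ hij
      obtain ⟨s, hs, g, hg, hgs, _⟩ := kerloc3 h.cx h.bun hr e he0 hprim
        (Ideal.span (x' '' {i₀'}ᶜ)) ((hr.coord h.cx).isPrime_span _) ⟨i₀', fun hcon => by
          have := ((hr.coord h.cx).mem_span {i₀'}ᶜ i₀').mp hcon
          exact this rfl⟩
      have hset : insert j (f '' {i₀'}ᶜ) = ({i₀}ᶜ : Set ι) := by
        ext i
        rw [Set.mem_insert_iff, Set.mem_image, Set.mem_compl_singleton_iff]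
        constructor
        · rintro (rfl | ⟨i', hi', rfl⟩)
          · exact fun hh => hij hh.symm
          · intro hh
            rw [← hi₀'] at hh
            exact hi' (hr.inj hh)
        · intro hi
          by_cases hj : i = j
          · exact Or.inl hj
          · obtain ⟨i', hi'⟩ := hr.range i hj
            refine Or.inr ⟨i', ?_, hi'⟩
            rintro rfl
            exact hi (by rw [← hi', hi₀'])
      rw [hr.comap_span, hset] at hs
      let Δ : Derivation K S S := h.cx.der (fun i => if i = i₀ then 1 else 0)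
      have hΔ0 : Δ (x i₀) = 1 := by
        show h.cx.der _ (x i₀) = 1
        rw [h.cx.der_x, if_pos rfl]
      have hΔi : ∀ i, i ≠ i₀ → Δ (x i) = 0 := by
        intro i hi
        show h.cx.der _ (x i) = 0
        rw [h.cx.der_x, if_neg hi]
      have hDΔ : D = x j • Δ := by
        refine h.cx.der_ext fun i => ?_
        rw [Derivation.smul_apply]
        by_cases hi : i = i₀
        · rw [hi, hD0, hΔ0, smul_eq_mul, mul_one]
        · rw [hD i hi, hΔi i hi, smul_zero]
      have hDΔ' : ∀ a, D a = x j * Δ a := by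
        intro a
        rw [hDΔ, Derivation.smul_apply, smul_eq_mul]
      obtain ⟨l, hle, _, hlgen⟩ := kercone h₁ hr i₀ hij hDΔ' hΔ0 hΔi hμ θ₀ m₀ h0 e he he0 hgen 3
        ⟨s, hs, g, hg, hgs⟩
      obtain ⟨u, hu⟩ := lemB h.cx h.bun hr h.eu h.cE h.dg e he0 hprim (r := 3) (by omega) l hle
        hlgen
      have hcard : 3 < Fintype.card ι := by
        have := Fintype.card_le_of_injective f hr.inj
        omega
      exact h.bun.three h.cx hcard h.eu h.cE h.dg u hu

/-- `D = β w ∂_w` modulo `x₄`, in five variables. -/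
theorem caseOne5 {x : Fin 5 → S} {S₁ Sb : Type*} [CommRing S₁] [Algebra K S₁]
    [Algebra S S₁]
    [IsScalarTower K S S₁] [CommRing Sb] [Algebra K Sb] [Algebra S₁ Sb] [IsScalarTower K S₁ Sb]
    {y : Fin 4 → S₁} {z : Fin 3 → Sb} (hr : RS x 4 (Fin.succAbove 4) y)
    (hrb : RS y 0 (Fin.succAbove 0) z) {E D : Derivation K S S} {ε δ : M →ₗ[K] M}
    (h : Sys x E D ε δ) (β β' : K) (c : Fin 4 → K) (hβ : β ≠ 0) (hD4 : D (x 4) = β' • x 4)
    (hD0 : D (x 0) = β • x 0 + c 0 • x 4) (hD1 : D (x 1) = c 1 • x 4)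
    (hD2 : D (x 2) = c 2 • x 4) (hD3 : D (x 3) = c 3 • x 4) : Gen2 S M := by
  have hKS : ∀ (b : K) (a : S), algebraMap S S₁ (b • a) = b • algebraMap S S₁ a := by
    intro b a
    rw [Algebra.smul_def, map_mul, ← IsScalarTower.algebraMap_apply, ← Algebra.smul_def]
  obtain ⟨E', hE'⟩ := hr.exists_der h.cx E (by rw [h.eu, hr.xj])
  obtain ⟨D', hD'⟩ := hr.exists_der h.cx D (by rw [hD4, hKS, hr.xj, smul_zero])
  have h₁ := h.dual hr hE' hD'
  have e0 : Fin.succAbove (4 : Fin 5) 0 = 0 := by decide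
  have e1 : Fin.succAbove (4 : Fin 5) 1 = 1 := by decide
  have e2 : Fin.succAbove (4 : Fin 5) 2 = 2 := by decide
  have e3 : Fin.succAbove (4 : Fin 5) 3 = 3 := by decide
  have hy0 : D' (y 0) = β • y 0 := by
    rw [← hr.map 0, hD', e0, hD0, map_add, hKS, hKS, hr.xj, smul_zero, add_zero]
  have hyi : ∀ i, i ≠ 0 → D' (y i) = 0 := by
    intro i hi
    rw [← hr.map i, hD']
    fin_cases i
    · exact absurd rfl hi
    · show algebraMap S S₁ (D (x (Fin.succAbove 4 1))) = 0
      rw [e1, hD1, hKS, hr.xj, smul_zero]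
    · show algebraMap S S₁ (D (x (Fin.succAbove 4 2))) = 0
      rw [e2, hD2, hKS, hr.xj, smul_zero]
    · show algebraMap S S₁ (D (x (Fin.succAbove 4 3))) = 0
      rw [e3, hD3, hKS, hr.xj, smul_zero]
  have hN : Gen2 S₁ (M →ₗ[S] S₁) := caseOne4 (by simp) h₁ hrb β hβ hy0 hyi
  exact horrocks h.cx h.bun hr h.eu h.cE h.dg (i₁ := 0) (i₂ := 1) (i₃ := 2) (by decide)
    (by decide) (by decide) hN

end rowP1

end Pool.Agent.Lib.MP_745d3a_ag.PF

end

section

set_option autoImplicit false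

open MvPolynomial

namespace Pool.Agent.Lib.MP_745d3a_ag.PF

section rowP2a

variable {K S S' ι ι' M : Type*} [Field K] [CommRing S] [Algebra K S] [CommRing S'] [Algebra K S']
  [Algebra S S'] [IsScalarTower K S S'] {x : ι → S} {j : ι} {f : ι' → ι} {x' : ι' → S'}
  [AddCommGroup M] [Module S M]

omit [Algebra K S] [Algebra K S'] [IsScalarTower K S S'] [Field K] in
lemma p2_compl (hr : RS x j f x') (s : Set ι') : insert j (f '' sᶜ) = (f '' s)ᶜ := by
  ext i
  simp only [Set.mem_insert_iff, Set.mem_image, Set.mem_compl_iff, not_exists, not_and]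
  constructor
  · rintro (rfl | ⟨i', hi', rfl⟩) k hk
    · exact hr.ne k
    · intro h
      exact hi' (hr.inj h ▸ hk)
  · intro h
    by_cases hij : i = j
    · exact Or.inl hij
    · obtain ⟨i', rfl⟩ := hr.range i hij
      exact Or.inr ⟨i', fun hi' => h i' hi' rfl, rfl⟩

lemma p2_der (hx : Coord K x) {D : Derivation K S S} (j i₀ : ι) (hD0 : D (x i₀) = x j)
    (hD : ∀ i, i ≠ i₀ → D (x i) = 0) :
    ∃ Δ : Derivation K S S, (∀ a, D a = x j * Δ a) ∧ Δ (x i₀) = 1 ∧
      ∀ i, i ≠ i₀ → Δ (x i) = 0 := by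
  classical
  set Δ : Derivation K S S := hx.der (fun i => if i = i₀ then 1 else 0) with hΔ
  have h1 : ∀ i, Δ (x i) = if i = i₀ then 1 else 0 := fun i => hx.der_x _ i
  refine ⟨Δ, ?_, by rw [h1, if_pos rfl], fun i hi => by rw [h1, if_neg hi]⟩
  have h2 : D = x j • Δ := by
    refine hx.der_ext fun i => ?_
    rw [Derivation.smul_apply, h1, smul_eq_mul]
    by_cases hi : i = i₀
    · rw [if_pos hi, hi, hD0, mul_one]
    · rw [if_neg hi, hD i hi, mul_zero]
  intro a
  rw [h2, Derivation.smul_apply, smul_eq_mul]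

omit [Algebra K S] [Field K] [CommRing S'] [Algebra K S'] [Algebra S S'] [IsScalarTower K S S'] in
lemma p2_smul_mem (l : Fin 3 → M) (r : Fin 3 → S) (hr : ∑ k, r k • l k = 0) (k0 : Fin 3) (v : M)
    (hv : v ∈ Submodule.span S (Set.range l)) :
    r k0 • v ∈ Submodule.span S (Set.range (l ∘ k0.succAbove)) := by
  have h0 : ∀ k, r k0 • l k ∈ Submodule.span S (Set.range (l ∘ k0.succAbove)) := by
    intro k
    by_cases hk : k = k0
    · subst hk
      rw [Fin.sum_univ_succAbove _ k] at hr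
      rw [eq_neg_of_add_eq_zero_left hr]
      exact Submodule.neg_mem _ (Submodule.sum_mem _ fun i _ =>
        Submodule.smul_mem _ _ (Submodule.subset_span ⟨i, rfl⟩))
    · obtain ⟨i, rfl⟩ := Fin.exists_succAbove_eq hk
      exact Submodule.smul_mem _ _ (Submodule.subset_span ⟨i, rfl⟩)
  induction hv using Submodule.span_induction with
  | mem v hv => obtain ⟨k, rfl⟩ := hv; exact h0 k
  | zero => rw [smul_zero]; exact Submodule.zero_mem _
  | add u v _ _ hu hv => rw [smul_add]; exact Submodule.add_mem _ hu hv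
  | smul a u _ hu => rw [smul_comm]; exact Submodule.smul_mem _ _ hu

omit [Algebra K S] [IsScalarTower K S S'] in
/-- A primitive functional is not divisible by a coordinate. -/
lemma p2_prim (hx' : Coord K x') (e : M →ₗ[S] S')
    (hprim : ∀ (c : S') (θ : M →ₗ[S] S'), e = c • θ → IsUnit c) (i : ι') :
    ∃ m, e m ∉ Ideal.span (x' '' {i}) := by
  by_contra hcon
  push Not at hcon
  have := hx'.isDomain
  have hp := hx'.prime_x i
  rw [Set.image_singleton] at hcon
  have h1 : ∀ m, ∃ b, e m = x' i * b := fun m => Ideal.mem_span_singleton.mp (hcon m)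
  choose θ hθ using h1
  let θ' : M →ₗ[S] S' :=
    { toFun := θ
      map_add' := fun m n => by
        apply mul_left_cancel₀ hp.ne_zero
        rw [← hθ, map_add, hθ, hθ, mul_add]
      map_smul' := fun a m => by
        apply mul_left_cancel₀ hp.ne_zero
        rw [← hθ, map_smul, hθ, RingHom.id_apply, Algebra.mul_smul_comm] }
  refine hp.not_isUnit (hprim (x' i) θ' ?_)
  ext m
  exact hθ m

end rowP2a

section rowP2

variable {K S S' ι ι' M : Type*} [Field K] [CommRing S] [Algebra K S] [CommRing S'] [Algebra K S']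
  [Algebra S S'] [IsScalarTower K S S'] {x : ι → S} {j : ι} {f : ι' → ι} {x' : ι' → S'}
  [AddCommGroup M] [Module K M] [Module S M] [IsScalarTower K S M] [CharZero K] [IsAlgClosed K]

lemma p2_aux [Fintype ι] [Fintype ι'] (h3 : Fintype.card ι' = 3) {E D : Derivation K S S}
    {ε δ : M →ₗ[K] M} (h : Sys x E D ε δ) (hr : RS x j f x') (i₀' : ι')
    (hD0 : D (x (f i₀')) = x j) (hD : ∀ i, i ≠ f i₀' → D (x i) = 0)
    (hnil : ∀ m, ∃ n, δ (δ m) = x j • n) : Gen2 S M ∨
    ∃ e : M →ₗ[S] S',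
      (∀ m, e (δ m) = 0) ∧ e ≠ 0 ∧
      (∀ θ : M →ₗ[S] S', (∀ m, θ (δ m) = 0) → ∃ c : S', θ = c • e) ∧
      (∀ m, e m ∈ Ideal.span (x' '' {i₀'}ᶜ)) ∧
      ∀ i₁' : ι', i₁' ≠ i₀' → ∃ m, e m ∉ Ideal.span (x' '' {i₁'}ᶜ) := by
  classical
  have hne : Nonempty ι' := ⟨i₀'⟩
  have hx := h.cx
  have hx' := hr.coord hx
  have hdom := hx.isDomain
  have hufm := hx.ufm
  have hnoe := hx.noeth
  by_cases hz : ∀ (θ : M →ₗ[S] S') (m : M), θ (δ m) = 0
  · exact Or.inl (caseZero h hr (f i₀') (hr.ne i₀') hD0 hD hz)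
  push Not at hz
  obtain ⟨θ₀, m₀, h0⟩ := hz
  obtain ⟨Δ, hΔ, hΔ0, hΔi⟩ := p2_der hx j (f i₀') hD0 hD
  have hDS : ∀ a, algebraMap S S' (D a) = 0 := by
    intro a
    rw [hΔ, map_mul, hr.xj, zero_mul]
  obtain ⟨e, he, he0, hgen, hprim⟩ := exists_e h hr hDS hnil θ₀ m₀ h0
  -- the prime ideals
  have hspan : ∀ (s : Set ι') (a : S), algebraMap S S' a ∈ Ideal.span (x' '' sᶜ) ↔
      a ∈ Ideal.span (x '' (f '' s)ᶜ) := by
    intro s a
    rw [hr.comap_span, p2_compl hr]
  have hspan1 : ∀ (i : ι') (a : S), algebraMap S S' a ∈ Ideal.span (x' '' {i}ᶜ) ↔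
      a ∈ Ideal.span (x '' {f i}ᶜ) := by
    intro i a
    rw [hspan, Set.image_singleton]
  have hp1 : ∀ i : ι', (Ideal.span (x' '' {i}ᶜ)).IsPrime := fun i => hx'.isPrime_span _
  have hP1 : ∀ i : ι, (Ideal.span (x '' {i}ᶜ)).IsPrime := fun i => hx.isPrime_span _
  have hmiss : ∀ i : ι', ∃ k, x' k ∉ Ideal.span (x' '' {i}ᶜ) := fun i =>
    ⟨i, by rw [hx'.mem_span]; simp⟩
  by_cases h4 : ∀ m, e m ∈ Ideal.span (x' '' {i₀'}ᶜ)
  swap
  · left
    push Not at h4
    obtain ⟨s, hs, g, hg, hgs⟩ := kerloc2 hx h.bun hr e he0 hprim _ (hp1 i₀') (hmiss i₀') h4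
    rw [hspan1] at hs
    obtain ⟨l, hl, _, hlg⟩ := kercone h hr (f i₀') (hr.ne i₀') hΔ hΔ0 hΔi hnil θ₀ m₀ h0 e he he0
      hgen 2 ⟨s, hs, g, hg, hgs⟩
    obtain ⟨u, hu⟩ := lemB hx h.bun hr h.eu h.cE h.dg e he0 hprim (r := 2) (by omega) l hl hlg
    refine ⟨u 0, u 1, fun m => ?_⟩
    have hm : m ∈ Submodule.span S (Set.range u) := by rw [hu]; trivial
    obtain ⟨a, ha⟩ := (Submodule.mem_span_range_iff_exists_fun S).mp hm
    exact ⟨a 0, a 1, by rw [← ha, Fin.sum_univ_two]⟩
  · right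
    refine ⟨e, he, he0, hgen, h4, ?_⟩
    intro i₁' hi₁
    by_contra hcon
    push Not at hcon
    -- generators of the kernel
    obtain ⟨s, hs, g, hg, hgs, _⟩ := kerloc3 hx h.bun hr e he0 hprim _ (hp1 i₀') (hmiss i₀')
    rw [hspan1] at hs
    obtain ⟨l, hl, hδl, hlg⟩ := kercone h hr (f i₀') (hr.ne i₀') hΔ hΔ0 hΔi hnil θ₀ m₀ h0 e he he0
      hgen 3 ⟨s, hs, g, hg, hgs⟩
    -- two independent elements
    obtain ⟨_, _, m₁, m₂, _, _, _, _, _, _, _, hind⟩ := h.bun.local hx _ (hP1 (f i₀'))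
      ⟨f i₀', by rw [hx.mem_span]; simp⟩
    have hxj : x j ≠ 0 := (hx.prime_x j).ne_zero
    have hker : ∀ m, x j • m ∈ Submodule.span S (Set.range l) := by
      intro m
      refine hlg _ ?_
      rw [map_smul, Algebra.smul_def, hr.xj, zero_mul]
    obtain ⟨r, hr0, hrel⟩ := relations h.bun.tf l (x j • m₁) (x j • m₂) (by
      intro a b hab
      rw [smul_smul, smul_smul] at hab
      obtain ⟨h1, h2⟩ := hind _ _ hab
      exact ⟨(mul_eq_zero.mp h1).resolve_right hxj, (mul_eq_zero.mp h2).resolve_right hxj⟩)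
      (hker m₁) (hker m₂)
    -- the coefficients are eigenvectors of Δ
    obtain ⟨c, hc⟩ : ∃ c : S, ∀ k, Δ (r k) = c * r k := by
      refine hrel (fun k => Δ (r k)) ?_
      have h1 : δ (∑ k, r k • l k) = x j • ∑ k, Δ (r k) • l k := by
        rw [map_sum, Finset.smul_sum]
        refine Finset.sum_congr rfl fun k _ => ?_
        rw [h.cD, hδl, smul_zero, add_zero, hΔ, mul_smul]
      rw [hr0, map_zero] at h1
      exact (h.bun.tf _ _ h1.symm).resolve_left hxj
    have hiter : ∀ (n : ℕ) (k : Fin 3), ∃ b : S, (Δ^[n]) (r k) = b * r k := by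
      intro n
      induction n with
      | zero => intro k; exact ⟨1, by simp⟩
      | succ n ih =>
        intro k
        obtain ⟨b, hb⟩ := ih k
        refine ⟨b * c + Δ b, ?_⟩
        rw [Function.iterate_succ_apply', hb, Derivation.leibniz, hc, smul_eq_mul, smul_eq_mul]
        ring
    -- all coefficients lie in P1
    have hrP1 : ∀ k, r k ∈ Ideal.span (x '' {f i₁'}ᶜ) := by
      by_contra hk0
      push Not at hk0
      obtain ⟨k0, hk0⟩ := hk0
      obtain ⟨s', hs', g', hg', hgs', hrel'⟩ :=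
        kerloc3 hx h.bun hr e he0 hprim _ (hp1 i₁') (hmiss i₁')
      rw [hspan1] at hs'
      obtain ⟨ρ, hρ, k, hk⟩ := det_trick _ (hP1 (f i₁')) g' (l ∘ k0.succAbove) (r k0) s' hk0 hs'
        (fun k => p2_smul_mem l r hr0 k0 _ (hlg _ (hg' k)))
        (fun k => hgs' _ (hl _))
      refine hk ?_
      rw [← hspan1]
      exact hrel' ρ hρ hcon k
    -- all coefficients lie in P2
    have hins : insert (f i₀') (f '' {i₀', i₁'})ᶜ = ({f i₁'} : Set ι)ᶜ := by
      ext i
      simp only [Set.mem_insert_iff, Set.mem_compl_iff, Set.image_insert_eq, Set.image_singleton,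
        Set.mem_singleton_iff, not_or]
      constructor
      · rintro (rfl | ⟨_, h2⟩)
        · exact fun h5 => hi₁ (hr.inj h5).symm
        · exact h2
      · intro h5
        by_cases h6 : i = f i₀'
        · exact Or.inl h6
        · exact Or.inr ⟨h6, h5⟩
    have hrP2 : ∀ k, r k ∈ Ideal.span (x '' (f '' {i₀', i₁'})ᶜ) := by
      intro k
      refine hx.taylor (f i₀') _ (by simp) Δ hΔ0 hΔi (r k) fun n => ?_
      obtain ⟨b, hb⟩ := hiter n k
      rw [hb, hins]
      exact Ideal.mul_mem_left _ _ (hrP1 k)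
    -- the third coordinate
    obtain ⟨i4, hi4⟩ : ∃ i4 : ι', ({i₀', i₁'} : Set ι')ᶜ = {i4} := by
      have h5 : (({i₀', i₁'} : Finset ι')ᶜ).card = 1 := by
        rw [Finset.card_compl, h3, Finset.card_pair hi₁.symm]
      obtain ⟨i4, h6⟩ := Finset.card_eq_one.mp h5
      refine ⟨i4, ?_⟩
      have h7 := congrArg (fun t : Finset ι' => (t : Set ι')) h6
      simp only [Finset.coe_compl, Finset.coe_insert, Finset.coe_singleton] at h7
      exact h7
    have hp2 : (Ideal.span (x' '' ({i₀', i₁'} : Set ι')ᶜ)).IsPrime := hx'.isPrime_span _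
    have hP2 : (Ideal.span (x '' (f '' {i₀', i₁'})ᶜ)).IsPrime := hx.isPrime_span _
    have hnot : ∃ m, e m ∉ Ideal.span (x' '' ({i₀', i₁'} : Set ι')ᶜ) := by
      rw [hi4]
      exact p2_prim hx' e hprim i4
    obtain ⟨s2, hs2, g2, hg2, hgs2⟩ := kerloc2 hx h.bun hr e he0 hprim _ hp2
      ⟨i₀', by rw [hx'.mem_span]; simp⟩ hnot
    rw [hspan] at hs2
    obtain ⟨ρ, hρ, k, hk⟩ := det_trick _ hP2 l g2 s2 1 hs2
      (fun h1 => hP2.ne_top (Ideal.eq_top_iff_one _ |>.mpr h1))
      (fun k => hgs2 _ (hl k)) (fun k => by rw [one_smul]; exact hlg _ (hg2 k))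
    obtain ⟨c', hc'⟩ := hrel ρ hρ
    refine hk ?_
    rw [hc']
    exact Ideal.mul_mem_left _ _ (hrP2 k)

/-- `D = x_j ∂_{i₀}` in four variables. -/
theorem caseTwo4 [Fintype ι] [Fintype ι'] (h3 : Fintype.card ι' = 3) {E D : Derivation K S S}
    {ε δ : M →ₗ[K] M} (h : Sys x E D ε δ) (hr : RS x j f x') (i₀' : ι')
    (hD0 : D (x (f i₀')) = x j) (hD : ∀ i, i ≠ f i₀' → D (x i) = 0) : Gen2 S M ∨
    ∃ (μ : K) (e : M →ₗ[S] S'),
      (∀ m, ∃ n, sh δ μ (sh δ μ m) = x j • n) ∧
      (∀ m, e (sh δ μ m) = 0) ∧ e ≠ 0 ∧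
      (∀ θ : M →ₗ[S] S', (∀ m, θ (sh δ μ m) = 0) → ∃ c : S', θ = c • e) ∧
      (∀ m, e m ∈ Ideal.span (x' '' {i₀'}ᶜ)) ∧
      ∀ i₁' : ι', i₁' ≠ i₀' → ∃ m, e m ∉ Ideal.span (x' '' {i₁'}ᶜ) := by
  classical
  have hne : Nonempty ι' := ⟨i₀'⟩
  have hx := h.cx
  obtain ⟨Δ, hΔ, _, _⟩ := p2_der hx j (f i₀') hD0 hD
  have hDS : ∀ a, algebraMap S S' (D a) = 0 := by
    intro a
    rw [hΔ, map_mul, hr.xj, zero_mul]
  rcases h.dichotomy hr hDS with h1 | ⟨μ, hμ⟩
  · left
    obtain ⟨i₁, i₂, i₃, h12, h13, h23, _⟩ := Finset.card_eq_three.mp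
      (show (Finset.univ : Finset ι').card = 3 by rw [Finset.card_univ, h3])
    exact horrocks hx h.bun hr h.eu h.cE h.dg h12 h13 h23 h1
  · rcases p2_aux h3 (h.shift μ) hr i₀' hD0 hD hμ with h1 | ⟨e, h1⟩
    · exact Or.inl h1
    · exact Or.inr ⟨μ, e, hμ, h1⟩

end rowP2

end Pool.Agent.Lib.MP_745d3a_ag.PF

end

section

set_option autoImplicit false

open MvPolynomial

namespace Pool.Agent.Lib.MP_745d3a_ag.PF

section rowQ

/-- Functionals which vanish modulo a coordinate are divisible by it. -/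
lemma Q_div {K S S₂ Sb ι ι' M : Type*} [Field K] [CommRing S] [CommRing S₂] [Algebra K S₂]
    [Algebra S S₂] [CommRing Sb] [Algebra S₂ Sb] [AddCommGroup M] [Module S M]
    {y : ι → S₂} {j : ι} {f : ι' → ι} {z : ι' → Sb} (hr : RS y j f z) (hy : Coord K y)
    (η : M →ₗ[S] S₂) (h : ∀ m, algebraMap S₂ Sb (η m) = 0) :
    ∃ n : M →ₗ[S] S₂, η = y j • n := by
  have := hy.isDomain
  have hy0 : y j ≠ 0 := (hy.prime_x j).ne_zero
  choose g hg using fun m => hr.ker _ (h m)
  refine ⟨{ toFun := g, map_add' := ?_, map_smul' := ?_ }, ?_⟩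
  · intro m n
    apply mul_left_cancel₀ hy0
    rw [mul_add, ← hg, ← hg, ← hg, map_add]
  · intro a m
    apply mul_left_cancel₀ hy0
    rw [RingHom.id_apply, mul_smul_comm, ← hg, ← hg, map_smul]
  · ext m
    exact hg m

variable {K S S₁ S₂ Sb M : Type*} [Field K] [CharZero K] [IsAlgClosed K] [CommRing S] [Algebra K S]
  [CommRing S₁] [Algebra K S₁] [Algebra S S₁] [IsScalarTower K S S₁]
  [CommRing S₂] [Algebra K S₂] [Algebra S S₂] [IsScalarTower K S S₂]
  [CommRing Sb] [Algebra K Sb] [Algebra S Sb] [IsScalarTower K S Sb]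
  [Algebra S₁ Sb] [IsScalarTower K S₁ Sb] [IsScalarTower S S₁ Sb]
  [Algebra S₂ Sb] [IsScalarTower K S₂ Sb] [IsScalarTower S S₂ Sb]
  [AddCommGroup M] [Module K M] [Module S M] [IsScalarTower K S M]

/-- `D = x₂ ∂₀ + x₃ ∂₁` in five variables; `S₁ = S/x₃`, `S₂ = S/x₂`, `Sb = S/(x₂, x₃)`. -/
theorem caseTwoTwo {x : Fin 5 → S} {y₁ : Fin 4 → S₁} {y₂ : Fin 4 → S₂}
    {z : Fin 3 → Sb}
    (hr₁ : RS x 3 (Fin.succAbove 3) y₁) (hr₂ : RS x 2 (Fin.succAbove 2) y₂)
    (hrb₁ : RS y₁ 2 (Fin.succAbove 2) z) (hrb₂ : RS y₂ 2 (Fin.succAbove 2) z)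
    {E D : Derivation K S S} {ε δ : M →ₗ[K] M} (h : Sys x E D ε δ)
    (hD0 : D (x 0) = x 2) (hD1 : D (x 1) = x 3) (hD2 : D (x 2) = 0) (hD3 : D (x 3) = 0)
    (hD4 : D (x 4) = 0) : Gen2 S M := by
  have hx := h.cx
  have hy₁ : Coord K y₁ := hr₁.coord hx
  have hy₂ : Coord K y₂ := hr₂.coord hx
  have hz : Coord K z := hrb₁.coord hy₁
  have := hz.isDomain
  obtain ⟨E₁, hE₁⟩ := hr₁.exists_der hx E (by rw [h.eu 3, hr₁.xj])
  obtain ⟨E₂, hE₂⟩ := hr₂.exists_der hx E (by rw [h.eu 2, hr₂.xj])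
  obtain ⟨D₁, hD₁⟩ := hr₁.exists_der hx D (by rw [hD3, map_zero])
  obtain ⟨D₂, hD₂⟩ := hr₂.exists_der hx D (by rw [hD2, map_zero])
  have h₁ := h.dual hr₁ hE₁ hD₁
  have h₂ := h.dual hr₂ hE₂ hD₂
  have v10 : y₁ 0 = algebraMap S S₁ (x 0) := (hr₁.map 0).symm
  have v11 : y₁ 1 = algebraMap S S₁ (x 1) := (hr₁.map 1).symm
  have v12 : y₁ 2 = algebraMap S S₁ (x 2) := (hr₁.map 2).symm
  have v13 : y₁ 3 = algebraMap S S₁ (x 4) := (hr₁.map 3).symm
  have v20 : y₂ 0 = algebraMap S S₂ (x 0) := (hr₂.map 0).symm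
  have v21 : y₂ 1 = algebraMap S S₂ (x 1) := (hr₂.map 1).symm
  have v22 : y₂ 2 = algebraMap S S₂ (x 3) := (hr₂.map 2).symm
  have v23 : y₂ 3 = algebraMap S S₂ (x 4) := (hr₂.map 3).symm
  have w0 : algebraMap S Sb (x 0) = z 0 := by
    rw [IsScalarTower.algebraMap_apply S S₁ Sb, ← v10]; exact hrb₁.map 0
  have w1 : algebraMap S Sb (x 1) = z 1 := by
    rw [IsScalarTower.algebraMap_apply S S₁ Sb, ← v11]; exact hrb₁.map 1
  have dec1 := caseTwo4 (by simp) h₁ hrb₁ (0 : Fin 3)
    (by
      show D₁ (y₁ 0) = y₁ 2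
      rw [v10, hD₁, hD0, v12])
    (by
      intro i hi
      fin_cases i
      · exact absurd rfl hi
      · show D₁ (y₁ 1) = 0
        rw [v11, hD₁, hD1, hr₁.xj]
      · show D₁ (y₁ 2) = 0
        rw [v12, hD₁, hD2, map_zero]
      · show D₁ (y₁ 3) = 0
        rw [v13, hD₁, hD4, map_zero])
  have dec2 := caseTwo4 (by simp) h₂ hrb₂ (1 : Fin 3)
    (by
      show D₂ (y₂ 1) = y₂ 2
      rw [v21, hD₂, hD1, v22])
    (by
      intro i hi
      fin_cases i
      · show D₂ (y₂ 0) = 0
        rw [v20, hD₂, hD0, hr₂.xj]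
      · exact absurd rfl hi
      · show D₂ (y₂ 2) = 0
        rw [v22, hD₂, hD3, map_zero]
      · show D₂ (y₂ 3) = 0
        rw [v23, hD₂, hD4, map_zero])
  rcases dec1 with g1 | ⟨μ₁, e₁, p1, p2, p3, p4, p5, -⟩
  · exact horrocks hx h.bun hr₁ h.eu h.cE h.dg (i₁ := 0) (i₂ := 1) (i₃ := 2) (by decide)
      (by decide) (by decide) g1
  rcases dec2 with g2 | ⟨μ₂, e₂, q1, q2, q3, -, -, q6⟩
  · exact horrocks hx h.bun hr₂ h.eu h.cE h.dg (i₁ := 0) (i₂ := 1) (i₃ := 2) (by decide)
      (by decide) (by decide) g2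
  exfalso
  obtain ⟨η₀, hη₀⟩ := q6 0 (by decide)
  set q : Ideal Sb := Ideal.span (z '' {0}ᶜ) with hq
  have hqp : q.IsPrime := hz.isPrime_span _
  have hz0 : z 0 ∉ q := by
    rw [hq, hz.mem_span]
    simp
  have hz0' : z 0 ≠ 0 := (hz.prime_x 0).ne_zero
  -- the correspondence
  let R : ℕ → (M →ₗ[S] S₁) → (M →ₗ[S] S₂) → Prop := fun k θ η =>
    ∀ m, algebraMap S₂ Sb (η m) = z 0 ^ k * algebraMap S₁ Sb (θ m)
  have hRdef : ∀ k θ η, R k θ η ↔ ∀ m, algebraMap S₂ Sb (η m) = z 0 ^ k * algebraMap S₁ Sb (θ m) :=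
    fun _ _ _ => Iff.rfl
  -- `e₂` kills functionals vanishing on `Sb`
  have hkill : ∀ η : M →ₗ[S] S₂, (∀ m, algebraMap S₂ Sb (η m) = 0) → e₂ η = 0 := by
    intro η hη
    obtain ⟨n, rfl⟩ := Q_div hrb₂ hy₂ η hη
    rw [map_smul, Algebra.smul_def, hrb₂.xj, zero_mul]
  have hred : ∀ θ : M →ₗ[S] S₁, ∃ θb : M →ₗ[S] Sb, ∀ m, θb m = algebraMap S₁ Sb (θ m) := by
    intro θ
    refine ⟨{ toFun := fun m => algebraMap S₁ Sb (θ m), map_add' := ?_, map_smul' := ?_ }, ?_⟩
    · intro m n; simp only [map_add]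
    · intro a m
      simp only [map_smul, RingHom.id_apply]
      rw [Algebra.smul_def, map_mul, ← IsScalarTower.algebraMap_apply, ← Algebra.smul_def]
    · intro m; rfl
  have hlift : ∀ (i : Fin 5) (θ : M →ₗ[S] S₁), ∃ (k : ℕ) (η : M →ₗ[S] S₂),
      ∀ m, algebraMap S₂ Sb (η m) = algebraMap S Sb (x i) ^ k * algebraMap S₁ Sb (θ m) := by
    intro i θ
    obtain ⟨θb, hθb⟩ := hred θ
    obtain ⟨k, η, hη⟩ := Bun.cofinite (S₁ := S₂) hx h.bun hrb₂.surj i θb
    refine ⟨k, η, fun m => ?_⟩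
    rw [hη, hθb, map_pow]
  have hex : ∀ θ : M →ₗ[S] S₁, ∃ c : Sb, ∀ k η, R k θ η → e₂ η = z 0 ^ k * c := by
    intro θ
    obtain ⟨k, η, hη⟩ := hlift 0 θ
    obtain ⟨l, η', hη'⟩ := hlift 1 θ
    simp only [w0] at hη
    simp only [w1] at hη'
    have hcomm : ∀ (η : M →ₗ[S] S₂) (m : M), algebraMap S₂ Sb (η m) = algebraMap S₂ Sb (η m) :=
      fun _ _ => rfl
    -- general comparison
    have hcmp : ∀ (a b : S) (ζ ζ' : M →ₗ[S] S₂),
        (∀ m, algebraMap S Sb a * algebraMap S₂ Sb (ζ m) =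
          algebraMap S Sb b * algebraMap S₂ Sb (ζ' m)) →
        algebraMap S Sb a * e₂ ζ = algebraMap S Sb b * e₂ ζ' := by
      intro a b ζ ζ' hh
      have h1 := hkill (algebraMap S S₂ a • ζ - algebraMap S S₂ b • ζ') (by
        intro m
        rw [LinearMap.sub_apply, LinearMap.smul_apply, LinearMap.smul_apply, smul_eq_mul,
          smul_eq_mul, map_sub, map_mul, map_mul, ← IsScalarTower.algebraMap_apply,
          ← IsScalarTower.algebraMap_apply, hh m, sub_self])
      rw [map_sub, map_smul, map_smul, Algebra.smul_def, Algebra.smul_def,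
        ← IsScalarTower.algebraMap_apply, ← IsScalarTower.algebraMap_apply, sub_eq_zero] at h1
      exact h1
    have h1 : z 1 ^ l * e₂ η = z 0 ^ k * e₂ η' := by
      have := hcmp (x 1 ^ l) (x 0 ^ k) η η' (by
        intro m
        rw [map_pow, map_pow, w0, w1, hη, hη']
        ring)
      rwa [map_pow, map_pow, w0, w1] at this
    have h2 : z 0 ^ k ∣ e₂ η := by
      have h3 : IsRelPrime (z 0 ^ k) (z 1 ^ l) := hz.relPrime_pow (by decide) k l
      have := hz.ufm
      exact h3.dvd_of_dvd_mul_left ⟨_, h1⟩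
    obtain ⟨c, hc⟩ := h2
    refine ⟨c, fun k' ζ hζ => ?_⟩
    have h4 : z 0 ^ k' * e₂ η = z 0 ^ k * e₂ ζ := by
      have := hcmp (x 0 ^ k') (x 0 ^ k) η ζ (by
        intro m
        rw [map_pow, map_pow, w0, hη, (hRdef _ _ _).1 hζ m]
        ring)
      rwa [map_pow, map_pow, w0] at this
    apply mul_left_cancel₀ (pow_ne_zero k hz0')
    rw [← h4, hc]
    ring
  choose e' he' using hex
  have hRex : ∀ θ : M →ₗ[S] S₁, ∃ k η, R k θ η := by
    intro θ
    obtain ⟨k, η, hη⟩ := hlift 0 θ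
    refine ⟨k, η, ?_⟩
    simpa only [w0] using hη
  have huniq : ∀ (θ : M →ₗ[S] S₁) (c : Sb) (k : ℕ) (η : M →ₗ[S] S₂), R k θ η →
      e₂ η = z 0 ^ k * c → e' θ = c := by
    intro θ c k η hR hc
    apply mul_left_cancel₀ (pow_ne_zero k hz0')
    rw [← he' θ k η hR, hc]
  -- `e'` is linear
  let eL : (M →ₗ[S] S₁) →ₗ[S₁] Sb :=
    { toFun := e'
      map_add' := by
        intro θ θ'
        obtain ⟨k, η, hη⟩ := hRex θ
        obtain ⟨l, η', hη'⟩ := hRex θ'
        refine huniq (θ + θ') _ (k + l) (algebraMap S S₂ (x 0 ^ l) • η +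
          algebraMap S S₂ (x 0 ^ k) • η') ?_ ?_
        · intro m
          rw [LinearMap.add_apply, LinearMap.smul_apply, LinearMap.smul_apply, smul_eq_mul,
            smul_eq_mul, map_add, map_mul, map_mul, ← IsScalarTower.algebraMap_apply,
            ← IsScalarTower.algebraMap_apply, map_pow, map_pow, w0, hη m, hη' m,
            LinearMap.add_apply, map_add]
          ring
        · rw [map_add, map_smul, map_smul, Algebra.smul_def, Algebra.smul_def,
            ← IsScalarTower.algebraMap_apply, ← IsScalarTower.algebraMap_apply, map_pow, map_pow,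
            w0, he' θ k η hη, he' θ' l η' hη']
          ring
      map_smul' := by
        intro a₁ θ
        obtain ⟨a, rfl⟩ := hr₁.surj a₁
        obtain ⟨k, η, hη⟩ := hRex θ
        rw [RingHom.id_apply]
        refine huniq (algebraMap S S₁ a • θ) _ k (algebraMap S S₂ a • η) ?_ ?_
        · intro m
          rw [LinearMap.smul_apply, LinearMap.smul_apply, smul_eq_mul, smul_eq_mul, map_mul,
            map_mul, ← IsScalarTower.algebraMap_apply, ← IsScalarTower.algebraMap_apply, hη m]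
          ring
        · rw [map_smul, Algebra.smul_def, Algebra.smul_def, ← IsScalarTower.algebraMap_apply,
            ← IsScalarTower.algebraMap_apply, he' θ k η hη]
          ring }
  have heL : ∀ θ, eL θ = e' θ := fun _ => rfl
  -- reduction of the derivations
  have hDb₁ : ∀ a : S₁, algebraMap S₁ Sb (D₁ a) = 0 := by
    intro a
    refine hy₁.induction (P := fun a => algebraMap S₁ Sb (D₁ a) = 0) ?_ ?_ ?_ a
    · intro c; rw [Derivation.map_algebraMap, map_zero]
    · intro a b ha hb; rw [map_add, map_add, ha, hb, add_zero]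
    · intro a i ha
      rw [Derivation.leibniz, map_add, smul_eq_mul, smul_eq_mul, map_mul, map_mul, ha, mul_zero,
        add_zero]
      have : algebraMap S₁ Sb (D₁ (y₁ i)) = 0 := by
        fin_cases i
        · show algebraMap S₁ Sb (D₁ (y₁ 0)) = 0
          rw [v10, hD₁, hD0, ← v12, hrb₁.xj]
        · show algebraMap S₁ Sb (D₁ (y₁ 1)) = 0
          rw [v11, hD₁, hD1, hr₁.xj, map_zero]
        · show algebraMap S₁ Sb (D₁ (y₁ 2)) = 0
          rw [v12, hD₁, hD2, map_zero, map_zero]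
        · show algebraMap S₁ Sb (D₁ (y₁ 3)) = 0
          rw [v13, hD₁, hD4, map_zero, map_zero]
      rw [this, mul_zero]
  have hDb₂ : ∀ a : S₂, algebraMap S₂ Sb (D₂ a) = 0 := by
    intro a
    refine hy₂.induction (P := fun a => algebraMap S₂ Sb (D₂ a) = 0) ?_ ?_ ?_ a
    · intro c; rw [Derivation.map_algebraMap, map_zero]
    · intro a b ha hb; rw [map_add, map_add, ha, hb, add_zero]
    · intro a i ha
      rw [Derivation.leibniz, map_add, smul_eq_mul, smul_eq_mul, map_mul, map_mul, ha, mul_zero,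
        add_zero]
      have : algebraMap S₂ Sb (D₂ (y₂ i)) = 0 := by
        fin_cases i
        · show algebraMap S₂ Sb (D₂ (y₂ 0)) = 0
          rw [v20, hD₂, hD0, hr₂.xj, map_zero]
        · show algebraMap S₂ Sb (D₂ (y₂ 1)) = 0
          rw [v21, hD₂, hD1, ← v22, hrb₂.xj]
        · show algebraMap S₂ Sb (D₂ (y₂ 2)) = 0
          rw [v22, hD₂, hD3, map_zero, map_zero]
        · show algebraMap S₂ Sb (D₂ (y₂ 3)) = 0
          rw [v23, hD₂, hD4, map_zero, map_zero]
      rw [this, mul_zero]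
  have hKb : ∀ (c : K) (a : S₁), algebraMap S₁ Sb (c • a) = algebraMap K Sb c *
      algebraMap S₁ Sb a := by
    intro c a
    rw [Algebra.smul_def, map_mul, ← IsScalarTower.algebraMap_apply]
  have hKb₂ : ∀ (c : K) (a : S₂), algebraMap S₂ Sb (c • a) = algebraMap K Sb c *
      algebraMap S₂ Sb a := by
    intro c a
    rw [Algebra.smul_def, map_mul, ← IsScalarTower.algebraMap_apply]
  have hRsh : ∀ (μ : K) (k : ℕ) (θ : M →ₗ[S] S₁) (η : M →ₗ[S] S₂), R k θ η →
      R k (sh (dconn hD₁ h.cD) μ θ) (sh (dconn hD₂ h.cD) μ η) := by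
    intro μ k θ η hR m
    rw [sh_apply, sh_apply, LinearMap.sub_apply, LinearMap.sub_apply, dconn_apply, dconn_apply,
      LinearMap.smul_apply, LinearMap.smul_apply, map_sub, map_sub, map_sub, map_sub, hDb₁, hDb₂,
      hR (δ m), hKb, hKb₂, hR m]
    ring
  have hsh : ∀ θ, eL (sh (dconn hD₁ h.cD) μ₂ θ) = 0 := by
    intro θ
    obtain ⟨k, η, hη⟩ := hRex θ
    rw [heL]
    exact huniq _ 0 k _ (hRsh μ₂ k θ η hη) (by rw [q2, mul_zero])
  -- elements of the second dual
  have hback : ∀ η : M →ₗ[S] S₂, ∃ (k : ℕ) (θ : M →ₗ[S] S₁), e' θ = z 0 ^ k * e₂ η := by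
    intro η
    have hred₂ : ∃ ηb : M →ₗ[S] Sb, ∀ m, ηb m = algebraMap S₂ Sb (η m) := by
      refine ⟨{ toFun := fun m => algebraMap S₂ Sb (η m), map_add' := ?_, map_smul' := ?_ }, ?_⟩
      · intro m n; simp only [map_add]
      · intro a m
        simp only [map_smul, RingHom.id_apply]
        rw [Algebra.smul_def, map_mul, ← IsScalarTower.algebraMap_apply, ← Algebra.smul_def]
      · intro m; rfl
    obtain ⟨ηb, hηb⟩ := hred₂
    obtain ⟨k, θ, hθ⟩ := Bun.cofinite (S₁ := S₁) hx h.bun hrb₁.surj 0 ηb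
    refine ⟨k, θ, ?_⟩
    refine huniq θ _ 0 (algebraMap S S₂ (x 0 ^ k) • η) ?_ ?_
    · intro m
      rw [LinearMap.smul_apply, smul_eq_mul, map_mul, ← IsScalarTower.algebraMap_apply, pow_zero,
        one_mul, hθ, hηb]
    · rw [map_smul, Algebra.smul_def, ← IsScalarTower.algebraMap_apply, map_pow, w0, pow_zero,
        one_mul]
  have he'0 : ∃ θ, eL θ ≠ 0 := by
    by_contra hcon
    push Not at hcon
    apply q3
    ext η
    obtain ⟨k, θ, hθ⟩ := hback η
    have h1 := hcon θ
    rw [heL, hθ] at h1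
    rcases mul_eq_zero.mp h1 with h2 | h2
    · exact absurd h2 (pow_ne_zero k hz0')
    · exact h2
  have hKL : ∀ (c : K) (θ : M →ₗ[S] S₁), eL (c • θ) = algebraMap K Sb c * eL θ := by
    intro c θ
    rw [← algebraMap_smul S₁ c θ, map_smul, Algebra.smul_def, ← IsScalarTower.algebraMap_apply]
  have hcomp : ∀ θ, eL (dconn hD₁ h.cD θ) = algebraMap K Sb μ₂ * eL θ := by
    intro θ
    have h1 := hsh θ
    rw [sh_apply, map_sub, hKL, sub_eq_zero] at h1
    exact h1
  have hμ : μ₁ = μ₂ := by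
    obtain ⟨θ, hθ⟩ := he'0
    obtain ⟨n, hn⟩ := p1 θ
    have h1 : eL (sh (dconn hD₁ h.cD) μ₁ (sh (dconn hD₁ h.cD) μ₁ θ)) = 0 := by
      rw [hn, map_smul, Algebra.smul_def, hrb₁.xj, zero_mul]
    have h2 : ∀ θ, eL (sh (dconn hD₁ h.cD) μ₁ θ) = algebraMap K Sb (μ₂ - μ₁) * eL θ := by
      intro θ
      rw [sh_apply, map_sub, hcomp, hKL, map_sub]
      ring
    rw [h2, h2] at h1
    have h3 : algebraMap K Sb (μ₂ - μ₁) = 0 := by
      rcases mul_eq_zero.mp h1 with h4 | h4
      · exact h4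
      · rcases mul_eq_zero.mp h4 with h5 | h5
        · exact h5
        · exact absurd h5 hθ
    have h4 : μ₂ - μ₁ = 0 := by
      have hinj : Function.Injective (algebraMap K Sb) := (algebraMap K Sb).injective
      exact hinj (by rw [h3, map_zero])
    exact (sub_eq_zero.mp h4).symm
  obtain ⟨c, hc⟩ := p4 eL (fun θ => by rw [hμ]; exact hsh θ)
  obtain ⟨k, θ, hθ⟩ := hback η₀
  have h1 : eL θ ∈ q := by
    rw [hc, LinearMap.smul_apply, smul_eq_mul]
    exact q.mul_mem_left _ (p5 θ)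
  rw [heL, hθ] at h1
  rcases hqp.mem_or_mem h1 with h2 | h2
  · exact hz0 (hqp.mem_of_pow_mem _ h2)
  · exact hη₀ h2

end rowQ

end Pool.Agent.Lib.MP_745d3a_ag.PF

end

section

open Module

namespace Pool.Agent.Lib.MP_745d3a_ag.PF

section rowM

variable {K V : Type*} [Field K] [AddCommGroup V] [Module K V]

private theorem rowM_compl (P : Submodule K V) (m : ℕ) (hV : finrank K V = 5)
    (h : finrank K P + m = 5) :
    ∃ v : Fin m → V, P ⊔ Submodule.span K (Set.range v) = ⊤ := by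
  have : FiniteDimensional K V := Module.finite_of_finrank_pos (by omega)
  obtain ⟨Q, hQ⟩ := P.exists_isCompl
  have h1 : finrank K Q = m := by
    have := Submodule.finrank_add_eq_of_isCompl hQ
    omega
  let bQ := Module.finBasisOfFinrankEq K Q h1
  refine ⟨fun i => (bQ i : V), ?_⟩
  have h2 : Submodule.span K (Set.range fun i => (bQ i : V)) = Q := by
    rw [show (fun i => (bQ i : V)) = Q.subtype ∘ bQ from rfl, Set.range_comp,
      ← Submodule.map_span, bQ.span_eq, Submodule.map_top, Submodule.range_subtype]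
  rw [h2]
  exact hQ.sup_eq_top

private theorem rowM_basis (hV : finrank K V = 5) (b : Fin 5 → V)
    (hb : ⊤ ≤ Submodule.span K (Set.range b)) : ∃ b' : Basis (Fin 5) K V, ∀ i, b' i = b i := by
  refine ⟨basisOfTopLeSpanOfCardEqFinrank b hb (by simp [hV]), fun i => ?_⟩
  simp [coe_basisOfTopLeSpanOfCardEqFinrank]

/-- completion with adjusting a pair -/
private theorem rowM_pair (hV : finrank K V = 5) (p q : V) (hpq : LinearIndependent K ![p, q])
    (N : V → K) :
    ∃ v1 v2 v3 : V,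
      ⊤ ≤ Submodule.span K (Set.range ![p, v1 - N v1 • p, v2 - N v2 • p, v3 - N v3 • p, q]) := by
  have h1 : finrank K (Submodule.span K (Set.range ![p, q])) = 2 := by
    simpa using finrank_span_eq_card hpq
  obtain ⟨v, hv⟩ := rowM_compl (Submodule.span K (Set.range ![p, q])) 3 hV (by omega)
  refine ⟨v 0, v 1, v 2, ?_⟩
  set T := Submodule.span K
    (Set.range ![p, v 0 - N (v 0) • p, v 1 - N (v 1) • p, v 2 - N (v 2) • p, q]) with hT
  have hp : p ∈ T := Submodule.subset_span ⟨0, rfl⟩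
  have hq : q ∈ T := Submodule.subset_span ⟨4, rfl⟩
  have h0 : v 0 ∈ T := by
    have := T.add_mem (Submodule.subset_span ⟨1, rfl⟩ : v 0 - N (v 0) • p ∈ T)
      (T.smul_mem (N (v 0)) hp)
    simpa using this
  have h1' : v 1 ∈ T := by
    have := T.add_mem (Submodule.subset_span ⟨2, rfl⟩ : v 1 - N (v 1) • p ∈ T)
      (T.smul_mem (N (v 1)) hp)
    simpa using this
  have h2 : v 2 ∈ T := by
    have := T.add_mem (Submodule.subset_span ⟨3, rfl⟩ : v 2 - N (v 2) • p ∈ T)
      (T.smul_mem (N (v 2)) hp)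
    simpa using this
  rw [← hv]
  refine sup_le ?_ ?_
  · rw [Submodule.span_le]
    rintro _ ⟨i, rfl⟩
    fin_cases i
    · exact hp
    · exact hq
  · rw [Submodule.span_le]
    rintro _ ⟨i, rfl⟩
    fin_cases i
    · exact h0
    · exact h1'
    · exact h2

/-- The first alternative. -/
private theorem rowM_A (hV : finrank K V = 5) (B : V →ₗ[K] V) (w l : V) (β β' c : K)
    (hwl : LinearIndependent K ![w, l]) (hβ : β ≠ 0) (hl : B l = β' • l)
    (hw : B w = β • w + c • l) (hr : ∀ v, ∃ x y : K, B v = x • w + y • l) :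
    ∃ b : Basis (Fin 5) K V,
      (∃ (β β' : K) (c : Fin 4 → K), β ≠ 0 ∧ B (b 4) = β' • b 4 ∧
        B (b 0) = β • b 0 + c 0 • b 4 ∧ B (b 1) = c 1 • b 4 ∧ B (b 2) = c 2 • b 4 ∧
        B (b 3) = c 3 • b 4) := by
  choose X Y hXY using hr
  obtain ⟨v1, v2, v3, hv⟩ := rowM_pair hV w l hwl (fun v => X v / β)
  obtain ⟨b, hb⟩ := rowM_basis hV _ hv
  have key : ∀ v, B (v - (X v / β) • w) = (Y v - X v / β * c) • l := by
    intro v
    rw [map_sub, map_smul, hw, hXY v]
    have : (X v / β) * β = X v := by field_simp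
    rw [smul_add, smul_smul, smul_smul, this, sub_smul]
    abel
  refine ⟨b, β, β', ![c, Y v1 - X v1 / β * c, Y v2 - X v2 / β * c, Y v3 - X v3 / β * c], hβ,
    ?_, ?_, ?_, ?_, ?_⟩
  · rw [hb 4]; exact hl
  · rw [hb 0, hb 4]; exact hw
  · rw [hb 1, hb 4]; exact key v1
  · rw [hb 2, hb 4]; exact key v2
  · rw [hb 3, hb 4]; exact key v3

/-- Normal forms of endomorphisms of small rank. -/
theorem normal_form {K V : Type*} [Field K] [IsAlgClosed K] [AddCommGroup V] [Module K V]
    (hV : Module.finrank K V = 5) (B : V →ₗ[K] V) (hB : B ≠ 0)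
    (hrk : Module.finrank K (LinearMap.range B) ≤ 2)
    (hnil : B ∘ₗ B ∘ₗ B = 0 → B ∘ₗ B = 0) :
    ∃ b : Module.Basis (Fin 5) K V,
      (∃ (β β' : K) (c : Fin 4 → K), β ≠ 0 ∧ B (b 4) = β' • b 4 ∧
        B (b 0) = β • b 0 + c 0 • b 4 ∧ B (b 1) = c 1 • b 4 ∧ B (b 2) = c 2 • b 4 ∧
        B (b 3) = c 3 • b 4) ∨
      (B (b 0) = b 1 ∧ B (b 1) = 0 ∧ B (b 2) = 0 ∧ B (b 3) = 0 ∧ B (b 4) = 0) ∨
      (B (b 0) = b 2 ∧ B (b 1) = b 3 ∧ B (b 2) = 0 ∧ B (b 3) = 0 ∧ B (b 4) = 0) := by
  have : FiniteDimensional K V := Module.finite_of_finrank_pos (by omega)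
  obtain ⟨v0, hv0⟩ : ∃ v, B v ≠ 0 := by
    by_contra h
    push Not at h
    exact hB (LinearMap.ext h)
  -- an eigenvector in the range
  have hmaps : ∀ x ∈ LinearMap.range B, B x ∈ LinearMap.range B := fun x _ => ⟨x, rfl⟩
  have : Nontrivial (LinearMap.range B) :=
    ⟨⟨⟨B v0, v0, rfl⟩, 0, fun h => hv0 (congrArg Subtype.val h)⟩⟩
  obtain ⟨β', hβ'⟩ := Module.End.exists_eigenvalue (B.restrict hmaps)
  obtain ⟨l0, hl0⟩ := hβ'.exists_hasEigenvector
  obtain ⟨l, hlr⟩ := l0
  have hlne : l ≠ 0 := fun h => hl0.2 (Subtype.ext h)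
  have hl : B l = β' • l := congrArg Subtype.val hl0.apply_eq_smul
  have hpos : 0 < finrank K (LinearMap.range B) := Module.finrank_pos
  rcases (by omega : finrank K (LinearMap.range B) = 1 ∨ finrank K (LinearMap.range B) = 2) with
    h1 | h2
  · -- rank one
    have hspan : ∀ v, ∃ x : K, B v = x • l := by
      intro v
      obtain ⟨x, hx⟩ := (finrank_eq_one_iff_of_nonzero' (⟨l, hlr⟩ : LinearMap.range B)
        (fun h => hlne (congrArg Subtype.val h))).mp h1 ⟨B v, v, rfl⟩
      exact ⟨x, (congrArg Subtype.val hx).symm⟩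
    by_cases hb : β' = 0
    · subst hb
      rw [zero_smul] at hl
      obtain ⟨v, hv⟩ := hlr
      have hind : LinearIndependent K ![v, l] := by
        rw [LinearIndependent.pair_iff]
        intro s t hst
        have h3 : s • l = 0 := by
          have := congrArg B hst
          rwa [map_add, map_smul, map_smul, hv, hl, smul_zero, add_zero, map_zero] at this
        have hs : s = 0 := (smul_eq_zero.mp h3).resolve_right hlne
        subst hs
        rw [zero_smul, zero_add] at hst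
        exact ⟨rfl, (smul_eq_zero.mp hst).resolve_right hlne⟩
      choose X hX using hspan
      obtain ⟨v1, v2, v3, hv'⟩ := rowM_pair hV v l hind X
      have key : ∀ u, B (u - X u • v) = 0 := by
        intro u
        rw [map_sub, map_smul, hv, hX u, sub_self]
      have hspan2 : (⊤ : Submodule K V) ≤ Submodule.span K
          (Set.range ![v, l, v1 - X v1 • v, v2 - X v2 • v, v3 - X v3 • v]) := by
        refine hv'.trans ?_
        rw [Submodule.span_le]
        rintro _ ⟨i, rfl⟩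
        fin_cases i
        · exact Submodule.subset_span ⟨0, rfl⟩
        · exact Submodule.subset_span ⟨2, rfl⟩
        · exact Submodule.subset_span ⟨3, rfl⟩
        · exact Submodule.subset_span ⟨4, rfl⟩
        · exact Submodule.subset_span ⟨1, rfl⟩
      obtain ⟨b, hb⟩ := rowM_basis hV _ hspan2
      refine ⟨b, Or.inr (Or.inl ⟨?_, ?_, ?_, ?_, ?_⟩)⟩
      · rw [hb 0, hb 1]; exact hv
      · rw [hb 1]; exact hl
      · rw [hb 2]; exact key v1
      · rw [hb 3]; exact key v2
      · rw [hb 4]; exact key v3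
    · -- a kernel vector
      have hker : 0 < finrank K (LinearMap.ker B) := by
        have := LinearMap.finrank_range_add_finrank_ker B
        omega
      have : Nontrivial (LinearMap.ker B) := Module.finrank_pos_iff.mp hker
      obtain ⟨⟨l', hl'⟩, hl'ne⟩ := exists_ne (0 : LinearMap.ker B)
      have hl'0 : l' ≠ 0 := fun h => hl'ne (Subtype.ext h)
      have hl'B : B l' = 0 := hl'
      have hind : LinearIndependent K ![l, l'] := by
        rw [LinearIndependent.pair_iff]
        intro s t hst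
        have h3 : s • (β' • l) = 0 := by
          have := congrArg B hst
          rwa [map_add, map_smul, map_smul, hl, hl'B, smul_zero, add_zero, map_zero] at this
        have hs : s = 0 := by
          rcases smul_eq_zero.mp h3 with h | h
          · exact h
          · exact absurd ((smul_eq_zero.mp h).resolve_left hb) hlne
        subst hs
        rw [zero_smul, zero_add] at hst
        exact ⟨rfl, (smul_eq_zero.mp hst).resolve_right hl'0⟩
      obtain ⟨b, h⟩ := rowM_A hV B l l' β' 0 0 hind hb (by rw [hl'B, zero_smul])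
        (by rw [hl, zero_smul, add_zero])
        (fun v => by obtain ⟨x, hx⟩ := hspan v; exact ⟨x, 0, by rw [hx, zero_smul, add_zero]⟩)
      exact ⟨b, Or.inl h⟩
  · -- rank two
    obtain ⟨w, hwr, hwl⟩ : ∃ w ∈ LinearMap.range B, w ∉ Submodule.span K {l} := by
      by_contra hcon
      push Not at hcon
      have h3 : LinearMap.range B ≤ Submodule.span K {l} := hcon
      have h4 := Submodule.finrank_mono h3
      rw [finrank_span_singleton hlne] at h4
      omega
    have hind : LinearIndependent K ![w, l] := by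
      rw [LinearIndependent.pair_iff]
      intro s t hst
      have hs : s = 0 := by
        by_contra hs
        apply hwl
        rw [Submodule.mem_span_singleton]
        refine ⟨-(s⁻¹ * t), ?_⟩
        have h3 : s • w = -(t • l) := eq_neg_of_add_eq_zero_left hst
        calc (-(s⁻¹ * t)) • l = s⁻¹ • (-(t • l)) := by
              rw [neg_smul, mul_smul, smul_neg]
          _ = s⁻¹ • (s • w) := by rw [h3]
          _ = w := by rw [smul_smul, inv_mul_cancel₀ hs, one_smul]
      subst hs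
      rw [zero_smul, zero_add] at hst
      exact ⟨rfl, (smul_eq_zero.mp hst).resolve_right hlne⟩
    have hle : Submodule.span K (Set.range ![w, l]) ≤ LinearMap.range B := by
      rw [Submodule.span_le]
      rintro _ ⟨i, rfl⟩
      fin_cases i
      · exact hwr
      · exact hlr
    have heq : Submodule.span K (Set.range ![w, l]) = LinearMap.range B := by
      apply Submodule.eq_of_le_of_finrank_eq hle
      rw [h2]
      simpa using finrank_span_eq_card hind
    have hspan : ∀ v, ∃ x y : K, B v = x • w + y • l := by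
      intro v
      have h3 : B v ∈ Submodule.span K (Set.range ![w, l]) := by rw [heq]; exact ⟨v, rfl⟩
      rw [Matrix.range_cons, Matrix.range_cons, Matrix.range_empty, Set.union_empty] at h3
      rw [show ({w} ∪ {l} : Set V) = {w, l} from rfl, Submodule.mem_span_pair] at h3
      obtain ⟨x, y, hxy⟩ := h3
      exact ⟨x, y, hxy.symm⟩
    obtain ⟨β, c, hw⟩ := hspan w
    by_cases hβ : β = 0
    · subst hβ
      rw [zero_smul, zero_add] at hw
      by_cases hb : β' = 0
      · subst hb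
        rw [zero_smul] at hl
        have hB3 : B ∘ₗ B ∘ₗ B = 0 := by
          apply LinearMap.ext
          intro v
          obtain ⟨x, y, hxy⟩ := hspan v
          simp only [LinearMap.comp_apply, hxy, map_add, map_smul, hw, hl, smul_zero, add_zero,
            LinearMap.zero_apply]
        have hB2 := hnil hB3
        obtain ⟨u0, hu0⟩ := hwr
        obtain ⟨u1, hu1⟩ := hlr
        have hw0 : B w = 0 := by
          have := LinearMap.congr_fun hB2 u0
          rwa [LinearMap.comp_apply, hu0, LinearMap.zero_apply] at this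
        -- four independent vectors
        have hpair := LinearIndependent.pair_iff.mp hind
        have hind4 : LinearIndependent K ![u0, u1, w, l] := by
          rw [Fintype.linearIndependent_iff]
          intro g hg
          rw [Fin.sum_univ_four] at hg
          have hg' : g 0 • u0 + g 1 • u1 + g 2 • w + g 3 • l = 0 := hg
          have h3 : g 0 • w + g 1 • l = 0 := by
            have := congrArg B hg'
            simpa only [map_add, map_smul, hu0, hu1, hw0, hl, smul_zero, add_zero, map_zero]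
              using this
          obtain ⟨e0, e1⟩ := hpair _ _ h3
          rw [e0, e1, zero_smul, zero_smul, zero_add, zero_add] at hg'
          obtain ⟨e2, e3⟩ := hpair _ _ hg'
          intro i
          fin_cases i
          · exact e0
          · exact e1
          · exact e2
          · exact e3
        have h5 : finrank K (Submodule.span K (Set.range ![u0, u1, w, l])) = 4 := by
          simpa using finrank_span_eq_card hind4
        obtain ⟨v, hv⟩ := rowM_compl (Submodule.span K (Set.range ![u0, u1, w, l])) 1 hV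
          (by omega)
        obtain ⟨x, y, hxy⟩ := hspan (v 0)
        have hspan2 : (⊤ : Submodule K V) ≤ Submodule.span K
            (Set.range ![u0, u1, w, l, v 0 - x • u0 - y • u1]) := by
          set T := Submodule.span K (Set.range ![u0, u1, w, l, v 0 - x • u0 - y • u1]) with hT
          have t0 : u0 ∈ T := Submodule.subset_span ⟨0, rfl⟩
          have t1 : u1 ∈ T := Submodule.subset_span ⟨1, rfl⟩
          have t2 : w ∈ T := Submodule.subset_span ⟨2, rfl⟩
          have t3 : l ∈ T := Submodule.subset_span ⟨3, rfl⟩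
          have t4 : v 0 ∈ T := by
            have := T.add_mem (T.add_mem
              (Submodule.subset_span ⟨4, rfl⟩ : v 0 - x • u0 - y • u1 ∈ T)
              (T.smul_mem y t1)) (T.smul_mem x t0)
            simpa using this
          rw [← hv]
          refine sup_le ?_ ?_
          · rw [Submodule.span_le]
            rintro _ ⟨i, rfl⟩
            fin_cases i
            · exact t0
            · exact t1
            · exact t2
            · exact t3
          · rw [Submodule.span_le]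
            rintro _ ⟨i, rfl⟩
            fin_cases i
            exact t4
        obtain ⟨b, hb⟩ := rowM_basis hV _ hspan2
        refine ⟨b, Or.inr (Or.inr ⟨?_, ?_, ?_, ?_, ?_⟩)⟩
        · rw [hb 0, hb 2]; exact hu0
        · rw [hb 1, hb 3]; exact hu1
        · rw [hb 2]; exact hw0
        · rw [hb 3]; exact hl
        · rw [hb 4]
          change B (v 0 - x • u0 - y • u1) = 0
          rw [map_sub, map_sub, map_smul, map_smul, hu0, hu1, hxy]
          abel
      · -- swap the roles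
        have hind' : LinearIndependent K ![l, w - (c / β') • l] := by
          rw [LinearIndependent.pair_iff]
          intro s t hst
          have h3 : t • w + (s - t * (c / β')) • l = 0 := by
            rw [← hst, smul_sub, smul_smul, sub_smul]
            abel
          obtain ⟨ht, hs⟩ := LinearIndependent.pair_iff.mp hind _ _ h3
          subst ht
          rw [zero_mul, sub_zero] at hs
          exact ⟨hs, rfl⟩
        have hk : B (w - (c / β') • l) = 0 := by
          rw [map_sub, map_smul, hw, hl, smul_smul]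
          have : c / β' * β' = c := by field_simp
          rw [this, sub_self]
        obtain ⟨b, h⟩ := rowM_A hV B l (w - (c / β') • l) β' 0 0 hind' hb
          (by rw [hk, zero_smul]) (by rw [hl, zero_smul, add_zero])
          (fun v => by
            obtain ⟨x, y, hxy⟩ := hspan v
            refine ⟨y + x * (c / β'), x, ?_⟩
            rw [hxy, smul_sub, smul_smul, add_smul]
            abel)
        exact ⟨b, Or.inl h⟩
    · obtain ⟨b, h⟩ := rowM_A hV B w l β β' c hind hβ hl hw hspan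
      exact ⟨b, Or.inl h⟩

end rowM

end Pool.Agent.Lib.MP_745d3a_ag.PF

end

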