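import Mathlib

/-!
Coordinates of polynomial rings, derivations, diagonalisable operators.
-/

set_option autoImplicit false

open MvPolynomial

namespace Pool.Agent.Lib.MP_745d3a_ag.PF

/-- `x` is a system of coordinates of `S`: `S` is the polynomial ring over `K` in the `x i`. -/
structure Coord (K : Type*) {S ι : Type*} [Field K] [CommRing S] [Algebra K S] (x : ι → S) :
    Prop where
  bij : Function.Bijective (aeval x : MvPolynomial ι K →ₐ[K] S)

section coord

variable {K S ι : Type*} [Field K] [CommRing S] [Algebra K S] {x : ι → S}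

/-- The isomorphism with the polynomial ring. -/
noncomputable def Coord.equiv (hx : Coord K x) : MvPolynomial ι K ≃ₐ[K] S :=
  AlgEquiv.ofBijective _ hx.bij

lemma Coord.equiv_X (hx : Coord K x) (i : ι) : hx.equiv (X i) = x i := by
  simp [Coord.equiv]

lemma Coord.symm_x (hx : Coord K x) (i : ι) : hx.equiv.symm (x i) = X i := by
  rw [← hx.equiv_X, AlgEquiv.symm_apply_apply]

lemma Coord.isDomain (hx : Coord K x) : IsDomain S :=
  hx.equiv.toMulEquiv.symm.isDomain (MvPolynomial ι K)

lemma Coord.noeth [Finite ι] (hx : Coord K x) : IsNoetherianRing S :=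
  isNoetherianRing_of_ringEquiv _ hx.equiv.toRingEquiv

lemma Coord.ufm [IsDomain S] (hx : Coord K x) : UniqueFactorizationMonoid S :=
  MulEquiv.uniqueFactorizationMonoid hx.equiv.toMulEquiv inferInstance

lemma Coord.inj (hx : Coord K x) : Function.Injective x := by
  intro i j h
  have h1 := hx.bij.1 (a₁ := X i) (a₂ := X j) (by simpa using h)
  exact X_injective h1

/-- Induction principle for `S`. -/
lemma Coord.induction (hx : Coord K x) {P : S → Prop} (hC : ∀ c : K, P (algebraMap K S c))
    (hadd : ∀ a b, P a → P b → P (a + b)) (hX : ∀ a i, P a → P (a * x i)) (a : S) : P a := by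
  obtain ⟨p, rfl⟩ := hx.equiv.surjective a
  induction p using MvPolynomial.induction_on with
  | C c => simpa [Coord.equiv] using hC c
  | add p q hp hq => rw [map_add]; exact hadd _ _ hp hq
  | mul_X p i hp => rw [map_mul, hx.equiv_X]; exact hX _ _ hp

lemma Coord.der_ext (hx : Coord K x) {D D' : Derivation K S S} (h : ∀ i, D (x i) = D' (x i)) :
    D = D' := by
  refine Derivation.ext fun a => ?_
  refine hx.induction (P := fun a => D a = D' a) ?_ ?_ ?_ a
  · intro c; rw [Derivation.map_algebraMap, Derivation.map_algebraMap]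
  · intro a b ha hb; rw [map_add, map_add, ha, hb]
  · intro a i ha; rw [Derivation.leibniz, Derivation.leibniz, ha, h i]

/-- The derivation with given values on the coordinates. -/
noncomputable def Coord.der (hx : Coord K x) (y : ι → S) : Derivation K S S where
  toFun a := hx.equiv (mkDerivation K (fun i => hx.equiv.symm (y i)) (hx.equiv.symm a))
  map_add' a b := by simp only [map_add]
  map_smul' c a := by simp only [map_smul, Derivation.map_smul, RingHom.id_apply]
  map_one_eq_zero' := by
    show hx.equiv (mkDerivation K (fun i => hx.equiv.symm (y i)) (hx.equiv.symm 1)) = 0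
    rw [map_one, Derivation.map_one_eq_zero, map_zero]
  leibniz' a b := by
    show hx.equiv (mkDerivation K (fun i => hx.equiv.symm (y i)) (hx.equiv.symm (a * b))) = _
    rw [map_mul, Derivation.leibniz, map_add, smul_eq_mul, smul_eq_mul, map_mul, map_mul,
      AlgEquiv.apply_symm_apply, AlgEquiv.apply_symm_apply]
    rfl

lemma Coord.der_x (hx : Coord K x) (y : ι → S) (i : ι) : hx.der y (x i) = y i := by
  show hx.equiv (mkDerivation K (fun i => hx.equiv.symm (y i)) (hx.equiv.symm (x i))) = y i
  rw [hx.symm_x, mkDerivation_X, AlgEquiv.apply_symm_apply]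

end coord

section diag

variable {K V V' : Type*} [Field K] [CharZero K] [AddCommGroup V] [Module K V]
  [AddCommGroup V'] [Module K V']

/-- `T` is diagonalisable with integral eigenvalues. -/
def Diag (T : V →ₗ[K] V) : Prop :=
  ∀ v : V, ∃ (s : Finset ℤ) (f : ℤ → V), (∀ d, T (f d) = (d : K) • f d) ∧ v = ∑ d ∈ s, f d

variable {T : V →ₗ[K] V} {T' : V' →ₗ[K] V'}

/-- Eigenvectors for distinct eigenvalues are independent. -/
lemma eig_indep (s : Finset ℤ) (f : ℤ → V) (hf : ∀ d ∈ s, T (f d) = (d : K) • f d)
    (h0 : ∑ d ∈ s, f d = 0) : ∀ d ∈ s, f d = 0 := by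
  classical
  induction s using Finset.induction_on generalizing f with
  | empty => intro d hd; simp at hd
  | insert a s ha ih =>
    rw [Finset.sum_insert ha] at h0
    have h1 : T (f a) + ∑ d ∈ s, T (f d) = 0 := by
      rw [← map_sum, ← map_add, h0, map_zero]
    rw [hf a (Finset.mem_insert_self a s)] at h1
    have h2 : ∑ d ∈ s, ((d : K) - a) • f d = 0 := by
      have h3 : ∑ d ∈ s, ((d : K) - a) • f d = ∑ d ∈ s, T (f d) - (a : K) • ∑ d ∈ s, f d := by
        rw [Finset.smul_sum, ← Finset.sum_sub_distrib]
        refine Finset.sum_congr rfl fun d hd => ?_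
        rw [hf d (Finset.mem_insert_of_mem hd), sub_smul]
      rw [h3, eq_neg_of_add_eq_zero_right h1, eq_neg_of_add_eq_zero_right h0, smul_neg, sub_neg_eq_add,
        neg_add_cancel]
    have h4 := ih (fun d => ((d : K) - a) • f d) (fun d hd => by
      rw [map_smul, hf d (Finset.mem_insert_of_mem hd), smul_comm]) h2
    have h5 : ∀ d ∈ s, f d = 0 := by
      intro d hd
      have h6 := h4 d hd
      rcases smul_eq_zero.mp h6 with h7 | h7
      · exfalso
        rw [sub_eq_zero, Int.cast_inj] at h7
        exact ha (h7 ▸ hd)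
      · exact h7
    intro d hd
    rcases Finset.mem_insert.mp hd with rfl | hd
    · rw [Finset.sum_eq_zero h5, add_zero] at h0
      exact h0
    · exact h5 d hd

open Classical in
/-- The component of eigenvalue `d`. -/
noncomputable def comp (T : V →ₗ[K] V) (d : ℤ) (v : V) : V :=
  if h : ∃ (s : Finset ℤ) (f : ℤ → V), (∀ d, T (f d) = (d : K) • f d) ∧ v = ∑ d ∈ s, f d then
    if d ∈ h.choose then h.choose_spec.choose d else 0 else 0

lemma comp_unique {v : V} (s : Finset ℤ) (f : ℤ → V)
    (hf : ∀ d ∈ s, T (f d) = (d : K) • f d) (hv : v = ∑ d ∈ s, f d) (d : ℤ) :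
    comp T d v = if d ∈ s then f d else 0 := by
  classical
  have h : ∃ (s : Finset ℤ) (f : ℤ → V), (∀ d, T (f d) = (d : K) • f d) ∧ v = ∑ d ∈ s, f d := by
    refine ⟨s, fun d => if d ∈ s then f d else 0, ?_, ?_⟩
    · intro d
      by_cases hd : d ∈ s
      · simp only [hd, if_true]; exact hf d hd
      · simp only [hd, if_false, map_zero, smul_zero]
    · rw [hv]
      exact Finset.sum_congr rfl fun d hd => by simp only [hd, if_true]
  unfold comp
  rw [dif_pos h]
  set s' := h.choose
  set f' := h.choose_spec.choose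
  have h1 : (∀ d, T (f' d) = (d : K) • f' d) ∧ v = ∑ d ∈ s', f' d := h.choose_spec.choose_spec
  have h2 := eig_indep (T := T) (s ∪ s')
    (fun d => (if d ∈ s' then f' d else 0) - (if d ∈ s then f d else 0)) ?_ ?_
  · by_cases hd : d ∈ s ∪ s'
    · exact sub_eq_zero.mp (h2 d hd)
    · rw [Finset.mem_union, not_or] at hd
      rw [if_neg hd.1, if_neg hd.2]
  · intro d _
    have h3 : ∀ (c : Prop) [Decidable c] (w : V), (c → T w = (d : K) • w) →
        T (if c then w else 0) = (d : K) • (if c then w else 0) := by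
      intro c _ w hw
      by_cases hc : c
      · rw [if_pos hc]; exact hw hc
      · rw [if_neg hc, map_zero, smul_zero]
    rw [map_sub, smul_sub, h3 _ _ (fun _ => h1.1 d), h3 _ _ (hf d)]
  · rw [Finset.sum_sub_distrib, Finset.sum_ite_mem, Finset.sum_ite_mem,
      Finset.inter_eq_right.mpr Finset.subset_union_right,
      Finset.inter_eq_right.mpr Finset.subset_union_left, ← h1.2, ← hv, sub_self]

lemma comp_of_eig {v : V} {d : ℤ} (hv : T v = (d : K) • v) : comp T d v = v := by
  classical
  rw [comp_unique {d} (fun _ => v) (by intro e he; rw [Finset.mem_singleton] at he; rw [he]; exact hv)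
    (by simp), if_pos (Finset.mem_singleton_self d)]

lemma comp_of_ne {v : V} {d e : ℤ} (hv : T v = (d : K) • v) (hne : e ≠ d) : comp T e v = 0 := by
  classical
  rw [comp_unique {d} (fun _ => v) (by intro e he; rw [Finset.mem_singleton] at he; rw [he]; exact hv)
    (by simp), if_neg (by simpa using hne)]

lemma comp_zero (d : ℤ) : comp T d (0 : V) = 0 := by
  classical
  rw [comp_unique (T := T) ∅ (fun _ => 0) (by simp) (by simp)]
  simp

lemma comp_eig (hT : Diag T) (d : ℤ) (v : V) : T (comp T d v) = (d : K) • comp T d v := by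
  classical
  obtain ⟨s, f, hf, hv⟩ := hT v
  rw [comp_unique s f (fun d _ => hf d) hv]
  by_cases hd : d ∈ s
  · rw [if_pos hd]; exact hf d
  · rw [if_neg hd, map_zero, smul_zero]

lemma comp_add (hT : Diag T) (d : ℤ) (v w : V) : comp T d (v + w) = comp T d v + comp T d w := by
  classical
  obtain ⟨s, f, hf, hv⟩ := hT v
  obtain ⟨t, g, hg, hw⟩ := hT w
  rw [comp_unique s f (fun d _ => hf d) hv, comp_unique t g (fun d _ => hg d) hw,
    comp_unique (s ∪ t) (fun d => (if d ∈ s then f d else 0) + (if d ∈ t then g d else 0))]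
  · by_cases hd : d ∈ s ∪ t
    · rw [if_pos hd]
    · rw [if_neg hd]
      rw [Finset.mem_union, not_or] at hd
      rw [if_neg hd.1, if_neg hd.2, add_zero]
  · intro d _
    rw [map_add, smul_add]
    congr 1
    · by_cases hd : d ∈ s
      · rw [if_pos hd]; exact hf d
      · rw [if_neg hd, map_zero, smul_zero]
    · by_cases hd : d ∈ t
      · rw [if_pos hd]; exact hg d
      · rw [if_neg hd, map_zero, smul_zero]
  · rw [Finset.sum_add_distrib, Finset.sum_ite_mem, Finset.sum_ite_mem,
      Finset.inter_eq_right.mpr Finset.subset_union_right,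
      Finset.inter_eq_right.mpr Finset.subset_union_left, hv, hw]

lemma comp_smulK (hT : Diag T) (d : ℤ) (c : K) (v : V) : comp T d (c • v) = c • comp T d v := by
  classical
  obtain ⟨s, f, hf, hv⟩ := hT v
  rw [comp_unique s f (fun d _ => hf d) hv, comp_unique s (fun d => c • f d) (fun d _ => by
    rw [map_smul, hf d, smul_comm]) (by rw [hv, Finset.smul_sum]), smul_ite, smul_zero]

/-- The component as a linear map. -/
noncomputable def compL (hT : Diag T) (d : ℤ) : V →ₗ[K] V where
  toFun := comp T d
  map_add' := comp_add hT d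
  map_smul' := comp_smulK hT d

lemma comp_sum {α : Type*} (hT : Diag T) (d : ℤ) (s : Finset α) (f : α → V) :
    comp T d (∑ a ∈ s, f a) = ∑ a ∈ s, comp T d (f a) :=
  map_sum (compL hT d) f s

lemma comp_sub (hT : Diag T) (d : ℤ) (v w : V) : comp T d (v - w) = comp T d v - comp T d w :=
  map_sub (compL hT d) v w

/-- Every vector is the sum of its components. -/
lemma exists_comp (hT : Diag T) (v : V) : ∃ s : Finset ℤ, v = ∑ d ∈ s, comp T d v ∧
    ∀ d, d ∉ s → comp T d v = 0 := by
  classical
  obtain ⟨s, f, hf, hv⟩ := hT v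
  refine ⟨s, ?_, ?_⟩
  · conv_lhs => rw [hv]
    refine Finset.sum_congr rfl fun d hd => ?_
    rw [comp_unique s f (fun d _ => hf d) hv, if_pos hd]
  · intro d hd
    rw [comp_unique s f (fun d _ => hf d) hv, if_neg hd]

lemma eq_zero_of_comp (hT : Diag T) {v : V} (h : ∀ d, comp T d v = 0) : v = 0 := by
  obtain ⟨s, hs, _⟩ := exists_comp hT v
  rw [hs]
  exact Finset.sum_eq_zero fun d _ => h d

/-- Components and maps which shift eigenvalues. -/
lemma comp_shift (hT : Diag T) (A : V →+ V') (k : ℤ)
    (hA : ∀ v, ∀ d : ℤ, T v = (d : K) • v → T' (A v) = ((d + k : ℤ) : K) • A v) (d : ℤ) (v : V) :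
    comp T' (d + k) (A v) = A (comp T d v) := by
  classical
  obtain ⟨s, f, hf, hv⟩ := hT v
  rw [comp_unique s f (fun d _ => hf d) hv]
  rw [comp_unique (T := T') (s.map (addRightEmbedding k)) (fun e => A (f (e - k)))]
  · by_cases hd : d ∈ s
    · rw [if_pos hd, if_pos (by simpa using hd), add_sub_cancel_right]
    · rw [if_neg hd, if_neg (by simpa using hd), map_zero]
  · intro e _
    have := hA (f (e - k)) (e - k) (hf _)
    rwa [sub_add_cancel] at this
  · rw [hv, map_sum, Finset.sum_map]
    refine Finset.sum_congr rfl fun e _ => ?_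
    rw [addRightEmbedding_apply, add_sub_cancel_right]

/-- Stable subspaces contain the components of their elements. -/
lemma comp_mem (hT : Diag T) (W : AddSubgroup V) (hW : ∀ w ∈ W, T w ∈ W)
    (hK : ∀ (c : K), ∀ w ∈ W, c • w ∈ W) {w : V} (hw : w ∈ W) (d : ℤ) : comp T d w ∈ W := by
  classical
  obtain ⟨s, hs, hs'⟩ := exists_comp hT w
  have key : ∀ (s : Finset ℤ) (f : ℤ → V), (∀ d, T (f d) = (d : K) • f d) →
      ∑ d ∈ s, f d ∈ W → ∀ d ∈ s, f d ∈ W := by
    intro s
    induction s using Finset.induction_on with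
    | empty => intro f _ _ d hd; simp at hd
    | insert a s ha ih =>
      intro f hf hmem
      have h1 : ∑ d ∈ s, ((d : K) - a) • f d ∈ W := by
        have h2 : ∑ d ∈ s, ((d : K) - a) • f d =
            T (∑ d ∈ insert a s, f d) - (a : K) • ∑ d ∈ insert a s, f d := by
          rw [map_sum, Finset.smul_sum, ← Finset.sum_sub_distrib, Finset.sum_insert ha, hf a,
            sub_self, zero_add]
          exact Finset.sum_congr rfl fun d _ => by rw [hf d, sub_smul]
        rw [h2]
        exact W.sub_mem (hW _ hmem) (hK _ _ hmem)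
      have h3 := ih (fun d => ((d : K) - a) • f d) (fun d => by rw [map_smul, hf d, smul_comm]) h1
      have h4 : ∀ d ∈ s, f d ∈ W := by
        intro d hd
        have h5 := hK ((d : K) - a)⁻¹ _ (h3 d hd)
        have h6 : (d : K) - a ≠ 0 := by
          intro h7
          rw [sub_eq_zero, Int.cast_inj] at h7
          exact ha (h7 ▸ hd)
        rwa [smul_smul, inv_mul_cancel₀ h6, one_smul] at h5
      intro d hd
      rcases Finset.mem_insert.mp hd with rfl | hd
      · rw [Finset.sum_insert ha] at hmem
        have := W.sub_mem hmem (W.sum_mem h4)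
        rwa [add_sub_cancel_right] at this
      · exact h4 d hd
  by_cases hd : d ∈ s
  · exact key s (fun d => comp T d w) (fun d => comp_eig hT d w) (hs ▸ hw) d hd
  · rw [hs' d hd]; exact W.zero_mem

/-- Injective intertwiners pull back diagonalisability. -/
lemma Diag.of_injective (hT' : Diag T') (A : V →ₗ[K] V') (hA : Function.Injective A)
    (hAT : ∀ v, T' (A v) = A (T v)) : Diag T := by
  classical
  intro v
  obtain ⟨s, hs, _⟩ := exists_comp hT' (A v)
  have hmem : ∀ d, comp T' d (A v) ∈ (LinearMap.range A).toAddSubgroup := by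
    intro d
    refine comp_mem hT' _ ?_ ?_ ?_ d
    · rintro _ ⟨u, rfl⟩
      exact ⟨T u, (hAT u).symm⟩
    · rintro c _ ⟨u, rfl⟩
      exact ⟨c • u, map_smul _ _ _⟩
    · exact ⟨v, rfl⟩
  choose f hf using hmem
  refine ⟨s, f, ?_, ?_⟩
  · intro d
    apply hA
    rw [← hAT, map_smul, hf d, comp_eig hT']
  · apply hA
    rw [map_sum, hs]
    refine Finset.sum_congr rfl fun d hd => ?_
    rw [hf d]

end diag

end Pool.Agent.Lib.MP_745d3a_ag.PF
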