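import Pool.Agent.Lib.MP_745d3a_ag.PFMod

/-!
Rank 2 reflexive modules, hyperplane restriction, dual connections: definitions.
-/

set_option autoImplicit false

open MvPolynomial

namespace Pool.Agent.Lib.MP_745d3a_ag.PF

/-- Rank two reflexive modules, locally free away from the origin. -/
structure Bun {S ι : Type*} [CommRing S] (x : ι → S) (M : Type*) [AddCommGroup M]
    [Module S M] : Prop where
  fin : Module.Finite S M
  tf : ∀ (a : S) (m : M), a • m = 0 → a = 0 ∨ m = 0
  ht : ∀ a b : S, IsRelPrime a b → ∀ m n : M, a • m = b • n → ∃ k, m = b • k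
  lf : ∀ p : Ideal S, p.IsPrime → (∃ i, x i ∉ p) → ∃ s, s ∉ p ∧ ∃ m₁ m₂ : M,
    (∀ m, ∃ a b : S, s • m = a • m₁ + b • m₂) ∧
      ∀ a b : S, a • m₁ + b • m₂ = 0 → a = 0 ∧ b = 0

/-- Modules generated by two elements. -/
def Gen2 (S M : Type*) [CommRing S] [AddCommGroup M] [Module S M] : Prop :=
  ∃ m₁ m₂ : M, ∀ m, ∃ a b : S, m = a • m₁ + b • m₂

/-- `S'` with the coordinates `x'` is the hyperplane `x j = 0` of `S` with the coordinates `x`. -/
structure RS {S S' ι ι' : Type*} [CommRing S] [CommRing S'] [Algebra S S'] (x : ι → S) (j : ι)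
    (f : ι' → ι) (x' : ι' → S') : Prop where
  surj : Function.Surjective (algebraMap S S')
  ker : ∀ a : S, algebraMap S S' a = 0 → ∃ b, a = x j * b
  xj : algebraMap S S' (x j) = 0
  inj : Function.Injective f
  range : ∀ i, i ≠ j → ∃ i', f i' = i
  ne : ∀ i', f i' ≠ j
  map : ∀ i', algebraMap S S' (x (f i')) = x' i'

/-- A rank two module with its grading and a homogeneous connection. -/
structure Sys {K S ι M : Type*} [Field K] [CommRing S] [Algebra K S] [AddCommGroup M] [Module K M]
    [Module S M] [IsScalarTower K S M] (x : ι → S) (E D : Derivation K S S) (ε δ : M →ₗ[K] M) :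
    Prop where
  cx : Coord K x
  eu : IsEuler x E
  ED : ∀ a, E (D a) = D (E a)
  cE : IsConn E ε
  dg : Diag ε
  cD : IsConn D δ
  comm : ∀ m, ε (δ m) = δ (ε m)
  bun : Bun x M

section dual

variable {K S S' M : Type*} [Field K] [CommRing S] [Algebra K S] [CommRing S'] [Algebra K S']
  [Algebra S S'] [IsScalarTower K S S'] [AddCommGroup M] [Module K M] [Module S M]
  [IsScalarTower K S M]

/-- The dual connection. -/
noncomputable def dconn {D : Derivation K S S} {D' : Derivation K S' S'}
    (hD : ∀ a, D' (algebraMap S S' a) = algebraMap S S' (D a)) {δ : M →ₗ[K] M}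
    (hδ : IsConn D δ) : (M →ₗ[S] S') →ₗ[K] (M →ₗ[S] S') where
  toFun θ :=
    { toFun := fun m => D' (θ m) - θ (δ m)
      map_add' := fun m n => by
        simp only [map_add]; abel
      map_smul' := fun a m => by
        have h1 : θ (δ (a • m)) = algebraMap S S' (D a) * θ m + algebraMap S S' a * θ (δ m) := by
          rw [hδ, map_add, map_smul, map_smul, Algebra.smul_def, Algebra.smul_def]
        have h2 : D' (θ (a • m)) = algebraMap S S' a * D' (θ m) +
            θ m * algebraMap S S' (D a) := by
          rw [map_smul, Algebra.smul_def, Derivation.leibniz, hD, smul_eq_mul, smul_eq_mul]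
        rw [h1, h2, RingHom.id_apply, Algebra.smul_def]
        ring }
  map_add' θ θ' := by
    ext m
    simp only [LinearMap.add_apply, LinearMap.coe_mk, AddHom.coe_mk, map_add]
    ring
  map_smul' c θ := by
    ext m
    simp only [LinearMap.smul_apply, LinearMap.coe_mk, AddHom.coe_mk, RingHom.id_apply,
      Derivation.map_smul, smul_sub]

omit [IsScalarTower K S M] in
@[simp] lemma dconn_apply {D : Derivation K S S} {D' : Derivation K S' S'}
    (hD : ∀ a, D' (algebraMap S S' a) = algebraMap S S' (D a)) {δ : M →ₗ[K] M}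
    (hδ : IsConn D δ) (θ : M →ₗ[S] S') (m : M) :
    dconn hD hδ θ m = D' (θ m) - θ (δ m) := rfl

omit [IsScalarTower K S M] in
lemma dconn_isConn {D : Derivation K S S} {D' : Derivation K S' S'}
    (hD : ∀ a, D' (algebraMap S S' a) = algebraMap S S' (D a)) {δ : M →ₗ[K] M}
    (hδ : IsConn D δ) : IsConn D' (dconn hD hδ) := by
  intro a θ
  ext m
  simp only [dconn_apply, LinearMap.add_apply, LinearMap.smul_apply, smul_eq_mul,
    Derivation.leibniz]
  ring

end dual

section shift

variable {K S M ι : Type*} [Field K] [CommRing S] [Algebra K S] [AddCommGroup M] [Module K M]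
  [Module S M] [IsScalarTower K S M]

/-- The connection shifted by a scalar. -/
def sh (δ : M →ₗ[K] M) (μ : K) : M →ₗ[K] M := δ - μ • LinearMap.id

lemma sh_apply (δ : M →ₗ[K] M) (μ : K) (m : M) : sh δ μ m = δ m - μ • m := rfl

lemma Sys.shift {x : ι → S} {E D : Derivation K S S} {ε δ : M →ₗ[K] M} (h : Sys x E D ε δ)
    (μ : K) : Sys x E D ε (sh δ μ) where
  cx := h.cx
  eu := h.eu
  ED := h.ED
  cE := h.cE
  dg := h.dg
  cD := fun a m => by
    simp only [sh_apply]
    rw [h.cD, smul_sub, smul_comm μ a m]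
    abel
  comm := fun m => by
    simp only [sh_apply, map_sub, map_smul, h.comm]
  bun := h.bun

end shift

end Pool.Agent.Lib.MP_745d3a_ag.PF
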