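import Pool.Agent.Lib.MP_745d3a_ag.PFCase
import Pool.Agent.Lib.MP_745d3a_ag.Geometry

/-!
From graded reflexive modules to `Sys`, and the assembly of the cases.
-/

set_option autoImplicit false

open MvPolynomial

namespace Pool.Agent.Lib.MP_745d3a_ag.PF

section quot

variable {K S : Type*} [Field K] [CommRing S] [Algebra K S]

/-- The hyperplane `x j = 0` as a quotient. -/
lemma RS.quot {n : ℕ} (x : Fin (n + 1) → S) (j : Fin (n + 1)) :
    RS x j (Fin.succAbove j)
      (fun i => Ideal.Quotient.mk (Ideal.span {x j}) (x (j.succAbove i))) where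
  surj := Ideal.Quotient.mk_surjective
  ker := fun a ha => by
    have h1 : Ideal.Quotient.mk (Ideal.span {x j}) a = 0 := ha
    rw [Ideal.Quotient.eq_zero_iff_mem, Ideal.mem_span_singleton'] at h1
    obtain ⟨b, hb⟩ := h1
    exact ⟨b, by rw [← hb, mul_comm]⟩
  xj := by
    show Ideal.Quotient.mk (Ideal.span {x j}) (x j) = 0
    rw [Ideal.Quotient.eq_zero_iff_mem]
    exact Ideal.subset_span rfl
  inj := Fin.succAbove_right_injective
  range := fun i hi => Fin.exists_succAbove_eq hi
  ne := fun i => Fin.succAbove_ne j i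
  map := fun _ => rfl

end quot

section cases

variable {K S M : Type*} [Field K] [CharZero K] [IsAlgClosed K] [CommRing S] [Algebra K S]
  [AddCommGroup M] [Module K M] [Module S M] [IsScalarTower K S M]

theorem final_one {x : Fin 5 → S} {E D : Derivation K S S} {ε δ : M →ₗ[K] M}
    (h : Sys x E D ε δ) (β β' : K) (c : Fin 4 → K) (hβ : β ≠ 0) (hD4 : D (x 4) = β' • x 4)
    (hD0 : D (x 0) = β • x 0 + c 0 • x 4) (hD1 : D (x 1) = c 1 • x 4)
    (hD2 : D (x 2) = c 2 • x 4) (hD3 : D (x 3) = c 3 • x 4) : Gen2 S M :=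
  caseOne5 (RS.quot x 4) (RS.quot _ 0) h β β' c hβ hD4 hD0 hD1 hD2 hD3

theorem final_two {x : Fin 5 → S} {E D : Derivation K S S} {ε δ : M →ₗ[K] M}
    (h : Sys x E D ε δ) (hD0 : D (x 0) = x 1) (hD1 : D (x 1) = 0)
    (hD2 : D (x 2) = 0) (hD3 : D (x 3) = 0) (hD4 : D (x 4) = 0) : Gen2 S M := by
  refine caseTwo5 (by rw [Fintype.card_fin]) h (RS.quot x 1) 0 (by decide) hD0 ?_
  intro i hi
  fin_cases i
  · exact absurd rfl hi
  · exact hD1
  · exact hD2
  · exact hD3
  · exact hD4

theorem final_three {x : Fin 5 → S} {E D : Derivation K S S} {ε δ : M →ₗ[K] M}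
    (h : Sys x E D ε δ) (hD0 : D (x 0) = x 2) (hD1 : D (x 1) = x 3)
    (hD2 : D (x 2) = 0) (hD3 : D (x 3) = 0) (hD4 : D (x 4) = 0) : Gen2 S M := by
  classical
  let S₁ := S ⧸ Ideal.span {x 3}
  let S₂ := S ⧸ Ideal.span {x 2}
  let y₁ : Fin 4 → S₁ := fun i => Ideal.Quotient.mk _ (x (Fin.succAbove 3 i))
  let y₂ : Fin 4 → S₂ := fun i => Ideal.Quotient.mk _ (x (Fin.succAbove 2 i))
  let Sb := S₁ ⧸ Ideal.span {y₁ 2}
  let z : Fin 3 → Sb := fun i => Ideal.Quotient.mk _ (y₁ (Fin.succAbove 2 i))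
  have hlift : ∀ a : S, a ∈ Ideal.span {x 2} → algebraMap S Sb a = 0 := by
    intro a ha
    rw [Ideal.mem_span_singleton'] at ha
    obtain ⟨b, rfl⟩ := ha
    rw [map_mul]
    have h1 : algebraMap S Sb (x 2) = 0 := by
      rw [IsScalarTower.algebraMap_apply S S₁ Sb]
      show Ideal.Quotient.mk (Ideal.span {y₁ 2}) _ = 0
      rw [Ideal.Quotient.eq_zero_iff_mem]
      exact Ideal.subset_span rfl
    rw [h1, mul_zero]
  letI _j : Algebra S₂ Sb := (Ideal.Quotient.lift (Ideal.span {x 2}) (algebraMap S Sb) hlift).toAlgebra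
  have _i : IsScalarTower S S₂ Sb := IsScalarTower.of_algebraMap_eq fun a => rfl
  have _i : IsScalarTower K S₂ Sb := IsScalarTower.of_algebraMap_eq fun a => rfl
  have hsurj : Function.Surjective (algebraMap S Sb) := by
    intro w
    obtain ⟨u, rfl⟩ := Ideal.Quotient.mk_surjective w
    obtain ⟨v, rfl⟩ := Ideal.Quotient.mk_surjective u
    exact ⟨v, rfl⟩
  have hr₂ : RS x 2 (Fin.succAbove 2) y₂ := RS.quot x 2
  have hr₁ : RS x 3 (Fin.succAbove 3) y₁ := RS.quot x 3
  have hrb₁ : RS y₁ 2 (Fin.succAbove 2) z := RS.quot y₁ 2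
  have hrb₂ : RS y₂ 2 (Fin.succAbove 2) z :=
    { surj := by
        intro w
        obtain ⟨v, rfl⟩ := hsurj w
        exact ⟨algebraMap S S₂ v, rfl⟩
      ker := by
        intro s hs
        obtain ⟨a, rfl⟩ := Ideal.Quotient.mk_surjective s
        have h1 : algebraMap S₁ Sb (algebraMap S S₁ a) = 0 := hs
        obtain ⟨b, hb⟩ := hrb₁.ker _ h1
        obtain ⟨b', rfl⟩ := Ideal.Quotient.mk_surjective b
        have h2 : algebraMap S S₁ (a - x 2 * b') = 0 := by
          rw [map_sub, hb, sub_eq_zero, map_mul]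
          rfl
        obtain ⟨c, hc⟩ := hr₁.ker _ h2
        refine ⟨algebraMap S S₂ c, ?_⟩
        have h3 : a = x 2 * b' + x 3 * c := by linear_combination hc
        show algebraMap S S₂ a = algebraMap S S₂ (x 3) * algebraMap S S₂ c
        rw [h3, map_add, map_mul, map_mul, hr₂.xj, zero_mul, zero_add]
      xj := by
        show algebraMap S Sb (x 3) = 0
        rw [IsScalarTower.algebraMap_apply S S₁ Sb, hr₁.xj, map_zero]
      inj := Fin.succAbove_right_injective
      range := fun i hi => Fin.exists_succAbove_eq hi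
      ne := fun i => Fin.succAbove_ne 2 i
      map := fun i => by
        fin_cases i <;> rfl }
  exact caseTwoTwo hr₁ hr₂ hrb₁ hrb₂ h hD0 hD1 hD2 hD3 hD4

end cases

section lin

variable {K : Type*} [Field K]

/-- Linear forms. -/
noncomputable def linForm (K : Type*) [Field K] :
    (Fin 5 → K) →ₗ[K] MvPolynomial (Fin 5) K :=
  ∑ j, (LinearMap.proj j : (Fin 5 → K) →ₗ[K] K).smulRight (X j)

lemma linForm_apply (v : Fin 5 → K) :
    linForm K v = ∑ j, v j • (X j : MvPolynomial (Fin 5) K) := by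
  simp [linForm]

/-- A basis gives coordinates. -/
lemma coord_basis (b : Module.Basis (Fin 5) K (Fin 5 → K)) :
    Coord K (fun i => linForm K (b i)) := by
  have h1 : IsUnit (Matrix.of (fun i j => b i j)).det := by
    have h2 : (Matrix.of (fun i j => b i j)) = ((Pi.basisFun K (Fin 5)).toMatrix b).transpose := by
      ext i j
      simp [Module.Basis.toMatrix_apply]
    rw [h2, Matrix.det_transpose]
    have h3 : IsUnit ((Pi.basisFun K (Fin 5)).toMatrix b) := by
      have := (Pi.basisFun K (Fin 5)).invertibleToMatrix b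
      exact isUnit_of_invertible _
    exact (Matrix.isUnit_iff_isUnit_det _).mp h3
  have h2 := coord_linear (Matrix.of (fun i j => b i j)) h1
  have h3 : (fun i => linForm K (b i)) =
      (fun i => ∑ j, (Matrix.of (fun i j => b i j)) i j • (X j : MvPolynomial (Fin 5) K)) := by
    funext i
    rw [linForm_apply]; rfl
  rw [h3]; exact h2

/-- The derivation attached to a matrix. -/
lemma der_linForm (A : Matrix (Fin 5) (Fin 5) K)
    (D : Derivation K (MvPolynomial (Fin 5) K) (MvPolynomial (Fin 5) K))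
    (hD : ∀ i, D (X i) = ∑ j, A i j • (X j : MvPolynomial (Fin 5) K)) (v : Fin 5 → K) :
    D (linForm K v) = linForm K (Matrix.vecMul v A) := by
  rw [linForm_apply, linForm_apply, map_sum]
  simp only [Derivation.map_smul, hD, Finset.smul_sum, Matrix.vecMul, dotProduct,
    Finset.sum_smul, smul_smul]
  rw [Finset.sum_comm]

end lin

section graded

open Pool.Agent.Lib.MP_745d3a_ag (hom_induction eq_sum_comp)

variable {K M : Type*} [Field K] [AddCommGroup M]
  [Module (MvPolynomial (Fin 5) K) M] [Module K M] [IsScalarTower K (MvPolynomial (Fin 5) K) M]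
  (𝓜 : ℤ → AddSubgroup M) [DirectSum.Decomposition 𝓜]
  [SetLike.GradedSMul (weightedHomogeneousSubmodule K (fun _ : Fin 5 => (1 : ℤ))) 𝓜]

omit [DirectSum.Decomposition 𝓜] in
/-- Elements of the pieces are stable under scalars. -/
lemma smulK_mem (c : K) {d : ℤ} {m : M} (hm : m ∈ 𝓜 d) : c • m ∈ 𝓜 d := by
  have h1 : (C c : MvPolynomial (Fin 5) K) ∈
      weightedHomogeneousSubmodule K (fun _ : Fin 5 => (1 : ℤ)) 0 := by
    rw [mem_weightedHomogeneousSubmodule]
    exact isWeightedHomogeneous_C _ c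
  have h2 : (C c : MvPolynomial (Fin 5) K) • m ∈ 𝓜 ((0 : ℤ) +ᵥ d) :=
    SetLike.GradedSMul.smul_mem h1 hm
  rw [zero_vadd] at h2
  rwa [show c • m = (C c : MvPolynomial (Fin 5) K) • m by
    rw [← algebraMap_smul (MvPolynomial (Fin 5) K) c m]; rfl]

omit [DirectSum.Decomposition 𝓜] [Module K M] [IsScalarTower K (MvPolynomial (Fin 5) K) M] in
lemma X_smul_mem (i : Fin 5) {d : ℤ} {m : M} (hm : m ∈ 𝓜 d) :
    (X i : MvPolynomial (Fin 5) K) • m ∈ 𝓜 (1 + d) := by
  have h1 : (X i : MvPolynomial (Fin 5) K) ∈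
      weightedHomogeneousSubmodule K (fun _ : Fin 5 => (1 : ℤ)) 1 := by
    rw [mem_weightedHomogeneousSubmodule]
    exact isWeightedHomogeneous_X _ _ _
  exact SetLike.GradedSMul.smul_mem (A := weightedHomogeneousSubmodule K
    (fun _ : Fin 5 => (1 : ℤ))) (B := 𝓜) h1 hm

/-- The operator which multiplies the piece of degree `d` by `d`. -/
lemma exists_gradOp : ∃ ε : M →ₗ[K] M, ∀ d, ∀ m ∈ 𝓜 d, ε m = (d : K) • m := by
  classical
  let ε₀ : M →+ M := (DirectSum.toAddMonoid (fun d : ℤ =>
    ((DistribSMul.toAddMonoidHom M (d : K)).comp (𝓜 d).subtype))).comp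
      (DirectSum.decomposeAddEquiv 𝓜).toAddMonoidHom
  have h1 : ∀ d, ∀ m ∈ 𝓜 d, ε₀ m = (d : K) • m := by
    intro d m hm
    show DirectSum.toAddMonoid _ (DirectSum.decompose 𝓜 m) = _
    rw [DirectSum.decompose_of_mem 𝓜 hm, DirectSum.toAddMonoid_of]
    rfl
  refine ⟨⟨ε₀.toAddHom, ?_⟩, h1⟩
  intro c m
  show ε₀ (c • m) = c • ε₀ m
  refine hom_induction 𝓜 (P := fun m => ε₀ (c • m) = c • ε₀ m) ?_ ?_ ?_ m
  · rw [smul_zero, map_zero, smul_zero]
  · intro d m hm
    rw [h1 d _ (smulK_mem 𝓜 c hm), h1 d m hm, smul_comm]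
  · intro m n hm hn
    rw [smul_add, map_add, hm, hn, map_add, smul_add]

variable {𝓜}

lemma gradOp_conn {ε : M →ₗ[K] M} (hε : ∀ d, ∀ m ∈ 𝓜 d, ε m = (d : K) • m)
    {E : Derivation K (MvPolynomial (Fin 5) K) (MvPolynomial (Fin 5) K)}
    (hE : ∀ i, E (X i) = X i) : IsConn E ε := by
  have hX : ∀ (i : Fin 5) (m : M), ε ((X i : MvPolynomial (Fin 5) K) • m) =
      (X i : MvPolynomial (Fin 5) K) • m + (X i : MvPolynomial (Fin 5) K) • ε m := by
    intro i m
    refine hom_induction 𝓜 (P := fun m => ε ((X i : MvPolynomial (Fin 5) K) • m) =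
      (X i : MvPolynomial (Fin 5) K) • m + (X i : MvPolynomial (Fin 5) K) • ε m) ?_ ?_ ?_ m
    · simp
    · intro d m hm
      rw [hε _ _ (X_smul_mem 𝓜 i hm), hε _ _ hm, Int.cast_add, Int.cast_one, add_smul, one_smul,
        smul_comm]
    · intro m n hm hn
      rw [smul_add, map_add, hm, hn, map_add, smul_add]
      abel
  intro a
  induction a using MvPolynomial.induction_on with
  | C c =>
    intro m
    have h1 : (C c : MvPolynomial (Fin 5) K) = algebraMap K _ c := rfl
    rw [h1, algebraMap_smul, algebraMap_smul, map_smul, Derivation.map_algebraMap, zero_smul,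
      zero_add]
  | add p q hp hq =>
    intro m
    rw [add_smul, map_add, hp, hq, map_add, add_smul, add_smul]
    abel
  | mul_X p i hp =>
    intro m
    rw [mul_smul, hp, hX, Derivation.leibniz, hE, add_smul, smul_add, mul_smul]
    simp only [smul_eq_mul, mul_smul]
    rw [smul_comm (X i) (E p) m]
    abel

lemma gradOp_diag {ε : M →ₗ[K] M} (hε : ∀ d, ∀ m ∈ 𝓜 d, ε m = (d : K) • m) : Diag ε := by
  intro v
  obtain ⟨s, hs, _⟩ := eq_sum_comp 𝓜 v
  exact ⟨s, fun d => Pool.Agent.Lib.MP_745d3a_ag.comp 𝓜 d v,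
    fun d => hε d _ (Pool.Agent.Lib.MP_745d3a_ag.comp_mem 𝓜 d v), hs⟩

lemma gradOp_comm {ε : M →ₗ[K] M} (hε : ∀ d, ∀ m ∈ 𝓜 d, ε m = (d : K) • m) (δ : M →ₗ[K] M)
    (hδ : ∀ d, ∀ m ∈ 𝓜 d, δ m ∈ 𝓜 d) (m : M) : ε (δ m) = δ (ε m) := by
  refine hom_induction 𝓜 (P := fun m => ε (δ m) = δ (ε m)) ?_ ?_ ?_ m
  · simp
  · intro d m hm
    rw [hε d _ (hδ d m hm), hε d m hm, map_smul]
  · intro m n hm hn
    rw [map_add, map_add, hm, hn, map_add, map_add]

end graded

section bun

variable {K M : Type*} [Field K] [AddCommGroup M] [Module (MvPolynomial (Fin 5) K) M]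
  [Module.Finite (MvPolynomial (Fin 5) K) M] [Module.IsReflexive (MvPolynomial (Fin 5) K) M]

lemma bun_of_reflexive (hrank : Module.finrank (MvPolynomial (Fin 5) K) M = 2)
    (hfree : ∀ (p : Ideal (MvPolynomial (Fin 5) K)) [p.IsPrime],
      (∃ i, (X i : MvPolynomial (Fin 5) K) ∉ p) →
        Module.Free (Localization.AtPrime p) (LocalizedModule p.primeCompl M))
    (b : Fin 5 → Fin 5 → K) : Bun (fun i => linForm K (b i)) M where
  fin := inferInstance
  tf := torsionfree_of_reflexive
  ht := by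
    intro a b hab m n h
    by_cases hb : b = 0
    · subst hb
      rw [isRelPrime_zero_right] at hab
      rw [zero_smul] at h
      refine ⟨0, ?_⟩
      rw [smul_zero]
      exact (torsionfree_of_reflexive _ _ h).resolve_left hab.ne_zero
    · obtain ⟨k, hk, _⟩ := hartogs (M := M) hb (fun h h' => hab.symm.dvd_of_dvd_mul_left h') h
      exact ⟨k, hk⟩
  lf := by
    classical
    intro p hp hi
    obtain ⟨m₁, m₂, H⟩ := exists_LB (M := M) p (hfree p (by
      by_contra hcon
      push Not at hcon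
      obtain ⟨i, hi⟩ := hi
      apply hi
      show linForm K (b i) ∈ p
      rw [linForm_apply]
      refine Ideal.sum_mem _ fun j _ => ?_
      rw [← algebraMap_smul (MvPolynomial (Fin 5) K), smul_eq_mul]
      exact Ideal.mul_mem_left _ _ (hcon j))) hrank
    obtain ⟨G, hG⟩ := Module.Finite.fg_top (R := MvPolynomial (Fin 5) K) (M := M)
    choose d a c hd hdm using H.span
    refine ⟨∏ g ∈ G, d g, ?_, m₁, m₂, ?_, H.ind⟩
    · intro hmem
      obtain ⟨g, _, hg⟩ := (hp.prod_mem_iff (s := G) (x := d)).mp hmem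
      exact hd g hg
    · intro m
      have hm : m ∈ Submodule.span (MvPolynomial (Fin 5) K) (G : Set M) := by rw [hG]; trivial
      have h1 : Submodule.span (MvPolynomial (Fin 5) K) (G : Set M) ≤
          (Submodule.span (MvPolynomial (Fin 5) K) {m₁, m₂}).comap
            ((∏ g ∈ G, d g) • (LinearMap.id : M →ₗ[MvPolynomial (Fin 5) K] M)) := by
        rw [Submodule.span_le]
        intro g hg
        show (∏ g ∈ G, d g) • g ∈ Submodule.span (MvPolynomial (Fin 5) K) {m₁, m₂}
        rw [← Finset.prod_erase_mul G d hg, mul_smul, hdm]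
        exact Submodule.smul_mem _ _ (Submodule.mem_span_pair.mpr ⟨_, _, rfl⟩)
      obtain ⟨a, c, hac⟩ := Submodule.mem_span_pair.mp (h1 hm)
      exact ⟨a, c, hac.symm⟩

end bun

section main

variable {K : Type*} [Field K] [CharZero K] [IsAlgClosed K]

/-- **Main theorem.** -/
theorem main (A : Matrix (Fin 5) (Fin 5) K) (c : K) (hA : A ≠ c • (1 : Matrix (Fin 5) (Fin 5) K))
    (hrk : (A - c • (1 : Matrix (Fin 5) (Fin 5) K)).rank ≤ 2)
    (hnil : (A - c • (1 : Matrix (Fin 5) (Fin 5) K)) ^ 3 = 0 →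
      (A - c • (1 : Matrix (Fin 5) (Fin 5) K)) ^ 2 = 0)
    (M : Type*) [AddCommGroup M] [Module (MvPolynomial (Fin 5) K) M]
    [Module.Finite (MvPolynomial (Fin 5) K) M] [Module.IsReflexive (MvPolynomial (Fin 5) K) M]
    (hrank : Module.finrank (MvPolynomial (Fin 5) K) M = 2)
    (hfree : ∀ (p : Ideal (MvPolynomial (Fin 5) K)) [p.IsPrime],
      (∃ i, (X i : MvPolynomial (Fin 5) K) ∉ p) →
        Module.Free (Localization.AtPrime p) (LocalizedModule p.primeCompl M))
    (𝓜 : ℤ → AddSubgroup M) [DirectSum.Decomposition 𝓜]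
    [SetLike.GradedSMul (weightedHomogeneousSubmodule K (fun _ : Fin 5 => (1 : ℤ))) 𝓜]
    (D : Derivation K (MvPolynomial (Fin 5) K) (MvPolynomial (Fin 5) K))
    (hD : ∀ i, D (X i) = ∑ j, A i j • (X j : MvPolynomial (Fin 5) K))
    (δ : M →+ M) (hδ : ∀ (a : MvPolynomial (Fin 5) K) (m : M), δ (a • m) = D a • m + a • δ m)
    (hdeg : ∀ d, ∀ m ∈ 𝓜 d, δ m ∈ 𝓜 d) :
    ∃ (b : Module.Basis (Fin 2) (MvPolynomial (Fin 5) K) M) (d : Fin 2 → ℤ),
      ∀ k, b k ∈ 𝓜 (d k) := by
  classical
  letI _j : Module K M := Module.compHom M (algebraMap K (MvPolynomial (Fin 5) K))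
  have _i : IsScalarTower K (MvPolynomial (Fin 5) K) M := ⟨fun a p m => by
    rw [Algebra.smul_def, mul_smul]; rfl⟩
  obtain ⟨ε, hε⟩ := exists_gradOp (K := K) 𝓜
  let E : Derivation K (MvPolynomial (Fin 5) K) (MvPolynomial (Fin 5) K) := mkDerivation K X
  have hE : ∀ i, E (X i) = X i := fun i => mkDerivation_X K _ i
  -- the `K`-linear connection
  let δ₀ : M →ₗ[K] M :=
    { δ with
      map_smul' := fun k m => by
        show δ (k • m) = k • δ m
        have h1 : k • m = (algebraMap K (MvPolynomial (Fin 5) K) k) • m := rfl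
        rw [h1, hδ, Derivation.map_algebraMap, zero_smul, zero_add]
        rfl }
  have hδ₀ : ∀ m, δ₀ m = δ m := fun _ => rfl
  -- the matrix `B`
  set B : Matrix (Fin 5) (Fin 5) K := A - c • 1 with hB
  let L : (Fin 5 → K) →ₗ[K] (Fin 5 → K) := B.transpose.mulVecLin
  have hL : ∀ v, L v = Matrix.vecMul v B := by
    intro v
    simp [L]
  have hL0 : L ≠ 0 := by
    intro h
    apply hA
    have h1 : B.transpose = 0 := by
      have h2 : Matrix.toLin' B.transpose = 0 := h
      simpa using h2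
    have h3 : B = 0 := by rw [← Matrix.transpose_transpose B, h1, Matrix.transpose_zero]
    exact sub_eq_zero.mp h3
  have hLrk : Module.finrank K (LinearMap.range L) ≤ 2 := by
    have h1 : B.transpose.rank = Module.finrank K (LinearMap.range L) := rfl
    rw [← h1, Matrix.rank_transpose]
    exact hrk
  have hLnil : L ∘ₗ L ∘ₗ L = 0 → L ∘ₗ L = 0 := by
    intro h
    have h1 : L ∘ₗ L ∘ₗ L = Matrix.toLin' ((B ^ 3).transpose) := by
      show Matrix.toLin' B.transpose ∘ₗ Matrix.toLin' B.transpose ∘ₗ Matrix.toLin' B.transpose = _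
      rw [← Matrix.toLin'_mul, ← Matrix.toLin'_mul, ← Matrix.transpose_mul,
        ← Matrix.transpose_mul]
      congr 2
      rw [pow_succ, pow_two]
    have h2 : L ∘ₗ L = Matrix.toLin' ((B ^ 2).transpose) := by
      show Matrix.toLin' B.transpose ∘ₗ Matrix.toLin' B.transpose = _
      rw [← Matrix.toLin'_mul, ← Matrix.transpose_mul]
      congr 2
      rw [pow_two]
    rw [h1] at h
    have h3 : (B ^ 3).transpose = 0 :=
      (Matrix.toLin' (R := K) (m := Fin 5) (n := Fin 5)).injective (by rw [h, map_zero])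
    have h4 : B ^ 3 = 0 := by
      rw [← Matrix.transpose_transpose (B ^ 3), h3, Matrix.transpose_zero]
    rw [h2, hnil h4, Matrix.transpose_zero, map_zero]
  obtain ⟨b, hb⟩ := normal_form (by rw [Module.finrank_fin_fun]) L hL0 hLrk hLnil
  -- the system
  let D' : Derivation K (MvPolynomial (Fin 5) K) (MvPolynomial (Fin 5) K) := D - c • E
  let δ' : M →ₗ[K] M := δ₀ - c • ε
  have hD'X : ∀ i, D' (X i) = ∑ j, B i j • (X j : MvPolynomial (Fin 5) K) := by
    intro i
    show D (X i) - c • E (X i) = _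
    rw [hD, hE, hB]
    simp only [Matrix.sub_apply, Matrix.smul_apply, sub_smul, Finset.sum_sub_distrib,
      Matrix.one_apply, smul_eq_mul, mul_ite, mul_one, mul_zero, ite_smul, zero_smul,
      Finset.sum_ite_eq, Finset.mem_univ, if_true]
  have hD'L : ∀ v, D' (linForm K v) = linForm K (L v) := by
    intro v
    rw [der_linForm B D' hD'X, hL]
  have hEL : ∀ v, E (linForm K v) = linForm K v := by
    intro v
    rw [linForm_apply, map_sum]
    simp only [Derivation.map_smul, hE]
  have hx : Coord K (fun i => linForm K (b i)) := coord_basis b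
  have hcE : IsConn E ε := gradOp_conn hε hE
  have hsys : Sys (fun i => linForm K (b i)) E D' ε δ' :=
    { cx := hx
      eu := fun i => hEL _
      ED := by
        have h1 : ⁅E, D'⁆ = 0 := by
          refine hx.der_ext fun i => ?_
          rw [Derivation.commutator_apply, hD'L, hEL, hEL, hD'L, sub_self]
          rfl
        intro a
        have h2 := congrArg (fun Z : Derivation K (MvPolynomial (Fin 5) K)
          (MvPolynomial (Fin 5) K) => Z a) h1
        simp only [Derivation.commutator_apply] at h2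
        exact sub_eq_zero.mp h2
      cE := hcE
      dg := gradOp_diag hε
      cD := by
        intro a m
        show δ (a • m) - c • ε (a • m) = (D a - c • E a) • m + a • (δ m - c • ε m)
        rw [hδ, hcE, smul_add, sub_smul, smul_sub, smul_assoc, smul_comm a c (ε m)]
        abel
      comm := by
        refine gradOp_comm hε δ' ?_
        intro d m hm
        show δ m - c • ε m ∈ 𝓜 d
        refine AddSubgroup.sub_mem _ (hdeg d m hm) (smulK_mem 𝓜 c ?_)
        rw [hε d m hm]
        exact smulK_mem 𝓜 _ hm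
      bun := bun_of_reflexive hrank hfree _ }
  have hgen : Gen2 (MvPolynomial (Fin 5) K) M := by
    have hDb : ∀ i, D' (linForm K (b i)) = linForm K (L (b i)) := fun i => hD'L _
    rcases hb with ⟨β, β', e, hβ, h4, h0, h1, h2, h3⟩ | ⟨h0, h1, h2, h3, h4⟩ |
      ⟨h0, h1, h2, h3, h4⟩
    · refine final_one hsys β β' e hβ ?_ ?_ ?_ ?_ ?_
      · show D' (linForm K (b 4)) = _
        rw [hDb, h4, map_smul]
      · show D' (linForm K (b 0)) = _
        rw [hDb, h0, map_add, map_smul, map_smul]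
      · show D' (linForm K (b 1)) = _
        rw [hDb, h1, map_smul]
      · show D' (linForm K (b 2)) = _
        rw [hDb, h2, map_smul]
      · show D' (linForm K (b 3)) = _
        rw [hDb, h3, map_smul]
    · refine final_two hsys ?_ ?_ ?_ ?_ ?_
      · show D' (linForm K (b 0)) = _
        rw [hDb, h0]
      · show D' (linForm K (b 1)) = _
        rw [hDb, h1, map_zero]
      · show D' (linForm K (b 2)) = _
        rw [hDb, h2, map_zero]
      · show D' (linForm K (b 3)) = _
        rw [hDb, h3, map_zero]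
      · show D' (linForm K (b 4)) = _
        rw [hDb, h4, map_zero]
    · refine final_three hsys ?_ ?_ ?_ ?_ ?_
      · show D' (linForm K (b 0)) = _
        rw [hDb, h0]
      · show D' (linForm K (b 1)) = _
        rw [hDb, h1]
      · show D' (linForm K (b 2)) = _
        rw [hDb, h2, map_zero]
      · show D' (linForm K (b 3)) = _
        rw [hDb, h3, map_zero]
      · show D' (linForm K (b 4)) = _
        rw [hDb, h4, map_zero]
  refine exists_hom_basis (ω := fun _ => (1 : ℤ)) (δ := AddMonoidHom.id ℤ) (fun _ => rfl) ?_ hrank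
  obtain ⟨m₁, m₂, hm⟩ := hgen
  have hind := hsys.bun.gen2_indep hx m₁ m₂ hm
  have hli : LinearIndependent (MvPolynomial (Fin 5) K) ![m₁, m₂] := by
    rw [LinearIndependent.pair_iff]
    exact hind
  have hsp : ⊤ ≤ Submodule.span (MvPolynomial (Fin 5) K) (Set.range ![m₁, m₂]) := by
    intro m _
    rw [Matrix.range_cons, Matrix.range_cons, Matrix.range_empty, Set.union_empty,
      ← Set.insert_eq]
    obtain ⟨a, e, he⟩ := hm m
    exact Submodule.mem_span_pair.mpr ⟨a, e, he.symm⟩
  exact Module.Free.of_basis (Module.Basis.mk hli hsp)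

end main

end Pool.Agent.Lib.MP_745d3a_ag.PF
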