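import Pool.Agent.Lib.MP_745d3a_ag.PFBun

/-!
Lifting generators from a hyperplane; cone lemmas.
-/

set_option autoImplicit false
set_option linter.unusedSectionVars false
set_option linter.style.haveILetI false

section

set_option autoImplicit false

open MvPolynomial

namespace Pool.Agent.Lib.MP_745d3a_ag.PF

/-- Division of a linear map by a nonzero element. -/
lemma H1.div {S P V : Type*} [CommRing S] [AddCommGroup P] [Module S P]
    [AddCommGroup V] [Module S V] (x : S) (hx : ∀ v w : V, x • v = x • w → v = w) (h : P →ₗ[S] V)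
    (hd : ∀ v, ∃ w, h v = x • w) : ∃ h' : P →ₗ[S] V, ∀ v, h v = x • h' v := by
  choose g hg using hd
  refine ⟨⟨⟨g, ?_⟩, ?_⟩, hg⟩
  · intro u v
    apply hx
    rw [← hg, map_add, hg u, hg v, smul_add]
  · intro c v
    apply hx
    show x • g (c • v) = x • (c • g v)
    rw [← hg, map_smul, hg v, smul_comm]

/-- The algebraic core. -/
lemma H1.core {S S' : Type*} [CommRing S] [CommRing S'] [IsDomain S] [IsDomain S'] [Algebra S S']
    (x : S) (hx0 : x ≠ 0) (hsurj : Function.Surjective (algebraMap S S'))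
    (hker : ∀ a, algebraMap S S' a = 0 → ∃ b, a = x * b) (hxx : algebraMap S S' x = 0)
    {k : ℕ} (K₁ : Submodule S (Fin k → S)) (hsat : ∀ w, x • w ∈ K₁ → w ∈ K₁)
    (α : (Fin k → S) →ₗ[S] (Fin 2 → S')) (h1 : ∀ v ∈ K₁, α v = 0)
    (h2 : ∀ v, α v = 0 → ∃ w, v - x • w ∈ K₁) (a b d : S) (fa fb fd : Fin 2 → (Fin k → S))
    (hfa : ∀ i, α (fa i) = algebraMap S S' a • Pi.single i 1)
    (hfb : ∀ i, α (fb i) = algebraMap S S' b • Pi.single i 1)
    (hfd : ∀ i, α (fd i) = algebraMap S S' d • Pi.single i 1)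
    (ha0 : algebraMap S S' a ≠ 0)
    (hreg : ∀ g u v : S', algebraMap S S' d * g = algebraMap S S' a * u + algebraMap S S' b * v →
      ∃ u' v', g = algebraMap S S' a * u' + algebraMap S S' b * v')
    (hco : ∀ u v : S', algebraMap S S' b * u = algebraMap S S' a * v →
      ∃ w, u = algebraMap S S' a * w) (c : K₁ →ₗ[S] S) :
    ∃ (g : (Fin k → S) →ₗ[S] S) (c' : K₁ →ₗ[S] S), ∀ v : K₁, c v = g v + x * c' v := by
  classical
  set A := algebraMap S S' with hA
  -- lift of `α`
  obtain ⟨αt, hαt⟩ : ∃ αt : (Fin k → S) →ₗ[S] (Fin 2 → S), ∀ v i, A (αt v i) = α v i := by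
    have hs : Function.Surjective ((Algebra.linearMap S S').compLeft (Fin 2)) := by
      intro w
      choose u hu using fun i => hsurj (w i)
      exact ⟨u, funext hu⟩
    obtain ⟨h, hh⟩ := Module.projective_lifting_property _ α hs
    refine ⟨h, fun v i => ?_⟩
    rw [← hh]; rfl
  -- the maps `T_y`
  have hT : ∀ (y : S) (f : Fin 2 → (Fin k → S)), (∀ i, α (f i) = A y • Pi.single i 1) →
      ∃ (T : (Fin k → S) →ₗ[S] K₁) (w : (Fin k → S) →ₗ[S] (Fin k → S)), ∀ v,
        y • v = (T v : Fin k → S) + ∑ i, αt v i • f i + x • w v := by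
    intro y f hf
    let B : (Fin k → S) →ₗ[S] (Fin k → S) :=
      y • LinearMap.id - ∑ i, (LinearMap.proj i ∘ₗ αt).smulRight (f i)
    have hB : ∀ v, B v = y • v - ∑ i, αt v i • f i := by
      intro v
      simp only [B, LinearMap.sub_apply, LinearMap.smul_apply, LinearMap.id_apply,
        LinearMap.sum_apply, LinearMap.smulRight_apply, LinearMap.comp_apply, LinearMap.proj_apply]
    let ψ : (K₁ × (Fin k → S)) →ₗ[S] (Fin k → S) := K₁.subtype.coprod (x • LinearMap.id)
    have hBr : ∀ v, B v ∈ LinearMap.range ψ := by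
      intro v
      have h3 : α (B v) = 0 := by
        rw [hB, map_sub, map_smul, map_sum, sub_eq_zero]
        funext i
        simp only [map_smul, hf, Pi.smul_apply, Finset.sum_apply]
        rw [Finset.sum_eq_single i]
        · rw [Pi.single_eq_same, Algebra.smul_def, Algebra.smul_def, hαt]
          simp only [smul_eq_mul, mul_one]
          rw [← hA, mul_comm]
        · intro l _ hl
          rw [Pi.single_eq_of_ne (Ne.symm hl), smul_zero, smul_zero]
        · intro h; exact absurd (Finset.mem_univ i) h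
      obtain ⟨w, hw⟩ := h2 _ h3
      refine ⟨(⟨_, hw⟩, w), ?_⟩
      show B v - x • w + x • w = B v
      rw [sub_add_cancel]
    obtain ⟨h, hh⟩ := Module.projective_lifting_property ψ.rangeRestrict
      (B.codRestrict _ hBr) ψ.surjective_rangeRestrict
    refine ⟨LinearMap.fst S _ _ ∘ₗ h, LinearMap.snd S _ _ ∘ₗ h, fun v => ?_⟩
    have h4 := congrArg Subtype.val (LinearMap.congr_fun hh v)
    have h5 : ((h v).1 : Fin k → S) + x • (h v).2 = B v := h4
    have h6 : y • v = B v + ∑ i, αt v i • f i := by rw [hB, sub_add_cancel]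
    rw [h6, ← h5]
    show _ = ((h v).1 : Fin k → S) + _ + x • (h v).2
    abel
  have hcan : ∀ v w : Fin k → S, x • v = x • w → v = w := by
    intro v w h
    funext i
    have := congrFun h i
    simpa [hx0] using this
  have hAx : ∀ s, A (x * s) = 0 := fun s => by rw [map_mul, hxx, zero_mul]
  -- relation between elements of `K₁`
  have hrel : ∀ (u : Fin k → S) (hu : u ∈ K₁) (w : Fin k → S), u = x • w → A (c ⟨u, hu⟩) = 0 := by
    intro u hu w hw
    have hwK : w ∈ K₁ := hsat w (hw ▸ hu)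
    have : (⟨u, hu⟩ : K₁) = x • ⟨w, hwK⟩ := Subtype.ext hw
    rw [this, map_smul, smul_eq_mul, hAx]
  -- (E2)
  have hE2 : ∀ (y : S) (f : Fin 2 → (Fin k → S)) (T : (Fin k → S) →ₗ[S] K₁)
      (w : (Fin k → S) →ₗ[S] (Fin k → S)),
      (∀ v, y • v = (T v : Fin k → S) + ∑ i, αt v i • f i + x • w v) →
      ∀ v : K₁, A y * A (c v) = A (c (T v)) := by
    intro y f T w hw v
    have h3 : ∀ i, ∃ β, αt v i = x * β := fun i => hker _ (by
      have := hαt v i
      rw [this, h1 v v.2]; rfl)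
    choose β hβ using h3
    have h4 : ((y • v - T v : K₁) : Fin k → S) = x • (∑ i, β i • f i + w v) := by
      show y • (v : Fin k → S) - (T v : Fin k → S) = _
      rw [hw v, smul_add, Finset.smul_sum]
      simp only [hβ, mul_smul]
      abel
    have h5 := hrel _ (y • v - T v : K₁).2 _ h4
    have h6 : c (y • v - T v) = y * c v - c (T v) := by rw [map_sub, map_smul, smul_eq_mul]
    have h7 : A (c (y • v - T v)) = 0 := h5
    rw [h6, map_sub, map_mul, sub_eq_zero] at h7
    exact h7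
  -- the elements `κ`
  have hκ : ∀ (y z : S) (f g : Fin 2 → (Fin k → S)), (∀ i, α (f i) = A y • Pi.single i 1) →
      (∀ i, α (g i) = A z • Pi.single i 1) → ∀ i, ∃ w, z • f i - y • g i - x • w ∈ K₁ := by
    intro y z f g hf hg i
    apply h2
    rw [map_sub, map_smul, map_smul, hf, hg, sub_eq_zero]
    funext l
    show z • (A y * (Pi.single i 1 : Fin 2 → S') l) = y • (A z * (Pi.single i 1 : Fin 2 → S') l)
    rw [Algebra.smul_def, Algebra.smul_def, ← hA]; ring
  choose zab hzab using hκ a b fa fb hfa hfb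
  choose zad hzad using hκ a d fa fd hfa hfd
  choose zbd hzbd using hκ b d fb fd hfb hfd
  set γab : Fin 2 → S' := fun i => A (c ⟨_, hzab i⟩) with hγab
  set γad : Fin 2 → S' := fun i => A (c ⟨_, hzad i⟩) with hγad
  set γbd : Fin 2 → S' := fun i => A (c ⟨_, hzbd i⟩) with hγbd
  -- (E4)
  have hE4 : ∀ i, A d * γab i = A a * (-γbd i) + A b * γad i := by
    intro i
    set u : K₁ := d • ⟨_, hzab i⟩ - b • ⟨_, hzad i⟩ + a • ⟨_, hzbd i⟩ with hu
    have h3 : (u : Fin k → S) = x • (-(d • zab i) + b • zad i - a • zbd i) := by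
      show d • (b • fa i - a • fb i - x • zab i) - b • (d • fa i - a • fd i - x • zad i) +
        a • (d • fb i - b • fd i - x • zbd i) = _
      module
    have h4 : A (c u) = 0 := hrel _ u.2 _ h3
    have h5 : c u = d * c ⟨_, hzab i⟩ - b * c ⟨_, hzad i⟩ + a * c ⟨_, hzbd i⟩ := by
      rw [hu, map_add, map_sub, map_smul, map_smul, map_smul, smul_eq_mul, smul_eq_mul,
        smul_eq_mul]
    rw [h5, map_add, map_sub, map_mul, map_mul, map_mul] at h4
    linear_combination h4
  have h7 : ∀ i, ∃ u v, γab i = A a * u + A b * v := fun i => by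
    obtain ⟨u, v, h⟩ := hreg _ _ _ (hE4 i)
    exact ⟨u, v, h⟩
  choose μ lam hμ using h7
  obtain ⟨Ta, wa, hTa⟩ := hT a fa hfa
  obtain ⟨Tb, wb, hTb⟩ := hT b fb hfb
  -- (E3)
  have hE3 : ∀ v, A b * A (c (Ta v)) - A a * A (c (Tb v)) + ∑ i, α v i * γab i = 0 := by
    intro v
    set u : K₁ := b • Ta v - a • Tb v + ∑ i, αt v i • ⟨_, hzab i⟩ with hu
    have h3 : (u : Fin k → S) = x • (a • wb v - b • wa v - ∑ i, αt v i • zab i) := by
      have h4 : (Ta v : Fin k → S) = a • v - ∑ i, αt v i • fa i - x • wa v := by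
        rw [hTa v]; abel
      have h5 : (Tb v : Fin k → S) = b • v - ∑ i, αt v i • fb i - x • wb v := by
        rw [hTb v]; abel
      have h6 : (u : Fin k → S) = b • (Ta v : Fin k → S) - a • (Tb v : Fin k → S) +
          ∑ i, αt v i • (b • fa i - a • fb i - x • zab i) := by
        rw [hu]
        simp only [Submodule.coe_add, Submodule.coe_sub, Submodule.coe_smul, Submodule.coe_sum]
      rw [h6, h4, h5]
      simp only [Fin.sum_univ_two]
      module
    have h4 : A (c u) = 0 := hrel _ u.2 _ h3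
    have h5 : c u = b * c (Ta v) - a * c (Tb v) + ∑ i, αt v i * c ⟨_, hzab i⟩ := by
      rw [hu, map_add, map_sub, map_smul, map_smul, map_sum, smul_eq_mul, smul_eq_mul]
      simp only [map_smul, smul_eq_mul]
    rw [h5, map_add, map_sub, map_mul, map_mul, map_sum] at h4
    simp only [map_mul, hαt] at h4
    exact h4
  have hE5 : ∀ v, ∃ G, A (c (Ta v)) + ∑ i, α v i * lam i = A a * G := by
    intro v
    apply hco _ (A (c (Tb v)) - ∑ i, α v i * μ i)
    have := hE3 v
    simp only [Fin.sum_univ_two, hμ] at this ⊢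
    linear_combination this
  choose G hG using fun i : Fin k => hE5 (Pi.single i 1)
  choose Gt hGt using fun i => hsurj (G i)
  let g : (Fin k → S) →ₗ[S] S := ∑ i, (LinearMap.proj i : (Fin k → S) →ₗ[S] S).smulRight (Gt i)
  have hg : ∀ v, g v = ∑ i, v i * Gt i := by
    intro v
    simp only [g, LinearMap.sum_apply, LinearMap.smulRight_apply, LinearMap.proj_apply,
      smul_eq_mul]
  have hg2 : ∀ v, A a * A (g v) = A (c (Ta v)) + ∑ i, α v i * lam i := by
    intro v
    have h3 : v = ∑ l, v l • (Pi.single l 1 : Fin k → S) := by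
      funext i
      simp [Finset.sum_apply, Pi.single_apply]
    have h4 : A (c (Ta v)) = ∑ l, A (v l) * A (c (Ta (Pi.single l 1))) := by
      conv_lhs => rw [h3]
      simp only [map_sum, map_smul, smul_eq_mul, map_mul]
    have h5 : ∀ i, α v i = ∑ l, A (v l) * α (Pi.single l 1) i := by
      intro i
      conv_lhs => rw [h3]
      rw [map_sum, Finset.sum_apply]
      refine Finset.sum_congr rfl fun l _ => ?_
      rw [map_smul, Pi.smul_apply, Algebra.smul_def]
    rw [hg, map_sum, Finset.mul_sum, h4]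
    simp only [map_mul, hGt, h5, Finset.sum_mul]
    rw [Finset.sum_comm, ← Finset.sum_add_distrib]
    refine Finset.sum_congr rfl fun l _ => ?_
    have h6 := hG l
    calc A a * (A (v l) * G l) = A (v l) * (A a * G l) := by ring
      _ = _ := by
        rw [← h6, mul_add, Finset.mul_sum]
        congr 1
        exact Finset.sum_congr rfl fun i _ => by ring
  have hfin : ∀ v : K₁, ∃ w, (c - g ∘ₗ K₁.subtype) v = x • w := by
    intro v
    apply hker
    show A (c v - g v) = 0
    rw [map_sub, sub_eq_zero]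
    apply mul_left_cancel₀ ha0
    rw [hg2, hE2 a fa Ta wa hTa v, h1 v v.2]
    simp
  obtain ⟨c', hc'⟩ := H1.div x (fun v w h => mul_left_cancel₀ hx0 h) _ hfin
  refine ⟨g, c', fun v => ?_⟩
  have h3 : c v - g v = x • c' v := hc' v
  rw [smul_eq_mul] at h3
  linear_combination h3

variable {K S S' ι ι' M : Type*} [Field K] [CommRing S] [Algebra K S] [CommRing S'] [Algebra K S']
  [Algebra S S'] [IsScalarTower K S S'] {x : ι → S} {j : ι} {f : ι' → ι} {x' : ι' → S'}
  [AddCommGroup M] [Module S M]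

/-- Extension of functionals modulo `x j`. -/
lemma horrocks_ext [Finite ι] (hx : Coord K x) (hM : Bun x M) (hr : RS x j f x')
    {i₁ i₂ i₃ : ι'} (h12 : i₁ ≠ i₂) (h13 : i₁ ≠ i₃) (h23 : i₂ ≠ i₃)
    (hN : Gen2 S' (M →ₗ[S] S')) {k : ℕ} (π : (Fin k → S) →ₗ[S] (M →ₗ[S] S))
    (hπ : Function.Surjective π) (c : LinearMap.ker π →ₗ[S] S) :
    ∃ (g : (Fin k → S) →ₗ[S] S) (c' : LinearMap.ker π →ₗ[S] S), ∀ v, c v = g v + x j * c' v := by
  classical
  have hx' : Coord K x' := hr.coord hx
  have _i1 := hx.isDomain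
  have _i2 := hx'.isDomain
  have _i3 := hx'.ufm
  have _i4 : Nonempty ι' := ⟨i₁⟩
  have hN' : Bun x' (M →ₗ[S] S') := hM.dual hx hr
  obtain ⟨φ₁, φ₂, hφ⟩ := hN
  have hind := hN'.gen2_indep hx' φ₁ φ₂ hφ
  -- the restriction
  let res : (M →ₗ[S] S) →ₗ[S] (M →ₗ[S] S') :=
    { toFun := fun θ => (Algebra.linearMap S S').comp θ
      map_add' := fun θ η => by ext m; simp
      map_smul' := fun a θ => by ext m; simp [Algebra.smul_def] }
  have hres : ∀ θ m, res θ m = algebraMap S S' (θ m) := fun _ _ => rfl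
  -- coordinates of `N`
  let Φ : (Fin 2 → S') →ₗ[S'] (M →ₗ[S] S') :=
    (LinearMap.proj 0 : (Fin 2 → S') →ₗ[S'] S').smulRight φ₁ +
      (LinearMap.proj 1 : (Fin 2 → S') →ₗ[S'] S').smulRight φ₂
  have hΦ : ∀ w, Φ w = w 0 • φ₁ + w 1 • φ₂ := fun _ => rfl
  have hΦb : Function.Bijective Φ := by
    constructor
    · rw [← LinearMap.ker_eq_bot, LinearMap.ker_eq_bot']
      intro w hw
      rw [hΦ] at hw
      obtain ⟨h0, h1⟩ := hind _ _ hw
      funext i
      fin_cases i
      · exact h0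
      · exact h1
    · intro θ
      obtain ⟨a, b, hab⟩ := hφ θ
      exact ⟨![a, b], by rw [hΦ, hab]; rfl⟩
  let Ψ : (M →ₗ[S] S') ≃ₗ[S'] (Fin 2 → S') := (LinearEquiv.ofBijective Φ hΦb).symm
  have hΨ : ∀ θ, Φ (Ψ θ) = θ := fun θ => (LinearEquiv.ofBijective Φ hΦb).apply_symm_apply θ
  have hΨ' : ∀ w, Ψ (Φ w) = w := fun w => (LinearEquiv.ofBijective Φ hΦb).symm_apply_apply w
  let α : (Fin k → S) →ₗ[S] (Fin 2 → S') := (Ψ.toLinearMap.restrictScalars S) ∘ₗ res ∘ₗ π
  have hα : ∀ v, α v = Ψ (res (π v)) := fun _ => rfl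
  have hxj : x j ≠ 0 := (hx.prime_x j).ne_zero
  have hker : ∀ a, algebraMap S S' a = 0 → ∃ b, a = x j * b := hr.ker
  -- the elements `q`
  have hq : ∀ i : ι', ∃ (n : ℕ) (F : Fin 2 → (Fin k → S)),
      ∀ l, α (F l) = algebraMap S S' (x (f i) ^ n) • Pi.single l 1 := by
    intro i
    have h3 : ∀ θ : M →ₗ[S] S', ∃ (n : ℕ) (η : M →ₗ[S] S),
        res η = algebraMap S S' (x (f i) ^ n) • θ := by
      intro θ
      obtain ⟨n, η, hη⟩ := hM.cofinite hx (S₁ := S) (Sb := S') hr.surj (f i) θ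
      exact ⟨n, η, by ext m; exact hη m⟩
    obtain ⟨n₁, η₁, h₁⟩ := h3 φ₁
    obtain ⟨n₂, η₂, h₂⟩ := h3 φ₂
    obtain ⟨F₁, hF₁⟩ := hπ (x (f i) ^ n₂ • η₁)
    obtain ⟨F₂, hF₂⟩ := hπ (x (f i) ^ n₁ • η₂)
    refine ⟨n₁ + n₂, ![F₁, F₂], ?_⟩
    intro l
    apply hΦb.1
    rw [hα, hΨ, map_smul, hΦ]
    fin_cases l
    · show res (π F₁) = algebraMap S S' (x (f i) ^ (n₁ + n₂)) • _
      rw [hF₁, map_smul, h₁]
      ext m
      simp only [Fin.zero_eta, Fin.isValue, Pi.single_eq_same, one_smul, ne_eq, one_ne_zero,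
        not_false_eq_true, Pi.single_eq_of_ne, zero_smul, add_zero, LinearMap.smul_apply,
        smul_eq_mul, pow_add, map_mul]
      rw [Algebra.smul_def]
      ring
    · show res (π F₂) = algebraMap S S' (x (f i) ^ (n₁ + n₂)) • _
      rw [hF₂, map_smul, h₂]
      ext m
      simp only [Fin.mk_one, Fin.isValue, ne_eq, zero_ne_one, not_false_eq_true,
        Pi.single_eq_of_ne, zero_smul, Pi.single_eq_same, one_smul, zero_add,
        LinearMap.smul_apply, smul_eq_mul, pow_add, map_mul]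
      rw [Algebra.smul_def]
      ring
  obtain ⟨na, fa, hfa⟩ := hq i₁
  obtain ⟨nb, fb, hfb⟩ := hq i₂
  obtain ⟨nd, fd, hfd⟩ := hq i₃
  have hmap : ∀ (i : ι') (n : ℕ), algebraMap S S' (x (f i) ^ n) = x' i ^ n := by
    intro i n; rw [map_pow, hr.map]
  refine H1.core (x j) hxj hr.surj hker hr.xj (LinearMap.ker π) ?_ α ?_ ?_ (x (f i₁) ^ na)
    (x (f i₂) ^ nb) (x (f i₃) ^ nd) fa fb fd hfa hfb hfd ?_ ?_ ?_ c
  · intro w hw
    rw [LinearMap.mem_ker, map_smul] at hw
    rw [LinearMap.mem_ker]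
    ext m
    have := LinearMap.congr_fun hw m
    simpa [hxj] using this
  · intro v hv
    rw [hα, LinearMap.mem_ker.mp hv, map_zero, map_zero]
  · intro v hv
    rw [hα] at hv
    have h3 : res (π v) = 0 := by rw [← hΨ (res (π v)), hv, map_zero]
    obtain ⟨q, hq'⟩ := H1.div (x j) (fun v w h => mul_left_cancel₀ hxj h) (π v) (fun m => by
      have := LinearMap.congr_fun h3 m
      obtain ⟨b, hb⟩ := hker _ this
      exact ⟨b, hb⟩)
    obtain ⟨w, hw⟩ := hπ q
    refine ⟨w, ?_⟩
    rw [LinearMap.mem_ker, map_sub, map_smul, hw, sub_eq_zero]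
    ext m
    exact hq' m
  · rw [hmap]
    exact pow_ne_zero _ (hx'.prime_x i₁).ne_zero
  · intro g u v h
    rw [hmap, hmap, hmap] at h
    rw [hmap, hmap]
    exact hx'.koszul h12 h13 h23 na nb nd h
  · intro u v h
    rw [hmap, hmap] at h
    rw [hmap]
    have h3 : IsRelPrime (x' i₁ ^ na) (x' i₂ ^ nb) := hx'.relPrime_pow h12 na nb
    exact h3.dvd_of_dvd_mul_left ⟨v, h⟩

end Pool.Agent.Lib.MP_745d3a_ag.PF

end

section

set_option autoImplicit false

open MvPolynomial

namespace Pool.Agent.Lib.MP_745d3a_ag.PF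

section rowH

variable {K S S' ι ι' M : Type*} [Field K] [CommRing S] [Algebra K S] [CommRing S'] [Algebra K S']
  [Algebra S S'] [IsScalarTower K S S'] {x : ι → S} {j : ι} {f : ι' → ι} {x' : ι' → S'}
  [AddCommGroup M] [Module S M]

/-- (H2): then every functional on the kernel extends. -/
lemma horrocks_ext' [Finite ι] (hx : Coord K x) {Q : Type*} [AddCommGroup Q] [Module S Q]
    (hQ : Bun x Q) (j : ι) {k : ℕ} (π : (Fin k → S) →ₗ[S] Q) (hπ : Function.Surjective π)
    (h : ∀ c : LinearMap.ker π →ₗ[S] S, ∃ (g : (Fin k → S) →ₗ[S] S)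
      (c' : LinearMap.ker π →ₗ[S] S), ∀ v, c v = g v + x j * c' v)
    (c : LinearMap.ker π →ₗ[S] S) : ∃ g : (Fin k → S) →ₗ[S] S, ∀ v : LinearMap.ker π, c v = g v := by
  classical
  have := hx.isDomain
  have := hx.noeth
  let res : ((Fin k → S) →ₗ[S] S) →ₗ[S] (LinearMap.ker π →ₗ[S] S) :=
    LinearMap.lcomp S S (LinearMap.ker π).subtype
  have hres : ∀ (g : (Fin k → S) →ₗ[S] S) (v : LinearMap.ker π), res g v = g v := fun g v => rfl
  let N := LinearMap.range res
  obtain ⟨r, hr1, hr2⟩ := Submodule.exists_sub_one_mem_and_smul_le_of_fg_of_le_sup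
    (I := Ideal.span {x j}) (N := N) (N' := ⊤) (P := ⊤) Module.Finite.fg_top le_rfl (by
      intro c _
      obtain ⟨g, c', hc⟩ := h c
      refine Submodule.mem_sup.2 ⟨res g, ⟨g, rfl⟩, x j • c', ?_, ?_⟩
      · exact Submodule.smul_mem_smul (Ideal.mem_span_singleton_self _) trivial
      · ext v
        rw [LinearMap.add_apply, LinearMap.smul_apply, hres, hc v, smul_eq_mul])
  let J : Ideal S :=
    { carrier := {a | ∀ c : LinearMap.ker π →ₗ[S] S, a • c ∈ N}
      add_mem' := by
        intro a b ha hb c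
        rw [add_smul]
        exact N.add_mem (ha c) (hb c)
      zero_mem' := by
        intro c
        rw [zero_smul]
        exact N.zero_mem
      smul_mem' := by
        intro a b hb c
        rw [smul_assoc]
        exact N.smul_mem a (hb c) }
  have hJ : ∀ a, a ∈ J ↔ ∀ c : LinearMap.ker π →ₗ[S] S, a • c ∈ N := fun a => Iff.rfl
  have hrJ : r ∈ J := fun c => hr2 (Submodule.smul_mem_pointwise_smul c r ⊤ trivial)
  have hJtop : J = ⊤ := by
    by_contra hne
    obtain ⟨p, hp, hJp⟩ := Ideal.exists_le_maximal J hne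
    have hpp := hp.isPrime
    have hxj : x j ∉ p := by
      intro hxp
      apply hpp.ne_top
      rw [Ideal.eq_top_iff_one]
      have h1 : r - 1 ∈ p := (Ideal.span_le.2 (by simpa using hxp)) hr1
      have := p.sub_mem (hJp hrJ) h1
      simpa using this
    obtain ⟨s, hs, q₁, q₂, θ₁, θ₂, hq, -, -, -, -, -⟩ := Bun.local hx hQ p hpp ⟨j, hxj⟩
    apply hs
    apply hJp
    rw [hJ]
    intro c
    obtain ⟨f₁, hf₁⟩ := hπ q₁
    obtain ⟨f₂, hf₂⟩ := hπ q₂
    let T : (Fin k → S) →ₗ[S] (Fin k → S) := s • LinearMap.id -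
      ((θ₁ ∘ₗ π).smulRight f₁ + (θ₂ ∘ₗ π).smulRight f₂)
    have hT : ∀ v, T v = s • v - (θ₁ (π v) • f₁ + θ₂ (π v) • f₂) := fun v => by simp [T]
    have hTK : ∀ v, T v ∈ LinearMap.ker π := by
      intro v
      rw [LinearMap.mem_ker, hT, map_sub, map_add, map_smul, map_smul, map_smul, hf₁, hf₂, ← hq,
        sub_self]
    refine ⟨c ∘ₗ T.codRestrict _ hTK, ?_⟩
    ext v
    rw [hres, LinearMap.smul_apply]
    have h1 : π (v : Fin k → S) = 0 := v.2
    have h2 : T.codRestrict _ hTK (v : Fin k → S) = s • v := by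
      apply Subtype.ext
      rw [LinearMap.codRestrict_apply, hT, h1, map_zero, map_zero, zero_smul, zero_smul, add_zero,
        sub_zero]
      rfl
    rw [LinearMap.comp_apply, h2, map_smul]
  have h1 : (1 : S) ∈ J := by rw [hJtop]; trivial
  have h2 := h1 c
  rw [one_smul] at h2
  obtain ⟨g, hg⟩ := h2
  exact ⟨g, fun v => by rw [← hres, hg]⟩

/-- coordinates of the reductions of functionals -/
private lemma h2_alpha {φ₁ φ₂ : M →ₗ[S] S'}
    (hφ : ∀ θ : M →ₗ[S] S', ∃ a b : S', θ = a • φ₁ + b • φ₂)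
    (hind : ∀ a b : S', a • φ₁ + b • φ₂ = 0 → a = 0 ∧ b = 0) :
    ∃ α₁ α₂ : (M →ₗ[S] S) →ₗ[S] S', ∀ q : M →ₗ[S] S,
      (Algebra.linearMap S S') ∘ₗ q = α₁ q • φ₁ + α₂ q • φ₂ := by
  choose a b hab using fun q : M →ₗ[S] S => hφ ((Algebra.linearMap S S') ∘ₗ q)
  have huniq : ∀ c d c' d' : S', c • φ₁ + d • φ₂ = c' • φ₁ + d' • φ₂ → c = c' ∧ d = d' := by
    intro c d c' d' h
    have h1 : (c - c') • φ₁ + (d - d') • φ₂ = 0 := by
      ext m
      have := LinearMap.congr_fun h m
      simp only [LinearMap.add_apply, LinearMap.smul_apply, smul_eq_mul, LinearMap.zero_apply]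
        at this ⊢
      linear_combination this
    obtain ⟨h2, h3⟩ := hind _ _ h1
    exact ⟨sub_eq_zero.1 h2, sub_eq_zero.1 h3⟩
  have hadd : ∀ q q', a (q + q') = a q + a q' ∧ b (q + q') = b q + b q' := by
    intro q q'
    apply huniq
    rw [← hab, LinearMap.comp_add, hab q, hab q', add_smul, add_smul]
    abel
  have hsmul : ∀ (s : S) q, a (s • q) = s • a q ∧ b (s • q) = s • b q := by
    intro s q
    apply huniq
    rw [← hab, LinearMap.comp_smul, hab q, smul_add, smul_assoc, smul_assoc]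
  exact ⟨⟨⟨a, fun q q' => (hadd q q').1⟩, fun s q => (hsmul s q).1⟩,
    ⟨⟨b, fun q q' => (hadd q q').2⟩, fun s q => (hsmul s q).2⟩, hab⟩

/-- dividing a functional by `x j` on the kernel, extending and descending -/
private lemma h2_point [Finite ι] (hx : Coord K x) (hM : Bun x M) (hr : RS x j f x')
    {i₁ i₂ i₃ : ι'} (h12 : i₁ ≠ i₂) (h13 : i₁ ≠ i₃) (h23 : i₂ ≠ i₃)
    (hN : Gen2 S' (M →ₗ[S] S')) (α : (M →ₗ[S] S) →ₗ[S] S') :
    ∃ m : M, ∀ q : M →ₗ[S] S, algebraMap S S' (q m) = α q := by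
  classical
  have := hx.isDomain
  have := hx.noeth
  have hQ : Bun x (M →ₗ[S] S) := Bun.dual' hx hM
  have := hQ.fin
  obtain ⟨k, π, hπ⟩ := Module.Finite.exists_fin' S (M →ₗ[S] S)
  obtain ⟨A, hA⟩ := Module.projective_lifting_property (Algebra.linearMap S S') (α ∘ₗ π) hr.surj
  have hA' : ∀ v, algebraMap S S' (A v) = α (π v) := fun v => by
    have := LinearMap.congr_fun hA v
    simpa using this
  have hxj : x j ≠ 0 := (hx.prime_x j).ne_zero
  have hex : ∀ v : LinearMap.ker π, ∃ b, A v = x j * b := by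
    intro v
    apply hr.ker
    rw [hA', show π (v : Fin k → S) = 0 from v.2, map_zero]
  choose b hb using hex
  let c : LinearMap.ker π →ₗ[S] S :=
    { toFun := b
      map_add' := by
        intro v w
        apply mul_left_cancel₀ hxj
        rw [← hb, mul_add, ← hb, ← hb, ← map_add]
        rfl
      map_smul' := by
        intro s v
        apply mul_left_cancel₀ hxj
        rw [← hb, RingHom.id_apply, smul_eq_mul, mul_left_comm, ← hb, ← smul_eq_mul, ← map_smul]
        rfl }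
  obtain ⟨g, hg⟩ := horrocks_ext' hx hQ j π hπ
    (fun c => horrocks_ext hx hM hr h12 h13 h23 hN π hπ c) c
  let B : (Fin k → S) →ₗ[S] S := A - x j • g
  have hB : LinearMap.ker π ≤ LinearMap.ker B := by
    intro v hv
    rw [LinearMap.mem_ker]
    have h1 := hb ⟨v, hv⟩
    have h2 := hg ⟨v, hv⟩
    simp only [B, LinearMap.sub_apply, LinearMap.smul_apply, smul_eq_mul]
    rw [sub_eq_zero]
    calc A v = x j * b ⟨v, hv⟩ := h1
      _ = x j * g v := by rw [← h2]; rfl
  let ψ : (M →ₗ[S] S) →ₗ[S] S :=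
    ((LinearMap.ker π).liftQ B hB) ∘ₗ (π.quotKerEquivOfSurjective hπ).symm.toLinearMap
  have hψ : ∀ v, ψ (π v) = B v := by
    intro v
    have h1 : (π.quotKerEquivOfSurjective hπ).symm (π v) = (LinearMap.ker π).mkQ v := by
      rw [LinearEquiv.symm_apply_eq]
      rfl
    simp only [ψ, LinearMap.comp_apply, LinearEquiv.coe_coe, h1]
    exact Submodule.liftQ_apply _ _ _
  obtain ⟨m, hm⟩ := Bun.reflexive hx hM (fun h => h12 (hr.inj h)) ψ
  refine ⟨m, fun q => ?_⟩
  obtain ⟨v, rfl⟩ := hπ q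
  rw [← hm, hψ]
  simp only [B, LinearMap.sub_apply, LinearMap.smul_apply, smul_eq_mul, map_sub, map_mul, hr.xj,
    zero_mul, sub_zero]
  exact hA' v

/-- (H3) The lifting theorem. -/
theorem horrocks [CharZero K] [Finite ι] (hx : Coord K x) (hM : Bun x M) (hr : RS x j f x')
    [Module K M] [IsScalarTower K S M] {E : Derivation K S S} (hE : IsEuler x E)
    {ε : M →ₗ[K] M} (hε : IsConn E ε) (hd : Diag ε)
    {i₁ i₂ i₃ : ι'} (h12 : i₁ ≠ i₂) (h13 : i₁ ≠ i₃) (h23 : i₂ ≠ i₃)
    (hN : Gen2 S' (M →ₗ[S] S')) : Gen2 S M := by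
  classical
  have := hx.isDomain
  have := hx.noeth
  have hx' := hr.coord hx
  have := hx'.isDomain
  have : Nonempty ι' := ⟨i₁⟩
  have := hM.fin
  obtain ⟨φ₁, φ₂, hφ⟩ := id hN
  have hind : ∀ a b : S', a • φ₁ + b • φ₂ = 0 → a = 0 ∧ b = 0 :=
    fun a b h => Bun.gen2_indep hx' (Bun.dual hx hM hr) φ₁ φ₂ hφ a b h
  obtain ⟨α₁, α₂, hα⟩ := h2_alpha hφ hind
  obtain ⟨m₁, hm₁⟩ := h2_point hx hM hr h12 h13 h23 hN α₁
  obtain ⟨m₂, hm₂⟩ := h2_point hx hM hr h12 h13 h23 hN α₂
  -- values of functionals on `m₁`, `m₂`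
  have hval : ∀ (θ : M →ₗ[S] S') (a b : S'), θ = a • φ₁ + b • φ₂ → θ m₁ = a ∧ θ m₂ = b := by
    intro θ a b hθ
    obtain ⟨k, q, hq⟩ := Bun.cofinite hx hM (S₁ := S) (Sb := S') hr.surj (f i₁) θ
    set y : S' := algebraMap S S' (x (f i₁) ^ k) with hy
    have hy0 : y ≠ 0 := by
      rw [hy, map_pow, hr.map]
      exact pow_ne_zero _ (hx'.prime_x i₁).ne_zero
    have h1 : (Algebra.linearMap S S') ∘ₗ q = (y * a) • φ₁ + (y * b) • φ₂ := by
      ext m
      have := hq m
      simp only [LinearMap.comp_apply, Algebra.linearMap_apply, LinearMap.add_apply,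
        LinearMap.smul_apply, smul_eq_mul]
      rw [this, hθ]
      simp only [LinearMap.add_apply, LinearMap.smul_apply, smul_eq_mul]
      ring
    have h2 : (α₁ q - y * a) • φ₁ + (α₂ q - y * b) • φ₂ = 0 := by
      ext m
      have := LinearMap.congr_fun ((hα q).symm.trans h1) m
      simp only [LinearMap.add_apply, LinearMap.smul_apply, smul_eq_mul, LinearMap.zero_apply]
        at this ⊢
      linear_combination this
    obtain ⟨h3, h4⟩ := hind _ _ h2
    constructor
    · apply mul_left_cancel₀ hy0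
      rw [← hq, hm₁, sub_eq_zero.1 h3]
    · apply mul_left_cancel₀ hy0
      rw [← hq, hm₂, sub_eq_zero.1 h4]
  -- graded Nakayama
  obtain ⟨u, -, hu⟩ := exists_hom_gen hx hE hε hd 2 ![m₁, m₂] (by
    intro m
    obtain ⟨a₁, ha₁⟩ := hr.surj (φ₁ m)
    obtain ⟨a₂, ha₂⟩ := hr.surj (φ₂ m)
    obtain ⟨n, hn⟩ := Bun.torsionless hx hM hr (m - (a₁ • m₁ + a₂ • m₂)) (by
      intro θ
      obtain ⟨a, b, hab⟩ := hφ θ
      obtain ⟨h1, h2⟩ := hval θ a b hab
      rw [map_sub, map_add, map_smul, map_smul, h1, h2, Algebra.smul_def, Algebra.smul_def, ha₁,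
        ha₂, hab]
      simp only [LinearMap.add_apply, LinearMap.smul_apply, smul_eq_mul]
      ring)
    refine Submodule.mem_sup.2 ⟨a₁ • m₁ + a₂ • m₂, ?_, x j • n, ?_, ?_⟩
    · refine Submodule.add_mem _ (Submodule.smul_mem _ _ ?_) (Submodule.smul_mem _ _ ?_)
      · exact Submodule.subset_span ⟨0, rfl⟩
      · exact Submodule.subset_span ⟨1, rfl⟩
    · exact Submodule.smul_mem_smul (Ideal.subset_span ⟨j, rfl⟩) trivial
    · rw [← hn]; abel)
  refine ⟨u 0, u 1, fun m => ?_⟩
  have hm : m ∈ Submodule.span S (Set.range u) := by rw [hu]; trivial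
  obtain ⟨c, hc⟩ := (Submodule.mem_span_range_iff_exists_fun S).1 hm
  rw [Fin.sum_univ_two] at hc
  exact ⟨c 0, c 1, hc.symm⟩

end rowH

end Pool.Agent.Lib.MP_745d3a_ag.PF

end

section

set_option autoImplicit false

open MvPolynomial

namespace Pool.Agent.Lib.MP_745d3a_ag.PF

section rowG1

variable {K S ι M : Type*} [Field K] [CommRing S] [Algebra K S] {x : ι → S}

/-- Restriction to the line where all coordinates but `x i₀` vanish. -/
noncomputable def g1phi [DecidableEq ι] (hx : Coord K x) (i₀ : ι) : S →ₐ[K] Polynomial K :=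
  (aeval (fun i => if i = i₀ then (Polynomial.X : Polynomial K) else 0)).comp
    hx.equiv.symm.toAlgHom

lemma g1phi_x [DecidableEq ι] (hx : Coord K x) (i₀ i : ι) :
    g1phi hx i₀ (x i) = if i = i₀ then (Polynomial.X : Polynomial K) else 0 := by
  show (aeval (fun i => if i = i₀ then (Polynomial.X : Polynomial K) else 0))
    (hx.equiv.symm (x i)) = _
  rw [hx.symm_x, aeval_X]

lemma g1phi_aeval [DecidableEq ι] (hx : Coord K x) (i₀ : ι) (P : Polynomial K) :
    g1phi hx i₀ (Polynomial.aeval (x i₀) P) = P := by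
  rw [← Polynomial.aeval_algHom_apply, g1phi_x, if_pos rfl, Polynomial.aeval_X_left_apply]

lemma g1phi_sub_mem [DecidableEq ι] (hx : Coord K x) (i₀ : ι) (a : S) :
    a - Polynomial.aeval (x i₀) (g1phi hx i₀ a) ∈ Ideal.span (x '' {i₀}ᶜ) := by
  refine hx.induction (P := fun a => a - Polynomial.aeval (x i₀) (g1phi hx i₀ a) ∈
    Ideal.span (x '' {i₀}ᶜ)) ?_ ?_ ?_ a
  · intro c
    rw [AlgHom.commutes]
    simp
  · intro a b ha hb
    have := Ideal.add_mem _ ha hb
    rw [map_add, map_add]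
    convert this using 1
    ring
  · intro a i ha
    rw [map_mul, map_mul, g1phi_x]
    by_cases hi : i = i₀
    · subst hi
      rw [if_pos rfl, Polynomial.aeval_X, ← sub_mul]
      exact Ideal.mul_mem_right _ _ ha
    · rw [if_neg hi, map_zero, mul_zero, sub_zero]
      exact Ideal.mul_mem_left _ _ (Ideal.subset_span ⟨i, hi, rfl⟩)

lemma g1phi_eq_zero [DecidableEq ι] (hx : Coord K x) (i₀ : ι) (a : S) :
    g1phi hx i₀ a = 0 ↔ a ∈ Ideal.span (x '' {i₀}ᶜ) := by
  constructor
  · intro h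
    have := g1phi_sub_mem hx i₀ a
    rwa [h, map_zero, sub_zero] at this
  · intro h
    have h1 : Ideal.span (x '' {i₀}ᶜ) ≤ RingHom.ker (g1phi hx i₀).toRingHom := by
      rw [Ideal.span_le]
      rintro _ ⟨i, hi, rfl⟩
      show g1phi hx i₀ (x i) = 0
      have hi' : i ≠ i₀ := hi
      rw [g1phi_x, if_neg hi']
    exact h1 h

lemma g1_der_aeval {Δ : Derivation K S S} {i₀ : ι} (hΔ0 : Δ (x i₀) = 1) (P : Polynomial K) :
    Δ (Polynomial.aeval (x i₀) P) = Polynomial.aeval (x i₀) (Polynomial.derivative P) := by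
  rw [Derivation.map_aeval, hΔ0, smul_eq_mul, mul_one]

lemma g1_der_mem {Δ : Derivation K S S} {i₀ : ι} (hΔ : ∀ i, i ≠ i₀ → Δ (x i) = 0) {a : S}
    (ha : a ∈ Ideal.span (x '' {i₀}ᶜ)) : Δ a ∈ Ideal.span (x '' {i₀}ᶜ) := by
  induction ha using Submodule.span_induction with
  | mem a ha =>
    obtain ⟨i, hi, rfl⟩ := ha
    rw [hΔ i hi]
    exact Ideal.zero_mem _
  | zero => rw [map_zero]; exact Ideal.zero_mem _
  | add a b _ _ ha hb => rw [map_add]; exact Ideal.add_mem _ ha hb
  | smul c a ha' ha =>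
    rw [smul_eq_mul, Derivation.leibniz, smul_eq_mul, smul_eq_mul]
    exact Ideal.add_mem _ (Ideal.mul_mem_left _ _ ha) (Ideal.mul_mem_right _ _ ha')

variable [AddCommGroup M] [Module K M] [Module S M] [IsScalarTower K S M] [CharZero K]

omit [IsScalarTower K S M] [CharZero K] in
lemma g1_delta_mem {Δ : Derivation K S S} {i₀ : ι} (hΔ : ∀ i, i ≠ i₀ → Δ (x i) = 0)
    {δ : M →ₗ[K] M} (hδ : IsConn Δ δ) {w : M}
    (hw : w ∈ Ideal.span (x '' {i₀}ᶜ) • (⊤ : Submodule S M)) :
    δ w ∈ Ideal.span (x '' {i₀}ᶜ) • (⊤ : Submodule S M) := by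
  refine Submodule.smul_induction_on hw ?_ ?_
  · intro a ha m _
    rw [hδ]
    exact Submodule.add_mem _ (Submodule.smul_mem_smul (g1_der_mem hΔ ha) Submodule.mem_top)
      (Submodule.smul_mem_smul ha Submodule.mem_top)
  · intro u v hu hv
    rw [map_add]
    exact Submodule.add_mem _ hu hv

/-- Horizontal elements which are dependent over `K[t]` are dependent over `K`. -/
lemma g1_dep {Δ : Derivation K S S} {i₀ : ι} (hΔ0 : Δ (x i₀) = 1)
    (hΔ : ∀ i, i ≠ i₀ → Δ (x i) = 0) {δ : M →ₗ[K] M} (hδ : IsConn Δ δ) {n : ℕ} (v : Fin n → M)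
    (hv : ∀ i, δ (v i) = 0) (N : ℕ) : ∀ P : Fin n → Polynomial K, (∀ i, (P i).natDegree ≤ N) →
      P ≠ 0 → ∑ i, Polynomial.aeval (x i₀) (P i) • v i ∈
        Ideal.span (x '' {i₀}ᶜ) • (⊤ : Submodule S M) →
      ∃ c : Fin n → K, c ≠ 0 ∧ ∑ i, c i • v i ∈
        Ideal.span (x '' {i₀}ᶜ) • (⊤ : Submodule S M) := by
  induction N with
  | zero =>
    intro P hP hP0 hW
    refine ⟨fun i => (P i).coeff 0, ?_, ?_⟩
    · intro h
      apply hP0
      funext i
      rw [Polynomial.eq_C_of_natDegree_le_zero (hP i)]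
      have := congrFun h i
      simp only [Pi.zero_apply] at this
      rw [this, Polynomial.C_0]
      rfl
    · convert hW using 1
      refine Finset.sum_congr rfl fun i _ => ?_
      conv_rhs => rw [Polynomial.eq_C_of_natDegree_le_zero (hP i)]
      rw [Polynomial.aeval_C, algebraMap_smul]
  | succ N ih =>
    intro P hP hP0 hW
    by_cases hd : (fun i => Polynomial.derivative (P i)) = 0
    · refine ⟨fun i => (P i).coeff 0, ?_, ?_⟩
      · intro h
        apply hP0
        funext i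
        have h1 : (P i).natDegree = 0 :=
          Polynomial.derivative_eq_zero.mp (congrFun hd i)
        rw [Polynomial.eq_C_of_natDegree_le_zero h1.le]
        have := congrFun h i
        simp only [Pi.zero_apply] at this
        rw [this, Polynomial.C_0]
        rfl
      · convert hW using 1
        refine Finset.sum_congr rfl fun i _ => ?_
        have h1 : (P i).natDegree = 0 :=
          Polynomial.derivative_eq_zero.mp (congrFun hd i)
        conv_rhs => rw [Polynomial.eq_C_of_natDegree_le_zero h1.le]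
        rw [Polynomial.aeval_C, algebraMap_smul]
    · refine ih (fun i => Polynomial.derivative (P i)) ?_ hd ?_
      · intro i
        have := Polynomial.natDegree_derivative_le (P i)
        have := hP i
        omega
      · have h1 := g1_delta_mem hΔ hδ hW
        rw [map_sum] at h1
        convert h1 using 1
        refine Finset.sum_congr rfl fun i _ => ?_
        rw [hδ, hv i, smul_zero, add_zero, g1_der_aeval hΔ0]

/-- Taylor expansion. -/
lemma g1_taylor [Finite ι] (hx : Coord K x) {E : Derivation K S S} (hE : IsEuler x E)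
    {ε : M →ₗ[K] M} (hε : IsConn E ε) (hd : Diag ε) [Module.Finite S M] (i₀ : ι)
    {Δ : Derivation K S S} (hΔ0 : Δ (x i₀) = 1)
    {δ : M →ₗ[K] M} (hδ : IsConn Δ δ) (hdeg : ∀ m, ε (δ m) = δ (ε m) - δ m) (m : M) (d : ℤ)
    (hm : ε m = (d : K) • m) :
    ∃ m₀ n : M, m = m₀ + x i₀ • n ∧ δ m₀ = 0 ∧ ε m₀ = (d : K) • m₀ := by
  have hdk : ∀ k : ℕ, ε (δ^[k] m) = ((d - k : ℤ) : K) • δ^[k] m := by
    intro k
    induction k with
    | zero => simpa using hm
    | succ k ih =>
      rw [Function.iterate_succ_apply', hdeg, ih, map_smul]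
      push_cast
      module
  obtain ⟨b, hb⟩ := exists_bdd hx hE hε hd
  have hz : ∃ k : ℕ, δ^[k + 1] m = 0 := by
    refine ⟨(d - b).toNat, ?_⟩
    have h1 := hb (d - ((d - b).toNat + 1 : ℕ)) (by omega) (δ^[(d - b).toNat + 1] m)
    rwa [comp_of_eig (hdk _)] at h1
  obtain ⟨k, hk⟩ := hz
  have key : ∀ k : ℕ, ∃ (T n : M) (c : K), m = T + x i₀ • n ∧ ε T = (d : K) • T ∧
      δ T = c • (x i₀ ^ k • δ^[k + 1] m) := by
    intro k
    induction k with
    | zero =>
      refine ⟨m, 0, 1, by simp, hm, by simp⟩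
    | succ k ih =>
      obtain ⟨T, n, c, h1, h2, h3⟩ := ih
      have hk1 : ((k : K) + 1) ≠ 0 := by exact_mod_cast Nat.succ_ne_zero k
      refine ⟨T - (c / (k + 1)) • (x i₀ ^ (k + 1) • δ^[k + 1] m),
        n + (c / (k + 1)) • (x i₀ ^ k • δ^[k + 1] m), -(c / (k + 1)), ?_, ?_, ?_⟩
      · conv_lhs => rw [h1]
        rw [smul_add, smul_comm (x i₀) (c / ((k : K) + 1)), smul_smul (x i₀), ← pow_succ']
        abel
      · have h4 : ε (x i₀ ^ (k + 1) • δ^[k + 1] m) = (d : K) • (x i₀ ^ (k + 1) • δ^[k + 1] m) := by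
          rw [hε, Derivation.leibniz_pow, hE, hdk, smul_comm (x i₀ ^ (k + 1)),
            Nat.add_sub_cancel, smul_eq_mul, ← pow_succ, ← Nat.cast_smul_eq_nsmul K,
            smul_assoc]
          push_cast
          module
        rw [map_sub, map_smul, h2, h4, smul_sub, smul_comm]
      · have h4 : δ (x i₀ ^ (k + 1) • δ^[k + 1] m) =
            ((k : K) + 1) • (x i₀ ^ k • δ^[k + 1] m) + x i₀ ^ (k + 1) • δ^[k + 1 + 1] m := by
          rw [hδ, Derivation.leibniz_pow, hΔ0, Nat.add_sub_cancel, smul_eq_mul, mul_one,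
            ← Nat.cast_smul_eq_nsmul K, smul_assoc, Function.iterate_succ_apply' δ (k + 1)]
          push_cast
          rfl
        rw [map_sub, map_smul, h3, h4, smul_add, smul_smul (c / ((k : K) + 1)),
          div_mul_cancel₀ c hk1, neg_smul]
        abel
  obtain ⟨T, n, c, h1, h2, h3⟩ := key k
  refine ⟨T, n, h1, ?_, h2⟩
  rw [h3, hk, smul_zero, smul_zero]

/-- Cone lemma. -/
theorem cone [Finite ι] (hx : Coord K x) {E : Derivation K S S} (hE : IsEuler x E)
    {ε : M →ₗ[K] M} (hε : IsConn E ε) (hd : Diag ε) [Module.Finite S M] (i₀ : ι)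
    {Δ : Derivation K S S} (hΔ0 : Δ (x i₀) = 1) (hΔ : ∀ i, i ≠ i₀ → Δ (x i) = 0)
    {δ : M →ₗ[K] M} (hδ : IsConn Δ δ) (hdeg : ∀ m, ε (δ m) = δ (ε m) - δ m) (r : ℕ)
    (hloc : ∃ s, s ∉ Ideal.span (x '' {i₀}ᶜ) ∧ ∃ m : Fin r → M,
      ∀ v, s • v ∈ Submodule.span S (Set.range m)) :
    ∃ l : Fin r → M, (∀ k, δ (l k) = 0) ∧ (∀ k, ∃ d : ℤ, ε (l k) = (d : K) • l k) ∧
      Submodule.span S (Set.range l) = ⊤ := by
  classical
  obtain ⟨s, hs, m, hm⟩ := hloc
  set p₀ : Ideal S := Ideal.span (x '' {i₀}ᶜ) with hp₀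
  set W : Submodule K M := (p₀ • (⊤ : Submodule S M)).restrictScalars K with hW
  -- dependence
  have hdep : ∀ v : Fin (r + 1) → M, (∀ i, v i ∈ {v | δ v = 0 ∧ ∃ d : ℤ, ε v = (d : K) • v}) →
      ∃ c : Fin (r + 1) → K, c ≠ 0 ∧ ∑ i, c i • v i ∈ W := by
    intro v hv
    have h1 : ∀ i, ∃ a : Fin r → S, ∑ j, a j • m j = s • v i := fun i =>
      (Submodule.mem_span_range_iff_exists_fun S).mp (hm (v i))
    choose a ha using h1
    obtain ⟨b, hb, i1, hi1⟩ : ∃ b : Fin (r + 1) → Polynomial K,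
        (∑ i, b i • (fun j => g1phi hx i₀ (a i j)) = 0) ∧ ∃ i, b i ≠ 0 := by
      have : ¬ LinearIndependent (Polynomial K) (fun i j => g1phi hx i₀ (a i j)) := by
        intro hind
        have := hind.fintype_card_le_finrank
        rw [Module.finrank_fin_fun, Fintype.card_fin] at this
        omega
      rw [Fintype.not_linearIndependent_iff] at this
      exact this
    have h2 : ∑ i, (s * Polynomial.aeval (x i₀) (b i)) • v i ∈ p₀ • (⊤ : Submodule S M) := by
      have h3 : ∑ i, (s * Polynomial.aeval (x i₀) (b i)) • v i =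
          ∑ j, (∑ i, Polynomial.aeval (x i₀) (b i) * a i j) • m j := by
        simp only [Finset.sum_smul]
        rw [Finset.sum_comm]
        refine Finset.sum_congr rfl fun i _ => ?_
        rw [mul_comm, mul_smul, ← ha i, Finset.smul_sum]
        exact Finset.sum_congr rfl fun j _ => by rw [smul_smul]
      rw [h3]
      refine Submodule.sum_mem _ fun j _ => Submodule.smul_mem_smul ?_ Submodule.mem_top
      rw [hp₀, ← g1phi_eq_zero hx, map_sum]
      have h4 := congrFun hb j
      simp only [Finset.sum_apply, Pi.smul_apply, smul_eq_mul, Pi.zero_apply] at h4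
      rw [← h4]
      exact Finset.sum_congr rfl fun i _ => by rw [map_mul, g1phi_aeval]
    have h5 : ∑ i, Polynomial.aeval (x i₀) (g1phi hx i₀ s * b i) • v i ∈
        p₀ • (⊤ : Submodule S M) := by
      have h6 : ∑ i, Polynomial.aeval (x i₀) (g1phi hx i₀ s * b i) • v i =
          ∑ i, (s * Polynomial.aeval (x i₀) (b i)) • v i -
          ∑ i, ((s - Polynomial.aeval (x i₀) (g1phi hx i₀ s)) *
            Polynomial.aeval (x i₀) (b i)) • v i := by
        rw [← Finset.sum_sub_distrib]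
        refine Finset.sum_congr rfl fun i _ => ?_
        rw [← sub_smul, map_mul]
        congr 1
        ring
      rw [h6]
      refine Submodule.sub_mem _ h2 (Submodule.sum_mem _ fun i _ => ?_)
      exact Submodule.smul_mem_smul (Ideal.mul_mem_right _ _ (g1phi_sub_mem hx i₀ s))
        Submodule.mem_top
    have hs0 : g1phi hx i₀ s ≠ 0 := by
      rw [Ne, g1phi_eq_zero]
      exact hs
    exact g1_dep hΔ0 hΔ hδ v (fun i => (hv i).1)
      (Finset.univ.sup fun i => (g1phi hx i₀ s * b i).natDegree)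
      (fun i => g1phi hx i₀ s * b i)
      (fun i => Finset.le_sup (f := fun i => (g1phi hx i₀ s * b i).natDegree)
        (Finset.mem_univ i))
      (fun h => mul_ne_zero hs0 hi1 (congrFun h i1)) h5
  obtain ⟨l, hl, hspan⟩ := exists_span_of_dep W _ r hdep
  have hl' : ∀ k, δ (l k) = 0 ∧ ∃ d : ℤ, ε (l k) = (d : K) • l k := by
    intro k
    rcases hl k with h | h
    · exact h
    · rw [h]
      exact ⟨map_zero _, 0, by rw [map_zero, smul_zero]⟩
  refine ⟨l, fun k => (hl' k).1, fun k => (hl' k).2, ?_⟩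
  rw [eq_top_iff]
  intro v _
  have hpW : ∀ w ∈ W, w ∈ Ideal.span (Set.range x) • (⊤ : Submodule S M) := by
    intro w hw
    exact Submodule.smul_mono_left (Ideal.span_mono (Set.image_subset_range _ _)) hw
  refine nakayama hx hE hε hd (Submodule.span S (Set.range l)) ?_ ?_ v
  · intro n hn
    induction hn using Submodule.span_induction with
    | mem n hn =>
      obtain ⟨i, rfl⟩ := hn
      obtain ⟨d, hd⟩ := (hl' i).2
      rw [hd, ← algebraMap_smul S]
      exact Submodule.smul_mem _ _ (Submodule.subset_span ⟨i, rfl⟩)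
    | zero => rw [map_zero]; exact Submodule.zero_mem _
    | add u v _ _ hu hv => rw [map_add]; exact Submodule.add_mem _ hu hv
    | smul a u hu' hu =>
      rw [hε]
      exact Submodule.add_mem _ (Submodule.smul_mem _ _ hu') (Submodule.smul_mem _ _ hu)
  · intro v
    obtain ⟨t, ht, _⟩ := exists_comp hd v
    have h1 : ∀ d, comp ε d v ∈ (Submodule.span S (Set.range l)) ⊔
        Ideal.span (Set.range x) • (⊤ : Submodule S M) := by
      intro d
      obtain ⟨m₀, n, e1, e2, e3⟩ := g1_taylor hx hE hε hd i₀ hΔ0 hδ hdeg (comp ε d v) d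
        (comp_eig hd d v)
      rw [e1]
      refine Submodule.add_mem _ ?_ (Submodule.mem_sup_right
        (Submodule.smul_mem_smul (Ideal.subset_span ⟨i₀, rfl⟩) Submodule.mem_top))
      obtain ⟨u, hu, w, hw, huw⟩ := Submodule.mem_sup.mp (hspan m₀ ⟨e2, d, e3⟩)
      rw [← huw]
      exact Submodule.add_mem_sup (Submodule.span_le_restrictScalars K S _ hu) (hpW w hw)
    have h2 : v ∈ (Submodule.span S (Set.range l)) ⊔
        Ideal.span (Set.range x) • (⊤ : Submodule S M) := by
      rw [ht]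
      exact Submodule.sum_mem _ fun d _ => h1 d
    obtain ⟨u, hu, w, hw, rfl⟩ := Submodule.mem_sup.mp h2
    exact ⟨u, hu, by rw [add_sub_cancel_left]; exact hw⟩

end rowG1

end Pool.Agent.Lib.MP_745d3a_ag.PF

end

section

set_option autoImplicit false

open MvPolynomial

namespace Pool.Agent.Lib.MP_745d3a_ag.PF

section rowG2

variable {K S ι M : Type*} [Field K] [CommRing S] [Algebra K S] {x : ι → S}
  [AddCommGroup M] [Module K M] [Module S M] [IsScalarTower K S M]

/-- The connection on multiples of `w`. -/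
private lemma g2_w {D : Derivation K S S} {δ : M →ₗ[K] M} (hδ : IsConn D δ) {w : S} {β : K}
    (hw : D w = β • w) (m : M) : δ (w • m) = w • (δ m + β • m) := by
  rw [hδ, hw, smul_assoc, smul_add, smul_comm w β m, add_comm]

private lemma g2_wpow {D : Derivation K S S} {δ : M →ₗ[K] M} (hδ : IsConn D δ) {w : S} {β : K}
    (hw : D w = β • w) (k : ℕ) (m : M) :
    δ (w ^ k • m) = w ^ k • (δ m + ((k : K) * β) • m) := by
  induction k generalizing m with
  | zero => simp
  | succ k ih =>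
    rw [pow_succ, mul_smul (w ^ k) w m, ih (w • m), g2_w hδ hw,
      mul_smul (w ^ k) w (δ m + (((k + 1 : ℕ) : K) * β) • m), smul_comm ((k : K) * β) w m,
      ← smul_add w]
    push_cast
    rw [add_mul, one_mul, add_smul, add_assoc, add_comm (β • m)]

omit [IsScalarTower K S M] in
private lemma g2_0 {D : Derivation K S S} {δ : M →ₗ[K] M} (hδ : IsConn D δ) {a : S}
    (ha : D a = 0) (m : M) : δ (a • m) = a • δ m := by
  rw [hδ, ha, zero_smul, zero_add]

/-- Separation of the components `w ^ j • n j`. -/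
private lemma g2_sep [CharZero K] {D : Derivation K S S} {δ : M →ₗ[K] M} (hδ : IsConn D δ) {w : S}
    {β : K} (hβ : β ≠ 0) (hw : D w = β • w) (W : Submodule K M) (hW : ∀ u ∈ W, δ u ∈ W)
    (k : ℕ) : ∀ n : ℕ → M, (∀ j, δ (δ (n j)) = 0) →
      ∑ j ∈ Finset.range k, w ^ j • n j ∈ W → ∀ j < k, w ^ j • n j ∈ W := by
  induction k with
  | zero => intro n _ _ j hj; omega
  | succ k ih =>
    intro n hn hsum
    -- the operator `δ - kβ`
    have hop : ∀ u ∈ W, δ u - ((k : K) * β) • u ∈ W := fun u hu =>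
      W.sub_mem (hW u hu) (W.smul_mem _ hu)
    set T : M →ₗ[K] M := δ - ((k : K) * β) • LinearMap.id with hT
    have hTa : ∀ u, T u = δ u - ((k : K) * β) • u := fun u => rfl
    have hTW : ∀ u ∈ W, T u ∈ W := fun u hu => by rw [hTa]; exact hop u hu
    -- action of `T ^ 2` on the components
    set c : ℕ → K := fun j => ((j : K) - k) * β with hc
    have hTj : ∀ j (m : M), T (w ^ j • m) = w ^ j • (δ m + c j • m) := by
      intro j m
      rw [hTa, g2_wpow hδ hw, smul_comm _ (w ^ j) m, ← smul_sub]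
      congr 1
      rw [hc]
      simp only
      rw [sub_mul, sub_smul]
      abel
    set n' : ℕ → M := fun j => δ (δ (n j) + c j • n j) + c j • (δ (n j) + c j • n j) with hn'
    have hT2 : ∀ j, T (T (w ^ j • n j)) = w ^ j • n' j := by
      intro j
      rw [hTj, hTj]
    have hn'0 : ∀ j, δ (δ (n' j)) = 0 := by
      intro j
      simp only [hn', map_add, map_smul, hn, smul_zero, add_zero, map_zero]
    have hn'k : n' k = 0 := by
      have h0 : c k = 0 := by simp [hc]
      simp only [hn', h0, zero_smul, add_zero, hn]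
    have hsum' : ∑ j ∈ Finset.range k, w ^ j • n' j ∈ W := by
      have h1 : T (T (∑ j ∈ Finset.range (k + 1), w ^ j • n j)) ∈ W := hTW _ (hTW _ hsum)
      rw [map_sum, map_sum, Finset.sum_range_succ] at h1
      simp only [hT2, hn'k, smul_zero, add_zero] at h1
      exact h1
    have h2 := ih n' hn'0 hsum'
    -- recover `n j`
    have h3 : ∀ j < k, w ^ j • n j ∈ W := by
      intro j hj
      have hcj : c j ≠ 0 := by
        simp only [hc]
        refine mul_ne_zero ?_ hβ
        rw [sub_ne_zero]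
        exact_mod_cast (ne_of_lt hj)
      have h4 : n' j = (2 * c j) • δ (n j) + (c j * c j) • n j := by
        simp only [hn', map_add, map_smul, hn, smul_add, smul_smul]
        rw [zero_add, two_mul, add_smul]
        abel
      have h5 : δ (n' j) = (c j * c j) • δ (n j) := by
        rw [h4, map_add, map_smul, map_smul, hn, smul_zero, zero_add]
      have h6 : (c j * c j) • n j = n' j - (2 * (c j)⁻¹) • δ (n' j) := by
        rw [h5, smul_smul, h4]
        have : 2 * (c j)⁻¹ * (c j * c j) = 2 * c j := by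
          field_simp
        rw [this]
        abel
      have h7 : w ^ j • δ (n' j) = δ (w ^ j • n' j) - ((j : K) * β) • (w ^ j • n' j) := by
        rw [g2_wpow hδ hw, smul_add, smul_comm (w ^ j) ((j : K) * β) (n' j)]
        abel
      have h8 : (c j * c j) • (w ^ j • n j) ∈ W := by
        rw [smul_comm, h6, smul_sub, smul_comm (w ^ j) (2 * (c j)⁻¹) (δ (n' j)), h7]
        exact W.sub_mem (h2 j hj) (W.smul_mem _ (W.sub_mem (hW _ (h2 j hj))
          (W.smul_mem _ (h2 j hj))))
      have h9 := W.smul_mem (c j * c j)⁻¹ h8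
      rwa [smul_smul, inv_mul_cancel₀ (mul_ne_zero hcj hcj), one_smul] at h9
    intro j hj
    rcases Nat.lt_succ_iff_lt_or_eq.mp hj with hj | rfl
    · exact h3 j hj
    · rw [Finset.sum_range_succ] at hsum
      have h4 := W.sub_mem hsum (W.sum_mem fun i hi => h3 i (Finset.mem_range.mp hi))
      rwa [add_sub_cancel_left] at h4

/-- The two claims on homogeneous elements. -/
private lemma g2_claims [CharZero K] [Finite ι] {E D : Derivation K S S} {ε δ : M →ₗ[K] M}
    (h : Sys x E D ε δ) (i₀ : ι) (β : K) (hβ : β ≠ 0) (hD0 : D (x i₀) = β • x i₀)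
    (hnil : ∀ m, ∃ n, δ (δ m) = x i₀ • n) (d : ℤ) (m : M) (hm : ε m = (d : K) • m) :
    (∃ n₀ v : M, δ (δ n₀) = 0 ∧ ε n₀ = (d : K) • n₀ ∧ ε v = ((d - 1 : ℤ) : K) • v ∧
      m = n₀ + x i₀ • v) ∧
    (∀ k : ℕ, 1 ≤ k → ∃ n : M, ε n = (d : K) • n ∧ δ n + ((k : K) * β) • n = m) := by
  have := h.bun.fin
  obtain ⟨b, hb⟩ := exists_bdd h.cx h.eu h.cE h.dg
  have hEw : E (x i₀) = ((1 : ℤ) : K) • x i₀ := by rw [h.eu i₀]; simp
  have hεw : ∀ (e : ℤ) (v : M), ε v = ((e - 1 : ℤ) : K) • v →
      ε (x i₀ • v) = (e : K) • (x i₀ • v) := by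
    intro e v hv
    rw [h.cE, h.eu i₀, hv]
    push_cast
    rw [sub_smul, one_smul, smul_sub, smul_comm (x i₀) (e : K) v]
    abel
  have key : ∀ t : ℕ, ∀ d : ℤ, d < b + t → ∀ m : M, ε m = (d : K) • m →
      (∃ n₀ v : M, δ (δ n₀) = 0 ∧ ε n₀ = (d : K) • n₀ ∧ ε v = ((d - 1 : ℤ) : K) • v ∧
        m = n₀ + x i₀ • v) ∧
      (∀ k : ℕ, 1 ≤ k → ∃ n : M, ε n = (d : K) • n ∧ δ n + ((k : K) * β) • n = m) := by
    intro t
    induction t with
    | zero =>
      intro d hdb m hm
      have h0 : m = 0 := by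
        have h1 := hb d (by simpa using hdb) m
        rwa [comp_of_eig hm] at h1
      subst h0
      exact ⟨⟨0, 0, by simp, by simp, by simp, by simp⟩, fun k _ => ⟨0, by simp, by simp⟩⟩
    | succ t ih =>
      intro d hdb m hm
      have ih' := ih (d - 1) (by push_cast at hdb; omega)
      -- (i)
      have hi : ∃ n₀ v : M, δ (δ n₀) = 0 ∧ ε n₀ = (d : K) • n₀ ∧ ε v = ((d - 1 : ℤ) : K) • v ∧
          m = n₀ + x i₀ • v := by
        obtain ⟨n, hn⟩ := hnil m
        have h1 : ε (δ (δ m)) = (d : K) • δ (δ m) := by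
          rw [h.comm, h.comm, hm, map_smul, map_smul]
        set n₁ := comp ε (d - 1) n with hn₁
        have h2 : δ (δ m) = x i₀ • n₁ := by
          have h3 := comp_hsmul h.cE h.dg hEw (d - 1) n
          rw [sub_add_cancel, ← hn, comp_of_eig h1] at h3
          exact h3
        have h3 : ε n₁ = ((d - 1 : ℤ) : K) • n₁ := comp_eig h.dg (d - 1) n
        obtain ⟨v₁, hv₁, hv₁'⟩ := (ih' n₁ h3).2 1 le_rfl
        obtain ⟨v₂, hv₂, hv₂'⟩ := (ih' v₁ hv₁).2 1 le_rfl
        rw [Nat.cast_one, one_mul] at hv₁' hv₂'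
        refine ⟨m - x i₀ • v₂, v₂, ?_, ?_, hv₂, by abel⟩
        · rw [map_sub, map_sub, g2_w h.cD hD0, hv₂', g2_w h.cD hD0, hv₁', h2, sub_self]
        · rw [map_sub, hm, hεw d v₂ hv₂, smul_sub]
      refine ⟨hi, ?_⟩
      intro k hk
      obtain ⟨n₀, v, hn₀, hn₀ε, hvε, hmv⟩ := hi
      obtain ⟨u, hu, hu'⟩ := (ih' v hvε).2 (k + 1) (by omega)
      have hkβ : (k : K) * β ≠ 0 := mul_ne_zero (by exact_mod_cast (by omega : k ≠ 0)) hβ
      set g : K := (k : K) * β with hg
      refine ⟨g⁻¹ • (n₀ - g⁻¹ • δ n₀) + x i₀ • u, ?_, ?_⟩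
      · rw [map_add, map_smul, map_sub, map_smul, hn₀ε, h.comm, hn₀ε, map_smul, hεw d u hu,
          smul_add]
        congr 1
        rw [smul_comm g⁻¹ (d : K), ← smul_sub, smul_comm]
      · have h1 : g • g⁻¹ • (n₀ - g⁻¹ • δ n₀) = n₀ - g⁻¹ • δ n₀ := by
          rw [smul_smul, mul_inv_cancel₀ hkβ, one_smul]
        have h2 : ((k + 1 : ℕ) : K) * β = g + β := by
          rw [hg]; push_cast; ring
        have h3 : δ (g⁻¹ • (n₀ - g⁻¹ • δ n₀)) = g⁻¹ • δ n₀ := by
          rw [map_smul, map_sub, map_smul, hn₀, smul_zero, sub_zero]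
        have h4 : g • x i₀ • u = x i₀ • g • u := smul_comm _ _ _
        rw [map_add, h3, g2_w h.cD hD0, smul_add g, h1, h4, hmv, ← hu', h2, add_smul,
          smul_add (x i₀) (δ u) (β • u), smul_add (x i₀) (δ u) (g • u + β • u),
          smul_add (x i₀) (g • u) (β • u)]
        abel
  have hdt : d < b + ((d - b + 1).toNat : ℤ) := by
    have := Int.self_le_toNat (d - b + 1)
    omega
  exact key _ d hdt m hm

/-- Every element is a sum of elements `w ^ j • n j`. -/
private lemma g2_dec [CharZero K] [Finite ι] {E D : Derivation K S S} {ε δ : M →ₗ[K] M}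
    (h : Sys x E D ε δ) (i₀ : ι) (β : K) (hβ : β ≠ 0) (hD0 : D (x i₀) = β • x i₀)
    (hnil : ∀ m, ∃ n, δ (δ m) = x i₀ • n) (m : M) :
    ∃ n : ℕ →₀ M, (∀ j, δ (δ (n j)) = 0) ∧ m = n.sum fun j y => x i₀ ^ j • y := by
  classical
  have := h.bun.fin
  obtain ⟨b, hb⟩ := exists_bdd h.cx h.eu h.cE h.dg
  have hadd : ∀ u v : M, (∃ n : ℕ →₀ M, (∀ j, δ (δ (n j)) = 0) ∧
        u = n.sum fun j y => x i₀ ^ j • y) →
      (∃ n : ℕ →₀ M, (∀ j, δ (δ (n j)) = 0) ∧ v = n.sum fun j y => x i₀ ^ j • y) →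
      (∃ n : ℕ →₀ M, (∀ j, δ (δ (n j)) = 0) ∧ u + v = n.sum fun j y => x i₀ ^ j • y) := by
    rintro u v ⟨n, hn, rfl⟩ ⟨n', hn', rfl⟩
    refine ⟨n + n', fun j => ?_, ?_⟩
    · rw [Finsupp.add_apply, map_add, map_add, hn, hn', add_zero]
    · rw [Finsupp.sum_add_index' (fun j => smul_zero _) (fun j y y' => smul_add _ _ _)]
  have hzero : ∃ n : ℕ →₀ M, (∀ j, δ (δ (n j)) = 0) ∧
      (0 : M) = n.sum fun j y => x i₀ ^ j • y :=
    ⟨0, fun j => by simp, by simp⟩
  have hmul : ∀ u : M, (∃ n : ℕ →₀ M, (∀ j, δ (δ (n j)) = 0) ∧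
        u = n.sum fun j y => x i₀ ^ j • y) →
      (∃ n : ℕ →₀ M, (∀ j, δ (δ (n j)) = 0) ∧
        x i₀ • u = n.sum fun j y => x i₀ ^ j • y) := by
    rintro u ⟨n, hn, rfl⟩
    have hinj : Function.Injective (fun j : ℕ => j + 1) := fun a b hab => by simpa using hab
    refine ⟨n.mapDomain (fun j => j + 1), ?_, ?_⟩
    · intro j
      rcases j with _ | j
      · have h0 : (n.mapDomain (fun j => j + 1)) 0 = 0 := by
          apply Finsupp.mapDomain_of_notMem_range
          rintro ⟨j, hj⟩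
          simp at hj
        rw [h0, map_zero, map_zero]
      · have h1 : (n.mapDomain (fun j => j + 1)) (j + 1) = n j :=
          Finsupp.mapDomain_apply hinj n j
        rw [h1, hn]
    · rw [Finsupp.sum_mapDomain_index (fun j => smul_zero _) (fun j y y' => smul_add _ _ _),
        Finsupp.smul_sum]
      refine Finsupp.sum_congr fun j _ => ?_
      rw [pow_succ', mul_smul]
  have key : ∀ t : ℕ, ∀ d : ℤ, d < b + t → ∀ m : M, ε m = (d : K) • m →
      ∃ n : ℕ →₀ M, (∀ j, δ (δ (n j)) = 0) ∧ m = n.sum fun j y => x i₀ ^ j • y := by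
    intro t
    induction t with
    | zero =>
      intro d hdb m hm
      have h0 : m = 0 := by
        have h1 := hb d (by simpa using hdb) m
        rwa [comp_of_eig hm] at h1
      rw [h0]
      exact hzero
    | succ t ih =>
      intro d hdb m hm
      obtain ⟨n₀, v, hn₀, -, hv, rfl⟩ := (g2_claims h i₀ β hβ hD0 hnil d m hm).1
      refine hadd _ _ ⟨Finsupp.single 0 n₀, ?_, ?_⟩
        (hmul v (ih (d - 1) (by push_cast at hdb; omega) v hv))
      · intro j
        by_cases hj : j = 0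
        · subst hj
          rw [Finsupp.single_eq_same, hn₀]
        · rw [Finsupp.single_eq_of_ne (by simpa using hj), map_zero, map_zero]
      · rw [Finsupp.sum_single_index (h := fun (j : ℕ) (y : M) => x i₀ ^ j • y) (smul_zero _),
          pow_zero, one_smul]
  obtain ⟨s, hs, _⟩ := exists_comp h.dg m
  rw [hs]
  refine Finset.sum_induction _ (fun u => ∃ n : ℕ →₀ M, (∀ j, δ (δ (n j)) = 0) ∧
    u = n.sum fun j y => x i₀ ^ j • y) hadd hzero ?_
  intro d _
  have hdt : d < b + ((d - b + 1).toNat : ℤ) := by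
    have := Int.self_le_toNat (d - b + 1)
    omega
  exact key _ d hdt _ (comp_eig h.dg d m)

/-- Polynomials in `x i₀` modulo the other variables. -/
private lemma g2_poly (hx : Coord K x) (i₀ : ι) (a : S) : ∃ q : Polynomial K,
    a - Polynomial.aeval (x i₀) q ∈ Ideal.span (x '' {i₀}ᶜ) := by
  refine hx.induction (P := fun a => ∃ q : Polynomial K,
    a - Polynomial.aeval (x i₀) q ∈ Ideal.span (x '' {i₀}ᶜ)) ?_ ?_ ?_ a
  · intro c
    exact ⟨Polynomial.C c, by simp⟩
  · rintro a b ⟨q, hq⟩ ⟨q', hq'⟩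
    refine ⟨q + q', ?_⟩
    have := Ideal.add_mem _ hq hq'
    rwa [show a - Polynomial.aeval (x i₀) q + (b - Polynomial.aeval (x i₀) q') =
      a + b - Polynomial.aeval (x i₀) (q + q') by rw [map_add]; ring] at this
  · rintro a i ⟨q, hq⟩
    by_cases hi : i = i₀
    · subst hi
      refine ⟨q * Polynomial.X, ?_⟩
      have := Ideal.mul_mem_right (x i) _ hq
      rwa [show (a - Polynomial.aeval (x i) q) * x i =
        a * x i - Polynomial.aeval (x i) (q * Polynomial.X) by
          rw [map_mul, Polynomial.aeval_X]; ring] at this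
    · refine ⟨0, ?_⟩
      rw [map_zero, sub_zero]
      exact Ideal.mul_mem_left _ _ (Ideal.subset_span ⟨i, hi, rfl⟩)

/-- Logarithmic cone lemma. -/
theorem logcone [CharZero K] [Finite ι] {E D : Derivation K S S} {ε δ : M →ₗ[K] M}
    (h : Sys x E D ε δ) (i₀ : ι) (β : K) (hβ : β ≠ 0) (hD0 : D (x i₀) = β • x i₀)
    (hD : ∀ i, i ≠ i₀ → D (x i) = 0) (hnil : ∀ m, ∃ n, δ (δ m) = x i₀ • n) : Gen2 S M := by
  classical
  have := h.cx.isDomain
  have := h.bun.fin
  set w : S := x i₀ with hw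
  have hw0 : w ≠ 0 := (h.cx.prime_x i₀).ne_zero
  set p₀ : Ideal S := Ideal.span (x '' {i₀}ᶜ) with hp₀
  have hp : p₀.IsPrime := h.cx.isPrime_span _
  have hwp : w ∉ p₀ := by
    rw [hw, hp₀, h.cx.mem_span]
    simp
  set P : Submodule S M := p₀ • (⊤ : Submodule S M) with hP
  set W : Submodule K M := P.restrictScalars K with hWdef
  -- stability of `p₀ M` under connections
  have hstab : ∀ (F : Derivation K S S) (η : M →ₗ[K] M), IsConn F η →
      (∀ i, i ≠ i₀ → F (x i) ∈ p₀) → ∀ u ∈ P, η u ∈ P := by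
    intro F η hη hF u hu
    refine Submodule.smul_induction_on hu ?_ ?_
    · intro r hr n _
      have hFr : F r ∈ p₀ := by
        induction hr using Submodule.span_induction with
        | mem r hr =>
          obtain ⟨i, hi, rfl⟩ := hr
          exact hF i hi
        | zero => rw [map_zero]; exact Ideal.zero_mem _
        | add r r' _ _ hr hr' => rw [map_add]; exact Ideal.add_mem _ hr hr'
        | smul a r hr' hr =>
          rw [smul_eq_mul, Derivation.leibniz, smul_eq_mul, smul_eq_mul]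
          exact Ideal.add_mem _ (Ideal.mul_mem_left _ _ hr)
            (Ideal.mul_mem_right _ _ hr')
      rw [hη]
      exact Submodule.add_mem _ (Submodule.smul_mem_smul hFr Submodule.mem_top)
        (Submodule.smul_mem_smul hr Submodule.mem_top)
    · intro u v hu hv
      rw [map_add]
      exact Submodule.add_mem _ hu hv
  have hδP : ∀ u ∈ P, δ u ∈ P := hstab D δ h.cD fun i hi => by
    rw [hD i hi]; exact Ideal.zero_mem _
  have hδW : ∀ u ∈ W, δ u ∈ W := hδP
  -- directness
  have hdir : ∀ (k : ℕ) (n : ℕ → M), (∀ j, δ (δ (n j)) = 0) →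
      ∑ j ∈ Finset.range k, w ^ j • n j = 0 → ∀ j < k, n j = 0 := by
    intro k n hn hsum j hj
    have h1 := g2_sep h.cD hβ hD0 (⊥ : Submodule K M) (by
      intro u hu
      rw [Submodule.mem_bot] at hu ⊢
      rw [hu, map_zero]) k n hn (by rw [Submodule.mem_bot]; exact hsum) j hj
    rw [Submodule.mem_bot] at h1
    rcases h.bun.tf _ _ h1 with h2 | h2
    · exact absurd h2 (pow_ne_zero _ hw0)
    · exact h2
  -- decomposition of the elements of `p₀ M`
  have hPdec : ∀ u ∈ P, ∃ n : ℕ →₀ M, (∀ j, δ (δ (n j)) = 0) ∧ (∀ j, n j ∈ P) ∧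
      u = n.sum fun j y => w ^ j • y := by
    have hadd : ∀ u v : M, (∃ n : ℕ →₀ M, (∀ j, δ (δ (n j)) = 0) ∧ (∀ j, n j ∈ P) ∧
          u = n.sum fun j y => w ^ j • y) →
        (∃ n : ℕ →₀ M, (∀ j, δ (δ (n j)) = 0) ∧ (∀ j, n j ∈ P) ∧
          v = n.sum fun j y => w ^ j • y) →
        (∃ n : ℕ →₀ M, (∀ j, δ (δ (n j)) = 0) ∧ (∀ j, n j ∈ P) ∧
          u + v = n.sum fun j y => w ^ j • y) := by
      rintro u v ⟨n, hn, hnP, rfl⟩ ⟨n', hn', hnP', rfl⟩
      refine ⟨n + n', fun j => ?_, fun j => ?_, ?_⟩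
      · rw [Finsupp.add_apply, map_add, map_add, hn, hn', add_zero]
      · rw [Finsupp.add_apply]; exact P.add_mem (hnP j) (hnP' j)
      · rw [Finsupp.sum_add_index' (fun j => smul_zero _) (fun j y y' => smul_add _ _ _)]
    intro u hu
    refine Submodule.smul_induction_on hu ?_ ?_
    · intro r hr n hn
      clear hn
      revert n
      induction hr using Submodule.span_induction with
      | mem r hr =>
        obtain ⟨i, hi, rfl⟩ := hr
        intro m
        obtain ⟨n, hn, hm⟩ := g2_dec h i₀ β hβ hD0 hnil m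
        refine ⟨n.mapRange (fun y => x i • y) (smul_zero _), fun j => ?_, fun j => ?_, ?_⟩
        · rw [Finsupp.mapRange_apply, g2_0 h.cD (hD i hi), g2_0 h.cD (hD i hi), hn, smul_zero]
        · rw [Finsupp.mapRange_apply]
          exact Submodule.smul_mem_smul (Ideal.subset_span ⟨i, hi, rfl⟩) Submodule.mem_top
        · rw [Finsupp.sum_mapRange_index (fun j => smul_zero _)]
          conv_lhs => rw [hm, Finsupp.smul_sum]
          refine Finsupp.sum_congr fun j _ => ?_
          rw [smul_comm]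
      | zero =>
        intro n
        exact ⟨0, fun j => by simp, fun j => P.zero_mem, by simp⟩
      | add r r' _ _ hr hr' =>
        intro n
        rw [add_smul]
        exact hadd _ _ (hr n) (hr' n)
      | smul a r _ hr =>
        intro n
        rw [smul_eq_mul, mul_comm, mul_smul]
        exact hr _
    · intro u v hu hv
      exact hadd u v hu hv
  -- if `w ^ k • n` is in `p₀ M` then so is `n`
  have hdiv : ∀ (k : ℕ) (n : M), δ (δ n) = 0 → w ^ k • n ∈ P → n ∈ P := by
    intro k n hn hk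
    obtain ⟨f, hf, hfP, hfs⟩ := hPdec _ hk
    obtain ⟨N, hN⟩ : ∃ N : ℕ, ∀ j ∈ insert k f.support, j < N := by
      refine ⟨(insert k f.support).sup id + 1, fun j hj => ?_⟩
      exact Nat.lt_succ_of_le (Finset.le_sup (f := id) hj)
    have h1 : ∑ j ∈ Finset.range N, w ^ j • (f j - if j = k then n else 0) = 0 := by
      have h2 : f.sum (fun j y => w ^ j • y) = ∑ j ∈ Finset.range N, w ^ j • f j := by
        refine Finsupp.sum_of_support_subset _ ?_ _ (fun j _ => smul_zero _)
        intro j hj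
        exact Finset.mem_range.mpr (hN j (Finset.mem_insert_of_mem hj))
      have h3 : ∑ j ∈ Finset.range N, w ^ j • (if j = k then n else 0) = w ^ k • n := by
        rw [Finset.sum_eq_single k]
        · rw [if_pos rfl]
        · intro j _ hj
          rw [if_neg hj, smul_zero]
        · intro hk'
          exact absurd (Finset.mem_range.mpr (hN k (Finset.mem_insert_self _ _))) hk'
      simp only [smul_sub, Finset.sum_sub_distrib]
      rw [h3, ← h2, ← hfs, sub_self]
    have h4 := hdir N _ (fun j => by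
      by_cases hj : j = k
      · rw [if_pos hj, map_sub, map_sub, hf, hn, sub_self]
      · rw [if_neg hj, sub_zero, hf]) h1 k (hN k (Finset.mem_insert_self _ _))
    rw [if_pos rfl, sub_eq_zero] at h4
    rw [← h4]
    exact hfP k
  -- the set of homogeneous elements of the kernel
  set H : Set M := {v | δ (δ v) = 0 ∧ ∃ d : ℤ, ε v = (d : K) • v} with hH
  have hdep : ∀ v : Fin (2 + 1) → M, (∀ i, v i ∈ H) →
      ∃ c : Fin (2 + 1) → K, c ≠ 0 ∧ ∑ i, c i • v i ∈ W := by
    intro v hv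
    obtain ⟨s, hs, m₁, m₂, hgen, -⟩ := h.bun.lf p₀ hp ⟨i₀, hwp⟩
    choose a b hab using fun i => hgen (v i)
    -- a relation modulo `p₀`
    obtain ⟨e, ⟨i₁, hi₁⟩, hea, heb⟩ : ∃ e : Fin 3 → S, (∃ i, e i ∉ p₀) ∧
        ∑ i, e i * a i ∈ p₀ ∧ ∑ i, e i * b i ∈ p₀ := by
      have : IsDomain (S ⧸ p₀) := Ideal.Quotient.isDomain p₀
      let A : Matrix (Fin 3) (Fin 3) (S ⧸ p₀) :=
        ![fun i => Ideal.Quotient.mk p₀ (a i), fun i => Ideal.Quotient.mk p₀ (b i), fun _ => 0]
      have hdet : A.det = 0 := Matrix.det_eq_zero_of_row_eq_zero 2 (fun j => rfl)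
      obtain ⟨z, hz0, hz⟩ := Matrix.exists_mulVec_eq_zero_iff.mpr hdet
      choose e he using fun i => Ideal.Quotient.mk_surjective (z i)
      refine ⟨e, ?_, ?_, ?_⟩
      · by_contra hcon
        push Not at hcon
        apply hz0
        funext i
        rw [← he i, Ideal.Quotient.eq_zero_iff_mem.mpr (hcon i)]
        rfl
      · rw [← Ideal.Quotient.eq_zero_iff_mem, map_sum]
        have h1 := congrFun hz 0
        have h2 : (A.mulVec z) 0 = ∑ i, Ideal.Quotient.mk p₀ (a i) * z i := rfl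
        rw [h2] at h1
        rw [← show (0 : Fin 3 → S ⧸ p₀) 0 = 0 from rfl, ← h1]
        refine Finset.sum_congr rfl fun i _ => ?_
        rw [map_mul, he, mul_comm]
      · rw [← Ideal.Quotient.eq_zero_iff_mem, map_sum]
        have h1 := congrFun hz 1
        have h2 : (A.mulVec z) 1 = ∑ i, Ideal.Quotient.mk p₀ (b i) * z i := rfl
        rw [h2] at h1
        rw [← show (0 : Fin 3 → S ⧸ p₀) 1 = 0 from rfl, ← h1]
        refine Finset.sum_congr rfl fun i _ => ?_
        rw [map_mul, he, mul_comm]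
    have hrel : ∑ i, (s * e i) • v i ∈ P := by
      have h1 : ∑ i, (s * e i) • v i = (∑ i, e i * a i) • m₁ + (∑ i, e i * b i) • m₂ := by
        rw [Finset.sum_smul, Finset.sum_smul, ← Finset.sum_add_distrib]
        refine Finset.sum_congr rfl fun i _ => ?_
        rw [mul_comm s, mul_smul, hab i, smul_add, smul_smul, smul_smul]
      rw [h1]
      exact P.add_mem (Submodule.smul_mem_smul hea Submodule.mem_top)
        (Submodule.smul_mem_smul heb Submodule.mem_top)
    choose q hq using fun i => g2_poly h.cx i₀ (s * e i)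
    have hrel2 : ∑ i, Polynomial.aeval w (q i) • v i ∈ P := by
      have h1 : ∑ i, Polynomial.aeval w (q i) • v i = ∑ i, (s * e i) • v i -
          ∑ i, (s * e i - Polynomial.aeval w (q i)) • v i := by
        rw [← Finset.sum_sub_distrib]
        refine Finset.sum_congr rfl fun i _ => ?_
        rw [sub_smul]
        abel
      rw [h1]
      refine P.sub_mem hrel (P.sum_mem fun i _ => ?_)
      exact Submodule.smul_mem_smul (hq i) Submodule.mem_top
    have hq1 : q i₁ ≠ 0 := by
      intro h0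
      have h1 := hq i₁
      rw [h0, map_zero, sub_zero] at h1
      rcases hp.mem_or_mem h1 with h2 | h2
      · exact hs h2
      · exact hi₁ h2
    obtain ⟨k, hk⟩ : ∃ k, (q i₁).coeff k ≠ 0 := by
      by_contra hcon
      push Not at hcon
      exact hq1 (Polynomial.ext fun k => by rw [hcon k, Polynomial.coeff_zero])
    obtain ⟨N, hN, hkN⟩ : ∃ N : ℕ, (∀ i, (q i).natDegree < N) ∧ k < N := by
      refine ⟨(Finset.univ.sup fun i => (q i).natDegree) + k + 1, fun i => ?_, by omega⟩
      have := Finset.le_sup (f := fun i => (q i).natDegree) (Finset.mem_univ i)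
      omega
    set n : ℕ → M := fun j => ∑ i, (q i).coeff j • v i with hn
    have hn0 : ∀ j, δ (δ (n j)) = 0 := by
      intro j
      simp only [hn, map_sum, map_smul]
      refine Finset.sum_eq_zero fun i _ => ?_
      rw [(hv i).1, smul_zero]
    have hsum : ∑ j ∈ Finset.range N, w ^ j • n j = ∑ i, Polynomial.aeval w (q i) • v i := by
      simp only [hn, Finset.smul_sum]
      rw [Finset.sum_comm]
      refine Finset.sum_congr rfl fun i _ => ?_
      rw [Polynomial.aeval_eq_sum_range' (hN i), Finset.sum_smul]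
      refine Finset.sum_congr rfl fun j _ => ?_
      rw [smul_comm, smul_assoc]
    have h5 := g2_sep h.cD hβ hD0 W hδW N n hn0 (by
      rw [hsum]; exact hrel2) k hkN
    have h6 : n k ∈ P := hdiv k (n k) (hn0 k) h5
    refine ⟨fun i => (q i).coeff k, fun h0 => hk (congrFun h0 i₁), h6⟩
  obtain ⟨g, hg, hspan⟩ := exists_span_of_dep W H 2 hdep
  have hg' : ∀ i, ∃ d : ℤ, ε (g i) = (d : K) • g i := by
    intro i
    rcases hg i with h1 | h1
    · exact h1.2
    · exact ⟨0, by rw [h1, map_zero, smul_zero]⟩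
  have htop : ∀ m, m ∈ Submodule.span S (Set.range g) := by
    intro m
    refine nakayama h.cx h.eu h.cE h.dg (Submodule.span S (Set.range g)) ?_ ?_ m
    · intro n hn
      induction hn using Submodule.span_induction with
      | mem n hn =>
        obtain ⟨i, rfl⟩ := hn
        obtain ⟨d, hd⟩ := hg' i
        rw [hd, ← algebraMap_smul S]
        exact Submodule.smul_mem _ _ (Submodule.subset_span ⟨i, rfl⟩)
      | zero => rw [map_zero]; exact Submodule.zero_mem _
      | add u v _ _ hu hv => rw [map_add]; exact Submodule.add_mem _ hu hv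
      | smul a u hu' hu =>
        rw [h.cE]
        exact Submodule.add_mem _ (Submodule.smul_mem _ _ hu') (Submodule.smul_mem _ _ hu)
    · intro v
      have hPle : P ≤ Ideal.span (Set.range x) • (⊤ : Submodule S M) := by
        refine Submodule.smul_mono_left (Ideal.span_mono ?_)
        rintro _ ⟨i, _, rfl⟩
        exact ⟨i, rfl⟩
      have hone : ∀ (d : ℤ) (m : M), ε m = (d : K) • m → ∃ n ∈ Submodule.span S (Set.range g),
          m - n ∈ Ideal.span (Set.range x) • (⊤ : Submodule S M) := by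
        intro d m hm
        obtain ⟨n₀, u, hn₀, hn₀ε, -, rfl⟩ := (g2_claims h i₀ β hβ hD0 hnil d m hm).1
        obtain ⟨y, hy, z, hz, hyz⟩ := Submodule.mem_sup.mp (hspan n₀ ⟨hn₀, d, hn₀ε⟩)
        refine ⟨y, Submodule.span_le_restrictScalars K S _ hy, ?_⟩
        have h1 : n₀ + x i₀ • u - y = z + x i₀ • u := by
          rw [← hyz]; abel
        rw [h1]
        exact Submodule.add_mem _ (hPle hz)
          (Submodule.smul_mem_smul (Ideal.subset_span ⟨i₀, rfl⟩) Submodule.mem_top)
      obtain ⟨s, hs, _⟩ := exists_comp h.dg v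
      choose f hf hf' using fun d : ℤ => hone d (comp ε d v) (comp_eig h.dg d v)
      refine ⟨∑ d ∈ s, f d, Submodule.sum_mem _ fun d _ => hf d, ?_⟩
      have h1 : v - ∑ d ∈ s, f d = ∑ d ∈ s, (comp ε d v - f d) := by
        rw [Finset.sum_sub_distrib, ← hs]
      rw [h1]
      exact Submodule.sum_mem _ fun d _ => hf' d
  refine ⟨g 0, g 1, fun m => ?_⟩
  obtain ⟨c, hc⟩ := (Submodule.mem_span_range_iff_exists_fun S).mp (htop m)
  exact ⟨c 0, c 1, by rw [← hc, Fin.sum_univ_two]⟩

end rowG2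

end Pool.Agent.Lib.MP_745d3a_ag.PF

end

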