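import Pool.Agent.Lib.MP_745d3a_ag.PFCoord

/-!
Modules with connections: gradings, the graded Nakayama lemma, homogeneous generators.
-/

set_option autoImplicit false

open MvPolynomial

namespace Pool.Agent.Lib.MP_745d3a_ag.PF

section euler

variable {K S ι : Type*} [Field K] [CommRing S] [Algebra K S] {x : ι → S}

/-- `E` is the Euler derivation. -/
def IsEuler (x : ι → S) (E : Derivation K S S) : Prop := ∀ i, E (x i) = x i

/-- Decomposition of the elements of `S`. -/
lemma euler_decomp (hx : Coord K x) {E : Derivation K S S} (hE : IsEuler x E) (a : S) :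
    ∃ f : ℤ →₀ S, (∀ d, E (f d) = (d : K) • f d) ∧ (∀ d < 0, f d = 0) ∧
      (∃ c : K, f 0 = algebraMap K S c) ∧ (∀ d, 0 < d → f d ∈ Ideal.span (Set.range x)) ∧
      (f.sum fun _ y => y) = a := by
  classical
  refine hx.induction (P := fun a => ∃ f : ℤ →₀ S, (∀ d, E (f d) = (d : K) • f d) ∧
      (∀ d < 0, f d = 0) ∧ (∃ c : K, f 0 = algebraMap K S c) ∧
      (∀ d, 0 < d → f d ∈ Ideal.span (Set.range x)) ∧ (f.sum fun _ y => y) = a) ?_ ?_ ?_ a
  · intro c
    refine ⟨Finsupp.single 0 (algebraMap K S c), ?_, ?_, ⟨c, by simp⟩, ?_, by simp⟩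
    · intro d
      by_cases hd : d = 0
      · subst hd; simp
      · simp [Ne.symm hd]
    · intro d hd
      simp [(ne_of_lt hd).symm]
    · intro d hd
      simp [(ne_of_lt hd)]
  · rintro a b ⟨f, hf1, hf2, ⟨c, hf3⟩, hf4, hf5⟩ ⟨g, hg1, hg2, ⟨c', hg3⟩, hg4, hg5⟩
    refine ⟨f + g, ?_, ?_, ⟨c + c', ?_⟩, ?_, ?_⟩
    · intro d; rw [Finsupp.add_apply, map_add, hf1, hg1, smul_add]
    · intro d hd; rw [Finsupp.add_apply, hf2 d hd, hg2 d hd, add_zero]
    · rw [Finsupp.add_apply, hf3, hg3, map_add]
    · intro d hd; rw [Finsupp.add_apply]; exact Ideal.add_mem _ (hf4 d hd) (hg4 d hd)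
    · rw [Finsupp.sum_add_index' (fun _ => rfl) (fun _ _ _ => rfl), hf5, hg5]
  · rintro a i ⟨f, hf1, hf2, ⟨c, hf3⟩, hf4, hf5⟩
    have hinj : Function.Injective (fun d : ℤ => d + 1) := fun a b h => by simpa using h
    set g : ℤ →₀ S := (f.mapRange (fun y => y * x i) (by simp)).mapDomain (fun d : ℤ => d + 1)
    have hg : ∀ d, g (d + 1) = f d * x i := by
      intro d
      show (Finsupp.mapDomain (fun d : ℤ => d + 1) _) ((fun d : ℤ => d + 1) d) = _
      rw [Finsupp.mapDomain_apply hinj]; simp
    have hg' : ∀ d, g d = f (d - 1) * x i := by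
      intro d
      have := hg (d - 1)
      rwa [sub_add_cancel] at this
    refine ⟨g, ?_, ?_, ⟨0, ?_⟩, ?_, ?_⟩
    · intro d
      rw [hg', Derivation.leibniz, hE i, hf1, smul_eq_mul, smul_eq_mul, mul_smul_comm,
        Int.cast_sub, Int.cast_one, sub_smul, one_smul, mul_comm (x i) (f (d - 1))]
      ring
    · intro d hd
      rw [hg', hf2 (d - 1) (by omega), zero_mul]
    · rw [hg', hf2 (0 - 1) (by omega), zero_mul, map_zero]
    · intro d _
      rw [hg']
      exact Ideal.mul_mem_left _ _ (Ideal.subset_span ⟨i, rfl⟩)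
    · show (Finsupp.mapDomain _ _).sum _ = _
      rw [Finsupp.sum_mapDomain_index (fun _ => rfl) (fun _ _ _ => rfl),
        Finsupp.sum_mapRange_index (fun _ => rfl), ← hf5, Finsupp.sum_mul]

lemma euler_diag (hx : Coord K x) {E : Derivation K S S} (hE : IsEuler x E) :
    Diag (E : S →ₗ[K] S) := by
  intro a
  obtain ⟨f, h1, _, _, _, h5⟩ := euler_decomp hx hE a
  exact ⟨f.support, f, h1, h5.symm⟩

variable [CharZero K]

lemma euler_comp (hx : Coord K x) {E : Derivation K S S} (hE : IsEuler x E) (a : S) :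
    (∀ d < 0, comp (E : S →ₗ[K] S) d a = 0) ∧
      (∃ c : K, comp (E : S →ₗ[K] S) 0 a = algebraMap K S c) ∧
      (∀ d, 0 < d → comp (E : S →ₗ[K] S) d a ∈ Ideal.span (Set.range x)) := by
  classical
  obtain ⟨f, h1, h2, ⟨c, h3⟩, h4, h5⟩ := euler_decomp hx hE a
  have h : ∀ d, comp (E : S →ₗ[K] S) d a = f d := by
    intro d
    rw [comp_unique (T := (E : S →ₗ[K] S)) f.support f (fun d _ => h1 d) h5.symm]
    by_cases hd : d ∈ f.support
    · rw [if_pos hd]
    · rw [if_neg hd, Finsupp.notMem_support_iff.mp hd]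
  refine ⟨fun d hd => by rw [h, h2 d hd], ⟨c, by rw [h, h3]⟩, fun d hd => by
    rw [h]; exact h4 d hd⟩

/-- There are no elements of negative degree. -/
lemma euler_neg (hx : Coord K x) {E : Derivation K S S} (hE : IsEuler x E) {a : S} {d : ℤ}
    (hd : d < 0) (ha : E a = (d : K) • a) : a = 0 := by
  have := (euler_comp hx hE a).1 d hd
  rwa [comp_of_eig (T := (E : S →ₗ[K] S)) ha] at this

omit [CharZero K] in
lemma sub_const_mem (hx : Coord K x) (a : S) :
    ∃ c : K, a - algebraMap K S c ∈ Ideal.span (Set.range x) := by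
  refine hx.induction (P := fun a => ∃ c : K, a - algebraMap K S c ∈ Ideal.span (Set.range x))
    ?_ ?_ ?_ a
  · intro c; exact ⟨c, by simp⟩
  · rintro a b ⟨c, hc⟩ ⟨c', hc'⟩
    refine ⟨c + c', ?_⟩
    have := Ideal.add_mem _ hc hc'
    rwa [show a - algebraMap K S c + (b - algebraMap K S c') =
      a + b - algebraMap K S (c + c') by rw [map_add]; ring] at this
  · rintro a i _
    refine ⟨0, ?_⟩
    rw [map_zero, sub_zero]
    exact Ideal.mul_mem_left _ _ (Ideal.subset_span ⟨i, rfl⟩)

omit [CharZero K] in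
lemma one_notMem (hx : Coord K x) : (1 : S) ∉ Ideal.span (Set.range x) := by
  intro h
  let φ : S →ₐ[K] K := (aeval (fun _ => (0 : K))).comp hx.equiv.symm.toAlgHom
  have h1 : Ideal.span (Set.range x) ≤ RingHom.ker φ.toRingHom := by
    rw [Ideal.span_le]
    rintro _ ⟨i, rfl⟩
    show φ (x i) = 0
    simp only [φ, AlgHom.comp_apply]
    show (aeval fun _ => (0 : K)) (hx.equiv.symm (x i)) = 0
    rw [hx.symm_x]; simp
  have h2 := h1 h
  have h3 : φ 1 = 0 := h2
  rw [map_one] at h3
  exact one_ne_zero h3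

end euler

section conn

variable {K S M : Type*} [Field K] [CommRing S] [Algebra K S] [AddCommGroup M] [Module K M]
  [Module S M] [IsScalarTower K S M]

/-- `δ` is a connection on `M` along `D`. -/
def IsConn (D : Derivation K S S) (δ : M →ₗ[K] M) : Prop :=
  ∀ (a : S) (m : M), δ (a • m) = D a • m + a • δ m

variable [CharZero K] {E : Derivation K S S} {ε : M →ₗ[K] M}

lemma comp_hsmul (hε : IsConn E ε) (hd : Diag ε) {a : S} {k : ℤ} (ha : E a = (k : K) • a)
    (d : ℤ) (m : M) : comp ε (d + k) (a • m) = a • comp ε d m := by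
  refine comp_shift (T' := ε) hd (DistribSMul.toAddMonoidHom M a) k ?_ d m
  intro v e hv
  show ε (a • v) = _ • (a • v)
  rw [hε, ha, hv, Int.cast_add, add_smul, smul_assoc, smul_comm a (e : K) v, add_comm]

lemma comp_smul (hε : IsConn E ε) (hd : Diag ε) (hE : Diag (E : S →ₗ[K] S)) (a : S) (d : ℤ)
    (m : M) : ∃ s : Finset ℤ,
      comp ε d (a • m) = ∑ j ∈ s, comp (E : S →ₗ[K] S) j a • comp ε (d - j) m := by
  obtain ⟨s, hs, _⟩ := exists_comp hE a
  refine ⟨s, ?_⟩
  conv_lhs => rw [hs, Finset.sum_smul, comp_sum hd]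
  refine Finset.sum_congr rfl fun j _ => ?_
  have := comp_hsmul hε hd (comp_eig hE j a) (d - j) m
  rwa [sub_add_cancel] at this

variable {ι : Type*} {x : ι → S}

/-- Finitely generated modules are bounded below. -/
lemma exists_bdd (hx : Coord K x) (hEu : IsEuler x E) (hε : IsConn E ε) (hd : Diag ε)
    [Module.Finite S M] : ∃ b : ℤ, ∀ d < b, ∀ m : M, comp ε d m = 0 := by
  classical
  obtain ⟨G, hG⟩ := Module.Finite.fg_top (R := S) (M := M)
  choose s hs hs' using fun m : M => exists_comp hd m
  obtain ⟨b, hb⟩ : ∃ b : ℤ, ∀ e ∈ G.biUnion s, b ≤ e := by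
    rcases (G.biUnion s).eq_empty_or_nonempty with h | h
    · exact ⟨0, by rw [h]; simp⟩
    · exact ⟨(G.biUnion s).min' h, fun e he => Finset.min'_le _ _ he⟩
  refine ⟨b, fun d hdb m => ?_⟩
  have hm : m ∈ Submodule.span S (G : Set M) := by rw [hG]; trivial
  revert d
  induction hm using Submodule.span_induction with
  | mem m hm =>
    intro d hdb
    apply hs'
    intro hds
    have := hb d (Finset.mem_biUnion.mpr ⟨m, hm, hds⟩)
    omega
  | zero => intro d _; exact comp_zero d
  | add m n _ _ hm hn => intro d hdb; rw [comp_add hd, hm d hdb, hn d hdb, add_zero]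
  | smul a m _ hm =>
    intro d hdb
    obtain ⟨t, ht⟩ := comp_smul hε hd (euler_diag hx hEu) a d m
    rw [ht]
    refine Finset.sum_eq_zero fun j _ => ?_
    by_cases hj : j < 0
    · rw [(euler_comp hx hEu a).1 j hj, zero_smul]
    · rw [hm (d - j) (by omega), smul_zero]

/-- Graded Nakayama lemma. -/
lemma nakayama (hx : Coord K x) (hEu : IsEuler x E) (hε : IsConn E ε) (hd : Diag ε)
    [Module.Finite S M] (N : Submodule S M) (hN : ∀ n ∈ N, ε n ∈ N)
    (h : ∀ m, ∃ n ∈ N, m - n ∈ Ideal.span (Set.range x) • (⊤ : Submodule S M)) (m : M) :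
    m ∈ N := by
  classical
  obtain ⟨b, hb⟩ := exists_bdd hx hEu hε hd
  have hcomp : ∀ n ∈ N, ∀ d, comp ε d n ∈ N := by
    intro n hn d
    refine comp_mem hd N.toAddSubgroup hN ?_ hn d
    intro c w hw
    show c • w ∈ N
    rw [← algebraMap_smul S c w]
    exact N.smul_mem _ hw
  have key : ∀ k : ℕ, ∀ m, comp ε (b + k) m ∈ N := by
    intro k
    induction k using Nat.strong_induction_on with
    | _ k ih =>
      have ih' : ∀ j < b + k, ∀ m, comp ε j m ∈ N := by
        intro j hj m
        by_cases hjb : j < b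
        · rw [hb j hjb]; exact N.zero_mem
        · have := ih (j - b).toNat (by omega) m
          rwa [show b + ((j - b).toNat : ℤ) = j by omega] at this
      intro m
      obtain ⟨n, hn, hmn⟩ := h m
      have h1 : ∀ w ∈ Ideal.span (Set.range x) • (⊤ : Submodule S M),
          comp ε (b + k) w ∈ N := by
        intro w hw
        refine Submodule.smul_induction_on hw ?_ ?_
        · intro r hr n hn
          clear hn
          revert n
          induction hr using Submodule.span_induction with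
          | mem r hr =>
            obtain ⟨i, rfl⟩ := hr
            intro n
            have h3 := comp_hsmul hε hd (a := x i) (k := 1) (by rw [hEu i]; simp) (b + k - 1) n
            rw [sub_add_cancel] at h3
            rw [h3]
            exact N.smul_mem _ (ih' (b + k - 1) (by omega) n)
          | zero => intro n; rw [zero_smul, comp_zero]; exact N.zero_mem
          | add r r' _ _ hr hr' =>
            intro n; rw [add_smul, comp_add hd]; exact N.add_mem (hr n) (hr' n)
          | smul a r _ hr => intro n; rw [smul_eq_mul, mul_comm, mul_smul]; exact hr _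
        · intro u v hu hv
          rw [comp_add hd]; exact N.add_mem hu hv
      have h2 : comp ε (b + k) m = comp ε (b + k) n + comp ε (b + k) (m - n) := by
        rw [← comp_add hd, add_sub_cancel]
      rw [h2]
      exact N.add_mem (hcomp n hn _) (h1 _ hmn)
  obtain ⟨s, hs, _⟩ := exists_comp hd m
  rw [hs]
  refine N.sum_mem fun d _ => ?_
  by_cases hdb : d < b
  · rw [hb d hdb]; exact N.zero_mem
  · have := key (d - b).toNat m
    rwa [show b + ((d - b).toNat : ℤ) = d by omega] at this

omit [CharZero K] in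
/-- Choosing elements of a set which span it modulo a subspace. -/
lemma exists_span_of_dep {V : Type*} [AddCommGroup V] [Module K V] (W : Submodule K V)
    (H : Set V) (r : ℕ)
    (hdep : ∀ v : Fin (r + 1) → V, (∀ i, v i ∈ H) →
      ∃ c : Fin (r + 1) → K, c ≠ 0 ∧ ∑ i, c i • v i ∈ W) :
    ∃ h : Fin r → V, (∀ i, h i ∈ H ∨ h i = 0) ∧
      ∀ v ∈ H, v ∈ Submodule.span K (Set.range h) ⊔ W := by
  classical
  let P : ℕ → Prop := fun k => ∃ h : Fin k → V, (∀ i, h i ∈ H) ∧ LinearIndependent K (W.mkQ ∘ h)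
  have hP0 : P 0 := ⟨Fin.elim0, fun i => i.elim0, linearIndependent_empty_type⟩
  have hPr : ¬ P (r + 1) := by
    rintro ⟨h, hH, hind⟩
    obtain ⟨c, hc, hcW⟩ := hdep h hH
    apply hc
    rw [Fintype.linearIndependent_iff] at hind
    funext i
    refine hind c ?_ i
    have : W.mkQ (∑ i, c i • h i) = 0 := by
      rw [Submodule.mkQ_apply, Submodule.Quotient.mk_eq_zero]; exact hcW
    rw [map_sum] at this
    simpa using this
  have hex : ∃ k, ¬ P (k + 1) := ⟨r, hPr⟩
  set k := Nat.find hex
  have hk1 : ¬ P (k + 1) := Nat.find_spec hex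
  have hk0 : P k := by
    rcases Nat.eq_zero_or_pos k with h | h
    · rw [h]; exact hP0
    · have := Nat.find_min hex (m := k - 1) (by omega)
      rw [not_not] at this
      rwa [show k - 1 + 1 = k by omega] at this
  have hkr : k ≤ r := Nat.find_min' hex hPr
  obtain ⟨h, hH, hind⟩ := hk0
  refine ⟨fun i => if hi : (i : ℕ) < k then h ⟨i, hi⟩ else 0, ?_, ?_⟩
  · intro i
    by_cases hi : (i : ℕ) < k
    · left; simp only [hi, dif_pos]; exact hH _
    · right; simp only [hi, dif_neg, not_false_eq_true]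
  · intro v hv
    have h1 : W.mkQ v ∈ Submodule.span K (Set.range (W.mkQ ∘ h)) := by
      by_contra hcon
      apply hk1
      refine ⟨Fin.cons v h, ?_, ?_⟩
      · intro i
        refine Fin.cases ?_ ?_ i
        · exact hv
        · intro j; exact hH j
      · have : W.mkQ ∘ (Fin.cons v h : Fin (k + 1) → V) = Fin.cons (W.mkQ v) (W.mkQ ∘ h) := by
          funext i
          refine Fin.cases ?_ ?_ i
          · rfl
          · intro j; rfl
        rw [this, linearIndependent_finCons]
        exact ⟨hind, hcon⟩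
    rw [Set.range_comp, ← Submodule.map_span] at h1
    obtain ⟨w, hw, hwv⟩ := h1
    have h2 : v - w ∈ W := by
      rw [← Submodule.Quotient.mk_eq_zero, ← Submodule.mkQ_apply, map_sub, hwv, sub_self]
    have h3 : w ∈ Submodule.span K (Set.range fun i : Fin r =>
        if hi : (i : ℕ) < k then h ⟨i, hi⟩ else 0) := by
      refine Submodule.span_mono ?_ hw
      rintro _ ⟨i, rfl⟩
      exact ⟨⟨i, lt_of_lt_of_le i.2 hkr⟩, by simp⟩
    rw [show v = w + (v - w) by abel]
    exact Submodule.add_mem_sup h3 h2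

omit [CharZero K] in
/-- Vectors in the span of `r` vectors, modulo a subspace. -/
lemma dep_of_span {V : Type*} [AddCommGroup V] [Module K V] (W : Submodule K V) (r : ℕ)
    (m : Fin r → V) (v : Fin (r + 1) → V)
    (hv : ∀ i, v i ∈ Submodule.span K (Set.range m) ⊔ W) :
    ∃ c : Fin (r + 1) → K, c ≠ 0 ∧ ∑ i, c i • v i ∈ W := by
  classical
  have h1 : ∀ i, ∃ a : Fin r → K, v i - ∑ j, a j • m j ∈ W := by
    intro i
    obtain ⟨u, hu, w, hw, huw⟩ := Submodule.mem_sup.mp (hv i)
    obtain ⟨a, ha⟩ := (Submodule.mem_span_range_iff_exists_fun K).mp hu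
    exact ⟨a, by rw [ha, ← huw, add_sub_cancel_left]; exact hw⟩
  choose a ha using h1
  obtain ⟨c, hc, i0, hi0⟩ : ∃ c : Fin (r + 1) → K, (∑ i, c i • a i = 0) ∧ ∃ i, c i ≠ 0 := by
    have : ¬ LinearIndependent K a := by
      intro hind
      have := hind.fintype_card_le_finrank
      rw [Module.finrank_fin_fun, Fintype.card_fin] at this
      omega
    rw [Fintype.not_linearIndependent_iff] at this
    exact this
  refine ⟨c, fun h => hi0 (by rw [h]; rfl), ?_⟩
  have h2 : ∑ i, c i • v i = ∑ i, c i • (v i - ∑ j, a i j • m j) := by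
    simp only [smul_sub, Finset.sum_sub_distrib]
    rw [eq_comm, sub_eq_self]
    have h3 : ∀ j, ∑ i, c i * a i j = 0 := by
      intro j
      have := congrFun hc j
      simpa using this
    calc ∑ i, c i • ∑ j, a i j • m j = ∑ j, (∑ i, c i * a i j) • m j := by
          simp only [Finset.smul_sum, smul_smul, Finset.sum_smul]
          rw [Finset.sum_comm]
      _ = 0 := by simp [h3]
  rw [h2]
  exact W.sum_mem fun i _ => W.smul_mem _ (ha i)

/-- Homogeneous generators. -/
lemma exists_hom_gen (hx : Coord K x) (hEu : IsEuler x E) (hε : IsConn E ε) (hd : Diag ε)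
    [Module.Finite S M] (r : ℕ) (m : Fin r → M)
    (hm : ∀ v, v ∈ Submodule.span S (Set.range m) ⊔
      Ideal.span (Set.range x) • (⊤ : Submodule S M)) :
    ∃ h : Fin r → M, (∀ i, ∃ d : ℤ, ε (h i) = (d : K) • h i) ∧
      Submodule.span S (Set.range h) = ⊤ := by
  classical
  set W : Submodule K M := (Ideal.span (Set.range x) • (⊤ : Submodule S M)).restrictScalars K
  have hspanK : ∀ v, v ∈ Submodule.span K (Set.range m) ⊔ W := by
    intro v
    obtain ⟨u, hu, w, hw, rfl⟩ := Submodule.mem_sup.mp (hm v)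
    obtain ⟨a, rfl⟩ := (Submodule.mem_span_range_iff_exists_fun S).mp hu
    refine Submodule.add_mem _ (Submodule.sum_mem _ fun i _ => ?_)
      (Submodule.mem_sup_right hw)
    obtain ⟨c, hc⟩ := sub_const_mem hx (a i)
    have h1 : a i • m i = c • m i + (a i - algebraMap K S c) • m i := by
      rw [sub_smul, algebraMap_smul]; abel
    rw [h1]
    have h2 : (a i - algebraMap K S c) • m i ∈
        Ideal.span (Set.range x) • (⊤ : Submodule S M) :=
      Submodule.smul_mem_smul hc Submodule.mem_top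
    have h3 : (a i - algebraMap K S c) • m i ∈ W := h2
    have h4 : c • m i ∈ Submodule.span K (Set.range m) :=
      Submodule.smul_mem _ _ (Submodule.subset_span ⟨i, rfl⟩)
    exact Submodule.add_mem_sup h4 h3
  obtain ⟨h, hh, hspan⟩ := exists_span_of_dep W {v | ∃ d : ℤ, ε v = (d : K) • v} r
    (fun v _ => dep_of_span W r m v fun i => hspanK _)
  have hh' : ∀ i, ∃ d : ℤ, ε (h i) = (d : K) • h i := by
    intro i
    rcases hh i with h1 | h1
    · exact h1
    · exact ⟨0, by rw [h1, map_zero, smul_zero]⟩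
  refine ⟨h, hh', ?_⟩
  rw [eq_top_iff]
  intro v _
  refine nakayama hx hEu hε hd (Submodule.span S (Set.range h)) ?_ ?_ v
  · intro n hn
    induction hn using Submodule.span_induction with
    | mem n hn =>
      obtain ⟨i, rfl⟩ := hn
      obtain ⟨d, hd⟩ := hh' i
      rw [hd, ← algebraMap_smul S]
      exact Submodule.smul_mem _ _ (Submodule.subset_span ⟨i, rfl⟩)
    | zero => rw [map_zero]; exact Submodule.zero_mem _
    | add u v _ _ hu hv => rw [map_add]; exact Submodule.add_mem _ hu hv
    | smul a u hu' hu =>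
      rw [hε]
      exact Submodule.add_mem _ (Submodule.smul_mem _ _ hu') (Submodule.smul_mem _ _ hu)
  · intro v
    obtain ⟨s, hs, _⟩ := exists_comp hd v
    have h1 : v ∈ Submodule.span K (Set.range h) ⊔ W := by
      rw [hs]
      exact Submodule.sum_mem _ fun d _ => hspan _ ⟨d, comp_eig hd d v⟩
    obtain ⟨u, hu, w, hw, rfl⟩ := Submodule.mem_sup.mp h1
    refine ⟨u, ?_, by rw [add_sub_cancel_left]; exact hw⟩
    exact Submodule.span_le_restrictScalars K S _ hu

end conn

end Pool.Agent.Lib.MP_745d3a_ag.PF
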