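import Pool.Agent.Lib.MP_745d3a_ag.PFHor

/-!
Nilpotent vector fields: the kernel of the functional `e`.
-/

set_option autoImplicit false
set_option linter.unusedSectionVars false
set_option linter.style.haveILetI false

section

set_option autoImplicit false
set_option linter.style.haveILetI false
set_option linter.unusedSectionVars false

open MvPolynomial

namespace Pool.Agent.Lib.MP_745d3a_ag.PF

section rowL

variable {K S S' ι ι' M : Type*} [Field K] [CommRing S] [Algebra K S] [CommRing S'] [Algebra K S']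
  [Algebra S S'] [IsScalarTower K S S'] {x : ι → S} {j : ι} {f : ι' → ι} {x' : ι' → S'}
  [AddCommGroup M] [Module K M] [Module S M] [IsScalarTower K S M] [CharZero K]

omit [IsScalarTower K S S'] [Module K M] [IsScalarTower K S M] [CharZero K] [Algebra K S]
  [Algebra K S'] [Field K] in
lemma L1_smulj (hr : RS x j f x') (θ : M →ₗ[S] S') (n : M) : θ (x j • n) = 0 := by
  rw [map_smul, Algebra.smul_def, hr.xj, zero_mul]

/-- `θ ∘ δ` as a functional. -/
noncomputable def L1_comp {D : Derivation K S S} {δ : M →ₗ[K] M} (hδ : IsConn D δ)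
    (hD : ∀ a, algebraMap S S' (D a) = 0) (θ : M →ₗ[S] S') : M →ₗ[S] S' where
  toFun m := θ (δ m)
  map_add' m n := by rw [map_add, map_add]
  map_smul' a m := by
    rw [hδ, map_add, map_smul, map_smul, Algebra.smul_def, hD, zero_mul, zero_add,
      RingHom.id_apply]

/-- Existence of the functional `e`. -/
lemma exists_e [Finite ι] {E D : Derivation K S S} {ε δ : M →ₗ[K] M}
    (h : Sys x E D ε δ) (hr : RS x j f x') [Nonempty ι'] (hD : ∀ a, algebraMap S S' (D a) = 0)
    (hnil : ∀ m, ∃ n, δ (δ m) = x j • n) (θ₀ : M →ₗ[S] S') (m₀ : M) (h0 : θ₀ (δ m₀) ≠ 0) :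
    ∃ e : M →ₗ[S] S', (∀ m, e (δ m) = 0) ∧ e ≠ 0 ∧
      (∀ θ : M →ₗ[S] S', (∀ m, θ (δ m) = 0) → ∃ c : S', θ = c • e) ∧
      (∀ (c : S') (θ : M →ₗ[S] S'), e = c • θ → IsUnit c) := by
  have hx' := hr.coord h.cx
  haveI : Finite ι' := Finite.of_injective f hr.inj
  haveI := hx'.isDomain
  haveI := hx'.ufm
  haveI := hx'.noeth
  have hN := h.bun.dual h.cx hr
  haveI := hN.fin
  haveI : IsNoetherian S' (M →ₗ[S] S') := isNoetherian_of_isNoetherianRing_of_finite _ _
  let L : Submodule S' (M →ₗ[S] S') :=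
    { carrier := {θ | ∀ m, θ (δ m) = 0}
      add_mem' := fun {a b} ha hb m => by
        rw [LinearMap.add_apply, ha m, hb m, add_zero]
      zero_mem' := fun m => rfl
      smul_mem' := fun c θ hθ m => by
        rw [LinearMap.smul_apply, hθ m, smul_zero] }
  have hL : ∀ θ : M →ₗ[S] S', θ ∈ L ↔ ∀ m, θ (δ m) = 0 := fun θ => Iff.rfl
  have hsat : ∀ (c : S') (θ : M →ₗ[S] S'), c ≠ 0 → c • θ ∈ L → θ ∈ L := by
    intro c θ hc hθ m
    have := hθ m
    rw [LinearMap.smul_apply, smul_eq_mul] at this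
    exact (mul_eq_zero.1 this).resolve_left hc
  obtain ⟨e, he⟩ := cyclic (S := S') (V := L)
    (fun a m ham => by
      rcases hN.tf a m (by simpa using congrArg Subtype.val ham) with h1 | h1
      · exact Or.inl h1
      · exact Or.inr (Subtype.ext h1))
    (fun a b hab m n hmn => by
      obtain ⟨k, hk⟩ := hN.ht a b hab m n (by simpa using congrArg Subtype.val hmn)
      by_cases hb : b = 0
      · refine ⟨0, Subtype.ext ?_⟩
        rw [hk, hb, zero_smul]; simp
      · exact ⟨⟨k, hsat b k hb (hk ▸ m.2)⟩, Subtype.ext hk⟩)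
    (fun u v => by
      by_contra hcon
      push Not at hcon
      have hind : ∀ a b : S', a • (u : M →ₗ[S] S') + b • (v : M →ₗ[S] S') = 0 →
          a = 0 ∧ b = 0 := by
        intro a b hab
        by_contra hne
        rw [not_and_or] at hne
        refine hcon a (-b) ?_ ?_
        · rcases hne with h1 | h1
          · exact Or.inl h1
          · exact Or.inr (by simpa using h1)
        · refine Subtype.ext ?_
          rw [Submodule.coe_smul, Submodule.coe_smul, neg_smul]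
          exact eq_neg_of_add_eq_zero_left hab
      obtain ⟨c, a, b, hc, hcab⟩ := hN.dep3 hx' u v θ₀ hind
      have h1 := congrArg (fun θ : M →ₗ[S] S' => θ (δ m₀)) hcab
      simp only [LinearMap.smul_apply, LinearMap.add_apply] at h1
      rw [(hL _).1 u.2, (hL _).1 v.2, smul_zero, smul_zero, add_zero, smul_eq_mul] at h1
      rcases mul_eq_zero.1 h1 with h2 | h2
      · exact hc h2
      · exact h0 h2)
  have hgen : ∀ θ : M →ₗ[S] S', (∀ m, θ (δ m) = 0) → ∃ c : S', θ = c • (e : M →ₗ[S] S') := by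
    intro θ hθ
    obtain ⟨c, hc⟩ := he ⟨θ, hθ⟩
    exact ⟨c, congrArg Subtype.val hc⟩
  have he0 : (e : M →ₗ[S] S') ≠ 0 := by
    intro he0
    obtain ⟨c, hc⟩ := hgen (L1_comp h.cD hD θ₀) (fun m => by
      show θ₀ (δ (δ m)) = 0
      obtain ⟨n, hn⟩ := hnil m
      rw [hn, L1_smulj hr])
    apply h0
    have := congrArg (fun θ : M →ₗ[S] S' => θ m₀) hc
    rw [he0, smul_zero] at this
    exact this
  refine ⟨e, e.2, he0, hgen, ?_⟩
  intro c θ hcθ
  have hc : c ≠ 0 := by
    rintro rfl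
    exact he0 (by rw [hcθ, zero_smul])
  obtain ⟨c', hc'⟩ := hgen θ (hsat c θ hc (hcθ ▸ e.2))
  obtain ⟨u, hu⟩ : ∃ u, (e : M →ₗ[S] S') u ≠ 0 := by
    by_contra hcon
    push Not at hcon
    exact he0 (LinearMap.ext hcon)
  have h1 := congrArg (fun θ : M →ₗ[S] S' => θ u) hcθ
  rw [hc'] at h1
  simp only [LinearMap.smul_apply, smul_eq_mul] at h1
  refine IsUnit.of_mul_eq_one c' ?_
  have h2 : (1 - c * c') * (e : M →ₗ[S] S') u = 0 := by linear_combination h1
  exact (sub_eq_zero.1 ((mul_eq_zero.1 h2).resolve_right hu)).symm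

/-- `e` is homogeneous. -/
lemma L1_hom [Finite ι] {E D : Derivation K S S} {ε δ : M →ₗ[K] M}
    (h : Sys x E D ε δ) (hr : RS x j f x')
    (e : M →ₗ[S] S') (he : ∀ m, e (δ m) = 0)
    (hgen : ∀ θ : M →ₗ[S] S', (∀ m, θ (δ m) = 0) → ∃ c : S', θ = c • e) :
    ∃ (E' : Derivation K S' S') (l : S'), IsEuler x' E' ∧
      ∀ m, e (ε m) = E' (e m) - l * e m := by
  obtain ⟨E', hE'⟩ := hr.exists_der h.cx E (by rw [h.eu j, hr.xj])
  have hEu : IsEuler x' E' := by
    intro i
    rw [← hr.map i, hE', h.eu]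
  obtain ⟨l, hl⟩ := hgen (dconn hE' h.cE e) (fun m => by
    rw [dconn_apply, he, map_zero, h.comm, he, sub_zero])
  refine ⟨E', l, hEu, fun m => ?_⟩
  have := congrArg (fun θ : M →ₗ[S] S' => θ m) hl
  simp only [dconn_apply, LinearMap.smul_apply, smul_eq_mul] at this
  rw [← this]; ring

/-- Lemma A. -/
lemma lemA [Finite ι] {E D : Derivation K S S} {ε δ : M →ₗ[K] M}
    (h : Sys x E D ε δ) (hr : RS x j f x') [Nonempty ι'] {Δ : Derivation K S S}
    (hΔ : ∀ a, D a = x j * Δ a) (hΔj : Δ (x j) = 0)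
    (hnil : ∀ m, ∃ n, δ (δ m) = x j • n) (θ₀ : M →ₗ[S] S') (m₀ : M) (h0 : θ₀ (δ m₀) ≠ 0)
    (e : M →ₗ[S] S') (he : ∀ m, e (δ m) = 0) (he0 : e ≠ 0)
    (hgen : ∀ θ : M →ₗ[S] S', (∀ m, θ (δ m) = 0) → ∃ c : S', θ = c • e) (m : M) (hm : e m = 0) :
    ∃ n, e n = 0 ∧ δ m = x j • n := by
  have hx' := hr.coord h.cx
  haveI : Finite ι' := Finite.of_injective f hr.inj
  haveI := h.cx.isDomain
  haveI := hx'.isDomain
  have hN := h.bun.dual h.cx hr
  have hxj : x j ≠ 0 := (h.cx.prime_x j).ne_zero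
  have hcan : ∀ u v : M, x j • u = x j • v → u = v := by
    intro u v huv
    rcases h.bun.tf (x j) (u - v) (by rw [smul_sub, huv, sub_self]) with h1 | h1
    · exact absurd h1 hxj
    · exact sub_eq_zero.1 h1
  have hDj : D (x j) = 0 := by rw [hΔ, hΔj, mul_zero]
  have hDπ : ∀ a, algebraMap S S' (D a) = 0 := by
    intro a; rw [hΔ, map_mul, hr.xj, zero_mul]
  obtain ⟨E', l, hEu, hE⟩ := L1_hom h hr e he hgen
  choose ν hν using hnil
  -- `ν` is additive, and so on
  have hνadd : ∀ u v, ν (u + v) = ν u + ν v := by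
    intro u v
    apply hcan
    rw [← hν, smul_add, ← hν, ← hν, map_add, map_add]
  have hνsmul : ∀ (a : S) (u : M), ν (a • u) = a • ν u + (2 : S) • Δ a • δ u +
      x j • Δ (Δ a) • u := by
    intro a u
    apply hcan
    rw [← hν, h.cD, map_add, h.cD, h.cD, hν u, hΔ (D a), hΔ a, Derivation.leibniz, hΔj]
    simp only [smul_add, smul_smul, smul_eq_mul, mul_zero, add_zero]
    module
  have hνδ : ∀ u, ν (δ u) = δ (ν u) := by
    intro u
    apply hcan
    rw [← hν, hν u, h.cD, hDj, zero_smul, zero_add]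
  have hνε : ∀ u, ν (ε u) = ν u + ε (ν u) := by
    intro u
    apply hcan
    rw [← hν, ← h.comm, ← h.comm, hν u, h.cE, h.eu, smul_add]
  let ψ : M →ₗ[S] S' :=
    { toFun := fun u => e (ν u)
      map_add' := fun u v => by rw [hνadd, map_add]
      map_smul' := fun a u => by
        rw [hνsmul, map_add, map_add, L1_smulj hr, map_smul, map_smul, map_smul, he, smul_zero,
          smul_zero, add_zero, add_zero, RingHom.id_apply] }
  obtain ⟨c, hc⟩ := hgen ψ (fun u => by
    show e (ν (δ u)) = 0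
    rw [hνδ, he])
  have hψ : ∀ u, e (ν u) = c * e u := by
    intro u
    exact congrArg (fun θ : M →ₗ[S] S' => θ u) hc
  obtain ⟨u₀, hu₀⟩ : ∃ u, e u ≠ 0 := by
    by_contra hcon
    push Not at hcon
    exact he0 (LinearMap.ext hcon)
  have hc0 : c = 0 := by
    refine euler_neg hx' hEu (d := -1) (by norm_num) ?_
    have h1 := hψ (ε u₀)
    rw [hνε, map_add, hE, hE, hψ u₀, Derivation.leibniz, smul_eq_mul, smul_eq_mul] at h1
    have h2 : (E' c + c) * e u₀ = 0 := by linear_combination h1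
    rcases mul_eq_zero.1 h2 with h3 | h3
    · rw [eq_neg_of_add_eq_zero_left h3]
      simp
    · exact absurd h3 hu₀
  have heν : ∀ u, e (ν u) = 0 := by
    intro u; rw [hψ, hc0, zero_mul]
  -- `δ m` is divisible
  obtain ⟨n, hn⟩ := h.bun.torsionless h.cx hr (δ m) (fun θ => by
    obtain ⟨κ, hκ⟩ := hgen (L1_comp h.cD hDπ θ) (fun u => by
      show θ (δ (δ u)) = 0
      rw [hν, L1_smulj hr])
    have := congrArg (fun θ : M →ₗ[S] S' => θ m) hκ
    simp only [LinearMap.smul_apply] at this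
    rw [hm, smul_zero] at this
    exact this)
  refine ⟨n, ?_, hn⟩
  obtain ⟨a, ha⟩ := hr.surj (θ₀ (δ m₀))
  obtain ⟨b, hb⟩ := hr.surj (θ₀ m)
  have hind : ∀ α β : S', α • e + β • θ₀ = 0 → α = 0 ∧ β = 0 := by
    intro α β hαβ
    have h1 := congrArg (fun θ : M →ₗ[S] S' => θ (δ m₀)) hαβ
    simp only [LinearMap.smul_apply, LinearMap.add_apply, LinearMap.zero_apply] at h1
    rw [he, smul_zero, zero_add, smul_eq_mul] at h1
    have hβ : β = 0 := (mul_eq_zero.1 h1).resolve_right h0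
    rw [hβ, zero_smul, add_zero] at hαβ
    exact ⟨(hN.tf _ _ hαβ).resolve_right he0, hβ⟩
  obtain ⟨v, hv⟩ := h.bun.torsionless h.cx hr (a • m - b • δ m₀) (fun θ => by
    obtain ⟨c', a', b', hc', hcab⟩ := hN.dep3 hx' e θ₀ θ hind
    have h1 := congrArg (fun θ : M →ₗ[S] S' => θ (a • m - b • δ m₀)) hcab
    simp only [LinearMap.smul_apply, LinearMap.add_apply] at h1
    have h2 : e (a • m - b • δ m₀) = 0 := by
      rw [map_sub, map_smul, map_smul, hm, he, smul_zero, smul_zero, sub_zero]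
    have h3 : θ₀ (a • m - b • δ m₀) = 0 := by
      rw [map_sub, map_smul, map_smul, Algebra.smul_def, Algebra.smul_def, ha, hb]; ring
    rw [h2, h3, smul_zero, smul_zero, add_zero, smul_eq_mul] at h1
    exact (mul_eq_zero.1 h1).resolve_left hc')
  have h4 : δ v = Δ a • m + a • n - Δ b • δ m₀ - b • ν m₀ := by
    apply hcan
    have h5 := congrArg δ hv
    rw [h.cD (x j) v, hDj, zero_smul, zero_add, map_sub, h.cD, h.cD, hn, hν m₀, hΔ a, hΔ b] at h5
    rw [← h5]
    module
  have h6 := congrArg e h4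
  rw [he, map_sub, map_sub, map_add, map_smul, map_smul, map_smul, map_smul, hm, he, heν,
    smul_zero, smul_zero, smul_zero, zero_add, sub_zero, sub_zero, Algebra.smul_def, ha] at h6
  exact (mul_eq_zero.1 h6.symm).resolve_left h0

/-- The kernel of `e` is generated by horizontal elements if it is locally generated by `r`
elements. -/
lemma kercone [Finite ι] {E D : Derivation K S S} {ε δ : M →ₗ[K] M}
    (h : Sys x E D ε δ) (hr : RS x j f x') [Nonempty ι'] (i₀ : ι) (hij : i₀ ≠ j)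
    {Δ : Derivation K S S} (hΔ : ∀ a, D a = x j * Δ a)
    (hΔ0 : Δ (x i₀) = 1) (hΔi : ∀ i, i ≠ i₀ → Δ (x i) = 0)
    (hnil : ∀ m, ∃ n, δ (δ m) = x j • n) (θ₀ : M →ₗ[S] S') (m₀ : M) (h0 : θ₀ (δ m₀) ≠ 0)
    (e : M →ₗ[S] S') (he : ∀ m, e (δ m) = 0) (he0 : e ≠ 0)
    (hgen : ∀ θ : M →ₗ[S] S', (∀ m, θ (δ m) = 0) → ∃ c : S', θ = c • e) (r : ℕ)
    (hloc : ∃ s, s ∉ Ideal.span (x '' {i₀}ᶜ) ∧ ∃ g : Fin r → M, (∀ k, e (g k) = 0) ∧
      ∀ m, e m = 0 → s • m ∈ Submodule.span S (Set.range g)) :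
    ∃ l : Fin r → M, (∀ k, e (l k) = 0) ∧ (∀ k, δ (l k) = 0) ∧
      ∀ m, e m = 0 → m ∈ Submodule.span S (Set.range l) := by
  haveI := h.cx.isDomain
  haveI := h.cx.noeth
  haveI := h.bun.fin
  haveI : IsNoetherian S M := isNoetherian_of_isNoetherianRing_of_finite _ _
  have hxj : x j ≠ 0 := (h.cx.prime_x j).ne_zero
  have hcan : ∀ u v : M, x j • u = x j • v → u = v := by
    intro u v huv
    rcases h.bun.tf (x j) (u - v) (by rw [smul_sub, huv, sub_self]) with h1 | h1
    · exact absurd h1 hxj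
    · exact sub_eq_zero.1 h1
  obtain ⟨E', l, hEu, hE⟩ := L1_hom h hr e he hgen
  have hA := lemA h hr hΔ (hΔi j hij.symm) hnil θ₀ m₀ h0 e he he0 hgen
  let P : Submodule S M := LinearMap.ker e
  have hP : ∀ m, m ∈ P ↔ e m = 0 := fun m => LinearMap.mem_ker
  have hA' : ∀ m : P, ∃ n : P, δ m = x j • (n : M) := by
    intro m
    obtain ⟨n, hn1, hn2⟩ := hA m ((hP m).1 m.2)
    exact ⟨⟨n, hn1⟩, hn2⟩
  choose ν hν using hA'
  let εP : P →ₗ[K] P :=
    { toFun := fun m => ⟨ε m, by rw [hP, hE, (hP m).1 m.2, map_zero, mul_zero, sub_zero]⟩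
      map_add' := fun u v => Subtype.ext (by simp)
      map_smul' := fun c u => Subtype.ext (by simp) }
  have hεP : ∀ m : P, (εP m : M) = ε m := fun m => rfl
  let δP : P →ₗ[K] P :=
    { toFun := ν
      map_add' := fun u v => Subtype.ext (hcan _ _ (by
        rw [← hν, Submodule.coe_add, Submodule.coe_add, smul_add, ← hν, ← hν, map_add]))
      map_smul' := fun c u => Subtype.ext (hcan _ _ (by
        rw [← hν, RingHom.id_apply, Submodule.coe_smul_of_tower, Submodule.coe_smul_of_tower,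
          smul_comm, ← hν, map_smul])) }
  have hδP : ∀ m : P, δ m = x j • (δP m : M) := hν
  have hεc : IsConn E εP := by
    intro a m
    refine Subtype.ext ?_
    rw [hεP, Submodule.coe_smul, h.cE]
    simp [hεP]
  have hδc : IsConn Δ δP := by
    intro a m
    refine Subtype.ext (hcan _ _ ?_)
    rw [← hδP, Submodule.coe_smul, h.cD, hδP, hΔ, Submodule.coe_add, Submodule.coe_smul,
      Submodule.coe_smul]
    module
  have hdiag : Diag εP := Diag.of_injective (T' := ε) h.dg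
    { toFun := fun m : P => (m : M), map_add' := fun _ _ => rfl, map_smul' := fun _ _ => rfl }
    Subtype.val_injective (fun m => rfl)
  have hdeg : ∀ m : P, εP (δP m) = δP (εP m) - δP m := by
    intro m
    refine Subtype.ext (hcan _ _ ?_)
    rw [hεP, Submodule.coe_sub, smul_sub, ← hδP, ← hδP, hεP, ← h.comm, hδP, h.cE, h.eu]
    abel
  obtain ⟨s, hs, g, hg, hgs⟩ := hloc
  have hmap : ∀ {r : ℕ} (q : Fin r → P), (Submodule.span S (Set.range q)).map P.subtype =
      Submodule.span S (Set.range fun k => (q k : M)) := by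
    intro r q
    rw [Submodule.map_span, ← Set.range_comp]
    rfl
  haveI : Module.Finite S P := Module.IsNoetherian.finite S P
  obtain ⟨q, hq1, _, hq2⟩ := cone h.cx h.eu hεc hdiag i₀ hΔ0 hΔi hδc hdeg r
    ⟨s, hs, fun k => ⟨g k, hg k⟩, fun v => by
      have h1 := hgs v ((hP v).1 v.2)
      have h2 := hmap (fun k => (⟨g k, hg k⟩ : P))
      rw [← h2] at h1
      obtain ⟨w, hw, hwv⟩ := h1
      have : w = s • v := Subtype.ext hwv
      rwa [← this]⟩
  refine ⟨fun k => q k, fun k => (hP _).1 (q k).2, fun k => ?_, fun m hm => ?_⟩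
  · rw [hδP, hq1 k, Submodule.coe_zero, smul_zero]
  · rw [← hmap, hq2]
    exact ⟨⟨m, hm⟩, trivial, rfl⟩

end rowL

end Pool.Agent.Lib.MP_745d3a_ag.PF

end

section

set_option autoImplicit false

open MvPolynomial

namespace Pool.Agent.Lib.MP_745d3a_ag.PF

section rowL2

variable {K S S' ι ι' M : Type*} [Field K] [CommRing S] [Algebra K S] [CommRing S'] [Algebra K S']
  [Algebra S S'] [IsScalarTower K S S'] {x : ι → S} {j : ι} {f : ι' → ι} {x' : ι' → S'}
  [AddCommGroup M] [Module S M]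

/-- Syzygies of two relatively prime elements. -/
lemma l2_syz {R : Type*} [CommRing R] [IsDomain R] [UniqueFactorizationMonoid R] {v₁ v₂ a b : R}
    (hv : IsRelPrime v₁ v₂) (h : a * v₁ + b * v₂ = 0) : ∃ τ, a = τ * v₂ ∧ b = -(τ * v₁) := by
  by_cases h2 : v₂ = 0
  · subst h2
    rw [isRelPrime_zero_right] at hv
    obtain ⟨w, rfl⟩ := hv
    rw [mul_zero, add_zero] at h
    refine ⟨-(b * ((w⁻¹ : Rˣ) : R)), ?_, ?_⟩
    · rw [mul_zero]
      exact (mul_eq_zero.mp h).resolve_right w.ne_zero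
    · rw [neg_mul, neg_neg, mul_assoc, Units.inv_mul, mul_one]
  · have h1 : v₂ ∣ a * v₁ := ⟨-b, by linear_combination h⟩
    obtain ⟨τ, hτ⟩ := hv.symm.dvd_of_dvd_mul_right h1
    refine ⟨τ, by rw [hτ, mul_comm], ?_⟩
    apply mul_right_cancel₀ h2
    rw [hτ] at h
    linear_combination h

/-- The local structure of the kernel. -/
lemma l2_core (hx : Coord K x) (hM : Bun x M) (hr : RS x j f x') (e : M →ₗ[S] S') (he0 : e ≠ 0)
    (hprim : ∀ (c : S') (θ : M →ₗ[S] S'), e = c • θ → IsUnit c) (p' : Ideal S')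
    (hp' : p'.IsPrime) (hi : ∃ i, x' i ∉ p') :
    ∃ s : S, algebraMap S S' s ∉ p' ∧ ∃ (m₁ m₂ : M) (w₁ w₂ : S),
      e (w₂ • m₁ - w₁ • m₂) = 0 ∧
      (∀ m, e m = 0 → ∃ t a b : S, s • m = t • (w₂ • m₁ - w₁ • m₂) + a • (x j • m₁) +
        b • (x j • m₂)) ∧
      (∀ a b : S, a • m₁ + b • m₂ = 0 → a = 0 ∧ b = 0) ∧
      (algebraMap S S' w₁ ≠ 0 ∨ algebraMap S S' w₂ ≠ 0) ∧
      ((∀ m, e m ∈ p') → algebraMap S S' w₁ ∈ p' ∧ algebraMap S S' w₂ ∈ p') ∧
      ((∃ m, e m ∉ p') → algebraMap S S' w₁ ∉ p' ∨ algebraMap S S' w₂ ∉ p') := by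
  have hx' := hr.coord hx
  have := hx'.isDomain
  have := hx'.ufm
  obtain ⟨hp, hjp, hi2⟩ := hr.comap p' hp' hi
  obtain ⟨s, hs, m₁, m₂, θ₁, θ₂, h1, h11, h12, h21, h22, hind⟩ :=
    Bun.local hx hM (p'.comap (algebraMap S S')) hp hi2
  have hs' : algebraMap S S' s ∉ p' := hs
  have hs0 : algebraMap S S' s ≠ 0 := fun h => hs' (h ▸ p'.zero_mem)
  have hem : ∀ m, algebraMap S S' s * e m =
      algebraMap S S' (θ₁ m) * e m₁ + algebraMap S S' (θ₂ m) * e m₂ := by
    intro m
    have := congrArg e (h1 m)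
    rw [map_smul, map_add, map_smul, map_smul, Algebra.smul_def, Algebra.smul_def,
      Algebra.smul_def] at this
    exact this
  have hu : e m₁ ≠ 0 ∨ e m₂ ≠ 0 := by
    by_contra hcon
    rw [not_or, not_not, not_not] at hcon
    apply he0
    ext m
    have := hem m
    rw [hcon.1, hcon.2, mul_zero, mul_zero, add_zero] at this
    exact (mul_eq_zero.mp this).resolve_left hs0
  obtain ⟨v₁, v₂, g, hv, hg1, hg2⟩ : ∃ v₁ v₂ g : S', IsRelPrime v₁ v₂ ∧ g * v₁ = e m₁ ∧
      g * v₂ = e m₂ := by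
    rcases hu with hu | hu
    · exact UniqueFactorizationMonoid.exists_reduced_factors _ hu _
    · exact UniqueFactorizationMonoid.exists_reduced_factors' _ _ hu
  have hg0 : g ≠ 0 := by
    rintro rfl
    rw [zero_mul] at hg1 hg2
    rcases hu with hu | hu
    · exact hu hg1.symm
    · exact hu hg2.symm
  have hgp : g ∉ p' := by
    obtain ⟨g', s', c, hrel, hc1, hc2⟩ :=
      UniqueFactorizationMonoid.exists_reduced_factors g hg0 (algebraMap S S' s)
    have hc0 : c ≠ 0 := by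
      rintro rfl
      rw [zero_mul] at hc1
      exact hg0 hc1.symm
    have hg'0 : g' ≠ 0 := by
      rintro rfl
      rw [mul_zero] at hc1
      exact hg0 hc1.symm
    have hdvd : ∀ m, g' ∣ e m := by
      intro m
      have h2 := hem m
      rw [← hc2, ← hg1, ← hg2, ← hc1] at h2
      have h3 : s' * e m = g' * (algebraMap S S' (θ₁ m) * v₁ + algebraMap S S' (θ₂ m) * v₂) := by
        apply mul_left_cancel₀ hc0
        linear_combination h2
      exact hrel.dvd_of_dvd_mul_left ⟨_, h3⟩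
    choose θ hθ using hdvd
    have hunit : IsUnit g' := by
      refine hprim g' ⟨⟨θ, ?_⟩, ?_⟩ ?_
      · intro m n
        apply mul_left_cancel₀ hg'0
        rw [← hθ, map_add, hθ m, hθ n, mul_add]
      · intro a m
        apply mul_left_cancel₀ hg'0
        show g' * θ (a • m) = g' * (a • θ m)
        rw [← hθ, map_smul, hθ m, mul_smul_comm]
      · ext m
        exact hθ m
    intro hgm
    apply hs'
    rw [← hc2]
    rw [← hc1] at hgm
    rcases hp'.mem_or_mem hgm with h | h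
    · exact Ideal.mul_mem_right _ _ h
    · exact absurd (Ideal.eq_top_of_isUnit_mem _ h hunit) hp'.ne_top
  obtain ⟨w₁, hw₁⟩ := hr.surj v₁
  obtain ⟨w₂, hw₂⟩ := hr.surj v₂
  refine ⟨s, hs', m₁, m₂, w₁, w₂, ?_, ?_, hind, ?_, ?_, ?_⟩
  · rw [map_sub, map_smul, map_smul, Algebra.smul_def, Algebra.smul_def, hw₁, hw₂, ← hg1, ← hg2]
    ring
  · intro m hm
    have h2 := hem m
    rw [hm, mul_zero, ← hg1, ← hg2] at h2
    have h3 : algebraMap S S' (θ₁ m) * v₁ + algebraMap S S' (θ₂ m) * v₂ = 0 := by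
      apply mul_left_cancel₀ hg0
      linear_combination -h2
    obtain ⟨τ, hτ1, hτ2⟩ := l2_syz hv h3
    obtain ⟨t, rfl⟩ := hr.surj τ
    obtain ⟨a, ha⟩ := hr.ker (θ₁ m - t * w₂) (by rw [map_sub, map_mul, hw₂, hτ1, sub_self])
    obtain ⟨b, hb⟩ := hr.ker (θ₂ m + t * w₁) (by rw [map_add, map_mul, hw₁, hτ2, neg_add_cancel])
    refine ⟨t, a, b, ?_⟩
    rw [h1, eq_add_of_sub_eq ha, eq_sub_of_add_eq hb]
    module
  · by_contra hcon
    rw [not_or, not_not, not_not, hw₁, hw₂] at hcon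
    rw [hcon.1, hcon.2] at hv
    exact not_isUnit_zero (hv dvd_rfl dvd_rfl)
  · intro hall
    rw [hw₁, hw₂]
    have e1 := hall m₁
    have e2 := hall m₂
    rw [← hg1] at e1
    rw [← hg2] at e2
    exact ⟨(hp'.mem_or_mem e1).resolve_left hgp, (hp'.mem_or_mem e2).resolve_left hgp⟩
  · rintro ⟨m, hm⟩
    by_contra hcon
    rw [not_or, not_not, not_not, hw₁, hw₂] at hcon
    have h2 := hem m
    have h3 : algebraMap S S' s * e m ∈ p' := by
      rw [h2, ← hg1, ← hg2]
      exact Ideal.add_mem _ (Ideal.mul_mem_left _ _ (Ideal.mul_mem_left _ _ hcon.1))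
        (Ideal.mul_mem_left _ _ (Ideal.mul_mem_left _ _ hcon.2))
    rcases hp'.mem_or_mem h3 with h | h
    · exact hs' h
    · exact hm h

/-- The kernel of `e` is locally generated by three elements. -/
lemma kerloc3 (hx : Coord K x) (hM : Bun x M) (hr : RS x j f x') (e : M →ₗ[S] S') (he0 : e ≠ 0)
    (hprim : ∀ (c : S') (θ : M →ₗ[S] S'), e = c • θ → IsUnit c) (p' : Ideal S')
    (hp' : p'.IsPrime) (hi : ∃ i, x' i ∉ p') :
    ∃ s : S, algebraMap S S' s ∉ p' ∧ ∃ g : Fin 3 → M, (∀ k, e (g k) = 0) ∧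
      (∀ m, e m = 0 → s • m ∈ Submodule.span S (Set.range g)) ∧
      ∀ ρ : Fin 3 → S, ∑ k, ρ k • g k = 0 → (∀ m, e m ∈ p') →
        ∀ k, algebraMap S S' (ρ k) ∈ p' := by
  have hx' := hr.coord hx
  have := hx'.isDomain
  have := hx.isDomain
  obtain ⟨s, hs, m₁, m₂, w₁, w₂, e0, hgen, hind, hw0, hwin, -⟩ :=
    l2_core hx hM hr e he0 hprim p' hp' hi
  have ej : ∀ m, e (x j • m) = 0 := by
    intro m
    rw [map_smul, Algebra.smul_def, hr.xj, zero_mul]
  refine ⟨s, hs, ![w₂ • m₁ - w₁ • m₂, x j • m₁, x j • m₂], ?_, ?_, ?_⟩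
  · intro k
    fin_cases k
    · exact e0
    · exact ej m₁
    · exact ej m₂
  · intro m hm
    obtain ⟨t, a, b, h⟩ := hgen m hm
    rw [Submodule.mem_span_range_iff_exists_fun]
    exact ⟨![t, a, b], by rw [h]; simp [Fin.sum_univ_three]⟩
  · intro ρ hρ hall
    obtain ⟨hw1, hw2⟩ := hwin hall
    simp only [Fin.sum_univ_three, Matrix.cons_val_zero, Matrix.cons_val_one,
      Matrix.cons_val] at hρ
    have h1 : (ρ 0 * w₂ + ρ 1 * x j) • m₁ + (ρ 2 * x j - ρ 0 * w₁) • m₂ = 0 := by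
      rw [← hρ]
      module
    obtain ⟨h2, h3⟩ := hind _ _ h1
    have hj0 : x j ≠ 0 := (hx.prime_x j).ne_zero
    have h4 : algebraMap S S' (ρ 0) = 0 := by
      have e2 := congrArg (algebraMap S S') h2
      have e3 := congrArg (algebraMap S S') h3
      rw [map_add, map_mul, map_mul, hr.xj, mul_zero, add_zero, map_zero] at e2
      rw [map_sub, map_mul, map_mul, hr.xj, mul_zero, zero_sub, map_zero, neg_eq_zero] at e3
      rcases hw0 with h | h
      · exact (mul_eq_zero.mp e3).resolve_right h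
      · exact (mul_eq_zero.mp e2).resolve_right h
    obtain ⟨c, hc⟩ := hr.ker _ h4
    have h5 : ρ 1 = -(c * w₂) := by
      apply mul_right_cancel₀ hj0
      rw [hc] at h2
      linear_combination h2
    have h6 : ρ 2 = c * w₁ := by
      apply mul_right_cancel₀ hj0
      rw [hc] at h3
      linear_combination h3
    intro k
    fin_cases k
    · show algebraMap S S' (ρ 0) ∈ p'
      rw [h4]; exact p'.zero_mem
    · show algebraMap S S' (ρ 1) ∈ p'
      rw [h5, map_neg, map_mul]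
      exact p'.neg_mem (Ideal.mul_mem_left _ _ hw2)
    · show algebraMap S S' (ρ 2) ∈ p'
      rw [h6, map_mul]
      exact Ideal.mul_mem_left _ _ hw1

/-- The kernel of `e` is locally generated by two elements outside the zero set of `e`. -/
lemma kerloc2 (hx : Coord K x) (hM : Bun x M) (hr : RS x j f x') (e : M →ₗ[S] S') (he0 : e ≠ 0)
    (hprim : ∀ (c : S') (θ : M →ₗ[S] S'), e = c • θ → IsUnit c) (p' : Ideal S')
    (hp' : p'.IsPrime) (hi : ∃ i, x' i ∉ p') (h : ∃ m, e m ∉ p') :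
    ∃ s : S, algebraMap S S' s ∉ p' ∧ ∃ g : Fin 2 → M, (∀ k, e (g k) = 0) ∧
      ∀ m, e m = 0 → s • m ∈ Submodule.span S (Set.range g) := by
  obtain ⟨s, hs, m₁, m₂, w₁, w₂, e0, hgen, hind, -, -, hwout⟩ :=
    l2_core hx hM hr e he0 hprim p' hp' hi
  have ej : ∀ m, e (x j • m) = 0 := by
    intro m
    rw [map_smul, Algebra.smul_def, hr.xj, zero_mul]
  rcases hwout h with hw | hw
  · refine ⟨s * w₁, ?_, ![w₂ • m₁ - w₁ • m₂, x j • m₁], ?_, ?_⟩
    · rw [map_mul]
      intro hmem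
      rcases hp'.mem_or_mem hmem with h | h
      · exact hs h
      · exact hw h
    · intro k
      fin_cases k
      · exact e0
      · exact ej m₁
    · intro m hm
      obtain ⟨t, a, b, h⟩ := hgen m hm
      rw [Submodule.mem_span_range_iff_exists_fun]
      refine ⟨![w₁ * t - b * x j, w₁ * a + b * w₂], ?_⟩
      rw [mul_comm s w₁, mul_smul w₁, h, Fin.sum_univ_two]
      simp only [Matrix.cons_val_zero, Matrix.cons_val_one]
      module
  · refine ⟨s * w₂, ?_, ![w₂ • m₁ - w₁ • m₂, x j • m₂], ?_, ?_⟩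
    · rw [map_mul]
      intro hmem
      rcases hp'.mem_or_mem hmem with h | h
      · exact hs h
      · exact hw h
    · intro k
      fin_cases k
      · exact e0
      · exact ej m₂
    · intro m hm
      obtain ⟨t, a, b, h⟩ := hgen m hm
      rw [Submodule.mem_span_range_iff_exists_fun]
      refine ⟨![w₂ * t + a * x j, w₂ * b + a * w₁], ?_⟩
      rw [mul_comm s w₂, mul_smul w₂, h, Fin.sum_univ_two]
      simp only [Matrix.cons_val_zero, Matrix.cons_val_one]
      module

end rowL2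

end Pool.Agent.Lib.MP_745d3a_ag.PF

end

section

set_option autoImplicit false

open MvPolynomial

namespace Pool.Agent.Lib.MP_745d3a_ag.PF

section rowL3

variable {K S S' ι ι' M : Type*} [Field K] [CommRing S] [Algebra K S] [CommRing S'] [Algebra K S']
  [Algebra S S'] [IsScalarTower K S S'] {x : ι → S} {j : ι} {f : ι' → ι} {x' : ι' → S'}
  [AddCommGroup M] [Module S M]

/-- Functionals on the kernel of `e` which vanish on `a M`. -/
def L3T (a : S) (e : M →ₗ[S] S') : Submodule S' (LinearMap.ker e →ₗ[S] S') where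
  carrier := {θ | ∀ (p : LinearMap.ker e) (m : M), (p : M) = a • m → θ p = 0}
  zero_mem' := fun _ _ _ => rfl
  add_mem' := by
    intro θ η hθ hη p m h
    rw [LinearMap.add_apply, hθ p m h, hη p m h, add_zero]
  smul_mem' := by
    intro c θ hθ p m h
    rw [LinearMap.smul_apply, hθ p m h, smul_zero]

lemma L3_mem {a : S} {e : M →ₗ[S] S'} {θ : LinearMap.ker e →ₗ[S] S'} :
    θ ∈ L3T a e ↔ ∀ (p : LinearMap.ker e) (m : M), (p : M) = a • m → θ p = 0 := Iff.rfl

lemma L3_indep [Finite ι] (hx : Coord K x) (hM : Bun x M) (hr : RS x j f x') [Nonempty ι']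
    (e : M →ₗ[S] S') (he0 : e ≠ 0) :
    ∃ θ₀ : M →ₗ[S] S', ∀ a b : S', a • e + b • θ₀ = 0 → a = 0 ∧ b = 0 := by
  have hx' : Coord K x' := hr.coord hx
  have := hx'.isDomain
  have hN : Bun x' (M →ₗ[S] S') := hM.dual hx hr
  obtain ⟨i⟩ := ‹Nonempty ι'›
  have hp : (⊥ : Ideal S').IsPrime := Ideal.isPrime_bot
  have hxi : x' i ∉ (⊥ : Ideal S') := by
    rw [Ideal.mem_bot]
    exact (hx'.prime_x i).ne_zero
  obtain ⟨s, hs, m₁, m₂, _, hind⟩ := hN.lf ⊥ hp ⟨i, hxi⟩
  by_contra hcon
  push Not at hcon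
  obtain ⟨a, b, hab, h1⟩ := hcon m₁
  obtain ⟨a', b', hab', h1'⟩ := hcon m₂
  have h2 : (a' * b) • m₁ + (-(a * b')) • m₂ = 0 := by
    ext m
    have h3 := congrArg (fun φ : M →ₗ[S] S' => φ m) hab
    have h4 := congrArg (fun φ : M →ₗ[S] S' => φ m) hab'
    simp only [LinearMap.add_apply, LinearMap.smul_apply, smul_eq_mul,
      LinearMap.zero_apply] at h3 h4 ⊢
    linear_combination a' * h3 - a * h4
  obtain ⟨h3, h4⟩ := hind _ _ h2
  rw [neg_eq_zero] at h4
  have hb : b ≠ 0 := by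
    intro hb
    rw [hb, zero_smul, add_zero] at hab
    rcases hN.tf a e hab with h | h
    · exact h1 h hb
    · exact he0 h
  have hb' : b' ≠ 0 := by
    intro hb
    rw [hb, zero_smul, add_zero] at hab'
    rcases hN.tf a' e hab' with h | h
    · exact h1' h hb
    · exact he0 h
  have ha' : a' = 0 := (mul_eq_zero.1 h3).resolve_right hb
  have ha : a = 0 := (mul_eq_zero.1 h4).resolve_right hb'
  rw [ha, zero_smul, zero_add] at hab
  have := (hind b 0 (by rw [hab, zero_smul, add_zero])).1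
  exact hb this

lemma L3_key [Finite ι] (hx : Coord K x) (hM : Bun x M) (hr : RS x j f x') [Nonempty ι']
    (e θ₀ : M →ₗ[S] S') (hind : ∀ a b : S', a • e + b • θ₀ = 0 → a = 0 ∧ b = 0) (m : M)
    (h1 : e m = 0) (h2 : θ₀ m = 0) : ∃ n, m = x j • n := by
  have hx' : Coord K x' := hr.coord hx
  have := hx'.isDomain
  refine hM.torsionless hx hr m fun θ => ?_
  obtain ⟨c, a, b, hc, h⟩ := (hM.dual hx hr).dep3 hx' e θ₀ θ hind
  have h3 := congrArg (fun φ : M →ₗ[S] S' => φ m) h
  simp only [LinearMap.smul_apply, LinearMap.add_apply, h1, h2, smul_eq_mul] at h3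
  rw [mul_zero, mul_zero, add_zero] at h3
  exact (mul_eq_zero.1 h3).resolve_left hc

lemma L3_cross [Finite ι] (hx : Coord K x) (hM : Bun x M) (hr : RS x j f x') [Nonempty ι']
    (e θ₀ : M →ₗ[S] S') (hind : ∀ a b : S', a • e + b • θ₀ = 0 → a = 0 ∧ b = 0)
    (u : LinearMap.ker e →ₗ[S] S') (hu : u ∈ L3T (x j) e) (p q : LinearMap.ker e) :
    θ₀ (q : M) * u p = θ₀ (p : M) * u q := by
  obtain ⟨a, ha⟩ := hr.surj (θ₀ (q : M))
  obtain ⟨b, hb⟩ := hr.surj (θ₀ (p : M))
  have h1 : e ((a • p - b • q : LinearMap.ker e) : M) = 0 := (a • p - b • q : LinearMap.ker e).2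
  have h2 : θ₀ ((a • p - b • q : LinearMap.ker e) : M) = 0 := by
    rw [Submodule.coe_sub, Submodule.coe_smul, Submodule.coe_smul, map_sub, map_smul, map_smul,
      Algebra.smul_def, Algebra.smul_def, ha, hb]
    ring
  obtain ⟨n, hn⟩ := L3_key hx hM hr e θ₀ hind _ h1 h2
  have h3 := L3_mem.1 hu _ n hn
  rw [map_sub, map_smul, map_smul, Algebra.smul_def, Algebra.smul_def, ha, hb, sub_eq_zero] at h3
  exact h3

lemma L3_nonzero (hr : RS x j f x') [IsDomain S'] (e θ₀ : M →ₗ[S] S') (he0 : e ≠ 0)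
    (hind : ∀ a b : S', a • e + b • θ₀ = 0 → a = 0 ∧ b = 0) :
    ∃ q : LinearMap.ker e, θ₀ (q : M) ≠ 0 := by
  by_contra hcon
  push Not at hcon
  obtain ⟨m₂, hm₂⟩ : ∃ m₂, e m₂ ≠ 0 := by
    by_contra h
    push Not at h
    exact he0 (LinearMap.ext h)
  obtain ⟨b, hb⟩ := hr.surj (e m₂)
  have h1 : (-(θ₀ m₂)) • e + (e m₂) • θ₀ = 0 := by
    ext m₁
    obtain ⟨a, ha⟩ := hr.surj (e m₁)
    have h2 : e (b • m₁ - a • m₂) = 0 := by
      rw [map_sub, map_smul, map_smul, Algebra.smul_def, Algebra.smul_def, ha, hb]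
      ring
    have h3 := hcon ⟨b • m₁ - a • m₂, h2⟩
    simp only [map_sub, map_smul, Algebra.smul_def, ha, hb] at h3
    simp only [LinearMap.add_apply, LinearMap.smul_apply, smul_eq_mul, LinearMap.zero_apply]
    linear_combination h3
  exact hm₂ (hind _ _ h1).2

/-- The module of functionals is cyclic. -/
lemma L3_gen [Finite ι] [Finite ι'] (hx : Coord K x) (hM : Bun x M) (hr : RS x j f x')
    [Nonempty ι'] (e θ₀ : M →ₗ[S] S') (he0 : e ≠ 0)
    (hind : ∀ a b : S', a • e + b • θ₀ = 0 → a = 0 ∧ b = 0) {r : ℕ} (l : Fin r → M)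
    (hl : ∀ k, e (l k) = 0) (hgen : ∀ m, e m = 0 → m ∈ Submodule.span S (Set.range l)) :
    ∃ T ∈ L3T (x j) e, ∀ u ∈ L3T (x j) e, ∃ c : S', u = c • T := by
  have hx' : Coord K x' := hr.coord hx
  have := hx'.isDomain
  have := hx'.ufm
  have := hx'.noeth
  obtain ⟨q, hq⟩ := L3_nonzero hr e θ₀ he0 hind
  have hcross := L3_cross hx hM hr e θ₀ hind
  -- finiteness
  let A : (LinearMap.ker e →ₗ[S] S') →ₗ[S'] (Fin r → S') :=
    { toFun := fun θ k => θ ⟨l k, hl k⟩
      map_add' := fun _ _ => rfl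
      map_smul' := fun _ _ => rfl }
  have hA : Function.Injective (A ∘ₗ (L3T (x j) e).subtype) := by
    intro θ θ' hθ
    apply Subtype.ext
    ext p
    obtain ⟨a, ha⟩ := (Submodule.mem_span_range_iff_exists_fun S).1 (hgen p p.2)
    have h1 : p = ∑ k, a k • (⟨l k, hl k⟩ : LinearMap.ker e) := by
      apply Subtype.ext
      rw [← ha]
      simp
    rw [h1, map_sum, map_sum]
    refine Finset.sum_congr rfl fun k _ => ?_
    rw [map_smul, map_smul]
    have h2 : (θ : LinearMap.ker e →ₗ[S] S') ⟨l k, hl k⟩ =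
        (θ' : LinearMap.ker e →ₗ[S] S') ⟨l k, hl k⟩ := congrFun hθ k
    rw [h2]
  have : Module.Finite S' (L3T (x j) e) := Module.Finite.of_injective _ hA
  have htf : ∀ (a : S') (m : L3T (x j) e), a • m = 0 → a = 0 ∨ m = 0 := by
    intro a m h
    by_cases ha : a = 0
    · exact Or.inl ha
    · right
      apply Subtype.ext
      ext p
      have h1 := congrArg (fun φ : L3T (x j) e => (φ : LinearMap.ker e →ₗ[S] S') p) h
      simp only [Submodule.coe_smul, LinearMap.smul_apply, smul_eq_mul, Submodule.coe_zero,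
        LinearMap.zero_apply, mul_eq_zero] at h1
      exact h1.resolve_left ha
  have hht : ∀ a b : S', IsRelPrime a b → ∀ m n : L3T (x j) e, a • m = b • n →
      ∃ k, m = b • k := by
    intro a b hab m n hmn
    by_cases hb : b = 0
    · rw [hb] at hab hmn ⊢
      have ha : IsUnit a := isRelPrime_zero_right.1 hab
      refine ⟨0, ?_⟩
      rw [zero_smul] at hmn
      rw [smul_zero]
      rcases htf a m hmn with h | h
      · rw [h] at ha; exact absurd ha not_isUnit_zero
      · exact h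
    · have h1 : ∀ p, ∃ t, (m : LinearMap.ker e →ₗ[S] S') p = b * t := by
        intro p
        have h2 := congrArg (fun φ : L3T (x j) e => (φ : LinearMap.ker e →ₗ[S] S') p) hmn
        simp only [Submodule.coe_smul, LinearMap.smul_apply, smul_eq_mul] at h2
        have h3 : b ∣ a * (m : LinearMap.ker e →ₗ[S] S') p := ⟨_, h2⟩
        exact hab.symm.dvd_of_dvd_mul_left h3
      choose t ht using h1
      refine ⟨⟨{ toFun := t, map_add' := ?_, map_smul' := ?_ }, ?_⟩, ?_⟩
      · intro p p'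
        apply mul_left_cancel₀ hb
        rw [← ht, mul_add, ← ht, ← ht, map_add]
      · intro c p
        apply mul_left_cancel₀ hb
        rw [← ht, map_smul, ht, RingHom.id_apply, Algebra.smul_def, Algebra.smul_def]
        ring
      · intro p v hpv
        apply mul_left_cancel₀ hb
        show b * t p = b * 0
        rw [← ht, mul_zero]
        exact L3_mem.1 m.2 p v hpv
      · apply Subtype.ext
        ext p
        show (m : LinearMap.ker e →ₗ[S] S') p = b * t p
        exact ht p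
  have hdep : ∀ u v : L3T (x j) e, ∃ a b : S', (a ≠ 0 ∨ b ≠ 0) ∧ a • u = b • v := by
    intro u v
    have hu := fun p => hcross u u.2 p q
    have hv := fun p => hcross v v.2 p q
    by_cases h0 : (v : LinearMap.ker e →ₗ[S] S') q = 0 ∧ (u : LinearMap.ker e →ₗ[S] S') q = 0
    · have hu0 : u = 0 := by
        apply Subtype.ext
        ext p
        have h1 := hu p
        rw [h0.2, mul_zero, mul_eq_zero] at h1
        exact h1.resolve_left hq
      have hv0 : v = 0 := by
        apply Subtype.ext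
        ext p
        have h1 := hv p
        rw [h0.1, mul_zero, mul_eq_zero] at h1
        exact h1.resolve_left hq
      exact ⟨1, 1, Or.inl one_ne_zero, by rw [hu0, hv0]⟩
    · refine ⟨(v : LinearMap.ker e →ₗ[S] S') q, (u : LinearMap.ker e →ₗ[S] S') q, ?_, ?_⟩
      · by_contra hcon
        push Not at hcon
        exact h0 hcon
      · apply Subtype.ext
        ext p
        simp only [Submodule.coe_smul, LinearMap.smul_apply, smul_eq_mul]
        apply mul_left_cancel₀ hq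
        linear_combination ((v : LinearMap.ker e →ₗ[S] S') q) * hu p -
          ((u : LinearMap.ker e →ₗ[S] S') q) * hv p
  obtain ⟨T, hT⟩ := cyclic (S := S') (V := L3T (x j) e) htf hht hdep
  refine ⟨T, T.2, fun u hu => ?_⟩
  obtain ⟨c, hc⟩ := hT ⟨u, hu⟩
  exact ⟨c, congrArg Subtype.val hc⟩

/-- The generator does not vanish at the primes missing a coordinate. -/
lemma L3_local [Finite ι] (hx : Coord K x) (hM : Bun x M) (hr : RS x j f x')
    [Nonempty ι'] (e : M →ₗ[S] S') (he0 : e ≠ 0) (T : LinearMap.ker e →ₗ[S] S')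
    (hT0 : T ≠ 0) (hT : ∀ u ∈ L3T (x j) e, ∃ c : S', u = c • T)
    (p' : Ideal S') (hp' : p'.IsPrime) (hi : ∃ i, x' i ∉ p') : ∃ q, T q ∉ p' := by
  have hx' : Coord K x' := hr.coord hx
  have := hx'.isDomain
  have := hx'.ufm
  obtain ⟨hp, _, hpi⟩ := hr.comap p' hp' hi
  obtain ⟨s, hs, m₁, m₂, θ₁, θ₂, hsm, h11, h12, h21, h22, _⟩ := hM.local hx _ hp hpi
  rw [Ideal.mem_comap] at hs
  have hs0 : algebraMap S S' s ≠ 0 := fun h => hs (h ▸ p'.zero_mem)
  have he : ∀ m, algebraMap S S' s * e m =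
      algebraMap S S' (θ₁ m) * e m₁ + algebraMap S S' (θ₂ m) * e m₂ := by
    intro m
    rw [← Algebra.smul_def, ← map_smul, hsm, map_add, map_smul, map_smul, Algebra.smul_def,
      Algebra.smul_def]
  obtain ⟨v₁, v₂, g, hrel, hg₁, hg₂, hg⟩ : ∃ v₁ v₂ g : S', IsRelPrime v₁ v₂ ∧ g * v₁ = e m₁ ∧
      g * v₂ = e m₂ ∧ g ≠ 0 := by
    by_cases h1 : e m₁ = 0
    · have h2 : e m₂ ≠ 0 := by
        intro h2
        apply he0
        ext m
        have := he m
        rw [h1, h2, mul_zero, mul_zero, add_zero, mul_eq_zero] at this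
        exact this.resolve_left hs0
      obtain ⟨a', b', c', h3, h4, h5⟩ :=
        UniqueFactorizationMonoid.exists_reduced_factors' (e m₁) (e m₂) h2
      refine ⟨a', b', c', h3, h4, h5, ?_⟩
      rintro rfl
      rw [zero_mul] at h5
      exact h2 h5.symm
    · obtain ⟨a', b', c', h3, h4, h5⟩ :=
        UniqueFactorizationMonoid.exists_reduced_factors (e m₁) h1 (e m₂)
      refine ⟨a', b', c', h3, h4, h5, ?_⟩
      rintro rfl
      rw [zero_mul] at h4
      exact h1 h4.symm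
  -- the functionals θ₁, θ₂
  have hmem : ∀ θ : M →ₗ[S] S, (((Algebra.linearMap S S') ∘ₗ θ) ∘ₗ (LinearMap.ker e).subtype) ∈
      L3T (x j) e := by
    intro θ
    rw [L3_mem]
    intro p m hpm
    simp only [LinearMap.comp_apply, Submodule.subtype_apply, Algebra.linearMap_apply]
    rw [hpm, map_smul, smul_eq_mul, map_mul, hr.xj, zero_mul]
  obtain ⟨c₁, hc₁⟩ := hT _ (hmem θ₁)
  obtain ⟨c₂, hc₂⟩ := hT _ (hmem θ₂)
  have hc₁' : ∀ p : LinearMap.ker e, algebraMap S S' (θ₁ p) = c₁ * T p := fun p =>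
    congrArg (fun φ : LinearMap.ker e →ₗ[S] S' => φ p) hc₁
  have hc₂' : ∀ p : LinearMap.ker e, algebraMap S S' (θ₂ p) = c₂ * T p := fun p =>
    congrArg (fun φ : LinearMap.ker e →ₗ[S] S' => φ p) hc₂
  obtain ⟨p₀, hp₀⟩ : ∃ p, T p ≠ 0 := by
    by_contra h
    push Not at h
    exact hT0 (LinearMap.ext h)
  have hcc : c₁ * v₁ + c₂ * v₂ = 0 := by
    have h1 := he p₀
    have h2 : e (p₀ : M) = 0 := p₀.2
    rw [h2, mul_zero, hc₁', hc₂', ← hg₁, ← hg₂] at h1
    have h3 : (g * T p₀) * (c₁ * v₁ + c₂ * v₂) = 0 := by linear_combination -h1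
    exact (mul_eq_zero.1 h3).resolve_left (mul_ne_zero hg hp₀)
  obtain ⟨w₁, hw₁⟩ := hr.surj v₁
  obtain ⟨w₂, hw₂⟩ := hr.surj v₂
  have hq : e (w₂ • m₁ - w₁ • m₂) = 0 := by
    rw [map_sub, map_smul, map_smul, Algebra.smul_def, Algebra.smul_def, hw₁, hw₂, ← hg₁, ← hg₂]
    ring
  refine ⟨⟨w₂ • m₁ - w₁ • m₂, hq⟩, fun hmemp => hs ?_⟩
  have hq₁ := hc₁' ⟨w₂ • m₁ - w₁ • m₂, hq⟩
  have hq₂ := hc₂' ⟨w₂ • m₁ - w₁ • m₂, hq⟩
  simp only [map_sub, map_smul, smul_eq_mul, h11, h12, h21, h22, mul_zero, sub_zero, zero_sub,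
    map_mul, map_neg, hw₁, hw₂] at hq₁ hq₂
  set τ := T ⟨w₂ • m₁ - w₁ • m₂, hq⟩ with hτ
  by_cases hv₂ : v₂ = 0
  · have hv₁ : v₁ ≠ 0 := by
      rintro rfl
      rw [hv₂] at hrel
      exact not_isUnit_zero (isRelPrime_zero_right.1 hrel)
    have h1 : v₁ ∣ c₂ * v₂ := ⟨-c₁, by linear_combination hcc⟩
    obtain ⟨d, hd⟩ := hrel.dvd_of_dvd_mul_right h1
    have h2 : algebraMap S S' s = -(d * τ) := by
      apply mul_left_cancel₀ hv₁
      rw [hd] at hq₂
      linear_combination -hq₂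
    rw [h2]
    exact neg_mem (Ideal.mul_mem_left _ _ hmemp)
  · have h1 : v₂ ∣ c₁ * v₁ := ⟨-c₂, by linear_combination hcc⟩
    obtain ⟨d, hd⟩ := hrel.symm.dvd_of_dvd_mul_right h1
    have h2 : algebraMap S S' s = d * τ := by
      apply mul_left_cancel₀ hv₂
      rw [hd] at hq₁
      linear_combination hq₁
    rw [h2]
    exact Ideal.mul_mem_left _ _ hmemp

variable [Module K M] [IsScalarTower K S M] [CharZero K]

/-- Lemma B. -/
lemma lemB [Fintype ι'] [Finite ι] (hx : Coord K x) (hM : Bun x M) (hr : RS x j f x')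
    {E : Derivation K S S} (hE : IsEuler x E) {ε : M →ₗ[K] M} (hε : IsConn E ε) (hd : Diag ε)
    (e : M →ₗ[S] S') (he0 : e ≠ 0)
    (hprim : ∀ (c : S') (θ : M →ₗ[S] S'), e = c • θ → IsUnit c) {r : ℕ}
    (hrc : r < Fintype.card ι') (l : Fin r → M) (hl : ∀ k, e (l k) = 0)
    (hgen : ∀ m, e m = 0 → m ∈ Submodule.span S (Set.range l)) :
    ∃ u : Fin r → M, Submodule.span S (Set.range u) = ⊤ := by
  classical
  have hx' : Coord K x' := hr.coord hx
  have := hx'.isDomain
  have := hx.isDomain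
  have : Nonempty ι' := Fintype.card_pos_iff.1 (by omega)
  obtain ⟨θ₀, hind⟩ := L3_indep hx hM hr e he0
  obtain ⟨T, hTm, hT⟩ := L3_gen hx hM hr e θ₀ he0 hind l hl hgen
  -- θ₀ restricted to the kernel
  have hθ₀ : (θ₀ ∘ₗ (LinearMap.ker e).subtype) ∈ L3T (x j) e := by
    rw [L3_mem]
    intro p m hpm
    simp only [LinearMap.comp_apply, Submodule.subtype_apply]
    rw [hpm, map_smul, Algebra.smul_def, hr.xj, zero_mul]
  obtain ⟨c₀, hc₀⟩ := hT _ hθ₀
  have hc₀' : ∀ p : LinearMap.ker e, θ₀ (p : M) = c₀ * T p := fun p =>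
    congrArg (fun φ : LinearMap.ker e →ₗ[S] S' => φ p) hc₀
  have hT0 : T ≠ 0 := by
    rintro rfl
    obtain ⟨q, hq⟩ := L3_nonzero hr e θ₀ he0 hind
    apply hq
    rw [hc₀', LinearMap.zero_apply, mul_zero]
  have hTker : ∀ p : LinearMap.ker e, T p = 0 → ∃ n, (p : M) = x j • n := by
    intro p hp
    refine L3_key hx hM hr e θ₀ hind _ p.2 ?_
    rw [hc₀', hp, mul_zero]
  set L : Fin r → LinearMap.ker e := fun k => ⟨l k, hl k⟩ with hL
  set t : Fin r → S' := fun k => T (L k) with ht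
  have hspan : ∀ p : LinearMap.ker e, ∃ a : Fin r → S, p = ∑ k, a k • L k := by
    intro p
    obtain ⟨a, ha⟩ := (Submodule.mem_span_range_iff_exists_fun S).1 (hgen p p.2)
    refine ⟨a, Subtype.ext ?_⟩
    rw [← ha]
    simp [hL]
  have htop : Ideal.span (Set.range t) = ⊤ := by
    refine hx'.krull hrc t ?_
    intro p' hp' hi
    by_contra hcon
    push Not at hcon
    obtain ⟨q, hq⟩ := L3_local hx hM hr e he0 T hT0 hT p' hp' hi
    apply hq
    obtain ⟨a, ha⟩ := hspan q
    rw [ha, map_sum]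
    refine p'.sum_mem fun k _ => ?_
    rw [map_smul, Algebra.smul_def]
    exact p'.mul_mem_left _ (hcon k)
  have h1 : (1 : S') ∈ Ideal.span (Set.range t) := by rw [htop]; trivial
  obtain ⟨a', ha'⟩ := (Submodule.mem_span_range_iff_exists_fun S').1 h1
  choose a ha using fun k => hr.surj (a' k)
  choose b hb using fun k => hr.surj (t k)
  have hsum1 : ∑ k, algebraMap S S' (a k) * t k = 1 := by
    rw [← ha']
    exact Finset.sum_congr rfl fun k _ => by rw [ha, smul_eq_mul]
  set g : LinearMap.ker e := ∑ k, a k • L k with hg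
  have hTg : T g = 1 := by
    rw [hg, map_sum, ← hsum1]
    exact Finset.sum_congr rfl fun k _ => by rw [map_smul, Algebra.smul_def]
  have hn : ∀ k, ∃ n : M, l k - b k • (g : M) = x j • n := by
    intro k
    have := hTker (L k - b k • g) (by
      rw [map_sub, map_smul, hTg, Algebra.smul_def, hb, mul_one, sub_self])
    simpa [hL] using this
  choose n hn using hn
  have htf := hM.tf
  have hxj0 : x j ≠ 0 := (hx.prime_x j).ne_zero
  have hcancel : ∀ u v : M, x j • u = x j • v → u = v := by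
    intro u v huv
    have h2 : x j • (u - v) = 0 := by rw [smul_sub, huv, sub_self]
    exact sub_eq_zero.1 ((htf _ _ h2).resolve_left hxj0)
  -- generation by `g` and `n k`
  have hgenM : ∀ m : M, ∃ (d : S) (c : Fin r → S), m = d • (g : M) + ∑ k, c k • n k := by
    intro m
    have h2 : e (x j • m) = 0 := by rw [map_smul, Algebra.smul_def, hr.xj, zero_mul]
    obtain ⟨c, hc⟩ := hspan ⟨x j • m, h2⟩
    have hTc : ∑ k, algebraMap S S' (c k * b k) = 0 := by
      have h3 : T ⟨x j • m, h2⟩ = 0 := L3_mem.1 hTm _ m rfl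
      rw [hc, map_sum] at h3
      rw [← h3]
      refine Finset.sum_congr rfl fun k _ => ?_
      rw [map_smul, Algebra.smul_def, map_mul, hb]
    rw [← map_sum] at hTc
    obtain ⟨d, hd⟩ := hr.ker _ hTc
    refine ⟨d, c, ?_⟩
    apply hcancel
    have h4 : x j • m = ∑ k, c k • l k := by
      have := congrArg Subtype.val hc
      simpa [hL] using this
    rw [h4, smul_add, Finset.smul_sum, ← mul_smul, ← hd, Finset.sum_smul, ← Finset.sum_add_distrib]
    refine Finset.sum_congr rfl fun k _ => ?_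
    rw [smul_comm (x j) (c k), ← hn k, smul_sub, mul_smul]
    abel
  -- the relation
  have hrel : ∃ d : S, ∑ k, a k • n k = d • (g : M) := by
    have h2 : algebraMap S S' (1 - ∑ k, a k * b k) = 0 := by
      rw [map_sub, map_one, map_sum, ← hsum1, sub_eq_zero]
      exact Finset.sum_congr rfl fun k _ => by rw [map_mul, hb]
    obtain ⟨d, hd⟩ := hr.ker _ h2
    refine ⟨d, ?_⟩
    apply hcancel
    rw [← mul_smul, ← hd, Finset.smul_sum]
    have h3 : ∀ k, x j • a k • n k = a k • l k - (a k * b k) • (g : M) := by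
      intro k
      rw [smul_comm, ← hn k, smul_sub, mul_smul]
    rw [Finset.sum_congr rfl fun k _ => h3 k, Finset.sum_sub_distrib, ← Finset.sum_smul, sub_smul,
      one_smul]
    congr 1
    rw [hg]
    simp [hL]
  obtain ⟨d, hd'⟩ := hrel
  -- some coefficient is a unit modulo the coordinates
  obtain ⟨k, hk⟩ : ∃ k, a k ∉ Ideal.span (Set.range x) := by
    by_contra hcon
    push Not at hcon
    apply one_notMem hx'
    rw [← hsum1]
    refine Ideal.sum_mem _ fun k _ => Ideal.mul_mem_right _ _ ?_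
    have h2 : Ideal.span (Set.range x) ≤
        (Ideal.span (Set.range x')).comap (algebraMap S S') := by
      rw [Ideal.span_le]
      rintro _ ⟨i, rfl⟩
      show algebraMap S S' (x i) ∈ Ideal.span (Set.range x')
      by_cases hij : i = j
      · rw [hij, hr.xj]; exact Ideal.zero_mem _
      · obtain ⟨i', rfl⟩ := hr.range i hij
        rw [hr.map]
        exact Ideal.subset_span ⟨i', rfl⟩
    exact h2 (hcon k)
  obtain ⟨c, hc⟩ := sub_const_mem hx (a k)
  have hc0 : c ≠ 0 := by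
    rintro rfl
    rw [map_zero, sub_zero] at hc
    exact hk hc
  have := hM.fin
  suffices hW' : ∀ v, v ∈ Submodule.span S (Set.range (Function.update n k (g : M))) ⊔
      Ideal.span (Set.range x) • (⊤ : Submodule S M) by
    obtain ⟨h, _, hh⟩ := exists_hom_gen hx hE hε hd r (Function.update n k (g : M)) hW'
    exact ⟨h, hh⟩
  · set W := Submodule.span S (Set.range (Function.update n k (g : M))) ⊔
      Ideal.span (Set.range x) • (⊤ : Submodule S M) with hW
    have hgW : (g : M) ∈ W := Submodule.mem_sup_left (Submodule.subset_span ⟨k, by simp⟩)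
    have hnW : ∀ i, i ≠ k → n i ∈ W := fun i hi =>
      Submodule.mem_sup_left (Submodule.subset_span ⟨i, by simp [hi]⟩)
    have hnk : n k ∈ W := by
      have h2 : algebraMap K S c • n k = d • (g : M) - ∑ i ∈ Finset.univ.erase k, a i • n i -
          (a k - algebraMap K S c) • n k := by
        rw [← hd', ← Finset.add_sum_erase _ _ (Finset.mem_univ k), sub_smul]
        abel
      have h3 : algebraMap K S c • n k ∈ W := by
        rw [h2]
        refine Submodule.sub_mem _ (Submodule.sub_mem _ (W.smul_mem _ hgW)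
          (W.sum_mem fun i hi => W.smul_mem _ (hnW i (Finset.ne_of_mem_erase hi)))) ?_
        exact Submodule.mem_sup_right (Submodule.smul_mem_smul hc Submodule.mem_top)
      have h4 : n k = algebraMap K S c⁻¹ • algebraMap K S c • n k := by
        rw [← mul_smul, ← map_mul, inv_mul_cancel₀ hc0, map_one, one_smul]
      rw [h4]
      exact W.smul_mem _ h3
    intro v
    obtain ⟨d', c', hv⟩ := hgenM v
    rw [hv]
    refine W.add_mem (W.smul_mem _ hgW) (W.sum_mem fun i _ => W.smul_mem _ ?_)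
    by_cases hi : i = k
    · rw [hi]; exact hnk
    · exact hnW i hi

end rowL3

end Pool.Agent.Lib.MP_745d3a_ag.PF

end

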