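import Pool.Agent.Lib.MP_745d3a_ag.LocBasis
import Pool.Agent.Lib.MP_745d3a_ag.Core

/-!
Presentations `M = Syz(x_i ^ N, x_j ^ N, Δ)`: freeness criteria and base change of the colon
ideal.
-/

open MvPolynomial

set_option linter.unusedSectionVars false
set_option linter.unusedSimpArgs false

namespace Pool.Agent.Lib.MP_745d3a_ag

variable {σ K M : Type*} [DecidableEq σ] [Field K] [AddCommGroup M] [Module (MvPolynomial σ K) M]

/-- The presentation data. -/
structure Pres (i j : σ) (N : ℕ) (s μi μj : M) (π : M →ₗ[MvPolynomial σ K] MvPolynomial σ K)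
    (Δ : MvPolynomial σ K) : Prop where
  ne : i ≠ j
  s_tf : ∀ a : MvPolynomial σ K, a • s = 0 → a = 0
  pi_s : π s = 0
  ker : ∀ m, π m = 0 → ∃ a : MvPolynomial σ K, m = a • s
  pi_i : π μi = X i ^ N
  pi_j : π μj = X j ^ N
  rel : (X j : MvPolynomial σ K) ^ N • μi - (X i : MvPolynomial σ K) ^ N • μj = Δ • s

variable {i j : σ} {N : ℕ} {s μi μj : M} {π : M →ₗ[MvPolynomial σ K] MvPolynomial σ K}
  {Δ : MvPolynomial σ K}

/-- Elements in the image of `π` multiply `Δ` into `J`. -/
lemma Pres.colon (P : Pres i j N s μi μj π Δ) (m : M) : π m * Δ ∈ J i j N := by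
  have h1 : π ((X i : MvPolynomial σ K) ^ N • m - π m • μi) = 0 := by
    rw [map_sub, map_smul, map_smul, P.pi_i, smul_eq_mul, smul_eq_mul]; ring
  have h2 : π ((X j : MvPolynomial σ K) ^ N • m - π m • μj) = 0 := by
    rw [map_sub, map_smul, map_smul, P.pi_j, smul_eq_mul, smul_eq_mul]; ring
  obtain ⟨A, hA⟩ := P.ker _ h1
  obtain ⟨B, hB⟩ := P.ker _ h2
  have h3 : (π m * Δ - (X i ^ N * B + X j ^ N * (-A))) • s = 0 := by
    have e1 : (X j : MvPolynomial σ K) ^ N • ((X i : MvPolynomial σ K) ^ N • m - π m • μi) =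
        (X j ^ N * A) • s := by rw [hA, mul_smul]
    have e2 : (X i : MvPolynomial σ K) ^ N • ((X j : MvPolynomial σ K) ^ N • m - π m • μj) =
        (X i ^ N * B) • s := by rw [hB, mul_smul]
    have e3 : (π m * Δ) • s = π m • (X j : MvPolynomial σ K) ^ N • μi -
        π m • (X i : MvPolynomial σ K) ^ N • μj := by
      rw [mul_smul, ← P.rel, smul_sub]
    have e4 : (π m * Δ - (X i ^ N * B + X j ^ N * (-A))) • s =
        (π m * Δ) • s - (X i ^ N * B) • s + (X j ^ N * A) • s := by
      simp only [sub_smul, add_smul, mul_neg, neg_smul]; abel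
    rw [e4, e3, ← e1, ← e2]
    simp only [smul_sub]
    rw [smul_comm ((X j : MvPolynomial σ K) ^ N) ((X i : MvPolynomial σ K) ^ N) m,
      smul_comm ((X j : MvPolynomial σ K) ^ N) (π m) μi,
      smul_comm ((X i : MvPolynomial σ K) ^ N) (π m) μj]
    abel
  rw [sub_eq_zero.mp (P.s_tf _ h3)]
  exact mem_J_exists.mpr ⟨B, -A, rfl⟩

variable [Module.IsReflexive (MvPolynomial σ K) M]

lemma X_pow_ne_zero' (i : σ) (n : ℕ) : (X i : MvPolynomial σ K) ^ n ≠ 0 :=
  pow_ne_zero _ (X_ne_zero i)

/-- A rank two module generated by two independent elements is free. -/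
lemma free_of_pair {R M : Type*} [CommRing R] [AddCommGroup M] [Module R M] {m1 m2 : M}
    (hind : ∀ a b : R, a • m1 + b • m2 = 0 → a = 0 ∧ b = 0)
    (hspan : ∀ m, ∃ a b : R, m = a • m1 + b • m2) : Module.Free R M := by
  have hli : LinearIndependent R ![m1, m2] := by
    rw [LinearIndependent.pair_iff]
    intro a b h
    exact hind a b h
  have hsp : ⊤ ≤ Submodule.span R (Set.range ![m1, m2]) := by
    intro m _
    obtain ⟨a, b, hab⟩ := hspan m
    rw [Matrix.range_cons, Matrix.range_cons, Matrix.range_empty, Set.union_empty,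
      ← Set.insert_eq, Submodule.mem_span_pair]
    exact ⟨a, b, hab.symm⟩
  exact Module.Free.of_basis (Module.Basis.mk hli hsp)

/-- If `Δ = 0` then `M` is free. -/
lemma Pres.free_zero (P : Pres i j N s μi μj π Δ) (hΔ : Δ = 0) :
    Module.Free (MvPolynomial σ K) M := by
  have h1 : (X j : MvPolynomial σ K) ^ N • μi = (X i : MvPolynomial σ K) ^ N • μj := by
    have := P.rel
    rw [hΔ, zero_smul] at this
    exact sub_eq_zero.mp this
  obtain ⟨t, ht1, ht2⟩ := hartogs (X_pow_ne_zero' i N)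
    (fun h hh => dvd_of_X_pow_dvd_mul P.ne N N h hh) h1
  have hπt : π t = 1 := by
    have h2 := P.pi_i
    rw [ht1, map_smul, smul_eq_mul] at h2
    exact mul_left_cancel₀ (X_pow_ne_zero' i N) (by rw [h2, mul_one])
  refine free_of_pair (m1 := s) (m2 := t) ?_ ?_
  · intro a b hab
    have h3 : b = 0 := by
      have := congrArg π hab
      rw [map_add, map_smul, map_smul, P.pi_s, hπt, map_zero] at this
      simpa using this
    rw [h3, zero_smul, add_zero] at hab
    exact ⟨P.s_tf a hab, h3⟩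
  · intro m
    obtain ⟨a, ha⟩ := P.ker (m - π m • t) (by
      rw [map_sub, map_smul, hπt, smul_eq_mul, mul_one, sub_self])
    exact ⟨a, π m, by rw [← ha]; abel⟩

/-- If `Δ` is a monomial in `x_i, x_j` then `M` is free. -/
lemma Pres.free_monomial [Fintype σ] (P : Pres i j N s μi μj π Δ) {a b : ℕ} (ha : a < N)
    (hb : b < N) {c : K} (hc : c ≠ 0)
    (hΔ : Δ = monomial (Finsupp.single i a + Finsupp.single j b) c) :
    Module.Free (MvPolynomial σ K) M := by
  classical
  have hΔ' : Δ = C c * (X i ^ a * X j ^ b) := by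
    rw [hΔ, X_pow_eq_monomial, X_pow_eq_monomial, monomial_mul, C_mul_monomial]; simp
  have hCc : (C c⁻¹ : MvPolynomial σ K) * C c = 1 := by
    rw [← C_mul, inv_mul_cancel₀ hc, C_1]
  -- first division
  have h1 : (X i : MvPolynomial σ K) ^ N • μj = (X j : MvPolynomial σ K) ^ b •
      ((X j : MvPolynomial σ K) ^ (N - b) • μi - (C c * X i ^ a : MvPolynomial σ K) • s) := by
    have h2 := P.rel
    rw [smul_sub, smul_smul, smul_smul, ← pow_add]
    have e1 : b + (N - b) = N := by omega
    rw [e1]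
    have e2 : (X j ^ b * (C c * X i ^ a) : MvPolynomial σ K) = Δ := by rw [hΔ']; ring
    rw [e2, ← h2]
    abel
  obtain ⟨ν, hν1, hν2⟩ := hartogs (X_pow_ne_zero' j b)
    (fun h hh => dvd_of_X_pow_dvd_mul P.ne.symm b N h hh) h1
  -- second division
  have h2 : (X j : MvPolynomial σ K) ^ (N - b) • μi = (X i : MvPolynomial σ K) ^ a •
      ((C c : MvPolynomial σ K) • s + (X i : MvPolynomial σ K) ^ (N - a) • ν) := by
    have e1 : (X j : MvPolynomial σ K) ^ (N - b) • μi =
        (X i : MvPolynomial σ K) ^ N • ν + (C c * X i ^ a : MvPolynomial σ K) • s := by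
      rw [← hν2]; abel
    rw [e1, smul_add, smul_smul, smul_smul, ← pow_add]
    have e2 : a + (N - a) = N := by omega
    rw [e2, mul_comm (C c), add_comm]
  obtain ⟨ν', hν'1, hν'2⟩ := hartogs (X_pow_ne_zero' i a)
    (fun h hh => dvd_of_X_pow_dvd_mul P.ne a (N - b) h hh) h2
  -- `μj = X j ^ b • ν`, `μi = X i ^ a • ν'`, `c s = X j ^ (N - b) ν' - X i ^ (N - a) ν`
  have hπν : π ν = X j ^ (N - b) := by
    have h3 := P.pi_j
    rw [hν1, map_smul, smul_eq_mul] at h3
    apply mul_left_cancel₀ (X_pow_ne_zero' j b)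
    rw [h3, ← pow_add]
    congr 1; omega
  have hπν' : π ν' = X i ^ (N - a) := by
    have h3 := P.pi_i
    rw [hν'1, map_smul, smul_eq_mul] at h3
    apply mul_left_cancel₀ (X_pow_ne_zero' i a)
    rw [h3, ← pow_add]
    congr 1; omega
  have hs : (C c : MvPolynomial σ K) • s =
      (X j : MvPolynomial σ K) ^ (N - b) • ν' - (X i : MvPolynomial σ K) ^ (N - a) • ν := by
    rw [← hν'2]; abel
  refine free_of_pair (m1 := ν) (m2 := ν') ?_ ?_
  · intro A B hAB
    have h3 : A * X j ^ (N - b) + B * X i ^ (N - a) = 0 := by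
      have := congrArg π hAB
      rw [map_add, map_smul, map_smul, hπν, hπν', map_zero] at this
      simpa using this
    have h4 : (X i : MvPolynomial σ K) ^ (N - a) ∣ A := by
      apply dvd_of_X_pow_dvd_mul P.ne (N - a) (N - b)
      exact ⟨-B, by linear_combination h3⟩
    obtain ⟨A', hA'⟩ := h4
    have h5 : B = -(X j ^ (N - b) * A') := by
      apply mul_left_cancel₀ (X_pow_ne_zero' i (N - a))
      rw [hA'] at h3
      linear_combination h3
    have h6 : (A' * C c) • s = 0 := by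
      rw [mul_smul, hs, smul_sub, smul_smul, smul_smul]
      rw [hA', h5] at hAB
      have : (A' * X j ^ (N - b)) • ν' - (A' * X i ^ (N - a)) • ν =
          -((X i ^ (N - a) * A') • ν + (-(X j ^ (N - b) * A')) • ν') := by
        rw [neg_smul, mul_comm A', mul_comm A']; abel
      rw [this, hAB, neg_zero]
    have h7 : A' = 0 := by
      rcases mul_eq_zero.mp (P.s_tf _ h6) with h | h
      · exact h
      · exact absurd ((C_eq_zero).mp h) hc
    rw [hA', h5, h7]
    simp
  · intro m
    -- `π m ∈ (X i ^ (N - a), X j ^ (N - b))`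
    have h3 : ∃ A B, π m = X i ^ (N - a) * A + X j ^ (N - b) * B := by
      have h4 := P.colon m
      have hmem : π m ∈ Ideal.span ((fun s => monomial s (1 : K)) ''
          {Finsupp.single i (N - a), Finsupp.single j (N - b)}) := by
        rw [mem_ideal_span_monomial_image]
        intro e he
        have h5 : coeff (e + (Finsupp.single i a + Finsupp.single j b)) (π m * Δ) ≠ 0 := by
          rw [hΔ, coeff_mul_monomial]
          exact mul_ne_zero (mem_support_iff.mp he) hc
        have h6 := mem_J_iff.mp h4 _ (mem_support_iff.mpr h5)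
        simp only [Finsupp.add_apply, Finsupp.single_apply, P.ne, P.ne.symm, if_true, if_false,
          add_zero, zero_add] at h6
        rcases h6 with h6 | h6
        · exact ⟨Finsupp.single i (N - a), by simp, by rw [Finsupp.single_le_iff]; omega⟩
        · exact ⟨Finsupp.single j (N - b), by simp, by rw [Finsupp.single_le_iff]; omega⟩
      rw [Set.image_pair, ← X_pow_eq_monomial, ← X_pow_eq_monomial,
        Ideal.mem_span_pair] at hmem
      obtain ⟨A, B, hAB⟩ := hmem
      exact ⟨A, B, by rw [← hAB]; ring⟩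
    obtain ⟨A, B, hAB⟩ := h3
    obtain ⟨E, hE⟩ := P.ker (m - A • ν' - B • ν) (by
      rw [map_sub, map_sub, map_smul, map_smul, hπν, hπν', hAB, smul_eq_mul, smul_eq_mul]; ring)
    have h8 : E • s = (E * C c⁻¹) • (C c : MvPolynomial σ K) • s := by
      rw [smul_smul, mul_assoc, hCc, mul_one]
    refine ⟨B - (E * C c⁻¹) * X i ^ (N - a), A + (E * C c⁻¹) * X j ^ (N - b), ?_⟩
    have h9 : m = A • ν' + B • ν + E • s := by rw [← hE]; abel
    rw [h9, h8, hs]
    simp only [smul_sub, sub_smul, add_smul, mul_smul]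
    abel

/-- Base change of the colon ideal, from local bases at points. -/
lemma Pres.bc [Fintype σ] (P : Pres i j N s μi μj π Δ)
    (hLB : ∀ q : σ → K, (∃ κ, κ ≠ i ∧ κ ≠ j ∧ q κ ≠ 0) →
      ∃ m1 m2 : M, LB (RingHom.ker (eval (pt i j q))) m1 m2) :
    BC i j N Δ := by
  intro q hq h hh
  obtain ⟨ε1, ε2, hε⟩ := hLB q hq
  obtain ⟨Di, Pi, Qi, hDi, hi⟩ := hε.span μi
  obtain ⟨Dj, Pj, Qj, hDj, hj⟩ := hε.span μj
  obtain ⟨Ds, f, g, hDs, hs⟩ := hε.span s
  -- common denominator
  set D := Di * Dj * Ds with hD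
  have hDne : eval (pt i j q) D ≠ 0 := by
    rw [hD, map_mul, map_mul]
    exact mul_ne_zero (mul_ne_zero hDi hDj) hDs
  set Pi' := Dj * Ds * Pi with hPi'
  set Qi' := Dj * Ds * Qi with hQi'
  set Pj' := Di * Ds * Pj with hPj'
  set Qj' := Di * Ds * Qj with hQj'
  set f' := Di * Dj * f with hf'
  set g' := Di * Dj * g with hg'
  have ei : D • μi = Pi' • ε1 + Qi' • ε2 := by
    have : D = (Dj * Ds) * Di := by rw [hD]; ring
    rw [this, mul_smul, hi, smul_add, hPi', hQi', mul_smul (Dj * Ds), mul_smul (Dj * Ds)]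
  have ej : D • μj = Pj' • ε1 + Qj' • ε2 := by
    have : D = (Di * Ds) * Dj := by rw [hD]; ring
    rw [this, mul_smul, hj, smul_add, hPj', hQj', mul_smul (Di * Ds), mul_smul (Di * Ds)]
  have es : D • s = f' • ε1 + g' • ε2 := by
    have : D = (Di * Dj) * Ds := by rw [hD]
    rw [this, mul_smul, hs, smul_add, hf', hg', mul_smul (Di * Dj), mul_smul (Di * Dj)]
  clear_value Pi' Qi' Pj' Qj' f' g' D
  set u := π ε1 with hu
  set v := π ε2 with hv
  have r1 : u * Pi' + v * Qi' = D * X i ^ N := by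
    have := congrArg π ei
    rw [map_smul, map_add, map_smul, map_smul, P.pi_i] at this
    simp only [smul_eq_mul] at this
    rw [this]; ring
  have r3 : u * f' + v * g' = 0 := by
    have := congrArg π es
    rw [map_smul, map_add, map_smul, map_smul, P.pi_s] at this
    simp only [smul_eq_mul, mul_zero] at this
    rw [this]; ring
  have r4 : X j ^ N * Pi' - X i ^ N * Pj' = Δ * f' ∧ X j ^ N * Qi' - X i ^ N * Qj' = Δ * g' := by
    have h1 : (X j ^ N * Pi' - X i ^ N * Pj' - Δ * f') • ε1 +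
        (X j ^ N * Qi' - X i ^ N * Qj' - Δ * g') • ε2 = 0 := by
      have h2 : (X j : MvPolynomial σ K) ^ N • (D • μi) - (X i : MvPolynomial σ K) ^ N • (D • μj) -
          Δ • (D • s) = 0 := by
        rw [smul_comm _ D μi, smul_comm _ D μj, smul_comm _ D s, ← smul_sub, P.rel, sub_self]
      rw [ei, ej, es] at h2
      rw [← h2]
      simp only [smul_add, sub_smul, mul_smul]
      abel
    obtain ⟨h3, h4⟩ := hε.ind _ _ h1
    exact ⟨sub_eq_zero.mp h3, sub_eq_zero.mp h4⟩
  -- evaluate
  set θ := th i j q with hθ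
  obtain ⟨A, B, hAB⟩ := mem_J_exists.mp hh
  have hXi : θ (X i ^ N) = X i ^ N := by rw [map_pow, hθ, th_X_left]
  have hXj : θ (X j ^ N) = X j ^ N := by rw [map_pow, hθ, th_X_right]
  have t1 : θ u * θ Pi' + θ v * θ Qi' = θ D * X i ^ N := by
    rw [← hXi, ← map_mul, ← map_mul, ← map_mul, ← map_add, r1]
  have t3 : θ u * θ f' + θ v * θ g' = 0 := by
    rw [← map_mul, ← map_mul, ← map_add, r3, map_zero]
  have t4 : X j ^ N * θ Pi' - X i ^ N * θ Pj' = θ Δ * θ f' := by
    have h0 := congrArg θ r4.1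
    rw [map_sub, map_mul, map_mul, map_mul, hXi, hXj] at h0
    exact h0
  have t5 : X j ^ N * θ Qi' - X i ^ N * θ Qj' = θ Δ * θ g' := by
    have h0 := congrArg θ r4.2
    rw [map_sub, map_mul, map_mul, map_mul, hXi, hXj] at h0
    exact h0
  -- `θ h * θ Δ = X i ^ N A + X j ^ N B`
  have c1 : X j ^ N * (θ h * θ Pi' - B * θ f') = X i ^ N * (θ h * θ Pj' + A * θ f') := by
    linear_combination θ h * t4 + θ f' * hAB
  have c2 : X j ^ N * (θ h * θ Qi' - B * θ g') = X i ^ N * (θ h * θ Qj' + A * θ g') := by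
    linear_combination θ h * t5 + θ g' * hAB
  obtain ⟨C1, hC1⟩ := dvd_of_X_pow_dvd_mul P.ne N N _ ⟨_, c1⟩
  obtain ⟨E1, hE1⟩ := dvd_of_X_pow_dvd_mul P.ne N N _ ⟨_, c2⟩
  have key : θ u * C1 + θ v * E1 = θ D * θ h := by
    apply mul_left_cancel₀ (X_pow_ne_zero' (K := K) i N)
    linear_combination (-(θ u)) * hC1 - θ v * hE1 + θ h * t1 - B * t3
  refine ⟨u * C1 + v * E1, D, ?_, ?_, hDne⟩
  · have h1 := P.colon ε1
    have h2 := P.colon ε2
    have : (u * C1 + v * E1) * Δ = C1 * (u * Δ) + E1 * (v * Δ) := by ring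
    rw [this]
    exact Ideal.add_mem _ (Ideal.mul_mem_left _ _ h1) (Ideal.mul_mem_left _ _ h2)
  · have h1 := congrArg θ key
    simp only [map_add, map_mul] at h1
    rw [hθ, th_th, th_th, th_th, th_th] at h1
    rw [map_add, map_mul, map_mul]
    exact h1

end Pool.Agent.Lib.MP_745d3a_ag
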