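import Mathlib

/-!
Slices of a polynomial in two of its variables: basic facts, and two facts on products of
polynomials.
-/

open MvPolynomial

set_option linter.unusedSectionVars false
set_option linter.unusedSimpArgs false

namespace Pool.Agent.Lib.MP_745d3a_ag

variable {σ K : Type*} [DecidableEq σ] [Fintype σ] [Field K]

/-- Keep `x_j` (inner variable) and `x_l` (outer variable), set all other variables to one. -/
noncomputable def slc (j l : σ) : MvPolynomial σ K →ₐ[K] Polynomial (Polynomial K) :=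
  aeval (fun κ => if κ = j then Polynomial.C Polynomial.X else if κ = l then Polynomial.X else 1)

lemma slc_monomial {j l : σ} (hjl : j ≠ l) (e : σ →₀ ℕ) (c : K) :
    slc j l (monomial e c) =
      Polynomial.monomial (e l) (Polynomial.monomial (e j) c) := by
  rw [slc, aeval_monomial, Finsupp.prod_fintype _ _ (by intro κ; simp)]
  have h1 : ∀ κ : σ, (if κ = j then (Polynomial.C Polynomial.X : Polynomial (Polynomial K))
      else if κ = l then Polynomial.X else 1) ^ e κ =
      (if κ = j then (Polynomial.C Polynomial.X) ^ e κ else 1) *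
        (if κ = l then Polynomial.X ^ e κ else 1) := by
    intro κ
    by_cases h : κ = j
    · have : κ ≠ l := fun h' => hjl (h.symm.trans h')
      simp [h, hjl]
    · by_cases h' : κ = l
      · simp [h', hjl.symm]
      · simp [h, h']
  rw [Finset.prod_congr rfl (fun κ _ => h1 κ), Finset.prod_mul_distrib, Finset.prod_ite_eq',
    Finset.prod_ite_eq']
  simp only [Finset.mem_univ, if_true]
  rw [← Polynomial.C_mul_X_pow_eq_monomial, ← Polynomial.C_mul_X_pow_eq_monomial,
    Polynomial.algebraMap_apply, Polynomial.algebraMap_apply, Algebra.algebraMap_self_apply,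
    ← Polynomial.C_pow, Polynomial.C_mul]
  ring

lemma coeff_slc {j l : σ} (hjl : j ≠ l) (h : MvPolynomial σ K) (n b : ℕ) :
    ((slc j l h).coeff n).coeff b =
      ∑ e ∈ h.support, if e l = n ∧ e j = b then coeff e h else 0 := by
  conv_lhs => rw [h.as_sum, map_sum, Polynomial.finsetSum_coeff, Polynomial.finsetSum_coeff]
  refine Finset.sum_congr rfl ?_
  intro e _
  rw [slc_monomial hjl, Polynomial.coeff_monomial]
  by_cases h1 : e l = n
  · rw [if_pos h1, Polynomial.coeff_monomial]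
    by_cases h2 : e j = b
    · rw [if_pos h2, if_pos ⟨h1, h2⟩]
    · rw [if_neg h2, if_neg (by tauto)]
  · rw [if_neg h1, Polynomial.coeff_zero, if_neg (by tauto)]

lemma exists_of_coeff_slc {j l : σ} (hjl : j ≠ l) {h : MvPolynomial σ K} {n b : ℕ}
    (H : ((slc j l h).coeff n).coeff b ≠ 0) : ∃ e, coeff e h ≠ 0 ∧ e l = n ∧ e j = b := by
  rw [coeff_slc hjl] at H
  obtain ⟨e, he, h2⟩ := Finset.exists_ne_zero_of_sum_ne_zero H
  refine ⟨e, mem_support_iff.mp he, ?_⟩
  by_contra h3
  rw [if_neg h3] at h2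
  exact h2 rfl

lemma coeff_slc_unique {j l : σ} (hjl : j ≠ l) {h : MvPolynomial σ K} {e : σ →₀ ℕ}
    (he : coeff e h ≠ 0) (H : ∀ e', coeff e' h ≠ 0 → e' l = e l → e' j = e j → e' = e) :
    ((slc j l h).coeff (e l)).coeff (e j) ≠ 0 := by
  rw [coeff_slc hjl, Finset.sum_eq_single_of_mem e (mem_support_iff.mpr he)]
  · simpa using he
  · intro e' he' hne
    rw [if_neg]
    rintro ⟨h1, h2⟩
    exact hne (H e' (mem_support_iff.mp he') h1 h2)


section prod

open Polynomial

lemma prod_two_terms {A B : ℂ[X]} {N qk qm : ℕ} (hqm : 1 ≤ qm) (hq : qm < qk) (hqN : qk ≤ N)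
    (hA0supp : ∀ c, qm < c → A.coeff c = 0)
    (hB0supp : ∀ c, B.coeff c ≠ 0 → N - qk ≤ c ∧ c ≤ N - qm)
    (hwin0 : ∀ b, N - qk < b → b < N → (A * B).coeff b = 0) :
    A * B = Polynomial.monomial (N - qk) (A.coeff 0 * B.coeff (N - qk)) +
      Polynomial.monomial N (A.coeff qm * B.coeff (N - qm)) := by
  ext b
  rw [Polynomial.coeff_add, Polynomial.coeff_monomial, Polynomial.coeff_monomial]
  rcases lt_trichotomy b (N - qk) with h | h | h
  · rw [if_neg (by omega), if_neg (by omega), add_zero, Polynomial.coeff_mul]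
    refine Finset.sum_eq_zero ?_
    intro x hx
    rw [Finset.HasAntidiagonal.mem_antidiagonal] at hx
    by_contra h0
    have := (hB0supp x.2 (right_ne_zero_of_mul h0)).1
    omega
  · rw [if_pos h.symm, if_neg (by omega), add_zero, Polynomial.coeff_mul]
    refine Finset.sum_eq_single_of_mem (0, N - qk)
      (Finset.HasAntidiagonal.mem_antidiagonal.mpr (by simp [h])) ?_
    intro x hx hne
    rw [Finset.HasAntidiagonal.mem_antidiagonal] at hx
    by_contra h0
    have := (hB0supp x.2 (right_ne_zero_of_mul h0)).1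
    apply hne
    ext <;> simp <;> omega
  · rw [if_neg (by omega)]
    rcases lt_trichotomy b N with h' | h' | h'
    · rw [if_neg (by omega), add_zero]
      exact hwin0 b h h'
    · rw [if_pos h'.symm, zero_add, Polynomial.coeff_mul]
      refine Finset.sum_eq_single_of_mem (qm, N - qm)
        (Finset.HasAntidiagonal.mem_antidiagonal.mpr (by simp; omega)) ?_
      intro x hx hne
      rw [Finset.HasAntidiagonal.mem_antidiagonal] at hx
      by_contra h0
      have h1 := (hB0supp x.2 (right_ne_zero_of_mul h0)).2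
      have h2 : ¬ (qm < x.1) := fun h => (left_ne_zero_of_mul h0) (hA0supp _ h)
      apply hne
      ext <;> simp <;> omega
    · rw [if_neg (by omega), add_zero, Polynomial.coeff_mul]
      refine Finset.sum_eq_zero ?_
      intro x hx
      rw [Finset.HasAntidiagonal.mem_antidiagonal] at hx
      by_contra h0
      have h1 := (hB0supp x.2 (right_ne_zero_of_mul h0)).2
      have h2 : ¬ (qm < x.1) := fun h => (left_ne_zero_of_mul h0) (hA0supp _ h)
      omega

lemma roots_norm {A B : ℂ[X]} {N qk : ℕ} {κ0 κ1 : ℂ} (hqk : qk ≠ 0) (hqN : qk ≤ N)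
    (hA00 : A.coeff 0 ≠ 0) (hκ1ne : κ1 ≠ 0)
    (hW1eq : A * B = Polynomial.monomial (N - qk) κ0 + Polynomial.monomial N κ1)
    (z : ℂ) (hz : A.eval z = 0) : ‖z‖ = ‖κ0 / κ1‖ ^ ((qk : ℝ)⁻¹) := by
  have hz0 : z ≠ 0 := by
    intro h
    rw [h, ← Polynomial.coeff_zero_eq_eval_zero] at hz
    exact hA00 hz
  have h1 : (A * B).eval z = 0 := by rw [Polynomial.eval_mul, hz, zero_mul]
  rw [hW1eq, Polynomial.eval_add, Polynomial.eval_monomial, Polynomial.eval_monomial] at h1
  have h2 : z ^ N = z ^ (N - qk) * z ^ qk := by rw [← pow_add, Nat.sub_add_cancel hqN]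
  rw [h2] at h1
  have h3 : z ^ (N - qk) * (κ0 + κ1 * z ^ qk) = 0 := by linear_combination h1
  have h4 : κ0 + κ1 * z ^ qk = 0 := (mul_eq_zero.mp h3).resolve_left (pow_ne_zero _ hz0)
  have h5 : z ^ qk = -(κ0 / κ1) := by
    field_simp
    linear_combination h4
  have h6 : ‖z‖ ^ qk = ‖κ0 / κ1‖ := by rw [← norm_pow, h5, norm_neg]
  rw [← h6, Real.pow_rpow_inv_natCast (norm_nonneg z) hqk]

lemma window_sq {A0 An B0 Bn : ℂ[X]} {N pk qm qk : ℕ} {t : ℚ} (hqkN : qk ≤ N)
    (hA0supp : ∀ c, qm < c → A0.coeff c = 0)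
    (hAn : ∀ c, An.coeff c ≠ 0 → (pk : ℚ) * c ≤ pk * qm + t)
    (hwin0 : ∀ b, N - qk < b → b < N → (A0 * B0).coeff b = 0)
    (hwinn : ∀ b, b < N → (pk : ℚ) * (N - qk) + t < pk * b → (An * B0 + A0 * Bn).coeff b = 0)
    (b : ℕ) (hbN : b < N) (hb : (pk : ℚ) * qm + (pk * (N - qk) + t) < pk * b) :
    (A0 ^ 2 * Bn).coeff b = 0 := by
  have hpk0 : (0 : ℚ) ≤ pk := Nat.cast_nonneg _
  have hsq : A0 ^ 2 * Bn = A0 * (An * B0 + A0 * Bn) - An * (A0 * B0) := by ring
  rw [hsq, Polynomial.coeff_sub]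
  have h1 : (A0 * (An * B0 + A0 * Bn)).coeff b = 0 := by
    rw [Polynomial.coeff_mul]
    refine Finset.sum_eq_zero ?_
    intro x hx
    rw [Finset.HasAntidiagonal.mem_antidiagonal] at hx
    by_cases hx1 : qm < x.1
    · rw [hA0supp _ hx1, zero_mul]
    · have h2 : (x.1 : ℚ) ≤ qm := by
        have : x.1 ≤ qm := by omega
        exact_mod_cast this
      have h3 : (b : ℚ) = x.1 + x.2 := by rw [← hx]; push_cast; ring
      have h4 : (pk : ℚ) * x.1 ≤ pk * qm := mul_le_mul_of_nonneg_left h2 hpk0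
      rw [hwinn x.2 (by omega) (by rw [h3] at hb; linarith), mul_zero]
  have h2 : (An * (A0 * B0)).coeff b = 0 := by
    rw [Polynomial.coeff_mul]
    refine Finset.sum_eq_zero ?_
    intro x hx
    rw [Finset.HasAntidiagonal.mem_antidiagonal] at hx
    by_contra h0
    have h3 := hAn x.1 (left_ne_zero_of_mul h0)
    have h4 : ¬ (N - qk < x.2 ∧ x.2 < N) := by
      rintro ⟨h5, h6⟩
      exact (right_ne_zero_of_mul h0) (hwin0 x.2 h5 h6)
    have h5 : x.2 + qk ≤ N := by omega
    have h6 : (x.2 : ℚ) + qk ≤ N := by exact_mod_cast h5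
    have h7 : (b : ℚ) = x.1 + x.2 := by rw [← hx]; push_cast; ring
    have h8 : (pk : ℚ) * ((x.2 : ℚ) + qk) ≤ pk * N := mul_le_mul_of_nonneg_left h6 hpk0
    rw [h7] at hb
    linarith
  rw [h1, h2, sub_zero]

end prod

end Pool.Agent.Lib.MP_745d3a_ag
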