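import Pool.Agent.Lib.MP_745d3a_ag.Combin
import Pool.Agent.Lib.MP_745d3a_ag.SlicesZero

/-!
Slices of a polynomial in two of its variables, and the final contradiction of the
combinatorial core.
-/

open MvPolynomial

set_option linter.unusedSectionVars false
set_option linter.unusedSimpArgs false

namespace Pool.Agent.Lib.MP_745d3a_ag

variable {σ K : Type*} [DecidableEq σ] [Fintype σ] [Field K]

section final

variable {i j k l m : σ} {N : ℕ} {p q R : σ → ℕ} {Δ f : MvPolynomial σ K}

lemma DDat.uniq (D : DDat i j k l m N p q R Δ) (hq : q m < q k) {e e' : σ →₀ ℕ}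
    (he : coeff e Δ ≠ 0) (he' : coeff e' Δ ≠ 0) (hl : e' l = e l) (hj : e' j = e j) : e' = e := by
  have hq' : (q m : ℚ) < q k := by exact_mod_cast hq
  obtain ⟨_, _, _, _, hRk⟩ := D.pos k (Or.inl rfl)
  obtain ⟨_, _, _, _, hRm⟩ := D.pos m (Or.inr (Or.inr rfl))
  have hRk' : (0 : ℚ) < R k := by exact_mod_cast hRk
  have hRm' : (0 : ℚ) < R m := by exact_mod_cast hRm
  have t1 := D.tot e he
  have t2 := D.tot e' he'
  have j1 := D.ej e he
  have j2 := D.ej e' he'
  have i1 := D.ei e he
  have i2 := D.ei e' he'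
  rw [hl] at t2 j2 i2
  rw [hj] at j2
  have h1 : ((e k : ℚ) / R k - e' k / R k) * ((q k : ℚ) - q m) = 0 := by
    have h2 : (e m : ℚ) / R m - e' m / R m = -((e k : ℚ) / R k - e' k / R k) := by linarith
    have h3 : ((e k : ℚ) / R k - e' k / R k) * q k + ((e m : ℚ) / R m - e' m / R m) * q m = 0 := by
      linarith
    rw [h2] at h3
    linarith
  have h2 : (e k : ℚ) / R k = e' k / R k := by
    rcases mul_eq_zero.mp h1 with h | h
    · linarith
    · linarith
  have h3 : (e m : ℚ) / R m = e' m / R m := by linarith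
  have hk : e' k = e k := by
    have := (div_left_inj' hRk'.ne').mp h2
    exact_mod_cast this.symm
  have hm : e' m = e m := by
    have := (div_left_inj' hRm'.ne').mp h3
    exact_mod_cast this.symm
  have hi : e' i = e i := by
    rw [← h2, ← h3] at i2
    exact_mod_cast i2.trans i1.symm
  exact D.five.ext hi hj hk hl hm

lemma FDat.uniq (D : DDat i j k l m N p q R Δ) (F : FDat i j k l m N p q R Δ f) (hq : q m < q k)
    {e e' : σ →₀ ℕ} (he : coeff e f ≠ 0) (he' : coeff e' f ≠ 0) (hl : e' l = e l)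
    (hj : e' j = e j) : e' = e := by
  have hq' : (q m : ℚ) < q k := by exact_mod_cast hq
  obtain ⟨_, _, _, _, hRk⟩ := D.pos k (Or.inl rfl)
  obtain ⟨_, _, _, _, hRm⟩ := D.pos m (Or.inr (Or.inr rfl))
  have hRk' : (0 : ℚ) < R k := by exact_mod_cast hRk
  have hRm' : (0 : ℚ) < R m := by exact_mod_cast hRm
  obtain ⟨c, hc⟩ := F.tot
  have t1 := hc e he
  have t2 := hc e' he'
  have j1 := F.ej e he
  have j2 := F.ej e' he'
  have i1 := F.ei e he
  have i2 := F.ei e' he'
  rw [hl] at t2 j2 i2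
  rw [hj] at j2
  have h1 : ((e m : ℚ) / R m - e' m / R m) * ((q k : ℚ) - q m) = 0 := by linarith
  have h3 : (e m : ℚ) / R m = e' m / R m := by
    rcases mul_eq_zero.mp h1 with h | h
    · linarith
    · linarith
  have h2 : (e k : ℚ) / R k = e' k / R k := by linarith
  have hk : e' k = e k := by
    have := (div_left_inj' hRk'.ne').mp h2
    exact_mod_cast this.symm
  have hm : e' m = e m := by
    have := (div_left_inj' hRm'.ne').mp h3
    exact_mod_cast this.symm
  have hi : e' i = e i := by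
    rw [← h3] at i2
    exact_mod_cast i2.trans i1.symm
  exact D.five.ext hi hj hk hl hm

/-- The slope defect. -/
def K0 (k l m : σ) (p q : σ → ℕ) : ℚ :=
  (q m : ℚ) * ((p k : ℚ) - p l) + p k * ((q k : ℚ) - q l)

lemma FDat.lam (F : FDat i j k l m N p q R Δ f) (hkm : p m * q m = p k * q k) {e : σ →₀ ℕ}
    (he : coeff e f ≠ 0) :
    (q m : ℚ) * e i + p k * e j = q m * p k + e l / R l * K0 k l m p q := by
  have hkm' : (p m : ℚ) * q m = p k * q k := by exact_mod_cast hkm
  rw [F.ei e he, F.ej e he, K0]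
  linear_combination (-((e m : ℚ) / R m)) * hkm'

lemma DDat.lam (D : DDat i j k l m N p q R Δ) (hkm : p m * q m = p k * q k) {e : σ →₀ ℕ}
    (he : coeff e Δ ≠ 0) :
    (q m : ℚ) * e i + p k * e j =
      (q m + p k) * N - (q m * p k + p k * q k) + e l / R l * K0 k l m p q := by
  have hkm' : (p m : ℚ) * q m = p k * q k := by exact_mod_cast hkm
  have ht := D.tot e he
  rw [D.ei e he, D.ej e he, K0]
  linear_combination (-((q m : ℚ) * p k + p k * q k)) * ht - ((e m : ℚ) / R m) * hkm'

/-- Coefficients of `f * Δ` vanish in a window. -/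
lemma window (D : DDat i j k l m N p q R Δ) (F : FDat i j k l m N p q R Δ f)
    (hkm : p m * q m = p k * q k) {n b : ℕ} (hbN : b < N)
    (hb : (p k : ℚ) * (N - q k) + n / R l * K0 k l m p q < p k * b) :
    ((slc j l (f * Δ)).coeff n).coeff b = 0 := by
  by_contra hne
  obtain ⟨e, he, hel, hej⟩ := exists_of_coeff_slc D.five.jl hne
  have hei : N ≤ e i := by
    rcases mem_J_iff.mp F.colon e (mem_support_iff.mpr he) with h | h
    · exact h
    · omega
  rw [coeff_mul] at he
  obtain ⟨x, hx, h2⟩ := Finset.exists_ne_zero_of_sum_ne_zero he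
  rw [Finset.HasAntidiagonal.mem_antidiagonal] at hx
  have h3 := F.lam hkm (left_ne_zero_of_mul h2)
  have h4 := D.lam hkm (right_ne_zero_of_mul h2)
  have e1 : (e i : ℚ) = x.1 i + x.2 i := by rw [← hx]; push_cast [Finsupp.add_apply]; ring
  have e2 : (e j : ℚ) = x.1 j + x.2 j := by rw [← hx]; push_cast [Finsupp.add_apply]; ring
  have e3 : (e l : ℚ) = x.1 l + x.2 l := by rw [← hx]; push_cast [Finsupp.add_apply]; ring
  rw [hel] at e3
  rw [hej] at e2
  have h5 : (q m : ℚ) * e i + p k * b =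
      (q m + p k) * N - p k * q k + n / R l * K0 k l m p q := by
    rw [e1, e2, e3]
    linear_combination h3 + h4
  have h6 : (q m : ℚ) * N ≤ q m * e i := by
    have : (N : ℚ) ≤ e i := by exact_mod_cast hei
    exact mul_le_mul_of_nonneg_left this (by positivity)
  linarith

end final

set_option maxHeartbeats 2000000 in
open Polynomial in
/-- The final contradiction. -/
lemma final {i j k l m : σ} {N : ℕ} {p q R : σ → ℕ} {Δ f : MvPolynomial σ ℂ}
    (D : DDat i j k l m N p q R Δ) (F : FDat i j k l m N p q R Δ f)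
    (hpl : p k < p l) (hkm : p m * q m = p k * q k)
    (hqkl : q l < q k) (hqlm : q m < q l)
    (hext : ∃ e, MvPolynomial.coeff e f ≠ 0 ∧ e l = 0 ∧ e i = 0 ∧ e j = q m) : False := by
  classical
  have F5 := D.five
  obtain ⟨hpk1, hpkN, hqk1, hqkN, hRk⟩ := D.pos k (Or.inl rfl)
  obtain ⟨hpl1, hplN, hql1, hqlN, hRl⟩ := D.pos l (Or.inr (Or.inl rfl))
  obtain ⟨hpm1, hpmN, hqm1, hqmN, hRm⟩ := D.pos m (Or.inr (Or.inr rfl))
  have hqmk : q m < q k := hqlm.trans hqkl
  have hRl' : (0 : ℚ) < R l := by exact_mod_cast hRl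
  have hpk1' : (1 : ℚ) ≤ p k := by exact_mod_cast hpk1
  have hqm1' : (1 : ℚ) ≤ q m := by exact_mod_cast hqm1
  have hpl' : (p k : ℚ) < p l := by exact_mod_cast hpl
  have hqkl' : (q l : ℚ) < q k := by exact_mod_cast hqkl
  have hqlm' : (q m : ℚ) < q l := by exact_mod_cast hqlm
  set A : ℕ → ℂ[X] := fun n => (slc j l f).coeff n with hA
  set B : ℕ → ℂ[X] := fun n => (slc j l Δ).coeff n with hB
  -- degree of the slices of `f`
  have hAsupp : ∀ n c, (A n).coeff c ≠ 0 →
      (p k : ℚ) * c ≤ p k * q m + n / R l * K0 k l m p q := by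
    intro n c hc
    obtain ⟨e, he, hel, hej⟩ := exists_of_coeff_slc F5.jl hc
    have h1 := F.lam hkm he
    rw [hel, hej] at h1
    have h2 : (0 : ℚ) ≤ q m * e i := by positivity
    linarith
  have hA0supp : ∀ c, q m < c → (A 0).coeff c = 0 := by
    intro c hc
    by_contra hne
    have h1 := hAsupp 0 c hne
    simp only [Nat.cast_zero, zero_div, zero_mul, add_zero] at h1
    have h2 : (c : ℚ) ≤ q m := le_of_mul_le_mul_left h1 (by linarith)
    have h3 : c ≤ q m := by exact_mod_cast h2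
    omega
  have hA00 : (A 0).coeff 0 ≠ 0 := by
    obtain ⟨n, hn⟩ := F.base
    have h1 := coeff_slc_unique F5.jl hn (fun e' he' hl hj => F.uniq D hqmk hn he' hl hj)
    rwa [vx_other F5.il.symm F5.jl.symm F5.kl.symm, vx_j F5 (Or.inl rfl)] at h1
  have hA0q : (A 0).coeff (q m) ≠ 0 := by
    obtain ⟨e, he, hel, hei, hej⟩ := hext
    have h1 := coeff_slc_unique F5.jl he (fun e' he' hl hj => F.uniq D hqmk he he' hl hj)
    rwa [hel, hej] at h1
  have hA0deg : (A 0).natDegree = q m :=
    le_antisymm (Polynomial.natDegree_le_iff_coeff_eq_zero.mpr (fun c hc => hA0supp c hc))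
      (Polynomial.le_natDegree_of_ne_zero hA0q)
  have hA0ne : A 0 ≠ 0 := by
    intro h; rw [h] at hA00; simp at hA00
  -- the slices of `Δ`
  have hBsupp : ∀ n c, (B n).coeff c ≠ 0 →
      (N : ℚ) - (1 - n / R l) * q k - n / R l * q l ≤ c ∧
      (c : ℚ) ≤ N - (1 - n / R l) * q m - n / R l * q l := by
    intro n c hc
    obtain ⟨e, he, hel, hej⟩ := exists_of_coeff_slc F5.jl hc
    have h1 := D.ej e he
    have h2 := D.tot e he
    rw [hel, hej] at h1
    rw [hel] at h2
    have hk0 : (0 : ℚ) ≤ (e k : ℚ) / R k := by positivity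
    have hm0 : (0 : ℚ) ≤ (e m : ℚ) / R m := by positivity
    constructor
    · have : (e m : ℚ) / R m * q m ≤ e m / R m * q k :=
        mul_le_mul_of_nonneg_left (by linarith) hm0
      have h3 : (e k : ℚ) / R k * q k + e m / R m * q k = (1 - n / R l) * q k := by
        rw [← add_mul]; congr 1; linarith
      linarith
    · have : (e k : ℚ) / R k * q m ≤ e k / R k * q k :=
        mul_le_mul_of_nonneg_left (by linarith) hk0
      have h3 : (e k : ℚ) / R k * q m + e m / R m * q m = (1 - n / R l) * q m := by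
        rw [← add_mul]; congr 1; linarith
      linarith
  have hB0k : (B 0).coeff (N - q k) ≠ 0 := by
    have hn := D.vert k (Or.inl rfl)
    have h1 := coeff_slc_unique F5.jl hn (fun e' he' hl hj => D.uniq hqmk hn he' hl hj)
    rwa [vx_other F5.il.symm F5.jl.symm F5.kl.symm, vx_j F5 (Or.inl rfl)] at h1
  have hB0m : (B 0).coeff (N - q m) ≠ 0 := by
    have hn := D.vert m (Or.inr (Or.inr rfl))
    have h1 := coeff_slc_unique F5.jl hn (fun e' he' hl hj => D.uniq hqmk hn he' hl hj)
    rwa [vx_other F5.il.symm F5.jl.symm F5.lm, vx_j F5 (Or.inr (Or.inr rfl))] at h1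
  have hBRl : B (R l) ≠ 0 := by
    have hn := D.vert l (Or.inr (Or.inl rfl))
    have h1 := coeff_slc_unique F5.jl hn (fun e' he' hl hj => D.uniq hqmk hn he' hl hj)
    rw [vx_self F5 (Or.inr (Or.inl rfl)), vx_j F5 (Or.inr (Or.inl rfl))] at h1
    intro h
    apply h1
    show (B (R l)).coeff (N - q l) = 0
    rw [h, Polynomial.coeff_zero]
  have hB0supp : ∀ c, (B 0).coeff c ≠ 0 → N - q k ≤ c ∧ c ≤ N - q m := by
    intro c hc
    obtain ⟨h1, h2⟩ := hBsupp 0 c hc
    simp only [Nat.cast_zero, zero_div, zero_mul, sub_zero, one_mul] at h1 h2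
    constructor
    · have : (N : ℚ) ≤ c + q k := by linarith
      have : N ≤ c + q k := by exact_mod_cast this
      omega
    · have : (c : ℚ) + q m ≤ N := by linarith
      have : c + q m ≤ N := by exact_mod_cast this
      omega
  -- the product in lowest degree
  have hW1 : (slc j l (f * Δ)).coeff 0 = A 0 * B 0 := by
    rw [map_mul, Polynomial.mul_coeff_zero]
  have hwin0 : ∀ b, N - q k < b → b < N → (A 0 * B 0).coeff b = 0 := by
    intro b hb1 hb2
    rw [← hW1]
    apply window D F hkm hb2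
    simp only [Nat.cast_zero, zero_div, zero_mul, add_zero]
    have h1 : N < b + q k := by omega
    have h2 : (N : ℚ) < b + q k := by exact_mod_cast h1
    exact mul_lt_mul_of_pos_left (by linarith) (by linarith)
  set κ0 : ℂ := (A 0).coeff 0 * (B 0).coeff (N - q k) with hκ0
  set κ1 : ℂ := (A 0).coeff (q m) * (B 0).coeff (N - q m) with hκ1
  have hW1eq : A 0 * B 0 = Polynomial.monomial (N - q k) κ0 + Polynomial.monomial N κ1 :=
    prod_two_terms (by omega) hqmk (by omega) hA0supp hB0supp hwin0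
  have hκ0ne : κ0 ≠ 0 := mul_ne_zero hA00 hB0k
  have hκ1ne : κ1 ≠ 0 := mul_ne_zero hA0q hB0m
  -- the roots of `A 0`
  set ρ : ℝ := ‖κ0 / κ1‖ ^ ((q k : ℝ)⁻¹) with hρ
  have hρpos : 0 < ρ := Real.rpow_pos_of_pos (norm_pos_iff.mpr (div_ne_zero hκ0ne hκ1ne)) _
  have hroots : ∀ z, (A 0).eval z = 0 → ‖z‖ = ρ :=
    roots_norm (by omega) (by omega) hA00 hκ1ne hW1eq
  -- the first nonzero slice of `Δ` above level zero
  have hex : ∃ n, 1 ≤ n ∧ B n ≠ 0 := ⟨R l, hRl, hBRl⟩
  set n := Nat.find hex with hn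
  obtain ⟨hn1, hBn⟩ := Nat.find_spec hex
  have hmin : ∀ b, 1 ≤ b → b < n → B b = 0 := by
    intro b hb1 hb2
    by_contra h
    exact Nat.find_min hex hb2 ⟨hb1, h⟩
  have hW2 : (slc j l (f * Δ)).coeff n = A n * B 0 + A 0 * B n := by
    rw [map_mul, Polynomial.coeff_mul]
    refine Finset.sum_eq_add_of_mem (n, 0) (0, n)
      (Finset.HasAntidiagonal.mem_antidiagonal.mpr (by simp))
      (Finset.HasAntidiagonal.mem_antidiagonal.mpr (by simp)) ?_ ?_
    · intro h
      have := congrArg Prod.fst h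
      simp at this
      omega
    · intro x hx hne
      rw [Finset.HasAntidiagonal.mem_antidiagonal] at hx
      have h1 : x.2 ≠ 0 := by
        intro h
        apply hne.1
        ext <;> simp <;> omega
      have h2 : x.2 ≠ n := by
        intro h
        apply hne.2
        ext <;> simp <;> omega
      have : B x.2 = 0 := hmin x.2 (by omega) (by omega)
      show A x.1 * B x.2 = 0
      rw [this, mul_zero]
  set ν : ℚ := (n : ℚ) / R l with hν
  have hνpos : 0 < ν := by
    have : (1 : ℚ) ≤ n := by exact_mod_cast hn1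
    positivity
  set κK := K0 k l m p q with hκK
  have hwin : ∀ b, b < N → (p k : ℚ) * q m + (p k * (N - q k) + ν * κK) < p k * b →
      (A 0 ^ 2 * B n).coeff b = 0 := by
    refine window_sq (by omega) hA0supp (fun c hc => hAsupp n c hc) hwin0 ?_
    intro b hbN hb
    rw [← hW2]
    exact window D F hkm hbN hb
  -- shift `B n`
  set a := (B n).natTrailingDegree with ha
  have hdvd : (Polynomial.X : ℂ[X]) ^ a ∣ B n := by
    rw [Polynomial.X_pow_dvd_iff]
    intro d hd
    exact Polynomial.coeff_eq_zero_of_lt_natTrailingDegree hd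
  obtain ⟨Q, hQ⟩ := hdvd
  have hQne : Q ≠ 0 := by
    intro h; rw [h, mul_zero] at hQ; exact hBn hQ
  have hQdeg : a + Q.natDegree = (B n).natDegree := by
    rw [hQ, Polynomial.natDegree_mul (pow_ne_zero _ Polynomial.X_ne_zero) hQne,
      Polynomial.natDegree_X_pow]
  have hlow : (N : ℚ) - (1 - ν) * q k - ν * q l ≤ a := by
    have h1 : (B n).coeff a ≠ 0 := by
      rw [ha]
      exact (Polynomial.trailingCoeff_nonzero_iff_nonzero.mpr hBn)
    exact (hBsupp n a h1).1
  have hhigh : ((a + Q.natDegree : ℕ) : ℚ) ≤ N - (1 - ν) * q m - ν * q l := by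
    have h1 : (B n).coeff (a + Q.natDegree) ≠ 0 := by
      rw [hQdeg]
      exact Polynomial.leadingCoeff_ne_zero.mpr hBn
    exact (hBsupp n _ h1).2
  apply hQne
  refine toeplitz hA0ne hρpos hroots (L := Q.natDegree) le_rfl ?_
  intro c hc1 hc2
  rw [hA0deg] at hc1 hc2
  have h1 : (A 0 ^ 2 * B n).coeff (c + a) = (A 0 ^ 2 * Q).coeff c := by
    rw [hQ]
    have : A 0 ^ 2 * (Polynomial.X ^ a * Q) = A 0 ^ 2 * Q * Polynomial.X ^ a := by ring
    rw [this, Polynomial.coeff_mul_X_pow]
  rw [← h1]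
  apply hwin
  · have h2 : ((c + a : ℕ) : ℚ) < N := by
      have h3 : ((c + a : ℕ) : ℚ) ≤ ((q m + (a + Q.natDegree) : ℕ) : ℚ) := by
        exact_mod_cast (by omega : c + a ≤ q m + (a + Q.natDegree))
      have h4 : ((q m + (a + Q.natDegree) : ℕ) : ℚ) = q m + ((a + Q.natDegree : ℕ) : ℚ) := by
        push_cast; ring
      have h5 : 0 < ν * ((q l : ℚ) - q m) := mul_pos hνpos (by linarith)
      linarith
    exact_mod_cast h2
  · have h2 : ((q m + a : ℕ) : ℚ) ≤ ((c + a : ℕ) : ℚ) := by
      exact_mod_cast (by omega : q m + a ≤ c + a)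
    have h3 : (p k : ℚ) * ((q m + a : ℕ) : ℚ) ≤ p k * ((c + a : ℕ) : ℚ) :=
      mul_le_mul_of_nonneg_left h2 (by linarith)
    have h4 : (p k : ℚ) * (N - (1 - ν) * q k - ν * q l) ≤ p k * a :=
      mul_le_mul_of_nonneg_left hlow (by linarith)
    have h5 : 0 < ν * (q m * ((p l : ℚ) - p k)) := by
      have : (0 : ℚ) < (p l : ℚ) - p k := by linarith
      positivity
    have h6 : κK = (q m : ℚ) * ((p k : ℚ) - p l) + p k * ((q k : ℚ) - q l) := rfl
    rw [h6]
    push_cast at h3
    push_cast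
    linarith

end Pool.Agent.Lib.MP_745d3a_ag
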