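import Pool.Agent.Lib.MP_745d3a_ag.Pres

/-!
From bases after inverting `x_i` and `x_j` to a presentation `Syz(x_i ^ N, x_j ^ N, Δ)`.
-/

open MvPolynomial

set_option linter.unusedSectionVars false
set_option linter.unusedSimpArgs false

namespace Pool.Agent.Lib.MP_745d3a_ag

variable {σ K M : Type*} [DecidableEq σ] [Fintype σ] [Field K] [AddCommGroup M]
  [Module (MvPolynomial σ K) M]

/-- The pair `m1, m2` is a basis after inverting `x_v`. -/
structure XB (v : σ) (m1 m2 : M) : Prop where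
  ind : ∀ a b : MvPolynomial σ K, a • m1 + b • m2 = 0 → a = 0 ∧ b = 0
  span : ∀ m : M, ∃ (n : ℕ) (a b : MvPolynomial σ K),
    (X v : MvPolynomial σ K) ^ n • m = a • m1 + b • m2

/-- The prime of the coordinate point `v`. -/
noncomputable def vp (K : Type*) [Field K] (v : σ) : Ideal (MvPolynomial σ K) :=
  RingHom.ker (aeval (fun κ => if κ = v then (Polynomial.X : Polynomial K) else 0) :
    MvPolynomial σ K →ₐ[K] Polynomial K)

instance (v : σ) : (vp K v).IsPrime := RingHom.ker_isPrime _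

lemma X_notMem_vp (v : σ) : (X v : MvPolynomial σ K) ∉ vp K v := by
  intro h
  rw [vp, RingHom.mem_ker, aeval_X, if_pos rfl] at h
  exact Polynomial.X_ne_zero h

lemma exists_of_notMem_vp {v : σ} {D : MvPolynomial σ K} (h : D ∉ vp K v) :
    ∃ e, coeff e D ≠ 0 ∧ ∀ κ, κ ≠ v → e κ = 0 := by
  rw [vp, RingHom.mem_ker, D.as_sum, map_sum] at h
  obtain ⟨e, he, h2⟩ := Finset.exists_ne_zero_of_sum_ne_zero h
  refine ⟨e, mem_support_iff.mp he, ?_⟩
  intro κ hκ
  by_contra h3
  apply h2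
  rw [aeval_monomial, Finsupp.prod_fintype _ _ (by intro κ; simp),
    Finset.prod_eq_zero (Finset.mem_univ κ) (by rw [if_neg hκ, zero_pow h3]), mul_zero]

section vertex

variable {G : Type*} [AddCommGroup G] [DecidableEq G] {ω : σ → G} {𝓜 : G → AddSubgroup M}
  [DirectSum.Decomposition 𝓜] [SetLike.GradedSMul (weightedHomogeneousSubmodule K ω) 𝓜]

lemma XB_of_LB {v : σ} (hvert : ∀ (e : σ →₀ ℕ) (n : ℕ), Finsupp.weight ω e = n • ω v →
      e = Finsupp.single v n)
    {m1 m2 : M} {g1 g2 : G} (h1 : m1 ∈ 𝓜 g1) (h2 : m2 ∈ 𝓜 g2) (H : LB (vp K v) m1 m2) :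
    XB (K := K) v m1 m2 := by
  classical
  refine ⟨H.ind, ?_⟩
  intro m
  refine hom_induction 𝓜 (P := fun m => ∃ (n : ℕ) (a b : MvPolynomial σ K),
    (X v : MvPolynomial σ K) ^ n • m = a • m1 + b • m2) ?_ ?_ ?_ m
  · exact ⟨0, 0, 0, by simp⟩
  · intro g m hm
    obtain ⟨D, a, b, hD, hab⟩ := H.span m
    obtain ⟨e, he, h3⟩ := exists_of_notMem_vp hD
    have he' : e = Finsupp.single v (e v) := by
      ext κ
      by_cases hκ : κ = v
      · rw [hκ]; simp
      · rw [h3 κ hκ]; simp [Finsupp.single_apply, Ne.symm hκ]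
    set n := e v with hn
    have hw : Finsupp.weight ω e = n • ω v := by
      rw [he', Finsupp.weight_apply, Finsupp.sum_single_index (by simp)]
    have hD' : weightedHomogeneousComponent ω (n • ω v) D =
        C (coeff e D) * (X v) ^ n := by
      ext u
      rw [coeff_weightedHomogeneousComponent, X_pow_eq_monomial, C_mul_monomial, mul_one,
        coeff_monomial]
      by_cases hu : Finsupp.single v n = u
      · rw [if_pos hu, ← hu, ← he', if_pos hw]
      · rw [if_neg hu, if_neg (fun h => hu (hvert u n h).symm)]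
    have h4 := congrArg (comp 𝓜 (n • ω v + g)) hab
    rw [comp_add, comp_smul ω 𝓜 hm, comp_smul ω 𝓜 h1, comp_smul ω 𝓜 h2,
      show n • ω v + g - g = n • ω v by abel, hD'] at h4
    refine ⟨n, C (coeff e D)⁻¹ * weightedHomogeneousComponent ω (n • ω v + g - g1) a,
      C (coeff e D)⁻¹ * weightedHomogeneousComponent ω (n • ω v + g - g2) b, ?_⟩
    rw [mul_smul, mul_smul, ← smul_add, ← h4, ← mul_smul, ← mul_assoc, ← C_mul,
      inv_mul_cancel₀ he, C_1, one_mul]
  · rintro m n ⟨k, a, b, hab⟩ ⟨k', a', b', hab'⟩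
    refine ⟨k + k', X v ^ k' * a + X v ^ k * a', X v ^ k' * b + X v ^ k * b', ?_⟩
    rw [smul_add, pow_add]
    have e1 : ((X v : MvPolynomial σ K) ^ k * X v ^ k') • m =
        (X v : MvPolynomial σ K) ^ k' • (a • m1 + b • m2) := by rw [mul_comm, mul_smul, hab]
    have e2 : ((X v : MvPolynomial σ K) ^ k * X v ^ k') • n =
        (X v : MvPolynomial σ K) ^ k • (a' • m1 + b' • m2) := by rw [mul_smul, hab']
    rw [e1, e2]
    simp only [smul_add, add_smul, mul_smul]
    abel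

end vertex

lemma XB.swap {v : σ} {m1 m2 : M} (H : XB (K := K) v m1 m2) : XB (K := K) v m2 m1 where
  ind a b h := by
    have := H.ind b a (by rw [add_comm]; exact h)
    exact ⟨this.2, this.1⟩
  span m := by
    obtain ⟨n, a, b, h⟩ := H.span m
    exact ⟨n, b, a, by rw [h, add_comm]⟩

lemma XB.exchange {v : σ} {m1 m2 s : M} (H : XB (K := K) v m1 m2) {n α : ℕ} {c : K} (hc : c ≠ 0)
    {b : MvPolynomial σ K}
    (hs : (X v : MvPolynomial σ K) ^ n • s = (C c * X v ^ α) • m1 + b • m2) :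
    XB (K := K) v s m2 := by
  have hCc : (C c⁻¹ : MvPolynomial σ K) * C c = 1 := by
    rw [← C_mul, inv_mul_cancel₀ hc, C_1]
  have hCc0 : (C c : MvPolynomial σ K) ≠ 0 := by
    intro h; exact hc (C_eq_zero.mp h)
  constructor
  · intro x y hxy
    have h1 : (x * (C c * X v ^ α)) • m1 + (x * b + y * X v ^ n) • m2 = 0 := by
      have : (x * (C c * X v ^ α)) • m1 + (x * b + y * X v ^ n) • m2 =
          (X v : MvPolynomial σ K) ^ n • (x • s + y • m2) := by
        rw [smul_add, smul_comm _ x, hs]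
        simp only [smul_add, add_smul, mul_smul]
        rw [smul_comm _ y m2]
        abel
      rw [this, hxy, smul_zero]
    obtain ⟨h2, h3⟩ := H.ind _ _ h1
    have hx : x = 0 := (mul_eq_zero.mp h2).resolve_right
      (mul_ne_zero hCc0 (X_pow_ne_zero' v α))
    rw [hx, zero_mul, zero_add] at h3
    exact ⟨hx, (mul_eq_zero.mp h3).resolve_right (X_pow_ne_zero' v n)⟩
  · intro m
    obtain ⟨k, a', b', h⟩ := H.span m
    refine ⟨α + k, C c⁻¹ * (a' * X v ^ n), C c⁻¹ * (C c * X v ^ α * b' - a' * b), ?_⟩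
    have e1 : (C c * X v ^ α) • m1 = (X v : MvPolynomial σ K) ^ n • s - b • m2 := by
      rw [hs]; abel
    have e2 : (C c : MvPolynomial σ K) • ((X v : MvPolynomial σ K) ^ (α + k) • m) =
        (a' * X v ^ n) • s + (C c * X v ^ α * b' - a' * b) • m2 := by
      rw [pow_add, mul_smul, h, smul_smul, smul_add, smul_smul, smul_smul,
        mul_comm _ a', mul_smul a', e1]
      simp only [smul_sub, sub_smul, mul_smul]
      abel
    rw [mul_smul (C c⁻¹) (a' * X v ^ n), mul_smul (C c⁻¹) (C c * X v ^ α * b' - a' * b),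
      ← smul_add, ← e2, ← mul_smul, hCc, one_smul]

variable [Module.IsReflexive (MvPolynomial σ K) M]

/-- The projection killing `s`. -/
lemma exists_pi {i j : σ} (hij : i ≠ j) {s t t' : M} (hi : XB (K := K) i s t)
    (hj : XB (K := K) j s t')
    {n α β : ℕ} {c : K} (hc : c ≠ 0) (hα : α ≤ n) {a0 : MvPolynomial σ K}
    (ht' : (X i : MvPolynomial σ K) ^ n • t' = a0 • s + (C c * (X i ^ α * X j ^ β)) • t) :
    ∃ π : M →ₗ[MvPolynomial σ K] MvPolynomial σ K, π s = 0 ∧ π t = C c⁻¹ * X i ^ (n - α) ∧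
      π t' = X j ^ β ∧ ∀ m, π m = 0 → ∃ a : MvPolynomial σ K, m = a • s := by
  classical
  have hCc : (C c : MvPolynomial σ K) * C c⁻¹ = 1 := by
    rw [← C_mul, mul_inv_cancel₀ hc, C_1]
  have hCc0 : (C c : MvPolynomial σ K) ≠ 0 := by
    intro h; exact hc (C_eq_zero.mp h)
  set e := n - α with he
  let Rel : M → MvPolynomial σ K → Prop := fun m f => ∃ (k : ℕ) (a : MvPolynomial σ K),
    (X i : MvPolynomial σ K) ^ (k + e) • m = a • s + (X i ^ k * (C c * f)) • t
  have huniq : ∀ m f f', Rel m f → Rel m f' → f = f' := by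
    rintro m f f' ⟨k, a, h⟩ ⟨k', a', h'⟩
    have e1 : (X i : MvPolynomial σ K) ^ (k + k' + e) • m =
        (X i : MvPolynomial σ K) ^ k' • (a • s + (X i ^ k * (C c * f)) • t) := by
      rw [← h, smul_smul, ← pow_add]; congr 2; omega
    have e2 : (X i : MvPolynomial σ K) ^ (k + k' + e) • m =
        (X i : MvPolynomial σ K) ^ k • (a' • s + (X i ^ k' * (C c * f')) • t) := by
      rw [← h', smul_smul, ← pow_add]; congr 2; omega
    have h1 : (X i ^ k' * a - X i ^ k * a') • s +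
        (X i ^ (k + k') * (C c * (f - f'))) • t = 0 := by
      have h2 := e1.symm.trans e2
      rw [← sub_eq_zero] at h2
      rw [← h2]
      simp only [smul_add, sub_smul, mul_sub, smul_smul, pow_add]
      have e3 : (X i ^ k * X i ^ k' * (C c * f) : MvPolynomial σ K) =
        X i ^ k' * (X i ^ k * (C c * f)) := by ring
      have e4 : (X i ^ k * X i ^ k' * (C c * f') : MvPolynomial σ K) =
        X i ^ k * (X i ^ k' * (C c * f')) := by ring
      rw [e3, e4]
      abel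
    have h3 := (hi.ind _ _ h1).2
    have h4 : f - f' = 0 := by
      rcases mul_eq_zero.mp h3 with h5 | h5
      · exact absurd h5 (X_pow_ne_zero' i _)
      · exact (mul_eq_zero.mp h5).resolve_left hCc0
    exact sub_eq_zero.mp h4
  have hex : ∀ m, ∃ f, Rel m f := by
    intro m
    obtain ⟨k, a, b, h⟩ := hi.span m
    obtain ⟨k', a', b', h'⟩ := hj.span m
    have h1 : (X j ^ k' * (X i ^ n * a) - X i ^ k * (X i ^ n * a' + b' * a0)) • s +
        (X j ^ k' * (X i ^ n * b) - X i ^ k * (b' * (C c * (X i ^ α * X j ^ β)))) • t = 0 := by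
      have e1 : (X i ^ k * (X i ^ n * X j ^ k') : MvPolynomial σ K) • m =
          (X j ^ k' * X i ^ n : MvPolynomial σ K) • (a • s + b • t) := by
        rw [← h, smul_smul]; congr 1; ring
      have e2 : (X i ^ k * (X i ^ n * X j ^ k') : MvPolynomial σ K) • m =
          (X i ^ k : MvPolynomial σ K) • ((X i ^ n * a') • s +
            b' • (a0 • s + (C c * (X i ^ α * X j ^ β)) • t)) := by
        rw [← ht', mul_smul, mul_smul, h', smul_add, smul_smul, smul_comm (X i ^ n) b' t']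
      have h2 := e1.symm.trans e2
      rw [← sub_eq_zero] at h2
      rw [← h2]
      simp only [smul_add, sub_smul, smul_smul, add_smul, mul_add]
      have e3 : (X j ^ k' * (X i ^ n * a) : MvPolynomial σ K) = X j ^ k' * X i ^ n * a := by ring
      have e4 : (X j ^ k' * (X i ^ n * b) : MvPolynomial σ K) = X j ^ k' * X i ^ n * b := by ring
      rw [e3, e4]
      abel
    have h3 := (hi.ind _ _ h1).2
    have h4 : X j ^ k' * (X i ^ e * b) = X i ^ k * (b' * (C c * X j ^ β)) := by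
      apply mul_left_cancel₀ (X_pow_ne_zero' (K := K) i α)
      have e5 : (X i : MvPolynomial σ K) ^ n = X i ^ α * X i ^ e := by
        rw [← pow_add]; congr 1; omega
      rw [e5] at h3
      linear_combination h3
    obtain ⟨f0, hf0⟩ := dvd_of_X_pow_dvd_mul hij k k' _ ⟨_, h4⟩
    refine ⟨C c⁻¹ * f0, k, X i ^ e * a, ?_⟩
    rw [← mul_assoc (C c), hCc, one_mul, ← hf0, add_comm, pow_add, mul_smul, h, smul_add,
      smul_smul, smul_smul]
  choose p hp using hex
  let π : M →ₗ[MvPolynomial σ K] MvPolynomial σ K :=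
    { toFun := p
      map_add' := by
        intro m m'
        apply huniq (m + m') _ _ (hp _)
        obtain ⟨k, a, h⟩ := hp m
        obtain ⟨k', a', h'⟩ := hp m'
        refine ⟨k + k', X i ^ k' * a + X i ^ k * a', ?_⟩
        have e1 : (X i : MvPolynomial σ K) ^ (k + k' + e) • m =
            (X i : MvPolynomial σ K) ^ k' • (a • s + (X i ^ k * (C c * p m)) • t) := by
          rw [← h, smul_smul, ← pow_add]; congr 2; omega
        have e2 : (X i : MvPolynomial σ K) ^ (k + k' + e) • m' =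
            (X i : MvPolynomial σ K) ^ k • (a' • s + (X i ^ k' * (C c * p m')) • t) := by
          rw [← h', smul_smul, ← pow_add]; congr 2; omega
        rw [smul_add, e1, e2]
        simp only [smul_add, add_smul, smul_smul, mul_add, pow_add]
        have e3 : (X i ^ k * X i ^ k' * (C c * p m) : MvPolynomial σ K) =
          X i ^ k' * (X i ^ k * (C c * p m)) := by ring
        have e4 : (X i ^ k * X i ^ k' * (C c * p m') : MvPolynomial σ K) =
          X i ^ k * (X i ^ k' * (C c * p m')) := by ring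
        rw [e3, e4]
        abel
      map_smul' := by
        intro r m
        apply huniq (r • m) _ _ (hp _)
        obtain ⟨k, a, h⟩ := hp m
        refine ⟨k, r * a, ?_⟩
        rw [smul_comm, h, smul_add, smul_smul, smul_smul, RingHom.id_apply, smul_eq_mul]
        congr 2
        ring }
  have hπ : ∀ m, π m = p m := fun m => rfl
  have hRel : ∀ m f, Rel m f → π m = f := fun m f h => huniq m _ _ (hp m) h
  refine ⟨π, ?_, ?_, ?_, ?_⟩
  · apply hRel
    exact ⟨0, X i ^ e, by simp⟩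
  · apply hRel
    refine ⟨0, 0, ?_⟩
    rw [← mul_assoc (C c), hCc, zero_smul, zero_add, zero_add, pow_zero, one_mul, one_mul]
  · apply hRel
    refine ⟨α, a0, ?_⟩
    have : α + e = n := by omega
    rw [this, ht']
    congr 2
    ring
  · intro m hm
    obtain ⟨k, a, h⟩ := hp m
    rw [← hπ, hm, mul_zero, mul_zero, zero_smul, add_zero] at h
    obtain ⟨k', a', b', h'⟩ := hj.span m
    have h1 : (X i ^ (k + e) * a' - X j ^ k' * a) • s + (X i ^ (k + e) * b') • t' = 0 := by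
      have e1 : (X i ^ (k + e) * X j ^ k' : MvPolynomial σ K) • m =
          (X i ^ (k + e) : MvPolynomial σ K) • (a' • s + b' • t') := by rw [← h', smul_smul]
      have e2 : (X i ^ (k + e) * X j ^ k' : MvPolynomial σ K) • m =
          (X j ^ k' : MvPolynomial σ K) • (a • s) := by rw [← h, smul_smul, mul_comm]
      have h2 := e1.symm.trans e2
      rw [← sub_eq_zero] at h2
      rw [← h2]
      simp only [smul_add, sub_smul, smul_smul]
      abel
    obtain ⟨h2, _⟩ := hj.ind _ _ h1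
    have h3 : X j ^ k' * a = X i ^ (k + e) * a' := (sub_eq_zero.mp h2).symm
    obtain ⟨a'', ha''⟩ := dvd_of_X_pow_dvd_mul hij (k + e) k' a ⟨_, h3⟩
    refine ⟨a'', ?_⟩
    have h4 : (X i : MvPolynomial σ K) ^ (k + e) • (m - a'' • s) = 0 := by
      rw [smul_sub, h, ha'', mul_smul, sub_self]
    exact sub_eq_zero.mp ((torsionfree_of_reflexive _ _ h4).resolve_left (X_pow_ne_zero' i _))

section main

variable {G : Type*} [AddCommGroup G] [DecidableEq G] {ω : σ → G} {𝓜 : G → AddSubgroup M}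
  [DirectSum.Decomposition 𝓜] [SetLike.GradedSMul (weightedHomogeneousSubmodule K ω) 𝓜]
  {i j : σ} {η ξ υ δ : G →+ ℤ} {d : ℤ}

lemma Frame.eta_nonneg (F : Frame ω i j η ξ υ δ d) (κ : σ) : 0 ≤ η (ω κ) := by
  by_cases h : κ = i
  · rw [h, F.eta_i]
  · by_cases h' : κ = j
    · rw [h', F.eta_j]
    · exact (F.eta_pos κ h h').le

lemma exists_coeff_ne {p : MvPolynomial σ K} (h : p ≠ 0) : ∃ e, coeff e p ≠ 0 := by
  by_contra hcon
  push Not at hcon
  exact h (by ext e; simpa using hcon e)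

lemma Frame.eta_weight_nonneg (F : Frame ω i j η ξ υ δ d) (e : σ →₀ ℕ) :
    0 ≤ η (Finsupp.weight ω e) := by
  rw [map_weight]
  exact Finset.sum_nonneg (fun κ _ => mul_nonneg (by positivity) (F.eta_nonneg κ))

/-- Homogeneous polynomials of nonpositive `η`-degree are monomials in `x_i, x_j`. -/
lemma Frame.mono (F : Frame ω i j η ξ υ δ d) (hij : i ≠ j) {a : MvPolynomial σ K} {D : G}
    (ha : IsWeightedHomogeneous ω a D) (ha0 : a ≠ 0) (hD : η D ≤ 0) :
    ∃ (c : K) (α β : ℕ), c ≠ 0 ∧ a = C c * (X i ^ α * X j ^ β) ∧ D = α • ω i + β • ω j := by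
  classical
  obtain ⟨e, he⟩ := exists_coeff_ne ha0
  have hsupp : ∀ u, coeff u a ≠ 0 → u = Finsupp.single i (u i) + Finsupp.single j (u j) := by
    intro u hu
    have h1 : η (Finsupp.weight ω u) ≤ 0 := by rw [ha hu]; exact hD
    rw [map_weight] at h1
    have h2 : ∀ κ ∈ (Finset.univ : Finset σ), 0 ≤ (u κ : ℤ) * η (ω κ) :=
      fun κ _ => mul_nonneg (by positivity) (F.eta_nonneg κ)
    have h3 := (Finset.sum_eq_zero_iff_of_nonneg h2).mp (le_antisymm h1 (Finset.sum_nonneg h2))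
    ext κ
    by_cases hκi : κ = i
    · rw [hκi]; simp [Finsupp.single_apply, hij.symm]
    · by_cases hκj : κ = j
      · rw [hκj]; simp [Finsupp.single_apply, hij]
      · have h4 := (mul_eq_zero.mp (h3 κ (Finset.mem_univ κ))).resolve_right
          (F.eta_pos κ hκi hκj).ne'
        have h5 : u κ = 0 := by exact_mod_cast h4
        simp [Finsupp.single_apply, Ne.symm hκi, Ne.symm hκj, h5]
  have hwt : ∀ x y : ℕ, Finsupp.weight ω (Finsupp.single i x + Finsupp.single j y) =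
      x • ω i + y • ω j := by
    intro x y
    rw [map_add, Finsupp.weight_apply, Finsupp.weight_apply, Finsupp.sum_single_index (by simp),
      Finsupp.sum_single_index (by simp)]
  have hval : ∀ u, coeff u a ≠ 0 → D = u i • ω i + u j • ω j := by
    intro u hu
    rw [← ha hu, hsupp u hu, hwt]
    simp [Finsupp.single_apply, hij, hij.symm]
  have huniq : ∀ u, coeff u a ≠ 0 → u = e := by
    intro u hu
    have h1 := (hval u hu).symm.trans (hval e he)
    have h2 := congrArg ξ h1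
    have h3 := congrArg υ h1
    simp only [map_add, map_nsmul, F.X_i, F.X_j, F.Y_i, F.Y_j, nsmul_eq_mul, mul_zero, add_zero,
      zero_add] at h2 h3
    have h4 : u i = e i := by exact_mod_cast mul_right_cancel₀ F.d_ne h2
    have h5 : u j = e j := by exact_mod_cast mul_right_cancel₀ F.d_ne h3
    rw [hsupp u hu, hsupp e he, h4, h5]
  refine ⟨coeff e a, e i, e j, he, ?_, hval e he⟩
  rw [X_pow_eq_monomial, X_pow_eq_monomial, monomial_mul, C_mul_monomial, ← hsupp e he]
  ext u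
  rw [coeff_monomial]
  by_cases hu : e = u
  · rw [if_pos hu, hu]; simp
  · rw [if_neg hu]
    by_contra h
    exact hu (huniq u h).symm

/-- Replace a basis by one containing `s`. -/
lemma XB.with_s (F : Frame ω i j η ξ υ δ d) (hij : i ≠ j) {m1 m2 s : M} {g1 g2 g0 : G}
    (h1 : m1 ∈ 𝓜 g1) (h2 : m2 ∈ 𝓜 g2) (hs : s ∈ 𝓜 g0)
    (hmin : ∀ g, ∀ m ∈ 𝓜 g, m ≠ 0 → η g0 ≤ η g)
    (hprim : ∀ s' : M, s ≠ (X j : MvPolynomial σ K) • s') (H : XB (K := K) i m1 m2) :
    ∃ g, ∃ t ∈ 𝓜 g, XB (K := K) i s t := by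
  obtain ⟨n, a, b, hab⟩ := H.span s
  have hXn : IsWeightedHomogeneous ω ((X i : MvPolynomial σ K) ^ n) (n • ω i) :=
    (isWeightedHomogeneous_X K ω i).pow n
  have hmem := smul_mem' ω 𝓜 hXn hs
  rw [hab] at hmem
  obtain ⟨ha, hb⟩ := hom_of_pair ω 𝓜 h1 h2 H.ind hmem
  have hm1 : m1 ≠ 0 := by
    intro h
    have := (H.ind 1 0 (by rw [h]; simp)).1
    exact one_ne_zero this
  have hm2 : m2 ≠ 0 := by
    intro h
    have := (H.ind 0 1 (by rw [h]; simp)).2
    exact one_ne_zero this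
  have hηa : η (n • ω i + g0 - g1) ≤ 0 := by
    rw [map_sub, map_add, map_nsmul, F.eta_i]
    have := hmin g1 m1 h1 hm1
    simp only [smul_zero, zero_add]
    linarith
  have hηb : η (n • ω i + g0 - g2) ≤ 0 := by
    rw [map_sub, map_add, map_nsmul, F.eta_i]
    have := hmin g2 m2 h2 hm2
    simp only [smul_zero, zero_add]
    linarith
  have hnot : ¬ ((X j : MvPolynomial σ K) ∣ a ∧ (X j : MvPolynomial σ K) ∣ b) := by
    rintro ⟨⟨a', ha'⟩, ⟨b', hb'⟩⟩
    have h3 : (X i : MvPolynomial σ K) ^ n • s = (X j : MvPolynomial σ K) • (a' • m1 + b' • m2) := by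
      rw [hab, ha', hb', smul_add, mul_smul, mul_smul]
    obtain ⟨m, hm, _⟩ := hartogs (X_ne_zero j) (fun h hh => by
      have := dvd_of_X_pow_dvd_mul hij.symm 1 n h (by rw [pow_one]; exact hh)
      rwa [pow_one] at this) h3
    exact hprim m hm
  have key : ∀ (a : MvPolynomial σ K) (D : G), IsWeightedHomogeneous ω a D → η D ≤ 0 →
      ¬ ((X j : MvPolynomial σ K) ∣ a) → ∃ (c : K) (α : ℕ), c ≠ 0 ∧ a = C c * X i ^ α := by
    intro a D ha hD hna
    have ha0 : a ≠ 0 := by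
      intro h; exact hna (h ▸ dvd_zero _)
    obtain ⟨c, α, β, hc, h3, _⟩ := F.mono hij ha ha0 hD
    have hβ : β = 0 := by
      by_contra hβ
      obtain ⟨β', rfl⟩ := Nat.exists_eq_succ_of_ne_zero hβ
      apply hna
      rw [h3, pow_succ]
      exact ⟨C c * (X i ^ α * X j ^ β'), by ring⟩
    exact ⟨c, α, hc, by rw [h3, hβ, pow_zero, mul_one]⟩
  by_cases hja : (X j : MvPolynomial σ K) ∣ a
  · have hjb : ¬ (X j : MvPolynomial σ K) ∣ b := fun h => hnot ⟨hja, h⟩
    obtain ⟨c, α, hc, h3⟩ := key b _ hb hηb hjb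
    refine ⟨g1, m1, h1, H.swap.exchange (n := n) (α := α) hc (b := a) ?_⟩
    rw [hab, h3, add_comm]
  · obtain ⟨c, α, hc, h3⟩ := key a _ ha hηa hja
    refine ⟨g2, m2, h2, H.exchange (n := n) (α := α) hc (b := b) ?_⟩
    rw [hab, h3]

/-- Existence of the minimal primitive homogeneous element. -/
lemma exists_min [Module.Finite (MvPolynomial σ K) M] (F : Frame ω i j η ξ υ δ d)
    (hne : ∃ g, ∃ m ∈ 𝓜 g, m ≠ 0) :
    ∃ g0, ∃ s ∈ 𝓜 g0, s ≠ 0 ∧ (∀ g, ∀ m ∈ 𝓜 g, m ≠ 0 → η g0 ≤ η g) ∧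
      (∀ g, ∀ m ∈ 𝓜 g, m ≠ 0 → η g = η g0 → δ g0 ≤ δ g) := by
  obtain ⟨B1, hB1⟩ := bounded_below (K := K) ω 𝓜 η F.eta_nonneg
  obtain ⟨B2, hB2⟩ := bounded_below (K := K) ω 𝓜 δ (fun κ => by rw [F.delta κ]; norm_num)
  obtain ⟨z, ⟨g1, hg1, m1, hm1, hm1'⟩, hz⟩ := Int.exists_least_of_bdd
    (P := fun z => ∃ g, η g = z ∧ ∃ m ∈ 𝓜 g, m ≠ 0)
    ⟨B1, fun z ⟨g, hg, m, hm, hm0⟩ => hg ▸ hB1 g m hm hm0⟩
    (by obtain ⟨g, m, hm, hm0⟩ := hne; exact ⟨η g, g, rfl, m, hm, hm0⟩)
  obtain ⟨y, ⟨g0, hg0, hg0', s, hs, hs0⟩, hy⟩ := Int.exists_least_of_bdd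
    (P := fun y => ∃ g, η g = z ∧ δ g = y ∧ ∃ m ∈ 𝓜 g, m ≠ 0)
    ⟨B2, fun y ⟨g, _, hg, m, hm, hm0⟩ => hg ▸ hB2 g m hm hm0⟩
    ⟨δ g1, g1, hg1, rfl, m1, hm1, hm1'⟩
  refine ⟨g0, s, hs, hs0, ?_, ?_⟩
  · intro g m hm hm0
    rw [hg0]
    exact hz _ ⟨g, rfl, m, hm, hm0⟩
  · intro g m hm hm0 hg
    rw [hg0']
    exact hy _ ⟨g, hg.trans hg0, rfl, m, hm, hm0⟩

/-- **Structure theorem.** -/
theorem exists_pres [Module.Finite (MvPolynomial σ K) M] (F : Frame ω i j η ξ υ δ d) (hij : i ≠ j)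
    {m1 m2 : M} {g1 g2 : G} (h1 : m1 ∈ 𝓜 g1) (h2 : m2 ∈ 𝓜 g2) (Hi : XB (K := K) i m1 m2)
    {m1' m2' : M} {g1' g2' : G} (h1' : m1' ∈ 𝓜 g1') (h2' : m2' ∈ 𝓜 g2')
    (Hj : XB (K := K) j m1' m2') :
    ∃ (N : ℕ) (s μi μj : M) (π : M →ₗ[MvPolynomial σ K] MvPolynomial σ K)
      (Δ : MvPolynomial σ K) (D0 : G), Pres i j N s μi μj π Δ ∧
      IsWeightedHomogeneous ω Δ D0 ∧ Red i j N Δ := by
  classical
  have hm1 : m1 ≠ 0 := by
    intro h
    have := (Hi.ind 1 0 (by rw [h]; simp)).1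
    exact one_ne_zero this
  obtain ⟨g0, s, hs, hs0, hmin1, hmin2⟩ := exists_min (K := K) F ⟨g1, m1, h1, hm1⟩
  have hprim : ∀ v, η (ω v) = 0 → ∀ s' : M, s ≠ (X v : MvPolynomial σ K) • s' := by
    intro v hv s' hss
    have hs'0 : s' ≠ 0 := by
      intro h; rw [h, smul_zero] at hss; exact hs0 hss
    have hs' : s' ∈ 𝓜 (g0 - ω v) :=
      mem_of_smul_mem ω 𝓜 torsionfree_of_reflexive (isWeightedHomogeneous_X K ω v) (X_ne_zero v)
        (by rw [← hss]; exact hs)
    have h3 := hmin2 _ s' hs' hs'0 (by rw [map_sub, hv, sub_zero])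
    rw [map_sub, F.delta] at h3
    linarith
  obtain ⟨gt, t, ht, HI⟩ := Hi.with_s F hij h1 h2 hs hmin1 (hprim j F.eta_j)
  obtain ⟨gt', t', ht', HJ⟩ := Hj.with_s F.swap hij.symm h1' h2' hs hmin1 (hprim i F.eta_i)
  obtain ⟨n, a0, P, hP⟩ := HI.span t'
  obtain ⟨n', b0, P', hP'⟩ := HJ.span t
  have hXn : IsWeightedHomogeneous ω ((X i : MvPolynomial σ K) ^ n) (n • ω i) :=
    (isWeightedHomogeneous_X K ω i).pow n
  have hXn' : IsWeightedHomogeneous ω ((X j : MvPolynomial σ K) ^ n') (n' • ω j) :=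
    (isWeightedHomogeneous_X K ω j).pow n'
  have hmem := smul_mem' ω 𝓜 hXn ht'
  rw [hP] at hmem
  have hPhom := (hom_of_pair ω 𝓜 hs ht HI.ind hmem).2
  have hmem' := smul_mem' ω 𝓜 hXn' ht
  rw [hP'] at hmem'
  have hP'hom := (hom_of_pair ω 𝓜 hs ht' HJ.ind hmem').2
  -- `P * P' = X i ^ n * X j ^ n'`
  have hPP : P * P' = X i ^ n * X j ^ n' := by
    have e1 : (a0 * X j ^ n' + P * b0) • s + (P * P' - X i ^ n * X j ^ n') • t' = 0 := by
      have e2 : (X j : MvPolynomial σ K) ^ n' • ((X i : MvPolynomial σ K) ^ n • t') =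
          (a0 * X j ^ n') • s + P • (b0 • s + P' • t') := by
        rw [hP, smul_add, ← hP', smul_smul, mul_comm, smul_comm]
      rw [smul_smul] at e2
      have e3 : (X i ^ n * X j ^ n' : MvPolynomial σ K) • t' =
          (a0 * X j ^ n') • s + P • (b0 • s + P' • t') := by rw [← e2, mul_comm]
      rw [sub_smul, e3]
      simp only [smul_add, add_smul, mul_smul]
      abel
    exact sub_eq_zero.mp (HJ.ind _ _ e1).2
  have hP0 : P ≠ 0 := by
    intro h
    rw [h, zero_mul] at hPP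
    exact mul_ne_zero (X_pow_ne_zero' i n) (X_pow_ne_zero' j n') hPP.symm
  have hP'0 : P' ≠ 0 := by
    intro h
    rw [h, mul_zero] at hPP
    exact mul_ne_zero (X_pow_ne_zero' i n) (X_pow_ne_zero' j n') hPP.symm
  have hηP : η (n • ω i + gt' - gt) ≤ 0 := by
    obtain ⟨e, he⟩ := exists_coeff_ne hP'0
    have h3 := F.eta_weight_nonneg e
    rw [hP'hom he] at h3
    simp only [map_sub, map_add, map_nsmul, F.eta_i, F.eta_j, smul_zero, zero_add] at h3 ⊢
    linarith
  have hηP' : η (n' • ω j + gt - gt') ≤ 0 := by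
    obtain ⟨e, he⟩ := exists_coeff_ne hP0
    have h3 := F.eta_weight_nonneg e
    rw [hPhom he] at h3
    simp only [map_sub, map_add, map_nsmul, F.eta_i, F.eta_j, smul_zero, zero_add] at h3 ⊢
    linarith
  obtain ⟨c, α, β, hc, hPeq, hPdeg⟩ := F.mono hij hPhom hP0 hηP
  obtain ⟨c', α', β', hc', hP'eq, _⟩ := F.mono hij hP'hom hP'0 hηP'
  have hαn : α ≤ n := by
    have h3 : C c * C c' * (X i ^ (α + α') * X j ^ (β + β')) =
        (X i ^ n * X j ^ n' : MvPolynomial σ K) := by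
      rw [← hPP, hPeq, hP'eq, pow_add, pow_add]; ring
    have h4 : (X i : MvPolynomial σ K) ^ (α + α') ∣ X j ^ n' * X i ^ n :=
      ⟨C c * C c' * X j ^ (β + β'), by rw [mul_comm (X j ^ n'), ← h3]; ring⟩
    have h5 := dvd_of_X_pow_dvd_mul hij _ _ _ h4
    have h6 := (pow_dvd_pow_iff (X_ne_zero i)
      (fun h => (X_prime (i := i) (R := K)).not_isUnit h)).mp h5
    omega
  rw [hPeq] at hP
  obtain ⟨π, hπs, hπt, hπt', hker⟩ := exists_pi hij HI HJ hc hαn hP
  set N := n + β with hN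
  have hCc : (C c : MvPolynomial σ K) * C c⁻¹ = 1 := by
    rw [← C_mul, mul_inv_cancel₀ hc, C_1]
  set μi : M := (C c * X i ^ (N - (n - α)) : MvPolynomial σ K) • t with hμi
  set μj : M := (X j ^ (N - β) : MvPolynomial σ K) • t' with hμj
  have hπi : π μi = X i ^ N := by
    rw [hμi, map_smul, hπt, smul_eq_mul]
    have e1 : (X i : MvPolynomial σ K) ^ N = X i ^ (N - (n - α)) * X i ^ (n - α) := by
      rw [← pow_add]; congr 1; omega
    rw [e1]
    linear_combination (X i ^ (N - (n - α)) * X i ^ (n - α)) * hCc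
  have hπj : π μj = X j ^ N := by
    rw [hμj, map_smul, hπt', smul_eq_mul, ← pow_add]
    congr 1; omega
  clear_value μi μj
  obtain ⟨Δ, hΔ⟩ := hker ((X j : MvPolynomial σ K) ^ N • μi - (X i : MvPolynomial σ K) ^ N • μj)
    (by rw [map_sub, map_smul, map_smul, hπi, hπj, smul_eq_mul, smul_eq_mul]; ring)
  -- degrees
  have hdeg : (X j : MvPolynomial σ K) ^ N • μi - (X i : MvPolynomial σ K) ^ N • μj ∈
      𝓜 (N • ω j + ((N - (n - α)) • ω i + gt)) := by
    have hμi' : μi ∈ 𝓜 ((N - (n - α)) • ω i + gt) := by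
      have h3 : IsWeightedHomogeneous ω (C c * X i ^ (N - (n - α)) : MvPolynomial σ K)
          ((N - (n - α)) • ω i) := ((isWeightedHomogeneous_X K ω i).pow _).C_mul c
      rw [hμi]
      exact smul_mem' ω 𝓜 h3 ht
    have hμj' : μj ∈ 𝓜 ((N - β) • ω j + gt') := by
      rw [hμj]
      exact smul_mem' ω 𝓜 ((isWeightedHomogeneous_X K ω j).pow _) ht'
    have e1 := smul_mem' ω 𝓜 ((isWeightedHomogeneous_X K ω j).pow N) hμi'
    have e2 := smul_mem' ω 𝓜 ((isWeightedHomogeneous_X K ω i).pow N) hμj'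
    have e3 : N • ω i + ((N - β) • ω j + gt') = N • ω j + ((N - (n - α)) • ω i + gt) := by
      have e4 : gt' = gt + α • ω i + β • ω j - n • ω i := by
        have : n • ω i + gt' - gt = α • ω i + β • ω j := hPdeg
        rw [sub_eq_iff_eq_add] at this
        rw [eq_sub_iff_add_eq, add_comm gt', this]; abel
      rw [e4]
      have e5 : N = n + β := rfl
      have e6 : N - β = n := by omega
      have e7 : N - (n - α) = β + α := by omega
      rw [e6, e7, e5, add_smul, add_smul, add_smul]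
      abel
    rw [e3] at e2
    exact (𝓜 _).sub_mem e1 e2
  rw [hΔ] at hdeg
  have hΔhom := hom_of_smul_mem ω 𝓜 torsionfree_of_reflexive hs hs0 hdeg
  -- reduce
  obtain ⟨r, A, B, hr1, hr2, hr3⟩ := exists_red i j N Δ
  refine ⟨N, s, μi - B • s, μj + A • s, π, r, _, ⟨hij, ?_, hπs, hker, ?_, ?_, ?_⟩,
    fun e he => hΔhom (hr2 e he), hr1⟩
  · intro a ha
    exact (torsionfree_of_reflexive _ _ ha).resolve_right hs0
  · rw [map_sub, map_smul, hπs, smul_zero, sub_zero, hπi]
  · rw [map_add, map_smul, hπs, smul_zero, add_zero, hπj]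
  · have e1 : (X j : MvPolynomial σ K) ^ N • (μi - B • s) -
        (X i : MvPolynomial σ K) ^ N • (μj + A • s) =
        ((X j : MvPolynomial σ K) ^ N • μi - (X i : MvPolynomial σ K) ^ N • μj) -
          (X i ^ N * A + X j ^ N * B) • s := by
      simp only [smul_sub, smul_add, add_smul, smul_smul]
      abel
    rw [e1, hΔ, ← sub_smul]
    congr 1
    rw [hr3]; ring

end main

end Pool.Agent.Lib.MP_745d3a_ag
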