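import Mathlib

/-!
A positivity lemma for polynomials all of whose roots have the same modulus.
-/

open Polynomial

namespace Pool.Agent.Lib.MP_745d3a_ag

/-- A nonzero polynomial whose roots all have modulus one is self-inversive. -/
def SelfInv (f : ℂ[X]) : Prop :=
  f ≠ 0 ∧ ∃ ε : ℂ, ε ≠ 0 ∧ reflect f.natDegree (f.map (starRingEnd ℂ)) = C ε * f

lemma selfInv_C {a : ℂ} (ha : a ≠ 0) : SelfInv (C a) := by
  refine ⟨by simpa using ha, starRingEnd ℂ a / a, div_ne_zero (by simpa using ha) ha, ?_⟩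
  have h1 : reflect 0 (C ((starRingEnd ℂ) a)) = C ((starRingEnd ℂ) a) := by
    rw [reflect_C]; simp
  rw [natDegree_C, map_C, h1, ← C_mul, div_mul_cancel₀ _ ha]

lemma selfInv_X_sub_C {z : ℂ} (hz : ‖z‖ = 1) : SelfInv (X - C z) := by
  have hz0 : z ≠ 0 := by
    intro h; rw [h] at hz; simp at hz
  have hc : starRingEnd ℂ z * z = 1 := by
    rw [mul_comm, Complex.mul_conj, Complex.normSq_eq_norm_sq, hz]; simp
  refine ⟨X_sub_C_ne_zero z, -starRingEnd ℂ z, by simpa using hz0, ?_⟩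
  rw [natDegree_X_sub_C, Polynomial.map_sub, map_X, map_C, reflect_sub, reflect_one_X, reflect_C,
    pow_one, mul_sub, ← C_mul, neg_mul, hc]
  simp
  ring

lemma selfInv_mul {f g : ℂ[X]} (hf : SelfInv f) (hg : SelfInv g) : SelfInv (f * g) := by
  obtain ⟨hf0, ε, hε, hfe⟩ := hf
  obtain ⟨hg0, δ, hδ, hge⟩ := hg
  refine ⟨mul_ne_zero hf0 hg0, ε * δ, mul_ne_zero hε hδ, ?_⟩
  rw [natDegree_mul hf0 hg0, Polynomial.map_mul, reflect_mul _ _ (natDegree_map_le) (natDegree_map_le),
    hfe, hge, C_mul]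
  ring

lemma selfInv_prod (s : Multiset ℂ) (h : ∀ z ∈ s, ‖z‖ = 1) :
    SelfInv (s.map (fun z => X - C z)).prod := by
  induction s using Multiset.induction_on with
  | empty => simpa using selfInv_C one_ne_zero
  | cons a s ih =>
    rw [Multiset.map_cons, Multiset.prod_cons]
    exact selfInv_mul (selfInv_X_sub_C (h a (Multiset.mem_cons_self a s)))
      (ih (fun z hz => h z (Multiset.mem_cons_of_mem hz)))

lemma selfInv_of_roots {f : ℂ[X]} (hf : f ≠ 0) (h : ∀ z, f.eval z = 0 → ‖z‖ = 1) : SelfInv f := by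
  have hs : f.Splits := IsAlgClosed.splits f
  rw [hs.eq_prod_roots]
  refine selfInv_mul (selfInv_C (leadingCoeff_ne_zero.mpr hf)) (selfInv_prod _ ?_)
  intro z hz
  exact h z ((mem_roots hf).mp hz)

/-- The unit modulus case. -/
lemma toeplitz_one {Γ Q : ℂ[X]} (hΓ : Γ ≠ 0) (hroots : ∀ z, Γ.eval z = 0 → ‖z‖ = 1)
    {L : ℕ} (hL : Q.natDegree ≤ L)
    (h : ∀ m, Γ.natDegree ≤ m → m ≤ Γ.natDegree + L → (Γ ^ 2 * Q).coeff m = 0) : Q = 0 := by
  obtain ⟨_, ε, hε, hinv⟩ := selfInv_of_roots hΓ hroots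
  set d := Γ.natDegree with hd
  set H := Γ * Q with hH
  have hHdeg : H.natDegree ≤ d + L := natDegree_mul_le.trans (by omega)
  -- the reflected conjugate of `H`
  have h1 : reflect (d + L) (H.map (starRingEnd ℂ)) = C ε * Γ * reflect L (Q.map (starRingEnd ℂ)) := by
    rw [hH, Polynomial.map_mul, reflect_mul _ _ (natDegree_map_le.trans le_rfl)
      (natDegree_map_le.trans hL), hinv]
  have h2 : (H * reflect (d + L) (H.map (starRingEnd ℂ))).coeff (d + L) = 0 := by
    have : H * reflect (d + L) (H.map (starRingEnd ℂ)) =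
        C ε * ((Γ ^ 2 * Q) * reflect L (Q.map (starRingEnd ℂ))) := by
      rw [h1, hH]; ring
    rw [this, coeff_C_mul, coeff_mul]
    refine mul_eq_zero_of_right _ (Finset.sum_eq_zero ?_)
    intro x hx
    rw [Finset.HasAntidiagonal.mem_antidiagonal] at hx
    by_cases hx2 : x.2 ≤ L
    · rw [h x.1 (by omega) (by omega), zero_mul]
    · have : (reflect L (Q.map (starRingEnd ℂ))).coeff x.2 = 0 := by
        rw [coeff_reflect, revAt_eq_self_of_lt (by omega), coeff_map,
          coeff_eq_zero_of_natDegree_lt (by omega), map_zero]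
      rw [this, mul_zero]
  have h3 : (H * reflect (d + L) (H.map (starRingEnd ℂ))).coeff (d + L) =
      ((∑ n ∈ Finset.range (d + L + 1), ‖H.coeff n‖ ^ 2 : ℝ) : ℂ) := by
    rw [coeff_mul, Finset.Nat.sum_antidiagonal_eq_sum_range_succ
      (fun a b => H.coeff a * (reflect (d + L) (H.map (starRingEnd ℂ))).coeff b)]
    push_cast
    refine Finset.sum_congr rfl ?_
    intro n hn
    rw [Finset.mem_range] at hn
    rw [coeff_reflect, revAt_le (by omega), coeff_map]
    have : d + L - (d + L - n) = n := by omega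
    rw [this, Complex.mul_conj, Complex.normSq_eq_norm_sq]
    push_cast
    rfl
  rw [h3] at h2
  have h4 : (∑ n ∈ Finset.range (d + L + 1), ‖H.coeff n‖ ^ 2 : ℝ) = 0 := by exact_mod_cast h2
  have h5 : H = 0 := by
    ext n
    by_cases hn : n < d + L + 1
    · have := (Finset.sum_eq_zero_iff_of_nonneg (fun i _ => by positivity)).mp h4 n
        (Finset.mem_range.mpr hn)
      simpa using this
    · rw [coeff_eq_zero_of_natDegree_lt (by omega), coeff_zero]
  rcases mul_eq_zero.mp h5 with h6 | h6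
  · exact absurd h6 hΓ
  · exact h6

/-- **Toeplitz lemma.** If all roots of `Γ` have the same positive modulus `ρ` and
`Γ ^ 2 * Q` has no term in degrees `natDegree Γ, …, natDegree Γ + L`, where `natDegree Q ≤ L`,
then `Q = 0`. -/
lemma toeplitz {Γ Q : ℂ[X]} (hΓ : Γ ≠ 0) {ρ : ℝ} (hρ : 0 < ρ) (hroots : ∀ z, Γ.eval z = 0 → ‖z‖ = ρ)
    {L : ℕ} (hL : Q.natDegree ≤ L)
    (h : ∀ m, Γ.natDegree ≤ m → m ≤ Γ.natDegree + L → (Γ ^ 2 * Q).coeff m = 0) : Q = 0 := by
  have hρ0 : (ρ : ℂ) ≠ 0 := by exact_mod_cast hρ.ne'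
  set s : ℂ[X] := C (ρ : ℂ) * X with hs
  have hsdeg : s.natDegree = 1 := natDegree_C_mul_X _ hρ0
  have hcomp : ∀ p : ℂ[X], p.comp s = 0 → p = 0 := by
    intro p hp
    ext n
    have : (p.comp s).coeff n = 0 := by rw [hp, coeff_zero]
    rw [hs, comp_C_mul_X_coeff] at this
    rcases mul_eq_zero.mp this with h1 | h1
    · simpa using h1
    · exact absurd h1 (pow_ne_zero _ hρ0)
  have hdegs : ∀ p : ℂ[X], (p.comp s).natDegree = p.natDegree := by
    intro p; rw [natDegree_comp, hsdeg, mul_one]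
  apply hcomp
  refine toeplitz_one (Γ := Γ.comp s) (L := L) (fun h0 => hΓ (hcomp _ h0)) ?_ ?_ ?_
  · intro z hz
    rw [eval_comp] at hz
    have := hroots _ hz
    rw [hs, eval_mul, eval_C, eval_X, norm_mul] at this
    have hn : ‖(ρ : ℂ)‖ = ρ := by rw [Complex.norm_real, Real.norm_eq_abs, abs_of_pos hρ]
    rw [hn] at this
    have h' : ρ * (‖z‖ - 1) = 0 := by linarith
    rcases mul_eq_zero.mp h' with h1 | h1
    · exact absurd h1 hρ.ne'
    · linarith
  · rw [hdegs]; exact hL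
  · intro m h1 h2
    rw [hdegs] at h1 h2
    have : (Γ.comp s) ^ 2 * Q.comp s = (Γ ^ 2 * Q).comp s := by
      rw [mul_comp, pow_comp]
    rw [this, hs, comp_C_mul_X_coeff, h m h1 h2, zero_mul]

end Pool.Agent.Lib.MP_745d3a_ag
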